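import Mathlib

/-! Bonferroni inequalities and prime sums (copied from the team library of helper9). -/

set_option linter.unusedSectionVars false

namespace Pool.Agent.P.MP_746f10_nt

open Finset

variable {ι : Type*} [DecidableEq ι]

/-- A symmetric multilinear form in the weights `w i`, `i ∈ B`. -/
noncomputable def sform (B : Finset ι) (c : ℕ → ℝ) (w : ι → ℝ) : ℝ :=
  ∑ T ∈ B.powerset, c T.card * ∏ i ∈ T, w i

theorem sform_empty (c : ℕ → ℝ) (w : ι → ℝ) : sform (∅ : Finset ι) c w = c 0 := by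
  simp [sform]

theorem sform_insert {B : Finset ι} {x : ι} (hx : x ∉ B) (c : ℕ → ℝ) (w : ι → ℝ) :
    sform (insert x B) c w = sform B c w + w x * sform B (fun i => c (i + 1)) w := by
  unfold sform
  rw [sum_powerset_insert hx, mul_sum]
  congr 1
  refine sum_congr rfl fun T hT => ?_
  have hxT : x ∉ T := fun h => hx (mem_powerset.1 hT h)
  rw [card_insert_of_notMem hxT, prod_insert hxT]; ring

/-- truncated inclusion-exclusion coefficients -/
noncomputable def cY (m i : ℕ) : ℝ := if i < m then (-1) ^ i else 0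
/-- elementary symmetric coefficients -/
noncomputable def cZ (m i : ℕ) : ℝ := if i = m then 1 else 0

theorem sform_neg (B : Finset ι) (c : ℕ → ℝ) (w : ι → ℝ) :
    sform B (fun i => -c i) w = -sform B c w := by
  simp [sform, sum_neg_distrib]

theorem sform_zero (B : Finset ι) (w : ι → ℝ) : sform B (fun _ => 0) w = 0 := by
  simp [sform]

theorem sform_sub (B : Finset ι) (c d : ℕ → ℝ) (w : ι → ℝ) :
    sform B (fun i => c i - d i) w = sform B c w - sform B d w := by
  simp [sform, sub_mul, sum_sub_distrib]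

theorem bonferroni (B : Finset ι) (w : ι → ℝ) (hw : ∀ i ∈ B, 0 ≤ w i ∧ w i ≤ 1) (m : ℕ) :
    0 ≤ (-1) ^ m * (∏ i ∈ B, (1 - w i) - sform B (cY m) w) := by
  induction B using Finset.induction_on generalizing m with
  | empty =>
    rw [sform_empty]
    rcases m with _ | m <;> simp [cY]
  | insert x B hx ih =>
    have hB : ∀ i ∈ B, 0 ≤ w i ∧ w i ≤ 1 := fun i hi => hw i (mem_insert_of_mem hi)
    have hx0 := hw x (mem_insert_self _ _)
    rw [sform_insert hx, prod_insert hx]
    rcases m with _ | m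
    · have h0 : (cY 0) = fun _ => 0 := by ext i; simp [cY]
      have h1 : (fun i => cY 0 (i + 1)) = fun _ => 0 := by ext i; simp [cY]
      rw [h1, h0, sform_zero]
      have : 0 ≤ ∏ i ∈ B, (1 - w i) := prod_nonneg fun i hi => by linarith [(hB i hi).2]
      simp only [pow_zero, one_mul, mul_zero, add_zero, sub_zero]
      exact mul_nonneg (by linarith [hx0.2]) this
    · have h1 : (fun i => cY (m + 1) (i + 1)) = fun i => -cY m i := by
        ext i; simp only [cY, Nat.add_lt_add_iff_right]; split_ifs <;> simp [pow_succ]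
      rw [h1, sform_neg]
      have i1 := ih hB (m + 1)
      have i2 := ih hB m
      have : (-1 : ℝ) ^ (m + 1) * ((1 - w x) * ∏ i ∈ B, (1 - w i) -
          (sform B (cY (m + 1)) w + w x * -sform B (cY m) w)) =
          (-1) ^ (m + 1) * (∏ i ∈ B, (1 - w i) - sform B (cY (m + 1)) w) +
          w x * ((-1) ^ m * (∏ i ∈ B, (1 - w i) - sform B (cY m) w)) := by ring
      rw [this]
      exact add_nonneg i1 (mul_nonneg hx0.1 i2)

theorem prod_le_sform_cY (B : Finset ι) (w : ι → ℝ) (hw : ∀ i ∈ B, 0 ≤ w i ∧ w i ≤ 1) (k : ℕ) :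
    ∏ i ∈ B, (1 - w i) ≤ sform B (cY (2 * k + 1)) w := by
  have := bonferroni B w hw (2 * k + 1)
  rw [pow_succ, pow_mul] at this
  simp at this
  linarith

theorem sform_cY_sub_le (B : Finset ι) (w : ι → ℝ) (hw : ∀ i ∈ B, 0 ≤ w i ∧ w i ≤ 1) (k : ℕ) :
    sform B (cY (2 * k + 1)) w - ∏ i ∈ B, (1 - w i) ≤ sform B (cZ (2 * k + 1)) w := by
  have := bonferroni B w hw (2 * k + 2)
  have h1 : cY (2 * k + 2) = fun i => cY (2 * k + 1) i - cZ (2 * k + 1) i := by
    ext i
    simp only [cY, cZ]
    rcases lt_trichotomy i (2 * k + 1) with h | h | h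
    · rw [if_pos (by omega), if_pos h, if_neg (by omega)]; simp
    · subst h; simp [pow_succ, pow_mul]
    · rw [if_neg (by omega), if_neg (by omega), if_neg (by omega)]; simp
  rw [h1, sform_sub, show 2 * k + 2 = 2 * (k + 1) by ring, pow_mul] at this
  simp at this
  linarith

theorem sform_cZ_nonneg (B : Finset ι) (w : ι → ℝ) (hw : ∀ i ∈ B, 0 ≤ w i) (m : ℕ) :
    0 ≤ sform B (cZ m) w := by
  refine sum_nonneg fun T hT => mul_nonneg ?_ (prod_nonneg fun i hi => hw i (mem_powerset.1 hT hi))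
  unfold cZ; split_ifs <;> norm_num

theorem sform_cZ_le (B : Finset ι) (w : ι → ℝ) (hw : ∀ i ∈ B, 0 ≤ w i) (m : ℕ) :
    sform B (cZ m) w ≤ (∑ i ∈ B, w i) ^ m / m.factorial := by
  induction B using Finset.induction_on generalizing m with
  | empty =>
    rw [sform_empty]
    rcases m with _ | m <;> simp [cZ]
  | insert x B hx ih =>
    have hB : ∀ i ∈ B, 0 ≤ w i := fun i hi => hw i (mem_insert_of_mem hi)
    have hx0 := hw x (mem_insert_self _ _)
    rw [sform_insert hx, sum_insert hx]
    rcases m with _ | m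
    · have h1 : (fun i => cZ 0 (i + 1)) = fun _ => 0 := by ext i; simp [cZ]
      rw [h1, sform_zero]
      simpa using ih hB 0
    · have h1 : (fun i => cZ (m + 1) (i + 1)) = cZ m := by
        ext i; simp only [cZ, Nat.add_right_cancel_iff]
      rw [h1]
      have i1 := ih hB (m + 1)
      have i2 := ih hB m
      set s := ∑ i ∈ B, w i
      have hs : 0 ≤ s := sum_nonneg hB
      have hbern : s ^ (m + 1) + (m + 1) * s ^ m * w x ≤ (w x + s) ^ (m + 1) := by
        have := pow_add_mul_le_add_pow hs (show 0 ≤ 2 * s + w x by positivity) (m + 1)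
        simpa [add_comm] using this
      have hf : (0 : ℝ) < m.factorial := by positivity
      calc sform B (cZ (m + 1)) w + w x * sform B (cZ m) w
          ≤ s ^ (m + 1) / (m + 1).factorial + w x * (s ^ m / m.factorial) := by gcongr
        _ = (s ^ (m + 1) + (m + 1) * s ^ m * w x) / (m + 1).factorial := by
          rw [Nat.factorial_succ]; push_cast; field_simp
        _ ≤ _ := by gcongr

theorem prod_sub_prod_le {κ : Type*} [DecidableEq κ] (s : Finset κ) (x y : κ → ℝ)
    (hx : ∀ j ∈ s, 0 ≤ x j) (hxy : ∀ j ∈ s, x j ≤ y j) :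
    ∏ j ∈ s, y j - ∏ j ∈ s, x j ≤ ∑ l ∈ s, (y l - x l) * ∏ j ∈ s.erase l, y j := by
  induction s using Finset.induction_on with
  | empty => simp
  | insert a s ha ih =>
    have hx' : ∀ j ∈ s, 0 ≤ x j := fun j hj => hx j (mem_insert_of_mem hj)
    have hxy' : ∀ j ∈ s, x j ≤ y j := fun j hj => hxy j (mem_insert_of_mem hj)
    have i1 := ih hx' hxy'
    have hxa := hx a (mem_insert_self _ _)
    have hya := hxy a (mem_insert_self _ _)
    rw [prod_insert ha, prod_insert ha, sum_insert ha, erase_insert ha]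
    have h2 : ∑ l ∈ s, (y l - x l) * ∏ j ∈ (insert a s).erase l, y j =
        y a * ∑ l ∈ s, (y l - x l) * ∏ j ∈ s.erase l, y j := by
      rw [mul_sum]
      refine sum_congr rfl fun l hl => ?_
      have hal : a ≠ l := fun h => ha (h ▸ hl)
      rw [erase_insert_of_ne hal, prod_insert (fun h => ha (mem_of_mem_erase h))]; ring
    rw [h2]
    have hS : 0 ≤ ∑ l ∈ s, (y l - x l) * ∏ j ∈ s.erase l, y j :=
      sum_nonneg fun l hl => mul_nonneg (by linarith [hxy' l hl])
        (prod_nonneg fun j hj => (hx' j (mem_of_mem_erase hj)).trans (hxy' j (mem_of_mem_erase hj)))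
    nlinarith [mul_le_mul_of_nonneg_left i1 hxa, mul_le_mul_of_nonneg_right hya hS]

variable {κ : Type*} [Fintype κ] [DecidableEq κ]

theorem prod_sform_eq (B : κ → Finset ι) (hB : Pairwise fun i j => Disjoint (B i) (B j))
    (c : κ → ℕ → ℝ) (w : ι → ℝ) :
    ∏ j, sform (B j) (c j) w =
      ∑ τ ∈ Fintype.piFinset (fun j => (B j).powerset),
        (∏ j, c j (τ j).card) * ∏ i ∈ univ.biUnion τ, w i := by
  unfold sform
  rw [prod_univ_sum]
  refine sum_congr rfl fun τ hτ => ?_
  rw [prod_mul_distrib, prod_biUnion]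
  intro i _ j _ hij
  rw [Fintype.mem_piFinset] at hτ
  exact (hB hij).mono (mem_powerset.1 (hτ i)) (mem_powerset.1 (hτ j))



open Real

/-- Upper bound in Mertens' first theorem. -/
theorem sum_log_div_le (N : ℕ) (hN : 1 ≤ N) :
    ∑ p ∈ (range (N + 1)).filter Nat.Prime, Real.log p / p ≤ Real.log N + Real.log 4 := by
  have hNpos : (0 : ℝ) < N := by exact_mod_cast hN
  set P := (range (N + 1)).filter Nat.Prime
  have h1 : ∑ p ∈ P, ((N / p : ℕ) : ℝ) * Real.log p ≤ Real.log (N.factorial) := by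
    rw [Real.log_nat_eq_sum_factorization, Finsupp.sum]
    have hsub : P = N.factorial.factorization.support := by
      ext p
      simp only [P, mem_filter, mem_range, Nat.support_factorization, Nat.mem_primeFactors]
      constructor
      · rintro ⟨h, hp⟩
        exact ⟨hp, (hp.dvd_factorial).2 (by omega), N.factorial_ne_zero⟩
      · rintro ⟨hp, h, _⟩
        exact ⟨by have := (hp.dvd_factorial).1 h; omega, hp⟩
    rw [← hsub]
    refine sum_le_sum fun p hp => ?_
    have hpp : p.Prime := (mem_filter.1 hp).2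
    refine mul_le_mul_of_nonneg_right ?_ (Real.log_natCast_nonneg p)
    rw [Nat.factorization_factorial hpp (b := Nat.log p N + 2) (by omega)]
    have : N / p ≤ ∑ i ∈ Ico 1 (Nat.log p N + 2), N / p ^ i := by
      have := single_le_sum (f := fun i => N / p ^ i) (s := Ico 1 (Nat.log p N + 2))
        (fun _ _ => Nat.zero_le _) (a := 1) (by simp)
      simpa using this
    exact_mod_cast this
  have h2 : Real.log (N.factorial) ≤ N * Real.log N := by
    rw [← Real.log_pow]
    apply Real.log_le_log (by positivity)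
    exact_mod_cast Nat.factorial_le_pow N
  have h3 : ∑ p ∈ P, Real.log p ≤ Real.log 4 * N := by
    have := Chebyshev.theta_le_log4_mul_x (x := N) hNpos.le
    rw [Chebyshev.theta_eq_sum_Icc, Nat.floor_natCast] at this
    convert this using 2
    ext p; simp [P]
  have h4 : N * ∑ p ∈ P, Real.log p / p ≤ ∑ p ∈ P, ((N / p : ℕ) : ℝ) * Real.log p +
      ∑ p ∈ P, Real.log p := by
    rw [mul_sum, ← sum_add_distrib]
    refine sum_le_sum fun p hp => ?_
    have hpp : p.Prime := (mem_filter.1 hp).2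
    have hp0 : (0 : ℝ) < p := by exact_mod_cast hpp.pos
    have hl := Real.log_natCast_nonneg p
    have : (N : ℝ) / p ≤ ((N / p : ℕ) : ℝ) + 1 := by
      rw [div_le_iff₀ hp0]
      have := Nat.lt_div_mul_add (a := N) hpp.pos
      have h' : (N : ℝ) < ((N / p : ℕ) : ℝ) * p + p := by exact_mod_cast this
      linarith
    calc (N : ℝ) * (Real.log p / p) = (N / p) * Real.log p := by ring
      _ ≤ (((N / p : ℕ) : ℝ) + 1) * Real.log p := by gcongr
      _ = _ := by ring
  have : N * ∑ p ∈ P, Real.log p / p ≤ N * (Real.log N + Real.log 4) := by nlinarith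
  exact le_of_mul_le_mul_left this hNpos

theorem sum_inv_block_le (B : Finset ℕ) (hB : ∀ p ∈ B, p.Prime)
    (h : ∀ p ∈ B, ∀ q ∈ B, q < p ^ 2) : ∑ p ∈ B, (1 : ℝ) / p ≤ 6 := by
  rcases B.eq_empty_or_nonempty with rfl | hne
  · simp
  set N := B.max' hne
  have hNB : N ∈ B := B.max'_mem hne
  have hN2 : 2 ≤ N := (hB N hNB).two_le
  have hlog2 : Real.log 2 ≤ Real.log N := Real.log_le_log (by norm_num) (by exact_mod_cast hN2)
  have hl2 : 0 < Real.log 2 := Real.log_pos (by norm_num)
  have hlN : 0 < Real.log N := by linarith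
  have h1 := sum_log_div_le N (by omega)
  have h2 : ∑ p ∈ B, Real.log p / p ≤ ∑ p ∈ (range (N + 1)).filter Nat.Prime, Real.log p / p := by
    refine sum_le_sum_of_subset_of_nonneg ?_ (fun p _ _ => by positivity)
    intro p hp
    simp only [mem_filter, mem_range]
    exact ⟨Nat.lt_succ_of_le (B.le_max' p hp), hB p hp⟩
  have h3 : Real.log N * ∑ p ∈ B, (1 : ℝ) / p ≤ 2 * ∑ p ∈ B, Real.log p / p := by
    rw [mul_sum, mul_sum]
    refine sum_le_sum fun p hp => ?_
    have hp0 : (0 : ℝ) < p := by exact_mod_cast (hB p hp).pos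
    have : Real.log N ≤ 2 * Real.log p := by
      have h' : (N : ℝ) ≤ (p : ℝ) ^ 2 := by exact_mod_cast (h p hp N hNB).le
      calc Real.log N ≤ Real.log ((p : ℝ) ^ 2) := Real.log_le_log (by positivity) h'
        _ = 2 * Real.log p := by rw [Real.log_pow]; norm_num
    calc Real.log N * (1 / p) ≤ 2 * Real.log p * (1 / p) := by gcongr
      _ = _ := by ring
  have h4 : Real.log 4 = 2 * Real.log 2 := by
    rw [show (4 : ℝ) = 2 ^ 2 by norm_num, Real.log_pow]; norm_num
  have : Real.log N * ∑ p ∈ B, (1 : ℝ) / p ≤ Real.log N * 6 := by nlinarith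
  exact le_of_mul_le_mul_left this hlN

theorem exp_neg_le_one_sub {g η : ℝ} (hη : 0 < η) (h0 : 0 ≤ g) (h1 : g ≤ 1 - η) :
    Real.exp (-(g / η)) ≤ 1 - g := by
  have h2 : 0 < 1 - g := by linarith
  have h3 : 1 / (1 - g) ≤ Real.exp (g / η) := by
    calc 1 / (1 - g) = g / (1 - g) + 1 := by field_simp; ring
      _ ≤ g / η + 1 := by gcongr; linarith
      _ ≤ _ := Real.add_one_le_exp _
  rw [Real.exp_neg, inv_le_comm₀ (Real.exp_pos _) h2, ← one_div]
  exact h3

theorem exp_neg_le_prod {ι : Type*} (B : Finset ι) (g : ι → ℝ) {η : ℝ} (hη : 0 < η)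
    (h : ∀ i ∈ B, 0 ≤ g i ∧ g i ≤ 1 - η) :
    Real.exp (-((∑ i ∈ B, g i) / η)) ≤ ∏ i ∈ B, (1 - g i) := by
  rw [sum_div, ← sum_neg_distrib, Real.exp_sum]
  exact prod_le_prod (fun _ _ => (Real.exp_pos _).le)
    (fun i hi => exp_neg_le_one_sub hη (h i hi).1 (h i hi).2)

theorem sum_lin_div_two_pow (a : ℝ) (J : ℕ) :
    ∑ j ∈ range J, (a + 2 * j) / 2 ^ j = 2 * a + 4 - (2 * a + 4 * J + 4) / 2 ^ J := by
  induction J with
  | zero => simp
  | succ J ih => rw [sum_range_succ, ih]; push_cast; field_simp; ring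

/-- The block index of the prime `p` below `z`. -/
def bidx (z p : ℕ) : ℕ := Nat.log 2 (Nat.log p z)

theorem bidx_spec {z p : ℕ} (hp : 2 ≤ p) (hpz : p ≤ z) :
    p ^ 2 ^ bidx z p ≤ z ∧ z < p ^ 2 ^ (bidx z p + 1) ∧ bidx z p < z := by
  have h1 : 1 ≤ Nat.log p z := Nat.log_pos (by omega) hpz
  refine ⟨?_, ?_, ?_⟩
  · calc p ^ 2 ^ bidx z p ≤ p ^ Nat.log p z :=
          Nat.pow_le_pow_right (by omega) (Nat.pow_log_le_self 2 (by omega))
      _ ≤ z := Nat.pow_log_le_self p (by omega)
  · calc z < p ^ (Nat.log p z + 1) := Nat.lt_pow_succ_log_self (by omega) z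
      _ ≤ _ := Nat.pow_le_pow_right (by omega) (Nat.lt_pow_succ_log_self (by omega) _)
  · calc bidx z p ≤ Nat.log p z := Nat.log_le_self _ _
      _ < z := Nat.log_lt_self p (by omega)


end Pool.Agent.P.MP_746f10_nt
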