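import Mathlib
import Pool.Agent.P.MP_746f10_nt.BH

/-! Rough numbers, Mertens type bounds, divisor bounds, Abel inequality. -/

namespace Pool.Agent.P.MP_746f10_nt

open Finset Real

/-- All prime factors exceed `w`. -/
def rough (w n : ℕ) : Prop := ∀ p, p.Prime → p ∣ n → w < p

/-- Primes in the interval from a (excluded) to b. -/
def PP (a b : ℕ) : Finset ℕ := (Ioc a b).filter Nat.Prime

lemma mem_PP {a b p : ℕ} : p ∈ PP a b ↔ a < p ∧ p ≤ b ∧ p.Prime := by
  simp [PP, and_assoc]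

lemma PP_prime {a b p : ℕ} (h : p ∈ PP a b) : p.Prime := (mem_PP.1 h).2.2

lemma PP_two {a b p : ℕ} (h : p ∈ PP a b) : (2 : ℝ) ≤ p := by exact_mod_cast (PP_prime h).two_le

/-- The sifting density. -/
noncomputable def VV (w : ℕ) : ℝ := ∏ p ∈ PP 0 w, (1 - 1 / (p : ℝ))

/-- The inverse product over primes in the interval from w (excluded) to Y. -/
noncomputable def Th (w Y : ℕ) : ℝ := ∏ p ∈ PP w Y, (1 - 1 / (p : ℝ))⁻¹

lemma one_sub_inv_pos {p : ℝ} (hp : 2 ≤ p) : 0 < 1 - 1 / p := by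
  have : 1 / p ≤ 1 / 2 := one_div_le_one_div_of_le (by norm_num) hp
  linarith

lemma VV_pos (w : ℕ) : 0 < VV w := prod_pos fun _ hp => one_sub_inv_pos (PP_two hp)

lemma VV_le_one (w : ℕ) : VV w ≤ 1 :=
  prod_le_one (fun _ hp => (one_sub_inv_pos (PP_two hp)).le) fun p _ => by
    have : (0 : ℝ) ≤ 1 / p := by positivity
    linarith

lemma PP_union {a b c : ℕ} (hab : a ≤ b) (hbc : b ≤ c) : PP a c = PP a b ∪ PP b c := by
  ext p; simp only [mem_union, mem_PP]; constructor
  · rintro ⟨h1, h2, h3⟩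
    by_cases h : p ≤ b
    · exact Or.inl ⟨h1, h, h3⟩
    · exact Or.inr ⟨by omega, h2, h3⟩
  · rintro (⟨h1, h2, h3⟩ | ⟨h1, h2, h3⟩) <;> exact ⟨by omega, by omega, h3⟩

lemma PP_disj (a b c : ℕ) : Disjoint (PP a b) (PP b c) := by
  rw [disjoint_left]; intro p h1 h2
  have := mem_PP.1 h1; have := mem_PP.1 h2; omega

lemma prod_PP_split {M : Type*} [CommMonoid M] {a b c : ℕ} (hab : a ≤ b) (hbc : b ≤ c) (f : ℕ → M) :
    ∏ p ∈ PP a c, f p = (∏ p ∈ PP a b, f p) * ∏ p ∈ PP b c, f p := by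
  rw [PP_union hab hbc, prod_union (PP_disj a b c)]

lemma one_le_prod_real {ι : Type*} {s : Finset ι} {f : ι → ℝ} (h : ∀ i ∈ s, 1 ≤ f i) :
    1 ≤ ∏ i ∈ s, f i := by
  calc (1 : ℝ) = ∏ _i ∈ s, (1 : ℝ) := by simp
    _ ≤ _ := prod_le_prod (fun _ _ => zero_le_one) h

lemma one_le_Th (w Y : ℕ) : 1 ≤ Th w Y := by
  refine one_le_prod_real fun p hp => ?_
  have h := one_sub_inv_pos (PP_two hp)
  rw [one_le_inv₀ h]
  have : (0 : ℝ) ≤ 1 / p := by positivity
  linarith

lemma VV_mul_Th {w Y : ℕ} (h : w ≤ Y) : VV Y * Th w Y = VV w := by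
  unfold VV Th
  rw [prod_PP_split (Nat.zero_le w) h, mul_assoc, ← prod_mul_distrib]
  rw [prod_eq_one (s := PP w Y), mul_one]
  intro p hp
  exact mul_inv_cancel₀ (one_sub_inv_pos (PP_two hp)).ne'

lemma VV_anti {w Y : ℕ} (h : w ≤ Y) : VV Y ≤ VV w := by
  rw [← VV_mul_Th h]
  exact le_mul_of_one_le_right (VV_pos Y).le (one_le_Th w Y)

lemma sum_inv_factored {U : Finset ℕ} (hU : ∀ p ∈ U, p.Prime) (A : Finset ℕ)
    (hA : ∀ n ∈ A, n ∈ Nat.factoredNumbers U) :
    ∑ n ∈ A, (n : ℝ)⁻¹ ≤ ∏ p ∈ U, (1 - (p : ℝ)⁻¹)⁻¹ := by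
  let f : ℕ →* ℝ := ⟨⟨fun n => (n : ℝ)⁻¹, by simp⟩, fun a b => by push_cast; rw [mul_inv]⟩
  have hf : ∀ {p : ℕ}, p.Prime → ‖f p‖ < 1 := by
    intro p hp
    have : (1 : ℝ) < p := by exact_mod_cast hp.one_lt
    change ‖(p : ℝ)⁻¹‖ < 1
    rw [Real.norm_eq_abs, abs_of_nonneg (by positivity)]
    exact inv_lt_one_of_one_lt₀ this
  have h := (EulerProduct.summable_and_hasSum_factoredNumbers_prod_filter_prime_geometric hf U).2
  rw [Finset.filter_true_of_mem hU] at h
  have h2 := sum_le_hasSum (A.subtype (· ∈ Nat.factoredNumbers U))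
    (fun i _ => (by change (0 : ℝ) ≤ ((i : ℕ) : ℝ)⁻¹; positivity)) h
  refine le_trans (le_of_eq ?_) h2
  exact (Finset.sum_subtype_of_mem (fun n : ℕ => (n : ℝ)⁻¹) hA).symm

lemma log_le_sum_inv (Y : ℕ) : Real.log (Y + 1) ≤ ∑ n ∈ Ioc 0 Y, (n : ℝ)⁻¹ := by
  induction Y with
  | zero => simp
  | succ Y ih =>
    rw [sum_Ioc_succ_top (Nat.zero_le Y)]
    have hY : (0 : ℝ) < Y + 1 := by positivity
    have h3 : Real.log ((Y : ℝ) + 1 + 1) - Real.log (Y + 1) ≤ ((Y : ℝ) + 1)⁻¹ := by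
      rw [← Real.log_div (by positivity) hY.ne']
      refine (Real.log_le_sub_one_of_pos (by positivity)).trans (le_of_eq ?_)
      field_simp; ring
    push_cast; linarith

lemma sum_inv_le_log (Y : ℕ) : ∑ n ∈ Ioc 0 Y, (n : ℝ)⁻¹ ≤ 1 + Real.log Y := by
  induction Y with
  | zero => simp
  | succ Y ih =>
    rw [sum_Ioc_succ_top (Nat.zero_le Y)]
    rcases Nat.eq_zero_or_pos Y with rfl | hY
    · simp
    have hY' : (0 : ℝ) < Y := by exact_mod_cast hY
    have h3 : Real.log Y - Real.log (Y + 1) ≤ -((Y : ℝ) + 1)⁻¹ := by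
      rw [← Real.log_div (by positivity) (by positivity)]
      refine (Real.log_le_sub_one_of_pos (by positivity)).trans (le_of_eq ?_)
      field_simp; ring
    push_cast; linarith

/-- The sum of `1/φ` over squarefree products of primes in the interval from w (excluded) to R that are at most `Y`. -/
noncomputable def hh (w R Y : ℕ) : ℝ :=
  ∑ U ∈ (PP w R).powerset, if ∏ p ∈ U, p ≤ Y then ∏ p ∈ U, ((p : ℝ) - 1)⁻¹ else 0

lemma hh_ge {w R Y : ℕ} (hY : Y ≤ R) : VV w * Real.log (Y + 1) ≤ hh w R Y := by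
  classical
  have key : ∑ n ∈ Ioc 0 Y, (n : ℝ)⁻¹ ≤ (VV w)⁻¹ * hh w R Y := by
    rw [← sum_fiberwise_of_maps_to (g := fun n : ℕ => n.primeFactors.filter (w < ·))
      (t := (PP w R).powerset)]
    · unfold hh
      rw [mul_sum]
      refine sum_le_sum fun U hU => ?_
      have hUp : ∀ p ∈ U, p ∈ PP w R := fun p hp => mem_powerset.1 hU hp
      set A := (Ioc 0 Y).filter (fun n : ℕ => n.primeFactors.filter (w < ·) = U) with hA
      set d := ∏ p ∈ U, p with hd
      have hd0 : 0 < d := prod_pos fun p hp => (PP_prime (hUp p hp)).pos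
      have hdvd : ∀ n ∈ A, d ∣ n := by
        intro n hn
        rw [hd, ← (mem_filter.1 hn).2]
        exact (prod_dvd_prod_of_subset _ _ _ (filter_subset _ _)).trans (Nat.prod_primeFactors_dvd n)
      split_ifs with hdY
      · have hinj : Set.InjOn (fun n => n / d) (A : Set ℕ) := by
          intro a ha b hb h
          rw [← Nat.div_mul_cancel (hdvd a ha), ← Nat.div_mul_cancel (hdvd b hb)]
          exact congrArg (· * d) h
        have hdisj : Disjoint (PP 0 w) U := by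
          rw [disjoint_left]; intro p h1 h2
          have := mem_PP.1 h1; have := mem_PP.1 (hUp p h2); omega
        have h1 := sum_inv_factored (U := PP 0 w ∪ U)
          (fun p hp => (mem_union.1 hp).elim PP_prime fun h => PP_prime (hUp p h))
          (A.image fun n => n / d) (by
          intro m hm
          obtain ⟨n, hn, rfl⟩ := mem_image.1 hm
          refine Nat.mem_factoredNumbers_of_dvd (m := n) ?_ (Nat.div_dvd_of_dvd (hdvd n hn))
          have hn0 : n ≠ 0 := (mem_Ioc.1 (mem_filter.1 hn).1).1.ne'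
          refine Nat.mem_factoredNumbers_of_primeFactors_subset hn0 fun p hp => ?_
          have hpp := Nat.prime_of_mem_primeFactors hp
          by_cases hpw : w < p
          · refine mem_union_right _ ?_
            rw [← (mem_filter.1 hn).2]; exact mem_filter.2 ⟨hp, hpw⟩
          · exact mem_union_left _ (mem_PP.2 ⟨hpp.pos, by omega, hpp⟩))
        rw [sum_image hinj, prod_union hdisj] at h1
        have hd' : (0 : ℝ) < d := by exact_mod_cast hd0
        have h2 : ∑ n ∈ A, (n : ℝ)⁻¹ = (d : ℝ)⁻¹ * ∑ n ∈ A, ((n / d : ℕ) : ℝ)⁻¹ := by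
          rw [mul_sum]
          refine sum_congr rfl fun n hn => ?_
          rw [← mul_inv, ← Nat.cast_mul, Nat.mul_div_cancel' (hdvd n hn)]
        rw [h2]
        refine (mul_le_mul_of_nonneg_left h1 (by positivity)).trans (le_of_eq ?_)
        rw [mul_left_comm]
        congr 1
        · unfold VV; rw [← prod_inv_distrib]; simp
        rw [hd, Nat.cast_prod, ← prod_inv_distrib, ← prod_mul_distrib]
        refine prod_congr rfl fun p hp => ?_
        have := PP_two (hUp p hp)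
        have h3 : (p : ℝ) - 1 ≠ 0 := by linarith
        field_simp
      · have : A = ∅ := by
          rw [eq_empty_iff_forall_notMem]
          intro n hn
          have h1 := mem_Ioc.1 (mem_filter.1 hn).1
          exact hdY ((Nat.le_of_dvd h1.1 (hdvd n hn)).trans h1.2)
        rw [this]; simp
    · intro n hn
      refine mem_powerset.2 fun p hp => ?_
      obtain ⟨h1, h2⟩ := mem_filter.1 hp
      have h3 := mem_Ioc.1 hn
      exact mem_PP.2 ⟨h2, (Nat.le_of_dvd h3.1 (Nat.dvd_of_mem_primeFactors h1)).trans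
        (h3.2.trans hY), Nat.prime_of_mem_primeFactors h1⟩
  have h2 := (log_le_sum_inv Y).trans key
  have := VV_pos w
  calc VV w * Real.log (Y + 1) ≤ VV w * ((VV w)⁻¹ * hh w R Y) := by gcongr
    _ = _ := by field_simp

lemma hh_le (w R Y : ℕ) : hh w R Y ≤ Th w Y := by
  classical
  have h1 : Th w Y = ∑ U ∈ (PP w Y).powerset, ∏ p ∈ U, ((p : ℝ) - 1)⁻¹ := by
    rw [← prod_one_add]
    refine prod_congr rfl fun p hp => ?_
    have := PP_two hp
    have h3 : (p : ℝ) - 1 ≠ 0 := by linarith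
    field_simp; ring
  rw [h1]
  unfold hh
  rw [← sum_filter]
  refine sum_le_sum_of_subset_of_nonneg ?_ fun U hU _ => prod_nonneg fun p hp => ?_
  · intro U hU
    obtain ⟨h2, h3⟩ := mem_filter.1 hU
    refine mem_powerset.2 fun p hp => ?_
    have h4 := mem_PP.1 (mem_powerset.1 h2 hp)
    refine mem_PP.2 ⟨h4.1, le_trans ?_ h3, h4.2.2⟩
    exact Nat.le_of_dvd (prod_pos fun q hq => (PP_prime (mem_powerset.1 h2 hq)).pos)
      (dvd_prod_of_mem _ hp)
  · have := PP_two (mem_powerset.1 hU hp)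
    have : (0 : ℝ) < p - 1 := by linarith
    positivity

lemma VV_mul_log_le (w : ℕ) : VV w * Real.log (w + 1) ≤ 1 := by
  have h := hh_ge (w := w) (R := w) (Y := w) le_rfl
  have h2 := hh_le w w w
  have : Th w w = 1 := by simp [Th, PP]
  linarith

lemma VV_mul_log_le' (w : ℕ) : VV w * Real.log w ≤ 1 := by
  refine le_trans ?_ (VV_mul_log_le w)
  rcases Nat.eq_zero_or_pos w with rfl | hw
  · simp
  have : (0 : ℝ) < w := by exact_mod_cast hw
  have := VV_pos w
  gcongr; linarith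

lemma sum_inv_prime_le (Y : ℕ) (hY : 2 ≤ Y) :
    ∑ p ∈ PP 0 Y, (1 : ℝ) / p ≤ Real.log (Real.log Y) + 6 := by
  set A : ℕ → ℝ := fun N => ∑ p ∈ PP 0 N, Real.log p / p with hA
  have hAle : ∀ N, 1 ≤ N → A N ≤ Real.log N + Real.log 4 := by
    intro N hN
    have := sum_log_div_le N hN
    refine le_trans (le_of_eq ?_) this
    refine sum_congr ?_ fun _ _ => rfl
    ext p; simp only [mem_PP, mem_filter, mem_range]
    exact ⟨fun h => ⟨by omega, h.2.2⟩, fun h => ⟨h.2.pos, by omega, h.2⟩⟩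
  have hl2 : 0.6931471803 < Real.log 2 := Real.log_two_gt_d9
  have hl2' := Real.log_two_lt_d9
  have h4 : Real.log 4 = 2 * Real.log 2 := by
    rw [show (4 : ℝ) = 2 ^ 2 by norm_num, Real.log_pow]; norm_num
  have key : ∀ N, 2 ≤ N → ∑ p ∈ PP 0 N, (1 : ℝ) / p - A N / Real.log N ≤
      Real.log (Real.log N) + 3 - Real.log 4 / Real.log N := by
    intro N hN
    induction N, hN using Nat.le_induction with
    | base =>
      have e : PP 0 2 = {2} := by decide
      simp only [hA, e, sum_singleton]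
      have : Real.log 4 / Real.log 2 = 2 := by rw [h4]; field_simp
      have h5 : -1 ≤ Real.log (Real.log 2) := by
        rw [Real.le_log_iff_exp_le (by linarith)]
        have := Real.exp_neg_one_lt_d9; linarith
      push_cast
      rw [this, div_div_cancel_left' (by linarith)]
      linarith
    | succ N hN ih =>
      have hN' : (2 : ℝ) ≤ N := by exact_mod_cast hN
      have ha : Real.log 2 ≤ Real.log N := Real.log_le_log (by norm_num) hN'
      have hab : Real.log N ≤ Real.log (N + 1) := Real.log_le_log (by linarith) (by linarith)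
      set a := Real.log N
      set b := Real.log ((N : ℝ) + 1)
      have ha0 : 0 < a := by linarith
      have hb0 : 0 < b := by linarith
      have hstep : ∑ p ∈ PP 0 (N + 1), (1 : ℝ) / p - A (N + 1) / b =
          ∑ p ∈ PP 0 N, (1 : ℝ) / p - A N / b := by
        simp only [hA, PP, sum_filter]
        rw [sum_Ioc_succ_top (Nat.zero_le N), sum_Ioc_succ_top (Nat.zero_le N)]
        split_ifs
        · push_cast; field_simp; ring
        · simp
      push_cast
      rw [hstep]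
      have h6 := hAle N (by omega)
      have h7 : (b - a) / b ≤ Real.log b - Real.log a := by
        have := Real.log_le_sub_one_of_pos (show 0 < a / b by positivity)
        rw [Real.log_div ha0.ne' hb0.ne'] at this
        have e : (b - a) / b = 1 - a / b := by field_simp
        linarith
      have h8 : A N / a - A N / b ≤ (b - a) / b + Real.log 4 / a - Real.log 4 / b := by
        have e1 : A N / a - A N / b = A N * ((b - a) / (a * b)) := by field_simp
        have e2 : (b - a) / b + Real.log 4 / a - Real.log 4 / b =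
          (a + Real.log 4) * ((b - a) / (a * b)) := by field_simp; ring
        rw [e1, e2]
        have : 0 ≤ (b - a) / (a * b) := div_nonneg (by linarith) (by positivity)
        gcongr
      linarith
  have h1 := key Y hY
  have hY' : (2 : ℝ) ≤ Y := by exact_mod_cast hY
  have ha : Real.log 2 ≤ Real.log Y := Real.log_le_log (by norm_num) hY'
  have h2 : A Y / Real.log Y ≤ 1 + Real.log 4 / Real.log Y := by
    rw [div_le_iff₀ (by linarith), add_mul, div_mul_cancel₀ _ (by linarith)]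
    have := hAle Y (by omega); linarith
  linarith

lemma sum_inv_sq_le (a b : ℕ) (ha : 1 ≤ a) : ∑ n ∈ Ioc a b, 1 / (n : ℝ) ^ 2 ≤ 1 / (a : ℝ) := by
  have key : ∀ b, a ≤ b → ∑ n ∈ Ioc a b, 1 / (n : ℝ) ^ 2 ≤ 1 / (a : ℝ) - 1 / (b : ℝ) := by
    intro b hb
    induction b, hb using Nat.le_induction with
    | base => simp
    | succ b hb ih =>
      rw [sum_Ioc_succ_top hb]
      have hb' : (1 : ℝ) ≤ b := by exact_mod_cast ha.trans hb
      have : 1 / ((b : ℝ) + 1) ^ 2 ≤ 1 / b - 1 / (b + 1) := by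
        rw [div_sub_div _ _ (by positivity) (by positivity), div_le_div_iff₀ (by positivity)
          (by positivity)]
        nlinarith
      push_cast; linarith
  by_cases h : a ≤ b
  · have := key b h
    have : (0 : ℝ) ≤ 1 / b := by positivity
    linarith
  · rw [Ioc_eq_empty (by omega)]; simp

lemma sum_PP_inv_sq_le (a b : ℕ) (ha : 1 ≤ a) : ∑ p ∈ PP a b, 1 / (p : ℝ) ^ 2 ≤ 1 / (a : ℝ) :=
  le_trans (sum_le_sum_of_subset_of_nonneg (filter_subset _ _) fun _ _ _ => by positivity)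
    (sum_inv_sq_le a b ha)

/-- The Mertens constant used throughout. -/
noncomputable def CM : ℝ := Real.exp 8

lemma one_le_CM : 1 ≤ CM := Real.one_le_exp (by norm_num)

lemma inv_VV_le (Y : ℕ) (hY : 2 ≤ Y) : (VV Y)⁻¹ ≤ CM * Real.log Y := by
  have h1 := sum_inv_prime_le Y hY
  have h2 := sum_PP_inv_sq_le 1 Y le_rfl
  have e : PP 0 Y = PP 1 Y := by
    ext p; simp only [mem_PP]
    exact ⟨fun h => ⟨h.2.2.one_lt, h.2⟩, fun h => ⟨by omega, h.2⟩⟩
  have hY' : (2 : ℝ) ≤ Y := by exact_mod_cast hY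
  have hl : 0 < Real.log Y := Real.log_pos (by linarith)
  calc (VV Y)⁻¹ = ∏ p ∈ PP 0 Y, (1 - 1 / (p : ℝ))⁻¹ := by unfold VV; rw [prod_inv_distrib]
    _ ≤ ∏ p ∈ PP 0 Y, Real.exp (1 / p + 2 * (1 / (p : ℝ) ^ 2)) := by
      refine prod_le_prod (fun p hp => (inv_pos.2 (one_sub_inv_pos (PP_two hp))).le) fun p hp => ?_
      refine le_trans ?_ (Real.add_one_le_exp _)
      have := PP_two hp
      rw [inv_le_iff_one_le_mul₀ (one_sub_inv_pos this)]
      have e : (1 / p + 2 * (1 / (p : ℝ) ^ 2) + 1) * (1 - 1 / p) =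
        1 + ((p : ℝ) - 2) / p ^ 3 := by field_simp; ring
      rw [e]
      have : 0 ≤ ((p : ℝ) - 2) / p ^ 3 := div_nonneg (by linarith) (by positivity)
      linarith
    _ = Real.exp (∑ p ∈ PP 0 Y, (1 : ℝ) / p + 2 * ∑ p ∈ PP 0 Y, 1 / (p : ℝ) ^ 2) := by
      rw [← Real.exp_sum, sum_add_distrib, mul_sum]
    _ ≤ Real.exp (Real.log (Real.log Y) + 8) := by
      rw [e] at h1 ⊢
      apply Real.exp_le_exp.2
      simp only [Nat.cast_one, div_one] at h2
      linarith
    _ = _ := by rw [Real.exp_add, Real.exp_log hl, CM, mul_comm]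

lemma Th_le {w Y : ℕ} (h : w ≤ Y) (hY : 2 ≤ Y) : Th w Y ≤ CM * VV w * Real.log Y := by
  have h1 := VV_mul_Th h
  have h2 := inv_VV_le Y hY
  have := VV_pos Y
  have := VV_pos w
  calc Th w Y = (VV Y)⁻¹ * VV w := by rw [← h1]; field_simp
    _ ≤ CM * Real.log Y * VV w := by gcongr
    _ = _ := by ring

lemma Th_le_pow {w e : ℕ} (hw : 2 ≤ w) (he : 1 ≤ e) : Th w (w ^ e) ≤ CM * e := by
  have h1 : w ≤ w ^ e := Nat.le_self_pow (by omega) w
  refine (Th_le h1 (hw.trans h1)).trans ?_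
  have := VV_mul_log_le' w
  push_cast
  rw [Real.log_pow]
  have := one_le_CM
  calc CM * VV w * (e * Real.log w) = CM * e * (VV w * Real.log w) := by ring
    _ ≤ CM * e * 1 := by gcongr
    _ = _ := by ring

lemma prod_one_add_le_Th (w Y c : ℕ) {x : ℕ → ℝ} (hx : ∀ p ∈ PP w Y, 0 ≤ x p ∧ x p ≤ c / p) :
    ∏ p ∈ PP w Y, (1 + x p) ≤ Th w Y ^ c := by
  unfold Th
  rw [← prod_pow]
  refine prod_le_prod (fun p hp => by linarith [(hx p hp).1]) fun p hp => ?_
  have h2 := PP_two hp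
  have h3 : 1 + 1 / (p : ℝ) ≤ (1 - 1 / (p : ℝ))⁻¹ := by
    rw [le_inv_comm₀ (by positivity) (one_sub_inv_pos h2), le_inv_comm₀ (one_sub_inv_pos h2)
      (by positivity), le_inv_comm₀ (by positivity) (one_sub_inv_pos h2)]
    rw [← one_div, le_div_iff₀ (by positivity)]
    have : 0 ≤ 1 / (p : ℝ) * (1 / p) := by positivity
    nlinarith
  calc 1 + x p ≤ 1 + c * (1 / (p : ℝ)) := by rw [mul_one_div]; linarith [(hx p hp).2]
    _ ≤ (1 + 1 / (p : ℝ)) ^ c := one_add_mul_le_pow (by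
        have : (0 : ℝ) ≤ 1 / p := by positivity
        linarith) c
    _ ≤ _ := by gcongr

/-- Abel's inequality. -/
lemma abel_le {E : Type*} [NormedAddCommGroup E] [NormedSpace ℝ E] (f : ℕ → E) (ω : ℕ → ℝ)
    (A B : ℕ) (K : ℝ) (hω0 : ∀ n, A ≤ n → 0 ≤ ω n) (hω : ∀ n, A ≤ n → ω (n + 1) ≤ ω n)
    (hK : ∀ x, A ≤ x → x ≤ B → ‖∑ n ∈ Ico A x, f n‖ ≤ K) (hAB : A ≤ B) :
    ‖∑ n ∈ Ico A B, ω n • f n‖ ≤ K * ω A := by
  have key : ∀ x, A ≤ x → x ≤ B → ‖∑ n ∈ Ico A x, ω n • f n - ω x • ∑ n ∈ Ico A x, f n‖ ≤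
      K * (ω A - ω x) := by
    intro x hx
    induction x, hx using Nat.le_induction with
    | base => simp
    | succ x hx ih =>
      intro hxB
      have h1 := ih (by omega)
      have e : ∑ n ∈ Ico A (x + 1), ω n • f n - ω (x + 1) • ∑ n ∈ Ico A (x + 1), f n =
          (∑ n ∈ Ico A x, ω n • f n - ω x • ∑ n ∈ Ico A x, f n) +
            (ω x - ω (x + 1)) • ∑ n ∈ Ico A (x + 1), f n := by
        rw [sum_Ico_succ_top hx, sum_Ico_succ_top hx, sub_smul, smul_add, smul_add]; abel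
      rw [e]
      refine (norm_add_le _ _).trans ?_
      rw [norm_smul, Real.norm_eq_abs, abs_of_nonneg (by linarith [hω x hx])]
      have := mul_le_mul_of_nonneg_left (hK (x + 1) (by omega) hxB)
        (show 0 ≤ ω x - ω (x + 1) by linarith [hω x hx])
      nlinarith
  have h1 := key B hAB le_rfl
  have h2 : ‖ω B • ∑ n ∈ Ico A B, f n‖ ≤ ω B * K := by
    rw [norm_smul, Real.norm_eq_abs, abs_of_nonneg (hω0 B hAB)]
    exact mul_le_mul_of_nonneg_left (hK B hAB le_rfl) (hω0 B hAB)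
  have h3 := norm_add_le (∑ n ∈ Ico A B, ω n • f n - ω B • ∑ n ∈ Ico A B, f n)
    (ω B • ∑ n ∈ Ico A B, f n)
  rw [sub_add_cancel] at h3
  nlinarith

lemma abel_le_real (f ω : ℕ → ℝ)
    (A B : ℕ) (K : ℝ) (hω0 : ∀ n, A ≤ n → 0 ≤ ω n) (hω : ∀ n, A ≤ n → ω (n + 1) ≤ ω n)
    (hK : ∀ x, A ≤ x → x ≤ B → |∑ n ∈ Ico A x, f n| ≤ K) (hAB : A ≤ B) :
    |∑ n ∈ Ico A B, ω n * f n| ≤ K * ω A :=
  abel_le f ω A B K hω0 hω hK hAB

/-- The divisor bound. -/
lemma exists_tau_pow_le (e : ℕ) : ∃ C : ℝ, 1 ≤ C ∧ ∀ n : ℕ, n ≠ 0 →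
    ((n.divisors.card : ℝ)) ^ e ≤ C * n := by
  obtain ⟨c, hc1, hc⟩ : ∃ c : ℝ, 1 ≤ c ∧ ∀ a : ℕ, ((a : ℝ) + 1) ^ e ≤ c * 2 ^ a := by
    refine ⟨2 * (e.factorial * 2 ^ e), ?_, fun a => ?_⟩
    · have : (1 : ℝ) ≤ e.factorial := by exact_mod_cast e.factorial_pos
      have : (1 : ℝ) ≤ 2 ^ e := one_le_pow₀ (by norm_num)
      nlinarith
    have h1 := Real.pow_div_factorial_le_exp (((a : ℝ) + 1) / 2) (by positivity) e
    have h2 : Real.exp (((a : ℝ) + 1) / 2) ≤ 2 ^ (a + 1) := by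
      rw [show ((a : ℝ) + 1) / 2 = ((a + 1 : ℕ) : ℝ) * (1 / 2) by push_cast; ring, Real.exp_nat_mul]
      gcongr
      have := Real.log_two_gt_d9
      rw [← Real.le_log_iff_exp_le (by norm_num)]; linarith
    rw [div_le_iff₀ (by positivity), div_pow, div_le_iff₀ (by positivity)] at h1
    calc _ ≤ _ := h1
      _ ≤ 2 ^ (a + 1) * e.factorial * 2 ^ e := by gcongr
      _ = _ := by ring
  refine ⟨c ^ (2 ^ e), one_le_pow₀ hc1, fun n hn => ?_⟩
  rw [Nat.card_divisors hn]
  have h1 : (n : ℝ) = ∏ p ∈ n.primeFactors, (p : ℝ) ^ n.factorization p := by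
    conv_lhs => rw [← Nat.prod_factorization_pow_eq_self hn]
    rw [Finsupp.prod]; push_cast; rfl
  rw [h1]
  push_cast
  rw [← prod_pow]
  calc ∏ p ∈ n.primeFactors, ((n.factorization p : ℝ) + 1) ^ e
      ≤ ∏ p ∈ n.primeFactors, ((if p < 2 ^ e then c else 1) * (p : ℝ) ^ n.factorization p) := by
        refine prod_le_prod (fun _ _ => by positivity) fun p hp => ?_
        have hp2 : (2 : ℝ) ≤ p := by exact_mod_cast (Nat.prime_of_mem_primeFactors hp).two_le
        split_ifs with h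
        · exact (hc _).trans (by gcongr)
        · have h3 : ((n.factorization p : ℝ) + 1) ≤ 2 ^ n.factorization p := by
            exact_mod_cast Nat.lt_two_pow_self
          have h4 : (2 : ℝ) ^ e ≤ p := by exact_mod_cast not_lt.1 h
          calc _ ≤ ((2 : ℝ) ^ n.factorization p) ^ e := by gcongr
            _ = (2 ^ e) ^ n.factorization p := by rw [← pow_mul, ← pow_mul, mul_comm]
            _ ≤ _ := by rw [one_mul]; gcongr
    _ = (∏ p ∈ n.primeFactors, (if p < 2 ^ e then c else 1)) *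
        ∏ p ∈ n.primeFactors, (p : ℝ) ^ n.factorization p := prod_mul_distrib
    _ ≤ _ := by
      gcongr
      rw [prod_ite, prod_const_one, mul_one, prod_const]
      refine pow_le_pow_right₀ hc1 ?_
      calc _ ≤ (range (2 ^ e)).card :=
            card_le_card fun p hp => mem_range.2 (mem_filter.1 hp).2
        _ = _ := card_range _

lemma two_pow_card_primeFactors_le {n : ℕ} (hn : n ≠ 0) :
    2 ^ n.primeFactors.card ≤ n.divisors.card := by
  rw [Nat.card_divisors hn, ← prod_const]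
  refine prod_le_prod' fun p hp => ?_
  have := (Nat.prime_of_mem_primeFactors hp).factorization_pos_of_dvd hn
    (Nat.dvd_of_mem_primeFactors hp)
  omega

/-- Divisor bound in the form: if `n ≤ v ^ e` then `τ(n) ^ c ≤ C v`. -/
lemma exists_tau_le (c e : ℕ) : ∃ C : ℝ, 1 ≤ C ∧ ∀ (n : ℕ) (v : ℝ), n ≠ 0 → 1 ≤ v →
    (n : ℝ) ≤ v ^ e → ((n.divisors.card : ℝ)) ^ c ≤ C * v := by
  obtain ⟨C, hC1, hC⟩ := exists_tau_pow_le (c * (e + 1))
  refine ⟨C, hC1, fun n v hn hv h => ?_⟩
  refine le_of_pow_le_pow_left₀ (n := e + 1) (by omega) (by positivity) ?_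
  rw [← pow_mul]
  calc _ ≤ _ := hC n hn
    _ ≤ C ^ (e + 1) * v ^ (e + 1) := by
      gcongr
      · exact le_self_pow₀ hC1 (by omega)
      · exact h.trans (pow_le_pow_right₀ hv (by omega))
    _ = _ := by rw [mul_pow]

lemma card_divisors_le_of_rough {z : ℕ} : ∀ (e m : ℕ), m ≠ 0 → rough z m →
    m ≤ z ^ (e + 1) → m.divisors.card ≤ 2 ^ e := by
  intro e
  induction e with
  | zero =>
    intro m hm hr h
    have : m = 1 := by
      by_contra h1
      have := hr _ (Nat.minFac_prime h1) (Nat.minFac_dvd m)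
      have := Nat.minFac_le (Nat.pos_of_ne_zero hm)
      simp at h; omega
    simp [this]
  | succ e ih =>
    intro m hm hr h
    by_cases h1 : m = 1
    · subst h1; simp [Nat.one_le_two_pow]
    obtain ⟨m', hm'⟩ := Nat.minFac_dvd m
    have hp := Nat.minFac_prime h1
    have hz' := hr _ hp (Nat.minFac_dvd m)
    set p := m.minFac
    have hm0 : m' ≠ 0 := by rintro rfl; simp at hm'; exact hm hm'
    have h2 : m' ≤ z ^ (e + 1) := by
      by_contra h3
      have : z * z ^ (e + 1) < p * m' := Nat.mul_lt_mul'' hz' (by omega)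
      rw [← pow_succ'] at this; omega
    have h3 := ih m' hm0 (fun q hq hqm => hr q hq (hm' ▸ hqm.mul_left p)) h2
    rw [hm', Nat.divisors_mul]
    calc _ ≤ p.divisors.card * m'.divisors.card := card_mul_le
      _ ≤ 2 * 2 ^ e := by
        gcongr
        rw [hp.divisors]; exact card_le_two
      _ = _ := by ring

lemma card_PP_dvd_le {w R m e : ℕ} (hm : m ≠ 0) (hw : 2 ≤ w) (h : m ≤ w ^ e) :
    ((PP w R).filter (· ∣ m)).card ≤ e := by
  set S := (PP w R).filter (· ∣ m)
  have h1 : ∏ p ∈ S, p ∣ m := by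
    refine (prod_dvd_prod_of_subset _ _ _ ?_).trans (Nat.prod_primeFactors_dvd m)
    intro p hp
    obtain ⟨h1, h2⟩ := mem_filter.1 hp
    exact Nat.mem_primeFactors.2 ⟨PP_prime h1, h2, hm⟩
  have h2 : w ^ S.card ≤ ∏ p ∈ S, p :=
    pow_card_le_prod _ _ _ fun p hp => (mem_PP.1 (mem_filter.1 hp).1).1.le
  have h3 := (h2.trans (Nat.le_of_dvd (Nat.pos_of_ne_zero hm) h1)).trans h
  exact (Nat.pow_le_pow_iff_right (by omega)).1 h3

lemma count_class {q : ℕ} (hq : 0 < q) (c : ℕ) {A B : ℕ} (h : A ≤ B) :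
    |∑ n ∈ Ico A B, (if n ≡ c [MOD q] then (1 : ℝ) else 0) - (B - A) / q| ≤ 1 := by
  rw [sum_boole]
  have h1 := Nat.Ico_filter_modEq_card A B hq c
  have hq' : (0 : ℚ) < q := by exact_mod_cast hq
  have h2 : ⌈((A : ℚ) - c) / q⌉ ≤ ⌈((B : ℚ) - c) / q⌉ :=
    Int.ceil_mono (by gcongr)
  rw [max_eq_left (by omega)] at h1
  have h3 := Int.le_ceil (((A : ℚ) - c) / q)
  have h4 := Int.ceil_lt_add_one (((A : ℚ) - c) / q)
  have h5 := Int.le_ceil (((B : ℚ) - c) / q)
  have h6 := Int.ceil_lt_add_one (((B : ℚ) - c) / q)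
  have h7 : ((((Ico A B).filter (fun x => x ≡ c [MOD q])).card : ℤ) : ℚ) =
      ⌈((B : ℚ) - c) / q⌉ - ⌈((A : ℚ) - c) / q⌉ := by rw [h1]; push_cast; ring
  have h8 : |((((Ico A B).filter (fun x => x ≡ c [MOD q])).card : ℚ)) - (B - A) / q| ≤ 1 := by
    have e : ((B : ℚ) - A) / q = (B - c) / q - (A - c) / q := by ring
    push_cast at h7
    rw [abs_le, e]; constructor <;> linarith
  have h9 := (Rat.cast_le (K := ℝ)).2 h8
  push_cast at h9
  exact h9

end Pool.Agent.P.MP_746f10_nt
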