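import Mathlib
import Pool.Agent.P.MP_746f10_nt.Basic

/-! Real characters, their divisor sums and their value at one. -/

namespace Pool.Agent.P.MP_746f10_nt

open Finset Filter Topology

lemma norm_sum_Ico_le_of_periodic {E : Type*} [SeminormedAddCommGroup E] {f : ℕ → E} {q : ℕ}
    (hq : 0 < q) (hp : ∀ n, f (n + q) = f n) (h0 : ∑ n ∈ range q, f n = 0) (h1 : ∀ n, ‖f n‖ ≤ 1)
    (A B : ℕ) : ‖∑ n ∈ Ico A B, f n‖ ≤ q := by
  have hz : ∀ A, ∑ n ∈ Ico A (A + q), f n = 0 := by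
    intro A
    induction A with
    | zero => rw [zero_add, ← range_eq_Ico, h0]
    | succ A ih =>
      have e1 := sum_Ico_succ_top (show A ≤ A + q by omega) f
      have e2 := sum_eq_sum_Ico_succ_bot (show A < A + q + 1 by omega) f
      rw [e2, ih, hp, zero_add] at e1
      rw [show A + 1 + q = A + q + 1 by ring]
      exact add_eq_left.1 e1
  induction B using Nat.strong_induction_on with
  | _ B ih =>
    by_cases h : B ≤ A + q
    · refine (norm_sum_le _ _).trans ((sum_le_card_nsmul _ _ 1 fun n _ => h1 n).trans ?_)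
      simp only [Nat.card_Ico, nsmul_eq_mul, mul_one]
      exact_mod_cast (by omega : B - A ≤ q)
    · have e := sum_Ico_consecutive f (show A ≤ B - q by omega) (show B - q ≤ B by omega)
      have := hz (B - q)
      rw [show B - q + q = B by omega] at this
      rw [← e, this, add_zero]
      exact ih _ (by omega)

lemma sum_Icc_dvd {M : Type*} [AddCommMonoid M] {d : ℕ} (hd : 0 < d) (x : ℕ) (F : ℕ → M) :
    ∑ n ∈ Icc 1 x, (if d ∣ n then F n else 0) = ∑ e ∈ Icc 1 (x / d), F (d * e) := by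
  rw [← sum_filter]
  symm
  refine sum_nbij (fun e => d * e) ?_ ?_ ?_ fun _ _ => rfl
  · intro e he
    have := mem_Icc.1 he
    simp only [mem_filter, mem_Icc, dvd_mul_right, and_true]
    exact ⟨Nat.mul_pos hd this.1, by rw [mul_comm]; exact (Nat.le_div_iff_mul_le hd).1 this.2⟩
  · intro e _ e' _ h; exact Nat.eq_of_mul_eq_mul_left hd h
  · intro n hn
    simp only [coe_filter, mem_Icc, Set.mem_ofPred_eq] at hn
    obtain ⟨⟨h1, h2⟩, e, rfl⟩ := hn
    refine ⟨e, ?_, rfl⟩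
    simp only [coe_Icc, Set.mem_Icc]
    exact ⟨Nat.pos_of_mul_pos_left h1, (Nat.le_div_iff_mul_le hd).2 (by rwa [mul_comm])⟩

/-- A nontrivial real character modulo `r`. -/
structure RC where
  r : ℕ
  χ : ℕ → ℝ
  r_pos : 0 < r
  one : χ 1 = 1
  mul : ∀ m n, χ (m * n) = χ m * χ n
  val : ∀ n, χ n = 0 ∨ χ n = 1 ∨ χ n = -1
  ne : ∀ n, n.Coprime r → χ n ≠ 0
  zero : ∀ n, ¬ n.Coprime r → χ n = 0
  per : ∀ n, χ (n % r) = χ n
  nontriv : ∃ u, χ u = -1

namespace RC

variable (c : RC)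

lemma abs_le (n : ℕ) : |c.χ n| ≤ 1 := by rcases c.val n with h | h | h <;> simp [h]

lemma le_one (n : ℕ) : c.χ n ≤ 1 := (_root_.abs_le.1 (c.abs_le n)).2

lemma neg_one_le (n : ℕ) : -1 ≤ c.χ n := (_root_.abs_le.1 (c.abs_le n)).1

lemma of_modEq {m n : ℕ} (h : m ≡ n [MOD c.r]) : c.χ m = c.χ n := by
  rw [← c.per m, ← c.per n, h]

lemma one_le_r : (1 : ℝ) ≤ c.r := by exact_mod_cast c.r_pos

lemma chi_zero : c.χ 0 = 0 := by
  refine c.zero 0 fun h => ?_
  obtain ⟨u, hu⟩ := c.nontriv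
  have h1 : c.r = 1 := by simpa using h
  have := c.of_modEq (m := u) (n := 1) (by rw [h1]; exact Nat.modEq_one)
  rw [hu, c.one] at this; norm_num at this

lemma chi_prod (T : Finset ℕ) : c.χ (∏ p ∈ T, p) = ∏ p ∈ T, c.χ p := by
  induction T using Finset.induction_on with
  | empty => simpa using c.one
  | insert q T hq ih => rw [prod_insert hq, prod_insert hq, c.mul, ih]

lemma chi_pow (p e : ℕ) : c.χ (p ^ e) = c.χ p ^ e := by
  induction e with
  | zero => simpa using c.one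
  | succ e ih => rw [pow_succ, c.mul, ih, pow_succ]

lemma eq_of_mul_eq_one {d e : ℕ} (h : c.χ (d * e) = 1) : c.χ d = c.χ e := by
  rw [c.mul] at h
  rcases c.val d with h1 | h1 | h1 <;> rcases c.val e with h2 | h2 | h2 <;>
    rw [h1, h2] at h <;> rw [h1, h2] <;> norm_num at h

lemma sum_period : ∑ n ∈ range c.r, c.χ n = 0 := by
  obtain ⟨u, hu⟩ := c.nontriv
  have hc : u.Coprime c.r := by
    by_contra h; rw [c.zero u h] at hu; norm_num at hu
  have hm : ∀ n ∈ range c.r, (u * n) % c.r ∈ range c.r := fun n _ => mem_range.2 (Nat.mod_lt _ c.r_pos)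
  have hi : Set.InjOn (fun n => (u * n) % c.r) (range c.r : Set ℕ) := fun n hn n' hn' h =>
    Nat.ModEq.eq_of_lt_of_lt (Nat.ModEq.cancel_left_of_coprime (c := u) hc.symm h)
      (by simpa using hn) (by simpa using hn')
  have := sum_nbij (s := range c.r) (t := range c.r) (f := fun n => -c.χ n) (g := c.χ)
    (fun n => (u * n) % c.r) hm hi (surjOn_of_injOn_of_card_le _ hm hi le_rfl)
    (fun n _ => by rw [c.per, c.mul, hu]; ring)
  rw [sum_neg_distrib] at this
  linarith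

lemma abs_sum_le (A B : ℕ) : |∑ n ∈ Ico A B, c.χ n| ≤ c.r :=
  norm_sum_Ico_le_of_periodic c.r_pos (fun n => c.of_modEq (by simp [Nat.ModEq])) c.sum_period
    c.abs_le A B

/-- Truncated value at one. -/
noncomputable def ss (D : ℕ) : ℝ := ∑ d ∈ Icc 1 D, c.χ d / d

lemma ss_sub {D D' : ℕ} (h : D ≤ D') : |c.ss D' - c.ss D| ≤ c.r / (D + 1) := by
  have e : c.ss D' - c.ss D = ∑ n ∈ Ico (D + 1) (D' + 1), (1 / (n : ℝ)) * c.χ n := by
    unfold ss
    rw [← Ico_add_one_right_eq_Icc, ← Ico_add_one_right_eq_Icc,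
      ← sum_Ico_consecutive _ (show 1 ≤ D + 1 by omega) (show D + 1 ≤ D' + 1 by omega),
      add_sub_cancel_left]
    exact sum_congr rfl fun n _ => by ring
  rw [e]
  refine (abel_le_real c.χ (fun n => 1 / (n : ℝ)) (D + 1) (D' + 1) c.r (fun n _ => by positivity)
    (fun n hn => ?_) (fun x _ _ => c.abs_sum_le _ _) (by omega)).trans (le_of_eq ?_)
  · have : (0 : ℝ) < n := by exact_mod_cast (by omega : 0 < n)
    exact one_div_le_one_div_of_le this (by push_cast; linarith)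
  · push_cast; ring

lemma exists_lim : ∃ L, Tendsto c.ss atTop (𝓝 L) := by
  refine cauchySeq_tendsto_of_complete (cauchySeq_of_le_tendsto_0' (fun D : ℕ => c.r / (D + 1))
    (fun n m h => by rw [dist_comm]; exact c.ss_sub h) ?_)
  simpa [div_eq_mul_inv] using (tendsto_one_div_add_atTop_nhds_zero_nat (𝕜 := ℝ)).const_mul (c.r : ℝ)

/-- The value at one. -/
noncomputable def LL : ℝ := Classical.choose c.exists_lim

lemma abs_ss_sub_LL (D : ℕ) : |c.ss D - c.LL| ≤ c.r / (D + 1) := by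
  have h := (Classical.choose_spec c.exists_lim).sub_const (c.ss D)
  rw [abs_sub_comm]
  exact le_of_tendsto h.abs (eventually_atTop.2 ⟨D, fun D' hD => c.ss_sub hD⟩)

lemma abs_LL_le : |c.LL| ≤ c.r := by simpa [ss] using c.abs_ss_sub_LL 0

/-- The divisor sum of the character. -/
noncomputable def gam (n : ℕ) : ℝ := ∑ d ∈ n.divisors, c.χ d

lemma gam_mul {m n : ℕ} (h : m.Coprime n) : c.gam (m * n) = c.gam m * c.gam n := by
  let f : ArithmeticFunction ℝ := ⟨c.χ, c.chi_zero⟩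
  have hf : f.IsMultiplicative := ⟨c.one, fun {m n} _ => c.mul m n⟩
  have := (hf.mul (ArithmeticFunction.isMultiplicative_zeta.natCast (R := ℝ))).map_mul_of_coprime h
  simp only [ArithmeticFunction.coe_mul_zeta_apply] at this
  exact this

lemma gam_one : c.gam 1 = 1 := by simp [gam, c.one]

lemma gam_prime_pow {p : ℕ} (hp : p.Prime) (e : ℕ) :
    c.gam (p ^ e) = ∑ i ∈ range (e + 1), c.χ p ^ i := by
  unfold gam
  rw [Nat.sum_divisors_prime_pow hp]
  exact sum_congr rfl fun i _ => c.chi_pow p i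

lemma gam_prime {p : ℕ} (hp : p.Prime) : c.gam p = 1 + c.χ p := by
  have := c.gam_prime_pow hp 1
  simpa [sum_range_succ] using this

lemma gam_nonneg (n : ℕ) : 0 ≤ c.gam n := by
  induction n using Nat.recOnPosPrimePosCoprime with
  | zero => simp [gam]
  | one => rw [gam_one]; norm_num
  | prime_pow p e hp he =>
    rw [c.gam_prime_pow hp]
    rcases c.val p with h | h | h <;> rw [h]
    · exact sum_nonneg fun _ _ => by positivity
    · exact sum_nonneg fun _ _ => by positivity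
    · rw [neg_one_geom_sum]; split_ifs <;> norm_num
  | coprime a b _ _ hab ha hb => rw [c.gam_mul hab]; positivity

lemma one_le_gam_sq {n : ℕ} (hn : n ≠ 0) : 1 ≤ c.gam (n ^ 2) := by
  induction n using Nat.recOnPosPrimePosCoprime with
  | zero => exact absurd rfl hn
  | one => simp [gam_one]
  | prime_pow p e hp he =>
    rw [← pow_mul, c.gam_prime_pow hp]
    rcases c.val p with h | h | h <;> rw [h]
    · rw [sum_range_succ']; simp
    · simp
    · rw [neg_one_geom_sum, if_neg]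
      rw [Nat.not_even_iff_odd]; exact ⟨e, by ring⟩
  | coprime a b ha1 hb1 hab ha hb =>
    rw [mul_pow, c.gam_mul (hab.pow 2 2)]
    exact one_le_mul_of_one_le_of_one_le (ha (by omega)) (hb (by omega))

lemma gam_le (n : ℕ) : c.gam n ≤ n.divisors.card := by
  unfold gam
  simpa using sum_le_card_nsmul n.divisors c.χ 1 fun d _ => c.le_one d

lemma gam_prime_mul {p m : ℕ} (hp : p.Prime) (h : ¬ p ∣ m) :
    c.gam (p * m) = (1 + c.χ p) * c.gam m := by
  rw [c.gam_mul ((Nat.Prime.coprime_iff_not_dvd hp).2 h), c.gam_prime hp]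

lemma gam_hyp {m D : ℕ} (hm : c.χ m = 1) (hD : m ≤ D ^ 2) : c.gam m =
    ∑ θ ∈ range 2, ∑ d ∈ Icc 1 D, if d ∣ m ∧ d * (d + θ) ≤ m then c.χ d else 0 := by
  have hm0 : m ≠ 0 := by rintro rfl; rw [c.chi_zero] at hm; norm_num at hm
  have key : ∀ θ, ∑ d ∈ Icc 1 D, (if d ∣ m ∧ d * (d + θ) ≤ m then c.χ d else 0) =
      ∑ d ∈ m.divisors.filter (fun d => d * (d + θ) ≤ m), c.χ d := by
    intro θ
    rw [← sum_filter]
    refine sum_congr ?_ fun _ _ => rfl
    ext d
    simp only [mem_filter, mem_Icc, Nat.mem_divisors]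
    constructor
    · rintro ⟨_, h1, h2⟩; exact ⟨⟨h1, hm0⟩, h2⟩
    · rintro ⟨⟨h1, _⟩, h2⟩
      refine ⟨⟨Nat.pos_of_dvd_of_pos h1 (Nat.pos_of_ne_zero hm0), ?_⟩, h1, h2⟩
      by_contra h3
      nlinarith
  rw [sum_range_succ, sum_range_one, key, key, gam,
    ← sum_filter_add_sum_filter_not m.divisors (fun d => d * (d + 0) ≤ m)]
  congr 1
  refine sum_nbij' (fun d => m / d) (fun d => m / d) ?_ ?_ ?_ ?_ ?_
  · intro d hd
    simp only [mem_filter, Nat.mem_divisors, add_zero, not_le] at hd ⊢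
    obtain ⟨⟨⟨e, rfl⟩, _⟩, h2⟩ := hd
    have hd0 : 0 < d := Nat.pos_of_ne_zero (by rintro rfl; simp at h2)
    rw [Nat.mul_div_cancel_left _ hd0]
    have : e < d := lt_of_mul_lt_mul_left h2 (Nat.zero_le _)
    exact ⟨⟨dvd_mul_left _ _, hm0⟩, by nlinarith⟩
  · intro d hd
    simp only [mem_filter, Nat.mem_divisors, add_zero, not_le] at hd ⊢
    obtain ⟨⟨⟨e, rfl⟩, _⟩, h2⟩ := hd
    have hd0 : 0 < d := Nat.pos_of_ne_zero (by rintro rfl; simp at hm0)
    rw [Nat.mul_div_cancel_left _ hd0]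
    have : d + 1 ≤ e := le_of_mul_le_mul_left h2 hd0
    exact ⟨⟨dvd_mul_left _ _, hm0⟩, by nlinarith⟩
  · intro d hd
    exact Nat.div_div_self (Nat.dvd_of_mem_divisors (mem_filter.1 hd).1) hm0
  · intro d hd
    exact Nat.div_div_self (Nat.dvd_of_mem_divisors (mem_filter.1 hd).1) hm0
  · intro d hd
    refine c.eq_of_mul_eq_one ?_
    rwa [Nat.mul_div_cancel' (Nat.dvd_of_mem_divisors (mem_filter.1 hd).1)]

theorem lemM {P : Finset ℕ} (hP : ∀ p ∈ P, p.Prime) (h : ℕ → ℝ) {D : ℕ} (hD : 1 ≤ D) :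
    |∑ d ∈ Icc 1 D, c.χ d / d * ∏ p ∈ P, (1 + if p ∣ d then h p else 0) -
      c.LL * ∏ p ∈ P, (1 + c.χ p * h p / p)| ≤
      c.r / √D * ∏ p ∈ P, (1 + |h p| / √p) := by
  have hD0 : (0 : ℝ) < D := by exact_mod_cast hD
  simp_rw [prod_one_add, mul_sum]
  rw [sum_comm, ← sum_sub_distrib]
  refine (abs_sum_le_sum_abs _ _).trans (sum_le_sum fun T hT => ?_)
  have hT' : ∀ p ∈ T, p.Prime := fun p hp => hP p (mem_powerset.1 hT hp)
  set q := ∏ p ∈ T, p with hq
  have hq0 : 0 < q := prod_pos fun p hp => (hT' p hp).pos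
  have hq0' : (0 : ℝ) < q := by exact_mod_cast hq0
  have e1 : ∀ d, c.χ d / d * ∏ p ∈ T, (if p ∣ d then h p else 0) =
      if q ∣ d then c.χ d / d * ∏ p ∈ T, h p else 0 := by
    intro d
    split_ifs with hd
    · congr 1
      exact prod_congr rfl fun p hp => if_pos ((dvd_prod_of_mem _ hp).trans hd)
    · have : ∃ p ∈ T, ¬ p ∣ d := by
        by_contra hc
        push Not at hc
        exact hd (prod_primes_dvd d (fun p hp => (hT' p hp).prime) hc)
      obtain ⟨p, hp, hpd⟩ := this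
      rw [prod_eq_zero hp (if_neg hpd), mul_zero]
  simp_rw [e1]
  rw [sum_Icc_dvd hq0]
  have e2 : ∑ e ∈ Icc 1 (D / q), c.χ (q * e) / (q * e : ℕ) * ∏ p ∈ T, h p -
      c.LL * ∏ p ∈ T, c.χ p * h p / p =
      (c.χ q * (∏ p ∈ T, h p) / q) * (c.ss (D / q) - c.LL) := by
    rw [prod_div_distrib, prod_mul_distrib, ← c.chi_prod, ← Nat.cast_prod, ← hq, mul_sub, ss, mul_sum]
    congr 1
    · refine sum_congr rfl fun e _ => ?_
      rw [c.mul]; push_cast; ring
    · ring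
  rw [e2, abs_mul]
  have h1 := c.abs_ss_sub_LL (D / q)
  have h2 : (c.r : ℝ) / ((D / q : ℕ) + 1) ≤ c.r * (√q / √D) := by
    rw [div_eq_mul_inv]
    refine mul_le_mul_of_nonneg_left ?_ (by positivity)
    rw [← Real.sqrt_div hq0'.le]
    apply Real.le_sqrt_of_sq_le
    have h3 : (D : ℝ) < ((D / q : ℕ) + 1) * q := by
      have := Nat.lt_mul_div_succ D hq0
      rw [mul_comm] at this
      exact_mod_cast this
    have h4 : (1 : ℝ) ≤ (D / q : ℕ) + 1 := by linarith [(Nat.cast_nonneg (D / q) : (0 : ℝ) ≤ _)]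
    rw [inv_pow, inv_le_comm₀ (by positivity) (by positivity), inv_div, div_le_iff₀ hq0']
    nlinarith
  have h3 : |c.χ q * (∏ p ∈ T, h p) / q| ≤ (∏ p ∈ T, |h p|) / q := by
    rw [abs_div, abs_mul, abs_prod, Nat.abs_cast]
    exact div_le_div_of_nonneg_right (mul_le_of_le_one_left
      (prod_nonneg fun _ _ => abs_nonneg _) (c.abs_le q)) hq0'.le
  refine (mul_le_mul h3 (h1.trans h2) (abs_nonneg _) (by positivity)).trans (le_of_eq ?_)
  rw [prod_div_distrib, ← Real.sqrt_prod _ (fun p _ => Nat.cast_nonneg p), ← Nat.cast_prod, ← hq]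
  have := Real.sqrt_pos.2 hq0'
  have := Real.sqrt_pos.2 hD0
  field_simp
  rw [Real.sq_sqrt hq0'.le]; ring

theorem LL_ge : 1 / (1296 * (c.r : ℝ) ^ 2) ≤ c.LL := by
  obtain ⟨t, ht⟩ : ∃ t : ℕ, t = 9 * c.r := ⟨_, rfl⟩
  have hr := c.one_le_r
  have htr : (t : ℝ) = 9 * c.r := by rw [ht]; push_cast; ring
  have ht1 : 1 ≤ t := by have := c.r_pos; omega
  have ht1' : (1 : ℝ) ≤ t := by exact_mod_cast ht1
  obtain ⟨x, hx⟩ : ∃ x : ℕ, x = 16 * t ^ 4 := ⟨_, rfl⟩
  obtain ⟨D, hD⟩ : ∃ D : ℕ, D = 4 * t ^ 3 := ⟨_, rfl⟩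
  have hxr : (x : ℝ) = 16 * t ^ 4 := by rw [hx]; push_cast; ring
  have hDr : (D : ℝ) = 4 * t ^ 3 := by rw [hD]; push_cast; ring
  have hDx : D + 1 ≤ x := by
    have : 1 ≤ t ^ 3 := Nat.one_le_pow _ _ ht1
    rw [hx, hD]; nlinarith
  set ω : ℕ → ℝ := fun d => ∑ e ∈ Icc 1 (x / d), ((x : ℝ) - (d * e : ℕ)) with hω
  have hterm : ∀ d e, e ∈ Icc 1 (x / d) → (0 : ℝ) ≤ x - (d * e : ℕ) := fun d e he => by
    have : d * e ≤ x := le_trans (Nat.mul_le_mul_left _ (mem_Icc.1 he).2) (Nat.mul_div_le x d)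
    have : ((d * e : ℕ) : ℝ) ≤ x := by exact_mod_cast this
    linarith
  -- lower bound
  have hlow : 24 * (t : ℝ) ^ 6 ≤ ∑ n ∈ Icc 1 x, c.gam n * (x - n) := by
    calc 24 * (t : ℝ) ^ 6 = ∑ m ∈ Icc 1 (2 * t ^ 2), 12 * (t : ℝ) ^ 4 := by simp; ring
      _ ≤ ∑ m ∈ Icc 1 (2 * t ^ 2), c.gam (m ^ 2) * (x - (m ^ 2 : ℕ)) := by
          refine sum_le_sum fun m hm => ?_
          have h1 := c.one_le_gam_sq (n := m) (by have := (mem_Icc.1 hm).1; omega)
          have h2 : (m : ℝ) ≤ 2 * t ^ 2 := by exact_mod_cast (mem_Icc.1 hm).2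
          have h3 : (m : ℝ) ^ 2 ≤ (2 * t ^ 2) ^ 2 := by gcongr
          have h4 : 12 * (t : ℝ) ^ 4 ≤ x - (m ^ 2 : ℕ) := by push_cast; nlinarith
          nlinarith [show (0 : ℝ) ≤ 12 * t ^ 4 by positivity]
      _ = ∑ n ∈ (Icc 1 (2 * t ^ 2)).image (fun m => m ^ 2), c.gam n * (x - n) := by
          rw [sum_image fun a _ b _ h => Nat.pow_left_injective (by norm_num) h]
      _ ≤ _ := by
          refine sum_le_sum_of_subset_of_nonneg ?_ fun n hn _ => mul_nonneg (c.gam_nonneg n) ?_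
          · intro n hn
            obtain ⟨m, hm, rfl⟩ := mem_image.1 hn
            have := mem_Icc.1 hm
            refine mem_Icc.2 ⟨Nat.one_le_pow _ _ this.1, ?_⟩
            have := Nat.pow_le_pow_left this.2 2
            rw [hx]; nlinarith
          · have : (n : ℝ) ≤ x := by exact_mod_cast (mem_Icc.1 hn).2
            linarith
  have heq : ∑ n ∈ Icc 1 x, c.gam n * (x - n) = ∑ d ∈ Icc 1 x, ω d * c.χ d := by
    have : ∀ n ∈ Icc 1 x, c.gam n * (x - n) =
        ∑ d ∈ Icc 1 x, (if d ∣ n then (x : ℝ) - n else 0) * c.χ d := by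
      intro n hn
      have := mem_Icc.1 hn
      simp_rw [ite_mul, zero_mul]
      rw [← sum_filter, gam, sum_mul]
      refine sum_congr ?_ fun _ _ => mul_comm _ _
      ext d
      simp only [Nat.mem_divisors, mem_filter, mem_Icc]
      constructor
      · rintro ⟨h1, h2⟩
        exact ⟨⟨Nat.pos_of_dvd_of_pos h1 this.1, (Nat.le_of_dvd this.1 h1).trans this.2⟩, h1⟩
      · rintro ⟨_, h⟩; exact ⟨h, by omega⟩
    rw [sum_congr rfl this, sum_comm]
    refine sum_congr rfl fun d hd => ?_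
    rw [← sum_mul, sum_Icc_dvd (mem_Icc.1 hd).1]
  have hform : ∀ d : ℕ, 1 ≤ d → 0 ≤ ω d - (x ^ 2 / (2 * d) - x / 2) ∧
      ω d - (x ^ 2 / (2 * d) - x / 2) ≤ d / 2 := by
    intro d hd
    have hd0 : (0 : ℝ) < d := by exact_mod_cast hd
    have e : ∀ k : ℕ, ∑ e ∈ Icc 1 k, ((x : ℝ) - (d * e : ℕ)) = k * x - d * k * (k + 1) / 2 := by
      intro k
      induction k with
      | zero => simp
      | succ k ih => rw [sum_Icc_succ_top (by omega), ih]; push_cast; ring
    have h1 : (x : ℝ) = d * (x / d : ℕ) + (x % d : ℕ) := by exact_mod_cast (Nat.div_add_mod x d).symm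
    have h2 : ((x % d : ℕ) : ℝ) ≤ d := by exact_mod_cast (Nat.mod_lt x hd).le
    have h3 : (0 : ℝ) ≤ (x % d : ℕ) := Nat.cast_nonneg _
    have e2 : ω d - (x ^ 2 / (2 * d) - x / 2) = (x % d : ℕ) * (d - (x % d : ℕ)) / (2 * d) := by
      simp only [hω]; rw [e]
      generalize ((x / d : ℕ) : ℝ) = k at *
      generalize ((x % d : ℕ) : ℝ) = ρ at *
      rw [h1]; field_simp; ring
    rw [e2]
    refine ⟨div_nonneg (mul_nonneg h3 (by linarith)) (by positivity), ?_⟩
    rw [div_le_iff₀ (by positivity)]; nlinarith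
  have hsplit : ∑ d ∈ Icc 1 x, ω d * c.χ d =
      ∑ d ∈ Icc 1 D, ω d * c.χ d + ∑ d ∈ Ico (D + 1) (x + 1), ω d * c.χ d := by
    rw [← Ico_add_one_right_eq_Icc, ← Ico_add_one_right_eq_Icc,
      sum_Ico_consecutive _ (by omega) (by omega)]
  have hD0 : (0 : ℝ) < D := by rw [hDr]; positivity
  have htail : ∑ d ∈ Ico (D + 1) (x + 1), ω d * c.χ d ≤ c.r * (x ^ 2 / (2 * D)) := by
    refine (le_abs_self _).trans ((abel_le_real c.χ ω (D + 1) (x + 1) c.r
      (fun n _ => sum_nonneg (hterm n)) (fun n hn => ?_) (fun _ _ _ => c.abs_sum_le _ _)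
      (by omega)).trans (mul_le_mul_of_nonneg_left ?_ (by positivity)))
    · simp only [hω]
      refine le_trans (sum_le_sum fun e _ => ?_) (sum_le_sum_of_subset_of_nonneg
        (Icc_subset_Icc_right (Nat.div_le_div_left (Nat.le_succ n) (by omega)))
        fun e he _ => hterm n e he)
      push_cast; nlinarith [(Nat.cast_nonneg e : (0 : ℝ) ≤ e)]
    · have h1 := (hform (D + 1) (by omega)).2
      have h2 : ((D + 1 : ℕ) : ℝ) ≤ x := by exact_mod_cast hDx
      have h3 : (x : ℝ) ^ 2 / (2 * (D + 1 : ℕ)) ≤ x ^ 2 / (2 * D) := by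
        push_cast; gcongr; linarith
      linarith
  have hhead : ∑ d ∈ Icc 1 D, ω d * c.χ d ≤
      x ^ 2 / 2 * (c.LL + c.r / D) + x / 2 * c.r + D ^ 2 / 2 := by
    have e : ∑ d ∈ Icc 1 D, ω d * c.χ d = x ^ 2 / 2 * c.ss D - x / 2 * ∑ d ∈ Ico 1 (D + 1), c.χ d +
        ∑ d ∈ Icc 1 D, (ω d - (x ^ 2 / (2 * d) - x / 2)) * c.χ d := by
      rw [Ico_add_one_right_eq_Icc, ss, mul_sum, mul_sum, ← sum_sub_distrib, ← sum_add_distrib]
      refine sum_congr rfl fun d _ => by ring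
    have h1 : c.ss D ≤ c.LL + c.r / D := by
      have := (_root_.abs_le.1 (c.abs_ss_sub_LL D)).2
      have : (c.r : ℝ) / (D + 1) ≤ c.r / D := by gcongr; linarith
      linarith
    have h2 := (_root_.abs_le.1 (c.abs_sum_le 1 (D + 1))).1
    have h3 : ∑ d ∈ Icc 1 D, (ω d - (x ^ 2 / (2 * d) - x / 2)) * c.χ d ≤ (D : ℝ) ^ 2 / 2 := by
      calc _ ≤ ∑ d ∈ Icc 1 D, (D : ℝ) / 2 := by
            refine sum_le_sum fun d hd => ?_
            have := hform d (mem_Icc.1 hd).1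
            have h4 : (d : ℝ) ≤ D := by exact_mod_cast (mem_Icc.1 hd).2
            have := mul_le_of_le_one_right this.1 (c.le_one d)
            linarith
        _ = _ := by simp; ring
    rw [e]
    have hx0 : (0 : ℝ) ≤ x := Nat.cast_nonneg x
    nlinarith [mul_le_mul_of_nonneg_left h1 (show (0 : ℝ) ≤ x ^ 2 / 2 by positivity),
      mul_le_mul_of_nonneg_left h2 (show (0 : ℝ) ≤ x / 2 by positivity)]
  have hfin : 24 * (t : ℝ) ^ 6 ≤ x ^ 2 / 2 * (c.LL + c.r / D) + x / 2 * c.r + D ^ 2 / 2 +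
      c.r * (x ^ 2 / (2 * D)) := by linarith
  have hr9 : (c.r : ℝ) = t / 9 := by linarith
  have ht0 : (0 : ℝ) < t := by linarith
  have e3 : (x : ℝ) ^ 2 / 2 * (c.LL + c.r / D) + x / 2 * c.r + D ^ 2 / 2 + c.r * (x ^ 2 / (2 * D)) =
      128 * t ^ 8 * c.LL + (64 / 9 + 8) * t ^ 6 + 8 / 9 * t ^ 5 := by
    rw [hxr, hDr, hr9]; field_simp; ring
  rw [e3] at hfin
  have h5 : (t : ℝ) ^ 5 ≤ t ^ 6 := pow_le_pow_right₀ ht1' (by norm_num)
  have h6 : 8 * (t : ℝ) ^ 6 ≤ 128 * t ^ 8 * c.LL := by linarith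
  rw [hr9, div_le_iff₀ (by positivity)]
  have h7 : (t : ℝ) ^ 6 * 1 ≤ t ^ 6 * (c.LL * (1296 * (t / 9) ^ 2)) := by nlinarith
  exact le_of_mul_le_mul_left h7 (by positivity)

lemma LL_pos : 0 < c.LL := lt_of_lt_of_le (by have := c.one_le_r; positivity) c.LL_ge

lemma LL_le : c.LL ≤ c.r := (le_abs_self _).trans c.abs_LL_le

lemma fac_ge {p : ℕ} (hp : p.Prime) : 1 - 1 / (p : ℝ) ≤ 1 - c.χ p / p := by
  have : (0 : ℝ) < p := by exact_mod_cast hp.pos
  have := div_le_div_of_nonneg_right (c.le_one p) this.le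
  linarith

lemma fac_pos {p : ℕ} (hp : p.Prime) : 0 < 1 - c.χ p / p :=
  lt_of_lt_of_le (one_sub_inv_pos (by exact_mod_cast hp.two_le)) (c.fac_ge hp)

lemma fac_le {p : ℕ} (hp : p.Prime) : 1 - c.χ p / p ≤ 1 + 1 / p := by
  have : (0 : ℝ) < p := by exact_mod_cast hp.pos
  have := div_le_div_of_nonneg_right (c.neg_one_le p) this.le
  rw [neg_div] at this
  linarith

lemma fac_le' {p : ℕ} (hp : p.Prime) : 1 - c.χ p / p ≤ (1 - 1 / (p : ℝ))⁻¹ := by
  refine (c.fac_le hp).trans ?_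
  have h := one_sub_inv_pos (p := p) (by exact_mod_cast hp.two_le)
  rw [← one_div, le_div_iff₀ h]
  nlinarith [sq_nonneg (1 / (p : ℝ))]

/-- The value at one with the primes up to `z` removed. -/
noncomputable def ell (z : ℕ) : ℝ := c.LL * ∏ p ∈ PP 0 z, (1 - c.χ p / p)

lemma ell_pos (z : ℕ) : 0 < c.ell z :=
  mul_pos c.LL_pos (prod_pos fun _ hp => c.fac_pos (PP_prime hp))

lemma ell_le {z z' : ℕ} (h : z ≤ z') : c.ell z' ≤ c.ell z * Th z z' := by
  unfold ell Th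
  rw [prod_PP_split (Nat.zero_le z) h, ← mul_assoc]
  exact mul_le_mul_of_nonneg_left (prod_le_prod (fun p hp => (c.fac_pos (PP_prime hp)).le)
    fun p hp => c.fac_le' (PP_prime hp)) (c.ell_pos z).le

lemma ell_le' {z z' : ℕ} (h : z ≤ z') : c.ell z ≤ c.ell z' * Th z z' := by
  unfold ell Th
  rw [prod_PP_split (Nat.zero_le z) h, ← mul_assoc, mul_assoc _ _ (∏ p ∈ PP z z', _),
    ← prod_mul_distrib]
  refine le_mul_of_one_le_right (c.ell_pos z).le (one_le_prod_real fun p hp => ?_)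
  rw [← div_eq_mul_inv, one_le_div (one_sub_inv_pos (PP_two hp))]
  exact c.fac_ge (PP_prime hp)

lemma ell_ge (z : ℕ) : 1 / (1296 * (c.r : ℝ) ^ 2) * VV z ≤ c.ell z :=
  mul_le_mul c.LL_ge (prod_le_prod (fun _ hp => (one_sub_inv_pos (PP_two hp)).le)
    fun _ hp => c.fac_ge (PP_prime hp)) (VV_pos z).le c.LL_pos.le

open Classical in
lemma tendsto_ell (z : ℕ) : Tendsto
    (fun D : ℕ => ∑ d ∈ Icc 1 D, if rough z d then c.χ d / d else 0) atTop (𝓝 (c.ell z)) := by
  rw [tendsto_iff_norm_sub_tendsto_zero]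
  have h0 : Tendsto (fun D : ℕ => c.r / √D * ∏ p ∈ PP 0 z, (1 + |(-1 : ℝ)| / √p)) atTop (𝓝 0) := by
    have := (Tendsto.const_div_atTop (Real.tendsto_sqrt_atTop.comp tendsto_natCast_atTop_atTop)
      (c.r : ℝ)).mul_const (∏ p ∈ PP 0 z, (1 + |(-1 : ℝ)| / √p))
    simpa using this
  refine squeeze_zero' (Eventually.of_forall fun _ => norm_nonneg _)
    (eventually_atTop.2 ⟨1, fun D hD => ?_⟩) h0
  refine le_trans (le_of_eq ?_) (c.lemM (P := PP 0 z) (fun p hp => PP_prime hp) (fun _ => -1) hD)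
  rw [Real.norm_eq_abs, ell]
  congr 2
  · refine sum_congr rfl fun d _ => ?_
    split_ifs with hr
    · rw [prod_eq_one, mul_one]
      intro p hp
      rw [if_neg, add_zero]
      intro hd
      have := hr p (PP_prime hp) hd
      have := (mem_PP.1 hp).2.1
      omega
    · unfold rough at hr
      push Not at hr
      obtain ⟨p, hp, hd, hz⟩ := hr
      rw [prod_eq_zero (mem_PP.2 ⟨hp.pos, hz, hp⟩) (by rw [if_pos hd]; ring), mul_zero]
  · congr 1
    exact prod_congr rfl fun p _ => by ring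

end RC

end Pool.Agent.P.MP_746f10_nt
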