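import Mathlib
import Pool.Agent.P.MP_746f10_nt.Basic

/-! Twisted Kloosterman sums to arbitrary moduli (fourth moment) and counts in boxes. -/

namespace Pool.Agent.P.MP_746f10_nt

open Finset

/-- The exponential `exp (2 π i x)`. -/
noncomputable def ex (x : ℝ) : ℂ := Complex.exp (2 * Real.pi * Complex.I * x)

lemma ex_add (x y : ℝ) : ex (x + y) = ex x * ex y := by
  unfold ex; rw [← Complex.exp_add]; push_cast; ring_nf

lemma ex_eq (x : ℝ) : ex x = Complex.exp (Complex.I * (2 * Real.pi * x : ℝ)) := by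
  unfold ex; push_cast; ring_nf

lemma norm_ex (x : ℝ) : ‖ex x‖ = 1 := by
  rw [ex_eq, mul_comm]; exact Complex.norm_exp_ofReal_mul_I _

lemma ex_int (k : ℤ) : ex k = 1 := by
  unfold ex
  rw [← Complex.exp_int_mul_two_pi_mul_I k]; congr 1; push_cast; ring

lemma ex_nat_mul (n : ℕ) (x : ℝ) : ex (n * x) = ex x ^ n := by
  unfold ex; rw [← Complex.exp_nat_mul]; congr 1; push_cast; ring

lemma conj_ex (x : ℝ) : (starRingEnd ℂ) (ex x) = ex (-x) := by
  unfold ex; rw [← Complex.exp_conj]; congr 1; simp [Complex.conj_ofReal, map_ofNat]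

lemma norm_geom_le {t : ℝ} (h0 : 0 < t) (h1 : t < 1) (A B : ℕ) :
    ‖∑ n ∈ Ico A B, ex (n * t)‖ ≤ 1 / (2 * t) + 1 / (2 * (1 - t)) := by
  have hpi := Real.pi_pos
  have hs : 4 * min t (1 - t) ≤ ‖ex t - 1‖ := by
    rw [ex_eq, Complex.norm_exp_I_mul_ofReal_sub_one, Real.norm_eq_abs]
    refine le_trans ?_ (le_abs_self _)
    rw [show 2 * Real.pi * t / 2 = Real.pi * t by ring]
    rcases le_total t (1 - t) with h | h
    · rw [min_eq_left h]
      have := Real.mul_le_sin (x := Real.pi * t) (by positivity) (by nlinarith)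
      rw [show 2 / Real.pi * (Real.pi * t) = 2 * t by field_simp] at this
      linarith
    · rw [min_eq_right h, ← Real.sin_pi_sub]
      have := Real.mul_le_sin (x := Real.pi - Real.pi * t) (by nlinarith) (by nlinarith)
      rw [show 2 / Real.pi * (Real.pi - Real.pi * t) = 2 * (1 - t) by field_simp] at this
      linarith
  have hm : 0 < min t (1 - t) := lt_min h0 (by linarith)
  have hne : ex t ≠ 1 := by
    intro h; rw [h, sub_self, norm_zero] at hs; linarith
  have hb : 1 / (2 * min t (1 - t)) ≤ 1 / (2 * t) + 1 / (2 * (1 - t)) := by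
    have : 0 < 1 - t := by linarith
    rcases le_total t (1 - t) with h | h
    · rw [min_eq_left h]; exact le_add_of_nonneg_right (by positivity)
    · rw [min_eq_right h]; exact le_add_of_nonneg_left (by positivity)
  refine le_trans ?_ hb
  rcases le_total A B with hAB | hAB
  · simp_rw [ex_nat_mul]
    rw [geom_sum_Ico hne hAB, norm_div, div_le_div_iff₀ (by linarith) (by linarith)]
    have : ‖ex t ^ B - ex t ^ A‖ ≤ 2 := by
      refine (norm_sub_le _ _).trans ?_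
      rw [norm_pow, norm_pow, norm_ex]; norm_num
    nlinarith
  · rw [Ico_eq_empty_of_le hAB, sum_empty, norm_zero]; positivity

lemma sum_gcd_div_le {Q : ℕ} (hQ : 0 < Q) :
    ∑ h ∈ Ico 1 Q, (h.gcd Q : ℝ) / h ≤ Q.divisors.card * (1 + Real.log Q) := by
  calc ∑ h ∈ Ico 1 Q, (h.gcd Q : ℝ) / h
      ≤ ∑ h ∈ Icc 1 Q, ∑ g ∈ Q.divisors, if g ∣ h then (g : ℝ) / h else 0 := by
        refine le_trans (sum_le_sum fun h _ => ?_) (sum_le_sum_of_subset_of_nonneg Ico_subset_Icc_self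
          fun h _ _ => sum_nonneg fun g _ => by split_ifs <;> positivity)
        have := single_le_sum (s := Q.divisors) (a := h.gcd Q)
          (f := fun g => if g ∣ h then (g : ℝ) / h else 0)
          (fun g _ => by split_ifs <;> positivity)
          (Nat.mem_divisors.2 ⟨Nat.gcd_dvd_right _ _, hQ.ne'⟩)
        rwa [if_pos (Nat.gcd_dvd_left _ _)] at this
    _ ≤ ∑ g ∈ Q.divisors, (1 + Real.log Q) := by
        rw [sum_comm]
        refine sum_le_sum fun g hg => ?_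
        have hg0 : 0 < g := Nat.pos_of_mem_divisors hg
        rw [← sum_filter]
        refine le_trans ?_ (sum_inv_le_log Q)
        calc _ = ∑ h ∈ (Icc 1 Q).filter (g ∣ ·), ((h / g : ℕ) : ℝ)⁻¹ := by
              refine sum_congr rfl fun h hh => ?_
              rw [Nat.cast_div (mem_filter.1 hh).2 (by positivity), inv_div]
          _ = ∑ e ∈ ((Icc 1 Q).filter (g ∣ ·)).image (· / g), (e : ℝ)⁻¹ := by
              rw [sum_image]
              intro x hx y hy hxy
              have h1 := Nat.mul_div_cancel' (mem_filter.1 hx).2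
              have h2 := Nat.mul_div_cancel' (mem_filter.1 hy).2
              simp only at hxy
              rw [← h1, ← h2, hxy]
          _ ≤ _ := by
              refine sum_le_sum_of_subset_of_nonneg ?_ fun _ _ _ => by positivity
              intro e he
              obtain ⟨h, hh, rfl⟩ := mem_image.1 he
              have h1 := mem_Icc.1 (mem_filter.1 hh).1
              exact mem_Ioc.2 ⟨Nat.div_pos (Nat.le_of_dvd h1.1 (mem_filter.1 hh).2) hg0,
                (Nat.div_le_self _ _).trans h1.2⟩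
    _ = _ := by simp; ring

lemma le_totient_mul {Q : ℕ} (hQ : 0 < Q) : Q ≤ Q.divisors.card * Q.totient := by
  conv_lhs => rw [← Nat.sum_totient Q]
  exact sum_le_card_nsmul _ _ _ fun d hd => Nat.le_of_dvd (Nat.totient_pos.2 hQ)
    (Nat.totient_dvd_of_dvd (Nat.dvd_of_mem_divisors hd))

variable {Q : ℕ} [NeZero Q]

/-- The greatest common divisor with the modulus. -/
def gc (x : ZMod Q) : ℕ := x.val.gcd Q

lemma gc_pos (x : ZMod Q) : 0 < gc x := Nat.gcd_pos_of_pos_right _ (NeZero.pos Q)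

lemma gc_mul_le (x y : ZMod Q) : gc (x * y) ≤ gc x * gc y := by
  unfold gc
  rw [ZMod.val_mul, ← Nat.gcd_rec, Nat.gcd_comm x.val, Nat.gcd_comm y.val]
  exact Nat.le_of_dvd (Nat.mul_pos (Nat.gcd_pos_of_pos_left _ (NeZero.pos Q))
    (Nat.gcd_pos_of_pos_left _ (NeZero.pos Q))) (gcd_mul_dvd_mul_gcd Q x.val y.val)

omit [NeZero Q] in
lemma gc_unit (u : (ZMod Q)ˣ) : gc (u : ZMod Q) = 1 := ZMod.val_coe_unit_coprime u

lemma card_ker_le (a : ZMod Q) : (univ.filter (fun x : ZMod Q => a * x = 0)).card ≤ gc a := by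
  have hQ := NeZero.pos Q
  obtain ⟨Q', hQ'⟩ : gc a ∣ Q := Nat.gcd_dvd_right _ _
  obtain ⟨a', ha'⟩ : gc a ∣ a.val := Nat.gcd_dvd_left _ _
  have hg := gc_pos a
  have hQ0 : 0 < Q' := Nat.pos_of_mul_pos_left (hQ' ▸ hQ)
  have hco : Q'.Coprime a' := by
    have : (gc a * a').gcd (gc a * Q') = gc a := by rw [← ha', ← hQ']; rfl
    rw [Nat.gcd_mul_left] at this
    exact Nat.Coprime.symm (Nat.eq_of_mul_eq_mul_left hg (this.trans (mul_one _).symm))
  have hd : ∀ x : ZMod Q, a * x = 0 → Q' ∣ x.val := by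
    intro x hx
    have h1 : Q ∣ a.val * x.val := by
      rw [← ZMod.natCast_eq_zero_iff]; push_cast; simpa using hx
    rw [ha', mul_assoc] at h1
    nth_rewrite 1 [hQ'] at h1
    exact hco.dvd_of_dvd_mul_left (Nat.dvd_of_mul_dvd_mul_left hg h1)
  rw [← card_range (gc a)]
  refine card_le_card_of_injOn (fun x => x.val / Q') ?_ ?_
  · intro x _
    simp only [coe_range, Set.mem_Iio]
    rw [Nat.div_lt_iff_lt_mul hQ0, ← hQ']; exact ZMod.val_lt x
  · intro x hx y hy hxy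
    have h1 := Nat.mul_div_cancel' (hd x (mem_filter.1 hx).2)
    have h2 := Nat.mul_div_cancel' (hd y (mem_filter.1 hy).2)
    apply ZMod.val_injective
    simp only at hxy
    rw [← h1, ← h2, hxy]

lemma card_sol_le (a c : ZMod Q) : (univ.filter (fun x : ZMod Q => a * x = c)).card ≤ gc a := by
  rcases (univ.filter (fun x : ZMod Q => a * x = c)).eq_empty_or_nonempty with h | ⟨x0, h⟩
  · simp [h]
  refine le_trans (card_le_card_of_injOn (fun x => x - x0) ?_ ?_) (card_ker_le a)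
  · intro x hx
    simp only [coe_filter, mem_univ, true_and, Set.mem_ofPred_eq] at hx ⊢
    rw [mul_sub, hx, (mem_filter.1 h).2, sub_self]
  · intro x _ y _ hxy; exact sub_left_injective hxy

lemma sum_zmod_val {M : Type*} [AddCommMonoid M] (F : ℕ → M) :
    ∑ x : ZMod Q, F x.val = ∑ n ∈ range Q, F n := by
  refine sum_nbij (fun x => x.val) (fun x _ => mem_range.2 (ZMod.val_lt x))
    (fun x _ y _ h => ZMod.val_injective Q h) (fun n hn => ⟨(n : ZMod Q), by simp, ?_⟩) fun _ _ => rfl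
  exact ZMod.val_cast_of_lt (by simpa using hn)

lemma sum_gc_le : ∑ x : ZMod Q, gc x ≤ Q * Q.divisors.card := by
  have hQ := NeZero.pos Q
  calc ∑ x : ZMod Q, gc x ≤ ∑ x : ZMod Q, ∑ g ∈ Q.divisors, if g ∣ x.val then g else 0 := by
        refine sum_le_sum fun x _ => ?_
        have := single_le_sum (s := Q.divisors) (a := gc x)
          (f := fun g => if g ∣ x.val then g else 0) (fun g _ => Nat.zero_le _)
          (Nat.mem_divisors.2 ⟨Nat.gcd_dvd_right _ _, hQ.ne'⟩)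
        rwa [if_pos (show gc x ∣ x.val from Nat.gcd_dvd_left _ _)] at this
    _ ≤ ∑ g ∈ Q.divisors, Q := by
        rw [sum_comm]
        refine sum_le_sum fun g hg => ?_
        rw [sum_zmod_val (fun n => if g ∣ n then g else 0), ← sum_filter, sum_const, smul_eq_mul]
        have hg0 : 0 < g := Nat.pos_of_mem_divisors hg
        obtain ⟨k, hk⟩ := Nat.dvd_of_mem_divisors hg
        have : ((range Q).filter (g ∣ ·)).card ≤ (range k).card := by
          refine card_le_card_of_injOn (· / g) ?_ ?_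
          · intro x hx
            simp only [coe_range, Set.mem_Iio]
            rw [Nat.div_lt_iff_lt_mul hg0, mul_comm, ← hk]; exact mem_range.1 (mem_filter.1 hx).1
          · intro x hx y hy hxy
            have h1 := Nat.mul_div_cancel' (mem_filter.1 hx).2
            have h2 := Nat.mul_div_cancel' (mem_filter.1 hy).2
            simp only at hxy
            rw [← h1, ← h2, hxy]
        rw [card_range] at this
        calc _ ≤ k * g := Nat.mul_le_mul_right _ this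
          _ = Q := by rw [hk, mul_comm]
    _ = _ := by simp [mul_comm]

lemma card_triple_le : (univ.filter (fun p : ZMod Q × ZMod Q × ZMod Q => p.1 * p.2.1 * p.2.2 = 0)).card ≤
    (Q * Q.divisors.card) ^ 2 := by
  rw [card_filter, Fintype.sum_prod_type]
  simp_rw [Fintype.sum_prod_type, ← card_filter]
  calc _ ≤ ∑ s : ZMod Q, ∑ a : ZMod Q, gc s * gc a :=
        sum_le_sum fun s _ => sum_le_sum fun a _ => (card_ker_le _).trans (gc_mul_le s a)
    _ = (∑ s : ZMod Q, gc s) ^ 2 := by rw [sq, sum_mul_sum]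
    _ ≤ _ := Nat.pow_le_pow_left sum_gc_le 2

lemma card_four_le : (((univ : Finset ((ZMod Q)ˣ × (ZMod Q)ˣ)) ×ˢ univ).filter
    (fun p : ((ZMod Q)ˣ × (ZMod Q)ˣ) × ((ZMod Q)ˣ × (ZMod Q)ˣ) =>
      (p.1.1 : ZMod Q) + p.1.2 = p.2.1 + p.2.2 ∧
      ((p.1.1⁻¹ : (ZMod Q)ˣ) : ZMod Q) + (p.1.2⁻¹ : (ZMod Q)ˣ) =
        (p.2.1⁻¹ : (ZMod Q)ˣ) + (p.2.2⁻¹ : (ZMod Q)ˣ))).card ≤ 2 * (Q * Q.divisors.card) ^ 2 := by
  refine le_trans (card_le_mul_card_image_of_maps_to (t := univ.filter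
    (fun p : ZMod Q × ZMod Q × ZMod Q => p.1 * p.2.1 * p.2.2 = 0))
    (f := fun p => ((p.1.1 : ZMod Q) + p.1.2, (p.2.1 : ZMod Q) - p.1.1, (p.1.2 : ZMod Q) - p.2.1))
    ?_ 2 ?_) (Nat.mul_le_mul_left _ card_triple_le)
  · rintro ⟨⟨x, y⟩, z, t⟩ hp
    obtain ⟨-, h1, h2⟩ := mem_filter.1 hp
    simp only [mem_filter, mem_univ, true_and] at h1 h2 ⊢
    have hx := Units.mul_inv x
    have hy := Units.mul_inv y
    have hz := Units.mul_inv z
    have ht := Units.mul_inv t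
    have h3 : (t : ZMod Q) = x + y - z := by linear_combination -h1
    have h4 : ((x : ZMod Q) + y) * z * t = (z + t) * x * y := by
      linear_combination (x : ZMod Q) * y * z * t * h2 - y * z * t * hx - x * z * t * hy +
        x * y * t * hz + x * y * z * ht
    rw [h3] at h4
    linear_combination h4
  · rintro ⟨s, a, b⟩ _
    refine le_trans (card_le_card_of_injOn (t := univ.filter (fun x : ZMod Q => 2 * x = s - a - b))
      (fun p => (p.1.1 : ZMod Q)) ?_ ?_) ((card_sol_le _ _).trans ?_)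
    · rintro ⟨⟨x, y⟩, z, t⟩ hp
      simp only [coe_filter, Set.mem_ofPred_eq, Prod.mk.injEq, mem_univ, true_and] at hp ⊢
      obtain ⟨-, rfl, rfl, rfl⟩ := hp
      ring
    · rintro ⟨⟨x, y⟩, z, t⟩ hp ⟨⟨x', y'⟩, z', t'⟩ hp' h
      simp only [coe_filter, Set.mem_ofPred_eq, Prod.mk.injEq, mem_filter] at hp hp' h ⊢
      obtain ⟨⟨-, h1, -⟩, h2, h3, h4⟩ := hp
      obtain ⟨⟨-, h1', -⟩, h2', h3', h4'⟩ := hp'
      refine ⟨⟨Units.ext h, Units.ext ?_⟩, Units.ext ?_, Units.ext ?_⟩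
      · linear_combination h2 - h2' - h
      · linear_combination h3 - h3' + h
      · linear_combination h1' - h1 + h2 - h2' - h3 + h3' - h
    · unfold gc
      have : ((2 : ℕ) : ZMod Q).val ≤ 2 := by rw [ZMod.val_natCast]; exact Nat.mod_le _ _
      rcases Nat.eq_zero_or_pos ((2 : ℕ) : ZMod Q).val with h | h
      · have h2 : Q ∣ 2 := by
          rw [← ZMod.natCast_eq_zero_iff, ← ZMod.val_eq_zero]; exact h
        exact (Nat.gcd_le_right _ (NeZero.pos Q)).trans (Nat.le_of_dvd (by norm_num) h2)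
      · exact (Nat.gcd_le_left _ h).trans this

lemma parseval2 {I : Type*} (s : Finset I) (c : I → ℂ) (hc : ∀ i, ‖c i‖ ≤ 1) (u v : I → ZMod Q) :
    ∑ a : ZMod Q, ∑ b : ZMod Q, ‖∑ i ∈ s, c i * ZMod.stdAddChar (a * u i + b * v i)‖ ^ 2 ≤
      (Q : ℝ) ^ 2 * (((s ×ˢ s).filter (fun p => u p.1 = u p.2 ∧ v p.1 = v p.2)).card : ℝ) := by
  set ψ := ZMod.stdAddChar (N := Q)
  have hψ := ZMod.isPrimitive_stdAddChar Q
  have key : ∀ a b : ZMod Q, ((‖∑ i ∈ s, c i * ψ (a * u i + b * v i)‖ ^ 2 : ℝ) : ℂ) =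
      ∑ p ∈ s ×ˢ s, c p.1 * (starRingEnd ℂ) (c p.2) *
        (ψ (a * (u p.1 - u p.2)) * ψ (b * (v p.1 - v p.2))) := by
    intro a b
    rw [← Complex.normSq_eq_norm_sq, ← Complex.mul_conj, map_sum, sum_mul_sum, sum_product]
    refine sum_congr rfl fun i _ => sum_congr rfl fun j _ => ?_
    rw [map_mul, ← AddChar.map_neg_eq_conj, ← AddChar.map_add_eq_mul, mul_mul_mul_comm,
      ← AddChar.map_add_eq_mul]
    congr 2; ring
  have h1 : ((∑ a : ZMod Q, ∑ b : ZMod Q, ‖∑ i ∈ s, c i * ψ (a * u i + b * v i)‖ ^ 2 : ℝ) : ℂ) =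
      ∑ p ∈ s ×ˢ s, c p.1 * (starRingEnd ℂ) (c p.2) *
        if u p.1 = u p.2 ∧ v p.1 = v p.2 then (Q : ℂ) ^ 2 else 0 := by
    rw [Complex.ofReal_sum]
    simp_rw [Complex.ofReal_sum, key]
    calc _ = ∑ p ∈ s ×ˢ s, c p.1 * (starRingEnd ℂ) (c p.2) *
          ((∑ a : ZMod Q, ψ (a * (u p.1 - u p.2))) * ∑ b : ZMod Q, ψ (b * (v p.1 - v p.2))) := by
          simp_rw [sum_mul_sum, mul_sum]
          rw [sum_comm (s := s ×ˢ s)]
          refine sum_congr rfl fun a _ => ?_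
          rw [sum_comm (s := s ×ˢ s)]
      _ = _ := by
          refine sum_congr rfl fun p _ => ?_
          rw [AddChar.sum_mulShift _ hψ, AddChar.sum_mulShift _ hψ]
          by_cases h1 : u p.1 = u p.2 <;> by_cases h2 : v p.1 = v p.2 <;>
            simp [h1, h2, sub_eq_zero, sq]
  have h2 := congrArg norm h1
  rw [Complex.norm_real, Real.norm_eq_abs] at h2
  refine (le_abs_self _).trans (h2.le.trans ((norm_sum_le _ _).trans ?_))
  rw [card_filter, Nat.cast_sum, mul_sum]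
  refine sum_le_sum fun p _ => ?_
  rw [norm_mul, norm_mul, Complex.norm_conj]
  split_ifs
  · rw [norm_pow, Complex.norm_natCast, Nat.cast_one, mul_one]
    exact mul_le_of_le_one_left (by positivity) (mul_le_one₀ (hc _) (norm_nonneg _) (hc _))
  · simp

/-- The twisted Kloosterman sum. -/
noncomputable def KS (φ : (ZMod Q)ˣ → ℂ) (a b : ZMod Q) : ℂ :=
  ∑ x : (ZMod Q)ˣ, φ x * ZMod.stdAddChar (a * (x : ZMod Q) + b * ((x⁻¹ : (ZMod Q)ˣ) : ZMod Q))

variable {φ : (ZMod Q)ˣ → ℂ}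

lemma norm_KS_scale (hm : ∀ x y, φ (x * y) = φ x * φ y) (h1 : ∀ x, ‖φ x‖ = 1) (a b : ZMod Q)
    (u : (ZMod Q)ˣ) : ‖KS φ (a * u) (b * ((u⁻¹ : (ZMod Q)ˣ) : ZMod Q))‖ = ‖KS φ a b‖ := by
  have : φ u * KS φ (a * u) (b * ((u⁻¹ : (ZMod Q)ˣ) : ZMod Q)) = KS φ a b := by
    unfold KS
    rw [mul_sum, ← Equiv.sum_comp (Equiv.mulLeft u) (fun x => φ x *
      ZMod.stdAddChar (a * (x : ZMod Q) + b * ((x⁻¹ : (ZMod Q)ˣ) : ZMod Q)))]
    refine sum_congr rfl fun x _ => ?_
    simp only [Equiv.coe_mulLeft, hm, mul_inv, Units.val_mul, mul_assoc]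
  rw [← this, norm_mul, h1, one_mul]

lemma sum_KS_four (h1 : ∀ x, ‖φ x‖ = 1) : ∑ a : ZMod Q, ∑ b : ZMod Q, ‖KS φ a b‖ ^ 4 ≤
    (Q : ℝ) ^ 2 * (2 * (Q * Q.divisors.card) ^ 2) := by
  have := parseval2 (univ : Finset ((ZMod Q)ˣ × (ZMod Q)ˣ)) (fun p => φ p.1 * φ p.2)
    (fun p => by rw [norm_mul, h1, h1, one_mul]) (fun p => (p.1 : ZMod Q) + (p.2 : ZMod Q))
    (fun p => ((p.1⁻¹ : (ZMod Q)ˣ) : ZMod Q) + ((p.2⁻¹ : (ZMod Q)ˣ) : ZMod Q))
  refine le_trans (le_of_eq ?_) (this.trans (mul_le_mul_of_nonneg_left ?_ (by positivity)))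
  · refine sum_congr rfl fun a _ => sum_congr rfl fun b _ => ?_
    rw [show 4 = 2 * 2 by norm_num, pow_mul, ← norm_pow, sq (KS φ a b), KS, sum_mul_sum,
      ← Fintype.sum_prod_type']
    congr 2
    refine sum_congr rfl fun p _ => ?_
    rw [mul_mul_mul_comm, ← AddChar.map_add_eq_mul]
    congr 2; ring
  · exact_mod_cast card_four_le

theorem norm_KS_le (hm : ∀ x y, φ (x * y) = φ x * φ y) (h1 : ∀ x, ‖φ x‖ = 1) {K : ℝ} (hK0 : 0 ≤ K)
    (hK : 2 * (Q : ℝ) ^ 3 * (Q.divisors.card : ℝ) ^ 3 ≤ K ^ 4) (a b : ZMod Q) :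
    ‖KS φ a b‖ ≤ gc b * K := by
  have hQ := NeZero.pos Q
  set f : (ZMod Q)ˣ → ZMod Q × ZMod Q := fun u => (a * u, b * ((u⁻¹ : (ZMod Q)ˣ) : ZMod Q)) with hf
  have e1 : (Q.totient : ℝ) * ‖KS φ a b‖ ^ 4 = ∑ u, ‖KS φ (f u).1 (f u).2‖ ^ 4 := by
    simp only [hf, norm_KS_scale hm h1, sum_const, card_univ, ZMod.card_units_eq_totient,
      nsmul_eq_mul]
  have e2 : ∑ u, ‖KS φ (f u).1 (f u).2‖ ^ 4 ≤ gc b * ∑ p : ZMod Q × ZMod Q, ‖KS φ p.1 p.2‖ ^ 4 := by
    rw [← sum_fiberwise_of_maps_to (s := univ) (t := univ) (g := f) (fun _ _ => mem_univ _), mul_sum]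
    refine sum_le_sum fun p _ => ?_
    rw [sum_congr rfl (g := fun _ => ‖KS φ p.1 p.2‖ ^ 4)
      (fun u hu => by rw [(mem_filter.1 hu).2]), sum_const, nsmul_eq_mul]
    refine mul_le_mul_of_nonneg_right ?_ (by positivity)
    have : (univ.filter (fun u => f u = p)).card ≤ gc b := by
      refine le_trans (card_le_card_of_injOn (fun u => ((u⁻¹ : (ZMod Q)ˣ) : ZMod Q)) ?_ ?_)
        (card_sol_le b p.2)
      · intro u hu
        simp only [coe_filter, mem_univ, true_and, Set.mem_ofPred_eq] at hu ⊢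
        rw [← hu]
      · intro u _ v _ h
        exact inv_injective (Units.ext h)
    exact_mod_cast this
  rw [Fintype.sum_prod_type] at e2
  have e3 := mul_le_mul_of_nonneg_left (sum_KS_four h1) (Nat.cast_nonneg (gc b) : (0 : ℝ) ≤ _)
  have e4 : (Q : ℝ) ≤ Q.divisors.card * Q.totient := by exact_mod_cast le_totient_mul hQ
  have hg : (1 : ℝ) ≤ gc b := by exact_mod_cast gc_pos b
  have hQ' : (0 : ℝ) < Q := by exact_mod_cast hQ
  have e5 : (Q : ℝ) * ‖KS φ a b‖ ^ 4 ≤ Q * (gc b * (2 * (Q : ℝ) ^ 3 * (Q.divisors.card : ℝ) ^ 3)) := by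
    calc _ ≤ (Q.divisors.card * Q.totient) * ‖KS φ a b‖ ^ 4 := by gcongr
      _ = Q.divisors.card * (Q.totient * ‖KS φ a b‖ ^ 4) := by ring
      _ ≤ Q.divisors.card * (gc b * ((Q : ℝ) ^ 2 * (2 * (Q * Q.divisors.card) ^ 2))) := by
          exact mul_le_mul_of_nonneg_left (e1.le.trans (e2.trans e3)) (Nat.cast_nonneg _)
      _ = _ := by ring
  have e6 := le_of_mul_le_mul_left e5 hQ'
  refine le_of_pow_le_pow_left₀ (n := 4) (by norm_num) (by positivity) (e6.trans ?_)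
  rw [mul_pow]
  exact mul_le_mul (le_self_pow₀ hg (by norm_num)) hK (by positivity) (by positivity)

/-- Fourier transform of an interval. -/
noncomputable def FI (A B : ℕ) (h : ZMod Q) : ℂ := ∑ n ∈ Ico A B, ZMod.stdAddChar (-(h * (n : ZMod Q)))

lemma ind_eq (x y : ZMod Q) : (if x = y then (1 : ℂ) else 0) =
    (1 / Q) * ∑ h : ZMod Q, ZMod.stdAddChar (h * (x - y)) := by
  rw [AddChar.sum_mulShift _ (ZMod.isPrimitive_stdAddChar Q)]
  have : (Q : ℂ) ≠ 0 := by exact_mod_cast NeZero.ne Q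
  by_cases h : x = y <;> simp [h, sub_eq_zero, this]

lemma count_eq (A B : ℕ) (x : ZMod Q) : ∑ n ∈ Ico A B, (if x = n then (1 : ℂ) else 0) =
    (1 / Q) * ∑ h : ZMod Q, FI A B h * ZMod.stdAddChar (h * x) := by
  simp_rw [ind_eq, FI, sum_mul, ← mul_sum]
  rw [sum_comm]
  congr 1
  refine sum_congr rfl fun h _ => sum_congr rfl fun n _ => ?_
  rw [← AddChar.map_add_eq_mul]; congr 1; ring

lemma norm_FI_le (A B : ℕ) {h : ZMod Q} (hh : h ≠ 0) :
    ‖FI A B h‖ ≤ Q / (2 * h.val) + Q / (2 * (Q - h.val)) := by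
  have hQ : (0 : ℝ) < Q := by exact_mod_cast NeZero.pos Q
  have h0 : (0 : ℝ) < h.val := by exact_mod_cast ZMod.val_pos.2 hh
  have h1 : (h.val : ℝ) < Q := by exact_mod_cast ZMod.val_lt h
  have e : FI A B h = (starRingEnd ℂ) (∑ n ∈ Ico A B, ex (n * (h.val / Q))) := by
    rw [map_sum]
    refine sum_congr rfl fun n _ => ?_
    rw [AddChar.map_neg_eq_conj]
    congr 1
    have : h * (n : ZMod Q) = (((h.val * n : ℕ) : ℤ) : ZMod Q) := by push_cast; simp
    rw [this, ZMod.stdAddChar_coe, ex]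
    congr 1; push_cast; ring
  rw [e, Complex.norm_conj]
  refine (norm_geom_le (by positivity) (by rwa [div_lt_one hQ]) A B).trans (le_of_eq ?_)
  have : (Q : ℝ) - h.val ≠ 0 := by linarith
  field_simp

lemma sum_gc_FI_le (A B : ℕ) : ∑ h ∈ univ.erase (0 : ZMod Q), ‖FI A B h‖ * gc h ≤
    Q * (Q.divisors.card * (1 + Real.log Q)) := by
  have hQ := NeZero.pos Q
  set F : ℕ → ℝ := fun n => if n = 0 then 0 else
    ((Q : ℝ) / (2 * n) + Q / (2 * (Q - n))) * n.gcd Q with hF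
  calc _ ≤ ∑ h ∈ univ.erase (0 : ZMod Q), F h.val := by
        refine sum_le_sum fun h hh => ?_
        have hh' := ne_of_mem_erase hh
        simp only [hF]
        rw [if_neg (by rwa [ZMod.val_eq_zero])]
        exact mul_le_mul_of_nonneg_right (norm_FI_le A B hh') (Nat.cast_nonneg _)
    _ = ∑ n ∈ Ico 1 Q, ((Q : ℝ) / (2 * n) + Q / (2 * (Q - n))) * n.gcd Q := by
        rw [sum_erase _ (by simp [hF]), sum_zmod_val, range_eq_Ico, sum_eq_sum_Ico_succ_bot hQ]
        simp only [hF, if_true, zero_add]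
        exact sum_congr rfl fun n hn => if_neg (by have := (mem_Ico.1 hn).1; omega)
    _ = ∑ n ∈ Ico 1 Q, (Q : ℝ) / 2 * (n.gcd Q / n) + ∑ n ∈ Ico 1 Q, (Q : ℝ) / 2 * (n.gcd Q / n) := by
        simp_rw [add_mul]
        rw [sum_add_distrib]
        congr 1
        · exact sum_congr rfl fun n _ => by ring
        · refine sum_nbij' (fun n => Q - n) (fun n => Q - n) ?_ ?_ ?_ ?_ ?_
          · intro n hn; simp only [mem_Ico] at hn ⊢; omega
          · intro n hn; simp only [mem_Ico] at hn ⊢; omega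
          · intro n hn; simp only [mem_Ico] at hn ⊢; omega
          · intro n hn; simp only [mem_Ico] at hn ⊢; omega
          · intro n hn
            have := (mem_Ico.1 hn).2.le
            rw [Nat.cast_sub this, Nat.gcd_comm (Q - n), Nat.gcd_self_sub_right this, Nat.gcd_comm]
            simp only [div_eq_mul_inv, mul_inv]; ring
    _ ≤ _ := by
        rw [← mul_sum]
        have := mul_le_mul_of_nonneg_left (sum_gcd_div_le hQ) (Nat.cast_nonneg Q : (0 : ℝ) ≤ _)
        linarith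

lemma sum_FI_le {A B : ℕ} (hAB : A ≤ B) : ∑ h : ZMod Q, ‖FI A B h‖ ≤
    (B - A) + Q * (Q.divisors.card * (1 + Real.log Q)) := by
  rw [← add_sum_erase _ _ (mem_univ (0 : ZMod Q))]
  refine add_le_add ?_ (le_trans (sum_le_sum fun h _ => ?_) (sum_gc_FI_le A B))
  · simp [FI, ← Nat.cast_sub hAB]
  · exact le_mul_of_one_le_right (norm_nonneg _) (by exact_mod_cast gc_pos h)

theorem box {Φ : ℕ → ℝ} (hm : ∀ m n, Φ (m * n) = Φ m * Φ n) (hp : ∀ n, Φ (n % Q) = Φ n)
    (h1 : ∀ n, n.Coprime Q → |Φ n| = 1) {K : ℝ} (hK0 : 0 ≤ K)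
    (hK : 2 * (Q : ℝ) ^ 3 * (Q.divisors.card : ℝ) ^ 3 ≤ K ^ 4) {b : ℕ} (hb : b.Coprime Q)
    {A1 B1 A2 B2 : ℕ} (h12 : A1 ≤ B1) (h22 : A2 ≤ B2) :
    |∑ d ∈ Ico A1 B1, ∑ e ∈ Ico A2 B2, (if d * e ≡ b [MOD Q] then Φ d else 0) -
      (B2 - A2) / Q * ∑ d ∈ Ico A1 B1, (if d.Coprime Q then Φ d else 0)| ≤
      ((B1 - A1) / Q + Q.divisors.card * (1 + Real.log Q)) *
        (Q.divisors.card * (1 + Real.log Q)) * K := by
  set ψ := ZMod.stdAddChar (N := Q)
  have hQ : (0 : ℝ) < Q := by exact_mod_cast NeZero.pos Q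
  have hQc : (Q : ℂ) ≠ 0 := by exact_mod_cast NeZero.ne Q
  set φ : (ZMod Q)ˣ → ℂ := fun u => Φ (u : ZMod Q).val with hφ
  have hφm : ∀ x y, φ (x * y) = φ x * φ y := fun x y => by
    simp only [hφ, Units.val_mul, ZMod.val_mul, hp, hm]; push_cast; rfl
  have hφ1 : ∀ x, ‖φ x‖ = 1 := fun x => by
    simp only [hφ, Complex.norm_real, Real.norm_eq_abs]; exact h1 _ (ZMod.val_coe_unit_coprime x)
  set H : (ZMod Q)ˣ → ℂ := fun x => φ x * ((1 / Q) * ∑ h ∈ univ.erase (0 : ZMod Q),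
    FI A2 B2 h * ψ (h * (b * ((x⁻¹ : (ZMod Q)ˣ) : ZMod Q)))) with hH
  have step : ∀ d : ℕ, ((∑ e ∈ Ico A2 B2, (if d * e ≡ b [MOD Q] then Φ d else 0) -
      (B2 - A2) / Q * (if d.Coprime Q then Φ d else 0) : ℝ) : ℂ) =
      ∑ x : (ZMod Q)ˣ, H x * if (x : ZMod Q) = d then 1 else 0 := by
    intro d
    by_cases hd : d.Coprime Q
    · set u := ZMod.unitOfCoprime d hd with hu
      have hud : (u : ZMod Q) = d := ZMod.coe_unitOfCoprime d hd
      rw [sum_eq_single u (fun x _ hx => by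
        rw [if_neg (fun h => hx (Units.ext (h.trans hud.symm))), mul_zero]) (by simp), if_pos hud,
        mul_one, if_pos hd]
      have h2 := count_eq A2 B2 ((b : ZMod Q) * ((u⁻¹ : (ZMod Q)ˣ) : ZMod Q))
      rw [← add_sum_erase _ _ (mem_univ (0 : ZMod Q)), mul_add] at h2
      have h3 : φ u = Φ d := by simp only [hφ]; rw [hud, ZMod.val_natCast, hp]
      have h4 : FI A2 B2 (0 : ZMod Q) = B2 - A2 := by simp [FI, Nat.cast_sub h22]
      simp only [hH]
      rw [← sub_eq_iff_eq_add'.2 h2, h3, h4]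
      push_cast
      rw [mul_sub, mul_sum]
      congr 1
      · refine sum_congr rfl fun e _ => ?_
        have : d * e ≡ b [MOD Q] ↔ (b : ZMod Q) * ((u⁻¹ : (ZMod Q)ˣ) : ZMod Q) = e := by
          rw [← ZMod.natCast_eq_natCast_iff, Units.mul_inv_eq_iff_eq_mul, hud]; push_cast
          rw [mul_comm, eq_comm]
        by_cases h5 : d * e ≡ b [MOD Q]
        · rw [if_pos h5, if_pos (this.1 h5), mul_one]
        · rw [if_neg h5, if_neg (fun h => h5 (this.2 h))]; simp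
      · simp; ring
    · rw [if_neg hd, mul_zero, sub_zero, sum_eq_zero, sum_eq_zero, Complex.ofReal_zero]
      · intro x _
        rw [if_neg, mul_zero]
        intro h; apply hd
        have := ZMod.val_coe_unit_coprime x
        rwa [h, ZMod.val_natCast, ← Nat.coprime_comm, Nat.Coprime, Nat.gcd_comm, ← Nat.gcd_rec,
          Nat.gcd_comm] at this
      · intro e _
        rw [if_neg]
        intro h; apply hd
        have : (d * e).Coprime Q := by rw [Nat.Coprime, h.gcd_eq]; exact hb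
        exact Nat.Coprime.coprime_mul_right this
  have main : ((∑ d ∈ Ico A1 B1, ∑ e ∈ Ico A2 B2, (if d * e ≡ b [MOD Q] then Φ d else 0) -
      (B2 - A2) / Q * ∑ d ∈ Ico A1 B1, (if d.Coprime Q then Φ d else 0) : ℝ) : ℂ) =
      (1 / Q) * (1 / Q) * ∑ h1 : ZMod Q, ∑ h2 ∈ univ.erase (0 : ZMod Q),
        FI A1 B1 h1 * FI A2 B2 h2 * KS φ h1 (h2 * b) := by
    rw [mul_sum, ← sum_sub_distrib, Complex.ofReal_sum]
    simp_rw [step]
    rw [sum_comm]
    simp_rw [← mul_sum, count_eq]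
    simp only [hH, KS, mul_sum, sum_mul]
    rw [sum_comm]
    refine sum_congr rfl fun h1 _ => ?_
    rw [sum_comm]
    refine sum_congr rfl fun h2 _ => sum_congr rfl fun x _ => ?_
    rw [AddChar.map_add_eq_mul, mul_assoc h2]; ring
  rw [← Real.norm_eq_abs, ← Complex.norm_real, main, norm_mul]
  have hgb : gc ((b : ℕ) : ZMod Q) = 1 := by
    rw [← ZMod.coe_unitOfCoprime b hb]; exact gc_unit _
  have hS : ‖∑ h1 : ZMod Q, ∑ h2 ∈ univ.erase (0 : ZMod Q),
      FI A1 B1 h1 * FI A2 B2 h2 * KS φ h1 (h2 * b)‖ ≤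
      ((B1 - A1) + Q * (Q.divisors.card * (1 + Real.log Q))) *
        (Q * (Q.divisors.card * (1 + Real.log Q))) * K := by
    calc _ ≤ ∑ h1 : ZMod Q, ∑ h2 ∈ univ.erase (0 : ZMod Q),
          ‖FI A1 B1 h1‖ * (‖FI A2 B2 h2‖ * gc h2) * K := by
          refine (norm_sum_le _ _).trans (sum_le_sum fun h1 _ =>
            (norm_sum_le _ _).trans (sum_le_sum fun h2 _ => ?_))
          rw [norm_mul, norm_mul]
          have h6 := norm_KS_le hφm hφ1 hK0 hK h1 (h2 * (b : ZMod Q))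
          have h7 : (gc (h2 * (b : ZMod Q)) : ℝ) ≤ gc h2 := by
            have := gc_mul_le h2 (b : ZMod Q); rw [hgb, mul_one] at this; exact_mod_cast this
          calc _ ≤ ‖FI A1 B1 h1‖ * ‖FI A2 B2 h2‖ * (gc h2 * K) := by gcongr; exact h6.trans (by gcongr)
            _ = _ := by ring
      _ = (∑ h1 : ZMod Q, ‖FI A1 B1 h1‖) * (∑ h2 ∈ univ.erase (0 : ZMod Q), ‖FI A2 B2 h2‖ * gc h2) * K := by
          rw [sum_mul_sum, sum_mul]; exact sum_congr rfl fun _ _ => by rw [sum_mul]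
      _ ≤ _ := by
          refine mul_le_mul_of_nonneg_right (mul_le_mul (sum_FI_le h12) (sum_gc_FI_le _ _)
            (sum_nonneg fun _ _ => by positivity) ?_) hK0
          exact le_trans (sum_nonneg fun _ _ => norm_nonneg _) (sum_FI_le (Q := Q) h12)
  refine (mul_le_mul_of_nonneg_left hS (norm_nonneg _)).trans (le_of_eq ?_)
  rw [norm_mul, norm_div, norm_one, Complex.norm_natCast]
  field_simp

end Pool.Agent.P.MP_746f10_nt
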