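import Mathlib
import Pool.Agent.P.MP_746f10_nt.Kloo

/-! Duality, the additive large sieve for prime moduli and a bilinear estimate. -/

namespace Pool.Agent.P.MP_746f10_nt

open Finset

theorem dual_ls {X Ω : Type*} (S : Finset X) (T : Finset Ω) (φ : X → Ω → ℂ) (a : Ω → ℂ)
    {δ θ : Ω → ℝ} (h0 : ∀ n ∈ T, 0 ≤ δ n) (h1 : ∀ n ∈ T, δ n ≤ θ n) {Δ : ℝ} (hΔ0 : 0 ≤ Δ)
    (hΔ : ∀ x ∈ S, ∑ x' ∈ S, ‖∑ n ∈ T, θ n * (φ x n * (starRingEnd ℂ) (φ x' n))‖ ≤ Δ) :
    ∑ x ∈ S, ‖∑ n ∈ T, δ n * (a n * φ x n)‖ ^ 2 ≤ Δ * ∑ n ∈ T, δ n * ‖a n‖ ^ 2 := by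
  set c : X → ℂ := fun x => ∑ n ∈ T, δ n * (a n * φ x n) with hc
  set g : Ω → ℂ := fun n => ∑ x ∈ S, (starRingEnd ℂ) (c x) * φ x n with hg
  set K : X → X → ℝ := fun x x' => ‖∑ n ∈ T, θ n * (φ x n * (starRingEnd ℂ) (φ x' n))‖ with hK
  set s := ∑ x ∈ S, ‖c x‖ ^ 2 with hs
  have hKs : ∀ x x', K x x' = K x' x := fun x x' => by
    simp only [hK]
    rw [← Complex.norm_conj, map_sum]
    congr 1
    exact sum_congr rfl fun n _ => by simp [mul_comm]
  have e1 : (s : ℂ) = ∑ n ∈ T, δ n * (a n * g n) := by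
    simp only [hs, hg, mul_sum]
    rw [sum_comm, Complex.ofReal_sum]
    refine sum_congr rfl fun x _ => ?_
    rw [← Complex.normSq_eq_norm_sq, Complex.normSq_eq_conj_mul_self]
    conv_lhs => rw [hc]; simp only; rw [mul_sum]
    exact sum_congr rfl fun n _ => by ring
  have hs0 : 0 ≤ s := sum_nonneg fun _ _ => sq_nonneg _
  have e2 : s ≤ ∑ n ∈ T, δ n * (‖a n‖ * ‖g n‖) := by
    have := congrArg norm e1
    rw [Complex.norm_real, Real.norm_of_nonneg hs0] at this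
    rw [this]
    refine (norm_sum_le _ _).trans (sum_le_sum fun n hn => ?_)
    rw [norm_mul, norm_mul, Complex.norm_real, Real.norm_of_nonneg (h0 n hn)]
  have e3 : (∑ n ∈ T, δ n * (‖a n‖ * ‖g n‖)) ^ 2 ≤
      (∑ n ∈ T, δ n * ‖a n‖ ^ 2) * ∑ n ∈ T, δ n * ‖g n‖ ^ 2 :=
    sum_sq_le_sum_mul_sum_of_sq_le_mul T (fun n hn => mul_nonneg (h0 n hn) (sq_nonneg _))
      (fun n hn => mul_nonneg (h0 n hn) (sq_nonneg _)) fun n _ => le_of_eq (by ring)
  have e4 : ∑ n ∈ T, θ n * ‖g n‖ ^ 2 ≤ Δ * s := by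
    have f1 : ((∑ n ∈ T, θ n * ‖g n‖ ^ 2 : ℝ) : ℂ) = ∑ x ∈ S, ∑ x' ∈ S,
        (starRingEnd ℂ) (c x) * c x' * ∑ n ∈ T, θ n * (φ x n * (starRingEnd ℂ) (φ x' n)) := by
      simp_rw [mul_sum]
      rw [Complex.ofReal_sum, sum_congr rfl fun x _ => sum_comm, sum_comm]
      refine sum_congr rfl fun n _ => ?_
      rw [Complex.ofReal_mul, ← Complex.normSq_eq_norm_sq, ← Complex.mul_conj]
      simp only [hg, map_sum, map_mul, Complex.conj_conj]
      rw [sum_mul_sum]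
      simp only [mul_sum]
      exact sum_congr rfl fun x _ => sum_congr rfl fun x' _ => by ring
    have f2 := congrArg norm f1
    rw [Complex.norm_real, Real.norm_eq_abs] at f2
    refine (le_abs_self _).trans (f2.le.trans ?_)
    calc _ ≤ ∑ x ∈ S, ∑ x' ∈ S, (‖c x‖ ^ 2 * K x x' / 2 + ‖c x'‖ ^ 2 * K x' x / 2) := by
          refine (norm_sum_le _ _).trans (sum_le_sum fun x _ =>
            (norm_sum_le _ _).trans (sum_le_sum fun x' _ => ?_))
          rw [norm_mul, norm_mul, Complex.norm_conj, hKs x' x]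
          have : 0 ≤ K x x' := norm_nonneg _
          change ‖c x‖ * ‖c x'‖ * K x x' ≤ _
          nlinarith [mul_nonneg this (sq_nonneg (‖c x‖ - ‖c x'‖))]
      _ = ∑ x ∈ S, ‖c x‖ ^ 2 * ∑ x' ∈ S, K x x' := by
          simp_rw [sum_add_distrib]
          rw [sum_comm (f := fun x x' => ‖c x'‖ ^ 2 * K x' x / 2), ← sum_add_distrib]
          refine sum_congr rfl fun x _ => ?_
          rw [← sum_add_distrib, mul_sum]
          exact sum_congr rfl fun x' _ => by ring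
      _ ≤ ∑ x ∈ S, ‖c x‖ ^ 2 * Δ :=
          sum_le_sum fun x hx => mul_le_mul_of_nonneg_left (hΔ x hx) (sq_nonneg _)
      _ = _ := by rw [← sum_mul, mul_comm]
  have e5 : ∑ n ∈ T, δ n * ‖g n‖ ^ 2 ≤ ∑ n ∈ T, θ n * ‖g n‖ ^ 2 :=
    sum_le_sum fun n hn => mul_le_mul_of_nonneg_right (h1 n hn) (sq_nonneg _)
  have hA : 0 ≤ ∑ n ∈ T, δ n * ‖a n‖ ^ 2 := sum_nonneg fun n hn => mul_nonneg (h0 n hn) (sq_nonneg _)
  have e6 : s * s ≤ (Δ * ∑ n ∈ T, δ n * ‖a n‖ ^ 2) * s := by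
    calc s * s = s ^ 2 := by ring
      _ ≤ _ := pow_le_pow_left₀ hs0 e2 2
      _ ≤ _ := e3
      _ ≤ (∑ n ∈ T, δ n * ‖a n‖ ^ 2) * (Δ * s) := mul_le_mul_of_nonneg_left (e5.trans e4) hA
      _ = _ := by ring
  rcases hs0.eq_or_lt with h | h
  · rw [← h]; positivity
  · exact le_of_mul_le_mul_right e6 h

lemma sum_inv_spaced {X : Type*} (S : Finset X) (t : X → ℝ) {M : ℕ} (hM : 0 < M)
    (h1 : ∀ x ∈ S, 1 / M ≤ t x ∧ t x ≤ 1)
    (h2 : ∀ x ∈ S, ∀ y ∈ S, x ≠ y → 1 / M ≤ |t x - t y|) :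
    ∑ x ∈ S, 1 / t x ≤ M * (1 + Real.log M) := by
  have hM' : (0 : ℝ) < M := by exact_mod_cast hM
  have h3 : ∀ x ∈ S, 1 ≤ M * t x := fun x hx => by
    have := (h1 x hx).1; rwa [div_le_iff₀ hM', mul_comm] at this
  calc _ ≤ ∑ x ∈ S, M * ((⌊M * t x⌋₊ : ℕ) : ℝ)⁻¹ := by
        refine sum_le_sum fun x hx => ?_
        have h4 : (1 : ℝ) ≤ ⌊M * t x⌋₊ := by exact_mod_cast Nat.le_floor (by simpa using h3 x hx)
        have h5 := Nat.floor_le (show 0 ≤ M * t x by linarith [h3 x hx])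
        have h6 : 0 < t x := lt_of_lt_of_le (by positivity) (h1 x hx).1
        rw [← div_eq_mul_inv, div_le_div_iff₀ h6 (by linarith)]; linarith
    _ = M * ∑ j ∈ S.image (fun x => ⌊M * t x⌋₊), (j : ℝ)⁻¹ := by
        classical
        rw [sum_image, mul_sum]
        intro x hx y hy hxy
        by_contra hne
        have h4 := h2 x hx y hy hne
        simp only at hxy
        have a1 := Nat.floor_le (show 0 ≤ M * t x by linarith [h3 x hx])
        have a2 := Nat.floor_le (show 0 ≤ M * t y by linarith [h3 y hy])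
        have a3 := Nat.lt_floor_add_one (M * t x)
        have a4 := Nat.lt_floor_add_one (M * t y)
        rw [hxy] at a1 a3
        rw [div_le_iff₀ hM', ← abs_of_pos hM', ← abs_mul] at h4
        have : |(t x - t y) * M| < 1 := by rw [abs_lt]; constructor <;> linarith
        linarith
    _ ≤ _ := by
        refine mul_le_mul_of_nonneg_left (le_trans (sum_le_sum_of_subset_of_nonneg ?_
          fun _ _ _ => by positivity) (sum_inv_le_log M)) hM'.le
        intro j hj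
        obtain ⟨x, hx, rfl⟩ := mem_image.1 hj
        refine mem_Ioc.2 ⟨Nat.le_floor (by simpa using h3 x hx), Nat.floor_le_of_le ?_⟩
        exact mul_le_of_le_one_right hM'.le (h1 x hx).2

lemma frac_spaced {P p h p' h' : ℕ} (hp : p ∈ PP P (2 * P)) (hp' : p' ∈ PP P (2 * P))
    (hh : h ∈ Ico 1 p) (hh' : h' ∈ Ico 1 p') (hne : (p, h) ≠ (p', h')) (k : ℤ) :
    1 / ((4 * P ^ 2 : ℕ) : ℝ) ≤ |(h : ℝ) / p - h' / p' - k| := by
  have h1 := mem_PP.1 hp
  have h2 := mem_PP.1 hp'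
  have h3 := mem_Ico.1 hh
  have h4 := mem_Ico.1 hh'
  have hp0 : (0 : ℝ) < p := by exact_mod_cast h1.2.2.pos
  have hp0' : (0 : ℝ) < p' := by exact_mod_cast h2.2.2.pos
  have hz : (h : ℤ) * p' - h' * p - k * p * p' ≠ 0 := by
    intro h0
    have h5 : (p : ℤ) ∣ h * p' := ⟨h' + k * p', by linear_combination h0⟩
    have h6 : p ∣ h * p' := by exact_mod_cast h5
    rcases (Nat.Prime.dvd_mul h1.2.2).1 h6 with h7 | h7
    · have := Nat.le_of_dvd h3.1 h7; omega
    · have h8 := (Nat.prime_dvd_prime_iff_eq h1.2.2 h2.2.2).1 h7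
      subst h8
      have h9 : (h : ℤ) - h' = k * p := by
        have : (p : ℤ) ≠ 0 := by exact_mod_cast h1.2.2.ne_zero
        apply mul_right_cancel₀ this; linear_combination h0
      have h10 : k = 0 := by
        rcases lt_trichotomy k 0 with hk | hk | hk
        · nlinarith
        · exact hk
        · nlinarith
      rw [h10] at h9
      exact hne (by rw [show h = h' by omega])
  have h5 : (1 : ℝ) ≤ |(h : ℝ) * p' - h' * p - k * p * p'| := by exact_mod_cast Int.one_le_abs hz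
  rw [show (h : ℝ) / p - h' / p' - k = (h * p' - h' * p - k * p * p') / (p * p') by field_simp,
    abs_div, abs_of_pos (mul_pos hp0 hp0')]
  have h6 : (p : ℝ) * p' ≤ (4 * P ^ 2 : ℕ) := by
    exact_mod_cast (by nlinarith [h1.2.1, h2.2.1] : p * p' ≤ 4 * P ^ 2)
  exact div_le_div₀ (by positivity) h5 (by positivity) h6

/-- The large sieve constant. -/
noncomputable def LSc (P A : ℕ) : ℝ := A + (4 * P ^ 2 : ℕ) * (1 + Real.log (4 * P ^ 2 : ℕ))

lemma le_LSc (P A : ℕ) : (A : ℝ) ≤ LSc P A :=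
  le_add_of_nonneg_right (mul_nonneg (Nat.cast_nonneg _)
    (by linarith [Real.log_natCast_nonneg (4 * P ^ 2)]))

lemma LSc_nonneg (P A : ℕ) : 0 ≤ LSc P A := (Nat.cast_nonneg _).trans (le_LSc P A)

theorem add_ls {P : ℕ} (hP : 0 < P) {S : Finset ℕ} (hS : S ⊆ PP P (2 * P)) (α : ℕ → ℝ) (A0 A : ℕ) :
    ∑ p ∈ S, ∑ h ∈ Ico 1 p, ‖∑ n ∈ Ico A0 (A0 + A), α n * ex (n * (h / p))‖ ^ 2 ≤
      LSc P A * ∑ n ∈ Ico A0 (A0 + A), α n ^ 2 := by
  classical
  have := dual_ls (S.sigma (fun p => Ico 1 p)) (Ico A0 (A0 + A))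
    (fun x n => ex (n * ((x.2 : ℝ) / x.1))) (fun n => α n) (δ := fun _ => 1) (θ := fun _ => 1)
    (by simp) (by simp) (LSc_nonneg P A) (fun x hx => ?_)
  · rw [sum_sigma] at this
    simpa using this
  rw [← add_sum_erase _ _ hx, LSc]
  have hM : 0 < 4 * P ^ 2 := by positivity
  set S' := (S.sigma (fun p => Ico 1 p)).erase x with hS'
  have sp : ∀ y ∈ S.sigma (fun p => Ico 1 p), ∀ z ∈ S.sigma (fun p => Ico 1 p), y ≠ z → ∀ k : ℤ,
      1 / ((4 * P ^ 2 : ℕ) : ℝ) ≤ |(y.2 : ℝ) / y.1 - z.2 / z.1 - k| := fun y hy z hz hne k =>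
    frac_spaced (hS (mem_sigma.1 hy).1) (hS (mem_sigma.1 hz).1) (mem_sigma.1 hy).2 (mem_sigma.1 hz).2
      (fun h => hne (by
        rcases y with ⟨y1, y2⟩; rcases z with ⟨z1, z2⟩
        simp only [Prod.mk.injEq] at h; rw [h.1, h.2])) k
  set t : (Σ _ : ℕ, ℕ) → ℝ := fun y => Int.fract ((x.2 : ℝ) / x.1 - y.2 / y.1) with ht
  have t1 : ∀ y ∈ S', 1 / ((4 * P ^ 2 : ℕ) : ℝ) ≤ t y := fun y hy => by
    have := sp x hx y (mem_of_mem_erase hy) (ne_of_mem_erase hy).symm ⌊(x.2 : ℝ) / x.1 - y.2 / y.1⌋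
    rwa [Int.self_sub_floor, abs_of_nonneg (Int.fract_nonneg _)] at this
  have t2 : ∀ y ∈ S', 1 / ((4 * P ^ 2 : ℕ) : ℝ) ≤ 1 - t y := fun y hy => by
    have := sp x hx y (mem_of_mem_erase hy) (ne_of_mem_erase hy).symm
      (⌊(x.2 : ℝ) / x.1 - y.2 / y.1⌋ + 1)
    rw [Int.cast_add, Int.cast_one, ← sub_sub, Int.self_sub_floor, abs_sub_comm,
      abs_of_nonneg (by linarith [Int.fract_lt_one ((x.2 : ℝ) / x.1 - y.2 / y.1)])] at this
    exact this
  have t3 : ∀ y ∈ S', ∀ z ∈ S', y ≠ z → 1 / ((4 * P ^ 2 : ℕ) : ℝ) ≤ |t y - t z| := fun y hy z hz hne => by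
    have := sp z (mem_of_mem_erase hz) y (mem_of_mem_erase hy) hne.symm
      (⌊(x.2 : ℝ) / x.1 - y.2 / y.1⌋ - ⌊(x.2 : ℝ) / x.1 - z.2 / z.1⌋)
    refine this.trans (le_of_eq ?_)
    simp only [ht, Int.fract]; push_cast; congr 1; ring
  have hpos : (0 : ℝ) < 1 / ((4 * P ^ 2 : ℕ) : ℝ) := by positivity
  refine add_le_add ?_ ?_
  · refine (norm_sum_le _ _).trans (le_of_eq ?_)
    simp [norm_ex]
  · have s1 := sum_inv_spaced S' t hM (fun y hy => ⟨t1 y hy, (Int.fract_lt_one _).le⟩) t3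
    have s2 := sum_inv_spaced S' (fun y => 1 - t y) hM
      (fun y hy => ⟨t2 y hy, by linarith [t1 y hy]⟩) (fun y hy z hz hne => by
        rw [show 1 - t y - (1 - t z) = -(t y - t z) by ring, abs_neg]; exact t3 y hy z hz hne)
    calc _ ≤ ∑ y ∈ S', (1 / (2 * t y) + 1 / (2 * (1 - t y))) := by
          refine sum_le_sum fun y hy => le_trans (le_of_eq ?_)
            (norm_geom_le (by linarith [t1 y hy]) (by linarith [t2 y hy]) A0 (A0 + A))
          congr 1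
          refine sum_congr rfl fun n _ => ?_
          rw [conj_ex, ← ex_add, Complex.ofReal_one, one_mul]
          simp only [ht, Int.fract]
          rw [← mul_one (ex (n * (_ - (⌊_⌋ : ℤ)))), ← ex_int (n * ⌊(x.2 : ℝ) / x.1 - y.2 / y.1⌋), ← ex_add]
          congr 1; push_cast; ring
      _ = (∑ y ∈ S', 1 / t y + ∑ y ∈ S', 1 / (1 - t y)) / 2 := by
          rw [← sum_add_distrib, sum_div]
          exact sum_congr rfl fun y _ => by rw [mul_comm 2, mul_comm 2, ← div_div, ← div_div]; ring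
      _ ≤ _ := by linarith

/-- The variance quantity of a sequence modulo `p`. -/
noncomputable def Uv (I : Finset ℕ) (α : ℕ → ℝ) (p : ℕ) : ℝ :=
  (∑ h ∈ Ico 1 p, ‖∑ n ∈ I, α n * ex (n * (h / p))‖ ^ 2) / p + ((∑ n ∈ I, α n) / p) ^ 2

lemma Uv_nonneg (I : Finset ℕ) (α : ℕ → ℝ) (p : ℕ) : 0 ≤ Uv I α p := by unfold Uv; positivity

lemma var_le {p : ℕ} [NeZero p] (I : Finset ℕ) (α : ℕ → ℝ) :
    ∑ u : ZMod p, ((∑ n ∈ I, if (n : ZMod p) = u then α n else 0) - (∑ n ∈ I, α n) / p) ^ 2 ≤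
      (∑ h ∈ Ico 1 p, ‖∑ n ∈ I, α n * ex (n * (h / p))‖ ^ 2) / p := by
  set ψ := ZMod.stdAddChar (N := p)
  have hp : (0 : ℝ) < p := by exact_mod_cast NeZero.pos p
  have hpc : (p : ℂ) ≠ 0 := by exact_mod_cast NeZero.ne p
  set F : ZMod p → ℂ := fun h => ∑ n ∈ I, α n * ψ (h * (n : ZMod p)) with hF
  have h1 := dual_ls (univ : Finset (ZMod p)) (univ : Finset (ZMod p)) (fun u h => ψ (-(h * u)))
    (fun h => F h / p) (δ := fun h => if h = 0 then 0 else 1) (θ := fun _ => 1)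
    (fun h _ => by split_ifs <;> norm_num) (fun h _ => by split_ifs <;> norm_num) hp.le
    (fun u _ => by
      have : ∀ u' : ZMod p, ∑ h : ZMod p, ((1 : ℝ) : ℂ) * (ψ (-(h * u)) * (starRingEnd ℂ) (ψ (-(h * u')))) =
          if u' = u then (p : ℂ) else 0 := by
        intro u'
        have h2 := ind_eq u' u
        rw [show (if u' = u then (p : ℂ) else 0) = p * if u' = u then 1 else 0 by split_ifs <;> simp,
          h2, ← mul_assoc, mul_one_div_cancel hpc, one_mul]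
        refine sum_congr rfl fun h _ => ?_
        rw [← AddChar.map_neg_eq_conj, ← AddChar.map_add_eq_mul, Complex.ofReal_one, one_mul]
        congr 1; ring
      simp_rw [this]
      rw [sum_eq_single u (fun u' _ h => by simp [h]) (by simp)]; simp)
  refine le_trans (le_of_eq (sum_congr rfl fun u _ => ?_)) (h1.trans (le_of_eq ?_))
  · rw [← sq_abs, ← Real.norm_eq_abs, ← Complex.norm_real]
    congr 2
    have h2 : ((∑ n ∈ I, if (n : ZMod p) = u then α n else 0 : ℝ) : ℂ) =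
        ∑ h : ZMod p, F h / p * ψ (-(h * u)) := by
      simp only [hF, sum_div, sum_mul]
      rw [sum_comm, Complex.ofReal_sum]
      refine sum_congr rfl fun n _ => ?_
      rw [show ((if (n : ZMod p) = u then α n else 0 : ℝ) : ℂ) =
        α n * if (n : ZMod p) = u then 1 else 0 by split_ifs <;> simp, ind_eq, mul_sum, mul_sum]
      refine sum_congr rfl fun h _ => ?_
      rw [mul_sub, sub_eq_add_neg, AddChar.map_add_eq_mul]; ring
    rw [Complex.ofReal_sub, h2, ← add_sum_erase _ _ (mem_univ (0 : ZMod p)),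
      ← add_sum_erase _ _ (mem_univ (0 : ZMod p))]
    simp only [hF, zero_mul, neg_zero, AddChar.map_zero_eq_one, mul_one, if_true, Complex.ofReal_zero,
      zero_add]
    push_cast
    rw [add_sub_cancel_left]
    exact sum_congr rfl fun h hh => by rw [if_neg (ne_of_mem_erase hh)]; simp
  · set G : ℕ → ℝ := fun h => if h = 0 then 0 else ‖∑ n ∈ I, α n * ex (n * (h / p))‖ ^ 2 with hG
    have h2 : ∀ h : ZMod p, (if h = 0 then (0 : ℝ) else 1) * ‖F h / p‖ ^ 2 = G h.val / p ^ 2 := by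
      intro h
      simp only [hG, ZMod.val_eq_zero]
      split_ifs
      · simp
      · rw [one_mul, norm_div, div_pow, Complex.norm_natCast]
        congr 3
        refine sum_congr rfl fun n _ => ?_
        have : h * (n : ZMod p) = (((h.val * n : ℕ) : ℤ) : ZMod p) := by push_cast; simp
        rw [this, ZMod.stdAddChar_coe, ex]
        congr 2; push_cast; ring
    simp_rw [h2]
    rw [← sum_div, sum_zmod_val G, range_eq_Ico, sum_eq_sum_Ico_succ_bot (NeZero.pos p)]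
    simp only [hG, if_true, zero_add]
    rw [sum_congr rfl fun n hn => if_neg (by have := (mem_Ico.1 hn).1; omega)]
    field_simp

lemma bil_prime {p : ℕ} (hp : p.Prime) (I J : Finset ℕ) (α β : ℕ → ℝ) {c : ℕ} (hc : ¬ p ∣ c) :
    |∑ a ∈ I, ∑ b ∈ J, α a * β b * ((if a * b ≡ c [MOD p] then 1 else 0) - 1 / p)| ≤
      2 * (√(Uv I α p) * √(Uv J β p)) := by
  have := Fact.mk hp
  have hp0 : (0 : ℝ) < p := by exact_mod_cast hp.pos
  have hc' : (c : ZMod p) ≠ 0 := fun h => hc ((ZMod.natCast_eq_zero_iff c p).1 h)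
  set A := (∑ n ∈ I, α n) / p with hA
  set B := (∑ n ∈ J, β n) / p with hB
  set A' : ZMod p → ℝ := fun u => (∑ n ∈ I, if (n : ZMod p) = u then α n else 0) - A with hA'
  set B' : ZMod p → ℝ := fun u => (∑ n ∈ J, if (n : ZMod p) = u then β n else 0) - B with hB'
  have vA := var_le (p := p) I α
  have vB := var_le (p := p) J β
  have z : ∀ (K : Finset ℕ) (γ : ℕ → ℝ), ∑ u ∈ univ.erase (0 : ZMod p),
      ((∑ n ∈ K, if (n : ZMod p) = u then γ n else 0) - (∑ n ∈ K, γ n) / p) =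
      -((∑ n ∈ K, if (n : ZMod p) = 0 then γ n else 0) - (∑ n ∈ K, γ n) / p) := by
    intro K γ
    rw [eq_neg_iff_add_eq_zero, sum_erase_add _ _ (mem_univ _), sum_sub_distrib, sum_comm]
    simp only [sum_ite_eq, mem_univ, if_true, sum_const, card_univ, ZMod.card, nsmul_eq_mul]
    field_simp; ring
  have bij : ∀ F : ZMod p → ℝ, ∑ u ∈ univ.erase (0 : ZMod p), F (c / u) =
      ∑ u ∈ univ.erase (0 : ZMod p), F u := fun F => by
    refine sum_nbij' (fun u => c / u) (fun u => c / u) ?_ ?_ ?_ ?_ fun _ _ => rfl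
    · intro u hu; simp at hu ⊢; exact ⟨hc', hu⟩
    · intro u hu; simp at hu ⊢; exact ⟨hc', hu⟩
    · intro u hu; simp at hu; field_simp
    · intro u hu; simp at hu; field_simp
  have e1 : ∑ a ∈ I, ∑ b ∈ J, α a * β b * (if a * b ≡ c [MOD p] then 1 else 0) =
      ∑ u ∈ univ.erase (0 : ZMod p), (A + A' u) * (B + B' (c / u)) := by
    simp only [hA', hB', add_sub_cancel, sum_mul_sum]
    rw [sum_comm (s := univ.erase (0 : ZMod p))]
    refine sum_congr rfl fun a _ => ?_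
    rw [sum_comm (s := univ.erase (0 : ZMod p))]
    refine sum_congr rfl fun b _ => ?_
    simp_rw [ite_mul, zero_mul]
    rw [sum_ite_eq]
    simp only [← ZMod.natCast_eq_natCast_iff, Nat.cast_mul]
    by_cases ha : (a : ZMod p) = 0
    · simp [ha, hc'.symm]
    · have : (a : ZMod p) * b = c ↔ (b : ZMod p) = c / a := by rw [eq_div_iff ha, mul_comm]
      simp [ha, this]
  have e2 : ∑ a ∈ I, ∑ b ∈ J, α a * β b * ((if a * b ≡ c [MOD p] then 1 else 0) - 1 / p) =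
      ∑ u ∈ univ.erase (0 : ZMod p), A' u * B' (c / u) - A * B' 0 - B * A' 0 - A * B := by
    simp_rw [mul_sub, sum_sub_distrib]
    rw [e1]
    simp_rw [add_mul, mul_add, sum_add_distrib, ← mul_sum, ← sum_mul]
    rw [bij B', z J β, z I α, ← sum_mul_sum, sum_const, card_erase_of_mem (mem_univ _), card_univ,
      ZMod.card, nsmul_eq_mul, Nat.cast_sub hp.one_le]
    simp only [hA', hB', hA, hB]
    field_simp; ring
  set VA := ∑ u : ZMod p, A' u ^ 2
  set VB := ∑ u : ZMod p, B' u ^ 2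
  have a0 : |A' 0| ≤ √VA := Real.abs_le_sqrt (single_le_sum (f := fun u => A' u ^ 2)
    (fun _ _ => sq_nonneg _) (mem_univ _))
  have b0 : |B' 0| ≤ √VB := Real.abs_le_sqrt (single_le_sum (f := fun u => B' u ^ 2)
    (fun _ _ => sq_nonneg _) (mem_univ _))
  have hVA : 0 ≤ VA := sum_nonneg fun _ _ => sq_nonneg _
  have hVB : 0 ≤ VB := sum_nonneg fun _ _ => sq_nonneg _
  have c0 : |∑ u ∈ univ.erase (0 : ZMod p), A' u * B' (c / u)| ≤ √VA * √VB := by
    rw [← Real.sqrt_mul hVA]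
    refine Real.abs_le_sqrt ((sum_mul_sq_le_sq_mul_sq _ _ _).trans ?_)
    rw [bij (fun u => B' u ^ 2)]
    exact mul_le_mul (sum_le_sum_of_subset_of_nonneg (erase_subset _ _) fun _ _ _ => sq_nonneg _)
      (sum_le_sum_of_subset_of_nonneg (erase_subset _ _) fun _ _ _ => sq_nonneg _)
      (sum_nonneg fun _ _ => sq_nonneg _) hVA
  have key : ∀ {V x U : ℝ}, 0 ≤ V → V + x ^ 2 ≤ U → √V + |x| ≤ √2 * √U := by
    intro V x U hV h
    rw [← Real.sqrt_mul (by norm_num)]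
    refine Real.le_sqrt_of_sq_le ?_
    have := Real.sq_sqrt hV
    nlinarith [sq_nonneg (√V - |x|), sq_abs x]
  have d1 := key (x := A) (U := Uv I α p) hVA (by unfold Uv; linarith)
  have d2 := key (x := B) (U := Uv J β p) hVB (by unfold Uv; linarith)
  rw [e2]
  calc _ ≤ √VA * √VB + |A| * √VB + |B| * √VA + |A| * |B| := by
        refine (abs_sub _ _).trans (add_le_add ((abs_sub _ _).trans (add_le_add
          ((abs_sub _ _).trans (add_le_add c0 ?_)) ?_)) (abs_mul _ _).le) <;> rw [abs_mul] <;> gcongr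
    _ = (√VA + |A|) * (√VB + |B|) := by ring
    _ ≤ (√2 * √(Uv I α p)) * (√2 * √(Uv J β p)) := by gcongr
    _ = _ := by rw [mul_mul_mul_comm, Real.mul_self_sqrt (by norm_num)]

lemma sum_Uv_le {P : ℕ} (hP : 0 < P) {S : Finset ℕ} (hS : S ⊆ PP P (2 * P)) {α : ℕ → ℝ} {M : ℝ}
    (hα : ∀ n, |α n| ≤ M) (A0 A : ℕ) :
    ∑ p ∈ S, Uv (Ico A0 (A0 + A)) α p ≤ 2 * (LSc P A * A) * M ^ 2 / P := by
  have hP' : (0 : ℝ) < P := by exact_mod_cast hP
  have hM : 0 ≤ M := (abs_nonneg _).trans (hα 0)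
  have h1 : ∑ n ∈ Ico A0 (A0 + A), α n ^ 2 ≤ A * M ^ 2 := by
    refine (sum_le_card_nsmul _ _ (M ^ 2) fun n _ => ?_).trans (by simp)
    rw [← sq_abs]; gcongr; exact hα n
  have h2 : |∑ n ∈ Ico A0 (A0 + A), α n| ≤ A * M :=
    (abs_sum_le_sum_abs _ _).trans ((sum_le_card_nsmul _ _ M fun n _ => hα n).trans (by simp))
  have h3 := add_ls hP hS α A0 A
  have h4 : (S.card : ℝ) ≤ P := by
    have : S.card ≤ (Ioc P (2 * P)).card := card_le_card (hS.trans (filter_subset _ _))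
    rw [Nat.card_Ioc] at this
    exact_mod_cast (by omega : S.card ≤ P)
  have hL := LSc_nonneg P A
  unfold Uv
  rw [sum_add_distrib]
  calc _ ≤ ∑ p ∈ S, (∑ h ∈ Ico 1 p, ‖∑ n ∈ Ico A0 (A0 + A), α n * ex (n * (h / p))‖ ^ 2) / P +
        ∑ p ∈ S, (A * M / P) ^ 2 := by
        refine add_le_add (sum_le_sum fun p hp => by gcongr; exact (mem_PP.1 (hS hp)).1.le)
          (sum_le_sum fun p hp => ?_)
        rw [← sq_abs, abs_div, Nat.abs_cast]
        gcongr
        exact (mem_PP.1 (hS hp)).1.le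
    _ ≤ LSc P A * (A * M ^ 2) / P + P * (A * M / P) ^ 2 := by
        rw [← sum_div, sum_const, nsmul_eq_mul]
        gcongr
        exact h3.trans (by gcongr)
    _ = (LSc P A * A + A * A) * M ^ 2 / P := by field_simp
    _ ≤ _ := by gcongr; nlinarith [le_LSc P A, (Nat.cast_nonneg A : (0 : ℝ) ≤ A)]

theorem bilinear {P q : ℕ} (hP : 0 < P) (hq : 0 < q) {S : Finset ℕ} (hS : S ⊆ PP P (2 * P))
    {α β Φ : ℕ → ℝ} {M : ℝ} (hα : ∀ n, |α n| ≤ 1) (hβ : ∀ n, |β n| ≤ M) (hΦ : ∀ n, |Φ n| ≤ 1)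
    (hΦp : ∀ m n, m ≡ n [MOD q] → Φ m = Φ n) {c : ℕ → ℕ} (hc : ∀ p ∈ S, ¬ p ∣ c p) (A0 A B0 B : ℕ) :
    ∑ p ∈ S, |∑ a ∈ Ico A0 (A0 + A), ∑ b ∈ Ico B0 (B0 + B), α a * β b * Φ (a * b) *
      ((if a * b ≡ c p [MOD p] then 1 else 0) - 1 / p)| ≤
      q * (4 * M / P * √(LSc P A * A * (LSc P B * B))) := by
  have hP' : (0 : ℝ) < P := by exact_mod_cast hP
  have hM : 0 ≤ M := (abs_nonneg _).trans (hβ 0)
  have e : ∀ p, ∑ a ∈ Ico A0 (A0 + A), ∑ b ∈ Ico B0 (B0 + B), α a * β b * Φ (a * b) *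
      ((if a * b ≡ c p [MOD p] then 1 else 0) - 1 / p) =
      ∑ s ∈ range q, ∑ a ∈ Ico A0 (A0 + A), ∑ b ∈ Ico B0 (B0 + B),
        (if a % q = s then α a else 0) * (β b * Φ (s * b)) *
        ((if a * b ≡ c p [MOD p] then 1 else 0) - 1 / p) := by
    intro p
    rw [sum_comm (s := range q)]
    refine sum_congr rfl fun a _ => ?_
    rw [sum_eq_single_of_mem (a % q) (mem_range.2 (Nat.mod_lt _ hq))]
    · refine sum_congr rfl fun b _ => ?_
      rw [if_pos rfl, hΦp (a % q * b) (a * b) ((Nat.mod_modEq a q).mul_right b)]; ring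
    · intro s _ hs; simp [hs.symm]
  simp_rw [e]
  refine (sum_le_sum fun p _ => abs_sum_le_sum_abs _ _).trans ?_
  rw [sum_comm]
  refine (sum_le_card_nsmul _ _ _ fun s _ => ?_).trans (by rw [card_range, nsmul_eq_mul])
  refine (sum_le_sum fun p hp => bil_prime (PP_prime (hS hp)) _ _ _ _ (hc p hp)).trans ?_
  have u1 := sum_Uv_le hP hS (α := fun a => if a % q = s then α a else 0) (M := 1)
    (fun n => by split_ifs; exacts [hα n, by simp]) A0 A
  have u2 := sum_Uv_le hP hS (α := fun b => β b * Φ (s * b)) (M := M)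
    (fun n => by rw [abs_mul]; exact (mul_le_of_le_one_right (abs_nonneg _) (hΦ _)).trans (hβ n)) B0 B
  rw [← mul_sum]
  have hA := mul_nonneg (LSc_nonneg P A) (Nat.cast_nonneg A : (0 : ℝ) ≤ A)
  have hB := mul_nonneg (LSc_nonneg P B) (Nat.cast_nonneg B : (0 : ℝ) ≤ B)
  have u3 := Real.sum_sqrt_mul_sqrt_le S
    (fun p => Uv_nonneg (Ico A0 (A0 + A)) (fun a => if a % q = s then α a else 0) p)
    (fun p => Uv_nonneg (Ico B0 (B0 + B)) (fun b => β b * Φ (s * b)) p)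
  calc _ ≤ 2 * (√(2 * (LSc P A * A) * 1 ^ 2 / P) * √(2 * (LSc P B * B) * M ^ 2 / P)) := by
        gcongr; exact u3.trans (by gcongr)
    _ = 2 * √((2 * M / P) ^ 2 * (LSc P A * A * (LSc P B * B))) := by
        rw [← Real.sqrt_mul (by positivity)]; congr 2; field_simp
    _ = _ := by rw [Real.sqrt_mul (by positivity), Real.sqrt_sq (by positivity)]; ring

end Pool.Agent.P.MP_746f10_nt
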