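import Mathlib
import Pool.Agent.P.MP_746f10_nt.Basic

/-! Multidimensional Selberg weights indexed by finite sets of atoms. -/

set_option linter.unusedSectionVars false

namespace Pool.Agent.P.MP_746f10_nt

open Finset

section general

variable {ι : Type*} [DecidableEq ι]

lemma sum_powerset_union {M : Type*} [AddCommMonoid M] {A B : Finset ι} (h : Disjoint A B)
    (f : Finset ι → M) :
    ∑ S ∈ (A ∪ B).powerset, f S = ∑ S ∈ A.powerset, ∑ T ∈ B.powerset, f (S ∪ T) := by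
  induction B using Finset.induction_on generalizing f with
  | empty => simp
  | insert b B hb ih =>
    have h1 : Disjoint A B := h.mono_right (subset_insert _ _)
    have h2 : b ∉ A ∪ B := by
      rw [mem_union, not_or]
      exact ⟨fun hA => disjoint_left.1 h hA (mem_insert_self _ _), hb⟩
    rw [union_insert, sum_powerset_insert h2, ih h1, ih h1, ← sum_add_distrib]
    refine sum_congr rfl fun S _ => ?_
    rw [sum_powerset_insert hb]
    simp only [union_insert]

lemma sum3 (A : Finset ι) (x : ι → ℝ) :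
    ∑ S ∈ A.powerset, ∑ T ∈ A.powerset, ∏ a ∈ S ∪ T, x a = ∏ a ∈ A, (1 + 3 * x a) := by
  induction A using Finset.induction_on with
  | empty => simp
  | insert b A hb ih =>
    rw [prod_insert hb, ← ih, sum_powerset_insert hb, ← sum_add_distrib, mul_sum]
    refine sum_congr rfl fun S hS => ?_
    rw [sum_powerset_insert hb, sum_powerset_insert hb, ← sum_add_distrib, ← sum_add_distrib,
      ← sum_add_distrib, mul_sum]
    refine sum_congr rfl fun T hT => ?_
    have : b ∉ S ∪ T := by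
      rw [mem_union, not_or]
      exact ⟨fun h => hb (mem_powerset.1 hS h), fun h => hb (mem_powerset.1 hT h)⟩
    rw [union_insert, insert_union, insert_union, union_insert, insert_idem, prod_insert this]
    ring

variable (π : ι → ℕ)

/-- Product of the sizes. -/
def dd (S : Finset ι) : ℕ := ∏ a ∈ S, π a

/-- Inverse totient of a set of atoms. -/
noncomputable def ph (S : Finset ι) : ℝ := ∏ a ∈ S, ((π a : ℝ) - 1)⁻¹

/-- The sieve weight function. -/
noncomputable def FF (A : Finset ι) (y : Finset ι → ℝ) (B : ι → ℝ) : ℝ :=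
  ∑ S ∈ A.powerset, y S * ∏ a ∈ S, (1 - π a * B a) / (π a - 1)

/-- The coefficients of the weight function. -/
noncomputable def lam (A : Finset ι) (y : Finset ι → ℝ) (S : Finset ι) : ℝ :=
  ∑ U ∈ A.powerset, if S ⊆ U then y U * ph π U * ∏ a ∈ S, (-(π a : ℝ)) else 0

/-- The basic size factor. -/
noncomputable def TT (A : Finset ι) : ℝ := ∏ a ∈ A, (1 - 1 / (π a : ℝ))⁻¹

/-- The diagonal form. -/
noncomputable def diag (A : Finset ι) (y : Finset ι → ℝ) : ℝ :=
  ∑ U ∈ A.powerset, y U ^ 2 * ph π U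

/-- Collapsing the atoms in `A`. -/
noncomputable def col (A : Finset ι) (y : Finset ι → ℝ) (S : Finset ι) : ℝ :=
  ∑ T ∈ A.powerset, y (S ∪ T) * ph π T

variable {π}

lemma ph_nonneg {S : Finset ι} (hπ : ∀ a ∈ S, 2 ≤ π a) : 0 ≤ ph π S :=
  prod_nonneg fun a ha => by
    have : (2 : ℝ) ≤ π a := by exact_mod_cast hπ a ha
    have : (0 : ℝ) < π a - 1 := by linarith
    positivity

lemma TT_eq {A : Finset ι} (hπ : ∀ a ∈ A, 2 ≤ π a) :
    TT π A = ∑ U ∈ A.powerset, ph π U := by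
  unfold TT ph
  rw [← prod_one_add]
  refine prod_congr rfl fun a ha => ?_
  have : (2 : ℝ) ≤ π a := by exact_mod_cast hπ a ha
  have h3 : (π a : ℝ) - 1 ≠ 0 := by linarith
  field_simp; ring

lemma one_le_TT {A : Finset ι} (hπ : ∀ a ∈ A, 2 ≤ π a) : 1 ≤ TT π A := by
  refine one_le_prod_real fun a ha => ?_
  have h2 : (2 : ℝ) ≤ π a := by exact_mod_cast hπ a ha
  have h := one_sub_inv_pos h2
  rw [one_le_inv₀ h]
  have : (0 : ℝ) ≤ 1 / π a := by positivity
  linarith

lemma prod_one_add_le_TT {A : Finset ι} (hπ : ∀ a ∈ A, 2 ≤ π a) (c : ℕ) {x : ι → ℝ}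
    (hx : ∀ a ∈ A, 0 ≤ x a ∧ x a ≤ c / π a) : ∏ a ∈ A, (1 + x a) ≤ TT π A ^ c := by
  unfold TT
  rw [← prod_pow]
  refine prod_le_prod (fun p hp => by linarith [(hx p hp).1]) fun p hp => ?_
  have h2 : (2 : ℝ) ≤ π p := by exact_mod_cast hπ p hp
  have h3 : 1 + 1 / (π p : ℝ) ≤ (1 - 1 / (π p : ℝ))⁻¹ := by
    rw [← one_div, le_div_iff₀ (one_sub_inv_pos h2)]
    have : 0 ≤ 1 / (π p : ℝ) * (1 / π p) := by positivity
    nlinarith
  calc 1 + x p ≤ 1 + c * (1 / (π p : ℝ)) := by rw [mul_one_div]; linarith [(hx p hp).2]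
    _ ≤ (1 + 1 / (π p : ℝ)) ^ c := one_add_mul_le_pow (by
        have : (0 : ℝ) ≤ 1 / π p := by positivity
        linarith) c
    _ ≤ _ := by gcongr

lemma FF_eq (A : Finset ι) (y : Finset ι → ℝ) (B : ι → ℝ) :
    FF π A y B = ∑ S ∈ A.powerset, lam π A y S * ∏ a ∈ S, B a := by
  unfold FF lam
  simp_rw [sum_mul]
  rw [sum_comm]
  refine sum_congr rfl fun U hU => ?_
  have h1 : ∏ a ∈ U, (1 - π a * B a) / ((π a : ℝ) - 1) =
      ph π U * ∑ S ∈ U.powerset, ∏ a ∈ S, (-(π a : ℝ) * B a) := by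
    rw [← prod_one_add, ph, ← prod_mul_distrib]
    refine prod_congr rfl fun a _ => ?_
    rw [div_eq_mul_inv]; ring
  rw [h1, mul_sum, mul_sum]
  simp_rw [ite_mul, zero_mul]
  rw [← sum_filter]
  refine sum_congr ?_ fun S _ => by rw [prod_mul_distrib]; ring
  ext S
  simp only [mem_powerset, mem_filter]
  exact ⟨fun h => ⟨h.trans (mem_powerset.1 hU), h⟩, fun h => h.2⟩

lemma abs_lam_le {A : Finset ι} (hπ : ∀ a ∈ A, 2 ≤ π a) {y : Finset ι → ℝ} {Y : ℝ}
    (hy : ∀ U ⊆ A, |y U| ≤ Y) {S : Finset ι} (hS : S ⊆ A) : |lam π A y S| ≤ Y * TT π A := by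
  have hY : 0 ≤ Y := (abs_nonneg _).trans (hy ∅ (empty_subset _))
  have hdisj : Disjoint S (A \ S) := disjoint_sdiff
  have hA : A = S ∪ A \ S := (union_sdiff_of_subset hS).symm
  unfold lam
  refine (abs_sum_le_sum_abs _ _).trans ?_
  have h1 : ∀ U ∈ A.powerset, |if S ⊆ U then y U * ph π U * ∏ a ∈ S, (-(π a : ℝ)) else 0| ≤
      if S ⊆ U then Y * (ph π U * ∏ a ∈ S, (π a : ℝ)) else 0 := by
    intro U hU
    split_ifs
    · rw [abs_mul, abs_mul, abs_of_nonneg (ph_nonneg fun a ha => hπ a (mem_powerset.1 hU ha)),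
        abs_prod, mul_assoc]
      simp only [abs_neg, Nat.abs_cast]
      refine mul_le_mul_of_nonneg_right (hy U (mem_powerset.1 hU)) ?_
      exact mul_nonneg (ph_nonneg fun a ha => hπ a (mem_powerset.1 hU ha)) (by positivity)
    · simp
  refine (sum_le_sum h1).trans (le_of_eq ?_)
  have h2 : TT π A = (ph π S * ∏ a ∈ S, (π a : ℝ)) * TT π (A \ S) := by
    conv_lhs => rw [hA]
    unfold TT ph
    rw [prod_union hdisj, ← prod_mul_distrib]
    congr 1
    refine prod_congr rfl fun a ha => ?_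
    have : (2 : ℝ) ≤ π a := by exact_mod_cast hπ a (hS ha)
    have h3 : (π a : ℝ) - 1 ≠ 0 := by linarith
    field_simp
  rw [h2, TT_eq fun a ha => hπ a (sdiff_subset ha)]
  conv_lhs => rw [hA]
  rw [sum_powerset_union hdisj, sum_eq_single S]
  · rw [mul_sum, mul_sum]
    refine sum_congr rfl fun T hT => ?_
    rw [if_pos subset_union_left]
    unfold ph
    rw [prod_union (hdisj.mono_right (mem_powerset.1 hT))]
    ring
  · intro S' hS' hne
    refine sum_eq_zero fun T hT => if_neg fun h => hne ?_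
    refine Subset.antisymm (mem_powerset.1 hS') fun a ha => ?_
    rcases mem_union.1 (h ha) with h1 | h1
    · exact h1
    · exact absurd ha (mem_sdiff.1 (mem_powerset.1 hT h1)).2
  · intro h; exact absurd (mem_powerset.2 Subset.rfl) h

lemma dd_pos {S : Finset ι} (hπ : ∀ a ∈ S, 2 ≤ π a) : 0 < dd π S :=
  prod_pos fun a ha => by have := hπ a ha; omega

lemma dd_mono {S U : Finset ι} (hπ : ∀ a ∈ U, 2 ≤ π a) (h : S ⊆ U) : dd π S ≤ dd π U :=
  Nat.le_of_dvd (dd_pos hπ) (prod_dvd_prod_of_subset _ _ _ h)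

lemma dd_union_le {S : Finset ι} (T : Finset ι) (hS : ∀ a ∈ S, 2 ≤ π a) :
    dd π (S ∪ T) ≤ dd π S * dd π T := by
  have h := prod_union_inter (s₁ := S) (s₂ := T) (f := π)
  have h2 : 0 < dd π (S ∩ T) := dd_pos fun a ha => hS a (mem_inter.1 ha).1
  unfold dd at *
  rw [← h]
  exact Nat.le_mul_of_pos_right _ h2

lemma lam_supp {A : Finset ι} (hπ : ∀ a ∈ A, 2 ≤ π a) {y : Finset ι → ℝ} {Z : ℕ}
    (hy : ∀ U ⊆ A, y U ≠ 0 → dd π U ≤ Z) {S : Finset ι} (h : lam π A y S ≠ 0) : dd π S ≤ Z := by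
  obtain ⟨U, hU, h1⟩ := exists_ne_zero_of_sum_ne_zero h
  by_cases h2 : S ⊆ U
  · rw [if_pos h2] at h1
    have h3 : y U ≠ 0 := fun h => h1 (by simp [h])
    exact (dd_mono (fun a ha => hπ a (mem_powerset.1 hU ha)) h2).trans (hy U (mem_powerset.1 hU) h3)
  · exact absurd (if_neg h2) h1

lemma prod_mul_prod_idem {B : ι → ℝ} (hB : ∀ a, B a = 0 ∨ B a = 1) (S T : Finset ι) :
    (∏ a ∈ S, B a) * ∏ a ∈ T, B a = ∏ a ∈ S ∪ T, B a := by
  rw [← prod_union_inter]
  by_cases h : ∀ a ∈ S ∩ T, B a = 1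
  · rw [prod_eq_one h, mul_one]
  · push Not at h
    obtain ⟨a, ha, h1⟩ := h
    have : ∏ a ∈ S ∪ T, B a = 0 :=
      prod_eq_zero (mem_union_left _ (mem_inter.1 ha).1) ((hB a).resolve_right h1)
    rw [this, zero_mul]

lemma FF_sq (A : Finset ι) (y : Finset ι → ℝ) {B : ι → ℝ} (hB : ∀ a, B a = 0 ∨ B a = 1) :
    FF π A y B ^ 2 = ∑ S ∈ A.powerset, ∑ T ∈ A.powerset,
      lam π A y S * lam π A y T * ∏ a ∈ S ∪ T, B a := by
  rw [FF_eq, sq, sum_mul_sum]
  refine sum_congr rfl fun S _ => sum_congr rfl fun T _ => ?_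
  rw [← prod_mul_prod_idem hB]; ring

lemma model_prod (A : Finset ι) (q : ι → ℝ) (h : ι → ℝ → ℝ) :
    ∑ W ∈ A.powerset, ((∏ a ∈ W, q a) * ∏ a ∈ A \ W, (1 - q a)) *
      ∏ a ∈ A, h a (if a ∈ W then 1 else 0) =
      ∏ a ∈ A, (q a * h a 1 + (1 - q a) * h a 0) := by
  rw [prod_add]
  refine sum_congr rfl fun W hW => ?_
  rw [← prod_sdiff (mem_powerset.1 hW) (f := fun a => h a (if a ∈ W then 1 else 0)),
    prod_mul_distrib, prod_mul_distrib]
  have h1 : ∏ a ∈ W, h a (if a ∈ W then 1 else 0) = ∏ a ∈ W, h a 1 :=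
    prod_congr rfl fun a ha => by simp [ha]
  have h2 : ∏ a ∈ A \ W, h a (if a ∈ W then 1 else 0) = ∏ a ∈ A \ W, h a 0 :=
    prod_congr rfl fun a ha => by simp [(mem_sdiff.1 ha).2]
  rw [h1, h2]; ring

lemma diag_eq {A : Finset ι} (hπ : ∀ a ∈ A, 2 ≤ π a) (y : Finset ι → ℝ) :
    ∑ S ∈ A.powerset, ∑ T ∈ A.powerset, lam π A y S * lam π A y T * (1 / dd π (S ∪ T)) =
      diag π A y := by
  set q : ι → ℝ := fun a => 1 / π a with hq
  set ρ : Finset ι → ℝ := fun W => (∏ a ∈ W, q a) * ∏ a ∈ A \ W, (1 - q a) with hρ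
  set B : Finset ι → ι → ℝ := fun W a => if a ∈ W then 1 else 0 with hB
  have hB01 : ∀ W a, B W a = 0 ∨ B W a = 1 := by
    intro W a; simp only [hB]; split_ifs <;> simp
  have h1 : ∀ S ⊆ A, ∑ W ∈ A.powerset, ρ W * ∏ a ∈ S, B W a = 1 / dd π S := by
    intro S hS
    have := model_prod A q (fun a t => if a ∈ S then t else 1)
    simp only [prod_ite_mem, inter_eq_right.2 hS] at this
    refine this.trans ?_
    have : ∀ a ∈ A, (q a * (if a ∈ S then (1 : ℝ) else 1) +
        (1 - q a) * (if a ∈ S then 0 else 1)) = if a ∈ S then q a else 1 := by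
      intro a _; split_ifs <;> simp
    rw [prod_congr rfl this, prod_ite_mem, inter_eq_right.2 hS, dd]
    simp [hq]
  have h2 : ∀ U ⊆ A, ∀ V ⊆ A, ∑ W ∈ A.powerset, ρ W *
      ((∏ a ∈ U, (1 - π a * B W a) / ((π a : ℝ) - 1)) *
        ∏ a ∈ V, (1 - π a * B W a) / ((π a : ℝ) - 1)) = if U = V then ph π U else 0 := by
    intro U hU V hV
    have := model_prod A q (fun a t =>
      (if a ∈ U then (1 - π a * t) / ((π a : ℝ) - 1) else 1) *
      (if a ∈ V then (1 - π a * t) / ((π a : ℝ) - 1) else 1))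
    simp only [prod_mul_distrib, prod_ite_mem, inter_eq_right.2 hU, inter_eq_right.2 hV] at this
    refine this.trans ?_
    by_cases hUV : U = V
    · subst hUV
      rw [if_pos rfl, ph, ← inter_eq_right.2 hU, ← prod_ite_mem, inter_eq_right.2 hU]
      refine prod_congr rfl fun a ha => ?_
      have : (2 : ℝ) ≤ π a := by exact_mod_cast hπ a ha
      have h3 : (π a : ℝ) - 1 ≠ 0 := by linarith
      have h4 : (π a : ℝ) ≠ 0 := by linarith
      by_cases h : a ∈ U <;> simp only [h, if_true, if_false, hq] <;> field_simp <;> ring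
    · rw [if_neg hUV]
      have : ∃ a, ¬ (a ∈ U ↔ a ∈ V) := by
        by_contra h; exact hUV (Finset.ext fun a => by_contra fun h' => h ⟨a, h'⟩)
      obtain ⟨a, ha⟩ := this
      have haA : a ∈ A := by
        by_contra h; exact ha ⟨fun h1 => absurd (hU h1) h, fun h1 => absurd (hV h1) h⟩
      refine prod_eq_zero haA ?_
      have : (2 : ℝ) ≤ π a := by exact_mod_cast hπ a haA
      have h3 : (π a : ℝ) - 1 ≠ 0 := by linarith
      have h4 : (π a : ℝ) ≠ 0 := by linarith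
      by_cases h : a ∈ U <;> by_cases h' : a ∈ V <;> simp only [h, h', if_true, if_false, hq]
      · exact absurd ⟨fun _ => h', fun _ => h⟩ ha
      · field_simp; ring
      · field_simp; ring
      · exact absurd ⟨fun h1 => absurd h1 h, fun h1 => absurd h1 h'⟩ ha
  have h3 : ∑ W ∈ A.powerset, ρ W * FF π A y (B W) ^ 2 = ∑ S ∈ A.powerset, ∑ T ∈ A.powerset,
      lam π A y S * lam π A y T * (1 / dd π (S ∪ T)) := by
    simp_rw [fun W => FF_sq (π := π) A y (hB01 W), mul_sum]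
    rw [sum_comm]
    refine sum_congr rfl fun S hS => ?_
    rw [sum_comm]
    refine sum_congr rfl fun T hT => ?_
    rw [← h1 _ (union_subset (mem_powerset.1 hS) (mem_powerset.1 hT)), mul_sum]
    exact sum_congr rfl fun W _ => by ring
  rw [← h3]
  unfold FF diag
  simp_rw [sq, sum_mul_sum, mul_sum]
  rw [sum_comm]
  refine sum_congr rfl fun U hU => ?_
  rw [sum_comm]
  have h4 : ∀ V ∈ A.powerset, ∑ W ∈ A.powerset, ρ W *
      ((y U * ∏ a ∈ U, (1 - π a * B W a) / ((π a : ℝ) - 1)) *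
        (y V * ∏ a ∈ V, (1 - π a * B W a) / ((π a : ℝ) - 1))) =
      y U * y V * if U = V then ph π U else 0 := by
    intro V hV
    rw [← h2 U (mem_powerset.1 hU) V (mem_powerset.1 hV), mul_sum]
    exact sum_congr rfl fun W _ => by ring
  rw [sum_congr rfl h4]
  simp [hU]

lemma diag_nonneg {A : Finset ι} (hπ : ∀ a ∈ A, 2 ≤ π a) (y : Finset ι → ℝ) : 0 ≤ diag π A y :=
  sum_nonneg fun _ hU => mul_nonneg (sq_nonneg _) (ph_nonneg fun a ha => hπ a (mem_powerset.1 hU ha))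

lemma sq_le_diag {A : Finset ι} (hπ : ∀ a ∈ A, 2 ≤ π a) (y : Finset ι → ℝ) :
    y ∅ ^ 2 ≤ diag π A y := by
  have := single_le_sum (f := fun U => y U ^ 2 * ph π U) (s := A.powerset)
    (fun U hU => mul_nonneg (sq_nonneg _) (ph_nonneg fun a ha => hπ a (mem_powerset.1 hU ha)))
    (empty_mem_powerset A)
  simpa [ph, diag] using this

lemma one_div_dd (S : Finset ι) : (1 : ℝ) / dd π S = ∏ a ∈ S, 1 / (π a : ℝ) := by
  simp [dd]

lemma card_dd_le {A : Finset ι} (hπ : ∀ a ∈ A, 2 ≤ π a) (Z : ℕ) :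
    ∑ S ∈ A.powerset, (if dd π S ≤ Z then (1 : ℝ) else 0) ≤ Z * TT π A := by
  calc _ ≤ ∑ S ∈ A.powerset, (Z : ℝ) * ∏ a ∈ S, 1 / (π a : ℝ) := by
        refine sum_le_sum fun S hS => ?_
        have : (0 : ℝ) < dd π S := by exact_mod_cast dd_pos fun a ha => hπ a (mem_powerset.1 hS ha)
        rw [← one_div_dd]
        split_ifs with h
        · rw [mul_one_div, le_div_iff₀ this, one_mul]; exact_mod_cast h
        · positivity
    _ = Z * ∏ a ∈ A, (1 + 1 / (π a : ℝ)) := by rw [← mul_sum, prod_one_add]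
    _ ≤ _ := by
        gcongr
        simpa using prod_one_add_le_TT hπ 1 (x := fun a => 1 / (π a : ℝ))
          fun a _ => ⟨by positivity, by simp⟩

lemma sum3_forced {A : Finset ι} (hπ : ∀ a ∈ A, 2 ≤ π a) {E : Finset ι} (hE : E ⊆ A) :
    ∑ S ∈ A.powerset, ∑ T ∈ A.powerset, (if E ⊆ S ∪ T then (1 : ℝ) / dd π (S ∪ T) else 0) ≤
      (∏ a ∈ E, 4 / (π a : ℝ)) * TT π A ^ 3 := by
  set x : ι → ℝ := fun a => if a ∈ E then 1 else 1 / π a with hx
  have hx0 : ∀ a, 0 ≤ x a := fun a => by simp only [hx]; split_ifs <;> positivity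
  calc _ ≤ ∑ S ∈ A.powerset, ∑ T ∈ A.powerset, (∏ a ∈ E, 1 / (π a : ℝ)) * ∏ a ∈ S ∪ T, x a := by
        refine sum_le_sum fun S _ => sum_le_sum fun T _ => ?_
        split_ifs with h
        · rw [one_div_dd, ← prod_sdiff h, ← prod_sdiff h (f := x), prod_eq_one (s := E) (f := x)
            fun a ha => by simp [hx, ha], mul_one, mul_comm]
          refine le_of_eq (congrArg _ (prod_congr rfl fun a ha => ?_))
          simp [hx, (mem_sdiff.1 ha).2]
        · exact mul_nonneg (by positivity) (prod_nonneg fun a _ => hx0 a)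
    _ = (∏ a ∈ E, 1 / (π a : ℝ)) * ∏ a ∈ A, (1 + 3 * x a) := by
        simp_rw [← mul_sum]; rw [sum3]
    _ ≤ (∏ a ∈ E, 1 / (π a : ℝ)) * ((∏ _a ∈ E, (4 : ℝ)) * TT π A ^ 3) := by
        gcongr
        rw [← prod_sdiff hE, mul_comm]
        refine mul_le_mul (le_of_eq (prod_congr rfl fun a ha => by simp [hx, ha]; norm_num)) ?_
          (prod_nonneg fun a _ => by linarith [hx0 a]) (by positivity)
        refine le_trans ?_ (prod_one_add_le_TT hπ 3 (x := fun a => 3 / (π a : ℝ))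
          fun a _ => ⟨by positivity, by simp⟩)
        rw [← prod_sdiff hE]
        refine le_trans (le_of_eq (prod_congr rfl fun a ha => ?_)) (le_mul_of_one_le_right
          (by positivity) (one_le_prod_real fun a _ => by
            have : (0 : ℝ) ≤ 3 / π a := by positivity
            linarith))
        simp [hx, (mem_sdiff.1 ha).2, div_eq_mul_inv]
    _ = _ := by
        rw [← mul_assoc, ← prod_mul_distrib]
        congr 1
        exact prod_congr rfl fun a _ => by ring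

/-- The quadratic form evaluated with an error term. -/
theorem quad_err {A : Finset ι} (hπ : ∀ a ∈ A, 2 ≤ π a) {y : Finset ι → ℝ} {Y : ℝ} {Z : ℕ}
    (hy : ∀ U ⊆ A, |y U| ≤ Y) (hyZ : ∀ U ⊆ A, y U ≠ 0 → dd π U ≤ Z)
    (G : Finset ι → ℝ) (bad : Finset ι → Prop) [DecidablePred bad] {M ε E β : ℝ}
    (hM : 0 ≤ M) (hε : 0 ≤ ε) (hE : 0 ≤ E)
    (hβ : ∑ S ∈ A.powerset, ∑ T ∈ A.powerset,
      (if bad (S ∪ T) then (1 : ℝ) / dd π (S ∪ T) else 0) ≤ β * TT π A ^ 3)
    (hG : ∀ W ⊆ A, dd π W ≤ Z ^ 2 →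
      |G W - M / dd π W| ≤ M / dd π W * (ε + if bad W then 1 else 0) + E) :
    |∑ S ∈ A.powerset, ∑ T ∈ A.powerset, lam π A y S * lam π A y T * G (S ∪ T) -
      M * diag π A y| ≤ Y ^ 2 * TT π A ^ 5 * (M * (ε + β) + E * Z ^ 2) := by
  have hY : 0 ≤ Y := (abs_nonneg _).trans (hy ∅ (empty_subset _))
  have hT := one_le_TT hπ
  rw [← diag_eq hπ, mul_sum, ← sum_sub_distrib]
  simp_rw [mul_sum, ← sum_sub_distrib]
  have key : ∀ S ∈ A.powerset, ∀ T ∈ A.powerset,
      |lam π A y S * lam π A y T * G (S ∪ T) -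
        M * (lam π A y S * lam π A y T * (1 / dd π (S ∪ T)))| ≤
      (Y * TT π A) ^ 2 * (M * ε * ∏ a ∈ S ∪ T, 1 / (π a : ℝ) +
        M * (if bad (S ∪ T) then (1 : ℝ) / dd π (S ∪ T) else 0) +
        E * ((if dd π S ≤ Z then (1 : ℝ) else 0) * if dd π T ≤ Z then (1 : ℝ) else 0)) := by
    intro S hS T hT'
    have hS' := mem_powerset.1 hS
    have hT'' := mem_powerset.1 hT'
    have hnn : 0 ≤ M * ε * ∏ a ∈ S ∪ T, 1 / (π a : ℝ) +
        M * (if bad (S ∪ T) then (1 : ℝ) / dd π (S ∪ T) else 0) +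
        E * ((if dd π S ≤ Z then (1 : ℝ) else 0) * if dd π T ≤ Z then (1 : ℝ) else 0) := by
      split_ifs <;> positivity
    by_cases h0 : lam π A y S = 0 ∨ lam π A y T = 0
    · rcases h0 with h0 | h0 <;> simp only [h0, zero_mul, mul_zero, sub_zero, abs_zero] <;>
        positivity
    push Not at h0
    have h1 := lam_supp hπ hyZ h0.1
    have h2 := lam_supp hπ hyZ h0.2
    have h3 : dd π (S ∪ T) ≤ Z ^ 2 :=
      (dd_union_le T (fun a ha => hπ a (hS' ha))).trans
        (by rw [sq]; exact Nat.mul_le_mul h1 h2)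
    have h4 := hG _ (union_subset hS' hT'') h3
    have e : lam π A y S * lam π A y T * G (S ∪ T) -
        M * (lam π A y S * lam π A y T * (1 / dd π (S ∪ T))) =
        lam π A y S * lam π A y T * (G (S ∪ T) - M / dd π (S ∪ T)) := by ring
    rw [e, abs_mul, abs_mul, sq, if_pos h1, if_pos h2, ← one_div_dd]
    refine mul_le_mul (mul_le_mul (abs_lam_le hπ hy hS') (abs_lam_le hπ hy hT'') (abs_nonneg _)
      (by positivity)) (h4.trans (le_of_eq ?_)) (abs_nonneg _) (by positivity)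
    split_ifs <;> ring
  refine (abs_sum_le_sum_abs _ _).trans ?_
  refine (sum_le_sum fun S hS => (abs_sum_le_sum_abs _ _).trans
    (sum_le_sum fun T hT => key S hS T hT)).trans ?_
  simp_rw [← mul_sum, sum_add_distrib, ← mul_sum, ← sum_mul]
  rw [sum3]
  have h1 : ∏ a ∈ A, (1 + 3 * (1 / (π a : ℝ))) ≤ TT π A ^ 3 :=
    prod_one_add_le_TT hπ 3 fun a _ => ⟨by positivity, by simp [div_eq_mul_inv]⟩
  have h2 := card_dd_le hπ Z
  have h3 : 0 ≤ ∑ S ∈ A.powerset, (if dd π S ≤ Z then (1 : ℝ) else 0) :=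
    sum_nonneg fun _ _ => by split_ifs <;> norm_num
  have h4 : TT π A ^ 2 ≤ TT π A ^ 3 := pow_le_pow_right₀ hT (by norm_num)
  calc _ ≤ (Y * TT π A) ^ 2 * (M * ε * TT π A ^ 3 + M * (β * TT π A ^ 3) +
        E * ((Z * TT π A) * (Z * TT π A))) := by gcongr
    _ = Y ^ 2 * TT π A ^ 2 * (M * (ε + β) * TT π A ^ 3 + E * Z ^ 2 * TT π A ^ 2) := by ring
    _ ≤ Y ^ 2 * TT π A ^ 2 * (M * (ε + β) * TT π A ^ 3 + E * Z ^ 2 * TT π A ^ 3) := by gcongr
    _ = _ := by ring

lemma sum_mul_FF_sq {α : Type*} (Ω : Finset α) (μ : α → ℝ) (A : Finset ι) (y : Finset ι → ℝ)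
    {B : α → ι → ℝ} (hB : ∀ n a, B n a = 0 ∨ B n a = 1) :
    ∑ n ∈ Ω, μ n * FF π A y (B n) ^ 2 = ∑ S ∈ A.powerset, ∑ T ∈ A.powerset,
      lam π A y S * lam π A y T * ∑ n ∈ Ω, μ n * ∏ a ∈ S ∪ T, B n a := by
  simp_rw [fun n => FF_sq (π := π) A y (hB n), mul_sum]
  rw [sum_comm]
  refine sum_congr rfl fun S _ => ?_
  rw [sum_comm]
  exact sum_congr rfl fun T _ => sum_congr rfl fun n _ => by ring

lemma abs_FF_le {A : Finset ι} (hπ : ∀ a ∈ A, 2 ≤ π a) {y : Finset ι → ℝ} {Y : ℝ}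
    (hy : ∀ U ⊆ A, |y U| ≤ Y) {B : ι → ℝ} (hB : ∀ a, B a = 0 ∨ B a = 1) :
    |FF π A y B| ≤ Y * TT π A * 2 ^ (A.filter (fun a => B a ≠ 0)).card := by
  have hY : 0 ≤ Y := (abs_nonneg _).trans (hy ∅ (empty_subset _))
  have hT := one_le_TT hπ
  have hB0 : ∀ a, 0 ≤ B a := fun a => by rcases hB a with h | h <;> simp [h]
  rw [FF_eq]
  refine (abs_sum_le_sum_abs _ _).trans ?_
  calc _ ≤ ∑ S ∈ A.powerset, Y * TT π A * ∏ a ∈ S, B a := by
        refine sum_le_sum fun S hS => ?_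
        rw [abs_mul, abs_of_nonneg (prod_nonneg fun a _ => hB0 a)]
        exact mul_le_mul_of_nonneg_right (abs_lam_le hπ hy (mem_powerset.1 hS))
          (prod_nonneg fun a _ => hB0 a)
    _ = Y * TT π A * ∏ a ∈ A, (1 + B a) := by rw [← mul_sum, prod_one_add]
    _ = _ := by
        congr 1
        rw [← prod_const, prod_filter]
        refine prod_congr rfl fun a _ => ?_
        rcases hB a with h | h <;> simp [h]; norm_num

lemma FF_collapse {A₁ A₂ : Finset ι} (h : Disjoint A₁ A₂) (y : Finset ι → ℝ) {B : ι → ℝ}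
    (hB : ∀ a ∈ A₂, B a = 0) : FF π (A₁ ∪ A₂) y B = FF π A₁ (col π A₂ y) B := by
  unfold FF col
  rw [sum_powerset_union h]
  refine sum_congr rfl fun S hS => ?_
  rw [sum_mul]
  refine sum_congr rfl fun T hT => ?_
  rw [prod_union (h.mono (mem_powerset.1 hS) (mem_powerset.1 hT)), ph]
  have : ∏ a ∈ T, (1 - π a * B a) / ((π a : ℝ) - 1) = ∏ a ∈ T, ((π a : ℝ) - 1)⁻¹ :=
    prod_congr rfl fun a ha => by rw [hB a (mem_powerset.1 hT ha)]; simp
  rw [this]; ring

lemma col_col {A₁ A₂ : Finset ι} (h : Disjoint A₁ A₂) (y : Finset ι → ℝ) (S : Finset ι) :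
    col π A₁ (col π A₂ y) S = col π (A₁ ∪ A₂) y S := by
  unfold col
  rw [sum_powerset_union h]
  refine sum_congr rfl fun T hT => ?_
  rw [sum_mul]
  refine sum_congr rfl fun T' hT' => ?_
  unfold ph
  rw [prod_union (h.mono (mem_powerset.1 hT) (mem_powerset.1 hT')), union_assoc]; ring

lemma FF_congr {A : Finset ι} {y y' : Finset ι → ℝ} (h : ∀ S ⊆ A, y S = y' S) (B : ι → ℝ) :
    FF π A y B = FF π A y' B :=
  sum_congr rfl fun S hS => by rw [h S (mem_powerset.1 hS)]

end general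

section concrete

variable {κ : Type*} [DecidableEq κ]

/-- Atoms: a prime in the interval from w (excluded) to R and a coordinate in `I`. -/
def AA (w R : ℕ) (I : Finset κ) : Finset (ℕ × κ) := PP w R ×ˢ I

lemma AA_two {w R : ℕ} {I : Finset κ} : ∀ a ∈ AA w R I, 2 ≤ a.1 :=
  fun _ ha => (PP_prime (mem_product.1 ha).1).two_le

lemma TT_AA (w R : ℕ) (I : Finset κ) : TT Prod.fst (AA w R I) = Th w R ^ I.card := by
  unfold TT AA Th
  rw [prod_product, ← prod_pow]
  simp

lemma AA_union (w R : ℕ) (I J : Finset κ) : AA w R (I ∪ J) = AA w R I ∪ AA w R J :=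
  product_union

lemma AA_disj (w R : ℕ) {I J : Finset κ} (h : Disjoint I J) : Disjoint (AA w R I) (AA w R J) := by
  rw [disjoint_left] at h ⊢
  exact fun a h1 h2 => h (mem_product.1 h1).2 (mem_product.1 h2).2

/-- Sets of atoms that repeat a prime or contain the prime `p₀`. -/
def badW (p₀ : ℕ) (W : Finset (ℕ × κ)) : Prop :=
  (∃ a ∈ W, ∃ b ∈ W, a ≠ b ∧ a.1 = b.1) ∨ ∃ a ∈ W, a.1 = p₀

open Classical in
lemma bad_sum_le {w R : ℕ} (hw : 1 ≤ w) (I : Finset κ) (p₀ : ℕ) :
    ∑ S ∈ (AA w R I).powerset, ∑ T ∈ (AA w R I).powerset,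
      (if badW p₀ (S ∪ T) then (1 : ℝ) / dd Prod.fst (S ∪ T) else 0) ≤
      (20 * (I.card : ℝ) ^ 2 / w) * TT Prod.fst (AA w R I) ^ 3 := by
  set A := AA w R I
  have hw' : (0 : ℝ) < w := by exact_mod_cast hw
  set f : Finset (ℕ × κ) → Finset (ℕ × κ) → Finset (ℕ × κ) → ℝ := fun E S T =>
    if E ⊆ S ∪ T then (1 : ℝ) / dd Prod.fst (S ∪ T) else 0 with hf
  have hf0 : ∀ E S T, 0 ≤ f E S T := fun E S T => by simp only [hf]; split_ifs <;> positivity
  have h1 : ∀ S ∈ A.powerset, ∀ T ∈ A.powerset,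
      (if badW p₀ (S ∪ T) then (1 : ℝ) / dd Prod.fst (S ∪ T) else 0) ≤
      ∑ p ∈ PP w R, ∑ l ∈ I.offDiag, f {(p, l.1), (p, l.2)} S T +
        ∑ l ∈ I, if p₀ ∈ PP w R then f {(p₀, l)} S T else 0 := by
    intro S hS T hT
    have hsub : S ∪ T ⊆ A := union_subset (mem_powerset.1 hS) (mem_powerset.1 hT)
    have n1 : 0 ≤ ∑ p ∈ PP w R, ∑ l ∈ I.offDiag, f {(p, l.1), (p, l.2)} S T :=
      sum_nonneg fun _ _ => sum_nonneg fun _ _ => hf0 _ _ _
    have n2 : 0 ≤ ∑ l ∈ I, if p₀ ∈ PP w R then f {(p₀, l)} S T else 0 :=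
      sum_nonneg fun _ _ => by split_ifs; exacts [hf0 _ _ _, le_rfl]
    by_cases h : badW p₀ (S ∪ T)
    · rw [if_pos h]
      rcases h with ⟨a, ha, b, hb, hab, h2⟩ | ⟨a, ha, h2⟩
      · have ha' := mem_product.1 (hsub ha)
        have hb' := mem_product.1 (hsub hb)
        have h3 : (a.2, b.2) ∈ I.offDiag :=
          mem_offDiag.2 ⟨ha'.2, hb'.2, fun h => hab (Prod.ext h2 h)⟩
        have h4 := (single_le_sum (f := fun l : κ × κ => f {(a.1, l.1), (a.1, l.2)} S T)
          (fun _ _ => hf0 _ _ _) h3).trans (single_le_sum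
            (f := fun p => ∑ l ∈ I.offDiag, f {(p, l.1), (p, l.2)} S T)
            (fun _ _ => sum_nonneg fun _ _ => hf0 _ _ _) ha'.1)
        have h5 : f {(a.1, a.2), (a.1, b.2)} S T = 1 / dd Prod.fst (S ∪ T) := by
          simp only [hf]
          rw [if_pos]
          rw [insert_subset_iff, singleton_subset_iff, h2]
          exact ⟨by rw [← h2]; exact ha, hb⟩
        rw [h5] at h4
        linarith
      · have ha' := mem_product.1 (hsub ha)
        have h4 := single_le_sum (f := fun l => if p₀ ∈ PP w R then f {(p₀, l)} S T else 0)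
          (fun _ _ => by
            by_cases hp : p₀ ∈ PP w R
            · simp only [hp, if_true]; exact hf0 _ _ _
            · simp only [hp, if_false]; exact le_rfl) ha'.2
        have h5 : f {(p₀, a.2)} S T = 1 / dd Prod.fst (S ∪ T) := by
          simp only [hf]
          rw [if_pos]
          rw [singleton_subset_iff, ← h2]; exact ha
        rw [if_pos (h2 ▸ ha'.1), h5] at h4
        linarith
    · rw [if_neg h]; linarith
  refine (sum_le_sum fun S hS => sum_le_sum fun T hT => h1 S hS T hT).trans ?_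
  simp_rw [sum_add_distrib]
  have hT := one_le_TT (π := Prod.fst) (A := A) AA_two
  have h2 : ∑ S ∈ A.powerset, ∑ T ∈ A.powerset, ∑ p ∈ PP w R, ∑ l ∈ I.offDiag,
      f {(p, l.1), (p, l.2)} S T ≤ 16 * (I.card : ℝ) ^ 2 / w * TT Prod.fst A ^ 3 := by
    calc _ = ∑ p ∈ PP w R, ∑ l ∈ I.offDiag, ∑ S ∈ A.powerset, ∑ T ∈ A.powerset,
          f {(p, l.1), (p, l.2)} S T := by
          simp_rw [sum_comm (s := A.powerset) (t := PP w R), sum_comm (s := A.powerset)
            (t := I.offDiag)]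
      _ ≤ ∑ p ∈ PP w R, ∑ _l ∈ I.offDiag, 16 * (1 / (p : ℝ) ^ 2) * TT Prod.fst A ^ 3 := by
          refine sum_le_sum fun p hp => sum_le_sum fun l hl => ?_
          have hl' := mem_offDiag.1 hl
          refine (sum3_forced AA_two ?_).trans (le_of_eq ?_)
          · rw [insert_subset_iff, singleton_subset_iff]
            exact ⟨mem_product.2 ⟨hp, hl'.1⟩, mem_product.2 ⟨hp, hl'.2.1⟩⟩
          · rw [prod_pair (by simp [hl'.2.2])]; ring
      _ = I.offDiag.card * (16 * (∑ p ∈ PP w R, 1 / (p : ℝ) ^ 2) * TT Prod.fst A ^ 3) := by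
          simp_rw [sum_const, nsmul_eq_mul]
          rw [← mul_sum, ← sum_mul, ← mul_sum]
      _ ≤ (I.card : ℝ) ^ 2 * (16 * (1 / w) * TT Prod.fst A ^ 3) := by
          gcongr
          · rw [offDiag_card, sq]
            exact_mod_cast Nat.sub_le _ _
          · exact sum_PP_inv_sq_le w R hw
      _ = _ := by ring
  have h3 : ∑ S ∈ A.powerset, ∑ T ∈ A.powerset, ∑ l ∈ I,
      (if p₀ ∈ PP w R then f {(p₀, l)} S T else 0) ≤
      4 * (I.card : ℝ) ^ 2 / w * TT Prod.fst A ^ 3 := by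
    by_cases hp : p₀ ∈ PP w R
    · simp only [hp, if_true]
      calc _ = ∑ l ∈ I, ∑ S ∈ A.powerset, ∑ T ∈ A.powerset, f {(p₀, l)} S T := by
            simp_rw [sum_comm (s := A.powerset) (t := I)]
        _ ≤ ∑ _l ∈ I, 4 / w * TT Prod.fst A ^ 3 := by
            refine sum_le_sum fun l hl => ?_
            refine (sum3_forced AA_two (singleton_subset_iff.2 (mem_product.2 ⟨hp, hl⟩))).trans ?_
            rw [prod_singleton]
            gcongr
            exact_mod_cast (mem_PP.1 hp).1.le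
        _ = I.card * (4 / w * TT Prod.fst A ^ 3) := by rw [sum_const, nsmul_eq_mul]
        _ ≤ (I.card : ℝ) ^ 2 * (4 / w * TT Prod.fst A ^ 3) := by
            gcongr
            exact_mod_cast Nat.le_self_pow (by norm_num) _
        _ = _ := by ring
    · simp only [hp, if_false, sum_const_zero]; positivity
  calc _ ≤ _ := add_le_add h2 h3
    _ = _ := by ring

/-- The part of a set of atoms in coordinate `l`. -/
def sl (S : Finset (ℕ × κ)) (l : κ) : Finset ℕ := (S.filter (fun a => a.2 = l)).image Prod.fst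

lemma sum_AA_single {M : Type*} [AddCommMonoid M] (w R : ℕ) (l : κ) (f : Finset (ℕ × κ) → M) :
    ∑ S ∈ (AA w R {l}).powerset, f S =
      ∑ r ∈ (PP w R).powerset, f (r.image (fun p => (p, l))) := by
  have : AA w R {l} = (PP w R).image (fun p => (p, l)) := by
    ext a; simp [AA, Prod.ext_iff, eq_comm]
  rw [this, powerset_image, sum_image]
  intro r _ r' _ h
  exact image_injective (fun p q h => congrArg Prod.fst h) h

lemma sum_AA_prod (w R : ℕ) (I : Finset κ) (h : κ → Finset ℕ → ℝ) :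
    ∑ S ∈ (AA w R I).powerset, ∏ l ∈ I, h l (sl S l) = ∏ l ∈ I, ∑ r ∈ (PP w R).powerset, h l r := by
  induction I using Finset.induction_on with
  | empty => simp [AA]
  | insert j I hj ih =>
    rw [prod_insert hj, ← ih, insert_eq, AA_union, sum_powerset_union (AA_disj w R (by simpa)),
      sum_AA_single, sum_mul_sum]
    refine sum_congr rfl fun r _ => sum_congr rfl fun S hS => ?_
    rw [← insert_eq, prod_insert hj]
    congr 1
    · congr 1
      ext p
      simp only [sl, mem_image, mem_filter, mem_union, Prod.exists, exists_and_right,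
        exists_eq_right, Prod.mk.injEq]
      constructor
      · rintro (h | h)
        · obtain ⟨q, hq, rfl, _⟩ := h; exact hq
        · exact absurd (mem_product.1 (mem_powerset.1 hS h)).2 hj
      · exact fun h => Or.inl ⟨p, h, rfl, trivial⟩
    · refine prod_congr rfl fun l hl => ?_
      congr 1
      have : j ≠ l := fun h => hj (h ▸ hl)
      ext p
      simp [sl, this]

lemma prod_sl {M : Type*} [CommMonoid M] {w R : ℕ} {I : Finset κ} {S : Finset (ℕ × κ)}
    (hS : S ⊆ AA w R I) (f : ℕ → M) : ∏ a ∈ S, f a.1 = ∏ l ∈ I, ∏ p ∈ sl S l, f p := by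
  rw [← prod_fiberwise_of_maps_to (g := Prod.snd) (t := I) fun a ha => (mem_product.1 (hS ha)).2]
  refine prod_congr rfl fun l _ => ?_
  rw [sl, prod_image]
  intro a ha b hb h
  exact Prod.ext h ((mem_filter.1 ha).2.trans (mem_filter.1 hb).2.symm)

lemma sl_sub {w R : ℕ} {I : Finset κ} {S : Finset (ℕ × κ)} (hS : S ⊆ AA w R I) (l : κ) :
    sl S l ⊆ PP w R := by
  intro p hp
  obtain ⟨a, ha, rfl⟩ := mem_image.1 hp
  exact (mem_product.1 (hS (mem_filter.1 ha).1)).1

lemma sl_union (S T : Finset (ℕ × κ)) (l : κ) : sl (S ∪ T) l = sl S l ∪ sl T l := by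
  simp [sl, filter_union, image_union]

lemma sl_eq_empty {w R : ℕ} {I : Finset κ} {S : Finset (ℕ × κ)} (hS : S ⊆ AA w R I) {l : κ}
    (hl : l ∉ I) : sl S l = ∅ := by
  rw [sl, image_eq_empty, filter_eq_empty_iff]
  rintro a ha rfl
  exact hl (mem_product.1 (hS ha)).2

end concrete

end Pool.Agent.P.MP_746f10_nt
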