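import Mathlib
import Pool.Agent.P.MP_746f10_nt.Basic

/-! The fundamental lemma of the sieve with explicit upper and lower weights. -/

namespace Pool.Agent.P.MP_746f10_nt

open Finset Real

/-- Upper and lower sieve weights of level `D` for the primes in `P`. -/
structure SieveW (P : Finset ℕ) (D : ℕ) (κ ε : ℝ) where
  up : Finset ℕ → ℝ
  lo : Finset ℕ → ℝ
  abs_up : ∀ T, |up T| ≤ 1
  abs_lo : ∀ T, |lo T| ≤ 1
  supp_up : ∀ T ⊆ P, up T ≠ 0 → ∏ p ∈ T, p ≤ D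
  supp_lo : ∀ T ⊆ P, lo T ≠ 0 → ∏ p ∈ T, p ≤ D
  le_up : ∀ x : ℕ → ℝ, (∀ p ∈ P, 0 ≤ x p ∧ x p ≤ 1) →
    ∏ p ∈ P, (1 - x p) ≤ ∑ T ∈ P.powerset, up T * ∏ p ∈ T, x p
  lo_le : ∀ x : ℕ → ℝ, (∀ p ∈ P, 0 ≤ x p ∧ x p ≤ 1) →
    ∑ T ∈ P.powerset, lo T * ∏ p ∈ T, x p ≤ ∏ p ∈ P, (1 - x p)
  up_le : ∀ x : ℕ → ℝ, (∀ p ∈ P, 0 ≤ x p ∧ x p ≤ κ / p ∧ x p ≤ 3 / 4) →
    ∑ T ∈ P.powerset, up T * ∏ p ∈ T, x p ≤ (1 + ε) * ∏ p ∈ P, (1 - x p)
  le_lo : ∀ x : ℕ → ℝ, (∀ p ∈ P, 0 ≤ x p ∧ x p ≤ κ / p ∧ x p ≤ 3 / 4) →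
    (1 - ε) * ∏ p ∈ P, (1 - x p) ≤ ∑ T ∈ P.powerset, lo T * ∏ p ∈ T, x p

lemma sum_block_prod {z : ℕ} (P : Finset ℕ) (b : ℕ → ℕ) (hb : ∀ p ∈ P, b p < z)
    (c : Fin z → ℕ → ℝ) (x : ℕ → ℝ) :
    ∑ T ∈ P.powerset, (∏ j : Fin z, c j (T.filter (fun p => b p = j)).card) * ∏ p ∈ T, x p =
      ∏ j : Fin z, sform (P.filter (fun p => b p = j)) (c j) x := by
  have hB : Pairwise fun i j : Fin z =>
      Disjoint (P.filter (fun p => b p = i)) (P.filter (fun p => b p = j)) := by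
    intro i j hij
    rw [disjoint_left]
    intro p hi hj
    exact hij (Fin.ext ((mem_filter.1 hi).2.symm.trans (mem_filter.1 hj).2))
  rw [prod_sform_eq _ hB]
  have hU : ∀ T ∈ P.powerset,
      (univ : Finset (Fin z)).biUnion (fun j => T.filter (fun p => b p = j)) = T := by
    intro T hT
    ext p
    simp only [mem_biUnion, mem_univ, true_and, mem_filter]
    exact ⟨fun ⟨_, h, _⟩ => h, fun h => ⟨⟨b p, hb p (mem_powerset.1 hT h)⟩, h, rfl⟩⟩
  refine sum_nbij' (fun T j => T.filter (fun p => b p = j)) (fun τ => univ.biUnion τ)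
    ?_ ?_ hU ?_ ?_
  · intro T hT
    rw [Fintype.mem_piFinset]
    intro j
    exact mem_powerset.2 (filter_subset_filter _ (mem_powerset.1 hT))
  · intro τ hτ
    rw [Fintype.mem_piFinset] at hτ
    exact mem_powerset.2 (biUnion_subset.2 fun j _ =>
      (mem_powerset.1 (hτ j)).trans (filter_subset _ _))
  · intro τ hτ
    rw [Fintype.mem_piFinset] at hτ
    funext j
    ext p
    simp only [mem_filter, mem_biUnion, mem_univ, true_and]
    constructor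
    · rintro ⟨⟨i, hi⟩, hj⟩
      have : i = j := Fin.ext ((mem_filter.1 (mem_powerset.1 (hτ i) hi)).2.symm.trans hj)
      exact this ▸ hi
    · intro hp
      exact ⟨⟨j, hp⟩, (mem_filter.1 (mem_powerset.1 (hτ j) hp)).2⟩
  · intro T hT
    rw [hU T hT]

lemma level_le {z k0 : ℕ} (T : Finset ℕ) (hT : ∀ p ∈ T, p.Prime ∧ p ≤ z) (hz : 2 ≤ z)
    (hc : ∀ j : Fin z, (T.filter (fun p => bidx z p = j)).card ≤ 2 * (k0 + j) + 1) :
    ∏ p ∈ T, p ≤ z ^ (4 * k0 + 6) := by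
  have hz0 : (0 : ℝ) < z := by positivity
  have hlz : 0 ≤ Real.log z := Real.log_natCast_nonneg z
  have hpos : (0 : ℝ) < ∏ p ∈ T, (p : ℝ) :=
    prod_pos fun p hp => by exact_mod_cast (hT p hp).1.pos
  have hlog : Real.log (∏ p ∈ T, (p : ℝ)) ≤ Real.log ((z : ℝ) ^ (4 * k0 + 6)) := by
    rw [Real.log_prod (fun p hp => by exact_mod_cast (hT p hp).1.ne_zero), Real.log_pow,
      ← sum_fiberwise_of_maps_to (g := bidx z) (t := range z)
        (fun p hp => mem_range.2 (bidx_spec (hT p hp).1.two_le (hT p hp).2).2.2)]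
    have h1 : ∀ j ∈ range z, ∑ p ∈ T.filter (fun p => bidx z p = j), Real.log p ≤
        ((2 * k0 + 1 : ℝ) + 2 * j) / 2 ^ j * Real.log z := by
      intro j hj
      have h2 : ∀ p ∈ T.filter (fun p => bidx z p = j), Real.log p ≤ Real.log z / 2 ^ j := by
        intro p hp
        obtain ⟨hpT, hpj⟩ := mem_filter.1 hp
        have hp' := (bidx_spec (hT p hpT).1.two_le (hT p hpT).2).1
        rw [hpj] at hp'
        have hp0 : (0 : ℝ) < p := by exact_mod_cast (hT p hpT).1.pos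
        have h3 : Real.log ((p : ℝ) ^ 2 ^ j) ≤ Real.log z :=
          Real.log_le_log (by positivity) (by exact_mod_cast hp')
        rw [Real.log_pow] at h3
        rw [le_div_iff₀ (by positivity)]
        push_cast at h3
        linarith
      have h4 := sum_le_card_nsmul _ _ _ h2
      rw [nsmul_eq_mul] at h4
      have h5 : ((T.filter (fun p => bidx z p = j)).card : ℝ) ≤ (2 * k0 + 1 : ℝ) + 2 * j := by
        have := hc ⟨j, mem_range.1 hj⟩
        have h6 : ((T.filter (fun p => bidx z p = j)).card : ℝ) ≤ ((2 * (k0 + j) + 1 : ℕ) : ℝ) := by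
          exact_mod_cast this
        push_cast at h6; linarith
      calc _ ≤ _ := h4
        _ ≤ ((2 * k0 + 1 : ℝ) + 2 * j) * (Real.log z / 2 ^ j) := by gcongr
        _ = _ := by ring
    refine (sum_le_sum h1).trans ?_
    rw [← sum_mul, sum_lin_div_two_pow]
    refine mul_le_mul_of_nonneg_right ?_ hlz
    have : 0 ≤ (2 * (2 * (k0 : ℝ) + 1) + 4 * z + 4) / 2 ^ z := by positivity
    push_cast; linarith
  have := (Real.log_le_log_iff hpos (by positivity)).1 hlog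
  rw [← Nat.cast_prod] at this
  exact_mod_cast this

theorem exists_sieve (κ : ℝ) (hκ : 0 ≤ κ) : ∃ k0 : ℕ, ∀ (m z : ℕ) (P : Finset ℕ), 2 ≤ z →
    (∀ p ∈ P, p.Prime ∧ p ≤ z) → Nonempty (SieveW P (z ^ (4 * (k0 + m) + 6)) κ (1 / 2 ^ m)) := by
  classical
  set L : ℝ := 6 * κ with hL
  have hL0 : 0 ≤ L := by positivity
  obtain ⟨k0, hk0⟩ : ∃ k0 : ℕ, 2 * Real.exp (2 * L + L / (1 / 4)) ≤ 2 ^ k0 := by
    obtain ⟨k, hk⟩ := pow_unbounded_of_one_lt (2 * Real.exp (2 * L + L / (1 / 4)))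
      (one_lt_two (α := ℝ))
    exact ⟨k, hk.le⟩
  refine ⟨k0, fun m z P hz hP => ?_⟩
  set k := k0 + m with hk
  set B : Fin z → Finset ℕ := fun j => P.filter (fun p => bidx z p = j) with hB
  have hb : ∀ p ∈ P, bidx z p < z := fun p hp => (bidx_spec (hP p hp).1.two_le (hP p hp).2).2.2
  have hBP : ∀ j, B j ⊆ P := fun j => filter_subset _ _
  have hprod : ∀ f : ℕ → ℝ, ∏ j, ∏ i ∈ B j, f i = ∏ p ∈ P, f p := by
    intro f
    rw [Fin.prod_univ_eq_prod_range (fun j => ∏ i ∈ P.filter (fun p => bidx z p = j), f i) z]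
    exact prod_fiberwise_of_maps_to (fun p hp => mem_range.2 (hb p hp)) f
  set cy : Fin z → ℕ → ℝ := fun j => cY (2 * (k + j) + 1) with hcy
  set cz : Fin z → Fin z → ℕ → ℝ := fun l j =>
    if j = l then cZ (2 * (k + j) + 1) else cY (2 * (k + j) + 1) with hcz
  set cd : Finset ℕ → Fin z → ℕ := fun T j => (T.filter (fun p => bidx z p = j)).card with hcd
  set up : Finset ℕ → ℝ := fun T => ∏ j, cy j (cd T j) with hup
  set zz : Fin z → Finset ℕ → ℝ := fun l T => ∏ j, cz l j (cd T j) with hzz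
  have hcy1 : ∀ j i, |cy j i| ≤ 1 := by
    intro j i; simp only [cy, cY]; split_ifs <;> simp
  have hcz1 : ∀ l j i, |cz l j i| ≤ 1 := by
    intro l j i; simp only [cz]; split_ifs
    · simp only [cZ]; split_ifs <;> simp
    · exact hcy1 j i
  have hup1 : ∀ T, |up T| ≤ 1 := fun T => by
    rw [hup, abs_prod]; exact prod_le_one (fun _ _ => abs_nonneg _) (fun j _ => hcy1 j _)
  have hzz1 : ∀ l T, |zz l T| ≤ 1 := fun l T => by
    rw [hzz, abs_prod]; exact prod_le_one (fun _ _ => abs_nonneg _) (fun j _ => hcz1 l j _)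
  have hupne : ∀ T, up T ≠ 0 → ∀ j, cd T j < 2 * (k + j) + 1 := by
    intro T h j
    have := prod_ne_zero_iff.1 h j (mem_univ j)
    by_contra h2
    exact this (by simp only [cy, cY]; rw [if_neg h2])
  have hzzne : ∀ l T, zz l T ≠ 0 → cd T l = 2 * (k + l) + 1 ∧
      ∀ j, j ≠ l → cd T j < 2 * (k + j) + 1 := by
    intro l T h
    constructor
    · have := prod_ne_zero_iff.1 h l (mem_univ l)
      by_contra h2
      exact this (by simp only [cz, if_pos, cZ]; rw [if_neg h2])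
    · intro j hj
      have := prod_ne_zero_iff.1 h j (mem_univ j)
      by_contra h2
      exact this (by simp only [cz, if_neg hj, cY]; rw [if_neg h2])
  have hsplit : ∀ (l : Fin z) (u : ℕ → ℝ), ∏ j, sform (B j) (cz l j) u =
      sform (B l) (cZ (2 * (k + l) + 1)) u * ∏ j ∈ univ.erase l, sform (B j) (cy j) u := by
    intro l u
    rw [← mul_prod_erase univ _ (mem_univ l)]
    congr 1
    · simp [cz]
    · refine prod_congr rfl fun j hj => ?_
      simp [cz, cy, ne_of_mem_erase hj]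
  have hU : ∀ x : ℕ → ℝ, ∑ T ∈ P.powerset, up T * ∏ p ∈ T, x p = ∏ j, sform (B j) (cy j) x :=
    fun x => sum_block_prod P (bidx z) hb cy x
  have hLo : ∀ x : ℕ → ℝ, ∑ T ∈ P.powerset, (up T - ∑ l, zz l T) * ∏ p ∈ T, x p =
      ∏ j, sform (B j) (cy j) x - ∑ l, sform (B l) (cZ (2 * (k + l) + 1)) x *
        ∏ j ∈ univ.erase l, sform (B j) (cy j) x := by
    intro x
    simp_rw [sub_mul, sum_sub_distrib, hU, sum_mul]
    rw [sum_comm]
    congr 1
    refine sum_congr rfl fun l _ => ?_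
    rw [← hsplit]
    exact sum_block_prod P (bidx z) hb (cz l) x
  have hlow : ∀ x : ℕ → ℝ, (∀ p ∈ P, 0 ≤ x p ∧ x p ≤ 1) → ∀ j,
      0 ≤ ∏ i ∈ B j, (1 - x i) ∧ ∏ i ∈ B j, (1 - x i) ≤ sform (B j) (cy j) x ∧
      sform (B j) (cy j) x - ∏ i ∈ B j, (1 - x i) ≤ sform (B j) (cZ (2 * (k + j) + 1)) x :=
    fun x hx j => ⟨prod_nonneg fun i hi => by linarith [(hx i (hBP j hi)).2],
      prod_le_sform_cY _ _ (fun i hi => hx i (hBP j hi)) _,
      sform_cY_sub_le _ _ (fun i hi => hx i (hBP j hi)) _⟩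
  -- the relative error of each block
  have hrel : ∀ x : ℕ → ℝ, (∀ p ∈ P, 0 ≤ x p ∧ x p ≤ κ / p ∧ x p ≤ 3 / 4) → ∀ j : Fin z,
      sform (B j) (cZ (2 * (k + j) + 1)) x ≤
        (1 / 2 ^ m * (1 / 4) * (1 / 2) ^ (j : ℕ)) * ∏ i ∈ B j, (1 - x i) := by
    intro x hx j
    have hblock : ∑ i ∈ B j, x i ≤ L := by
      have h1 : ∑ p ∈ B j, (1 : ℝ) / p ≤ 6 := by
        refine sum_inv_block_le _ (fun p hp => (hP p (hBP j hp)).1) ?_
        intro p hp q hq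
        have hp' := bidx_spec (hP p (hBP j hp)).1.two_le (hP p (hBP j hp)).2
        have hq' := bidx_spec (hP q (hBP j hq)).1.two_le (hP q (hBP j hq)).2
        rw [(mem_filter.1 hp).2] at hp'
        rw [(mem_filter.1 hq).2] at hq'
        have : q ^ 2 ^ (j : ℕ) < (p ^ 2) ^ 2 ^ (j : ℕ) := by
          rw [← pow_mul, ← pow_succ']; omega
        exact lt_of_pow_lt_pow_left₀ _ (Nat.zero_le _) this
      calc ∑ i ∈ B j, x i ≤ ∑ i ∈ B j, κ * (1 / i) :=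
            sum_le_sum fun i hi => by rw [mul_one_div]; exact (hx i (hBP j hi)).2.1
        _ = κ * ∑ i ∈ B j, (1 : ℝ) / i := by rw [mul_sum]
        _ ≤ L := by rw [hL]; nlinarith
    have hs0 : 0 ≤ ∑ i ∈ B j, x i := sum_nonneg fun i hi => (hx i (hBP j hi)).1
    have hV := exp_neg_le_prod (B j) x (η := 1 / 4) (by norm_num)
      (fun i hi => ⟨(hx i (hBP j hi)).1, by linarith [(hx i (hBP j hi)).2.2]⟩)
    have hV2 : Real.exp (-(L / (1 / 4))) ≤ ∏ i ∈ B j, (1 - x i) := by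
      refine le_trans (Real.exp_le_exp.2 ?_) hV
      gcongr
    set n := 2 * (k + j) + 1 with hn
    have h2 : (∑ i ∈ B j, x i) ^ n / (n.factorial : ℝ) ≤ Real.exp (2 * L) / 2 ^ n := by
      calc (∑ i ∈ B j, x i) ^ n / (n.factorial : ℝ) ≤ L ^ n / n.factorial := by gcongr
        _ = (2 * L) ^ n / n.factorial / 2 ^ n := by rw [mul_pow 2 L]; field_simp
        _ ≤ _ := by gcongr; exact Real.pow_div_factorial_le_exp _ (by positivity) n
    have h3 : (2 : ℝ) ^ k0 * 2 ^ m * 2 * 2 ^ (j : ℕ) ≤ 2 ^ n := by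
      rw [← pow_add, ← pow_succ, ← pow_add]
      exact pow_le_pow_right₀ (by norm_num) (by omega)
    calc _ ≤ _ := sform_cZ_le _ _ (fun i hi => (hx i (hBP j hi)).1) n
      _ ≤ _ := h2
      _ = Real.exp (2 * L + L / (1 / 4)) / 2 ^ n * Real.exp (-(L / (1 / 4))) := by
        rw [Real.exp_neg, Real.exp_add]; field_simp
      _ ≤ (2 ^ k0 / 2) / (2 ^ k0 * 2 ^ m * 2 * 2 ^ (j : ℕ)) * ∏ i ∈ B j, (1 - x i) := by
        gcongr; linarith
      _ = _ := by rw [one_div_pow]; field_simp; ring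
  have hε : (0 : ℝ) < 1 / 2 ^ m := by positivity
  have hε1 : (1 : ℝ) / 2 ^ m ≤ 1 := by
    rw [div_le_one (by positivity)]; exact one_le_pow₀ (by norm_num)
  have hsum : ∑ j : Fin z, (1 / 2 ^ m * (1 / 4) * (1 / 2 : ℝ) ^ (j : ℕ)) ≤ 1 / 2 ^ m / 2 := by
    rw [← mul_sum, Fin.sum_univ_eq_sum_range (fun j => (1 / 2 : ℝ) ^ j) z]
    have := sum_geometric_two_le z
    nlinarith
  have hY : ∀ x : ℕ → ℝ, (∀ p ∈ P, 0 ≤ x p ∧ x p ≤ κ / p ∧ x p ≤ 3 / 4) → ∀ s : Finset (Fin z),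
      ∏ j ∈ s, sform (B j) (cy j) x ≤ (1 + 1 / 2 ^ m) * ∏ j ∈ s, ∏ i ∈ B j, (1 - x i) := by
    intro x hx s
    have hx' : ∀ p ∈ P, 0 ≤ x p ∧ x p ≤ 1 := fun p hp => ⟨(hx p hp).1, by linarith [(hx p hp).2.2]⟩
    calc ∏ j ∈ s, sform (B j) (cy j) x
        ≤ ∏ j ∈ s, (Real.exp (1 / 2 ^ m * (1 / 4) * (1 / 2 : ℝ) ^ (j : ℕ)) *
            ∏ i ∈ B j, (1 - x i)) := by
          refine prod_le_prod (fun j _ => (hlow x hx' j).1.trans (hlow x hx' j).2.1) fun j _ => ?_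
          have h1 := hrel x hx j
          have h2 := (hlow x hx' j).2.2
          have h3 := mul_le_mul_of_nonneg_right
            (Real.add_one_le_exp (1 / 2 ^ m * (1 / 4) * (1 / 2 : ℝ) ^ (j : ℕ))) (hlow x hx' j).1
          linarith
      _ = Real.exp (∑ j ∈ s, 1 / 2 ^ m * (1 / 4) * (1 / 2 : ℝ) ^ (j : ℕ)) *
            ∏ j ∈ s, ∏ i ∈ B j, (1 - x i) := by rw [prod_mul_distrib, Real.exp_sum]
      _ ≤ _ := by
          refine mul_le_mul_of_nonneg_right ?_ (prod_nonneg fun j _ => (hlow x hx' j).1)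
          have h1 : ∑ j ∈ s, 1 / 2 ^ m * (1 / 4) * (1 / 2 : ℝ) ^ (j : ℕ) ≤ 1 / 2 ^ m / 2 :=
            le_trans (sum_le_sum_of_subset_of_nonneg (subset_univ s) fun _ _ _ => by positivity) hsum
          refine (Real.exp_le_exp.2 h1).trans ?_
          have h2 := Real.abs_exp_sub_one_le (x := 1 / 2 ^ m / 2)
            (by rw [abs_of_nonneg (by positivity)]; linarith)
          rw [abs_of_nonneg (show (0 : ℝ) ≤ 1 / 2 ^ m / 2 by positivity)] at h2
          linarith [le_abs_self (Real.exp (1 / 2 ^ m / 2) - 1)]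
  refine ⟨⟨up, fun T => up T - ∑ l, zz l T, hup1, ?_, ?_, ?_, ?_, ?_, ?_, ?_⟩⟩
  · intro T
    by_cases h : ∃ l, zz l T ≠ 0
    · obtain ⟨l, hl⟩ := h
      have h1 : up T = 0 := by
        by_contra h2
        have := hupne T h2 l
        have := (hzzne l T hl).1
        omega
      rw [h1, zero_sub, abs_neg, sum_eq_single l]
      · exact hzz1 l T
      · intro j _ hj
        by_contra h2
        have := (hzzne j T h2).1
        have := (hzzne l T hl).2 j hj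
        omega
      · simp
    · push Not at h
      simp only [h, sum_const_zero, sub_zero]
      exact hup1 T
  · intro T hT h
    exact level_le T (fun p hp => hP p (hT hp)) hz fun j => (hupne T h j).le
  · intro T hT h
    refine level_le T (fun p hp => hP p (hT hp)) hz fun j => ?_
    by_cases h1 : up T = 0
    · have : ∃ l, zz l T ≠ 0 := by
        by_contra h2
        push Not at h2
        simp [h1, h2] at h
      obtain ⟨l, hl⟩ := this
      by_cases hj : j = l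
      · subst hj; exact (hzzne j T hl).1.le
      · exact ((hzzne l T hl).2 j hj).le
    · exact (hupne T h1 j).le
  · intro x hx
    rw [hU, ← hprod]
    exact prod_le_prod (fun j _ => (hlow x hx j).1) fun j _ => (hlow x hx j).2.1
  · intro x hx
    rw [hLo, ← hprod]
    have h1 := prod_sub_prod_le univ (fun j => ∏ i ∈ B j, (1 - x i))
      (fun j => sform (B j) (cy j) x) (fun j _ => (hlow x hx j).1) fun j _ => (hlow x hx j).2.1
    have h2 : ∑ l, (sform (B l) (cy l) x - ∏ i ∈ B l, (1 - x i)) *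
        ∏ j ∈ univ.erase l, sform (B j) (cy j) x ≤ ∑ l, sform (B l) (cZ (2 * (k + l) + 1)) x *
        ∏ j ∈ univ.erase l, sform (B j) (cy j) x :=
      sum_le_sum fun l _ => mul_le_mul_of_nonneg_right (hlow x hx l).2.2
        (prod_nonneg fun j _ => (hlow x hx j).1.trans (hlow x hx j).2.1)
    linarith
  · intro x hx
    rw [hU, ← hprod]
    exact hY x hx univ
  · intro x hx
    have hx' : ∀ p ∈ P, 0 ≤ x p ∧ x p ≤ 1 := fun p hp => ⟨(hx p hp).1, by linarith [(hx p hp).2.2]⟩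
    rw [hLo, ← hprod]
    set W := ∏ j, ∏ i ∈ B j, (1 - x i) with hW
    have hW0 : 0 ≤ W := prod_nonneg fun j _ => (hlow x hx' j).1
    have h1 : W ≤ ∏ j, sform (B j) (cy j) x :=
      prod_le_prod (fun j _ => (hlow x hx' j).1) fun j _ => (hlow x hx' j).2.1
    have h2 : ∑ l, sform (B l) (cZ (2 * (k + l) + 1)) x *
        ∏ j ∈ univ.erase l, sform (B j) (cy j) x ≤
        ∑ l : Fin z, (1 / 2 ^ m * (1 / 4) * (1 / 2 : ℝ) ^ (l : ℕ)) * (2 * W) := by
      refine sum_le_sum fun l _ => ?_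
      have h3 := hY x hx (univ.erase l)
      have h4 : 0 ≤ ∏ j ∈ univ.erase l, ∏ i ∈ B j, (1 - x i) :=
        prod_nonneg fun j _ => (hlow x hx' j).1
      have h5 : W = (∏ i ∈ B l, (1 - x i)) * ∏ j ∈ univ.erase l, ∏ i ∈ B j, (1 - x i) :=
        (mul_prod_erase univ _ (mem_univ l)).symm
      have h6 := (hlow x hx' l).1
      calc _ ≤ ((1 / 2 ^ m * (1 / 4) * (1 / 2) ^ (l : ℕ)) * ∏ i ∈ B l, (1 - x i)) *
            (2 * ∏ j ∈ univ.erase l, ∏ i ∈ B j, (1 - x i)) := by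
            refine mul_le_mul (hrel x hx l) (h3.trans (by gcongr; linarith))
              (prod_nonneg fun j _ => (hlow x hx' j).1.trans (hlow x hx' j).2.1) (by positivity)
        _ = _ := by rw [h5]; ring
    rw [← sum_mul] at h2
    have h3 := mul_le_mul_of_nonneg_right hsum (show 0 ≤ 2 * W by positivity)
    nlinarith

lemma card_level_le {P : Finset ℕ} (hP : ∀ p ∈ P, p.Prime) (D : ℕ) :
    (P.powerset.filter (fun T => ∏ p ∈ T, p ≤ D)).card ≤ D := by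
  have : (P.powerset.filter (fun T => ∏ p ∈ T, p ≤ D)).card ≤ (Icc 1 D).card := by
    refine card_le_card_of_injOn (fun T => ∏ p ∈ T, p) ?_ ?_
    · intro T hT
      have hT := mem_filter.1 hT
      simp only [coe_Icc, Set.mem_Icc]
      exact ⟨Nat.succ_le_of_lt (prod_pos fun p hp => (hP p (mem_powerset.1 hT.1 hp)).pos), hT.2⟩
    · intro T hT S hS h
      rw [← Nat.primeFactors_prod (fun p hp => hP p (mem_powerset.1 (mem_filter.1 hT).1 hp)),
        ← Nat.primeFactors_prod (fun p hp => hP p (mem_powerset.1 (mem_filter.1 hS).1 hp))]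
      exact congrArg _ h
  simpa using this

lemma rem_le {P : Finset ℕ} (hP : ∀ p ∈ P, p.Prime) {D : ℕ} {c e : Finset ℕ → ℝ} {R : ℝ}
    (hc : ∀ T, |c T| ≤ 1) (hs : ∀ T ⊆ P, c T ≠ 0 → ∏ p ∈ T, p ≤ D) (hR : 0 ≤ R)
    (he : ∀ T ⊆ P, ∏ p ∈ T, p ≤ D → |e T| ≤ R) :
    |∑ T ∈ P.powerset, c T * e T| ≤ D * R := by
  refine (abs_sum_le_sum_abs _ _).trans ?_
  calc ∑ T ∈ P.powerset, |c T * e T|
      ≤ ∑ T ∈ P.powerset, if ∏ p ∈ T, p ≤ D then R else 0 := by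
        refine sum_le_sum fun T hT => ?_
        split_ifs with h
        · rw [abs_mul]
          exact (mul_le_of_le_one_left (abs_nonneg _) (hc T)).trans (he T (mem_powerset.1 hT) h)
        · have : c T = 0 := by
            by_contra h2; exact h (hs T (mem_powerset.1 hT) h2)
          simp [this]
    _ = (P.powerset.filter (fun T => ∏ p ∈ T, p ≤ D)).card * R := by
        rw [← sum_filter, sum_const, nsmul_eq_mul]
    _ ≤ _ := by gcongr; exact_mod_cast card_level_le hP D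

namespace SieveW

variable {P : Finset ℕ} {D : ℕ} {κ ε : ℝ} (s : SieveW P D κ ε)

/-- The upper sieve evaluated at the indicator vector `x`. -/
noncomputable def U (x : ℕ → ℝ) : ℝ := ∑ T ∈ P.powerset, s.up T * ∏ p ∈ T, x p

lemma U_nonneg {x : ℕ → ℝ} (hx : ∀ p ∈ P, 0 ≤ x p ∧ x p ≤ 1) : 0 ≤ s.U x :=
  le_trans (prod_nonneg fun p hp => by linarith [(hx p hp).2]) (s.le_up x hx)

theorem upper (hP : ∀ p ∈ P, p.Prime) {α : Type*} (A : Finset α) (μ : α → ℝ) (x : α → ℕ → ℝ)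
    (g : ℕ → ℝ) (X R : ℝ) (hX : 0 ≤ X) (hR : 0 ≤ R)
    (hg : ∀ p ∈ P, 0 ≤ g p ∧ g p ≤ κ / p ∧ g p ≤ 3 / 4)
    (he : ∀ T ⊆ P, ∏ p ∈ T, p ≤ D →
      |∑ a ∈ A, μ a * ∏ p ∈ T, x a p - X * ∏ p ∈ T, g p| ≤ R) :
    ∑ a ∈ A, μ a * s.U (x a) ≤ (1 + ε) * (X * ∏ p ∈ P, (1 - g p)) + D * R := by
  have h1 := rem_le hP s.abs_up s.supp_up hR he
  have h2 := mul_le_mul_of_nonneg_left (s.up_le g hg) hX
  have h3 : ∑ a ∈ A, μ a * s.U (x a) = X * ∑ T ∈ P.powerset, s.up T * ∏ p ∈ T, g p +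
      ∑ T ∈ P.powerset, s.up T * (∑ a ∈ A, μ a * ∏ p ∈ T, x a p - X * ∏ p ∈ T, g p) := by
    unfold U
    simp_rw [mul_sum]
    rw [sum_comm, ← sum_add_distrib]
    refine sum_congr rfl fun T _ => ?_
    rw [mul_sub, mul_sum]
    simp_rw [mul_left_comm (μ _)]
    ring
  rw [h3]
  linarith [le_abs_self (∑ T ∈ P.powerset, s.up T *
    (∑ a ∈ A, μ a * ∏ p ∈ T, x a p - X * ∏ p ∈ T, g p))]

include s in
theorem lower (hP : ∀ p ∈ P, p.Prime) {α : Type*} (A : Finset α) (μ : α → ℝ) (x : α → ℕ → ℝ)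
    (g : ℕ → ℝ) (X R : ℝ) (hX : 0 ≤ X) (hR : 0 ≤ R) (hμ : ∀ a ∈ A, 0 ≤ μ a)
    (hx : ∀ a ∈ A, ∀ p ∈ P, 0 ≤ x a p ∧ x a p ≤ 1)
    (hg : ∀ p ∈ P, 0 ≤ g p ∧ g p ≤ κ / p ∧ g p ≤ 3 / 4)
    (he : ∀ T ⊆ P, ∏ p ∈ T, p ≤ D →
      |∑ a ∈ A, μ a * ∏ p ∈ T, x a p - X * ∏ p ∈ T, g p| ≤ R) :
    (1 - ε) * (X * ∏ p ∈ P, (1 - g p)) - D * R ≤ ∑ a ∈ A, μ a * ∏ p ∈ P, (1 - x a p) := by
  have h1 := rem_le hP s.abs_lo s.supp_lo hR he
  have h2 := mul_le_mul_of_nonneg_left (s.le_lo g hg) hX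
  have h3 : ∑ a ∈ A, μ a * ∑ T ∈ P.powerset, s.lo T * ∏ p ∈ T, x a p =
      X * ∑ T ∈ P.powerset, s.lo T * ∏ p ∈ T, g p +
      ∑ T ∈ P.powerset, s.lo T * (∑ a ∈ A, μ a * ∏ p ∈ T, x a p - X * ∏ p ∈ T, g p) := by
    simp_rw [mul_sum]
    rw [sum_comm, ← sum_add_distrib]
    refine sum_congr rfl fun T _ => ?_
    rw [mul_sub, mul_sum]
    simp_rw [mul_left_comm (μ _)]
    ring
  have h4 : ∑ a ∈ A, μ a * ∑ T ∈ P.powerset, s.lo T * ∏ p ∈ T, x a p ≤
      ∑ a ∈ A, μ a * ∏ p ∈ P, (1 - x a p) :=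
    sum_le_sum fun a ha => mul_le_mul_of_nonneg_left (s.lo_le _ (hx a ha)) (hμ a ha)
  rw [h3] at h4
  linarith [neg_abs_le (∑ T ∈ P.powerset, s.lo T *
    (∑ a ∈ A, μ a * ∏ p ∈ T, x a p - X * ∏ p ∈ T, g p))]

include s in
theorem two_sided (hP : ∀ p ∈ P, p.Prime) {α : Type*} (A : Finset α) (μ : α → ℝ) (x : α → ℕ → ℝ)
    (g : ℕ → ℝ) (X R : ℝ) (hX : 0 ≤ X) (hR : 0 ≤ R) (hμ : ∀ a ∈ A, 0 ≤ μ a)
    (hx : ∀ a ∈ A, ∀ p ∈ P, 0 ≤ x a p ∧ x a p ≤ 1)
    (hg : ∀ p ∈ P, 0 ≤ g p ∧ g p ≤ κ / p ∧ g p ≤ 3 / 4)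
    (he : ∀ T ⊆ P, ∏ p ∈ T, p ≤ D →
      |∑ a ∈ A, μ a * ∏ p ∈ T, x a p - X * ∏ p ∈ T, g p| ≤ R) :
    |∑ a ∈ A, μ a * ∏ p ∈ P, (1 - x a p) - X * ∏ p ∈ P, (1 - g p)| ≤
      ε * (X * ∏ p ∈ P, (1 - g p)) + D * R := by
  have h1 := s.upper hP A μ x g X R hX hR hg he
  have h2 := s.lower hP A μ x g X R hX hR hμ hx hg he
  have h3 : ∑ a ∈ A, μ a * ∏ p ∈ P, (1 - x a p) ≤ ∑ a ∈ A, μ a * s.U (x a) :=
    sum_le_sum fun a ha => mul_le_mul_of_nonneg_left (s.le_up _ (hx a ha)) (hμ a ha)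
  rw [abs_le]; constructor <;> linarith

end SieveW

end Pool.Agent.P.MP_746f10_nt
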