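import Mathlib
import Pool.Agent.P.MP_746f10_nt.Atoms
import Pool.Agent.P.MP_746f10_nt.FL

/-! Local divisibility patterns of a system of linear forms. -/

set_option linter.unusedSectionVars false

namespace Pool.Agent.P.MP_746f10_nt

open Finset

lemma sum_range_mul_coprime {m n : ℕ} (h : m.Coprime n) (f g : ℕ → ℝ)
    (hf : ∀ c, f (c % m) = f c) (hg : ∀ c, g (c % n) = g c) :
    ∑ c ∈ range (m * n), f c * g c = (∑ c ∈ range m, f c) * ∑ c ∈ range n, g c := by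
  rw [sum_mul_sum, ← sum_product']
  rcases Nat.eq_zero_or_pos m with rfl | hm
  · simp
  rcases Nat.eq_zero_or_pos n with rfl | hn
  · simp
  refine sum_nbij (fun c => (c % m, c % n)) ?_ ?_ ?_ ?_
  · intro c _
    simp [Nat.mod_lt _ hm, Nat.mod_lt _ hn]
  · intro c hc d hd hcd
    simp only [Prod.mk.injEq] at hcd
    have := (Nat.modEq_and_modEq_iff_modEq_mul h).1 ⟨hcd.1, hcd.2⟩
    exact Nat.ModEq.eq_of_lt_of_lt this (by simpa using hc) (by simpa using hd)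
  · rintro ⟨u, v⟩ huv
    simp only [coe_product, coe_range, Set.mem_prod, Set.mem_Iio] at huv
    refine ⟨Nat.chineseRemainder h u v, ?_, ?_⟩
    · simpa using Nat.chineseRemainder_lt_mul h u v hm.ne' hn.ne'
    · have := (Nat.chineseRemainder h u v).2
      simp only [Prod.mk.injEq]
      exact ⟨Eq.trans this.1 (Nat.mod_eq_of_lt huv.1), Eq.trans this.2 (Nat.mod_eq_of_lt huv.2)⟩
  · intro c _
    simp [hf, hg]

lemma sum_range_prod {T : Finset ℕ} (hT : ∀ p ∈ T, p.Prime) (φ : ℕ → ℕ → ℝ)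
    (hφ : ∀ p c, φ p (c % p) = φ p c) :
    ∑ c ∈ range (∏ p ∈ T, p), ∏ p ∈ T, φ p c = ∏ p ∈ T, ∑ c ∈ range p, φ p c := by
  induction T using Finset.induction_on with
  | empty => simp
  | insert q T hq ih =>
    have hT' : ∀ p ∈ T, p.Prime := fun p hp => hT p (mem_insert_of_mem hp)
    rw [prod_insert hq, prod_insert hq, ← ih hT']
    simp_rw [prod_insert hq]
    refine sum_range_mul_coprime ?_ _ _ (hφ q) fun c => prod_congr rfl fun p hp => ?_
    · exact Nat.Coprime.prod_right fun p hp =>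
        (Nat.coprime_primes (hT q (mem_insert_self _ _)) (hT' p hp)).2 (by rintro rfl; exact hq hp)
    · rw [← hφ p, Nat.mod_mod_of_dvd _ (dvd_prod_of_mem _ hp), hφ]

lemma sum_mem_prod_le {P : Finset ℕ} {x : ℕ → ℝ} (hx : ∀ p ∈ P, 0 ≤ x p) {q : ℕ} (hq : q ∈ P) :
    ∑ T ∈ P.powerset, (if q ∈ T then ∏ p ∈ T, x p else 0) ≤ x q * ∏ p ∈ P, (1 + x p) := by
  rw [← insert_erase hq, sum_powerset_insert (notMem_erase q P)]
  have h1 : ∑ T ∈ (P.erase q).powerset, (if q ∈ T then ∏ p ∈ T, x p else 0) = 0 :=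
    sum_eq_zero fun T hT => if_neg fun h => notMem_erase q P (mem_powerset.1 hT h)
  have h2 : ∑ T ∈ (P.erase q).powerset, (if q ∈ insert q T then ∏ p ∈ insert q T, x p else 0) =
      x q * ∏ p ∈ P.erase q, (1 + x p) := by
    rw [prod_one_add, mul_sum]
    refine sum_congr rfl fun T hT => ?_
    rw [if_pos (mem_insert_self _ _), prod_insert fun h => notMem_erase q P (mem_powerset.1 hT h)]
  rw [h1, h2, zero_add, prod_insert (notMem_erase q P)]
  refine mul_le_mul_of_nonneg_left (le_mul_of_one_le_left ?_ ?_) (hx q hq)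
  · exact prod_nonneg fun p hp => by linarith [hx p (mem_of_mem_erase hp)]
  · linarith [hx q hq]

theorem quad_err' {ι : Type*} [DecidableEq ι] {π : ι → ℕ} {A : Finset ι} (hπ : ∀ a ∈ A, 2 ≤ π a)
    {y : Finset ι → ℝ} {Y : ℝ} {Z : ℕ}
    (hy : ∀ U ⊆ A, |y U| ≤ Y) (hyZ : ∀ U ⊆ A, y U ≠ 0 → dd π U ≤ Z)
    (G : Finset ι → ℝ) (bad : Finset ι → Prop) [DecidablePred bad] {M M' ε E β : ℝ}
    (hM : 0 ≤ M') (hε : 0 ≤ ε) (hE : 0 ≤ E)
    (hβ : ∑ S ∈ A.powerset, ∑ T ∈ A.powerset,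
      (if bad (S ∪ T) then (1 : ℝ) / dd π (S ∪ T) else 0) ≤ β * TT π A ^ 3)
    (hG : ∀ W ⊆ A, dd π W ≤ Z ^ 2 →
      |G W - M / dd π W| ≤ M' / dd π W * (ε + if bad W then 1 else 0) + E) :
    |∑ S ∈ A.powerset, ∑ T ∈ A.powerset, lam π A y S * lam π A y T * G (S ∪ T) -
      M * diag π A y| ≤ Y ^ 2 * TT π A ^ 5 * (M' * (ε + β) + E * Z ^ 2) := by
  have := quad_err hπ hy hyZ (fun W => G W - M / dd π W + M' / dd π W) bad hM hε hE hβ
    (fun W hW hd => by simpa using hG W hW hd)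
  refine le_trans (le_of_eq ?_) this
  congr 1
  rw [← diag_eq hπ y]
  simp_rw [mul_sum, ← sum_sub_distrib]
  refine sum_congr rfl fun S _ => sum_congr rfl fun T _ => by ring

variable {ι : Type*} [Fintype ι] [DecidableEq ι] (a b : ι → ℕ)

open Classical in
/-- Indicator that `p` divides one of the forms in `I` at `n`. -/
noncomputable def ev (I : Finset ι) (p n : ℕ) : ℝ :=
  if ∃ l ∈ I, p ∣ a l * n + b l then 1 else 0

/-- A prime at which the forms have distinct simple roots. -/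
structure GoodP (p : ℕ) : Prop where
  prime : p.Prime
  ndvd : ∀ l, ¬ p ∣ a l
  sep : ∀ n l l', p ∣ a l * n + b l → p ∣ a l' * n + b l' → l = l'

/-- Equidistribution of `μ` in the classes that avoid the roots of the forms in `Γ`. -/
def HC (Ω : Finset ℕ) (μ : ℕ → ℝ) (P : Finset ℕ) (Γ : Finset ι) (X : ℝ) (f : ℕ → ℝ) (E : ℝ)
    (Lvl : ℕ) : Prop :=
  ∀ T ⊆ P, ∏ p ∈ T, p ≤ Lvl → ∀ c : ℕ, (∀ p ∈ T, ∀ l ∈ Γ, ¬ p ∣ a l * c + b l) →
    |∑ n ∈ Ω, μ n * (if n ≡ c [MOD ∏ p ∈ T, p] then 1 else 0) - X * ∏ p ∈ T, f p / p| ≤ E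

/-- The expected value of `ev I p`. -/
noncomputable def ee (Γ : Finset ι) (f : ℕ → ℝ) (I : Finset ι) (p : ℕ) : ℝ :=
  if Disjoint Γ I then I.card * (f p / p) else 1 - f p * (1 - I.card / p)

variable {a b}

lemma ev_01 (I : Finset ι) (p n : ℕ) : ev a b I p n = 0 ∨ ev a b I p n = 1 := by
  unfold ev; split_ifs <;> simp

lemma ev_nonneg (I : Finset ι) (p n : ℕ) : 0 ≤ ev a b I p n := by
  rcases ev_01 (a := a) (b := b) I p n with h | h <;> simp [h]

lemma ev_le_one (I : Finset ι) (p n : ℕ) : ev a b I p n ≤ 1 := by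
  rcases ev_01 (a := a) (b := b) I p n with h | h <;> simp [h]

lemma dvd_form_mod (a b p n : ℕ) : p ∣ a * (n % p) + b ↔ p ∣ a * n + b := by
  have : a * (n % p) + b ≡ a * n + b [MOD p] := ((Nat.mod_modEq n p).mul_left a).add_right b
  exact this.dvd_iff dvd_rfl

lemma ev_mod (I : Finset ι) (p n : ℕ) : ev a b I p (n % p) = ev a b I p n := by
  unfold ev; simp_rw [dvd_form_mod]

lemma ev_of_modEq (I : Finset ι) {p n m : ℕ} (h : n ≡ m [MOD p]) :
    ev a b I p n = ev a b I p m := by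
  rw [← ev_mod I p n, ← ev_mod I p m, h]

lemma ev_eq_zero {I : Finset ι} {p n : ℕ} : ev a b I p n = 0 ↔ ∀ l ∈ I, ¬ p ∣ a l * n + b l := by
  unfold ev; split_ifs with h
  · simpa using h
  · simpa using h

lemma ev_eq_one {I : Finset ι} {p n : ℕ} : ev a b I p n = 1 ↔ ∃ l ∈ I, p ∣ a l * n + b l := by
  unfold ev; split_ifs with h
  · simpa using h
  · simpa using h

lemma sum_root {p a b : ℕ} (hp : p.Prime) (ha : ¬ p ∣ a) :
    ∑ c ∈ range p, (if p ∣ a * c + b then (1 : ℝ) else 0) = 1 := by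
  have := Fact.mk hp
  have ha' : (a : ZMod p) ≠ 0 := fun h => ha ((ZMod.natCast_eq_zero_iff a p).1 h)
  rw [sum_eq_single_of_mem (-(b : ZMod p) / a).val (mem_range.2 (ZMod.val_lt _))]
  · rw [if_pos]
    rw [← ZMod.natCast_eq_zero_iff]; push_cast
    rw [ZMod.natCast_zmod_val]; field_simp; ring
  · intro c hc hne
    rw [if_neg]
    intro h
    apply hne
    rw [← ZMod.natCast_eq_zero_iff] at h; push_cast at h
    have : (c : ZMod p) = -(b : ZMod p) / a := by field_simp; linear_combination h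
    rw [← this, ZMod.val_cast_of_lt (mem_range.1 hc)]

lemma GoodP.ev_eq_sum {p : ℕ} (h : GoodP a b p) (I : Finset ι) (n : ℕ) :
    ev a b I p n = ∑ l ∈ I, if p ∣ a l * n + b l then (1 : ℝ) else 0 := by
  unfold ev
  split_ifs with h1
  · obtain ⟨l, hl, hd⟩ := h1
    rw [sum_eq_single_of_mem l hl, if_pos hd]
    exact fun l' _ hne => if_neg fun h2 => hne (h.sep n l' l h2 hd)
  · exact (sum_eq_zero fun l hl => if_neg fun h2 => h1 ⟨l, hl, h2⟩).symm

lemma GoodP.sum_ev {p : ℕ} (h : GoodP a b p) (I : Finset ι) :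
    ∑ c ∈ range p, ev a b I p c = I.card := by
  simp_rw [h.ev_eq_sum]
  rw [sum_comm, sum_congr rfl fun l _ => sum_root h.prime (h.ndvd l)]
  simp

lemma GoodP.ev_mul {p : ℕ} (h : GoodP a b p) {I J : Finset ι} (hIJ : Disjoint I J) (n : ℕ) :
    ev a b I p n * ev a b J p n = 0 := by
  rcases ev_01 (a := a) (b := b) I p n with h1 | h1
  · rw [h1, zero_mul]
  rcases ev_01 (a := a) (b := b) J p n with h2 | h2
  · rw [h2, mul_zero]
  obtain ⟨l, hl, hd⟩ := ev_eq_one.1 h1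
  obtain ⟨l', hl', hd'⟩ := ev_eq_one.1 h2
  have := h.sep n l l' hd hd'
  subst this
  exact absurd hl' (disjoint_left.1 hIJ hl)

variable {Ω : Finset ℕ} {μ : ℕ → ℝ} {P : Finset ℕ} {Γ : Finset ι} {X : ℝ} {f : ℕ → ℝ} {E : ℝ}
  {Lvl : ℕ}

lemma HC.loc (h : HC a b Ω μ P Γ X f E Lvl) (hP : ∀ p ∈ P, p.Prime) (hE : 0 ≤ E) {T : Finset ℕ}
    (hT : T ⊆ P) (hL : ∏ p ∈ T, p ≤ Lvl) (φ : ℕ → ℕ → ℝ) (hφ : ∀ p c, φ p (c % p) = φ p c)
    (h1 : ∀ p c, |φ p c| ≤ 1) (h0 : ∀ p ∈ T, ∀ c, φ p c ≠ 0 → ∀ l ∈ Γ, ¬ p ∣ a l * c + b l) :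
    |∑ n ∈ Ω, μ n * ∏ p ∈ T, φ p n - X * ∏ p ∈ T, (f p / p * ∑ c ∈ range p, φ p c)| ≤
      E * ∏ p ∈ T, (p : ℝ) := by
  set q := ∏ p ∈ T, p with hq
  have hq0 : 0 < q := prod_pos fun p hp => (hP p (hT hp)).pos
  have e1 : ∑ n ∈ Ω, μ n * ∏ p ∈ T, φ p n = ∑ c ∈ range q, (∏ p ∈ T, φ p c) *
      ∑ n ∈ Ω, μ n * (if n ≡ c [MOD q] then 1 else 0) := by
    simp_rw [mul_sum]
    rw [sum_comm]
    refine sum_congr rfl fun n _ => ?_
    rw [sum_eq_single_of_mem (n % q) (mem_range.2 (Nat.mod_lt _ hq0))]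
    · rw [if_pos (Nat.mod_modEq n q).symm, mul_one, mul_comm]
      congr 1
      refine prod_congr rfl fun p hp => ?_
      rw [← hφ p (n % q), Nat.mod_mod_of_dvd _ (dvd_prod_of_mem _ hp), hφ]
    · intro c hc hne
      rw [if_neg, mul_zero, mul_zero]
      intro h2; apply hne
      rw [← Nat.mod_eq_of_lt (mem_range.1 hc)]; exact h2.symm
  rw [e1, prod_mul_distrib, ← sum_range_prod (fun p hp => hP p (hT hp)) φ hφ, ← hq, ← mul_assoc,
    mul_sum, ← sum_sub_distrib]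
  refine (abs_sum_le_sum_abs _ _).trans ?_
  calc _ ≤ ∑ c ∈ range q, E := by
        refine sum_le_sum fun c _ => ?_
        rw [mul_comm _ (∏ p ∈ T, φ p c), ← mul_sub, abs_mul]
        by_cases hz : ∏ p ∈ T, φ p c = 0
        · rw [hz]; simpa using hE
        · have := h T hT hL c fun p hp => h0 p hp c (prod_ne_zero_iff.1 hz p hp)
          refine le_trans (mul_le_of_le_one_left (abs_nonneg _) ?_) this
          rw [abs_prod]
          exact prod_le_one (fun _ _ => abs_nonneg _) fun p _ => h1 p c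
    _ = _ := by rw [sum_const, card_range, nsmul_eq_mul, hq, Nat.cast_prod, mul_comm]

theorem HC.pattern (h : HC a b Ω μ P Γ X f E Lvl) (hP : ∀ p ∈ P, GoodP a b p) (hE : 0 ≤ E)
    {T : Finset ℕ} (hT : T ⊆ P) (hL : ∏ p ∈ T, p ≤ Lvl) (σ : ℕ → Finset ι)
    (hσ : ∀ p ∈ T, Γ ⊆ σ p ∨ Disjoint Γ (σ p)) :
    |∑ n ∈ Ω, μ n * ∏ p ∈ T, ev a b (σ p) p n - X * ∏ p ∈ T, ee Γ f (σ p) p| ≤
      E * (Lvl : ℝ) ^ 2 := by
  set α : ℕ → ℝ := fun p => if Disjoint Γ (σ p) then 0 else 1 with hα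
  set φ : ℕ → ℕ → ℝ := fun p c => ev a b (σ p) p c - α p with hφ
  have hα0 : ∀ p, |α p| ≤ 1 := fun p => by simp only [hα]; split_ifs <;> simp
  have e1 : ∀ n, ∏ p ∈ T, ev a b (σ p) p n =
      ∑ U ∈ T.powerset, (∏ p ∈ U, φ p n) * ∏ p ∈ T \ U, α p := by
    intro n; rw [← prod_add]; simp [hφ]
  have e2 : ∏ p ∈ T, ee Γ f (σ p) p =
      ∑ U ∈ T.powerset, (∏ p ∈ U, (f p / p * ∑ c ∈ range p, φ p c)) * ∏ p ∈ T \ U, α p := by
    rw [← prod_add]
    refine prod_congr rfl fun p hp => ?_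
    have hp0 : (p : ℝ) ≠ 0 := by exact_mod_cast (hP p (hT hp)).prime.ne_zero
    simp only [hφ, sum_sub_distrib, (hP p (hT hp)).sum_ev, sum_const, card_range, nsmul_eq_mul, hα,
      ee]
    split_ifs
    · ring
    · field_simp; ring
  simp_rw [e1]
  rw [e2]
  simp_rw [mul_sum]
  rw [sum_comm, ← sum_sub_distrib]
  refine (abs_sum_le_sum_abs _ _).trans ?_
  calc _ ≤ ∑ U ∈ T.powerset, E * ∏ p ∈ U, (p : ℝ) := by
        refine sum_le_sum fun U hU => ?_
        have hU' := mem_powerset.1 hU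
        simp_rw [← mul_assoc]
        rw [← sum_mul, ← sub_mul, abs_mul]
        refine le_trans (mul_le_of_le_one_right (abs_nonneg _) ?_) ?_
        · rw [abs_prod]; exact prod_le_one (fun _ _ => abs_nonneg _) fun p _ => hα0 p
        simp_rw [← mul_sum]
        refine h.loc (fun p hp => (hP p hp).prime) hE (hU'.trans hT) ?_ φ ?_ ?_ ?_
        · exact le_trans (prod_le_prod_of_subset_of_one_le' hU'
            fun p hp _ => (hP p (hT hp)).prime.one_le) hL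
        · intro p c; simp only [hφ, ev_mod]
        · intro p c
          simp only [hφ, hα]
          rcases ev_01 (a := a) (b := b) (σ p) p c with h1 | h1 <;> rw [h1] <;> split_ifs <;> simp
        · intro p hp c hc l hl hd
          apply hc
          simp only [hφ, hα]
          split_ifs with h2
          · rw [sub_zero, ev_eq_zero]
            intro l' hl' hd'
            have := (hP p (hT (hU' hp))).sep c l l' hd hd'
            subst this
            exact disjoint_left.1 h2 hl hl'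
          · rcases hσ p (hU' hp) with h3 | h3
            · rw [ev_eq_one.2 ⟨l, h3 hl, hd⟩, sub_self]
            · exact absurd h3 h2
    _ = E * ∏ p ∈ T, (1 + (p : ℝ)) := by rw [prod_one_add, mul_sum]
    _ ≤ E * (∏ p ∈ T, (p : ℝ)) ^ 2 := by
        refine mul_le_mul_of_nonneg_left ?_ hE
        rw [← prod_pow]
        refine prod_le_prod (fun _ _ => by positivity) fun p hp => ?_
        have : (2 : ℝ) ≤ p := by exact_mod_cast (hP p (hT hp)).prime.two_le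
        nlinarith
    _ ≤ _ := by
        refine mul_le_mul_of_nonneg_left (pow_le_pow_left₀ (by positivity) ?_ 2) hE
        rw [← Nat.cast_prod]; exact_mod_cast hL

theorem HC.sieve1 (h : HC a b Ω μ P Γ X f E Lvl) (hP : ∀ p ∈ P, GoodP a b p) (hE : 0 ≤ E)
    (hX : 0 ≤ X) (hμ : ∀ n ∈ Ω, 0 ≤ μ n) {P1 : Finset ℕ} (hP1 : P1 ⊆ P) {D1 : ℕ} {κ ε : ℝ}
    (s : SieveW P1 D1 κ ε)
    (hg : ∀ p ∈ P1, 0 ≤ ee Γ f univ p ∧ ee Γ f univ p ≤ κ / p ∧ ee Γ f univ p ≤ 3 / 4)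
    {θ : ℕ → ℝ} (hθ : ∀ n, ∏ p ∈ P1, (1 - ev a b univ p n) ≤ θ n ∧
      θ n ≤ s.U (fun p => ev a b univ p n))
    {T : Finset ℕ} (hT : T ⊆ P) (hd : Disjoint P1 T) (hL : D1 * ∏ p ∈ T, p ≤ Lvl) (σ : ℕ → Finset ι)
    (hσ : ∀ p ∈ T, Γ ⊆ σ p ∨ Disjoint Γ (σ p)) (he : ∀ p ∈ T, 0 ≤ ee Γ f (σ p) p) :
    |∑ n ∈ Ω, μ n * θ n * ∏ p ∈ T, ev a b (σ p) p n -
      X * (∏ p ∈ T, ee Γ f (σ p) p) * ∏ p ∈ P1, (1 - ee Γ f univ p)| ≤
      ε * (X * (∏ p ∈ T, ee Γ f (σ p) p) * ∏ p ∈ P1, (1 - ee Γ f univ p)) +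
        D1 * (E * (Lvl : ℝ) ^ 2) := by
  set μ' : ℕ → ℝ := fun n => μ n * ∏ p ∈ T, ev a b (σ p) p n with hμ'
  have hμ0 : ∀ n ∈ Ω, 0 ≤ μ' n := fun n hn =>
    mul_nonneg (hμ n hn) (prod_nonneg fun p _ => ev_nonneg _ _ _)
  have hX' : 0 ≤ X * ∏ p ∈ T, ee Γ f (σ p) p := mul_nonneg hX (prod_nonneg he)
  have hrem : ∀ U ⊆ P1, ∏ p ∈ U, p ≤ D1 → |∑ n ∈ Ω, μ' n * ∏ p ∈ U, ev a b univ p n -
      (X * ∏ p ∈ T, ee Γ f (σ p) p) * ∏ p ∈ U, ee Γ f univ p| ≤ E * (Lvl : ℝ) ^ 2 := by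
    intro U hU hUD
    have hUT : Disjoint T U := (hd.mono_left hU).symm
    have := h.pattern hP hE (T := T ∪ U) (union_subset hT (hU.trans hP1))
      (by rw [prod_union hUT, mul_comm]; exact (Nat.mul_le_mul_right _ hUD).trans hL)
      (fun p => if p ∈ T then σ p else univ) (fun p _ => by
        split_ifs with hp
        · exact hσ p hp
        · exact Or.inl (subset_univ _))
    simp_rw [prod_union hUT] at this
    have e1 : ∀ (F : Finset ι → ℕ → ℝ), ∏ p ∈ T, F (if p ∈ T then σ p else univ) p =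
        ∏ p ∈ T, F (σ p) p := fun F => prod_congr rfl fun p hp => by rw [if_pos hp]
    have e2 : ∀ (F : Finset ι → ℕ → ℝ), ∏ p ∈ U, F (if p ∈ T then σ p else univ) p =
        ∏ p ∈ U, F univ p := fun F => prod_congr rfl fun p hp => by
      rw [if_neg (disjoint_right.1 hUT hp)]
    rw [e1 (ee Γ f), e2 (ee Γ f)] at this
    simp_rw [fun n => e1 (fun I p => ev a b I p n), fun n => e2 (fun I p => ev a b I p n)] at this
    simp only [hμ', mul_assoc] at this ⊢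
    exact this
  have hPp : ∀ p ∈ P1, p.Prime := fun p hp => (hP p (hP1 hp)).prime
  have h1 := s.upper hPp Ω μ' (fun n p => ev a b univ p n) _ _ _ hX' (by positivity) hg hrem
  have h2 := s.lower hPp Ω μ' (fun n p => ev a b univ p n) _ _ _ hX' (by positivity) hμ0
    (fun n _ p _ => ⟨ev_nonneg _ _ _, ev_le_one _ _ _⟩) hg hrem
  have e3 : ∑ n ∈ Ω, μ n * θ n * ∏ p ∈ T, ev a b (σ p) p n = ∑ n ∈ Ω, μ' n * θ n :=
    sum_congr rfl fun n _ => by simp only [hμ']; ring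
  have h3 : ∑ n ∈ Ω, μ' n * θ n ≤ ∑ n ∈ Ω, μ' n * s.U (fun p => ev a b univ p n) :=
    sum_le_sum fun n hn => mul_le_mul_of_nonneg_left (hθ n).2 (hμ0 n hn)
  have h4 : ∑ n ∈ Ω, μ' n * ∏ p ∈ P1, (1 - ev a b univ p n) ≤ ∑ n ∈ Ω, μ' n * θ n :=
    sum_le_sum fun n hn => mul_le_mul_of_nonneg_left (hθ n).1 (hμ0 n hn)
  rw [e3, abs_le]; constructor <;> linarith

end Pool.Agent.P.MP_746f10_nt
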