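import Mathlib
import Pool.Agent.P.MP_746f10_nt.Loc

/-! The mean value of the sieve weights against an equidistributed measure. -/

set_option linter.unusedSectionVars false

namespace Pool.Agent.P.MP_746f10_nt

open Finset

variable {ι : Type*} [Fintype ι] [DecidableEq ι] (a b : ι → ℕ)

/-- The divisibility indicators of the atoms. -/
noncomputable def BB (n : ℕ) (x : ℕ × ι) : ℝ := ev a b {x.2} x.1 n

/-- A linear combination of divisibility conditions. -/
noncomputable def th2 (P : Finset ℕ) (c : Finset ℕ → ℝ) (x : ℕ → ℝ) : ℝ :=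
  ∑ T ∈ P.powerset, c T * ∏ p ∈ T, x p

variable {a b}

lemma BB_01 (n : ℕ) (x : ℕ × ι) : BB a b n x = 0 ∨ BB a b n x = 1 := ev_01 _ _ _

lemma card_le_of_dd {w R e : ℕ} (hw : 2 ≤ w) {I : Finset ι} {W : Finset (ℕ × ι)}
    (hW : W ⊆ AA w R I) (h : dd Prod.fst W ≤ w ^ e) : W.card ≤ e := by
  have : w ^ W.card ≤ dd Prod.fst W :=
    pow_card_le_prod _ _ _ fun x hx => (mem_PP.1 (mem_product.1 (hW hx)).1).1.le
  exact (Nat.pow_le_pow_iff_right hw).1 (this.trans h)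

lemma abs_prod_sub_one_le {α : Type*} {W : Finset α} {g : α → ℝ} {δ : ℝ}
    (h : ∑ x ∈ W, |g x - 1| ≤ δ) (h1 : δ ≤ 1) : |∏ x ∈ W, g x - 1| ≤ 2 * δ := by
  have h2 := norm_prod_one_add_sub_one_le W (fun x => g x - 1)
  simp only [add_sub_cancel, Real.norm_eq_abs] at h2
  have h0 : 0 ≤ ∑ x ∈ W, |g x - 1| := sum_nonneg fun _ _ => abs_nonneg _
  have h3 := Real.abs_exp_sub_one_le (x := ∑ x ∈ W, |g x - 1|) (by rw [abs_of_nonneg h0]; linarith)
  rw [abs_of_nonneg h0] at h3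
  linarith [le_abs_self (Real.exp (∑ x ∈ W, |g x - 1|) - 1)]

variable {Ω : Finset ℕ} {μ : ℕ → ℝ} {P : Finset ℕ} {Γ : Finset ι} {X : ℝ} {f : ℕ → ℝ} {E : ℝ}
  {Lvl : ℕ}

theorem HC.master (h : HC a b Ω μ P Γ X f E Lvl) (hP : ∀ p ∈ P, GoodP a b p) (hE : 0 ≤ E)
    (hX : 0 ≤ X) (hμ : ∀ n ∈ Ω, 0 ≤ μ n) {P1 : Finset ℕ} (hP1 : P1 ⊆ P) {D1 : ℕ} {κ ε : ℝ}
    (s : SieveW P1 D1 κ ε) (hε : 0 ≤ ε)
    (hg : ∀ p ∈ P1, 0 ≤ ee Γ f univ p ∧ ee Γ f univ p ≤ κ / p ∧ ee Γ f univ p ≤ 3 / 4)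
    {θ : ℕ → ℝ} (hθ : ∀ n, ∏ p ∈ P1, (1 - ev a b univ p n) ≤ θ n ∧
      θ n ≤ s.U (fun p => ev a b univ p n))
    {w R Y : ℕ} (hw : 3 ≤ w) (hP1w : ∀ p ∈ P1, p ≤ w) (hP2 : PP w Y ⊆ P) (hRY : R ≤ Y)
    {I I2 : Finset ι} (hI : Disjoint Γ I) (hI2 : Γ ⊆ I2 ∨ Disjoint Γ I2) (hII : Disjoint I I2)
    (hf : ∀ p ∈ PP w Y, |f p - 1| ≤ 3 / p)
    (he2 : ∀ p ∈ PP w Y, 0 ≤ ee Γ f I2 p ∧ ee Γ f I2 p ≤ 4 / p)
    {c : Finset ℕ → ℝ} {D2 : ℕ} (hc : ∀ T, |c T| ≤ 1)
    (hcs : ∀ T ⊆ PP w Y, c T ≠ 0 → ∏ p ∈ T, p ≤ D2)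
    {y : Finset (ℕ × ι) → ℝ} {Yb : ℝ} {Z e : ℕ} (hy : ∀ U ⊆ AA w R I, |y U| ≤ Yb)
    (hyZ : ∀ U ⊆ AA w R I, y U ≠ 0 → dd Prod.fst U ≤ Z) (hZ : Z ^ 2 ≤ w ^ e) (hew : 3 * e ≤ w)
    (hL : D1 * (Z ^ 2 * D2) ≤ Lvl) :
    |∑ n ∈ Ω, μ n * θ n * th2 (PP w Y) c (fun p => ev a b I2 p n) *
        FF Prod.fst (AA w R I) y (BB a b n) ^ 2 -
      X * (∏ p ∈ P1, (1 - ee Γ f univ p)) * th2 (PP w Y) c (ee Γ f I2) *
        diag Prod.fst (AA w R I) y| ≤
      Yb ^ 2 * (Th w R ^ I.card) ^ 5 *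
        (X * (∏ p ∈ P1, (1 - ee Γ f univ p)) * Th w Y ^ 4 *
          (3 * ε + 10 * e / w + 20 * (I.card : ℝ) ^ 2 / w) +
          D2 * (D1 * (E * (Lvl : ℝ) ^ 2)) * Z ^ 2) := by
  classical
  set V1 := ∏ p ∈ P1, (1 - ee Γ f univ p) with hV1
  have hV0 : 0 ≤ V1 := prod_nonneg fun p hp => by linarith [(hg p hp).2.2]
  have hw0 : (0 : ℝ) < w := by positivity
  have hw3 : (3 : ℝ) ≤ w := by exact_mod_cast hw
  have hRP : PP w R ⊆ PP w Y := fun p hp => by
    have := mem_PP.1 hp; exact mem_PP.2 ⟨this.1, by omega, this.2.2⟩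
  have hpw : ∀ p ∈ PP w Y, (w : ℝ) ≤ p := fun p hp => by exact_mod_cast (mem_PP.1 hp).1.le
  have hTh : ∏ p ∈ PP w Y, (1 + ee Γ f I2 p) ≤ Th w Y ^ 4 :=
    prod_one_add_le_Th w Y 4 fun p hp => by simpa using he2 p hp
  rw [sum_mul_FF_sq Ω _ _ _ (fun n x => BB_01 n x), ← TT_AA]
  refine quad_err' AA_two hy hyZ
    (fun W => ∑ n ∈ Ω, μ n * θ n * th2 (PP w Y) c (fun p => ev a b I2 p n) * ∏ x ∈ W, BB a b n x)
    (badW 0) (ε := 3 * ε + 10 * e / w) (by have := one_le_Th w Y; positivity) (by positivity)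
    (by positivity) (bad_sum_le (by omega) I 0) fun W hW hd => ?_
  have hWtwo : ∀ x ∈ W, x.1 ∈ PP w Y := fun x hx => hRP (mem_product.1 (hW hx)).1
  have hdd0 : (0 : ℝ) < dd Prod.fst W := by exact_mod_cast dd_pos fun x hx => AA_two x (hW hx)
  set M0 := X * V1 / dd Prod.fst W with hM0
  have hM00 : 0 ≤ M0 := by positivity
  have hΘ : |th2 (PP w Y) c (ee Γ f I2)| ≤ Th w Y ^ 4 := by
    refine le_trans ?_ hTh
    rw [prod_one_add]
    refine (abs_sum_le_sum_abs _ _).trans (sum_le_sum fun T hT => ?_)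
    have : 0 ≤ ∏ p ∈ T, ee Γ f I2 p := prod_nonneg fun p hp => (he2 p (mem_powerset.1 hT hp)).1
    rw [abs_mul, abs_of_nonneg this]
    exact mul_le_of_le_one_left this (hc T)
  have eM : X * V1 * th2 (PP w Y) c (ee Γ f I2) / dd Prod.fst W =
      M0 * th2 (PP w Y) c (ee Γ f I2) := by rw [hM0]; ring
  have eM' : X * V1 * Th w Y ^ 4 / dd Prod.fst W = M0 * Th w Y ^ 4 := by rw [hM0]; ring
  rw [eM, eM']
  have hE1 : 0 ≤ D1 * (E * (Lvl : ℝ) ^ 2) := by positivity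
  by_cases hb : badW 0 W
  · rw [if_pos hb]
    have hz : ∀ n, ∏ x ∈ W, BB a b n x = 0 := by
      intro n
      rcases hb with ⟨x, hx, x', hx', hne, he⟩ | ⟨x, hx, h0⟩
      · by_contra hc
        have h1 := prod_ne_zero_iff.1 hc x hx
        have h2 := prod_ne_zero_iff.1 hc x' hx'
        have h3 := (hP _ (hP2 (hWtwo x hx))).ev_mul (I := {x.2}) (J := {x'.2})
          (by simpa using fun h => hne (Prod.ext he h)) n
        unfold BB at h1 h2
        rw [← he] at h2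
        exact mul_ne_zero h1 h2 h3
      · have := (PP_prime (hWtwo x hx)).pos; omega
    simp only [hz, mul_zero, sum_const_zero, zero_sub, abs_neg]
    rw [abs_mul, abs_of_nonneg hM00]
    have h1 := mul_le_mul_of_nonneg_left hΘ hM00
    have h2 : 0 ≤ M0 * Th w Y ^ 4 * (3 * ε + 10 * e / w) := by
      have := one_le_Th w Y; positivity
    have h3 : 0 ≤ D2 * (D1 * (E * (Lvl : ℝ) ^ 2)) := by positivity
    linarith
  rw [if_neg hb, add_zero]
  have hinj : Set.InjOn Prod.fst (W : Set (ℕ × ι)) := fun x hx x' hx' he => by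
    by_contra hne; exact hb (Or.inl ⟨x, hx, x', hx', hne, he⟩)
  set PW := W.image Prod.fst with hPW
  have hPWs : PW ⊆ PP w Y := fun p hp => by
    obtain ⟨x, hx, rfl⟩ := mem_image.1 hp; exact hWtwo x hx
  have hcard : W.card ≤ e := card_le_of_dd (by omega) hW (hd.trans hZ)
  set σ : ℕ → Finset ι := fun p => (W.filter (fun x => x.1 = p)).image Prod.snd with hσ
  have hσ1 : ∀ x ∈ W, σ x.1 = {x.2} := by
    intro x hx
    ext l
    simp only [hσ, mem_image, mem_filter, mem_singleton]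
    constructor
    · rintro ⟨x', ⟨hx', he⟩, rfl⟩; rw [hinj hx' hx he]
    · rintro rfl; exact ⟨x, ⟨hx, rfl⟩, rfl⟩
  have hΓ1 : ∀ x ∈ W, Disjoint Γ {x.2} := fun x hx =>
    hI.mono_right (by simpa using (mem_product.1 (hW hx)).2)
  have hf0 : ∀ p ∈ PP w Y, 0 ≤ f p := fun p hp => by
    have h1 := (abs_le.1 (hf p hp)).1
    have h2 : 3 / (p : ℝ) ≤ 1 := by
      rw [div_le_one (by linarith [hpw p hp])]; linarith [hpw p hp]
    linarith
  set ρ := ∏ x ∈ W, f x.1 with hρ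
  have hρ1 : |ρ - 1| ≤ 6 * e / w := by
    have h1 : ∑ x ∈ W, |f x.1 - 1| ≤ 3 * e / w := by
      calc _ ≤ ∑ x ∈ W, 3 / (w : ℝ) := sum_le_sum fun x hx => (hf _ (hWtwo x hx)).trans
            (div_le_div_of_nonneg_left (by norm_num) hw0 (hpw _ (hWtwo x hx)))
        _ = W.card * (3 / w) := by simp
        _ ≤ e * (3 / w) := by gcongr
        _ = _ := by ring
    have h2 : 3 * (e : ℝ) / w ≤ 1 := by rw [div_le_one hw0]; exact_mod_cast hew
    have := abs_prod_sub_one_le h1 h2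
    calc _ ≤ 2 * (3 * (e : ℝ) / w) := this
      _ = _ := by ring
  have hρ3 : ρ ≤ 3 := by
    have h2 : 6 * (e : ℝ) / w ≤ 2 := by
      rw [div_le_iff₀ hw0]
      have : ((3 * e : ℕ) : ℝ) ≤ w := by exact_mod_cast hew
      push_cast at this; linarith
    linarith [(abs_le.1 hρ1).2]
  -- the estimate for one set `T`
  have key : ∀ T ⊆ PP w Y, ∏ p ∈ T, p ≤ D2 →
      |∑ n ∈ Ω, μ n * θ n * (∏ p ∈ T, ev a b I2 p n) * ∏ x ∈ W, BB a b n x -
        M0 * ∏ p ∈ T, ee Γ f I2 p| ≤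
      M0 * ((3 * ε + 6 * e / w) * ∏ p ∈ T, ee Γ f I2 p +
        ∑ q ∈ PW, if q ∈ T then ∏ p ∈ T, ee Γ f I2 p else 0) + D1 * (E * (Lvl : ℝ) ^ 2) := by
    intro T hT hTD
    have h0 : 0 ≤ ∏ p ∈ T, ee Γ f I2 p := prod_nonneg fun p hp => (he2 p (hT hp)).1
    have hs0 : ∀ q ∈ PW, 0 ≤ if q ∈ T then ∏ p ∈ T, ee Γ f I2 p else 0 := fun q _ => by
      split_ifs; exacts [h0, le_rfl]
    by_cases hdis : Disjoint PW T
    · have hsv := h.sieve1 hP hE hX hμ hP1 s hg hθ (T := PW ∪ T)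
        (union_subset (hPWs.trans hP2) (hT.trans hP2))
        (disjoint_left.2 fun p hp hp' => by
          have := hP1w p hp
          have := (mem_PP.1 (union_subset hPWs hT hp')).1; omega)
        (by
          refine le_trans (Nat.mul_le_mul_left _ ?_) hL
          rw [prod_union hdis, hPW, prod_image hinj]
          exact Nat.mul_le_mul hd hTD)
        (fun p => if p ∈ T then I2 else σ p)
        (fun p hp => by
          split_ifs with hpT
          · exact hI2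
          · obtain ⟨x, hx, rfl⟩ := mem_image.1 ((mem_union.1 hp).resolve_right hpT)
            rw [hσ1 x hx]; exact Or.inr (hΓ1 x hx))
        (fun p hp => by
          split_ifs with hpT
          · exact (he2 p (hT hpT)).1
          · obtain ⟨x, hx, rfl⟩ := mem_image.1 ((mem_union.1 hp).resolve_right hpT)
            rw [hσ1 x hx, ee, if_pos (hΓ1 x hx)]
            have := hf0 _ (hWtwo x hx); positivity)
      have e1 : ∀ (F : Finset ι → ℕ → ℝ), ∏ p ∈ PW ∪ T, F (if p ∈ T then I2 else σ p) p =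
          (∏ x ∈ W, F {x.2} x.1) * ∏ p ∈ T, F I2 p := by
        intro F
        rw [prod_union hdis, hPW, prod_image hinj]
        congr 1
        · refine prod_congr rfl fun x hx => ?_
          rw [if_neg (disjoint_left.1 hdis (mem_image_of_mem _ hx)), hσ1 x hx]
        · exact prod_congr rfl fun p hp => by rw [if_pos hp]
      rw [e1 (ee Γ f)] at hsv
      simp_rw [fun n => e1 (fun I p => ev a b I p n)] at hsv
      have e2 : ∏ x ∈ W, ee Γ f {x.2} x.1 = ρ / dd Prod.fst W := by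
        rw [hρ, dd, Nat.cast_prod, ← prod_div_distrib]
        refine prod_congr rfl fun x hx => ?_
        rw [ee, if_pos (hΓ1 x hx)]; simp
      rw [e2, ← hV1] at hsv
      have e3 : X * (ρ / dd Prod.fst W * ∏ p ∈ T, ee Γ f I2 p) * V1 =
          (M0 * ∏ p ∈ T, ee Γ f I2 p) * ρ := by rw [hM0]; ring
      have e4 : ∑ n ∈ Ω, μ n * θ n * (∏ p ∈ T, ev a b I2 p n) * ∏ x ∈ W, BB a b n x =
          ∑ n ∈ Ω, μ n * θ n * ((∏ x ∈ W, ev a b {x.2} x.1 n) * ∏ p ∈ T, ev a b I2 p n) :=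
        sum_congr rfl fun n _ => by unfold BB; ring
      rw [e3] at hsv
      rw [e4]
      set K := M0 * ∏ p ∈ T, ee Γ f I2 p with hK
      have hK0 : 0 ≤ K := mul_nonneg hM00 h0
      have h5 : |K * ρ - K| ≤ K * (6 * e / w) := by
        rw [← mul_sub_one, abs_mul, abs_of_nonneg hK0]
        exact mul_le_mul_of_nonneg_left hρ1 hK0
      have h6 : ε * (K * ρ) ≤ ε * (K * 3) := by gcongr
      have h7 := mul_nonneg hM00 (sum_nonneg hs0)
      have h8 := abs_sub_le (∑ n ∈ Ω, μ n * θ n *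
        ((∏ x ∈ W, ev a b {x.2} x.1 n) * ∏ p ∈ T, ev a b I2 p n)) (K * ρ) K
      rw [mul_add, mul_left_comm, ← hK]
      nlinarith
    · obtain ⟨q, hq, hqT⟩ := not_disjoint_iff.1 hdis
      obtain ⟨x, hx, rfl⟩ := mem_image.1 hq
      have hz : ∀ n, μ n * θ n * (∏ p ∈ T, ev a b I2 p n) * ∏ x ∈ W, BB a b n x = 0 := by
        intro n
        have h3 := (hP _ (hP2 (hWtwo x hx))).ev_mul (I := {x.2}) (J := I2)
          (hII.mono_left (by simpa using (mem_product.1 (hW hx)).2)) n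
        rcases mul_eq_zero.1 h3 with h4 | h4
        · rw [prod_eq_zero hx (f := fun x => BB a b n x) h4, mul_zero]
        · rw [prod_eq_zero hqT h4, mul_zero, zero_mul]
      simp only [hz, sum_const_zero, zero_sub, abs_neg]
      rw [abs_of_nonneg (mul_nonneg hM00 h0)]
      have h5 := single_le_sum hs0 hq
      rw [if_pos hqT] at h5
      have h6 : 0 ≤ (3 * ε + 6 * e / w) * ∏ p ∈ T, ee Γ f I2 p := by positivity
      have h7 := mul_le_mul_of_nonneg_left (h5.trans (le_add_of_nonneg_left h6)) hM00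
      linarith
  have e5 : ∑ n ∈ Ω, μ n * θ n * th2 (PP w Y) c (fun p => ev a b I2 p n) * ∏ x ∈ W, BB a b n x -
      M0 * th2 (PP w Y) c (ee Γ f I2) = ∑ T ∈ (PP w Y).powerset, c T *
        (∑ n ∈ Ω, μ n * θ n * (∏ p ∈ T, ev a b I2 p n) * ∏ x ∈ W, BB a b n x -
          M0 * ∏ p ∈ T, ee Γ f I2 p) := by
    unfold th2
    simp_rw [mul_sub, sum_sub_distrib, mul_sum, sum_mul]
    rw [sum_comm]
    congr 1
    · exact sum_congr rfl fun T _ => sum_congr rfl fun n _ => by ring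
    · exact sum_congr rfl fun T _ => by ring
  rw [e5]
  refine (abs_sum_le_sum_abs _ _).trans ?_
  calc _ ≤ ∑ T ∈ (PP w Y).powerset, (M0 * ((3 * ε + 6 * e / w) * ∏ p ∈ T, ee Γ f I2 p +
        ∑ q ∈ PW, if q ∈ T then ∏ p ∈ T, ee Γ f I2 p else 0) +
        if ∏ p ∈ T, p ≤ D2 then D1 * (E * (Lvl : ℝ) ^ 2) else 0) := by
        refine sum_le_sum fun T hT => ?_
        have hT' := mem_powerset.1 hT
        split_ifs with hTD
        · rw [abs_mul]
          exact (mul_le_of_le_one_left (abs_nonneg _) (hc T)).trans (key T hT' hTD)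
        · have : c T = 0 := by by_contra h2; exact hTD (hcs T hT' h2)
          rw [this, zero_mul, abs_zero, add_zero]
          have h0 : 0 ≤ ∏ p ∈ T, ee Γ f I2 p := prod_nonneg fun p hp => (he2 p (hT' hp)).1
          refine mul_nonneg hM00 (add_nonneg (by positivity) (sum_nonneg fun q _ => ?_))
          split_ifs; exacts [h0, le_rfl]
    _ ≤ _ := by
        rw [sum_add_distrib, ← mul_sum, sum_add_distrib, ← mul_sum, ← prod_one_add, sum_comm,
          ← sum_filter, sum_const, nsmul_eq_mul, mul_assoc M0]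
        refine add_le_add (mul_le_mul_of_nonneg_left ?_ hM00) (mul_le_mul_of_nonneg_right ?_ hE1)
        · have h1 : ∑ q ∈ PW, ∑ T ∈ (PP w Y).powerset, (if q ∈ T then ∏ p ∈ T, ee Γ f I2 p else 0) ≤
              e * (4 / w * Th w Y ^ 4) := by
            calc _ ≤ ∑ q ∈ PW, 4 / w * Th w Y ^ 4 := by
                  refine sum_le_sum fun q hq => (sum_mem_prod_le (fun p hp => (he2 p hp).1)
                    (hPWs hq)).trans (mul_le_mul ((he2 q (hPWs hq)).2.trans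
                      (div_le_div_of_nonneg_left (by norm_num) hw0 (hpw _ (hPWs hq)))) hTh
                      (prod_nonneg fun p hp => by linarith [(he2 p hp).1]) (by positivity))
              _ = PW.card * (4 / w * Th w Y ^ 4) := by simp
              _ ≤ _ := by
                  have := one_le_Th w Y
                  gcongr
                  exact card_image_le.trans hcard
          have h2 := mul_le_mul_of_nonneg_left hTh (show 0 ≤ 3 * ε + 6 * e / w by positivity)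
          calc _ ≤ (3 * ε + 6 * e / w) * Th w Y ^ 4 + e * (4 / w * Th w Y ^ 4) := add_le_add h2 h1
            _ = _ := by ring
        · exact_mod_cast card_level_le (fun p hp => PP_prime hp) D2

end Pool.Agent.P.MP_746f10_nt
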