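import Mathlib
import Pool.Agent.P.MP_746f10_nt.Master
import Pool.Agent.P.MP_746f10_nt.LSadd

/-! A mean square bound for sifted character sums with smooth weights. -/

set_option linter.unusedSectionVars false

namespace Pool.Agent.P.MP_746f10_nt

open Finset

/-- Indicator of divisibility. -/
noncomputable def dv (n p : ℕ) : ℝ := if p ∣ n then 1 else 0

open Classical in
/-- Indicator of rough numbers. -/
noncomputable def ri (y n : ℕ) : ℝ := if rough y n then 1 else 0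

lemma dv_bd (n p : ℕ) : 0 ≤ dv n p ∧ dv n p ≤ 1 := by unfold dv; split_ifs <;> norm_num

lemma ri_bd (y n : ℕ) : 0 ≤ ri y n ∧ ri y n ≤ 1 := by unfold ri; split_ifs <;> norm_num

lemma prod_dv {T : Finset ℕ} (hT : ∀ p ∈ T, p.Prime) (n : ℕ) :
    ∏ p ∈ T, dv n p = if (∏ p ∈ T, p) ∣ n then 1 else 0 := by
  unfold dv
  rw [prod_boole]
  congr 1
  exact propext ⟨fun h => Finset.prod_primes_dvd n (fun p hp => (hT p hp).prime) h,
    fun h p hp => (dvd_prod_of_mem (fun p => p) hp).trans h⟩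

lemma prod_one_sub_dv (y n : ℕ) : ∏ p ∈ PP 0 y, (1 - dv n p) = ri y n := by
  unfold ri dv
  split_ifs with h
  · exact prod_eq_one fun p hp => by
      rw [if_neg fun hd => absurd (h p (PP_prime hp) hd) (not_lt.2 (mem_PP.1 hp).2.1), sub_zero]
  · unfold rough at h
    push Not at h
    obtain ⟨p, h1, h2, h3⟩ := h
    exact prod_eq_zero (mem_PP.2 ⟨h1.pos, h3, h1⟩) (by rw [if_pos h2, sub_self])

lemma ri_anti {z y : ℕ} (h : z ≤ y) (n : ℕ) : ri y n ≤ ri z n := by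
  unfold ri
  split_ifs with h1 h2
  exacts [le_rfl, absurd (fun p hp hd => lt_of_le_of_lt h (h1 p hp hd)) h2, zero_le_one, le_rfl]

lemma ri_eq_zero {y n : ℕ} (h2 : 2 ≤ n) (h : n ≤ y) : ri y n = 0 := by
  unfold ri
  rw [if_neg fun h1 => ?_]
  have := h1 _ (Nat.minFac_prime (by omega)) (Nat.minFac_dvd n)
  have := Nat.minFac_le (show 0 < n by omega)
  omega

/-- Admissible weights `t n * i n / n`. -/
structure Wt (t i : ℕ → ℝ) : Prop where
  t0 : ∀ n, 0 ≤ t n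
  t1 : ∀ n, t n ≤ 1
  anti : ∀ n, 1 ≤ n → t (n + 1) ≤ t n
  i0 : ∀ n, 0 ≤ i n
  mono : ∀ m n, 1 ≤ m → m ≤ n → i m ≤ i n

lemma Wt.one : Wt (fun _ => 1) (fun _ => 1) :=
  ⟨fun _ => zero_le_one, fun _ => le_rfl, fun _ _ => le_rfl, fun _ => zero_le_one, fun _ _ _ _ => le_rfl⟩

lemma Wt.nonneg {t i : ℕ → ℝ} (h : Wt t i) (n : ℕ) : 0 ≤ t n * i n / n :=
  div_nonneg (mul_nonneg (h.t0 n) (h.i0 n)) (Nat.cast_nonneg n)

lemma Wt.abel {t i : ℕ → ℝ} (h : Wt t i) {E : Type*} [NormedAddCommGroup E] [NormedSpace ℝ E]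
    (g : ℕ → E) {A B : ℕ} (hA : 1 ≤ A) (hAB : A ≤ B) {K I : ℝ} (hI0 : 0 ≤ I)
    (hI : ∀ n ∈ Ico A B, i n ≤ I) (hK : ∀ x, A ≤ x → ‖∑ n ∈ Ico A x, g n‖ ≤ K) :
    ‖∑ n ∈ Ico A B, (t n * i n / n) • g n‖ ≤ 2 * K * I / A := by
  have hK0 : 0 ≤ K := (norm_nonneg _).trans (hK A le_rfl)
  have key : ∀ j : ℕ → ℝ, (∀ n, 0 ≤ j n) → (∀ n, j n ≤ I) → (∀ n, 1 ≤ n → j (n + 1) ≤ j n) →
      ‖∑ n ∈ Ico A B, (t n * j n / n) • g n‖ ≤ K * I / A := by
    intro j j0 j1 j2
    refine (abel_le g (fun n => t n * j n / n) A B K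
      (fun n _ => div_nonneg (mul_nonneg (h.t0 n) (j0 n)) (Nat.cast_nonneg n)) (fun n hn => ?_)
      (fun x h1 _ => hK x h1) hAB).trans ?_
    · have : (1 : ℝ) ≤ n := by exact_mod_cast hA.trans hn
      have := h.t0 n; have := j0 (n + 1); have := j0 n
      push_cast
      gcongr
      exacts [h.anti n (by omega), j2 n (by omega), by linarith]
    · rw [mul_div_assoc K]
      exact mul_le_mul_of_nonneg_left (div_le_div_of_nonneg_right
        ((mul_le_of_le_one_left (j0 A) (h.t1 A)).trans (j1 A)) (Nat.cast_nonneg A)) hK0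
  have e : ∑ n ∈ Ico A B, (t n * i n / n) • g n = ∑ n ∈ Ico A B, (t n * I / n) • g n -
      ∑ n ∈ Ico A B, (t n * max (I - i n) 0 / n) • g n := by
    rw [← sum_sub_distrib]
    refine sum_congr rfl fun n hn => ?_
    rw [← sub_smul, max_eq_left (by linarith [hI n hn])]; congr 1; ring
  rw [e]
  have h1 := key (fun _ => I) (fun _ => hI0) (fun _ => le_rfl) fun _ _ => le_rfl
  have h2 := key (fun n => max (I - i n) 0) (fun _ => le_max_right _ _)
    (fun n => max_le (by linarith [h.i0 n]) hI0) fun n hn =>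
      max_le_max (by linarith [h.mono n (n + 1) hn (by omega)]) le_rfl
  refine (norm_sub_le _ _).trans ?_
  calc _ ≤ K * I / A + K * I / A := add_le_add h1 h2
    _ = _ := by ring

lemma sum_Ico_dvd {M : Type*} [AddCommMonoid M] {d : ℕ} (hd : 0 < d) (A B : ℕ) (F : ℕ → M) :
    ∑ n ∈ Ico A B, (if d ∣ n then F n else 0) =
      ∑ m ∈ Ico ((A + d - 1) / d) ((B + d - 1) / d), F (d * m) := by
  rw [← sum_filter]
  symm
  have key : ∀ x m, (x + d - 1) / d ≤ m ↔ x ≤ d * m := fun x m => by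
    rw [Nat.div_le_iff_le_mul_add_pred hd]; omega
  refine sum_nbij (fun m => d * m) (fun m hm => ?_) (fun m _ m' _ h => Nat.eq_of_mul_eq_mul_left hd h)
    (fun n hn => ?_) fun _ _ => rfl
  · simp only [mem_filter, mem_Ico] at hm ⊢
    exact ⟨⟨(key A m).1 hm.1, lt_of_not_ge fun h => absurd ((key B m).2 h) (not_le.2 hm.2)⟩,
      dvd_mul_right _ _⟩
  · simp only [coe_filter, mem_Ico, Set.mem_ofPred_eq] at hn
    obtain ⟨⟨h1, h2⟩, m, rfl⟩ := hn
    exact ⟨m, by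
      simp only [coe_Ico, Set.mem_Ico]
      exact ⟨(key A m).2 h1, lt_of_not_ge fun h => absurd ((key B m).1 h) (not_le.2 h2)⟩, rfl⟩

lemma rem_le_norm {P : Finset ℕ} (hP : ∀ p ∈ P, p.Prime) {D : ℕ} {c : Finset ℕ → ℝ}
    {e : Finset ℕ → ℂ} {R : ℝ} (hc : ∀ T, |c T| ≤ 1) (hs : ∀ T ⊆ P, c T ≠ 0 → ∏ p ∈ T, p ≤ D)
    (hR : 0 ≤ R) (he : ∀ T ⊆ P, ‖e T‖ ≤ R) : ‖∑ T ∈ P.powerset, c T * e T‖ ≤ D * R := by
  refine (norm_sum_le _ _).trans (le_trans (le_of_eq ?_) ((le_abs_self _).trans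
    (rem_le hP (c := fun T => |c T|) (e := fun T => ‖e T‖) (by simpa using hc)
      (fun T hT h => hs T hT (by simpa using h)) hR fun T hT _ => by simpa using he T hT)))
  simp

/-- A multiplicative function with bounded sums over intervals. -/
structure Osc (K : ℝ) (ψ : ℕ → ℂ) : Prop where
  mul : ∀ m n, ψ (m * n) = ψ m * ψ n
  le : ∀ n, ‖ψ n‖ ≤ 1
  sum : ∀ A B, ‖∑ n ∈ Ico A B, ψ n‖ ≤ K

section block

variable {P : Finset ℕ} (hP : ∀ p ∈ P, p.Prime) {D : ℕ} {c : Finset ℕ → ℝ} (hc : ∀ T, |c T| ≤ 1)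
  (hs : ∀ T ⊆ P, c T ≠ 0 → ∏ p ∈ T, p ≤ D) {A B : ℕ} (hA : 1 ≤ A) (hAB : A ≤ B)
  {t i : ℕ → ℝ} (h : Wt t i) {I : ℝ} (hI0 : 0 ≤ I) (hI : ∀ n ∈ Ico A B, i n ≤ I)
include hP hc hs hA hAB h hI0 hI

lemma blk_osc {K : ℝ} {ψ : ℕ → ℂ} (hψ : Osc K ψ) :
    ‖∑ n ∈ Ico A B, ((t n * i n / n * th2 P c (dv n) : ℝ) : ℂ) * ψ n‖ ≤ D * (2 * K * I / A) := by
  have hK : 0 ≤ K := (norm_nonneg _).trans (hψ.sum 0 0)
  have e : ∑ n ∈ Ico A B, ((t n * i n / n * th2 P c (dv n) : ℝ) : ℂ) * ψ n =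
      ∑ T ∈ P.powerset, c T * ∑ n ∈ Ico A B, (t n * i n / n) •
        (if (∏ p ∈ T, p) ∣ n then ψ n else 0) := by
    simp_rw [th2, mul_sum, Complex.ofReal_sum, sum_mul]
    rw [sum_comm]
    refine sum_congr rfl fun T hT => sum_congr rfl fun n _ => ?_
    rw [prod_dv fun p hp => hP p (mem_powerset.1 hT hp), Complex.real_smul]
    split_ifs <;> push_cast <;> ring
  rw [e]
  refine rem_le_norm hP hc hs (by positivity) fun T hT => h.abel _ hA hAB hI0 hI fun x _ => ?_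
  rw [sum_Ico_dvd (prod_pos fun p hp => (hP p (hT hp)).pos)]
  simp_rw [hψ.mul, ← mul_sum, norm_mul]
  exact (mul_le_of_le_one_left (norm_nonneg _) (hψ.le _)).trans (hψ.sum _ _)

lemma blk_one : |∑ n ∈ Ico A B, t n * i n / n * th2 P c (dv n) -
    (∑ n ∈ Ico A B, t n * i n / n) * th2 P c (fun p => 1 / p)| ≤ D * (2 * I / A) := by
  have e : ∑ n ∈ Ico A B, t n * i n / n * th2 P c (dv n) -
      (∑ n ∈ Ico A B, t n * i n / n) * th2 P c (fun p => 1 / p) =
      ∑ T ∈ P.powerset, c T * ∑ n ∈ Ico A B, (t n * i n / n) •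
        ((if 0 ≡ n [MOD ∏ p ∈ T, p] then (1 : ℝ) else 0) - 1 / (∏ p ∈ T, p : ℕ)) := by
    rw [sum_mul, ← sum_sub_distrib]
    simp_rw [th2, mul_sum, ← sum_sub_distrib]
    rw [sum_comm]
    refine sum_congr rfl fun T hT => sum_congr rfl fun n _ => ?_
    rw [prod_dv fun p hp => hP p (mem_powerset.1 hT hp), smul_eq_mul, prod_div_distrib,
      prod_const_one, Nat.cast_prod]
    simp only [Nat.ModEq.comm (a := 0), Nat.modEq_zero_iff_dvd]
    ring
  rw [e]
  refine rem_le hP hc hs (by positivity) fun T hT _ => ?_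
  have := h.abel (fun n => (if 0 ≡ n [MOD ∏ p ∈ T, p] then (1 : ℝ) else 0) - 1 / (∏ p ∈ T, p : ℕ))
    hA hAB hI0 hI (K := 1) fun x hx => by
      have := count_class (prod_pos fun p hp => (hP p (hT hp)).pos : 0 < ∏ p ∈ T, p) 0 hx
      rw [sum_sub_distrib, sum_const, Nat.card_Ico, nsmul_eq_mul, Nat.cast_sub hx, mul_one_div]
      simpa only [Nat.ModEq.comm (a := 0), Real.norm_eq_abs] using this
  rwa [mul_one] at this

lemma blk_dual {X : Type*} (S : Finset X) (φ : X → ℕ → ℂ) {K : ℝ} (hK : (S.card : ℝ) ≤ K)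
    (h1 : ∀ x ∈ S, ∀ n, ‖φ x n‖ ≤ 1)
    (h2 : ∀ x ∈ S, ∀ x' ∈ S, x ≠ x' → Osc K (fun n => φ x n * (starRingEnd ℂ) (φ x' n)))
    {δ : ℕ → ℝ} (hδ : ∀ n, 0 ≤ δ n ∧ δ n ≤ th2 P c (dv n)) {ρ H : ℝ}
    (hρ : th2 P c (fun p => 1 / p) ≤ ρ) (hρ0 : 0 ≤ ρ) (hH : ∑ n ∈ Ico A B, 1 / (n : ℝ) ≤ H)
    (hK1 : 1 ≤ K) :
    ∑ x ∈ S, ‖∑ n ∈ Ico A B, ((t n * i n / n * δ n : ℝ) : ℂ) * φ x n‖ ^ 2 ≤
      ((ρ * H + 4 * D * K ^ 2 / A) * I) ^ 2 := by
  classical
  have hA' : (0 : ℝ) < A := by exact_mod_cast hA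
  have d0 : 0 ≤ ∑ n ∈ Ico A B, 1 / (n : ℝ) := sum_nonneg fun _ _ => by positivity
  have d1 : ∑ n ∈ Ico A B, th2 P c (dv n) / n ≤ ρ * H + 2 * D * K ^ 2 / A := by
    have := (abs_le.1 (blk_one hP hc hs hA hAB Wt.one zero_le_one fun _ _ => le_rfl)).2
    simp only [one_mul, one_div_mul_eq_div] at this
    have h3 : (∑ n ∈ Ico A B, 1 / (n : ℝ)) * th2 P c (fun p => 1 / p) ≤ H * ρ :=
      (mul_le_mul_of_nonneg_left hρ d0).trans (by gcongr)
    have h4 : (D : ℝ) * (2 * 1 / A) ≤ 2 * D * K ^ 2 / A := by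
      rw [← mul_div_assoc]
      exact div_le_div_of_nonneg_right (by
        nlinarith [(Nat.cast_nonneg D : (0 : ℝ) ≤ D), one_le_pow₀ hK1 (n := 2)]) hA'.le
    linarith
  have hθ : ∀ n, 0 ≤ th2 P c (dv n) / n := fun n =>
    div_nonneg ((hδ n).1.trans (hδ n).2) (Nat.cast_nonneg n)
  have hρH : 0 ≤ ρ * H := mul_nonneg hρ0 (d0.trans hH)
  have := dual_ls S (Ico A B) φ (fun n => ((t n * i n : ℝ) : ℂ)) (δ := fun n => δ n / n)
    (θ := fun n => th2 P c (dv n) / n) (fun n _ => div_nonneg (hδ n).1 (Nat.cast_nonneg n))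
    (fun n _ => by gcongr; exact (hδ n).2) (Δ := ρ * H + 4 * D * K ^ 2 / A) (by positivity)
    (fun x hx => by
      rw [← add_sum_erase _ _ hx]
      have a1 : ‖∑ n ∈ Ico A B, ((th2 P c (dv n) / n : ℝ) : ℂ) * (φ x n * (starRingEnd ℂ) (φ x n))‖ ≤
          ∑ n ∈ Ico A B, th2 P c (dv n) / n := by
        refine (norm_sum_le _ _).trans (sum_le_sum fun n _ => ?_)
        rw [norm_mul, norm_mul, Complex.norm_real, Real.norm_of_nonneg (hθ n), Complex.norm_conj]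
        exact mul_le_of_le_one_right (hθ n) (mul_le_one₀ (h1 x hx n) (norm_nonneg _) (h1 x hx n))
      have a2 : ∑ x' ∈ S.erase x, ‖∑ n ∈ Ico A B, ((th2 P c (dv n) / n : ℝ) : ℂ) *
          (φ x n * (starRingEnd ℂ) (φ x' n))‖ ≤ K * (D * (2 * K * 1 / A)) := by
        refine (sum_le_card_nsmul _ _ (D * (2 * K * 1 / A)) fun x' hx' => ?_).trans ?_
        · have := blk_osc hP hc hs hA hAB Wt.one zero_le_one (fun _ _ => le_rfl)
            (h2 x hx x' (mem_of_mem_erase hx') (ne_of_mem_erase hx').symm)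
          simpa only [one_mul, one_div_mul_eq_div] using this
        · rw [nsmul_eq_mul]
          gcongr
          exact le_trans (by exact_mod_cast card_erase_le) hK
      have : K * (D * (2 * K * 1 / A)) = 2 * D * K ^ 2 / A := by ring
      have : 4 * D * K ^ 2 / A = 2 * (2 * D * K ^ 2 / A) := by ring
      linarith)
  refine le_trans (le_of_eq (sum_congr rfl fun x _ => ?_)) (this.trans ?_)
  · congr 2
    exact sum_congr rfl fun n _ => by push_cast; ring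
  · have b1 : ∑ n ∈ Ico A B, δ n / n * ‖((t n * i n : ℝ) : ℂ)‖ ^ 2 ≤
        (ρ * H + 4 * D * K ^ 2 / A) * I ^ 2 := by
      calc _ ≤ ∑ n ∈ Ico A B, th2 P c (dv n) / n * I ^ 2 := by
            refine sum_le_sum fun n hn => mul_le_mul (by gcongr; exact (hδ n).2) ?_ (by positivity) (hθ n)
            rw [Complex.norm_real, Real.norm_of_nonneg (mul_nonneg (h.t0 n) (h.i0 n))]
            have := mul_nonneg (h.t0 n) (h.i0 n)
            gcongr
            exact (mul_le_of_le_one_left (h.i0 n) (h.t1 n)).trans (hI n hn)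
        _ ≤ _ := by
            rw [← sum_mul]
            gcongr
            refine d1.trans ?_
            gcongr; norm_num
    calc _ ≤ (ρ * H + 4 * D * K ^ 2 / A) * ((ρ * H + 4 * D * K ^ 2 / A) * I ^ 2) := by gcongr
      _ = _ := by ring

end block

lemma mink {X Y : Type*} (S : Finset X) (M : Finset Y) (z : X → Y → ℂ) {β : Y → ℝ}
    (hβ : ∀ m ∈ M, 0 < β m) (h : ∀ m ∈ M, ∑ x ∈ S, ‖z x m‖ ^ 2 ≤ β m ^ 2) :
    ∑ x ∈ S, ‖∑ m ∈ M, z x m‖ ^ 2 ≤ (∑ m ∈ M, β m) ^ 2 := by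
  rcases M.eq_empty_or_nonempty with rfl | hM
  · simp
  have hp := sum_pos hβ hM
  calc _ ≤ ∑ x ∈ S, (∑ m ∈ M, β m) * ∑ m ∈ M, ‖z x m‖ ^ 2 / β m := by
        refine sum_le_sum fun x _ => ?_
        rw [← div_le_iff₀' hp]
        exact le_trans (by gcongr; exact norm_sum_le _ _) (sq_sum_div_le_sum_sq_div M _ hβ)
    _ ≤ (∑ m ∈ M, β m) * ∑ m ∈ M, β m := by
        rw [← mul_sum, sum_comm]
        gcongr with m hm
        rw [← sum_div, div_le_iff₀ (hβ m hm), ← sq]; exact h m hm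
    _ = _ := (sq _).symm

lemma sum_Ico_blocks {M : Type*} [AddCommMonoid M] {b : ℕ → ℕ} (hb : Monotone b) (f : ℕ → M) (m : ℕ) :
    ∑ n ∈ Ico (b 0) (b m), f n = ∑ j ∈ range m, ∑ n ∈ Ico (b j) (b (j + 1)), f n := by
  induction m with
  | zero => simp
  | succ m ih => rw [sum_range_succ, ← ih, sum_Ico_consecutive _ (hb (by omega)) (hb (by omega))]

lemma sum_Ico_inv_le {A : ℕ} (hA : 1 ≤ A) (B : ℕ) : ∑ n ∈ Ico A B, 1 / (n : ℝ) ≤ 1 + Real.log B := by
  refine le_trans ?_ (sum_inv_le_log B)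
  simp only [one_div]
  exact sum_le_sum_of_subset_of_nonneg (fun n hn => by
    have := mem_Ico.1 hn; exact mem_Ioc.2 ⟨by omega, by omega⟩) fun _ _ _ => by positivity

lemma inv_prime_bd {y : ℕ} : ∀ p ∈ PP 0 y, 0 ≤ 1 / (p : ℝ) ∧ 1 / (p : ℝ) ≤ 1 / p ∧ 1 / (p : ℝ) ≤ 3 / 4 :=
  fun p hp => ⟨by positivity, le_rfl, by
    have := PP_two hp
    rw [div_le_div_iff₀ (by linarith) (by norm_num)]; linarith⟩

/-- The mean square bound for sifted sums. -/
def LS2St (c : ℕ) (C : ℝ) : Prop := ∀ (z0 y : ℕ) (t i : ℕ → ℝ) (I0 : ℝ) (N : ℕ), 2 ≤ z0 →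
    y = z0 ^ c → Wt t i → 0 < I0 → (∀ n, y ≤ n → i n ≤ I0 * (Real.log n / Real.log y) ^ 2) →
    |∑ n ∈ Ico 2 N, t n * i n / n * (ri y n - VV y)| ≤ C * I0 ∧
    ∀ {X : Type} (S : Finset X) (φ : X → ℕ → ℂ), (S.card : ℝ) ≤ z0 → (∀ x ∈ S, Osc z0 (φ x)) →
      (∀ x ∈ S, ∀ x' ∈ S, x ≠ x' → Osc z0 (fun n => φ x n * (starRingEnd ℂ) (φ x' n))) →
      ∑ x ∈ S, ‖∑ n ∈ Ico 2 N, ((t n * i n / n * ri y n : ℝ) : ℂ) * φ x n‖ ^ 2 ≤ (C * I0) ^ 2

theorem ls2 : ∃ (c : ℕ) (C : ℝ), 1 ≤ c ∧ 1 ≤ C ∧ LS2St c C := by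
  obtain ⟨k0, hk0⟩ := exists_sieve 1 zero_le_one
  obtain ⟨c, hc⟩ : ∃ c, c = 4 * k0 + 8 := ⟨_, rfl⟩
  have hsum : Summable fun j : ℕ => ((j : ℝ) + 1) ^ 3 * (1 / 2) ^ j := by
    have := (summable_nat_add_iff 1).2
      (summable_pow_mul_geometric_of_norm_lt_one 3 (r := (1 / 2 : ℝ)) (by norm_num))
    refine (this.mul_left 2).congr fun j => ?_
    push_cast; ring
  obtain ⟨C1, hC1⟩ : ∃ C1 : ℝ, C1 = ∑' j : ℕ, ((j : ℝ) + 1) ^ 3 * (1 / 2) ^ j := ⟨_, rfl⟩
  have hC10 : 0 ≤ C1 := hC1 ▸ tsum_nonneg fun _ => by positivity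
  have hc' : (8 : ℝ) ≤ c := by exact_mod_cast (by omega : 8 ≤ c)
  refine ⟨c, 2 + 8 * c * (c + 5) ^ 3 * C1, by omega, by
    have : 0 ≤ 8 * c * ((c : ℝ) + 5) ^ 3 * C1 := by positivity
    linarith, ?_⟩
  intro z0 y t0 i I0 N hz0 hy h0 hI0 hi
  have hzy : z0 ≤ y := hy ▸ Nat.le_self_pow (by omega) z0
  have hy2 : 2 ≤ y := hz0.trans hzy
  have hy' : (2 : ℝ) ≤ y := by exact_mod_cast hy2
  have hz' : (2 : ℝ) ≤ z0 := by exact_mod_cast hz0
  have hzy' : (z0 : ℝ) ≤ y := by exact_mod_cast hzy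
  have hl : 0 < Real.log y := Real.log_pos (by linarith)
  set t : ℕ → ℝ := fun n => if n < N then t0 n else 0 with ht
  have h : Wt t i := ⟨fun n => by simp only [ht]; split_ifs; exacts [h0.t0 n, le_rfl],
    fun n => by simp only [ht]; split_ifs; exacts [h0.t1 n, zero_le_one],
    fun n hn => by
      simp only [ht]; split_ifs
      exacts [h0.anti n hn, by omega, h0.t0 n, le_rfl], h0.i0, h0.mono⟩
  set b : ℕ → ℕ := fun j => if j = 0 then y else y ^ (c + 5 * (j - 1)) with hb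
  have hb1 : ∀ j, b (j + 1) = y ^ (c + 5 * j) := fun j => by simp [hb]
  have hb0 : b 0 = y := by simp [hb]
  have hbm : Monotone b := monotone_nat_of_le_succ fun j => by
    rcases j with _ | j
    · rw [hb0, hb1]; exact Nat.le_self_pow (by omega) y
    · rw [hb1, hb1]; exact Nat.pow_le_pow_right (by omega) (by omega)
  have hby : ∀ j, y ≤ b j := fun j => hb0 ▸ hbm (Nat.zero_le j)
  have hNb : N ≤ b (N + 1) := by
    rw [hb1]
    exact (Nat.lt_pow_self (show 1 < y by omega)).le.trans (Nat.pow_le_pow_right (by omega) (by omega))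
  have trunc : ∀ {E : Type} [AddCommMonoid E] (F : ℝ → ℕ → E), (∀ n, F 0 n = 0) →
      ∑ n ∈ Ico 2 N, F (t0 n) n = ∑ n ∈ Ico 2 y, F (t n) n +
        ∑ j ∈ range (N + 1), ∑ n ∈ Ico (b j) (b (j + 1)), F (t n) n := by
    intro E _ F hF
    rw [← sum_Ico_blocks hbm, hb0, sum_Ico_consecutive _ hy2 (hby _),
      ← sum_subset (Ico_subset_Ico_right hNb) fun n h1 h2 => by
        simp only [mem_Ico] at h1 h2
        simp only [ht]; rw [if_neg (by omega), hF]]
    exact sum_congr rfl fun n hn => by simp only [ht]; rw [if_pos (mem_Ico.1 hn).2]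
  set β : ℕ → ℝ := fun j => 8 * c * (c + 5) ^ 3 * (((j : ℝ) + 1) ^ 3 * (1 / 2) ^ j) * I0 with hβ
  have hβs : ∑ j ∈ range (N + 1), β j ≤ 8 * c * (c + 5) ^ 3 * C1 * I0 := by
    rw [hβ, ← sum_mul, ← mul_sum, hC1]
    gcongr
    exact hsum.sum_le_tsum _ fun _ _ => by positivity
  have hI : ∀ j, ∀ n ∈ Ico (b j) (b (j + 1)), i n ≤ I0 * ((c + 5 * j : ℕ) : ℝ) ^ 2 := by
    intro j n hn
    have h1 := mem_Ico.1 hn
    have h2 := hby j
    refine (hi n (by omega)).trans ?_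
    have h3 : 0 ≤ Real.log n := Real.log_natCast_nonneg n
    gcongr
    rw [div_le_iff₀ hl, ← Real.log_pow]
    exact Real.log_le_log (by exact_mod_cast (by omega : 0 < n)) (by exact_mod_cast (hb1 j ▸ h1.2).le)
  have hH : ∀ j, ∑ n ∈ Ico (b j) (b (j + 1)), 1 / (n : ℝ) ≤ 1 + (c + 5 * j : ℕ) * Real.log y := by
    intro j
    refine (sum_Ico_inv_le (by have := hby j; omega) _).trans ?_
    rw [hb1, Nat.cast_pow, Real.log_pow]
  have hω : ∀ {A B : ℕ} {I H : ℝ}, 0 ≤ I → (∀ n ∈ Ico A B, i n ≤ I) → ∑ n ∈ Ico A B, 1 / (n : ℝ) ≤ H →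
      ∑ n ∈ Ico A B, t n * i n / n ≤ H * I := by
    intro A B I H h1 h2 h3
    refine le_trans (sum_le_sum fun n hn => ?_) ((sum_mul _ _ _).symm.le.trans
      (mul_le_mul_of_nonneg_right h3 h1))
    rw [one_div_mul_eq_div]
    exact div_le_div_of_nonneg_right ((mul_le_of_le_one_left (h.i0 n) (h.t1 n)).trans (h2 n hn))
      (Nat.cast_nonneg n)
  have hV := VV_pos y
  have hV1 := VV_le_one y
  have hVl := VV_mul_log_le' y
  have key : ∀ j, |∑ n ∈ Ico (b j) (b (j + 1)), t n * i n / n * (ri y n - VV y)| ≤ β j ∧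
      ∀ {X : Type} (S : Finset X) (φ : X → ℕ → ℂ), (S.card : ℝ) ≤ z0 → (∀ x ∈ S, Osc z0 (φ x)) →
      (∀ x ∈ S, ∀ x' ∈ S, x ≠ x' → Osc z0 (fun n => φ x n * (starRingEnd ℂ) (φ x' n))) →
      ∑ x ∈ S, ‖∑ n ∈ Ico (b j) (b (j + 1)), ((t n * i n / n * ri y n : ℝ) : ℂ) * φ x n‖ ^ 2 ≤
        β j ^ 2 := by
    intro j
    have hA : 1 ≤ b j := by have := hby j; omega
    have hAB : b j ≤ b (j + 1) := hbm (by omega)
    have hIj := hI j
    have hHj := hH j
    set E : ℝ := ((c + 5 * j : ℕ) : ℝ) with hE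
    set I := I0 * E ^ 2 with hI'
    have hE8 : 8 ≤ E := by rw [hE]; exact_mod_cast (by omega : 8 ≤ c + 5 * j)
    have hI0' : 0 ≤ I := by positivity
    have hw := hω hI0' hIj hHj
    set W := ∑ n ∈ Ico (b j) (b (j + 1)), t n * i n / n with hW
    have hW0 : 0 ≤ W := sum_nonneg fun n _ => h.nonneg n
    have hVW : VV y * W ≤ (1 + E) * I := by
      calc _ ≤ VV y * ((1 + E * Real.log y) * I) := by gcongr
        _ = (VV y + E * (VV y * Real.log y)) * I := by ring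
        _ ≤ (1 + E * 1) * I := by gcongr
        _ = _ := by ring
    simp_rw [mul_sub, sum_sub_distrib, ← sum_mul]
    rw [← hW]
    rcases j with _ | m
    · obtain ⟨s⟩ := hk0 0 z0 (PP 0 z0) hz0 fun p hp => ⟨PP_prime hp, (mem_PP.1 hp).2.1⟩
      have hδ : ∀ n, 0 ≤ ri y n ∧ ri y n ≤ th2 (PP 0 z0) s.up (dv n) := fun n =>
        ⟨(ri_bd y n).1, (ri_anti hzy n).trans ((prod_one_sub_dv z0 n).symm.le.trans
          (s.le_up _ fun p _ => dv_bd n p))⟩
      have hρ : th2 (PP 0 z0) s.up (fun p => 1 / p) ≤ 2 * VV z0 :=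
        (s.up_le _ inv_prime_bd).trans (le_of_eq (by rw [VV]; norm_num))
      have hD : ((z0 ^ (4 * (k0 + 0) + 6) : ℕ) : ℝ) * z0 ^ 2 / (b 0 : ℕ) = 1 := by
        rw [hb0, hy, hc]; push_cast; field_simp; ring
      have hEc : E = c := by rw [hE]; simp
      have hρH : 2 * VV z0 * (1 + E * Real.log y) ≤ 2 * (1 + E * c) := by
        have e1 : Real.log y = c * Real.log z0 := by rw [hy]; push_cast; rw [Real.log_pow]
        calc _ = 2 * (VV z0 + E * c * (VV z0 * Real.log z0)) := by rw [e1]; ring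
          _ ≤ 2 * (1 + E * c * 1) := by gcongr; exacts [VV_le_one z0, VV_mul_log_le' z0]
          _ = _ := by ring
      have hβ0 : (6 + 4 * (E * c)) * I ≤ β 0 := by
        simp only [hβ, hI', hEc]
        calc _ = (6 + 4 * (c * c)) * c ^ 2 * I0 := by ring
          _ ≤ 8 * c * c ^ 3 * I0 := by 
              gcongr ?_ * _
              have := mul_le_mul hc' hc' (by norm_num) (by linarith only [hc'])
              nlinarith only [this, hc', mul_le_mul_of_nonneg_right this (sq_nonneg (c : ℝ))]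
          _ ≤ _ := by norm_num; gcongr; linarith
      refine ⟨?_, fun S φ hS h1 h2 => ?_⟩
      · have a1 := (abs_le.1 (blk_one (fun p hp => PP_prime hp) s.abs_up s.supp_up hA hAB h hI0' hIj)).2
        have a2 : ∑ n ∈ Ico (b 0) (b (0 + 1)), t n * i n / n * ri y n ≤
            ∑ n ∈ Ico (b 0) (b (0 + 1)), t n * i n / n * th2 (PP 0 z0) s.up (dv n) :=
          sum_le_sum fun n _ => mul_le_mul_of_nonneg_left (hδ n).2 (h.nonneg n)
        have a3 : 0 ≤ ∑ n ∈ Ico (b 0) (b (0 + 1)), t n * i n / n * ri y n :=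
          sum_nonneg fun n _ => mul_nonneg (h.nonneg n) (hδ n).1
        have a4 : W * th2 (PP 0 z0) s.up (fun p => 1 / p) ≤ 2 * (1 + E * c) * I := by
          have := VV_pos z0
          calc _ ≤ (1 + E * Real.log y) * I * (2 * VV z0) :=
                (mul_le_mul_of_nonneg_left hρ hW0).trans (by gcongr)
            _ = 2 * VV z0 * (1 + E * Real.log y) * I := by ring
            _ ≤ _ := by gcongr
        have a5 : ((z0 ^ (4 * (k0 + 0) + 6) : ℕ) : ℝ) * (2 * I / (b 0 : ℕ)) ≤ 2 * I := by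
          calc _ = 2 * I * (((z0 ^ (4 * (k0 + 0) + 6) : ℕ) : ℝ) * 1 / (b 0 : ℕ)) := by ring
            _ ≤ 2 * I * (((z0 ^ (4 * (k0 + 0) + 6) : ℕ) : ℝ) * z0 ^ 2 / (b 0 : ℕ)) := by
                gcongr; nlinarith only [hz']
            _ = _ := by rw [hD, mul_one]
        rw [← hW] at a1
        have a6 : E * I ≤ E * c * I := by gcongr; nlinarith only [hE8, hc']
        have a7 : 0 ≤ VV y * W := by positivity
        have a8 : 0 ≤ E * I := by positivity
        rw [abs_le]; constructor <;> linarith only [a1, a2, a3, a4, a5, a6, a7, a8, hVW, hβ0, hI0']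
      · refine (blk_dual (fun p hp => PP_prime hp) s.abs_up s.supp_up hA hAB h hI0' hIj S φ hS
          (fun x hx => (h1 x hx).le) h2 hδ hρ (by linarith [VV_pos z0]) hHj (by linarith)).trans ?_
        have := VV_pos z0
        refine pow_le_pow_left₀ (by positivity) (le_trans ?_ hβ0) 2
        rw [mul_assoc 4, mul_div_assoc 4, hD]
        have : 0 ≤ E * c := by positivity
        exact mul_le_mul_of_nonneg_right (by linarith only [this, hρH]) hI0'
    · obtain ⟨s⟩ := hk0 m y (PP 0 y) hy2 fun p hp => ⟨PP_prime hp, (mem_PP.1 hp).2.1⟩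
      set ε : ℝ := 1 / 2 ^ m with hε
      have hε0 : 0 < ε := by positivity
      set D := y ^ (4 * (k0 + m) + 6) with hDd
      have hD : (D : ℝ) * z0 ^ 2 / (b (m + 1) : ℕ) ≤ ε := by
        rw [hb1, hDd, hc, hε]; push_cast
        calc _ ≤ (y : ℝ) ^ (4 * (k0 + m) + 6) * y ^ 2 / y ^ (4 * k0 + 8 + 5 * m) := by gcongr
          _ = 1 / y ^ m := by field_simp; ring
          _ ≤ _ := by gcongr
      have hβ0 : 4 * (E + 5) * ε * I ≤ β (m + 1) := by
        have e1 : E + 5 ≤ (c + 5) * (((m + 1 : ℕ) : ℝ) + 1) := by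
          rw [hE]; push_cast; nlinarith only [(Nat.cast_nonneg m : (0 : ℝ) ≤ m), hc']
        simp only [hβ, hI', hε]
        calc _ = 8 * 1 * ((E + 5) * E ^ 2) * (1 / 2) ^ (m + 1) * I0 := by
              rw [one_div_pow, pow_succ 2 m]; field_simp; ring
          _ ≤ 8 * c * ((c + 5) * (((m + 1 : ℕ) : ℝ) + 1) * ((c + 5) * (((m + 1 : ℕ) : ℝ) + 1)) ^ 2) *
              (1 / 2) ^ (m + 1) * I0 := by gcongr <;> linarith
          _ = _ := by ring
      have hup : ∀ n, ri y n ≤ th2 (PP 0 y) s.up (dv n) := fun n =>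
        (prod_one_sub_dv y n).symm.le.trans (s.le_up _ fun p _ => dv_bd n p)
      have hlo : ∀ n, th2 (PP 0 y) s.lo (dv n) ≤ ri y n := fun n =>
        (s.lo_le _ fun p _ => dv_bd n p).trans (prod_one_sub_dv y n).le
      have m1 : th2 (PP 0 y) s.up (fun p => 1 / p) ≤ (1 + ε) * VV y := s.up_le _ inv_prime_bd
      have m2 : (1 - ε) * VV y ≤ th2 (PP 0 y) s.lo (fun p => 1 / p) := s.le_lo _ inv_prime_bd
      have a5 : ∀ K : ℝ, 0 ≤ K → K ≤ z0 ^ 2 → (D : ℝ) * (2 * K * I / (b (m + 1) : ℕ)) ≤ 2 * ε * I := by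
        intro K k0 k1
        calc _ = 2 * (D * K / (b (m + 1) : ℕ)) * I := by ring
          _ ≤ _ := by gcongr; exact le_trans (by gcongr) hD
      refine ⟨?_, fun S φ hS h1 h2 => ?_⟩
      · have a1 := (abs_le.1 (blk_one (fun p hp => PP_prime hp) s.abs_up s.supp_up hA hAB h hI0' hIj)).2
        have a2 := (abs_le.1 (blk_one (fun p hp => PP_prime hp) s.abs_lo s.supp_lo hA hAB h hI0' hIj)).1
        have a3 := sum_le_sum fun n (_ : n ∈ Ico (b (m + 1)) (b (m + 1 + 1))) =>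
          mul_le_mul_of_nonneg_left (hup n) (h.nonneg n)
        have a4 := sum_le_sum fun n (_ : n ∈ Ico (b (m + 1)) (b (m + 1 + 1))) =>
          mul_le_mul_of_nonneg_left (hlo n) (h.nonneg n)
        have a6 := a5 1 zero_le_one (by nlinarith only [hz'])
        rw [← hW] at a1 a2
        rw [mul_one] at a6
        have a7 := mul_le_mul_of_nonneg_left m1 hW0
        have a8 := mul_le_mul_of_nonneg_left m2 hW0
        have a9 := mul_le_mul_of_nonneg_left hVW hε0.le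
        have a10 : 0 ≤ E * ε * I := by positivity
        have a11 : 0 ≤ ε * I := by positivity
        rw [abs_le]; constructor <;> linarith
      · have e2 : ∀ x : ℕ → ℝ, th2 (PP 0 y) (fun T => (s.up T - s.lo T) / 2) x =
            (th2 (PP 0 y) s.up x - th2 (PP 0 y) s.lo x) / 2 := fun x => by
          unfold th2; rw [← sum_sub_distrib, sum_div]; exact sum_congr rfl fun T _ => by ring
        have b1 := blk_dual (c := fun T => (s.up T - s.lo T) / 2) (D := D) (fun p hp => PP_prime hp)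
          (fun T => by
            have := abs_le.1 (s.abs_up T); have := abs_le.1 (s.abs_lo T)
            rw [abs_le]; constructor <;> linarith)
          (fun T hT h3 => by
            by_contra h4
            have h5 : s.up T = 0 := by by_contra h5; exact h4 (s.supp_up T hT h5)
            have h6 : s.lo T = 0 := by by_contra h5; exact h4 (s.supp_lo T hT h5)
            simp [h5, h6] at h3) hA hAB h hI0' hIj S φ hS (fun x hx => (h1 x hx).le) h2
          (δ := fun n => (th2 (PP 0 y) s.up (dv n) - ri y n) / 2)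
          (fun n => by rw [e2]; constructor <;> linarith [hup n, hlo n]) (ρ := ε * VV y)
          (by rw [e2]; linarith) (by positivity) hHj (by linarith)
        have b2 : (ε * VV y * (1 + E * Real.log y) + 4 * D * z0 ^ 2 / (b (m + 1) : ℕ)) * I ≤
            (E + 5) * ε * I := by
          rw [mul_assoc 4, mul_div_assoc 4]
          calc _ = (ε * (VV y + E * (VV y * Real.log y)) + 4 * (D * z0 ^ 2 / (b (m + 1) : ℕ))) * I := by
                ring
            _ ≤ (ε * (1 + E * 1) + 4 * ε) * I := by gcongr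
            _ = _ := by ring
        have b3 := b1.trans (pow_le_pow_left₀ (by positivity) b2 2)
        have b4 : ∑ x ∈ S, ‖∑ n ∈ Ico (b (m + 1)) (b (m + 1 + 1)),
            ((t n * i n / n * th2 (PP 0 y) s.up (dv n) : ℝ) : ℂ) * φ x n‖ ^ 2 ≤ (2 * ε * I) ^ 2 := by
          refine (sum_le_card_nsmul _ _ _ fun x hx => pow_le_pow_left₀ (norm_nonneg _) (blk_osc
            (fun p hp => PP_prime hp) s.abs_up s.supp_up hA hAB h hI0' hIj (h1 x hx)) 2).trans ?_
          rw [nsmul_eq_mul]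
          calc _ ≤ (z0 : ℝ) ^ 2 * (D * (2 * z0 * I / (b (m + 1) : ℕ))) ^ 2 := by
                gcongr; nlinarith only [hS, hz']
            _ = (D * (2 * z0 ^ 2 * I / (b (m + 1) : ℕ))) ^ 2 := by ring
            _ ≤ _ := pow_le_pow_left₀ (by positivity) (a5 _ (by positivity) le_rfl) 2
        refine le_trans (sum_le_sum fun x _ => ?_ : _ ≤ ∑ x ∈ S, (2 * ‖∑ n ∈ Ico (b (m + 1)) (b (m + 1 + 1)),
            ((t n * i n / n * th2 (PP 0 y) s.up (dv n) : ℝ) : ℂ) * φ x n‖ ^ 2 +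
            8 * ‖∑ n ∈ Ico (b (m + 1)) (b (m + 1 + 1)), ((t n * i n / n *
              ((th2 (PP 0 y) s.up (dv n) - ri y n) / 2) : ℝ) : ℂ) * φ x n‖ ^ 2)) ?_
        · set z1 := ∑ n ∈ Ico (b (m + 1)) (b (m + 1 + 1)),
            ((t n * i n / n * th2 (PP 0 y) s.up (dv n) : ℝ) : ℂ) * φ x n with hz1
          set z2 := ∑ n ∈ Ico (b (m + 1)) (b (m + 1 + 1)), ((t n * i n / n *
              ((th2 (PP 0 y) s.up (dv n) - ri y n) / 2) : ℝ) : ℂ) * φ x n with hz2
          have e3 : ∑ n ∈ Ico (b (m + 1)) (b (m + 1 + 1)), ((t n * i n / n * ri y n : ℝ) : ℂ) * φ x n =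
              z1 - 2 * z2 := by
            rw [hz1, hz2, mul_sum, ← sum_sub_distrib]
            exact sum_congr rfl fun n _ => by push_cast; ring
          have e4 := norm_sub_le z1 (2 * z2)
          rw [norm_mul, Complex.norm_two] at e4
          rw [e3]
          nlinarith only [pow_le_pow_left₀ (norm_nonneg _) e4 2, sq_nonneg (‖z1‖ - 2 * ‖z2‖)]
        · rw [sum_add_distrib, ← mul_sum, ← mul_sum]
          refine le_trans ?_ (pow_le_pow_left₀ (by positivity) hβ0 2)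
          have : (2 * ε * I) ^ 2 ≤ ((E + 5) * ε * I) ^ 2 := by gcongr; linarith
          nlinarith only [sq_nonneg ((E + 5) * ε * I), this, b3, b4]
  refine ⟨?_, fun S φ hS h1 h2 => ?_⟩
  · rw [trunc (fun τ n => τ * i n / n * (ri y n - VV y)) (by simp)]
    refine (abs_add_le _ _).trans ?_
    have a1 := (abs_sum_le_sum_abs _ _).trans ((sum_le_sum fun j _ => (key j).1).trans hβs)
    have a2 : ∑ n ∈ Ico 2 y, t n * i n / n * (ri y n - VV y) = -(VV y * ∑ n ∈ Ico 2 y, t n * i n / n) := by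
      rw [mul_sum, ← sum_neg_distrib]
      exact sum_congr rfl fun n hn => by rw [ri_eq_zero (mem_Ico.1 hn).1 (mem_Ico.1 hn).2.le]; ring
    have a3 := hω hI0.le (fun n (hn : n ∈ Ico 2 y) => (h.mono n y (by have := mem_Ico.1 hn; omega)
      (mem_Ico.1 hn).2.le).trans ((hi y le_rfl).trans (by rw [div_self hl.ne']; simp)))
      (sum_Ico_inv_le one_le_two y)
    rw [a2, abs_neg, abs_of_nonneg (mul_nonneg hV.le (sum_nonneg fun n _ => h.nonneg n))]
    have a4 : VV y * ((1 + Real.log y) * I0) ≤ 2 * I0 := by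
      rw [← mul_assoc]; gcongr; linarith
    linarith [mul_le_mul_of_nonneg_left a3 hV.le]
  · have e1 : ∀ x, ∑ n ∈ Ico 2 N, ((t0 n * i n / n * ri y n : ℝ) : ℂ) * φ x n =
        ∑ j ∈ range (N + 1), ∑ n ∈ Ico (b j) (b (j + 1)), ((t n * i n / n * ri y n : ℝ) : ℂ) * φ x n := by
      intro x
      rw [trunc (fun τ n => ((τ * i n / n * ri y n : ℝ) : ℂ) * φ x n) (by simp), sum_eq_zero, zero_add]
      intro n hn
      rw [ri_eq_zero (mem_Ico.1 hn).1 (mem_Ico.1 hn).2.le]; simp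
    simp only [e1]
    have hβp : ∀ j, 0 < β j := fun j => by simp only [hβ]; positivity
    refine (mink S _ _ (fun j _ => hβp j) fun j _ => (key j).2 S φ hS h1 h2).trans
      (pow_le_pow_left₀ (sum_nonneg fun j _ => (hβp j).le) (hβs.trans ?_) 2)
    gcongr; linarith

end Pool.Agent.P.MP_746f10_nt
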