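import Mathlib
import Pool.Agent.P.MP_746f10_nt.LS2
import Pool.Agent.P.MP_746f10_nt.Gam

/-! Values of sifted Dirichlet series slightly to the right of one. -/

set_option linter.unusedSectionVars false

namespace Pool.Agent.P.MP_746f10_nt

open Finset Filter Topology

/-- The function `n ^ (-s)`. -/
noncomputable def pw (s : ℝ) (n : ℕ) : ℝ := Real.exp (-(s * Real.log n))

lemma pw_pos (s : ℝ) (n : ℕ) : 0 < pw s n := Real.exp_pos _

lemma pw_one (s : ℝ) : pw s 1 = 1 := by simp [pw]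

lemma pw_add (s s' : ℝ) (n : ℕ) : pw (s + s') n = pw s n * pw s' n := by
  unfold pw; rw [← Real.exp_add]; congr 1; ring

lemma pw_le_one {s : ℝ} (hs : 0 ≤ s) (n : ℕ) : pw s n ≤ 1 :=
  Real.exp_le_one_iff.2 (by have := Real.log_natCast_nonneg n; nlinarith)

lemma log_mono {m n : ℕ} (hm : 1 ≤ m) (h : m ≤ n) : Real.log m ≤ Real.log n :=
  Real.log_le_log (by exact_mod_cast hm) (by exact_mod_cast h)

lemma pw_anti {s : ℝ} (hs : 0 ≤ s) {m n : ℕ} (hm : 1 ≤ m) (h : m ≤ n) : pw s n ≤ pw s m :=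
  Real.exp_le_exp.2 (by nlinarith [log_mono hm h])

lemma pw_mul (s : ℝ) {m n : ℕ} (hm : m ≠ 0) (hn : n ≠ 0) : pw s (m * n) = pw s m * pw s n := by
  unfold pw
  rw [← Real.exp_add, Nat.cast_mul, Real.log_mul (by exact_mod_cast hm) (by exact_mod_cast hn)]
  congr 1; ring

lemma one_sub_pw_le (s : ℝ) (n : ℕ) : 1 - pw s n ≤ s * Real.log n := by
  linarith [Real.add_one_le_exp (-(s * Real.log n)), show pw s n = Real.exp (-(s * Real.log n)) from rfl]

lemma Wt.pw {h : ℝ} (hh : 0 ≤ h) {i : ℕ → ℝ} (i0 : ∀ n, 0 ≤ i n)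
    (im : ∀ m n, 1 ≤ m → m ≤ n → i m ≤ i n) : Wt (pw h) i :=
  ⟨fun n => (pw_pos h n).le, pw_le_one hh, fun _ hn => pw_anti hh hn (by omega), i0, im⟩

lemma summable_pw {h : ℝ} (hh : 0 < h) : Summable fun n : ℕ => pw h n / n := by
  refine (Real.summable_one_div_nat_rpow.2 (show 1 < 1 + h by linarith)).congr fun n => ?_
  rcases eq_or_ne n 0 with rfl | hn
  · simp [Real.zero_rpow (show 1 + h ≠ 0 by linarith)]
  · have : (0 : ℝ) < n := by exact_mod_cast Nat.pos_of_ne_zero hn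
    rw [Real.rpow_add this, Real.rpow_one, Real.rpow_def_of_pos this, pw, Real.exp_neg, mul_comm h]
    field_simp

lemma pw_log_le {h : ℝ} (hh : 0 < h) (n : ℕ) : pw h n * Real.log n / n ≤ 2 / h * (pw (h / 2) n / n) := by
  rw [← mul_div_assoc]
  refine div_le_div_of_nonneg_right ?_ (Nat.cast_nonneg n)
  have h1 := Real.add_one_le_exp (h / 2 * Real.log n)
  have h2 : pw h n * Real.exp (h / 2 * Real.log n) = pw (h / 2) n := by
    unfold pw; rw [← Real.exp_add]; congr 1; ring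
  have h3 := pw_pos h n
  rw [← h2, div_mul_eq_mul_div, le_div_iff₀ hh]
  nlinarith

lemma summable_pw_le {h : ℝ} (hh : 0 < h) {i : ℕ → ℝ} {K : ℝ} (i0 : ∀ n, 0 ≤ i n)
    (hi : ∀ n, i n ≤ K * Real.log n) (hK : 0 ≤ K) : Summable fun n : ℕ => pw h n * i n / n := by
  refine ((summable_pw (half_pos hh)).mul_left (K * (2 / h))).of_nonneg_of_le
    (fun n => by have := pw_pos h n; have := i0 n; positivity) fun n => ?_
  have := pw_pos h n
  calc _ ≤ pw h n * (K * Real.log n) / n := by gcongr; exact hi n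
    _ = K * (pw h n * Real.log n / n) := by ring
    _ ≤ _ := by rw [mul_assoc]; exact mul_le_mul_of_nonneg_left (pw_log_le hh n) hK

lemma summable_pw_log {h : ℝ} (hh : 0 < h) : Summable fun n : ℕ => pw h n * Real.log n / n :=
  summable_pw_le hh Real.log_natCast_nonneg (K := 1) (by simp) zero_le_one

/-- The zeta function at `1 + h`. -/
noncomputable def Z0 (h : ℝ) : ℝ := ∑' n : ℕ, pw h n / n

/-- Minus the derivative of the zeta function at `1 + h`. -/
noncomputable def Z1 (h : ℝ) : ℝ := ∑' n : ℕ, pw h n * Real.log n / n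

lemma pw_step {h : ℝ} (hh : 0 < h) {n : ℕ} (hn : 1 ≤ n) :
    h * (pw h (n + 1) / (n + 1 : ℕ)) ≤ pw h n - pw h (n + 1) ∧
      pw h n - pw h (n + 1) ≤ h * (pw h n / n) := by
  have hn' : (1 : ℝ) ≤ n := by exact_mod_cast hn
  set l := Real.log (n + 1 : ℕ) - Real.log n with hl
  have l1 : l ≤ 1 / n := by
    rw [hl, ← Real.log_div (by positivity) (by positivity)]
    refine (Real.log_le_sub_one_of_pos (by positivity)).trans (le_of_eq ?_)
    push_cast; field_simp; ring
  have l2 : 1 / ((n + 1 : ℕ) : ℝ) ≤ l := by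
    have := Real.log_le_sub_one_of_pos (show (0 : ℝ) < n / (n + 1 : ℕ) by positivity)
    rw [Real.log_div (by positivity) (by positivity)] at this
    have e : (n : ℝ) / (n + 1 : ℕ) - 1 = -(1 / (n + 1 : ℕ)) := by push_cast; field_simp; ring
    linarith
  have e1 : pw h n = pw h (n + 1) * Real.exp (h * l) := by
    unfold pw; rw [← Real.exp_add, hl]; congr 1; ring
  have e2 : pw h (n + 1) = pw h n * Real.exp (-(h * l)) := by
    unfold pw; rw [← Real.exp_add, hl]; congr 1; ring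
  have p1 := mul_le_mul_of_nonneg_left (Real.add_one_le_exp (h * l)) (pw_pos h (n + 1)).le
  have p2 := mul_le_mul_of_nonneg_left (Real.add_one_le_exp (-(h * l))) (pw_pos h n).le
  have p3 := mul_le_mul_of_nonneg_left l2 (mul_pos hh (pw_pos h (n + 1))).le
  have p4 := mul_le_mul_of_nonneg_left l1 (mul_pos hh (pw_pos h n)).le
  rw [mul_one_div, mul_div_assoc] at p3 p4
  constructor <;> linarith

lemma Z0_le {h : ℝ} (hh : 0 < h) : Z0 h ≤ 1 + 1 / h := by
  have key : ∀ N : ℕ, h * ∑ n ∈ range (N + 2), pw h n / n ≤ h + 1 - pw h (N + 1) := by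
    intro N
    induction N with
    | zero => simp [sum_range_succ, pw_one]
    | succ N ih => rw [sum_range_succ, mul_add]; linarith [(pw_step hh (show 1 ≤ N + 1 by omega)).1]
  refine (summable_pw hh).tsum_le_of_sum_range_le fun N => ?_
  refine (sum_le_sum_of_subset_of_nonneg (range_subset_range.2 (show N ≤ N + 2 by omega))
    fun n _ _ => by have := pw_pos h n; positivity).trans ?_
  rw [show 1 + 1 / h = (h + 1) / h by field_simp, le_div_iff₀' hh]
  linarith [key N, pw_pos h (N + 1)]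

lemma Z0_ge {h : ℝ} (hh : 0 < h) : 1 / h ≤ Z0 h := by
  have key : ∀ N : ℕ, 1 - pw h (N + 1) ≤ h * ∑ n ∈ range (N + 1), pw h n / n := by
    intro N
    induction N with
    | zero => simp [pw_one]
    | succ N ih => rw [sum_range_succ, mul_add]; linarith [(pw_step hh (show 1 ≤ N + 1 by omega)).2]
  have lim : Tendsto (fun N : ℕ => 1 - pw h (N + 1)) atTop (𝓝 (1 - 0)) := by
    refine tendsto_const_nhds.sub ((tendsto_add_atTop_iff_nat 1).2 ?_)
    exact Real.tendsto_exp_neg_atTop_nhds_zero.comp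
      ((Real.tendsto_log_atTop.comp tendsto_natCast_atTop_atTop).const_mul_atTop hh)
  rw [div_le_iff₀' hh, ← sub_zero (1 : ℝ)]
  refine le_of_tendsto' lim fun N => (key N).trans (mul_le_mul_of_nonneg_left ?_ hh.le)
  exact (summable_pw hh).sum_le_tsum _ fun n _ => by have := pw_pos h n; positivity

lemma Z1_le {h : ℝ} (hh : 0 < h) : Z1 h ≤ 2 / h * (1 + 2 / h) := by
  refine ((summable_pw_log hh).tsum_le_tsum (pw_log_le hh)
    ((summable_pw (half_pos hh)).mul_left _)).trans ?_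
  rw [tsum_mul_left]
  refine mul_le_mul_of_nonneg_left ((Z0_le (half_pos hh)).trans (le_of_eq ?_)) (by positivity)
  field_simp

lemma Z1_ge {h : ℝ} (hh : 0 < h) : 1 / (2 * h) - 1 ≤ h * Z1 h := by
  have h1 := Z0_ge hh
  have h2 := Z0_le (show 0 < h + h by linarith)
  have h3 : Z0 h - Z0 (h + h) ≤ h * Z1 h := by
    rw [Z0, Z0, Z1, ← tsum_mul_left, ← (summable_pw hh).tsum_sub (summable_pw (by linarith))]
    refine ((summable_pw hh).sub (summable_pw (by linarith))).tsum_le_tsum (fun n => ?_)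
      ((summable_pw_log hh).mul_left h)
    rw [← sub_div, ← mul_div_assoc, pw_add]
    refine div_le_div_of_nonneg_right ?_ (Nat.cast_nonneg n)
    nlinarith [mul_le_mul_of_nonneg_left (one_sub_pw_le h n) (pw_pos h n).le]
  have : 1 / h - 1 / (h + h) = 1 / (2 * h) := by field_simp; ring
  linarith

lemma Z1_range {h : ℝ} (hh : 0 < h) {A B : ℕ} (hA : 1 ≤ A) (hAB : A ≤ B) :
    Z1 h - Real.log A * (1 + Real.log A) - pw (h / 2) B * Z1 (h / 2) ≤
      ∑ n ∈ Ico A B, pw h n * Real.log n / n := by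
  have h0 : ∀ s n, 0 ≤ pw s n * Real.log n / n := fun s n => by
    have := pw_pos s n; have := Real.log_natCast_nonneg n; positivity
  have h1 : ∑ n ∈ range A, pw h n * Real.log n / n ≤ Real.log A * (1 + Real.log A) := by
    rw [range_eq_Ico, sum_eq_sum_Ico_succ_bot hA]
    simp only [Nat.cast_zero, div_zero, zero_add]
    refine le_trans (sum_le_sum fun n hn => ?_) ((mul_sum _ _ _).symm.le.trans
      (mul_le_mul_of_nonneg_left (sum_Ico_inv_le le_rfl A) (Real.log_natCast_nonneg A)))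
    rw [mul_one_div]
    exact div_le_div_of_nonneg_right ((mul_le_of_le_one_left (Real.log_natCast_nonneg n)
      (pw_le_one hh.le n)).trans (log_mono (mem_Ico.1 hn).1 (mem_Ico.1 hn).2.le)) (Nat.cast_nonneg n)
  have s1 := (summable_nat_add_iff B).2 (summable_pw_log hh)
  have s2 := (summable_nat_add_iff B).2 (summable_pw_log (half_pos hh))
  have h2 : ∑' n : ℕ, pw h (n + B) * Real.log (n + B : ℕ) / (n + B : ℕ) ≤ pw (h / 2) B * Z1 (h / 2) := by
    refine (s1.tsum_le_tsum (fun n => ?_) (s2.mul_left (pw (h / 2) B))).trans ?_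
    · have e : pw h (n + B) = pw (h / 2) (n + B) * pw (h / 2) (n + B) := by rw [← pw_add, add_halves]
      rw [e, mul_assoc, mul_div_assoc]
      exact mul_le_mul_of_nonneg_right (pw_anti (half_pos hh).le (by omega) (by omega)) (h0 _ _)
    · rw [tsum_mul_left, Z1, ← (summable_pw_log (half_pos hh)).sum_add_tsum_nat_add B]
      exact mul_le_mul_of_nonneg_left (le_add_of_nonneg_left (sum_nonneg fun n _ => h0 _ _))
        (pw_pos _ _).le
  rw [Z1, ← (summable_pw_log hh).sum_add_tsum_nat_add B, ← sum_range_add_sum_Ico _ hAB]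
  linarith

/-- A sifted complex series. -/
noncomputable def Ls (y : ℕ) (φ : ℕ → ℂ) (ω : ℕ → ℝ) : ℂ := ∑' n, ((ω n * ri y n : ℝ) : ℂ) * φ n

/-- A sifted real series. -/
noncomputable def Lr (y : ℕ) (ψ ω : ℕ → ℝ) : ℝ := ∑' n, ω n * ri y n * ψ n

lemma Ls_ofReal (y : ℕ) (ψ ω : ℕ → ℝ) : Ls y (fun n => ψ n) ω = Lr y ψ ω := by
  unfold Ls Lr; push_cast; rfl

lemma rough_one (y : ℕ) : rough y 1 := fun _ hp h => absurd h hp.not_dvd_one

lemma ri_one (y : ℕ) : ri y 1 = 1 := by
  unfold ri; rw [if_pos (rough_one y)]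

lemma ri_mul (y m n : ℕ) : ri y (m * n) = ri y m * ri y n := by
  unfold ri
  have : rough y (m * n) ↔ rough y m ∧ rough y n :=
    ⟨fun h => ⟨fun p hp hd => h p hp (hd.mul_right n), fun p hp hd => h p hp (hd.mul_left m)⟩,
      fun h p hp hd => (hp.dvd_mul.1 hd).elim (h.1 p hp) (h.2 p hp)⟩
  by_cases h1 : rough y m <;> by_cases h2 : rough y n <;> simp [this, h1, h2]

lemma summable_Ls {y : ℕ} {φ : ℕ → ℂ} {ω : ℕ → ℝ} (hφ : ∀ n, ‖φ n‖ ≤ 1) (hω : Summable ω) :
    Summable fun n => ((ω n * ri y n : ℝ) : ℂ) * φ n := by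
  refine .of_norm_bounded hω.abs fun n => ?_
  rw [norm_mul, Complex.norm_real, Real.norm_eq_abs, abs_mul, mul_assoc]
  exact mul_le_of_le_one_right (abs_nonneg _) (mul_le_one₀ (by
    rw [abs_of_nonneg (ri_bd y n).1]; exact (ri_bd y n).2) (norm_nonneg _) (hφ n))

lemma summable_Lr {y : ℕ} {ψ ω : ℕ → ℝ} (hψ : ∀ n, |ψ n| ≤ 1) (hω : Summable ω) :
    Summable fun n => ω n * ri y n * ψ n := by
  have := summable_Ls (y := y) (φ := fun n => ψ n) (fun n => by simpa using hψ n) hω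
  exact_mod_cast this

lemma tendsto_Ico_two {E : Type*} [NormedAddCommGroup E] {f : ℕ → E} (hf : Summable f) (h0 : f 0 = 0) :
    Tendsto (fun N => ∑ n ∈ Ico 2 N, f n) atTop (𝓝 (∑' n, f n - f 1)) := by
  refine (hf.tendsto_sum_tsum_nat.sub_const (f 1)).congr' ?_
  filter_upwards [eventually_ge_atTop 2] with N hN
  rw [← sum_range_add_sum_Ico _ hN]; simp [sum_range_succ, h0]

section lim

variable {c : ℕ} {C : ℝ} (hL : LS2St c C) {z0 y : ℕ} (hz : 2 ≤ z0) (hy : y = z0 ^ c)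
  {t i : ℕ → ℝ} (h : Wt t i) {I0 : ℝ} (hI0 : 0 < I0)
  (hi : ∀ n, y ≤ n → i n ≤ I0 * (Real.log n / Real.log y) ^ 2)
  (hs : Summable fun n => t n * i n / n)
include hL hz hy h hI0 hi hs

lemma LS2St.triv : |Lr y (fun _ => 1) (fun n => t n * i n / n) - VV y * ∑' n, t n * i n / n -
    t 1 * i 1 * (1 - VV y)| ≤ C * I0 := by
  have s1 := summable_Lr (y := y) (ψ := fun _ => 1) (by simp) hs
  have := tendsto_Ico_two (s1.sub (hs.mul_left (VV y))) (by simp)
  rw [s1.tsum_sub (hs.mul_left _), tsum_mul_left] at this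
  refine le_trans (le_of_eq ?_) (le_of_tendsto' this.abs fun N => le_trans (le_of_eq ?_)
    (hL z0 y t i I0 N hz hy h hI0 hi).1)
  · rw [ri_one, Lr]; congr 1; push_cast; ring
  · congr 1; exact sum_congr rfl fun n _ => by ring

lemma LS2St.fam {X : Type} (S : Finset X) (φ : X → ℕ → ℂ) (hS : (S.card : ℝ) ≤ z0)
    (h1 : ∀ x ∈ S, Osc z0 (φ x))
    (h2 : ∀ x ∈ S, ∀ x' ∈ S, x ≠ x' → Osc z0 (fun n => φ x n * (starRingEnd ℂ) (φ x' n))) :
    ∑ x ∈ S, ‖Ls y (φ x) (fun n => t n * i n / n) - (t 1 * i 1 : ℝ) * φ x 1‖ ^ 2 ≤ (C * I0) ^ 2 := by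
  refine le_of_tendsto' (x := atTop) (tendsto_finsetSum S fun x hx => ?_)
    fun N => (hL z0 y t i I0 N hz hy h hI0 hi).2 S φ hS h1 h2
  have := tendsto_Ico_two (summable_Ls (y := y) (h1 x hx).le hs) (by simp)
  rw [ri_one, Nat.cast_one, div_one, mul_one] at this
  exact this.norm.pow 2

end lim

lemma RC.osc (c : RC) {K : ℝ} (h : c.r ≤ K) : Osc K (fun n => c.χ n) :=
  ⟨fun m n => by rw [c.mul]; push_cast; rfl, fun n => by simpa using c.abs_le n, fun A B => by
    rw [← Complex.ofReal_sum, Complex.norm_real]; exact (c.abs_sum_le A B).trans h⟩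

lemma log_ratio {y n : ℕ} (hy : 2 ≤ y) (h : y ≤ n) : 1 ≤ Real.log n / Real.log y := by
  rw [le_div_iff₀ (Real.log_pos (by exact_mod_cast hy)), one_mul]; exact log_mono (by omega) h

lemma log_le_ratio {y n : ℕ} (hy : 2 ≤ y) (h : y ≤ n) :
    Real.log n ≤ Real.log y * (Real.log n / Real.log y) ^ 2 := by
  have hl : 0 < Real.log y := Real.log_pos (by exact_mod_cast hy)
  have := log_ratio hy h
  calc _ = Real.log y * (Real.log n / Real.log y) := by field_simp
    _ ≤ _ := by gcongr; nlinarith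

lemma LS2St.one {c : ℕ} {C : ℝ} (hL : LS2St c C) (hC : 0 ≤ C) {z0 y : ℕ} (hz : 2 ≤ z0) (hy : y = z0 ^ c)
    {t i : ℕ → ℝ} (h : Wt t i) {I0 : ℝ} (hI0 : 0 < I0)
    (hi : ∀ n, y ≤ n → i n ≤ I0 * (Real.log n / Real.log y) ^ 2)
    (hs : Summable fun n => t n * i n / n) (χ : RC) (hr : χ.r ≤ z0) :
    |Lr y χ.χ (fun n => t n * i n / n) - t 1 * i 1| ≤ C * I0 := by
  have := hL.fam hz hy h hI0 hi hs {()} (fun _ n => χ.χ n) (by simpa using (by omega : 1 ≤ z0))
    (fun _ _ => χ.osc (by exact_mod_cast hr)) (by simp)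
  rw [sum_singleton, Ls_ofReal, χ.one, Complex.ofReal_one, mul_one, ← Complex.ofReal_sub,
    Complex.norm_real] at this
  exact (pow_le_pow_iff_left₀ (abs_nonneg _) (by positivity) two_ne_zero).1 this

lemma LS2St.ell {c : ℕ} {C : ℝ} (hL : LS2St c C) (hC : 0 ≤ C) {z0 y : ℕ} (hz : 2 ≤ z0) (hy : y = z0 ^ c)
    (hy2 : 2 ≤ y) {h : ℝ} (hh : 0 < h) (χ : RC) (hr : χ.r ≤ z0) :
    |Lr y χ.χ (fun n => pw h n / n) - χ.ell y| ≤ C * (h * Real.log y) := by
  classical
  have hl : 0 < Real.log y := Real.log_pos (by exact_mod_cast hy2)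
  have t1 := (summable_Lr (y := y) χ.abs_le (summable_pw hh)).tendsto_sum_tsum_nat.comp
    (tendsto_add_atTop_nat 1)
  refine le_of_tendsto (t1.sub (χ.tendsto_ell y)).abs ?_
  filter_upwards [eventually_ge_atTop 1] with D hD
  have := (hL z0 y (fun _ => 1) (fun n => 1 - pw h n) (h * Real.log y) (D + 1) hz hy
    ⟨fun _ => zero_le_one, fun _ => le_rfl, fun _ _ => le_rfl, fun n => by linarith [pw_le_one hh.le n],
      fun m n h1 h2 => by linarith [pw_anti hh.le h1 h2]⟩ (by positivity) fun n hn => by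
      rw [mul_assoc]
      exact (one_sub_pw_le h n).trans (mul_le_mul_of_nonneg_left (log_le_ratio hy2 hn) hh.le)).2
    {()} (fun _ n => χ.χ n) (by simpa using (by omega : 1 ≤ z0))
    (fun _ _ => χ.osc (by exact_mod_cast hr)) (by simp)
  rw [sum_singleton] at this
  simp_rw [← Complex.ofReal_mul] at this
  rw [← Complex.ofReal_sum, Complex.norm_real] at this
  refine le_trans (le_of_eq ?_)
    ((pow_le_pow_iff_left₀ (abs_nonneg _) (by positivity) two_ne_zero).1 this)
  rw [abs_sub_comm, Function.comp, range_eq_Ico, sum_eq_sum_Ico_succ_bot (by omega : 0 < D + 1),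
    ← Ico_add_one_right_eq_Icc, Nat.cast_zero, div_zero, zero_mul, zero_mul, zero_add, zero_add,
    ← sum_sub_distrib, sum_eq_sum_Ico_succ_bot (by omega : 1 < D + 1)]
  rw [Real.norm_eq_abs]
  congr 1
  rw [if_pos (rough_one y), ri_one, pw_one]
  simp only [Nat.cast_one, div_one, mul_one, one_mul, sub_self, zero_add]
  refine sum_congr rfl fun n _ => ?_
  unfold ri; split_ifs <;> ring

lemma euler {y : ℕ} {h : ℝ} (hh : 0 < h) {ψ : ℕ → ℝ} (h1 : ψ 1 = 1)
    (hm : ∀ m n, ψ (m * n) = ψ m * ψ n) (hb : ∀ n, |ψ n| ≤ 1) :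
    Tendsto (fun N : ℕ => ∏ p ∈ N.primesBelow, (1 - pw h p / p * ri y p * ψ p)⁻¹) atTop
      (𝓝 (Lr y ψ fun n => pw h n / n)) := by
  let f : ℕ →*₀ ℝ :=
    { toFun := fun n => pw h n / n * ri y n * ψ n
      map_zero' := by simp
      map_one' := by simp [pw_one, ri_one, h1]
      map_mul' := fun m n => by
        rcases eq_or_ne m 0 with rfl | h2
        · simp
        rcases eq_or_ne n 0 with rfl | h3
        · simp
        rw [pw_mul h h2 h3, ri_mul, hm]; push_cast; ring }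
  exact EulerProduct.eulerProduct_completely_multiplicative (f := f)
    (summable_Lr hb (summable_pw hh)).abs

lemma loc_bd (y : ℕ) {h : ℝ} (hh : 0 < h) {N p : ℕ} (hp : p ∈ N.primesBelow) :
    0 ≤ pw h p / p * ri y p ∧ pw h p / p * ri y p ≤ 1 / 2 := by
  have h1 : (2 : ℝ) ≤ p := by exact_mod_cast (Nat.prime_of_mem_primesBelow hp).two_le
  have := pw_pos h p
  have h2 := ri_bd y p
  exact ⟨mul_nonneg (by positivity) h2.1, (mul_le_of_le_one_right (by positivity) h2.2).trans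
    (by gcongr; exact pw_le_one hh.le p)⟩

lemma RC.Lr_nonneg (c : RC) (y : ℕ) {h : ℝ} (hh : 0 < h) : 0 ≤ Lr y c.χ fun n => pw h n / n :=
  ge_of_tendsto' (euler hh c.one c.mul c.abs_le) fun _ => prod_nonneg fun p hp => by
    have := loc_bd y hh hp
    exact inv_nonneg.2 (by nlinarith [c.le_one p])

lemma RC.Lr_two (c : RC) (y : ℕ) {h : ℝ} (hh : 0 < h) :
    1 ≤ Lr y (fun _ => 1) (fun n => pw h n / n) * Lr y c.χ fun n => pw h n / n := by
  refine ge_of_tendsto' ((euler hh (ψ := fun _ => 1) rfl (by simp) (by simp)).mul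
    (euler hh c.one c.mul c.abs_le)) fun _ => ?_
  rw [← prod_mul_distrib]
  refine one_le_prod_real fun p hp => ?_
  obtain ⟨h1, h2⟩ := loc_bd y hh hp
  rw [← mul_inv, one_le_inv_iff₀]
  rcases c.val p with h0 | h0 | h0 <;> rw [h0] <;> constructor <;> nlinarith

lemma RC.Lr_four (c c' : RC) (y : ℕ) {h : ℝ} (hh : 0 < h) :
    1 ≤ Lr y (fun _ => 1) (fun n => pw h n / n) * Lr y c.χ (fun n => pw h n / n) *
      Lr y c'.χ (fun n => pw h n / n) * Lr y (fun n => c.χ n * c'.χ n) fun n => pw h n / n := by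
  refine ge_of_tendsto' ((((euler hh (ψ := fun _ => 1) rfl (by simp) (by simp)).mul
    (euler hh c.one c.mul c.abs_le)).mul (euler hh c'.one c'.mul c'.abs_le)).mul
    (euler hh (ψ := fun n => c.χ n * c'.χ n) (by simp [c.one, c'.one])
      (fun m n => by rw [c.mul, c'.mul]; ring) fun n => by
        rw [abs_mul]; exact mul_le_one₀ (c.abs_le n) (abs_nonneg _) (c'.abs_le n))) fun _ => ?_
  rw [← prod_mul_distrib, ← prod_mul_distrib, ← prod_mul_distrib]
  refine one_le_prod_real fun p hp => ?_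
  obtain ⟨h1, h2⟩ := loc_bd y hh hp
  rw [← mul_inv, ← mul_inv, ← mul_inv, one_le_inv_iff₀]
  generalize pw h p / p * ri y p = x at h1 h2
  have a1 : 0 < 1 - x := by linarith
  have a2 : 0 < (1 - x) * (1 + x) ∧ (1 - x) * (1 + x) ≤ 1 := by constructor <;> nlinarith
  have a3 : 0 < (1 - x) * (1 - x) ∧ (1 - x) * (1 - x) ≤ 1 := by constructor <;> nlinarith
  rcases c.val p with h0 | h0 | h0 <;> rcases c'.val p with h3 | h3 | h3 <;> rw [h0, h3] <;>
    constructor <;> nlinarith [mul_pos a2.1 a2.1, mul_pos a3.1 a3.1, mul_le_one₀ a2.2 a2.1.le a2.2,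
      mul_le_one₀ a3.2 a3.1.le a3.2]

lemma LS2St.zeta_le {c : ℕ} {C : ℝ} (hL : LS2St c C) {z0 y : ℕ} (hz : 2 ≤ z0) (hy : y = z0 ^ c)
    (hy2 : 2 ≤ y) {h : ℝ} (hh : 0 < h) :
    Lr y (fun _ => 1) (fun n => pw h n / n) ≤ VV y / h + 1 + C := by
  have := (abs_le.1 (hL.triv hz hy (Wt.pw hh.le (i := fun _ => 1) (by simp) (by simp)) one_pos
    (fun n hn => by rw [one_mul]; exact one_le_pow₀ (log_ratio hy2 hn))
    (by simpa using summable_pw hh))).2
  simp only [mul_one, pw_one, one_mul] at this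
  have h2 := mul_le_mul_of_nonneg_left (Z0_le hh) (VV_pos y).le
  rw [mul_add, mul_one_div, Z0] at h2
  linarith

theorem LS2St.uniq {c : ℕ} {C : ℝ} (hL : LS2St c C) (hc : 1 ≤ c) (hC : 1 ≤ C) : ∃ η : ℝ, 0 < η ∧
    ∀ (z0 : ℕ) (χ χ' : RC), 2 ≤ z0 → χ.r * χ'.r ≤ z0 → χ.ell (z0 ^ c) ≤ η → χ'.ell (z0 ^ c) ≤ η →
    ∀ n, rough (z0 ^ c) n → χ.χ n = χ'.χ n := by
  obtain ⟨U, hU⟩ : ∃ U, U = 8 * C ^ 2 * (1 + C) + 2 + C := ⟨_, rfl⟩
  have hU0 : 0 < U := by rw [hU]; positivity
  refine ⟨C / U, by positivity, fun z0 χ χ' hz hr h1 h2 u hu => ?_⟩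
  obtain ⟨y, hy⟩ : ∃ y, y = z0 ^ c := ⟨_, rfl⟩
  rw [← hy] at h1 h2 hu
  have hzy : z0 ≤ y := hy ▸ Nat.le_self_pow (by omega) z0
  have hl : 0 < Real.log y := Real.log_pos (by exact_mod_cast (by omega : 1 < y))
  have r1 := χ.r_pos
  have r2 := χ'.r_pos
  by_contra hne
  have hco : u.Coprime (χ.r * χ'.r) := Nat.coprime_of_dvd fun p hp a1 a2 => by
    have := hu p hp a1
    have := Nat.le_of_dvd (by positivity) a2
    omega
  let ψ : RC :=
    { r := χ.r * χ'.r, χ := fun n => χ.χ n * χ'.χ n, r_pos := by positivity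
      one := by simp [χ.one, χ'.one]
      mul := fun m n => by rw [χ.mul, χ'.mul]; ring
      val := fun n => by
        rcases χ.val n with h | h | h <;> rcases χ'.val n with h' | h' | h' <;> simp [h, h']
      ne := fun n hn => mul_ne_zero (χ.ne n hn.coprime_mul_right_right) (χ'.ne n hn.coprime_mul_left_right)
      zero := fun n hn => by
        by_cases h : n.Coprime χ.r
        · rw [χ'.zero n fun h' => hn (h.mul_right h'), mul_zero]
        · rw [χ.zero n h, zero_mul]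
      per := fun n => by
        rw [χ.of_modEq ((Nat.mod_modEq n _).of_mul_right _),
          χ'.of_modEq ((Nat.mod_modEq n _).of_mul_left _)]
      nontriv := ⟨u, by
        have a1 := χ.ne u hco.coprime_mul_right_right
        have a2 := χ'.ne u hco.coprime_mul_left_right
        rcases χ.val u with h | h | h <;> rcases χ'.val u with h' | h' | h' <;> simp_all⟩ }
  have hh : 0 < 1 / (U * Real.log y) := by positivity
  have e1 : C * (1 / (U * Real.log y) * Real.log y) = C / U := by field_simp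
  have b1 := (abs_le.1 (hL.ell (by linarith) hz hy (by omega) hh χ (by nlinarith))).2
  have b2 := (abs_le.1 (hL.ell (by linarith) hz hy (by omega) hh χ' (by nlinarith))).2
  have b3 := (abs_le.1 (hL.one (by linarith) hz hy (Wt.pw hh.le (i := fun _ => 1) (by simp) (by simp))
    one_pos (fun n hn => by rw [one_mul]; exact one_le_pow₀ (log_ratio (by omega) hn))
    (by simpa using summable_pw hh) ψ hr)).2
  simp only [mul_one, pw_one] at b3
  have b4 := hL.zeta_le hz hy (by omega) hh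
  have b5 : VV y / (1 / (U * Real.log y)) ≤ U := by
    rw [div_div_eq_mul_div, div_one, mul_left_comm]
    exact mul_le_of_le_one_right hU0.le (VV_mul_log_le' y)
  have b6 := χ.Lr_four χ' y hh
  have n1 := χ.Lr_nonneg y hh
  have n2 := χ'.Lr_nonneg y hh
  have n3 := ψ.Lr_nonneg y hh
  rw [e1] at b1 b2
  have b7 : 2 * U * (2 * (C / U)) * (2 * (C / U)) * (1 + C) < 1 := by
    rw [show 2 * U * (2 * (C / U)) * (2 * (C / U)) * (1 + C) = 8 * C ^ 2 * (1 + C) / U by field_simp; ring,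
      div_lt_one hU0]; linarith
  have b8 : 0 ≤ 8 * C ^ 2 * (1 + C) := by positivity
  refine absurd (b6.trans ?_) (not_le.2 b7)
  exact mul_le_mul (mul_le_mul (mul_le_mul (by linarith) (by linarith) n1 (by positivity))
    (by linarith) n2 (by positivity)) (by change Lr y ψ.χ _ ≤ _; linarith) n3 (by positivity)

end Pool.Agent.P.MP_746f10_nt
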