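import Mathlib
import Pool.Agent.P.MP_746f10_nt.Lval

/-! Dirichlet characters of small conductor. -/

set_option linter.unusedSectionVars false

namespace Pool.Agent.P.MP_746f10_nt

open Finset

lemma osc_of_periodic {f : ℕ → ℂ} {q : ℕ} (hq : 0 < q) (hm : ∀ m n, f (m * n) = f m * f n)
    (h1 : ∀ n, ‖f n‖ ≤ 1) (hp : ∀ m n, m ≡ n [MOD q] → f m = f n) {u : ℕ} (hc : u.Coprime q)
    (hu : f u ≠ 1) {K : ℝ} (hK : q ≤ K) : Osc K f := by
  refine ⟨hm, h1, fun A B => (norm_sum_Ico_le_of_periodic hq (fun n => hp _ _ (by simp [Nat.ModEq]))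
    ?_ h1 A B).trans hK⟩
  have hm' : ∀ n ∈ range q, (u * n) % q ∈ range q := fun n _ => mem_range.2 (Nat.mod_lt _ hq)
  have hi : Set.InjOn (fun n => (u * n) % q) (range q : Set ℕ) := fun n hn n' hn' h =>
    Nat.ModEq.eq_of_lt_of_lt (Nat.ModEq.cancel_left_of_coprime (c := u) hc.symm h)
      (by simpa using hn) (by simpa using hn')
  have := sum_nbij (s := range q) (t := range q) (f := fun n => f u * f n) (g := f)
    (fun n => (u * n) % q) hm' hi (surjOn_of_injOn_of_card_le _ hm' hi le_rfl)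
    (fun n _ => by rw [← hm]; exact hp _ _ (Nat.mod_modEq _ _).symm)
  rw [← mul_sum] at this
  exact eq_zero_of_mul_eq_self_left hu this

variable {M : ℕ} [NeZero M]

/-- The primitive character inducing `κ`, as a function on the natural numbers. -/
noncomputable def pc (κ : DirichletCharacter ℂ M) (n : ℕ) : ℂ := κ.primitiveCharacter n

lemma pc_mul (κ : DirichletCharacter ℂ M) (m n : ℕ) : pc κ (m * n) = pc κ m * pc κ n := by
  simp [pc]

lemma pc_one (κ : DirichletCharacter ℂ M) : pc κ 1 = 1 := by simp [pc]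

lemma pc_le (κ : DirichletCharacter ℂ M) (n : ℕ) : ‖pc κ n‖ ≤ 1 := DirichletCharacter.norm_le_one _ _

lemma pc_mod (κ : DirichletCharacter ℂ M) {m n : ℕ} (h : m ≡ n [MOD κ.conductor]) : pc κ m = pc κ n := by
  unfold pc; rw [(ZMod.natCast_eq_natCast_iff _ _ _).2 h]

lemma pc_eq (κ : DirichletCharacter ℂ M) {n : ℕ} (h : n.Coprime M) : pc κ n = κ n := by
  have := DirichletCharacter.changeLevel_eq_cast_of_dvd' κ.primitiveCharacter κ.conductor_dvd_level
    (a := n) (Nat.isCoprime_iff_coprime.2 h)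
  rw [κ.changeLevel_primitiveCharacter] at this
  simpa [pc] using this.symm

lemma cond_pos (κ : DirichletCharacter ℂ M) : 0 < κ.conductor := Nat.pos_of_ne_zero κ.conductor_ne_zero

lemma exists_ne {κ κ' : DirichletCharacter ℂ M} (h : κ ≠ κ') : ∃ u : ℕ, u.Coprime M ∧ κ u ≠ κ' u := by
  by_contra h1
  push Not at h1
  refine h (MulChar.ext fun a => ?_)
  simpa using h1 _ (ZMod.val_coe_unit_coprime a)

lemma norm_char {κ : DirichletCharacter ℂ M} {u : ℕ} (h : u.Coprime M) : ‖κ u‖ = 1 := by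
  simpa using κ.unit_norm_eq_one (ZMod.unitOfCoprime u h)

lemma mul_conj_char {κ : DirichletCharacter ℂ M} {u : ℕ} (h : u.Coprime M) :
    κ u * (starRingEnd ℂ) (κ u) = 1 := by
  rw [Complex.mul_conj, Complex.normSq_eq_norm_sq, norm_char h]; simp

lemma char_zero (κ : DirichletCharacter ℂ M) {u : ℕ} (h : ¬ u.Coprime M) : κ u = 0 :=
  κ.map_nonunit fun h1 => h ((ZMod.isUnit_iff_coprime u M).1 h1)

lemma one_char {u : ℕ} (h : u.Coprime M) : (1 : DirichletCharacter ℂ M) u = 1 :=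
  MulChar.one_apply ((ZMod.isUnit_iff_coprime u M).2 h)

lemma osc_pc_pow {κ : DirichletCharacter ℂ M} {j : ℕ} (hj : j ≠ 0) (h : κ ^ j ≠ 1) {K : ℝ}
    (hK : κ.conductor ≤ K) : Osc K (fun n => pc κ n ^ j) := by
  obtain ⟨u, h1, h2⟩ := exists_ne h
  refine osc_of_periodic (cond_pos κ) (fun m n => by rw [pc_mul, mul_pow])
    (fun n => by rw [norm_pow]; exact pow_le_one₀ (norm_nonneg _) (pc_le κ n))
    (fun m n h => by rw [pc_mod κ h]) (h1.coprime_dvd_right κ.conductor_dvd_level) ?_ hK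
  rwa [pc_eq κ h1, ← κ.pow_apply' hj, ← one_char h1]

lemma osc_pc_pair {κ κ' : DirichletCharacter ℂ M} (h : κ ≠ κ') {K : ℝ}
    (hK : (κ.conductor * κ'.conductor : ℕ) ≤ K) :
    Osc K (fun n => pc κ n * (starRingEnd ℂ) (pc κ' n)) := by
  obtain ⟨u, h1, h2⟩ := exists_ne h
  refine osc_of_periodic (Nat.mul_pos (cond_pos κ) (cond_pos κ'))
    (fun m n => by rw [pc_mul, pc_mul, map_mul]; ring)
    (fun n => by
      rw [norm_mul, Complex.norm_conj]; exact mul_le_one₀ (pc_le κ n) (norm_nonneg _) (pc_le κ' n))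
    (fun m n h => by rw [pc_mod κ (h.of_mul_right _), pc_mod κ' (h.of_mul_left _)])
    ((h1.coprime_dvd_right κ.conductor_dvd_level).mul_right
      (h1.coprime_dvd_right κ'.conductor_dvd_level)) (fun h3 => h2 ?_) hK
  rw [pc_eq κ h1, pc_eq κ' h1] at h3
  have h4 := mul_conj_char (κ := κ') h1
  linear_combination κ' u * h3 - κ u * h4

lemma card_cond_le (Q : ℕ) :
    (univ.filter fun κ : DirichletCharacter ℂ M => κ.conductor ≤ Q).card ≤ Q ^ 2 := by
  classical
  calc _ ≤ ((Icc 1 Q).biUnion fun q => univ.filter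
        fun κ : DirichletCharacter ℂ M => κ.FactorsThrough q).card :=
        card_le_card fun κ hκ => mem_biUnion.2 ⟨κ.conductor, mem_Icc.2 ⟨cond_pos κ, (mem_filter.1 hκ).2⟩,
          mem_filter.2 ⟨mem_univ _, κ.factorsThrough_conductor⟩⟩
    _ ≤ ∑ q ∈ Icc 1 Q, Q := card_biUnion_le.trans (sum_le_sum fun q hq => ?_)
    _ = _ := by simp [sq]
  have hq' := mem_Icc.1 hq
  by_cases hd : q ∣ M
  · have : NeZero q := ⟨by omega⟩
    calc _ ≤ ((univ : Finset (DirichletCharacter ℂ q)).image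
          (DirichletCharacter.changeLevel hd)).card := card_le_card fun κ hκ => by
          obtain ⟨_, χ, h⟩ := (mem_filter.1 hκ).2
          exact mem_image.2 ⟨χ, mem_univ _, h.symm⟩
      _ ≤ q.totient := card_image_le.trans (by
          rw [card_univ, ← Nat.card_eq_fintype_card,
            DirichletCharacter.card_eq_totient_of_hasEnoughRootsOfUnity])
      _ ≤ Q := (Nat.totient_le q).trans hq'.2
  · rw [filter_eq_empty_iff.2 fun κ _ h => hd h.dvd]; simp

lemma exists_RC {κ : DirichletCharacter ℂ M} (h1 : κ ≠ 1) (h2 : κ ^ 2 = 1) :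
    ∃ χ : RC, χ.r = κ.conductor ∧ ∀ n, pc κ n = χ.χ n := by
  have hq : κ.primitiveCharacter.IsQuadratic := MulChar.isQuadratic_iff_sq_eq_one.2 (by
    rw [← DirichletCharacter.changeLevel_eq_one_iff κ.conductor_dvd_level, map_pow,
      κ.changeLevel_primitiveCharacter, h2])
  have hv : ∀ n, pc κ n = 0 ∨ pc κ n = 1 ∨ pc κ n = -1 := fun n => hq n
  have he : ∀ n, pc κ n = ((pc κ n).re : ℂ) := fun n => by
    rcases hv n with h | h | h <;> simp [h]
  have : NeZero κ.conductor := ⟨κ.conductor_ne_zero⟩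
  refine ⟨⟨κ.conductor, fun n => (pc κ n).re, cond_pos κ, by simp [pc_one], fun m n => ?_, fun n => ?_,
    fun n hn h => ?_, fun n hn => ?_, fun n => by rw [pc_mod κ (Nat.mod_modEq _ _)], ?_⟩, rfl, he⟩
  · rw [pc_mul, he m, he n, ← Complex.ofReal_mul]; simp
  · rcases hv n with h | h | h <;> simp [h]
  · have := norm_char (κ := κ.primitiveCharacter) hn
    rw [← pc, he n, h] at this; simp at this
  · rw [pc, char_zero _ hn]; simp
  · obtain ⟨u, a1, a2⟩ := exists_ne h1
    have a3 := norm_char (κ := κ) a1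
    rw [one_char a1] at a2
    rw [← pc_eq κ a1] at a2 a3
    refine ⟨u, ?_⟩
    rcases hv u with h | h | h
    · rw [h] at a3; simp at a3
    · exact absurd h a2
    · simp [h]

/-- Fourier coefficient with respect to the characters. -/
noncomputable def Gh (G : ℕ → ℝ) (κ : DirichletCharacter ℂ M) : ℂ :=
  (∑ x ∈ range M, G x * (starRingEnd ℂ) (κ x)) / M.totient

lemma expand {G : ℕ → ℝ} (hG : ∀ m m', m ≡ m' [MOD M] → G m = G m') {m : ℕ} (hm : m.Coprime M) :
    (G m : ℂ) = ∑ κ : DirichletCharacter ℂ M, Gh G κ * κ m := by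
  have hu : IsUnit (m : ZMod M) := (ZMod.isUnit_iff_coprime m M).2 hm
  have hφ : (M.totient : ℂ) ≠ 0 := by exact_mod_cast (Nat.totient_pos.2 (NeZero.pos M)).ne'
  have key : ∀ x : ℕ, ∑ κ : DirichletCharacter ℂ M, (starRingEnd ℂ) (κ x) * κ m =
      if (m : ZMod M) = x then (M.totient : ℂ) else 0 := by
    intro x
    have := congrArg (starRingEnd ℂ) (DirichletCharacter.sum_char_inv_mul_char_eq ℂ hu x)
    rw [map_sum, apply_ite (starRingEnd ℂ), map_natCast, map_zero] at this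
    rw [← this]
    refine sum_congr rfl fun κ _ => ?_
    have h1 : κ (m : ZMod M)⁻¹ * κ m = 1 := by rw [← map_mul, ZMod.inv_mul_of_unit _ hu, map_one]
    have h2 := congrArg (starRingEnd ℂ) h1
    have h3 := mul_conj_char (κ := κ) hm
    rw [map_mul, map_one] at h2
    rw [map_mul]
    linear_combination (starRingEnd ℂ) (κ x) * ((starRingEnd ℂ) (κ (m : ZMod M)⁻¹) * h3 - κ m * h2)
  unfold Gh
  simp_rw [div_mul_eq_mul_div, ← sum_div, sum_mul, mul_assoc]
  rw [sum_comm]
  simp_rw [← mul_sum, key]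
  rw [sum_eq_single_of_mem (m % M) (mem_range.2 (Nat.mod_lt _ (NeZero.pos M))), if_pos (by simp),
    hG _ _ (Nat.mod_modEq m M), mul_div_cancel_right₀ _ hφ]
  intro x hx hne
  rw [if_neg, mul_zero]
  intro h
  exact hne (((ZMod.natCast_eq_natCast_iff' _ _ _).1 h).trans (Nat.mod_eq_of_lt (mem_range.1 hx))).symm

lemma vanish {κ : DirichletCharacter ℂ M} {q : ℕ} (hq : q ∣ M) (hκ : q < κ.conductor) {Φ : ℕ → ℝ}
    (hΦ : ∀ m m', m ≡ m' [MOD q] → Φ m = Φ m') :
    ∑ x ∈ range M, Φ x * (starRingEnd ℂ) (κ x) = 0 := by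
  have h1 : ¬ κ.FactorsThrough q := fun h => absurd (Nat.sInf_le h) (not_le.2 hκ)
  rw [DirichletCharacter.factorsThrough_iff_ker_unitsMap hq, SetLike.le_def] at h1
  push Not at h1
  obtain ⟨a, a1, a2⟩ := h1
  set u := (a : ZMod M).val with hu
  have hc : u.Coprime M := ZMod.val_coe_unit_coprime a
  have hu1 : u ≡ 1 [MOD q] := by
    have := congrArg Units.val (MonoidHom.mem_ker.1 a1)
    rw [ZMod.unitsMap_val, ZMod.cast_eq_val, Units.val_one] at this
    exact (ZMod.natCast_eq_natCast_iff _ _ _).1 (by rw [Nat.cast_one]; exact this)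
  have hne : (starRingEnd ℂ) (κ u) ≠ 1 := fun h => a2 (MonoidHom.mem_ker.2 (Units.ext (by
    have := congrArg (starRingEnd ℂ) h
    simpa [hu] using this)))
  have hM := NeZero.pos M
  have hm' : ∀ n ∈ range M, (u * n) % M ∈ range M := fun n _ => mem_range.2 (Nat.mod_lt _ hM)
  have hi : Set.InjOn (fun n => (u * n) % M) (range M : Set ℕ) := fun n hn n' hn' h =>
    Nat.ModEq.eq_of_lt_of_lt (Nat.ModEq.cancel_left_of_coprime (c := u) hc.symm h)
      (by simpa using hn) (by simpa using hn')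
  have := sum_nbij (s := range M) (t := range M)
    (f := fun n => (starRingEnd ℂ) (κ u) * (Φ n * (starRingEnd ℂ) (κ n)))
    (g := fun n => Φ n * (starRingEnd ℂ) (κ n))
    (fun n => (u * n) % M) hm' hi (surjOn_of_injOn_of_card_le _ hm' hi le_rfl)
    (fun n _ => by
      rw [hΦ (u * n % M) n (((Nat.mod_modEq _ _).of_dvd hq).trans (by simpa using hu1.mul_right n)),
        ZMod.natCast_mod, Nat.cast_mul, map_mul, map_mul]; ring)
  rw [← mul_sum] at this
  exact eq_zero_of_mul_eq_self_left hne this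

lemma Ls_congr {y : ℕ} {φ φ' : ℕ → ℂ} (h : ∀ n, rough y n → φ n = φ' n) (ω : ℕ → ℝ) :
    Ls y φ ω = Ls y φ' ω :=
  tsum_congr fun n => by
    unfold ri; split_ifs with h1
    · rw [h n h1]
    · simp

lemma LSeries_eq {y : ℕ} (hM : ∀ n, n.Coprime M ↔ rough y n) (κ : DirichletCharacter ℂ M) (f : ℕ → ℝ)
    (h : ℝ) : LSeries (fun n => κ n * f n) (1 + h) = Ls y (fun n => κ n) (fun n => pw h n * f n / n) := by
  refine tsum_congr fun n => ?_
  rcases eq_or_ne n 0 with rfl | hn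
  · simp
  rw [LSeries.term_of_ne_zero hn, Complex.cpow_add _ _ (by exact_mod_cast hn), Complex.cpow_one,
    Complex.cpow_def_of_ne_zero (by exact_mod_cast hn), ← Complex.natCast_log]
  unfold ri
  split_ifs with h1
  · have : (n : ℂ) ≠ 0 := by exact_mod_cast hn
    unfold pw; push_cast
    rw [Complex.exp_neg, mul_comm (h : ℂ)]
    field_simp
  · rw [char_zero κ fun h2 => h1 ((hM n).1 h2)]; simp

open ArithmeticFunction in
lemma L1_eq {y : ℕ} (hM : ∀ n, n.Coprime M ↔ rough y n) (κ : DirichletCharacter ℂ M) {h : ℝ}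
    (hh : 0 < h) : Ls y (fun n => κ n) (fun n => pw h n * Real.log n / n) =
      Ls y (fun n => κ n) (fun n => pw h n * Λ n / n) * Ls y (fun n => κ n) (fun n => pw h n / n) := by
  have hs : 1 < (1 + (h : ℂ)).re := by simpa using hh
  have h1 := LSeries_convolution' (κ.LSeriesSummable_twist_vonMangoldt hs)
    (κ.LSeriesSummable_of_one_lt_re hs)
  have h2 := LSeries_eq hM κ (fun _ => 1) h
  simp only [Complex.ofReal_one, mul_one] at h2
  rw [κ.convolution_twist_vonMangoldt] at h1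
  rw [← LSeries_eq hM, ← LSeries_eq hM, ← h2]
  refine Eq.trans ?_ h1
  simp only [Complex.natCast_log]; rfl

lemma three_four_one {y : ℕ} (hM : ∀ n, n.Coprime M ↔ rough y n) (κ : DirichletCharacter ℂ M) {h : ℝ}
    (hh : 0 < h) : 1 ≤ |Lr y (fun _ => 1) (fun n => pw h n / n)| ^ 3 *
      ‖Ls y (fun n => κ n) (fun n => pw h n / n)‖ ^ 4 *
      ‖Ls y (fun n => pc κ n ^ 2) (fun n => pw h n / n)‖ := by
  have h1 := κ.norm_LSeries_product_ge_one hh 0
  have h2 := fun κ => LSeries_eq hM κ (fun _ => 1) h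
  simp only [Complex.ofReal_one, mul_one] at h2
  simp only [Complex.ofReal_zero, mul_zero, add_zero, h2, norm_mul, norm_pow] at h1
  rwa [Ls_congr (φ := fun n => (1 : DirichletCharacter ℂ M) n) (φ' := fun _ => ((1 : ℝ) : ℂ))
    (fun n hn => one_char ((hM n).2 hn)), Ls_ofReal y (fun _ => 1), Complex.norm_real,
    Ls_congr (φ := fun n => (κ ^ 2) n) (φ' := fun n => pc κ n ^ 2)
    (fun n hn => by rw [pc_eq κ ((hM n).2 hn), κ.pow_apply' two_ne_zero])] at h1

end Pool.Agent.P.MP_746f10_nt
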