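import Mathlib
import Pool.Agent.P.MP_746f10_nt.Chars

/-! The contribution of composite numbers to a sifted Dirichlet series. -/

set_option linter.unusedSectionVars false

namespace Pool.Agent.P.MP_746f10_nt

open Finset ArithmeticFunction

lemma LS2St.oneC {c : ℕ} {C : ℝ} (hL : LS2St c C) (hC : 0 ≤ C) {z0 y : ℕ} (hz : 2 ≤ z0)
    (hy : y = z0 ^ c) (hy2 : 2 ≤ y) {h : ℝ} (hh : 0 < h) {φ : ℕ → ℂ} (hφ : Osc z0 φ) :
    ‖Ls y φ (fun n => pw h n / n)‖ ≤ 1 + C := by
  have := hL.fam hz hy (Wt.pw hh.le (i := fun _ => 1) (by simp) (by simp)) one_pos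
    (fun n hn => by rw [one_mul]; exact one_le_pow₀ (log_ratio hy2 hn))
    (by simpa using summable_pw hh) {()} (fun _ => φ) (by simpa using (by omega : 1 ≤ z0))
    (fun _ _ => hφ) (by simp)
  simp only [sum_singleton, mul_one, pw_one, Complex.ofReal_one, one_mul] at this
  have h1 := (pow_le_pow_iff_left₀ (norm_nonneg _) hC two_ne_zero).1 this
  linarith [norm_sub_norm_le (Ls y φ fun n => pw h n / n) (φ 1), hφ.le 1]

lemma wt_log {h : ℝ} (hh : 0 < h) : Wt (pw h) (fun n => Real.log n) :=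
  Wt.pw hh.le Real.log_natCast_nonneg fun _ _ => log_mono

lemma summable_pw_vM {h : ℝ} (hh : 0 < h) : Summable fun n : ℕ => pw h n * Λ n / n :=
  summable_pw_le hh (fun _ => vonMangoldt_nonneg) (K := 1) (by simpa using fun n => vonMangoldt_le_log)
    zero_le_one

lemma LS2St.exc {c : ℕ} {C : ℝ} (hL : LS2St c C) (hC : 1 ≤ C) {z0 y : ℕ} (hz : 2 ≤ z0)
    (hy : y = z0 ^ c) (hy2 : 2 ≤ y) {h U P : ℝ} (hh : 0 < h) (hU : h * (U * Real.log y) = 1)
    (hZ : Lr y (fun _ => 1) (fun n => pw h n / n) ≤ 2 * U) (χ : RC) (hr : χ.r ≤ z0)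
    (hP : Lr y χ.χ (fun n => pw h n * Real.log n / n) = P * Lr y χ.χ (fun n => pw h n / n)) :
    P - Lr y χ.χ (fun n => pw h n * Real.log n / n) ≤
      U * Real.log y / 8 + 17 * (C * Real.log y) := by
  have hl : 0 < Real.log y := Real.log_pos (by exact_mod_cast hy2)
  have b1 := (abs_le.1 (hL.one (by linarith) hz hy (wt_log hh) hl (fun n hn => log_le_ratio hy2 hn)
    (summable_pw_log hh) χ hr)).1
  simp only [Nat.cast_one, Real.log_one, mul_zero, sub_zero] at b1
  set i : ℕ → ℝ := fun n => pw (8 * h) n - 1 + 8 * h * Real.log n with hi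
  have i0 : ∀ n, 0 ≤ i n := fun n => by simp only [hi]; linarith [one_sub_pw_le (8 * h) n]
  have i1 : ∀ n, i n ≤ 8 * h * Real.log n := fun n => by
    simp only [hi]; linarith [pw_le_one (show 0 ≤ 8 * h by positivity) n]
  have si := summable_pw_le hh i0 i1 (by positivity)
  have b2 := (abs_le.1 (hL.one (by linarith) hz hy (Wt.pw hh.le i0 fun m n h1 h2 => by
    have a1 := mul_le_mul_of_nonneg_left (log_mono h1 h2) (show 0 ≤ 8 * h by positivity)
    have a2 := Real.add_one_le_exp (-(8 * h * Real.log n - 8 * h * Real.log m))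
    have a3 : pw (8 * h) n = pw (8 * h) m * Real.exp (-(8 * h * Real.log n - 8 * h * Real.log m)) := by
      unfold pw; rw [← Real.exp_add]; congr 1; ring
    have a4 := pw_pos (8 * h) m
    have a5 := pw_le_one (show 0 ≤ 8 * h by positivity) m
    simp only [hi]; nlinarith) (I0 := (8 * h * Real.log y) ^ 2) (by positivity) (fun n _ => by
      rw [← mul_pow, mul_assoc, mul_div_cancel₀ _ hl.ne']
      have a1 : 0 ≤ 8 * h * Real.log n := by have := Real.log_natCast_nonneg n; positivity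
      simp only [hi, pw]
      generalize 8 * h * Real.log n = x at a1
      have a2 := mul_le_mul_of_nonneg_right (Real.add_one_le_exp x) (Real.exp_pos (-x)).le
      rw [← Real.exp_add, add_neg_cancel, Real.exp_zero] at a2
      have a3 : (x + 1) * Real.exp (-x) ≤ (x + 1) * (1 - x + x ^ 2) := by nlinarith [pow_nonneg a1 3]
      linarith [le_of_mul_le_mul_left a3 (by linarith)]) si χ hr)).2
  have e0 : i 1 = 0 := by simp [hi, pw_one]
  rw [e0, mul_zero, sub_zero] at b2
  have s0 := summable_Lr (y := y) χ.abs_le (summable_pw hh)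
  have s1 := summable_Lr (y := y) χ.abs_le (summable_pw_log hh)
  have s2 := summable_Lr (y := y) χ.abs_le si
  have b3 := χ.Lr_nonneg y (show 0 < h + 8 * h by positivity)
  have e1 : Lr y χ.χ (fun n => pw (h + 8 * h) n / n) = Lr y χ.χ (fun n => pw h n / n) -
      8 * h * Lr y χ.χ (fun n => pw h n * Real.log n / n) + Lr y χ.χ (fun n => pw h n * i n / n) := by
    unfold Lr
    rw [← tsum_mul_left, ← s0.tsum_sub (s1.mul_left _), ← (s0.sub (s1.mul_left _)).tsum_add s2]
    exact tsum_congr fun n => by simp only [hi, pw_add]; ring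
  have b4 := χ.Lr_two y hh
  have b5 := χ.Lr_nonneg y hh
  set L0 := Lr y χ.χ (fun n => pw h n / n)
  have b6 : 1 ≤ 2 * U * L0 := b4.trans (by gcongr)
  have b7 : 0 < L0 := lt_of_le_of_ne b5 fun h0 => by rw [← h0] at b6; norm_num at b6
  have b8 : 8 * h * P * L0 ≤ (1 + C * (8 * h * Real.log y) ^ 2 * (2 * U)) * L0 := by
    have := mul_le_mul_of_nonneg_left b6 (show 0 ≤ C * (8 * h * Real.log y) ^ 2 by positivity)
    rw [e1, hP] at b3
    linarith
  have b9 := le_of_mul_le_mul_right b8 b7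
  have b10 : 8 * h * P ≤ 8 * h * (U * Real.log y / 8 + 16 * (C * Real.log y)) := by
    refine b9.trans (le_of_eq ?_)
    linear_combination (128 * C * h * Real.log y - 1) * hU
  linarith [le_of_mul_le_mul_left b10 (by positivity)]

lemma LS2St.prin {c : ℕ} {C : ℝ} (hL : LS2St c C) (hC : 1 ≤ C) {z0 y : ℕ} (hz : 2 ≤ z0)
    (hy : y = z0 ^ c) (hy4 : 4 ≤ y) {h U P : ℝ} (hh : 0 < h) (hU : h * (U * Real.log y) = 1)
    (hU1 : 100 * C * CM ≤ U) (hP0 : 0 ≤ P)
    (hP : Lr y (fun _ => 1) (fun n => pw h n * Real.log n / n) =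
      P * Lr y (fun _ => 1) (fun n => pw h n / n)) :
    Lr y (fun _ => 1) (fun n => pw h n * Real.log n / n) - P ≤
      VV y * Z1 h + C * Real.log y - 45 / 100 * (U * Real.log y) := by
  have hl : 1 ≤ Real.log y := by
    have : Real.log 4 ≤ Real.log y := Real.log_le_log (by norm_num) (by exact_mod_cast hy4)
    rw [show (4 : ℝ) = 2 ^ 2 by norm_num, Real.log_pow] at this
    push_cast at this; linarith [Real.log_two_gt_d9]
  have b1 := abs_le.1 (hL.triv hz hy (wt_log hh) (by linarith)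
    (fun n hn => log_le_ratio (by omega) hn) (summable_pw_log hh))
  simp only [Nat.cast_one, Real.log_one, mul_zero, zero_mul, sub_zero] at b1
  rw [← Z1] at b1
  have b2 := hL.zeta_le hz hy (by omega) hh
  have hCM := one_le_CM
  have hV := VV_pos y
  set S := U * Real.log y with hS
  have hU2 : 100 ≤ U := le_trans (by nlinarith) hU1
  have hS1 : 100 ≤ S := by nlinarith
  have e1 : h = 1 / S := by field_simp; linarith
  have b3 : S * (S / 2 - 1) ≤ Z1 h := by
    have := mul_le_mul_of_nonneg_left (Z1_ge hh) (show 0 ≤ S by linarith)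
    rw [e1] at this ⊢
    refine le_trans (le_of_eq ?_) (this.trans (le_of_eq ?_)) <;> field_simp
  have b4 : 100 * C ≤ VV y * S := by
    have a1 := mul_le_mul_of_nonneg_left (inv_VV_le y (by omega)) hV.le
    rw [mul_inv_cancel₀ hV.ne'] at a1
    calc _ = 100 * C * 1 := by ring
      _ ≤ 100 * C * (VV y * (CM * Real.log y)) := by gcongr
      _ = VV y * (100 * C * CM * Real.log y) := by ring
      _ ≤ _ := by rw [hS]; gcongr
  rw [show VV y / h = VV y * S by rw [e1]; field_simp] at b2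
  have b5 := mul_le_mul_of_nonneg_left b3 hV.le
  have b6 : Real.log y ≤ S := by rw [hS]; nlinarith
  have b7 : 45 / 100 * S ≤ P := by
    by_contra h0
    have a1 := mul_le_mul_of_nonneg_left b2 hP0
    have a2 := mul_lt_mul_of_pos_right (not_le.1 h0) (show 0 < VV y * S + 1 + C by positivity)
    have a3 := mul_le_mul_of_nonneg_left hS1 (show 0 ≤ VV y * S by positivity)
    have a4 := mul_le_mul_of_nonneg_left b4 (show 0 ≤ S by positivity)
    have a5 := mul_le_mul_of_nonneg_left b6 (show 0 ≤ C by positivity)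
    have a6 := mul_le_mul_of_nonneg_left hC (show 0 ≤ S by positivity)
    linarith [b1.1]
  linarith [b1.2]

theorem LS2St.core {c : ℕ} {C : ℝ} (hL : LS2St c C) (hc : 1 ≤ c) (hC : 1 ≤ C) {η : ℝ} (hη : 0 < η) :
    ∃ U0 : ℝ, ∀ (U h : ℝ) (Q y M : ℕ) [NeZero M] (G χ0 : ℕ → ℝ), U0 ≤ U → 2 ≤ Q → y = (Q ^ 2) ^ c →
    h * (U * Real.log y) = 1 → (∀ n, n.Coprime M ↔ rough y n) → (∀ m, 0 ≤ G m) →
    (∀ m m', m ≡ m' [MOD M] → G m = G m') →
    (∀ κ : DirichletCharacter ℂ M, Q < κ.conductor →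
      ∑ m ∈ range M, G m * (starRingEnd ℂ) (κ m) = 0) → (∀ m, G m ≠ 0 → χ0 m = -1) →
    (∀ χ : RC, χ.r ≤ Q → η ≤ χ.ell y ∨ ∀ n, rough y n → χ.χ n = χ0 n) → ∀ Ω : Finset ℕ,
    ∑ m ∈ Ω, pw h m * (Real.log m - Λ m) / m * ri y m * G m ≤
      (∑ m ∈ range M, G m * ri y m) / M.totient * (VV y * Z1 h - U * Real.log y / 4) := by
  classical
  have hCM := one_le_CM
  refine ⟨360 * C * CM + 8 * (100 * C ^ 2) ^ 4 * (1 + C) + (100 * C ^ 2 + C) / η, ?_⟩
  intro U h Q y M _ G χ0 hU hQ hy hhU hM hG0 hGp hvan hχ0 hexc Ω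
  have u0 : 0 ≤ 8 * (100 * C ^ 2) ^ 4 * (1 + C) := by positivity
  have u1 : 0 ≤ (100 * C ^ 2 + C) / η := by positivity
  have u2 : C ≤ C * CM := le_mul_of_one_le_right (by linarith) hCM
  have u3 : 360 * C ≤ U := by linarith
  have hU0 : 0 < U := by linarith
  have hz : 4 ≤ Q ^ 2 := by nlinarith
  have hQz : Q ≤ Q ^ 2 := Nat.le_self_pow two_ne_zero Q
  have hy4 : 4 ≤ y := hz.trans (hy ▸ Nat.le_self_pow (by omega) _)
  have hl : 0 < Real.log y := Real.log_pos (by exact_mod_cast (by omega : 1 < y))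
  have hh : 0 < h := (pos_iff_pos_of_mul_pos (by rw [hhU]; exact one_pos)).2 (mul_pos hU0 hl)
  have hZ : Lr y (fun _ => 1) (fun n => pw h n / n) ≤ 2 * U := by
    have a1 := hL.zeta_le (show 2 ≤ Q ^ 2 by omega) hy (by omega) hh
    have a2 : VV y / h ≤ U := by
      rw [div_le_iff₀ hh]
      calc _ = VV y * (h * (U * Real.log y)) := by rw [hhU, mul_one]
        _ = U * h * (VV y * Real.log y) := by ring
        _ ≤ _ := mul_le_of_le_one_right (by positivity) (VV_mul_log_le' y)
    linarith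
  have hZ0 : 0 ≤ Lr y (fun _ => 1) (fun n => pw h n / n) := tsum_nonneg fun n => by
    have := pw_pos h n; have := (ri_bd y n).1; positivity
  set c0 := (∑ m ∈ range M, G m * ri y m) / M.totient with hc0
  have hc00 : 0 ≤ c0 := div_nonneg (sum_nonneg fun m _ => mul_nonneg (hG0 m) (ri_bd y m).1)
    (Nat.cast_nonneg _)
  set L0 := fun κ : DirichletCharacter ℂ M => Ls y (fun n => κ n) (fun n => pw h n / n) with hL0
  set L1 := fun κ : DirichletCharacter ℂ M => Ls y (fun n => κ n) (fun n => pw h n * Real.log n / n)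
    with hL1
  set P0 := fun κ : DirichletCharacter ℂ M => Ls y (fun n => κ n) (fun n => pw h n * Λ n / n) with hP0
  have hid : ∀ κ, L1 κ = P0 κ * L0 κ := fun κ => L1_eq hM κ hh
  have hreal : ∀ (κ : DirichletCharacter ℂ M) (ψ : ℕ → ℝ), (∀ n, rough y n → κ n = ψ n) → ∀ ω,
      Ls y (fun n => κ n) ω = Lr y ψ ω := fun κ ψ h1 ω => by rw [← Ls_ofReal]; exact Ls_congr h1 ω
  have hGh : ∀ (κ : DirichletCharacter ℂ M) (s : ℝ), (∀ n, rough y n → G n ≠ 0 → κ n = s) →
      Gh G κ = (s * c0 : ℝ) := by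
    intro κ s h1
    rw [Gh, hc0]; push_cast
    rw [← mul_div_assoc, mul_sum]
    congr 1
    refine sum_congr rfl fun m _ => ?_
    unfold ri
    split_ifs with h2
    · by_cases h3 : G m = 0
      · simp [h3]
      · rw [h1 m h2 h3]; simp [mul_comm]
    · rw [char_zero κ fun h3 => h2 ((hM m).1 h3)]; simp
  have hGle : ∀ κ : DirichletCharacter ℂ M, ‖Gh G κ‖ ≤ c0 := by
    intro κ
    rw [Gh, norm_div, Complex.norm_natCast, hc0]
    refine div_le_div_of_nonneg_right ((norm_sum_le _ _).trans (sum_le_sum fun m _ => ?_))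
      (Nat.cast_nonneg _)
    rw [norm_mul, Complex.norm_real, Real.norm_of_nonneg (hG0 m), Complex.norm_conj]
    refine mul_le_mul_of_nonneg_left ?_ (hG0 m)
    unfold ri
    split_ifs with h2
    · exact κ.norm_le_one _
    · rw [char_zero κ fun h3 => h2 ((hM m).1 h3), norm_zero]
  -- reduction to a sum over characters
  have step1 : ∑ m ∈ Ω, pw h m * (Real.log m - Λ m) / m * ri y m * G m ≤
      ∑ κ : DirichletCharacter ℂ M, (Gh G κ * (L1 κ - P0 κ)).re := by
    have hs := hasSum_sum (s := univ) fun (κ : DirichletCharacter ℂ M) _ =>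
      ((summable_Ls (y := y) (φ := fun n => κ n) (fun n => κ.norm_le_one _)
        (summable_pw_log hh)).hasSum.sub (summable_Ls (y := y) (φ := fun n => κ n)
        (fun n => κ.norm_le_one _) (summable_pw_vM hh)).hasSum).mul_left (Gh G κ)
    rw [← Complex.re_sum]
    refine le_trans (le_of_eq ?_) (sum_le_hasSum Ω (fun m _ => ?_) (Complex.hasSum_re hs))
    all_goals
      have e : ∀ m : ℕ, (∑ κ : DirichletCharacter ℂ M, Gh G κ *
          (((pw h m * Real.log m / m * ri y m : ℝ) : ℂ) * κ m -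
            ((pw h m * Λ m / m * ri y m : ℝ) : ℂ) * κ m)).re =
          pw h m * (Real.log m - Λ m) / m * ri y m * G m := fun m => by
        rw [← Complex.ofReal_re (_ * G m)]
        congr 1
        unfold ri
        split_ifs with h1
        · rw [Complex.ofReal_mul _ (G m), expand hGp ((hM m).2 h1), mul_sum]
          exact sum_congr rfl fun κ _ => by push_cast; ring
        · simp
    · exact sum_congr rfl fun m _ => (e m).symm
    · rw [e]
      have := pw_pos h m; have := (ri_bd y m).1; have := hG0 m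
      have : 0 ≤ Real.log m - Λ m := sub_nonneg.2 vonMangoldt_le_log
      positivity
  set F := (univ.filter fun κ : DirichletCharacter ℂ M => κ.conductor ≤ Q) with hF
  have h1F : (1 : DirichletCharacter ℂ M) ∈ F :=
    mem_filter.2 ⟨mem_univ _, by rw [DirichletCharacter.conductor_one]; omega⟩
  rw [← sum_subset (subset_univ F) fun κ _ hκ => by
    rw [Gh, hvan κ (by simpa [hF] using hκ)]; simp, ← add_sum_erase _ _ h1F] at step1
  have hmem : ∀ κ ∈ F.erase 1, κ ≠ 1 ∧ κ.conductor ≤ Q := fun κ hκ =>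
    ⟨ne_of_mem_erase hκ, (mem_filter.1 (mem_of_mem_erase hκ)).2⟩
  -- principal character
  have hone : ∀ n, rough y n → (1 : DirichletCharacter ℂ M) n = ((fun _ => (1 : ℝ)) n : ℝ) :=
    fun n hn => one_char ((hM n).2 hn)
  have step2 : (Gh G (1 : DirichletCharacter ℂ M) * (L1 1 - P0 1)).re ≤
      c0 * (VV y * Z1 h + C * Real.log y - 45 / 100 * (U * Real.log y)) := by
    have a1 := hid 1
    simp only [hL0, hL1, hP0, hreal 1 _ hone] at a1 ⊢
    rw [hGh 1 1 fun n hn _ => hone n hn, one_mul, ← Complex.ofReal_sub, ← Complex.ofReal_mul,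
      Complex.ofReal_re]
    refine mul_le_mul_of_nonneg_left (hL.prin hC (show 2 ≤ Q ^ 2 by omega) hy hy4 hh hhU
      (by nlinarith) (tsum_nonneg fun n => ?_) (by exact_mod_cast a1)) hc00
    have := pw_pos h n; have := (ri_bd y n).1; have := vonMangoldt_nonneg (n := n); positivity
  -- mean squares
  have hpc : ∀ (κ : DirichletCharacter ℂ M) ω, Ls y (pc κ) ω = Ls y (fun n => κ n) ω := fun κ ω =>
    Ls_congr (fun n hn => pc_eq κ ((hM n).2 hn)) ω
  have f1 : (((F.erase 1).card : ℕ) : ℝ) ≤ (Q ^ 2 : ℕ) := by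
    exact_mod_cast card_erase_le.trans (card_cond_le Q)
  have f2 : ∀ κ ∈ F.erase 1, Osc (Q ^ 2 : ℕ) (pc κ) := fun κ hκ => by
    simpa only [pow_one] using osc_pc_pow (κ := κ) one_ne_zero (by simpa using (hmem κ hκ).1) (K := (Q ^ 2 : ℕ))
      (by exact_mod_cast (hmem κ hκ).2.trans hQz)
  have f3 : ∀ κ ∈ F.erase 1, ∀ κ' ∈ F.erase 1, κ ≠ κ' →
      Osc (Q ^ 2 : ℕ) (fun n => pc κ n * (starRingEnd ℂ) (pc κ' n)) := fun κ hκ κ' hκ' hne =>
    osc_pc_pair hne (by rw [sq]; exact_mod_cast Nat.mul_le_mul (hmem κ hκ).2 (hmem κ' hκ').2)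
  have m0 := hL.fam (show 2 ≤ Q ^ 2 by omega) hy (Wt.pw hh.le (i := fun _ => 1) (by simp) (by simp))
    one_pos (fun n hn => by rw [one_mul]; exact one_le_pow₀ (log_ratio (by omega) hn))
    (by simpa using summable_pw hh) _ pc f1 f2 f3
  have m1 := hL.fam (show 2 ≤ Q ^ 2 by omega) hy (wt_log hh) hl
    (fun n hn => log_le_ratio (by omega) hn) (summable_pw_log hh) _ pc f1 f2 f3
  simp only [mul_one, pw_one, Complex.ofReal_one, pc_one, hpc, Nat.cast_one, Real.log_one,
    Complex.ofReal_zero, sub_zero, one_mul] at m0 m1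
  set lam := 100 * C ^ 2 / U with hlam
  have hlam0 : 0 < lam := by positivity
  have step3 : ∀ κ ∈ F.erase 1, (Gh G κ * (L1 κ - P0 κ)).re ≤
      c0 * ((‖L1 κ‖ ^ 2 / Real.log y + Real.log y * ‖L0 κ - 1‖ ^ 2) / (2 * lam) +
        (if ∀ n, rough y n → κ n = χ0 n then 1 else 0) *
          (U * Real.log y / 8 + 17 * (C * Real.log y))) := by
    intro κ hκ
    have good : lam ≤ ‖L0 κ‖ → (Gh G κ * (L1 κ - P0 κ)).re ≤
        c0 * ((‖L1 κ‖ ^ 2 / Real.log y + Real.log y * ‖L0 κ - 1‖ ^ 2) / (2 * lam) +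
        (if ∀ n, rough y n → κ n = χ0 n then 1 else 0) *
          (U * Real.log y / 8 + 17 * (C * Real.log y))) := by
      intro hg
      refine (Complex.re_le_norm _).trans ?_
      rw [norm_mul]
      refine mul_le_mul (hGle κ) (le_add_of_le_of_nonneg ?_ (by split_ifs <;> positivity))
        (norm_nonneg _) hc00
      rw [le_div_iff₀ (by positivity), show L1 κ - P0 κ = P0 κ * (L0 κ - 1) by rw [hid]; ring, norm_mul]
      have a1 : ‖P0 κ‖ * lam ≤ ‖L1 κ‖ := by rw [hid, norm_mul]; gcongr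
      have a2 := mul_le_mul_of_nonneg_right a1 (norm_nonneg (L0 κ - 1))
      have a3 : 2 * (‖L1 κ‖ * ‖L0 κ - 1‖) ≤
          ‖L1 κ‖ ^ 2 / Real.log y + Real.log y * ‖L0 κ - 1‖ ^ 2 := by
        rw [div_add' _ _ _ hl.ne', le_div_iff₀ hl]
        nlinarith only [sq_nonneg (‖L1 κ‖ - Real.log y * ‖L0 κ - 1‖)]
      linarith
    by_cases h2 : κ ^ 2 = 1
    · obtain ⟨χ, r1, r2⟩ := exists_RC (hmem κ hκ).1 h2
      have r3 : ∀ n, rough y n → κ n = χ.χ n := fun n hn => by rw [← r2, pc_eq κ ((hM n).2 hn)]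
      have r4 : χ.r ≤ Q := r1 ▸ (hmem κ hκ).2
      rcases hexc χ r4 with h3 | h3
      · refine good ?_
        have a1 := (abs_le.1 (hL.ell (by linarith) (show 2 ≤ Q ^ 2 by omega) hy (by omega) hh χ
          (r4.trans hQz))).1
        have a2 : C * (h * Real.log y) = C / U := by field_simp; linarith
        have a3 : lam + C / U ≤ η := by
          rw [hlam, ← add_div, div_le_iff₀' hU0, ← div_le_iff₀ hη]; nlinarith
        simp only [hL0, hreal κ _ r3, Complex.norm_real]
        exact le_trans (by linarith) (le_abs_self _)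
      · have a1 := hid κ
        simp only [hL0, hL1, hP0, hreal κ _ r3] at a1
        have a2 := hL.exc hC (show 2 ≤ Q ^ 2 by omega) hy (by omega) hh hhU hZ χ (r4.trans hQz)
          (by exact_mod_cast a1)
        rw [if_pos fun n hn => by rw [r3 n hn, h3 n hn], one_mul,
          hGh κ (-1) fun n hn h4 => by rw [r3 n hn, h3 n hn, hχ0 n h4]]
        refine le_trans ?_ (mul_le_mul_of_nonneg_left (le_add_of_nonneg_left (by positivity)) hc00)
        simp only [hL1, hP0, hreal κ _ r3]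
        rw [← Complex.ofReal_sub, ← Complex.ofReal_mul, Complex.ofReal_re]
        linarith [mul_le_mul_of_nonneg_left a2 hc00]
    · refine good (le_of_not_gt fun h3 => ?_)
      have a1 := three_four_one hM κ hh
      have a2 := hL.oneC (by linarith) (show 2 ≤ Q ^ 2 by omega) hy (by omega) hh
        (osc_pc_pow two_ne_zero h2 (by exact_mod_cast (hmem κ hκ).2.trans hQz))
      rw [abs_of_nonneg hZ0] at a1
      have a3 : (2 * U) ^ 3 * lam ^ 4 * (1 + C) < 1 := by
        rw [show (2 * U) ^ 3 * lam ^ 4 * (1 + C) = 8 * (100 * C ^ 2) ^ 4 * (1 + C) / U by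
          rw [hlam]; field_simp; ring, div_lt_one hU0]; linarith
      refine absurd (a1.trans ?_) (not_le.2 a3)
      gcongr
  have step4 := sum_le_sum step3
  rw [← mul_sum, sum_add_distrib, ← sum_div, sum_add_distrib, ← sum_div, ← mul_sum, ← sum_mul,
    sum_boole] at step4
  have t1 : (((F.erase 1).filter fun κ : DirichletCharacter ℂ M =>
      ∀ n, rough y n → κ n = χ0 n).card : ℝ) ≤ 1 := by
    exact_mod_cast card_le_one.2 fun κ hκ κ' hκ' => by
      by_contra h0
      obtain ⟨u, a1, a2⟩ := exists_ne h0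
      exact a2 (by rw [(mem_filter.1 hκ).2 u ((hM u).1 a1), (mem_filter.1 hκ').2 u ((hM u).1 a1)])
  have t2 : ((C * Real.log y) ^ 2 / Real.log y + Real.log y * C ^ 2) / (2 * lam) =
      U * Real.log y / 100 := by rw [hlam]; field_simp; ring
  have t3 := step4.trans (mul_le_mul_of_nonneg_left (add_le_add (div_le_div_of_nonneg_right
    (add_le_add (div_le_div_of_nonneg_right m1 hl.le) (mul_le_mul_of_nonneg_left m0 hl.le))
    (by positivity)) (mul_le_mul_of_nonneg_right t1 (by positivity))) hc00)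
  rw [t2] at t3
  refine step1.trans ((add_le_add step2 t3).trans ?_)
  rw [← mul_add]
  refine mul_le_mul_of_nonneg_left ?_ hc00
  linarith [mul_le_mul_of_nonneg_right u3 hl.le, mul_pos hU0 hl]

end Pool.Agent.P.MP_746f10_nt
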