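import Mathlib
import Pool.Agent.P.MP_746f10_nt.Loc
import Pool.Agent.P.MP_746f10_nt.Gam

/-! Small definitions and counting lemmas used in several places. -/

set_option linter.unusedSectionVars false

namespace Pool.Agent.P.MP_746f10_nt

open Finset

lemma sum_Ico_classes {M : Type*} [AddCommMonoid M] {r : ℕ} (hr : 0 < r) (N N' : ℕ) (F : ℕ → M) :
    ∑ m ∈ Ico (r * N) (r * N'), F m = ∑ b ∈ range r, ∑ n ∈ Ico N N', F (r * n + b) := by
  rw [← sum_product']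
  refine sum_nbij' (fun m => (m % r, m / r)) (fun x => r * x.2 + x.1) ?_ ?_ ?_ ?_ ?_
  · intro m hm
    simp only [mem_Ico, mem_product, mem_range] at hm ⊢
    exact ⟨Nat.mod_lt _ hr, (Nat.le_div_iff_mul_le hr).2 (by linarith [hm.1]),
      (Nat.div_lt_iff_lt_mul hr).2 (by linarith [hm.2])⟩
  · intro x hx
    simp only [mem_Ico, mem_product, mem_range] at hx ⊢
    constructor <;> nlinarith [hx.1, hx.2.1, hx.2.2]
  · intro m _; exact Nat.div_add_mod m r
  · intro x hx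
    simp only [mem_Ico, mem_product, mem_range] at hx
    simp [Nat.mod_eq_of_lt hx.1, Nat.mul_add_div hr, Nat.div_eq_of_lt hx.1]
  · intro m _; simp [Nat.div_add_mod]

lemma totient_real (r : ℕ) : (r.totient : ℝ) = r * ∏ p ∈ r.primeFactors, (1 - 1 / (p : ℝ)) := by
  have := congrArg (fun x : ℚ => (x : ℝ)) (Nat.totient_eq_mul_prod_factors r)
  simpa using this

open Classical in
/-- Primes in a range at which the character equals one. -/
noncomputable def RC.Pp (c : RC) (Z1 Z2 : ℕ) : Finset ℕ := (PP Z1 Z2).filter (fun p => c.χ p = 1)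

/-- Sum of reciprocals of the primes at which the character equals one. -/
noncomputable def RC.sig (c : RC) (Z1 Z2 : ℕ) : ℝ := ∑ p ∈ c.Pp Z1 Z2, 1 / (p : ℝ)

lemma RC.mem_Pp {c : RC} {Z1 Z2 p : ℕ} : p ∈ c.Pp Z1 Z2 ↔ (Z1 < p ∧ p ≤ Z2 ∧ p.Prime) ∧ c.χ p = 1 := by
  simp [RC.Pp, mem_PP]

lemma RC.sig_nonneg (c : RC) (Z1 Z2 : ℕ) : 0 ≤ c.sig Z1 Z2 := sum_nonneg fun _ _ => by positivity

lemma RC.fac_close (c : RC) (p : ℕ) : |1 - c.χ p / p - 1| ≤ 3 / p := by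
  rw [sub_sub_cancel_left, abs_neg, abs_div, Nat.abs_cast]
  gcongr; linarith [c.abs_le p]

open Classical in
/-- Indicator of divisibility by the square of a large prime. -/
noncomputable def sqi (z m : ℕ) : ℝ := if ∃ p, p.Prime ∧ z < p ∧ p ^ 2 ∣ m then 1 else 0

/-- The divisor sum at the cofactor of `p`. -/
noncomputable def RC.mu (c : RC) (p m : ℕ) : ℝ := if p ∣ m then c.gam (m / p) else 0

lemma sqi_nonneg (z m : ℕ) : 0 ≤ sqi z m := by unfold sqi; split_ifs <;> norm_num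

lemma RC.mu_nonneg (c : RC) (p m : ℕ) : 0 ≤ c.mu p m := by
  unfold RC.mu; split_ifs; exacts [c.gam_nonneg _, le_rfl]

lemma exists_pow_le (A α β d : ℕ) : ∃ m : ℕ, A * (α + β * m) ^ d ≤ 2 ^ m := by
  have h := tendsto_pow_const_div_const_pow_of_one_lt d (r := 2) (by norm_num)
  have hp : (0 : ℝ) < 1 / (A * (α + β) ^ d + 1) := by positivity
  obtain ⟨m, h1, h2⟩ := ((h.eventually (gt_mem_nhds hp)).and (Filter.eventually_ge_atTop 1)).exists
  refine ⟨m, ?_⟩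
  rw [div_lt_div_iff₀ (by positivity) (by positivity)] at h1
  have h3 : (A : ℝ) * (α + β * m) ^ d ≤ A * ((α + β) * m) ^ d := by
    have : (1 : ℝ) ≤ m := by exact_mod_cast h2
    gcongr; nlinarith [(Nat.cast_nonneg α : (0 : ℝ) ≤ α)]
  have h4 : (0 : ℝ) ≤ (m : ℝ) ^ d := by positivity
  rw [mul_pow] at h3
  exact_mod_cast (by nlinarith : (A : ℝ) * (α + β * m) ^ d ≤ 2 ^ m)

lemma sum_prime_le_one {ι : Type*} [Fintype ι] [DecidableEq ι] {L : ι → ℕ}
    (h : ∀ i j, i ≠ j → ¬ ((L i).Prime ∧ (L j).Prime)) :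
    ∑ j, (if (L j).Prime then (1 : ℝ) else 0) ≤ 1 := by
  rw [sum_boole]
  exact_mod_cast card_le_one.2 fun i hi j hj => by
    by_contra h0; exact h i j h0 ⟨(mem_filter.1 hi).2, (mem_filter.1 hj).2⟩

variable {ι : Type*} [Fintype ι] [DecidableEq ι] {a b : ι → ℕ}

lemma HC_anti {P : Finset ℕ} (hP : ∀ p ∈ P, p.Prime) {ω : ℕ → ℝ} {N1 N2 : ℕ} (h : N1 ≤ N2)
    (h0 : ∀ n, N1 ≤ n → 0 ≤ ω n) (h1 : ∀ n, N1 ≤ n → ω (n + 1) ≤ ω n) (Lvl : ℕ) :
    HC a b (Ico N1 N2) ω P ∅ (∑ n ∈ Ico N1 N2, ω n) (fun _ => 1) (ω N1) Lvl := by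
  intro T hT _ c _
  have hq : 0 < ∏ p ∈ T, p := prod_pos fun p hp => (hP p (hT hp)).pos
  have := abel_le_real (fun n => (if n ≡ c [MOD ∏ p ∈ T, p] then (1 : ℝ) else 0) - 1 / (∏ p ∈ T, p : ℕ))
    ω N1 N2 1 h0 h1 (fun x hx _ => by
      rw [sum_sub_distrib, sum_const, Nat.card_Ico, nsmul_eq_mul, Nat.cast_sub hx, mul_one_div]
      exact count_class hq c hx) h
  rw [one_mul] at this
  refine le_trans (le_of_eq ?_) this
  rw [sum_mul, ← sum_sub_distrib, prod_div_distrib, prod_const_one, Nat.cast_prod]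
  congr 1
  exact sum_congr rfl fun n _ => by ring

lemma HC_exact {P : Finset ℕ} (hP : ∀ p ∈ P, p.Prime) {M : ℕ} (hM : ∀ p ∈ P, p ∣ M) (Lvl : ℕ) :
    HC a b (range M) (fun _ => 1) P ∅ M (fun _ => 1) 0 Lvl := by
  intro T hT _ c _
  have hq : 0 < ∏ p ∈ T, p := prod_pos fun p hp => (hP p (hT hp)).pos
  obtain ⟨k, hk⟩ : ∏ p ∈ T, p ∣ M :=
    prod_primes_dvd M (fun p hp => (hP p (hT hp)).prime) fun p hp => hM p (hT hp)
  rw [prod_div_distrib, prod_const_one, ← Nat.cast_prod]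
  generalize ∏ p ∈ T, p = q at *
  simp only [one_mul, sum_boole]
  rw [← Nat.count_eq_card_filter_range, Nat.count_modEq_card _ hq, hk, Nat.mul_mod_right,
    Nat.mul_div_cancel_left _ hq]
  have : (q : ℝ) ≠ 0 := by positivity
  simp; field_simp; ring

end Pool.Agent.P.MP_746f10_nt
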