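import Mathlib
import Pool.Agent.P.MP_746f10_nt.Atoms

/-! The choice of the multidimensional weights and the gain in the dimension. -/

set_option linter.unusedSectionVars false

namespace Pool.Agent.P.MP_746f10_nt

open Finset

/-- The one dimensional profile. -/
noncomputable def gg (w s0 J : ℕ) (r : Finset ℕ) : ℝ :=
  (1 / 2) * ∑ j ∈ range (J + 1), (1 / 2) ^ j * if ∏ p ∈ r, p ≤ w ^ (s0 * 2 ^ j) then 1 else 0

/-- Inverse totient of a set of primes. -/
noncomputable def ip (r : Finset ℕ) : ℝ := ∏ p ∈ r, ((p : ℝ) - 1)⁻¹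

lemma ip_nonneg {w R : ℕ} {r : Finset ℕ} (h : r ⊆ PP w R) : 0 ≤ ip r :=
  prod_nonneg fun p hp => by have := PP_two (h hp); exact inv_nonneg.2 (by linarith)

lemma sum_half_le (a b : ℕ) : ∑ j ∈ Ico a b, ((1 : ℝ) / 2) ^ j ≤ 2 * (1 / 2) ^ a := by
  have := geom_sum_Ico_le_of_lt_one (x := (1 / 2 : ℝ)) (m := a) (n := b) (by norm_num) (by norm_num)
  linarith [show ((1 : ℝ) / 2) ^ a / (1 - 1 / 2) = 2 * (1 / 2) ^ a by ring]

lemma gg_nonneg (w s0 J : ℕ) (r : Finset ℕ) : 0 ≤ gg w s0 J r := by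
  unfold gg
  refine mul_nonneg (by norm_num) (sum_nonneg fun j _ => mul_nonneg (by positivity) ?_)
  split_ifs <;> norm_num

/-- Either the profile vanishes, or it is controlled by the first admissible level. -/
lemma gg_cases (w s0 J : ℕ) (r : Finset ℕ) : gg w s0 J r = 0 ∨
    ∃ j ≤ J, ∏ p ∈ r, p ≤ w ^ (s0 * 2 ^ j) ∧ gg w s0 J r ≤ (1 / 2) ^ j := by
  classical
  by_cases h : ∃ j, j ≤ J ∧ ∏ p ∈ r, p ≤ w ^ (s0 * 2 ^ j)
  · right
    refine ⟨Nat.find h, (Nat.find_spec h).1, (Nat.find_spec h).2, ?_⟩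
    have h1 : ∑ j ∈ range (J + 1), ((1 : ℝ) / 2) ^ j *
        (if ∏ p ∈ r, p ≤ w ^ (s0 * 2 ^ j) then (1 : ℝ) else 0) ≤
        ∑ j ∈ Ico (Nat.find h) (J + 1), ((1 : ℝ) / 2) ^ j := by
      have e : Ico (Nat.find h) (J + 1) = (range (J + 1)).filter (fun j => Nat.find h ≤ j) := by
        ext j; simp [and_comm]
      rw [e, sum_filter]
      refine sum_le_sum fun j hj => ?_
      by_cases hc : ∏ p ∈ r, p ≤ w ^ (s0 * 2 ^ j)
      · have : Nat.find h ≤ j := Nat.find_min' h ⟨by have := mem_range.1 hj; omega, hc⟩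
        simp [hc, this]
      · rw [if_neg hc, mul_zero]; split_ifs <;> positivity
    have := sum_half_le (Nat.find h) (J + 1)
    unfold gg; linarith
  · left
    unfold gg
    rw [sum_eq_zero, mul_zero]
    intro j hj
    rw [if_neg, mul_zero]
    intro hc; exact h ⟨j, by have := mem_range.1 hj; omega, hc⟩

lemma gg_le_one (w s0 J : ℕ) (r : Finset ℕ) : gg w s0 J r ≤ 1 := by
  rcases gg_cases w s0 J r with h | ⟨j, _, _, h⟩
  · rw [h]; norm_num
  · exact h.trans (pow_le_one₀ (by norm_num) (by norm_num))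

lemma gg_ge (w s0 J : ℕ) (r : Finset ℕ) :
    (1 / 2) * (if ∏ p ∈ r, p ≤ w ^ s0 then (1 : ℝ) else 0) ≤ gg w s0 J r := by
  unfold gg
  refine mul_le_mul_of_nonneg_left ?_ (by norm_num)
  have := single_le_sum (s := range (J + 1)) (a := 0)
    (f := fun j => ((1 : ℝ) / 2) ^ j * if ∏ p ∈ r, p ≤ w ^ (s0 * 2 ^ j) then 1 else 0)
    (fun j _ => mul_nonneg (by positivity) (by split_ifs <;> norm_num)) (by simp)
  simpa using this

lemma gg_empty {w : ℕ} (hw : 1 ≤ w) (s0 J : ℕ) : 1 / 2 ≤ gg w s0 J ∅ := by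
  have := gg_ge w s0 J ∅
  rw [if_pos (by simpa using Nat.one_le_pow _ _ hw)] at this
  linarith

lemma gg_supp {w s0 J : ℕ} (hw : 1 ≤ w) {r : Finset ℕ} (h : gg w s0 J r ≠ 0) :
    ∏ p ∈ r, p ≤ w ^ (s0 * 2 ^ J) := by
  rcases gg_cases w s0 J r with h0 | ⟨j, hj, h1, _⟩
  · exact absurd h0 h
  · exact h1.trans (Nat.pow_le_pow_right hw
      (Nat.mul_le_mul_left _ (Nat.pow_le_pow_right (by norm_num) hj)))

lemma gg_sq_le (w s0 J : ℕ) (r : Finset ℕ) : gg w s0 J r ^ 2 ≤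
    ∑ j ∈ range (J + 1), (1 / 4) ^ j * if ∏ p ∈ r, p ≤ w ^ (s0 * 2 ^ j) then (1 : ℝ) else 0 := by
  have hn : ∀ j ∈ range (J + 1), (0 : ℝ) ≤
      (1 / 4) ^ j * if ∏ p ∈ r, p ≤ w ^ (s0 * 2 ^ j) then (1 : ℝ) else 0 :=
    fun j _ => mul_nonneg (by positivity) (by split_ifs <;> norm_num)
  rcases gg_cases w s0 J r with h0 | ⟨j, hj, h1, h2⟩
  · rw [h0]; simpa using sum_nonneg hn
  · have := single_le_sum hn (show j ∈ range (J + 1) by simp; omega)
    rw [if_pos h1, mul_one] at this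
    refine le_trans ?_ this
    calc gg w s0 J r ^ 2 ≤ ((1 / 2) ^ j) ^ 2 := pow_le_pow_left₀ (gg_nonneg _ _ _ _) h2 2
      _ = (1 / 4) ^ j := by rw [← pow_mul, mul_comm, pow_mul]; norm_num

lemma gg_mul_log {w s0 J : ℕ} (hw : 1 ≤ w) {r : Finset ℕ} (hr : ∀ p ∈ r, 1 ≤ p) :
    gg w s0 J r * Real.log (∏ p ∈ r, p : ℕ) ≤ s0 * Real.log w := by
  have hw' : 0 ≤ Real.log w := Real.log_nonneg (by exact_mod_cast hw)
  rcases gg_cases w s0 J r with h0 | ⟨j, hj, h1, h2⟩
  · rw [h0, zero_mul]; positivity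
  · have hp : 1 ≤ ∏ p ∈ r, p := Nat.one_le_iff_ne_zero.2 (prod_ne_zero_iff.2 fun p hp => by
      have := hr p hp; omega)
    have h3 : Real.log (∏ p ∈ r, p : ℕ) ≤ (s0 * 2 ^ j : ℕ) * Real.log w := by
      rw [← Real.log_pow]
      exact Real.log_le_log (by exact_mod_cast hp) (by exact_mod_cast h1)
    have h4 : 0 ≤ Real.log (∏ p ∈ r, p : ℕ) := Real.log_nonneg (by exact_mod_cast hp)
    calc gg w s0 J r * Real.log (∏ p ∈ r, p : ℕ) ≤ (1 / 2) ^ j * ((s0 * 2 ^ j : ℕ) * Real.log w) :=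
          mul_le_mul h2 h3 h4 (by positivity)
      _ = s0 * Real.log w := by
          push_cast
          have : ((1 : ℝ) / 2) ^ j * 2 ^ j = 1 := by rw [← mul_pow]; norm_num
          linear_combination (s0 * Real.log w) * this

/-- First moment of the profile. -/
noncomputable def a1 (w s0 J R : ℕ) : ℝ := ∑ r ∈ (PP w R).powerset, gg w s0 J r * ip r

/-- Second moment of the profile. -/
noncomputable def a2 (w s0 J R : ℕ) : ℝ := ∑ r ∈ (PP w R).powerset, gg w s0 J r ^ 2 * ip r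

lemma hh_eq (w R Y : ℕ) : hh w R Y =
    ∑ r ∈ (PP w R).powerset, (if ∏ p ∈ r, p ≤ Y then (1 : ℝ) else 0) * ip r := by
  unfold hh ip
  refine sum_congr rfl fun r _ => ?_
  split_ifs <;> simp

lemma hh_pow_le {w : ℕ} (hw : 2 ≤ w) (R : ℕ) {e : ℕ} (he : 1 ≤ e) :
    hh w R (w ^ e) ≤ CM * (VV w * Real.log w) * e := by
  have h1 : w ≤ w ^ e := Nat.le_self_pow (by omega) w
  refine (hh_le w R _).trans ((Th_le h1 (hw.trans h1)).trans (le_of_eq ?_))
  push_cast; rw [Real.log_pow]; ring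

lemma hh_pow_ge {w R e : ℕ} (hw : 2 ≤ w) (h : w ^ e ≤ R) :
    (VV w * Real.log w) * e ≤ hh w R (w ^ e) := by
  refine le_trans ?_ (hh_ge h)
  have h1 : e * Real.log w ≤ Real.log ((w ^ e : ℕ) + 1) := by
    rw [← Real.log_pow]
    exact Real.log_le_log (by positivity) (by push_cast; linarith)
  have := VV_pos w
  nlinarith

lemma a1_eq (w s0 J R : ℕ) : a1 w s0 J R =
    (1 / 2) * ∑ j ∈ range (J + 1), (1 / 2) ^ j * hh w R (w ^ (s0 * 2 ^ j)) := by
  unfold a1 gg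
  simp_rw [hh_eq, mul_sum, sum_mul]
  rw [sum_comm]
  refine sum_congr rfl fun j _ => sum_congr rfl fun r _ => by ring

lemma half_pow_mul (j : ℕ) : ((1 : ℝ) / 2) ^ j * 2 ^ j = 1 := by rw [← mul_pow]; norm_num

lemma a1_ge {w s0 J R : ℕ} (hw : 2 ≤ w) (hR : w ^ (s0 * 2 ^ J) ≤ R) :
    (J + 1) * (VV w * Real.log w * s0) / 2 ≤ a1 w s0 J R := by
  rw [a1_eq]
  have : ∑ j ∈ range (J + 1), (VV w * Real.log w * s0) ≤
      ∑ j ∈ range (J + 1), (1 / 2) ^ j * hh w R (w ^ (s0 * 2 ^ j)) := by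
    refine sum_le_sum fun j hj => ?_
    have h1 : w ^ (s0 * 2 ^ j) ≤ R := le_trans (Nat.pow_le_pow_right (by omega)
      (Nat.mul_le_mul_left _ (Nat.pow_le_pow_right (by norm_num)
        (by have := mem_range.1 hj; omega)))) hR
    have h2 := mul_le_mul_of_nonneg_left (hh_pow_ge hw h1) (show (0 : ℝ) ≤ (1 / 2) ^ j by positivity)
    refine le_trans (le_of_eq ?_) h2
    push_cast
    linear_combination (-(VV w * Real.log w * s0)) * half_pow_mul j
  simp only [sum_const, card_range, nsmul_eq_mul] at this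
  push_cast at this
  linarith

lemma a1_le {w s0 : ℕ} (hw : 2 ≤ w) (hs : 1 ≤ s0) (J R : ℕ) :
    a1 w s0 J R ≤ (J + 1) * (CM * (VV w * Real.log w * s0)) / 2 := by
  rw [a1_eq]
  have : ∑ j ∈ range (J + 1), (1 / 2) ^ j * hh w R (w ^ (s0 * 2 ^ j)) ≤
      ∑ j ∈ range (J + 1), CM * (VV w * Real.log w * s0) := by
    refine sum_le_sum fun j hj => ?_
    have h2 := mul_le_mul_of_nonneg_left (hh_pow_le hw R (e := s0 * 2 ^ j)
      (Nat.mul_pos hs (by positivity))) (show (0 : ℝ) ≤ (1 / 2) ^ j by positivity)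
    refine h2.trans (le_of_eq ?_)
    push_cast
    linear_combination (CM * (VV w * Real.log w * s0)) * half_pow_mul j
  simp only [sum_const, card_range, nsmul_eq_mul] at this
  push_cast at this
  linarith

lemma a2_ge {w s0 R : ℕ} (hw : 2 ≤ w) (J : ℕ) (hR : w ^ s0 ≤ R) :
    (VV w * Real.log w * s0) / 4 ≤ a2 w s0 J R := by
  have h := hh_pow_ge hw hR
  rw [hh_eq] at h
  have : (1 / 4) * ∑ r ∈ (PP w R).powerset, (if ∏ p ∈ r, p ≤ w ^ s0 then (1 : ℝ) else 0) * ip r ≤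
      a2 w s0 J R := by
    unfold a2
    rw [mul_sum]
    refine sum_le_sum fun r hr => ?_
    rw [← mul_assoc]
    refine mul_le_mul_of_nonneg_right ?_ (ip_nonneg (mem_powerset.1 hr))
    have := gg_ge w s0 J r
    split_ifs at this ⊢
    · nlinarith
    · simpa using sq_nonneg _
  linarith

lemma a2_le {w s0 : ℕ} (hw : 2 ≤ w) (hs : 1 ≤ s0) (J R : ℕ) :
    a2 w s0 J R ≤ 2 * (CM * (VV w * Real.log w * s0)) := by
  have hv : 0 ≤ CM * (VV w * Real.log w * s0) := by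
    have := VV_pos w; have := one_le_CM
    have : 0 ≤ Real.log w := Real.log_natCast_nonneg w
    positivity
  calc a2 w s0 J R ≤ ∑ r ∈ (PP w R).powerset, (∑ j ∈ range (J + 1),
        (1 / 4) ^ j * if ∏ p ∈ r, p ≤ w ^ (s0 * 2 ^ j) then (1 : ℝ) else 0) * ip r :=
        sum_le_sum fun r hr => mul_le_mul_of_nonneg_right (gg_sq_le _ _ _ _)
          (ip_nonneg (mem_powerset.1 hr))
    _ = ∑ j ∈ range (J + 1), (1 / 4) ^ j * hh w R (w ^ (s0 * 2 ^ j)) := by
        simp_rw [hh_eq, mul_sum, sum_mul]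
        rw [sum_comm]
        refine sum_congr rfl fun j _ => sum_congr rfl fun r _ => by ring
    _ ≤ ∑ j ∈ range (J + 1), (1 / 2) ^ j * (CM * (VV w * Real.log w * s0)) := by
        refine sum_le_sum fun j hj => ?_
        have h2 := mul_le_mul_of_nonneg_left (hh_pow_le hw R (e := s0 * 2 ^ j)
          (Nat.mul_pos hs (by positivity))) (show (0 : ℝ) ≤ (1 / 4) ^ j by positivity)
        refine h2.trans (le_of_eq ?_)
        push_cast
        have : ((1 : ℝ) / 4) ^ j * 2 ^ j = (1 / 2) ^ j := by rw [← mul_pow]; norm_num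
        linear_combination (CM * (VV w * Real.log w * s0)) * this
    _ ≤ _ := by
        rw [← sum_mul, range_eq_Ico]
        have := sum_half_le 0 (J + 1)
        simp only [pow_zero, mul_one] at this
        exact mul_le_mul_of_nonneg_right this hv

lemma a1_nonneg (w s0 J R : ℕ) : 0 ≤ a1 w s0 J R :=
  sum_nonneg fun _ hr => mul_nonneg (gg_nonneg _ _ _ _) (ip_nonneg (mem_powerset.1 hr))

lemma a2_nonneg (w s0 J R : ℕ) : 0 ≤ a2 w s0 J R :=
  sum_nonneg fun _ hr => mul_nonneg (sq_nonneg _) (ip_nonneg (mem_powerset.1 hr))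

lemma a3_le {w s0 : ℕ} (hw : 2 ≤ w) (J R : ℕ) :
    ∑ r ∈ (PP w R).powerset, gg w s0 J r ^ 2 * ip r * Real.log (∏ p ∈ r, p : ℕ) ≤
      s0 * Real.log w * a1 w s0 J R := by
  unfold a1
  rw [mul_sum]
  refine sum_le_sum fun r hr => ?_
  have h1 := gg_mul_log (w := w) (s0 := s0) (J := J) (by omega) (r := r)
    (fun p hp => (PP_prime (mem_powerset.1 hr hp)).one_le)
  have h2 := mul_nonneg (gg_nonneg w s0 J r) (ip_nonneg (mem_powerset.1 hr))
  calc _ = (gg w s0 J r * Real.log (∏ p ∈ r, p : ℕ)) * (gg w s0 J r * ip r) := by ring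
    _ ≤ _ := mul_le_mul_of_nonneg_right h1 h2

variable {κ : Type*} [Fintype κ] [DecidableEq κ]

/-- The full weight. -/
noncomputable def yy (w s0 J R : ℕ) (S : Finset (ℕ × κ)) : ℝ :=
  (∏ l, gg w s0 J (sl S l)) * if dd Prod.fst S ≤ R then 1 else 0

/-- The weight collapsed to the coordinates in `I`. -/
noncomputable def yI (w s0 J R : ℕ) (I : Finset κ) : Finset (ℕ × κ) → ℝ :=
  col Prod.fst (AA w R Iᶜ) (yy w s0 J R)

/-- The diagonal form for the coordinates in `I`. -/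
noncomputable def JJ (w s0 J R : ℕ) (I : Finset κ) : ℝ :=
  diag Prod.fst (AA w R I) (yI w s0 J R I)

lemma yy_nonneg (w s0 J R : ℕ) (S : Finset (ℕ × κ)) : 0 ≤ yy w s0 J R S :=
  mul_nonneg (prod_nonneg fun _ _ => gg_nonneg _ _ _ _) (by split_ifs <;> norm_num)

lemma yy_le_one (w s0 J R : ℕ) (S : Finset (ℕ × κ)) : yy w s0 J R S ≤ 1 :=
  mul_le_one₀ (prod_le_one (fun _ _ => gg_nonneg _ _ _ _) fun _ _ => gg_le_one _ _ _ _)
    (by split_ifs <;> norm_num) (by split_ifs <;> norm_num)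

lemma yI_nonneg (w s0 J R : ℕ) (I : Finset κ) (S : Finset (ℕ × κ)) : 0 ≤ yI w s0 J R I S :=
  sum_nonneg fun _ hT => mul_nonneg (yy_nonneg _ _ _ _ _)
    (ph_nonneg fun a ha => AA_two a (mem_powerset.1 hT ha))

lemma abs_yI_le (w s0 J R : ℕ) (I : Finset κ) (S : Finset (ℕ × κ)) :
    |yI w s0 J R I S| ≤ Th w R ^ Iᶜ.card := by
  rw [abs_of_nonneg (yI_nonneg _ _ _ _ _ _), ← TT_AA, TT_eq AA_two]
  exact sum_le_sum fun T hT => mul_le_of_le_one_left
    (ph_nonneg fun a ha => AA_two a (mem_powerset.1 hT ha)) (yy_le_one _ _ _ _ _)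

lemma yI_supp {w s0 J R : ℕ} {I : Finset κ} {S : Finset (ℕ × κ)} (hS : S ⊆ AA w R I)
    (h : yI w s0 J R I S ≠ 0) : dd Prod.fst S ≤ R := by
  obtain ⟨T, hT, h⟩ := exists_ne_zero_of_sum_ne_zero h
  have h1 : dd Prod.fst (S ∪ T) ≤ R := by
    by_contra hc
    apply h; unfold yy; rw [if_neg hc]; simp
  refine le_trans (dd_mono ?_ subset_union_left) h1
  intro a ha
  rcases mem_union.1 ha with ha | ha
  · exact AA_two a (hS ha)
  · exact AA_two a (mem_powerset.1 hT ha)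

lemma prod_gg_union {w s0 J R : ℕ} {I : Finset κ} {S T : Finset (ℕ × κ)} (hS : S ⊆ AA w R I)
    (hT : T ⊆ AA w R Iᶜ) : ∏ l, gg w s0 J (sl (S ∪ T) l) =
      (∏ l ∈ I, gg w s0 J (sl S l)) * ∏ l ∈ Iᶜ, gg w s0 J (sl T l) := by
  rw [← prod_mul_prod_compl I]
  congr 1
  · refine prod_congr rfl fun l hl => ?_
    rw [sl_union, sl_eq_empty hT (by simpa using hl), union_empty]
  · refine prod_congr rfl fun l hl => ?_
    rw [sl_union, sl_eq_empty hS (by simpa using hl), empty_union]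

lemma ph_eq_sl {w R : ℕ} {I : Finset κ} {S : Finset (ℕ × κ)} (hS : S ⊆ AA w R I) :
    ph Prod.fst S = ∏ l ∈ I, ip (sl S l) := prod_sl hS (fun p => ((p : ℝ) - 1)⁻¹)

lemma sum_T_eq (w s0 J R : ℕ) (I : Finset κ) :
    ∑ T ∈ (AA w R I).powerset, (∏ l ∈ I, gg w s0 J (sl T l)) * ph Prod.fst T =
      a1 w s0 J R ^ I.card := by
  have := sum_AA_prod w R I (fun _ r => gg w s0 J r * ip r)
  rw [prod_const] at this
  unfold a1
  rw [← this]
  refine sum_congr rfl fun T hT => ?_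
  rw [ph_eq_sl (mem_powerset.1 hT), prod_mul_distrib]

lemma yI_le {w s0 J R : ℕ} {I : Finset κ} {S : Finset (ℕ × κ)} (hS : S ⊆ AA w R I) :
    yI w s0 J R I S ≤ (∏ l ∈ I, gg w s0 J (sl S l)) * a1 w s0 J R ^ Iᶜ.card := by
  rw [← sum_T_eq, mul_sum]
  refine sum_le_sum fun T hT => ?_
  rw [← mul_assoc, ← prod_gg_union hS (mem_powerset.1 hT)]
  refine mul_le_mul_of_nonneg_right ?_ (ph_nonneg fun a ha => AA_two a (mem_powerset.1 hT ha))
  exact mul_le_of_le_one_right (prod_nonneg fun _ _ => gg_nonneg _ _ _ _)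
    (by split_ifs <;> norm_num)

lemma yI_eq {w s0 J R : ℕ} (hw : 1 ≤ w) {I : Finset κ} (hI : Iᶜ.card ≤ 2)
    (hR : w ^ (4 * (s0 * 2 ^ J)) ≤ R) {S : Finset (ℕ × κ)} (hS : S ⊆ AA w R I)
    (hd : dd Prod.fst S ^ 2 ≤ R) :
    yI w s0 J R I S = (∏ l ∈ I, gg w s0 J (sl S l)) * a1 w s0 J R ^ Iᶜ.card := by
  rw [← sum_T_eq, mul_sum]
  refine sum_congr rfl fun T hT => ?_
  have hT' := mem_powerset.1 hT
  rw [← mul_assoc, ← prod_gg_union hS hT']
  congr 1
  unfold yy
  by_cases h0 : ∏ l, gg w s0 J (sl (S ∪ T) l) = 0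
  · rw [h0, zero_mul]
  · rw [if_pos, mul_one]
    rw [prod_gg_union hS hT'] at h0
    have h1 := prod_ne_zero_iff.1 (right_ne_zero_of_mul h0)
    have h2 : dd Prod.fst T ≤ (w ^ (s0 * 2 ^ J)) ^ 2 := by
      unfold dd
      rw [prod_sl hT' (fun p => p)]
      refine (prod_le_pow_card _ _ _ fun l hl => gg_supp hw (h1 l hl)).trans ?_
      exact Nat.pow_le_pow_right (Nat.one_le_pow _ _ hw) hI
    have h3 : dd Prod.fst T ^ 2 ≤ R := by
      refine le_trans (Nat.pow_le_pow_left h2 2) (le_trans (le_of_eq ?_) hR)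
      rw [← pow_mul, ← pow_mul]; congr 1; ring
    have h4 := dd_union_le (π := Prod.fst) T (fun a ha => AA_two a (hS ha))
    have h5 : (dd Prod.fst S * dd Prod.fst T) ^ 2 ≤ R ^ 2 := by
      rw [mul_pow, sq R]; exact Nat.mul_le_mul hd h3
    exact h4.trans (Nat.pow_le_pow_iff_left (by norm_num) |>.1 h5)

lemma sum_sq_eq (w s0 J R : ℕ) (I : Finset κ) :
    ∑ S ∈ (AA w R I).powerset, ∏ l ∈ I, (gg w s0 J (sl S l) ^ 2 * ip (sl S l)) =
      a2 w s0 J R ^ I.card := by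
  have := sum_AA_prod w R I (fun _ r => gg w s0 J r ^ 2 * ip r)
  rw [prod_const] at this
  exact this

theorem JJ_le (w s0 J R : ℕ) (I : Finset κ) :
    JJ w s0 J R I ≤ (a1 w s0 J R ^ 2) ^ Iᶜ.card * a2 w s0 J R ^ I.card := by
  rw [← sum_sq_eq, mul_sum]
  refine sum_le_sum fun S hS => ?_
  have hS' := mem_powerset.1 hS
  rw [prod_mul_distrib, ← ph_eq_sl hS', ← mul_assoc]
  refine mul_le_mul_of_nonneg_right ?_ (ph_nonneg fun a ha => AA_two a (hS' ha))
  refine (pow_le_pow_left₀ (yI_nonneg _ _ _ _ _ _) (yI_le hS') 2).trans (le_of_eq ?_)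
  rw [mul_pow, prod_pow, ← pow_mul, ← pow_mul, mul_comm 2, mul_comm]

theorem JJ_ge_four {w : ℕ} (hw : 1 ≤ w) (s0 J : ℕ) {R : ℕ} (hR : 1 ≤ R) (I : Finset κ) :
    (1 / 4 : ℝ) ^ Fintype.card κ ≤ JJ w s0 J R I := by
  refine le_trans ?_ (sq_le_diag AA_two _)
  have h1 : (1 / 2 : ℝ) ^ Fintype.card κ ≤ yy w s0 J R (∅ : Finset (ℕ × κ)) := by
    unfold yy
    rw [if_pos (by simpa [dd] using hR), mul_one]
    have : ∀ l : κ, sl (∅ : Finset (ℕ × κ)) l = ∅ := fun l => by simp [sl]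
    simp only [this, prod_const, card_univ]
    exact pow_le_pow_left₀ (by norm_num) (gg_empty hw _ _) _
  have h2 : yy w s0 J R (∅ : Finset (ℕ × κ)) ≤ yI w s0 J R I ∅ := by
    have := single_le_sum (s := (AA w R Iᶜ).powerset) (a := ∅)
      (f := fun T => yy w s0 J R (∅ ∪ T) * ph Prod.fst T)
      (fun T hT => mul_nonneg (yy_nonneg _ _ _ _ _)
        (ph_nonneg fun a ha => AA_two a (mem_powerset.1 hT ha))) (by simp)
    simpa [ph, yI, col] using this
  calc (1 / 4 : ℝ) ^ Fintype.card κ = ((1 / 2) ^ Fintype.card κ) ^ 2 := by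
        rw [← pow_mul, mul_comm, pow_mul]; norm_num
    _ ≤ _ := pow_le_pow_left₀ (by positivity) (h1.trans h2) 2

theorem JJ_ge {w s0 J M : ℕ} (hw : 2 ≤ w) (hs : 1 ≤ s0) {I : Finset κ} (hI : Iᶜ.card ≤ 2)
    (hM1 : 4 * 2 ^ J ≤ M) (hM2 : 8 * Fintype.card κ * (J + 1) * CM ≤ M) :
    (a1 w s0 J (w ^ (s0 * M)) ^ 2) ^ Iᶜ.card * a2 w s0 J (w ^ (s0 * M)) ^ I.card / 2 ≤
      JJ w s0 J (w ^ (s0 * M)) I := by
  set R := w ^ (s0 * M) with hRdef
  have hM0 : 0 < M := lt_of_lt_of_le (by positivity) hM1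
  have hlw : 0 < Real.log w := Real.log_pos (by exact_mod_cast hw)
  have hlR : Real.log R = s0 * M * Real.log w := by rw [hRdef]; push_cast; rw [Real.log_pow]; push_cast; ring
  have hs' : (0 : ℝ) < s0 := by exact_mod_cast hs
  have hM' : (0 : ℝ) < M := by exact_mod_cast hM0
  have hlR0 : 0 < Real.log R := by rw [hlR]; positivity
  have hR4 : w ^ (4 * (s0 * 2 ^ J)) ≤ R :=
    Nat.pow_le_pow_right (by omega) (by nlinarith)
  have hR1 : w ^ s0 ≤ R := Nat.pow_le_pow_right (by omega) (by nlinarith)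
  have hv : 0 < VV w * Real.log w * s0 := by have := VV_pos w; positivity
  set c : ℝ := s0 * Real.log w * (2 * (J + 1) * CM) with hc
  have ha3 : ∑ r ∈ (PP w R).powerset, gg w s0 J r ^ 2 * ip r * Real.log (∏ p ∈ r, p : ℕ) ≤
      c * a2 w s0 J R := by
    refine (a3_le hw J R).trans ?_
    have h1 := a1_le hw hs J R
    have h2 := a2_ge hw J hR1
    have := one_le_CM
    rw [hc, mul_assoc (s0 * Real.log w)]
    refine mul_le_mul_of_nonneg_left ?_ (by positivity)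
    have : (2 * (J + 1) * CM) * (VV w * Real.log w * s0 / 4) ≤ (2 * (J + 1) * CM) * a2 w s0 J R :=
      mul_le_mul_of_nonneg_left h2 (by positivity)
    linarith
  -- the logarithmic moment
  have hlog : ∑ S ∈ (AA w R I).powerset, (∏ l ∈ I, (gg w s0 J (sl S l) ^ 2 * ip (sl S l))) *
      Real.log (dd Prod.fst S) ≤ I.card * (c * a2 w s0 J R ^ I.card) := by
    have e1 : ∀ S ∈ (AA w R I).powerset, (∏ l ∈ I, (gg w s0 J (sl S l) ^ 2 * ip (sl S l))) *
        Real.log (dd Prod.fst S) = ∑ l0 ∈ I, ∏ l ∈ I, (gg w s0 J (sl S l) ^ 2 * ip (sl S l) *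
          if l = l0 then Real.log (∏ p ∈ sl S l, p : ℕ) else 1) := by
      intro S hS
      have hS' := mem_powerset.1 hS
      unfold dd
      rw [prod_sl hS' (fun p => p), Nat.cast_prod, Real.log_prod, mul_sum]
      · refine sum_congr rfl fun l0 hl0 => ?_
        rw [prod_mul_distrib (f := fun l => gg w s0 J (sl S l) ^ 2 * ip (sl S l)), prod_ite_eq',
          if_pos hl0]
      · intro l _
        have : 0 < ∏ p ∈ sl S l, p := prod_pos fun p hp => (PP_prime (sl_sub hS' l hp)).pos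
        exact_mod_cast this.ne'
    rw [sum_congr rfl e1, sum_comm]
    have e2 : ∀ l0 ∈ I, ∑ S ∈ (AA w R I).powerset, ∏ l ∈ I, (gg w s0 J (sl S l) ^ 2 * ip (sl S l) *
          if l = l0 then Real.log (∏ p ∈ sl S l, p : ℕ) else 1) ≤ c * a2 w s0 J R ^ I.card := by
      intro l0 hl0
      rw [sum_AA_prod w R I (fun l r => gg w s0 J r ^ 2 * ip r *
          if l = l0 then Real.log (∏ p ∈ r, p : ℕ) else 1)]
      calc _ ≤ ∏ l ∈ I, (a2 w s0 J R * if l = l0 then c else 1) := by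
            refine prod_le_prod (fun l _ => sum_nonneg fun r hr => mul_nonneg
              (mul_nonneg (sq_nonneg _) (ip_nonneg (mem_powerset.1 hr))) ?_) fun l _ => ?_
            · split_ifs
              · exact Real.log_natCast_nonneg _
              · norm_num
            · by_cases hl : l = l0
              · simp only [hl, if_true]; linarith
              · simp only [hl, if_false, mul_one]; exact le_rfl
        _ = _ := by rw [prod_mul_distrib, prod_ite_eq', if_pos hl0, prod_const, mul_comm]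
    calc _ ≤ ∑ l0 ∈ I, c * a2 w s0 J R ^ I.card := sum_le_sum e2
      _ = _ := by simp
  have hmain : ∑ S ∈ (AA w R I).powerset, (a1 w s0 J R ^ 2) ^ Iᶜ.card *
      ((∏ l ∈ I, (gg w s0 J (sl S l) ^ 2 * ip (sl S l))) *
        (1 - 2 / Real.log R * Real.log (dd Prod.fst S))) ≤ JJ w s0 J R I := by
    refine sum_le_sum fun S hS => ?_
    have hS' := mem_powerset.1 hS
    have hph := ph_nonneg (π := Prod.fst) fun a ha => AA_two a (hS' ha)
    have hP : 0 ≤ ∏ l ∈ I, (gg w s0 J (sl S l) ^ 2 * ip (sl S l)) :=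
      prod_nonneg fun l _ => mul_nonneg (sq_nonneg _) (ip_nonneg (sl_sub hS' l))
    have hd1 : 0 < dd Prod.fst S := dd_pos fun a ha => AA_two a (hS' ha)
    by_cases hd : dd Prod.fst S ^ 2 ≤ R
    · rw [yI_eq (by omega) hI hR4 hS' hd]
      have h0 : 0 ≤ 2 / Real.log R * Real.log (dd Prod.fst S) :=
        mul_nonneg (by positivity) (Real.log_natCast_nonneg _)
      calc _ ≤ (a1 w s0 J R ^ 2) ^ Iᶜ.card * (∏ l ∈ I, (gg w s0 J (sl S l) ^ 2 * ip (sl S l))) :=
            mul_le_mul_of_nonneg_left (mul_le_of_le_one_right hP (by linarith)) (by positivity)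
        _ = _ := by
            rw [prod_mul_distrib, ← ph_eq_sl hS', mul_pow, prod_pow, ← pow_mul, ← pow_mul,
              mul_comm 2]; ring
    · have h1 : Real.log R ≤ 2 * Real.log (dd Prod.fst S) := by
        have : Real.log R ≤ Real.log ((dd Prod.fst S : ℝ) ^ 2) :=
          Real.log_le_log (by positivity) (by exact_mod_cast (not_le.1 hd).le)
        rw [Real.log_pow] at this; exact_mod_cast this
      have h2 : 1 - 2 / Real.log R * Real.log (dd Prod.fst S) ≤ 0 := by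
        rw [div_mul_eq_mul_div, sub_nonpos, le_div_iff₀ hlR0]; linarith
      exact le_trans (mul_nonpos_of_nonneg_of_nonpos (by positivity)
        (mul_nonpos_of_nonneg_of_nonpos hP h2)) (mul_nonneg (sq_nonneg _) hph)
  refine le_trans ?_ hmain
  rw [← mul_sum, mul_div_assoc]
  refine mul_le_mul_of_nonneg_left ?_ (by positivity)
  simp_rw [mul_sub, mul_one, mul_left_comm _ (2 / Real.log R)]
  rw [sum_sub_distrib, sum_sq_eq, ← mul_sum]
  have h3 := mul_le_mul_of_nonneg_left hlog (show 0 ≤ 2 / Real.log R by positivity)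
  have h4 : 2 / Real.log R * (I.card * c) ≤ 1 / 2 := by
    rw [hlR, hc, div_mul_eq_mul_div, div_le_iff₀ (by positivity)]
    have h5 : (I.card : ℝ) ≤ Fintype.card κ := by exact_mod_cast card_le_univ I
    have := one_le_CM
    have h6 : (I.card : ℝ) * ((J + 1) * CM) ≤ Fintype.card κ * ((J + 1) * CM) :=
      mul_le_mul_of_nonneg_right h5 (by positivity)
    have h7 : 8 * (I.card * ((J + 1) * CM)) ≤ (M : ℝ) := by linarith
    have h8 := mul_le_mul_of_nonneg_left h7 (show 0 ≤ s0 * Real.log w by positivity)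
    nlinarith
  have h5 := mul_le_mul_of_nonneg_right h4 (pow_nonneg (a2_nonneg w s0 J R) I.card)
  nlinarith

/-- The ratio between first and second moments. -/
theorem gain {w s0 J R : ℕ} (hw : 2 ≤ w) (hs : 1 ≤ s0) (hR : w ^ (s0 * 2 ^ J) ≤ R) :
    (J + 1) ^ 2 * (VV w * Real.log w * s0) / (8 * CM) * a2 w s0 J R ≤ a1 w s0 J R ^ 2 := by
  have h1 := a1_ge hw hR
  have h2 := a2_le hw hs J R
  have hv : 0 ≤ VV w * Real.log w * s0 := by
    have := VV_pos w; have := Real.log_natCast_nonneg w; positivity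
  have := one_le_CM
  calc _ ≤ (J + 1) ^ 2 * (VV w * Real.log w * s0) / (8 * CM) * (2 * (CM * (VV w * Real.log w * s0))) :=
        mul_le_mul_of_nonneg_left h2 (by positivity)
    _ = ((J + 1) * (VV w * Real.log w * s0) / 2) ^ 2 := by field_simp; ring
    _ ≤ _ := pow_le_pow_left₀ (by positivity) h1 2

lemma a2_pos {w s0 R : ℕ} (hw : 2 ≤ w) (hs : 1 ≤ s0) (J : ℕ) (hR : w ^ s0 ≤ R) :
    0 < a2 w s0 J R := by
  refine lt_of_lt_of_le ?_ (a2_ge hw J hR)
  have := VV_pos w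
  have : 0 < Real.log w := Real.log_pos (by exact_mod_cast hw)
  have : (0 : ℝ) < s0 := by exact_mod_cast hs
  positivity

end Pool.Agent.P.MP_746f10_nt
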