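import Mathlib
import Pool.Agent.P.MP_746f10_nt.Master
import Pool.Agent.P.MP_746f10_nt.Mayn

/-! Normalised systems of linear forms. -/

set_option linter.unusedSectionVars false

namespace Pool.Agent.P.MP_746f10_nt

open Finset

lemma VV_ge {w : ℕ} (hw : 1 ≤ w) : 1 / (w : ℝ) ≤ VV w := by
  induction w, hw using Nat.le_induction with
  | base =>
    have : PP 0 1 = ∅ := by decide
    simp [VV, this]
  | succ w hw ih =>
    have hw' : (1 : ℝ) ≤ w := by exact_mod_cast hw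
    unfold VV at *
    rw [prod_PP_split (Nat.zero_le w) (Nat.le_succ w)]
    have h1 : 1 - 1 / ((w + 1 : ℕ) : ℝ) ≤ ∏ p ∈ PP w (w + 1), (1 - 1 / (p : ℝ)) := by
      unfold PP
      rw [Nat.Ioc_succ_singleton, filter_singleton]
      split_ifs
      · simp
      · simp; positivity
    refine le_trans (le_of_eq ?_) (mul_le_mul ih h1 ?_ (VV_pos w).le)
    · push_cast; field_simp; ring
    · exact (one_sub_inv_pos (by push_cast; linarith)).le

lemma pow_le_one_sub {k : ℕ} {p : ℝ} (hp : 2 * k ≤ p) (hp1 : 1 ≤ p) :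
    (1 - 1 / p) ^ (2 * k) ≤ 1 - k / p := by
  have h0 : 0 < p := by linarith
  have h1 : 0 ≤ 1 / p := by positivity
  have h2 : 1 / p ≤ 1 := by rw [div_le_one h0]; exact hp1
  have h3 := one_add_mul_le_pow (a := 1 / p) (by linarith) (2 * k)
  have h4 : (1 - 1 / p) ^ (2 * k) * (1 + 1 / p) ^ (2 * k) ≤ 1 := by
    rw [← mul_pow]; exact pow_le_one₀ (by nlinarith) (by nlinarith)
  have h5 : (k : ℝ) / p ≤ 1 / 2 := by rw [div_le_iff₀ h0]; linarith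
  have h6 : 0 ≤ (k : ℝ) / p := by positivity
  have h7 : (1 - 1 / p) ^ (2 * k) * (1 + 2 * (k / p)) ≤ 1 := by
    refine le_trans (mul_le_mul_of_nonneg_left (le_trans (le_of_eq ?_) h3)
      (pow_nonneg (by linarith) _)) h4
    push_cast; ring
  have h8 : 1 ≤ (1 - k / p) * (1 + 2 * (k / p)) := by nlinarith
  exact le_of_mul_le_mul_right (h7.trans h8) (by linarith)

variable {ι : Type*} [Fintype ι] [DecidableEq ι]

/-- A normalised system of forms `a l * n + b l` of size at most `v`. -/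
structure Nrm (a b : ι → ℕ) (K v : ℕ) : Prop where
  lt : ∀ l, b l < a l
  le : ∀ l, a l ≤ v
  cop : ∀ l, (a l).Coprime (b l)
  rad : ∀ p l l', p.Prime → p ∣ a l → p ∣ a l'
  small : ∀ p l, p.Prime → p ≤ K → p ∣ a l
  sep : ∀ p n l l', p.Prime → p ∣ a l * n + b l → p ∣ a l' * n + b l' → l = l'

/-- Primes up to `z` dividing no leading coefficient. -/
def GP (a : ι → ℕ) (z : ℕ) : Finset ℕ := (PP 0 z).filter (fun p => ∀ l, ¬ p ∣ a l)

/-- The density of `n` at which all forms are free of small primes. -/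
noncomputable def Vk (a : ι → ℕ) (w : ℕ) : ℝ := ∏ p ∈ GP a w, (1 - (Fintype.card ι : ℝ) / p)

/-- Indicator that all forms are free of small primes. -/
noncomputable def rg (a b : ι → ℕ) (w n : ℕ) : ℝ := ∏ p ∈ GP a w, (1 - ev a b univ p n)

/-- The weight function for the coordinates in `I`. -/
noncomputable def Fw (a b : ι → ℕ) (w s0 J R : ℕ) (I : Finset ι) (n : ℕ) : ℝ :=
  FF Prod.fst (AA w R I) (yI w s0 J R I) (BB a b n)

lemma mem_GP {a : ι → ℕ} {z p : ℕ} : p ∈ GP a z ↔ p ≤ z ∧ p.Prime ∧ ∀ l, ¬ p ∣ a l := by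
  simp only [GP, mem_filter, mem_PP]
  exact ⟨fun h => ⟨h.1.2.1, h.1.2.2, h.2⟩, fun h => ⟨⟨h.2.1.pos, h.1, h.2.1⟩, h.2.2⟩⟩

lemma GP_mono (a : ι → ℕ) {z z' : ℕ} (h : z ≤ z') : GP a z ⊆ GP a z' := fun p hp => by
  rw [mem_GP] at hp ⊢; exact ⟨hp.1.trans h, hp.2⟩

lemma rg_01 (a b : ι → ℕ) (w n : ℕ) : rg a b w n = 0 ∨ rg a b w n = 1 := by
  by_cases h : rg a b w n = 0
  · exact Or.inl h
  · refine Or.inr (prod_eq_one fun p hp => ?_)
    have := prod_ne_zero_iff.1 h p hp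
    rcases ev_01 (a := a) (b := b) univ p n with h1 | h1 <;> simp_all

lemma rg_nonneg (a b : ι → ℕ) (w n : ℕ) : 0 ≤ rg a b w n := by
  rcases rg_01 a b w n with h | h <;> simp [h]

lemma rg_le_one (a b : ι → ℕ) (w n : ℕ) : rg a b w n ≤ 1 := by
  rcases rg_01 a b w n with h | h <;> simp [h]

lemma Fw_collapse (a b : ι → ℕ) (w s0 J R : ℕ) {I I' : Finset ι} (h : I ⊆ I') {n : ℕ}
    (hr : ∀ l ∈ I', l ∉ I → ∀ p ∈ PP w R, ¬ p ∣ a l * n + b l) :
    Fw a b w s0 J R I' n = Fw a b w s0 J R I n := by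
  unfold Fw yI
  have e1 : AA w R I' = AA w R I ∪ AA w R (I' \ I) := by rw [← AA_union, union_sdiff_of_subset h]
  have e2 : AA w R Iᶜ = AA w R (I' \ I) ∪ AA w R I'ᶜ := by
    rw [← AA_union]; congr 1
    ext l; by_cases h1 : l ∈ I <;> by_cases h2 : l ∈ I' <;> simp [h1, h2]
    exact h2 (h h1)
  rw [e1, FF_collapse (AA_disj w R disjoint_sdiff), e2]
  · exact FF_congr (fun S _ => col_col (AA_disj w R (disjoint_left.2 fun l h1 h2 =>
      (mem_compl.1 h2) (mem_sdiff.1 h1).1)) _ S) _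
  · intro x hx
    have := mem_product.1 hx
    refine ev_eq_zero.2 fun l hl => ?_
    rw [mem_singleton.1 hl]
    exact hr _ (mem_sdiff.1 this.2).1 (mem_sdiff.1 this.2).2 _ this.1

lemma abs_Fw_le (a b : ι → ℕ) {w : ℕ} (hw : 2 ≤ w) (s0 J R : ℕ) (I : Finset ι) {n e : ℕ}
    (h0 : ∀ l, a l * n + b l ≠ 0) (h : ∀ l, a l * n + b l ≤ w ^ e) {Θ : ℝ} (hΘ : Th w R ≤ Θ) :
    |Fw a b w s0 J R I n| ≤ Θ ^ Fintype.card ι * 2 ^ (Fintype.card ι * e) := by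
  refine (abs_FF_le AA_two (fun U _ => abs_yI_le w s0 J R I U) (BB_01 n)).trans ?_
  have h1 := one_le_Th w R
  rw [TT_AA, ← pow_add, add_comm, card_add_card_compl]
  refine mul_le_mul (by gcongr) (pow_le_pow_right₀ (by norm_num) ?_) (by positivity)
    (pow_nonneg (by linarith) _)
  calc _ ≤ (univ.biUnion fun l => ((PP w R).filter (· ∣ a l * n + b l)).image (fun p => (p, l))).card := by
        refine card_le_card fun x hx => ?_
        have h2 := mem_filter.1 hx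
        have h3 : x.1 ∣ a x.2 * n + b x.2 := by
          by_contra h4
          exact h2.2 (ev_eq_zero.2 fun l hl => by rwa [mem_singleton.1 hl])
        exact mem_biUnion.2 ⟨x.2, mem_univ _, mem_image.2
          ⟨x.1, mem_filter.2 ⟨(mem_product.1 h2.1).1, h3⟩, rfl⟩⟩
    _ ≤ ∑ l : ι, e := card_biUnion_le.trans (sum_le_sum fun l _ =>
        card_image_le.trans (card_PP_dvd_le (h0 l) hw (h l)))
    _ = _ := by simp

namespace Nrm

variable {a b : ι → ℕ} {K v : ℕ} (hN : Nrm a b K v)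
include hN

lemma pos (l : ι) : 0 < a l := lt_of_le_of_lt (Nat.zero_le _) (hN.lt l)

lemma good {z p : ℕ} (hp : p ∈ GP a z) : GoodP a b p :=
  ⟨(mem_GP.1 hp).2.1, (mem_GP.1 hp).2.2, fun n l l' => hN.sep p n l l' (mem_GP.1 hp).2.1⟩

lemma PP_sub {w Y Y' : ℕ} (hw : v ≤ w) (hY : Y ≤ Y') : PP w Y ⊆ GP a Y' := fun p hp => by
  have := mem_PP.1 hp
  refine mem_GP.2 ⟨by omega, this.2.2, fun l h => ?_⟩
  have := Nat.le_of_dvd (hN.pos l) h
  have := hN.le l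
  omega

lemma lt_of_mem [Nonempty ι] {z p : ℕ} (hp : p ∈ GP a z) : K < p := by
  by_contra h
  obtain ⟨l⟩ := ‹Nonempty ι›
  exact (mem_GP.1 hp).2.2 l (hN.small p l (mem_GP.1 hp).2.1 (by omega))

lemma not_dvd {p : ℕ} (hp : p.Prime) {l l' : ι} (h : p ∣ a l') (n : ℕ) : ¬ p ∣ a l * n + b l := by
  intro h1
  have h2 := hN.rad p l' l hp h
  exact hp.one_lt.ne' (Nat.eq_one_of_dvd_coprimes (hN.cop l) h2
    ((Nat.dvd_add_right (h2.mul_right n)).1 h1))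

lemma rough_of_rg {w n : ℕ} (h : rg a b w n ≠ 0) (l : ι) : rough w (a l * n + b l) := by
  intro p hp hd
  by_contra hw
  by_cases h1 : ∀ l', ¬ p ∣ a l'
  · have := prod_ne_zero_iff.1 h p (mem_GP.2 ⟨by omega, hp, h1⟩)
    rw [ev_eq_one.2 ⟨l, mem_univ _, hd⟩] at this
    simp at this
  · push Not at h1
    obtain ⟨l', h1⟩ := h1
    exact hN.not_dvd hp h1 n hd

lemma prod_split (i : ι) {w : ℕ} (hw : v ≤ w) (F : ℕ → ℝ) :
    (∏ p ∈ (a i).primeFactors, F p) * ∏ p ∈ GP a w, F p = ∏ p ∈ PP 0 w, F p := by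
  rw [← prod_union]
  · congr 1
    ext p
    simp only [mem_union, Nat.mem_primeFactors, mem_GP, mem_PP]
    constructor
    · rintro (⟨h1, h2, _⟩ | ⟨h1, h2, _⟩)
      · exact ⟨h1.pos, ((Nat.le_of_dvd (hN.pos i) h2).trans (hN.le i)).trans hw, h1⟩
      · exact ⟨h2.pos, h1, h2⟩
    · rintro ⟨_, h1, h2⟩
      by_cases h : p ∣ a i
      · exact Or.inl ⟨h2, h, (hN.pos i).ne'⟩
      · exact Or.inr ⟨h1, h2, fun l h3 => h (hN.rad p l i h2 h3)⟩
  · exact disjoint_left.2 fun p h1 h2 => (mem_GP.1 h2).2.2 i (Nat.dvd_of_mem_primeFactors h1)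

lemma GP_split (i : ι) {w Y : ℕ} (hw : v ≤ w) (hY : w ≤ Y) (F : ℕ → ℝ) :
    ∏ p ∈ PP 0 Y \ (a i).primeFactors, F p = (∏ p ∈ GP a w, F p) * ∏ p ∈ PP w Y, F p := by
  rw [← prod_union]
  · congr 1
    ext p
    simp only [mem_union, mem_sdiff, Nat.mem_primeFactors, mem_GP, mem_PP]
    constructor
    · rintro ⟨⟨_, h1, h2⟩, h3⟩
      by_cases h : p ≤ w
      · exact Or.inl ⟨h, h2, fun l h4 => h3 ⟨h2, hN.rad p l i h2 h4, (hN.pos i).ne'⟩⟩
      · exact Or.inr ⟨by omega, h1, h2⟩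
    · rintro (⟨h1, h2, h3⟩ | ⟨h1, h2, h3⟩)
      · exact ⟨⟨h2.pos, by omega, h2⟩, fun h4 => h3 i h4.2.1⟩
      · refine ⟨⟨h3.pos, h2, h3⟩, fun h4 => ?_⟩
        have := Nat.le_of_dvd (hN.pos i) h4.2.1
        have := hN.le i
        omega
  · exact disjoint_left.2 fun p h1 h2 => by
      have := (mem_GP.1 h1).1; have := (mem_PP.1 h2).1; omega

lemma Vk_ge [Nonempty ι] (hK : 2 * Fintype.card ι ≤ K) {w : ℕ} (hw : 1 ≤ w) :
    1 / (w : ℝ) ^ (2 * Fintype.card ι) ≤ Vk a w := by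
  calc _ ≤ VV w ^ (2 * Fintype.card ι) := by
        rw [← one_div_pow]; exact pow_le_pow_left₀ (by positivity) (VV_ge hw) _
    _ ≤ (∏ p ∈ GP a w, (1 - 1 / (p : ℝ))) ^ (2 * Fintype.card ι) := by
        refine pow_le_pow_left₀ (VV_pos w).le (prod_le_prod_of_subset_of_le_one (filter_subset _ _)
          (fun p hp => (one_sub_inv_pos (PP_two hp)).le) fun p _ _ => ?_) _
        have : (0 : ℝ) ≤ 1 / p := by positivity
        linarith
    _ ≤ _ := by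
        rw [← prod_pow]
        refine prod_le_prod (fun p hp => pow_nonneg (one_sub_inv_pos
          (by exact_mod_cast (mem_GP.1 hp).2.1.two_le)).le _) fun p hp => pow_le_one_sub ?_ ?_
        · exact_mod_cast (hK.trans (hN.lt_of_mem hp).le)
        · exact_mod_cast (mem_GP.1 hp).2.1.one_le

lemma Vk_pos [Nonempty ι] (hK : 2 * Fintype.card ι ≤ K) {w : ℕ} (hw : 1 ≤ w) : 0 < Vk a w :=
  lt_of_lt_of_le (by positivity) (hN.Vk_ge hK hw)

lemma ee_univ {k : ℕ} (hk : Fintype.card ι = k) (hk3 : 3 ≤ k) (hK : 2 * (k + 3) ≤ K) {Γ : Finset ι}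
    {f : ℕ → ℝ} (hΓ : Γ = ∅ → ∀ p, f p = 1) {z p : ℕ} (hp : p ∈ GP a z) (hf : |f p - 1| ≤ 3 / p) :
    1 - ee Γ f univ p = f p * (1 - k / p) ∧
      0 ≤ ee Γ f univ p ∧ ee Γ f univ p ≤ ((k : ℝ) + 3) / p ∧ ee Γ f univ p ≤ 3 / 4 := by
  have : Nonempty ι := Fintype.card_pos_iff.1 (by omega)
  have h1 : 1 - ee Γ f univ p = f p * (1 - k / p) := by
    unfold ee
    rw [card_univ, hk]
    split_ifs with h
    · rw [hΓ (disjoint_top.1 h) p]; ring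
    · ring
  have h2 : 2 * ((k : ℝ) + 3) ≤ p := by exact_mod_cast hK.trans (hN.lt_of_mem hp).le
  have hk' : (3 : ℝ) ≤ k := by exact_mod_cast hk3
  have hp0 : (0 : ℝ) < p := by linarith
  have h3 : ((k : ℝ) + 3) / p ≤ 1 / 2 := by rw [div_le_iff₀ hp0]; linarith
  have h4 : (3 : ℝ) / p ≤ k / p := by gcongr
  have h5 : (0 : ℝ) ≤ 3 / p := by positivity
  rw [add_div] at h3 ⊢
  obtain ⟨h6, h7⟩ := abs_le.1 hf
  have h8 : ee Γ f univ p ≤ k / p + 3 / p := by nlinarith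
  exact ⟨h1, by nlinarith, h8, by linarith⟩

theorem master {k : ℕ} (hk : Fintype.card ι = k) (hk3 : 3 ≤ k) (hK : 2 * (k + 3) ≤ K)
    {w Y Y' : ℕ} (hvw : v ≤ w) (hw : 3 ≤ w) (hwY : w ≤ Y') (hYY : Y ≤ Y')
    {Ω : Finset ℕ} {μ : ℕ → ℝ} {Γ : Finset ι} {X : ℝ} {f : ℕ → ℝ} {E : ℝ} {Lvl : ℕ}
    (h : HC a b Ω μ (GP a Y') Γ X f E Lvl) (hE : 0 ≤ E) (hX : 0 ≤ X) (hμ : ∀ n ∈ Ω, 0 ≤ μ n)
    {D1 : ℕ} {ε : ℝ} (s : SieveW (GP a w) D1 (k + 3) ε) (hε : 0 ≤ ε)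
    (hf : ∀ p ∈ GP a Y', |f p - 1| ≤ 3 / p) (hΓ : Γ = ∅ → ∀ p, f p = 1)
    {θ : ℕ → ℝ} (hθ : ∀ n, rg a b w n ≤ θ n ∧ θ n ≤ s.U (fun p => ev a b univ p n))
    (s0 J : ℕ) {R : ℕ} (hRY : R ≤ Y) {I I2 : Finset ι} (hI : Disjoint Γ I) (hIc : Iᶜ.card ≤ 2)
    (hI2 : Γ ⊆ I2 ∨ Disjoint Γ I2) (hII : Disjoint I I2)
    (he2 : ∀ p ∈ PP w Y, 0 ≤ ee Γ f I2 p ∧ ee Γ f I2 p ≤ 4 / p)
    {c : Finset ℕ → ℝ} {D2 : ℕ} (hc : ∀ T, |c T| ≤ 1)
    (hcs : ∀ T ⊆ PP w Y, c T ≠ 0 → ∏ p ∈ T, p ≤ D2) {e : ℕ} (hZ : R ^ 2 ≤ w ^ e) (hew : 3 * e ≤ w)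
    (hL : D1 * (R ^ 2 * D2) ≤ Lvl) {Θ : ℝ} (hΘ : Th w Y ≤ Θ) :
    |∑ n ∈ Ω, μ n * θ n * th2 (PP w Y) c (fun p => ev a b I2 p n) * Fw a b w s0 J R I n ^ 2 -
      X * (∏ p ∈ GP a w, f p) * Vk a w * th2 (PP w Y) c (ee Γ f I2) * JJ w s0 J R I| ≤
      Θ ^ (5 * k + 8) * (X * (∏ p ∈ GP a w, f p) * Vk a w *
          (3 * ε + 10 * e / w + 20 * (k : ℝ) ^ 2 / w) + D2 * (D1 * (E * (Lvl : ℝ) ^ 2)) * R ^ 2) := by
  have hu := fun p (hp : p ∈ GP a w) => hN.ee_univ hk hk3 hK hΓ hp (hf p (GP_mono a hwY hp))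
  have := h.master (fun p hp => hN.good hp) hE hX hμ (GP_mono a hwY) s hε (fun p hp => (hu p hp).2) hθ
    hw (fun p hp => (mem_GP.1 hp).1) (hN.PP_sub hvw hYY) hRY hI hI2 hII
    (fun p hp => hf p (hN.PP_sub hvw hYY hp)) he2 hc hcs (fun U _ => abs_yI_le w s0 J R I U)
    (fun U hU => yI_supp hU) hZ hew hL
  have e1 : ∏ p ∈ GP a w, (1 - ee Γ f univ p) = (∏ p ∈ GP a w, f p) * Vk a w := by
    rw [Vk, hk, ← prod_mul_distrib]; exact prod_congr rfl fun p hp => (hu p hp).1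
  have h0 : 0 ≤ X * (∏ p ∈ GP a w, f p) * Vk a w := by
    rw [mul_assoc, ← e1]; exact mul_nonneg hX (prod_nonneg fun p hp => by linarith [(hu p hp).2.2.2])
  rw [e1, ← mul_assoc X] at this
  refine this.trans ?_
  have t1 := one_le_Th w R
  have t2 := one_le_Th w Y
  have t3 : Th w R ≤ Θ := by
    refine le_trans ?_ hΘ
    rcases le_total w R with h1 | h1
    · unfold Th; rw [prod_PP_split h1 hRY]; exact le_mul_of_one_le_right (by
        linarith [one_le_Th w R, show Th w R = ∏ p ∈ PP w R, (1 - 1 / (p : ℝ))⁻¹ from rfl])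
        (one_le_Th R Y)
    · have : PP w R = ∅ := by unfold PP; rw [Ioc_eq_empty (by omega)]; rfl
      rw [Th, this, prod_empty]; exact t2
  have t4 : 1 ≤ Θ := t1.trans t3
  have hIk : I.card ≤ k := hk ▸ card_le_univ I
  have t5 : (Th w R ^ Iᶜ.card) ^ 2 * (Th w R ^ I.card) ^ 5 ≤ Θ ^ (5 * k + 4) := by
    rw [← pow_mul, ← pow_mul, ← pow_add]
    exact (pow_le_pow_left₀ (by linarith) t3 _).trans (pow_le_pow_right₀ t4 (by omega))
  have hIk' : (I.card : ℝ) ≤ k := by exact_mod_cast hIk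
  have t6 : 0 ≤ D2 * (D1 * (E * (Lvl : ℝ) ^ 2)) * R ^ 2 := by positivity
  calc _ ≤ Θ ^ (5 * k + 4) * (X * (∏ p ∈ GP a w, f p) * Vk a w * Θ ^ 4 *
          (3 * ε + 10 * e / w + 20 * (k : ℝ) ^ 2 / w) +
          Θ ^ 4 * (D2 * (D1 * (E * (Lvl : ℝ) ^ 2)) * R ^ 2)) := by
        refine mul_le_mul t5 (add_le_add ?_ (le_mul_of_one_le_left t6 (one_le_pow₀ t4)))
          (by positivity) (by positivity)
        gcongr
    _ = _ := by ring

end Nrm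

lemma th2_empty (P : Finset ℕ) (x : ℕ → ℝ) : th2 P (fun T => if T = ∅ then 1 else 0) x = 1 := by
  unfold th2
  rw [sum_eq_single_of_mem ∅ (by simp) fun T _ h => by simp [h]]; simp

lemma th2_single (P : Finset ℕ) (x : ℕ → ℝ) :
    th2 P (fun T => if T.card = 1 then 1 else 0) x = ∑ p ∈ P, x p := by
  unfold th2
  simp_rw [ite_mul, one_mul, zero_mul]
  rw [← sum_filter, ← powersetCard_eq_filter, powersetCard_one, sum_map]
  simp

end Pool.Agent.P.MP_746f10_nt
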