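import Mathlib
import Pool.Agent.P.MP_746f10_nt.Chars
import Pool.Agent.P.MP_746f10_nt.Sys
import Pool.Agent.P.MP_746f10_nt.Cnt

/-! Mean values of the weights in the absence of exceptional characters. -/

set_option linter.unusedSectionVars false

namespace Pool.Agent.P.MP_746f10_nt

open Finset ArithmeticFunction

/-- The weight `log m / m ^ (1 + h)`. -/
noncomputable def om (h : ℝ) (m : ℕ) : ℝ := pw h m * Real.log m / m

lemma om_nonneg (h : ℝ) (m : ℕ) : 0 ≤ om h m := by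
  have := pw_pos h m; have := Real.log_natCast_nonneg m; unfold om; positivity

lemma om_anti {h : ℝ} (hh : 0 ≤ h) {m n : ℕ} (hm : 3 ≤ m) (hmn : m ≤ n) : om h n ≤ om h m := by
  have h1 : Real.exp 1 ≤ m := by
    have : (3 : ℝ) ≤ m := by exact_mod_cast hm
    linarith [Real.exp_one_lt_d9]
  have h2 : (m : ℝ) ≤ n := by exact_mod_cast hmn
  unfold om
  rw [mul_div_assoc, mul_div_assoc]
  exact mul_le_mul (pw_anti hh (by omega) hmn) (Real.log_div_self_antitoneOn h1 (h1.trans h2) h2)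
    (div_nonneg (Real.log_natCast_nonneg n) (Nat.cast_nonneg n)) (pw_pos h m).le

lemma om_le {h : ℝ} (hh : 0 ≤ h) {m A B : ℕ} (hA : 1 ≤ A) (h1 : A ≤ m) (h2 : m ≤ B) :
    om h m ≤ Real.log B / A := by
  have : (0 : ℝ) < A := by exact_mod_cast hA
  exact div_le_div₀ (Real.log_natCast_nonneg B) ((mul_le_of_le_one_left (Real.log_natCast_nonneg m)
    (pw_le_one hh m)).trans (log_mono (by omega) h2)) this (by exact_mod_cast h1)

/-- Transport of a function along the form `a * n + b`. -/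
noncomputable def lft (a b : ℕ) (f : ℕ → ℝ) (m : ℕ) : ℝ := if m % a = b then f (m / a) else 0

lemma lft_form {a b : ℕ} (h : b < a) (f : ℕ → ℝ) (n : ℕ) : lft a b f (a * n + b) = f n := by
  unfold lft
  rw [if_pos (by rw [Nat.mul_add_mod, Nat.mod_eq_of_lt h]), Nat.mul_add_div (by omega),
    Nat.div_eq_of_lt h, add_zero]

lemma lft_modEq {a b q : ℕ} (ha : 0 < a) {f : ℕ → ℝ} (hf : ∀ n n', n ≡ n' [MOD q] → f n = f n')
    (m m' : ℕ) (h : m ≡ m' [MOD a * q]) : lft a b f m = lft a b f m' := by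
  have h1 : m % a = m' % a := h.of_mul_right _
  unfold lft
  rw [h1, hf (m / a) (m' / a)]
  refine Nat.ModEq.mul_left_cancel' ha.ne' (Nat.ModEq.add_right_cancel' (m % a) ?_)
  rw [Nat.div_add_mod, h1, Nat.div_add_mod]; exact h

lemma sum_lft {a b : ℕ} (h : b < a) (P : ℕ) (f g : ℕ → ℝ) :
    ∑ m ∈ range (a * P), lft a b f m * g m = ∑ n ∈ range P, f n * g (a * n + b) := by
  rw [range_eq_Ico, range_eq_Ico, ← mul_zero a, sum_Ico_classes (by omega), mul_zero,
    sum_eq_single_of_mem b (mem_range.2 h)]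
  · exact sum_congr rfl fun n _ => by rw [lft_form h]
  · intro b' hb' hne
    refine sum_eq_zero fun n _ => ?_
    unfold lft
    rw [if_neg (by rwa [Nat.mul_add_mod, Nat.mod_eq_of_lt (mem_range.1 hb')]), zero_mul]

lemma sum_sqi_div_le {z : ℕ} (hz : 1 ≤ z) (x : ℕ) :
    ∑ m ∈ Icc 1 x, sqi z m / m ≤ (1 + Real.log x) / z := by
  have hl := Real.log_natCast_nonneg x
  calc _ ≤ ∑ m ∈ Icc 1 x, ∑ p ∈ PP z x, if p ^ 2 ∣ m then 1 / (m : ℝ) else 0 := by
        refine sum_le_sum fun m hm => ?_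
        unfold sqi
        split_ifs with h
        · obtain ⟨p, h1, h2, h3⟩ := h
          have h4 := Nat.le_of_dvd (mem_Icc.1 hm).1 h3
          have := single_le_sum (s := PP z x) (a := p)
            (f := fun p => if p ^ 2 ∣ m then 1 / (m : ℝ) else 0)
            (fun _ _ => by split_ifs <;> positivity)
            (mem_PP.2 ⟨h2, by nlinarith [(mem_Icc.1 hm).2], h1⟩)
          rwa [if_pos h3] at this
        · rw [zero_div]; exact sum_nonneg fun _ _ => by split_ifs <;> positivity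
    _ ≤ ∑ p ∈ PP z x, (1 + Real.log x) * (1 / (p : ℝ) ^ 2) := by
        rw [sum_comm]
        refine sum_le_sum fun p hp => ?_
        rw [sum_Icc_dvd (pow_pos (PP_prime hp).pos 2)]
        calc _ = (∑ e ∈ Icc 1 (x / p ^ 2), (e : ℝ)⁻¹) * (1 / (p : ℝ) ^ 2) := by
              rw [sum_mul]; exact sum_congr rfl fun e _ => by push_cast; ring
          _ ≤ _ := by
              refine mul_le_mul_of_nonneg_right (le_trans ?_ (sum_inv_le_log x)) (by positivity)
              exact sum_le_sum_of_subset_of_nonneg (fun e he => by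
                have := mem_Icc.1 he
                exact mem_Ioc.2 ⟨this.1, this.2.trans (Nat.div_le_self _ _)⟩) fun _ _ _ => by positivity
    _ ≤ _ := by
        rw [← mul_sum, div_eq_mul_one_div]
        exact mul_le_mul_of_nonneg_left (sum_PP_inv_sq_le z x hz) (by linarith)

lemma th2_exact (P : Finset ℕ) (x : ℕ → ℝ) : th2 P (fun T => (-1) ^ T.card) x = ∏ p ∈ P, (1 - x p) := by
  rw [prod_sub]; simp [th2]

lemma prod_PP_eq {w y : ℕ} (h : w ≤ y) : ∏ p ∈ PP w y, (1 - 1 / (p : ℝ)) = VV y / VV w := by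
  rw [eq_div_iff (VV_pos w).ne', VV, VV, prod_PP_split (Nat.zero_le w) h, mul_comm]

lemma ri_split {ι : Type*} [Fintype ι] [DecidableEq ι] (a b : ι → ℕ) (i : ι) {w y : ℕ} (h : w ≤ y)
    (n : ℕ) : ri y (a i * n + b i) = ri w (a i * n + b i) * ∏ p ∈ PP w y, (1 - ev a b {i} p n) := by
  rw [← prod_one_sub_dv, ← prod_one_sub_dv, prod_PP_split (Nat.zero_le w) h]
  congr 1
  exact prod_congr rfl fun p _ => by simp [ev, dv]

/-- The parameters of the argument without exceptional characters. -/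
structure ParA {ι : Type} [Fintype ι] [DecidableEq ι] (a b : ι → ℕ)
    (k w eu u y D1 D2 N1 N2 : ℕ) (ε Θ δ U h : ℝ) : Prop where
  hN : Nrm a b (2 * (k + 3)) w
  hk : Fintype.card ι = k
  hk3 : 3 ≤ k
  hu : u = w ^ eu
  heu : 2 * k + 1 ≤ eu
  hew : 6 * eu ≤ w
  huy : u ^ 8 ≤ y
  hD1 : D1 ≤ u
  hD2 : 1 ≤ D2
  hε : 0 ≤ ε
  hΘ : Th w y ≤ Θ
  hδ : Θ ^ (5 * k + 8) * (3 * ε + 20 * eu / w + 20 * (k : ℝ) ^ 2 / w) ≤ δ * ((1 / 4) ^ k / Θ)
  hδU : δ * (1000 * U) = 1
  hU : 100 ≤ U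
  hh : h * (U * Real.log y) = 1
  hN1 : y ≤ N1
  hN2 : N1 ≤ N2
  hW : Θ ^ (5 * k + 8) * ((y : ℝ) * D2) ^ 3 * (Real.log (y * N1 : ℕ) / N1) ≤ (1 / 4) ^ k / u
  head : Real.log (y * N1 : ℕ) * (1 + Real.log (y * N1 : ℕ)) ≤ U * Real.log y ^ 2 / 40
  tail : 800 * U * pw (h / 2) N2 ≤ 1

namespace ParA

variable {ι : Type} [Fintype ι] [DecidableEq ι] {a b : ι → ℕ} {k w eu u y D1 D2 N1 N2 : ℕ}
  {ε Θ δ U h : ℝ} (H : ParA a b k w eu u y D1 D2 N1 N2 ε Θ δ U h)
include H

lemma w6 : 42 ≤ w := by have := H.hew; have := H.heu; have := H.hk3; omega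

lemma wu : w ≤ u := by rw [H.hu]; exact Nat.le_self_pow (by have := H.heu; omega) w

lemma upow {j : ℕ} (hj : j ≤ 8) : u ^ j ≤ y :=
  (Nat.pow_le_pow_right (by have := H.w6; have := H.wu; omega) hj).trans H.huy

lemma uy : u ≤ y := by simpa using H.upow (j := 1) (by norm_num)

lemma wy : w ≤ y := H.wu.trans H.uy

lemma l1 : 1 ≤ Real.log y := by
  have h1 : (42 : ℝ) ≤ y := by exact_mod_cast H.w6.trans H.wy
  rw [Real.le_log_iff_exp_le (by linarith)]; linarith [Real.exp_one_lt_d9]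

lemma h0 : 0 < h :=
  (pos_iff_pos_of_mul_pos (by rw [H.hh]; exact one_pos)).2
    (mul_pos (by linarith [H.hU]) (by linarith [H.l1]))

lemma δ0 : 0 < δ ∧ δ ≤ 1 / 1000 := by
  have h1 := H.hU
  have h2 : 0 < δ := (pos_iff_pos_of_mul_pos (by rw [H.hδU]; exact one_pos)).2 (by linarith)
  exact ⟨h2, by nlinarith [H.hδU]⟩

lemma form_le (l : ι) {n : ℕ} (hn : 1 ≤ n) : a l * n + b l ≤ y * n := by
  have h1 := H.hN.lt l
  have h2 := H.hN.le l
  have h3 : 2 * w ≤ y := le_trans (by nlinarith [H.wu, H.w6]) (H.upow (j := 2) (by norm_num))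
  nlinarith

lemma le_form (l : ι) (n : ℕ) : n ≤ a l * n + b l := by nlinarith [H.hN.pos l]

lemma low : (w : ℝ) / u ≤ Vk a w := by
  have : Nonempty ι := Fintype.card_pos_iff.1 (by have := H.hk; have := H.hk3; omega)
  have h1 := H.hN.Vk_ge (by rw [H.hk]; omega) (show 1 ≤ w by have := H.w6; omega)
  have h2 : (1 : ℝ) ≤ w := by exact_mod_cast (by have := H.w6; omega : 1 ≤ w)
  rw [H.hk] at h1
  refine le_trans ?_ h1
  rw [H.hu]; push_cast
  calc _ ≤ (w : ℝ) / w ^ (2 * k + 1) := by gcongr; exact H.heu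
    _ = _ := by field_simp; ring

lemma Vk0 : 0 < Vk a w := by
  have h1 : (0 : ℝ) < w := by exact_mod_cast (by have := H.w6; omega : 0 < w)
  have h2 : (0 : ℝ) < u := by exact_mod_cast (by have := H.w6; have := H.wu; omega : 0 < u)
  exact lt_of_lt_of_le (by positivity) H.low

lemma J4 (s0 J : ℕ) (I : Finset ι) : (1 / 4 : ℝ) ^ k ≤ JJ w s0 J u I := by
  have := JJ_ge_four (κ := ι) (show 1 ≤ w by have := H.w6; omega) s0 J
    (show 1 ≤ u by have := H.w6; have := H.wu; omega) I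
  rwa [H.hk] at this

lemma low2 (s0 J : ℕ) (I : Finset ι) (i : ι) :
    (1 / 4) ^ k / u ≤ Vk a w * JJ w s0 J u I / (a i * VV w) := by
  have h1 : (1 : ℝ) ≤ a i := by exact_mod_cast H.hN.pos i
  have h2 : (a i : ℝ) ≤ w := by exact_mod_cast H.hN.le i
  have h3 := VV_pos w
  have h4 := H.Vk0
  have h5 : (0 : ℝ) < u := by exact_mod_cast (by have := H.w6; have := H.wu; omega : 0 < u)
  have h6 : (0 : ℝ) < w := by linarith
  have h7 := (H.J4 s0 J I).trans' (show 0 ≤ (1 / 4 : ℝ) ^ k by positivity)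
  calc _ = (w : ℝ) / u * (1 / 4) ^ k / (w * 1) := by field_simp
    _ ≤ _ := by gcongr; exacts [H.low, H.J4 s0 J I, VV_le_one w]

lemma master {Ω : Finset ℕ} {μ : ℕ → ℝ} {X E : ℝ} {D : ℕ}
    (h1 : HC a b Ω μ (GP a y) ∅ X (fun _ => 1) E (D1 * (u ^ 2 * D))) (hE : 0 ≤ E) (hX : 0 ≤ X)
    (hμ : ∀ n ∈ Ω, 0 ≤ μ n) (s : SieveW (GP a w) D1 (k + 3) ε)
    {θ : ℕ → ℝ} (hθ : ∀ n, rg a b w n ≤ θ n ∧ θ n ≤ s.U (fun p => ev a b univ p n))
    (s0 J : ℕ) {I I2 : Finset ι} (hIc : Iᶜ.card ≤ 2) (hII : Disjoint I I2) (hI2 : I2.card ≤ 1)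
    {c : Finset ℕ → ℝ} (hc : ∀ T, |c T| ≤ 1) (hcs : ∀ T ⊆ PP w y, c T ≠ 0 → ∏ p ∈ T, p ≤ D) :
    |∑ n ∈ Ω, μ n * θ n * th2 (PP w y) c (fun p => ev a b I2 p n) * Fw a b w s0 J u I n ^ 2 -
      X * Vk a w * th2 (PP w y) c (fun p => I2.card * (1 / p)) * JJ w s0 J u I| ≤
      δ * (X * Vk a w * (VV y / VV w) * JJ w s0 J u I) + Θ ^ (5 * k + 8) * ((y : ℝ) * D) ^ 3 * E := by
  have hw := H.w6
  have e1 : ee ∅ (fun _ => 1) I2 = fun p : ℕ => (I2.card : ℝ) * (1 / p) := by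
    funext p; simp [ee]
  have h2 := H.hN.master H.hk H.hk3 le_rfl le_rfl (by omega) H.wy le_rfl h1 hE hX hμ s H.hε
    (fun p _ => by simp; positivity) (fun _ _ => rfl) hθ s0 J H.uy (I := I) (I2 := I2) (by simp) hIc
    (Or.inl (by simp)) hII (fun p _ => by
      have : (I2.card : ℝ) ≤ 4 := by exact_mod_cast (by omega : I2.card ≤ 4)
      rw [e1]
      exact ⟨by positivity, by simp only [mul_one_div]; gcongr⟩) hc hcs (e := 2 * eu)
    (by rw [H.hu, ← pow_mul, mul_comm]) (by have := H.hew; omega) le_rfl H.hΘ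
  rw [e1, prod_const_one, mul_one] at h2
  refine h2.trans ?_
  have t1 := one_le_Th w y
  have t2 := H.hΘ
  have t3 : 1 / Θ ≤ VV y / VV w := by
    rw [← VV_mul_Th H.wy, div_mul_cancel_left₀ (VV_pos y).ne', ← one_div]; gcongr
  have t4 := H.Vk0
  have t5 := H.δ0.1
  have t6 : (D1 : ℝ) * u ^ 2 ≤ y := by
    exact_mod_cast (by calc D1 * u ^ 2 ≤ u * u ^ 2 := Nat.mul_le_mul_right _ H.hD1
      _ = u ^ 3 := by ring
      _ ≤ y := H.upow (by norm_num) : D1 * u ^ 2 ≤ y)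
  have hΘ0 : 0 ≤ Θ := by linarith
  rw [mul_add]
  refine add_le_add ?_ ?_
  · calc _ = X * Vk a w * (Θ ^ (5 * k + 8) * (3 * ε + 20 * eu / w + 20 * (k : ℝ) ^ 2 / w)) := by
          push_cast; ring
      _ ≤ X * Vk a w * (δ * ((1 / 4) ^ k / Θ)) := mul_le_mul_of_nonneg_left H.hδ (by positivity)
      _ = δ * (X * Vk a w * (1 / Θ) * (1 / 4) ^ k) := by ring
      _ ≤ _ := by
          have := t3.trans' (show 0 ≤ 1 / Θ by positivity)
          gcongr; exact H.J4 s0 J I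
  · calc _ = Θ ^ (5 * k + 8) * ((D1 * u ^ 2) * D) ^ 3 * E := by push_cast; ring
      _ ≤ _ := by gcongr

lemma cop (i : ι) (n : ℕ) : n.Coprime (a i * ∏ p ∈ PP 0 y, p) ↔ rough y n := by
  constructor
  · intro h1 p hp hd
    by_contra h2
    exact hp.one_lt.ne' (Nat.eq_one_of_dvd_coprimes h1 hd
      ((dvd_prod_of_mem (fun p => p) (mem_PP.2 ⟨hp.pos, by omega, hp⟩)).mul_left _))
  · intro h1
    refine Nat.coprime_of_dvd fun p hp h2 h3 => ?_
    have h4 := h1 p hp h2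
    rcases hp.dvd_mul.1 h3 with h5 | h5
    · have := Nat.le_of_dvd (H.hN.pos i) h5; have := H.hN.le i; have := H.wy; omega
    · obtain ⟨q, hq, h6⟩ := (hp.prime.dvd_finsetProd_iff _).1 h5
      have := (Nat.prime_dvd_prime_iff_eq hp (PP_prime hq)).1 h6
      have := (mem_PP.1 hq).2.1
      omega

lemma c0 (s : SieveW (GP a w) D1 (k + 3) ε) (s0 J : ℕ) (i : ι) :
    |(∑ m ∈ range (a i * ∏ p ∈ PP 0 y, p), lft (a i) (b i) (fun n => s.U (fun p => ev a b univ p n) *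
      Fw a b w s0 J u {i}ᶜ n ^ 2) m * ri y m) / (a i * ∏ p ∈ PP 0 y, p).totient -
      Vk a w * JJ w s0 J u ({i}ᶜ : Finset ι) / (a i * VV w)| ≤
      δ * (Vk a w * JJ w s0 J u ({i}ᶜ : Finset ι) / (a i * VV w)) := by
  set P := ∏ p ∈ PP 0 y, p with hP
  have hP0 : 0 < P := prod_pos fun p hp => (PP_prime hp).pos
  have ha := H.hN.pos i
  have h1 := H.master (D := P) (HC_exact (M := P) (fun p hp => (mem_GP.1 hp).2.1)
    (fun p hp => dvd_prod_of_mem (fun p => p) (mem_filter.1 hp).1) _) le_rfl (Nat.cast_nonneg _)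
    (fun _ _ => zero_le_one) s (θ := fun n => s.U (fun p => ev a b univ p n) * ri w (a i * n + b i))
    (fun n => by
      have a1 : rg a b w n ≤ s.U (fun p => ev a b univ p n) :=
        s.le_up _ fun p _ => ⟨ev_nonneg _ _ _, ev_le_one _ _ _⟩
      have a2 := (rg_nonneg a b w n).trans a1
      refine ⟨?_, mul_le_of_le_one_right a2 (ri_bd _ _).2⟩
      by_cases h2 : rg a b w n = 0
      · rw [h2]; exact mul_nonneg a2 (ri_bd _ _).1
      · rwa [ri, if_pos (H.hN.rough_of_rg h2 i), mul_one]) s0 J (I := {i}ᶜ) (I2 := {i}) (by simp)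
    disjoint_compl_left (by simp) (c := fun T => (-1) ^ T.card) (by simp)
    fun T hT _ => Nat.le_of_dvd hP0 (prod_dvd_prod_of_subset _ _ _ fun p hp => by
      have := mem_PP.1 (hT hp); exact mem_PP.2 ⟨this.2.2.pos, this.2⟩)
  simp only [th2_exact, card_singleton, Nat.cast_one, one_mul, mul_zero, add_zero,
    prod_PP_eq H.wy] at h1
  have e1 : ((a i * P).totient : ℝ) = a i * P * VV y := by
    rw [totient_real, VV]; push_cast; congr 2
    ext p
    rw [Nat.mem_primeFactors, mem_PP]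
    refine ⟨fun h2 => ⟨h2.1.pos, not_lt.1 fun h3 => ?_, h2.1⟩, fun h2 => ⟨h2.2.2,
      (dvd_prod_of_mem (fun p => p) (mem_PP.2 h2)).mul_left _, by positivity⟩⟩
    exact (Nat.Prime.coprime_iff_not_dvd h2.1).1 ((H.cop i p).2 fun q hq hd => by
      rwa [(Nat.prime_dvd_prime_iff_eq hq h2.1).1 hd]) h2.2.1
  rw [sum_lft (H.hN.lt i), e1]
  have ha' : (0 : ℝ) < a i := by exact_mod_cast ha
  have hP' : (0 : ℝ) < P := by exact_mod_cast hP0
  have := VV_pos y
  have := VV_pos w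
  have h2 := div_le_div_of_nonneg_right h1 (show 0 ≤ a i * P * VV y by positivity)
  rw [← abs_of_pos (show 0 < a i * P * VV y by positivity), ← abs_div,
    abs_of_pos (show 0 < a i * P * VV y by positivity), sub_div] at h2
  refine le_trans (le_of_eq ?_) (h2.trans (le_of_eq (by field_simp)))
  congr 2
  · congr 1; exact sum_congr rfl fun n _ => by rw [ri_split a b i H.wy]; ring
  · field_simp

lemma van (s : SieveW (GP a w) D1 (k + 3) ε) (s0 J : ℕ) (i : ι) [NeZero (a i * ∏ p ∈ PP 0 y, p)]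
    (κ : DirichletCharacter ℂ (a i * ∏ p ∈ PP 0 y, p)) (hκ : u ^ 4 < κ.conductor) :
    ∑ m ∈ range (a i * ∏ p ∈ PP 0 y, p), (lft (a i) (b i) (fun n => s.U (fun p => ev a b univ p n) *
      Fw a b w s0 J u {i}ᶜ n ^ 2) m : ℝ) * (starRingEnd ℂ) (κ m) = 0 := by
  set A := AA w u ({i}ᶜ : Finset ι) with hA
  set l := lam Prod.fst A (yI w s0 J u {i}ᶜ) with hl
  have e1 : ∀ m, lft (a i) (b i) (fun n => s.U (fun p => ev a b univ p n) *
      Fw a b w s0 J u {i}ᶜ n ^ 2) m = ∑ T ∈ (GP a w).powerset, ∑ S ∈ A.powerset, ∑ S' ∈ A.powerset,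
      s.up T * (l S * l S') * lft (a i) (b i)
        (fun n => (∏ p ∈ T, ev a b univ p n) * ∏ x ∈ S ∪ S', BB a b n x) m := by
    intro m
    unfold lft
    split_ifs
    · beta_reduce
      rw [Fw, FF_sq _ _ (BB_01 _), SieveW.U, sum_mul]
      simp only [mul_sum]
      exact sum_congr rfl fun T _ => sum_congr rfl fun S _ => sum_congr rfl fun S' _ => by ring
    · simp
  simp only [e1, Complex.ofReal_sum, sum_mul]
  rw [sum_comm]
  refine sum_eq_zero fun T hT => ?_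
  rw [sum_comm]
  refine sum_eq_zero fun S hS => ?_
  rw [sum_comm]
  refine sum_eq_zero fun S' hS' => ?_
  simp only [Complex.ofReal_mul, mul_assoc, ← mul_sum]
  by_cases h1 : s.up T = 0
  · simp [h1]
  by_cases h2 : l S = 0
  · simp [h2]
  by_cases h3 : l S' = 0
  · simp [h3]
  have hW : S ∪ S' ⊆ A := union_subset (mem_powerset.1 hS) (mem_powerset.1 hS')
  refine mul_eq_zero_of_right _ (mul_eq_zero_of_right _ (mul_eq_zero_of_right _
    (vanish (q := a i * ∏ p ∈ T ∪ (S ∪ S').image Prod.fst, p) (Nat.mul_dvd_mul_left _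
    (prod_dvd_prod_of_subset _ _ _ (union_subset (fun p hp => ?_) fun p hp => ?_)))
    (lt_of_le_of_lt ?_ hκ) (lft_modEq (H.hN.pos i) fun n n' h4 => ?_))))
  · have := mem_GP.1 (mem_powerset.1 hT hp)
    exact mem_PP.2 ⟨this.2.1.pos, this.1.trans H.wy, this.2.1⟩
  · obtain ⟨x, hx, rfl⟩ := mem_image.1 hp
    have := mem_PP.1 (mem_product.1 (hW hx)).1
    exact mem_PP.2 ⟨this.2.2.pos, this.2.1.trans H.uy, this.2.2⟩
  · have a1 := (s.supp_up T (mem_powerset.1 hT) h1).trans H.hD1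
    have a2 := lam_supp AA_two (fun U hU => yI_supp hU) h2
    have a3 := lam_supp AA_two (fun U hU => yI_supp hU) h3
    have a4 := dd_union_le (π := Prod.fst) S' fun x hx => AA_two x (mem_powerset.1 hS hx)
    have a5 : ∏ p ∈ (S ∪ S').image Prod.fst, p ≤ dd Prod.fst (S ∪ S') :=
      prod_image_le_of_one_le fun p hp => by
        obtain ⟨x, hx, rfl⟩ := mem_image.1 hp
        have := AA_two x (hW hx); omega
    have a6 : ∏ p ∈ T ∪ (S ∪ S').image Prod.fst, p ≤ (∏ p ∈ T, p) * ∏ p ∈ (S ∪ S').image Prod.fst, p := by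
      rw [← prod_union_inter]
      exact Nat.le_mul_of_pos_right _ (prod_pos fun p hp =>
        (mem_GP.1 (mem_powerset.1 hT (mem_inter.1 hp).1)).2.1.pos)
    calc _ ≤ u * (u * (u * u)) := Nat.mul_le_mul ((H.hN.le i).trans H.wu)
          (a6.trans (Nat.mul_le_mul a1 (a5.trans (a4.trans (Nat.mul_le_mul a2 a3)))))
      _ = _ := by ring
  · congr 1
    · exact prod_congr rfl fun p hp => ev_of_modEq _
        (h4.of_dvd (dvd_prod_of_mem (fun p => p) (mem_union_left _ hp)))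
    · exact prod_congr rfl fun x hx => ev_of_modEq _
        (h4.of_dvd (dvd_prod_of_mem (fun p => p) (mem_union_right _ (mem_image_of_mem _ hx))))

lemma per (s : SieveW (GP a w) D1 (k + 3) ε) (s0 J : ℕ) (I : Finset ι) (n n' : ℕ)
    (h1 : n ≡ n' [MOD ∏ p ∈ PP 0 y, p]) : s.U (fun p => ev a b univ p n) * Fw a b w s0 J u I n ^ 2 =
      s.U (fun p => ev a b univ p n') * Fw a b w s0 J u I n' ^ 2 := by
  have key : ∀ (I : Finset ι) p, p.Prime → p ≤ y → ev a b I p n = ev a b I p n' := fun I p hp h2 =>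
    ev_of_modEq _ (h1.of_dvd (dvd_prod_of_mem (fun p => p) (mem_PP.2 ⟨hp.pos, h2, hp⟩)))
  congr 1
  · refine sum_congr rfl fun T hT => congrArg _ (prod_congr rfl fun p hp => ?_)
    have := mem_GP.1 (mem_powerset.1 hT hp)
    exact key _ p this.2.1 (this.1.trans H.wy)
  · congr 1
    refine sum_congr rfl fun S hS => congrArg _ (prod_congr rfl fun x hx => ?_)
    have := mem_PP.1 (mem_product.1 (mem_powerset.1 hS hx)).1
    rw [BB, BB, key _ _ this.2.2 (this.2.1.trans H.uy)]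

end ParA

end Pool.Agent.P.MP_746f10_nt
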