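import Mathlib
import Pool.Agent.P.MP_746f10_nt.EstA
import Pool.Agent.P.MP_746f10_nt.Core

/-! Two prime values in the absence of harmful exceptional characters. -/

set_option linter.unusedSectionVars false

namespace Pool.Agent.P.MP_746f10_nt

open Finset ArithmeticFunction

lemma sum_om_form {h : ℝ} (hh : 0 ≤ h) (a b : ℕ) {A B : ℕ} (hA : 3 ≤ a * A + b) (hAB : A ≤ B) :
    ∑ m ∈ Ico (a * A + b) (a * B + b), om h m ≤ a * ∑ n ∈ Ico A B, om h (a * n + b) := by
  induction B, hAB using Nat.le_induction with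
  | base => simp
  | succ B hB ih =>
    have h1 : a * A + b ≤ a * B + b := by gcongr
    rw [sum_Ico_succ_top hB, mul_add (a : ℝ), ← sum_Ico_consecutive _ h1 (by gcongr; omega)]
    refine add_le_add ih ((sum_le_card_nsmul _ _ (om h (a * B + b)) fun m hm =>
      om_anti hh (by omega) (mem_Ico.1 hm).1).trans (le_of_eq ?_))
    rw [Nat.card_Ico, nsmul_eq_mul, show a * (B + 1) + b - (a * B + b) = a by
      rw [mul_add]; omega]

namespace ParA

variable {ι : Type} [Fintype ι] [DecidableEq ι] {a b : ι → ℕ} {k w eu u y D1 D2 N1 N2 : ℕ}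
  {ε Θ δ U h : ℝ} (H : ParA a b k w eu u y D1 D2 N1 N2 ε Θ δ U h)
include H

lemma S100 : 100 ≤ U * Real.log y := by nlinarith [H.hU, H.l1]

lemma VS : VV y * (U * Real.log y) ≤ U := by
  rw [mul_left_comm]; exact mul_le_of_le_one_right (by linarith [H.hU]) (VV_mul_log_le' y)

lemma inv_h : 1 / h = U * Real.log y := by
  rw [div_eq_iff H.h0.ne', mul_comm, H.hh]

lemma Z6 : Z1 h ≤ 6 * (U * Real.log y) ^ 2 := by
  refine (Z1_le H.h0).trans ?_
  rw [div_eq_mul_one_div 2, H.inv_h]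
  nlinarith [H.S100]

lemma N3 : 3 ≤ N1 := by have := H.w6; have := H.wy; have := H.hN1; omega

lemma err {D m : ℕ} (hD : D ≤ D2) (h1 : N1 ≤ m) (h2 : m ≤ y * N1) :
    Θ ^ (5 * k + 8) * ((y : ℝ) * D) ^ 3 * om h m ≤ (1 / 4) ^ k / u := by
  have : 0 ≤ Θ := by linarith [H.hΘ, one_le_Th w y]
  have := om_nonneg h m
  refine le_trans ?_ H.hW
  gcongr
  exact om_le H.h0.le (by have := H.N3; omega) h1 h2

lemma M1 (s : SieveW (GP a w) D1 (k + 3) ε) {ε2 : ℝ} (s2 : SieveW (PP w y) D2 1 ε2) (hε2 : ε2 ≤ δ)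
    (s0 J : ℕ) (i : ι) :
    Vk a w * JJ w s0 J u ({i}ᶜ : Finset ι) / (a i * VV w) *
      (VV y * Z1 h * (1 - 2 * δ) - U * Real.log y / 20 - 1) ≤
      ∑ n ∈ Ico N1 N2, om h (a i * n + b i) * ri y (a i * n + b i) * rg a b w n *
        Fw a b w s0 J u {i}ᶜ n ^ 2 := by
  have hN3 := H.N3
  have h0 := H.h0
  have h1 := H.master (D := D2) (HC_anti (ω := fun n => om h (a i * n + b i))
    (fun p hp => (mem_GP.1 hp).2.1) H.hN2 (fun n _ => om_nonneg _ _)
    (fun n hn => om_anti h0.le (by have := H.le_form i n; omega) (by gcongr; omega)) _)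
    (om_nonneg _ _) (sum_nonneg fun _ _ => om_nonneg _ _) (fun _ _ => om_nonneg _ _) s (θ := rg a b w)
    (fun n => ⟨le_rfl, s.le_up _ fun p _ => ⟨ev_nonneg _ _ _, ev_le_one _ _ _⟩⟩) s0 J
    (I := {i}ᶜ) (I2 := {i}) (by simp) disjoint_compl_left (by simp) s2.abs_lo s2.supp_lo
  simp only [card_singleton, Nat.cast_one, one_mul] at h1
  have h2 := (H.err le_rfl (H.le_form i N1) (H.form_le i (by omega))).trans (H.low2 s0 J {i}ᶜ i)
  have h3 : (1 - ε2) * (VV y / VV w) ≤ th2 (PP w y) s2.lo (fun p => 1 / p) := by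
    rw [← prod_PP_eq H.wy]
    exact s2.le_lo _ fun p hp => inv_prime_bd (y := y) p (by
      have := mem_PP.1 hp; exact mem_PP.2 ⟨this.2.2.pos, this.2⟩)
  have h4 : ∑ n ∈ Ico N1 N2, om h (a i * n + b i) * rg a b w n *
      th2 (PP w y) s2.lo (fun p => ev a b {i} p n) * Fw a b w s0 J u {i}ᶜ n ^ 2 ≤
      ∑ n ∈ Ico N1 N2, om h (a i * n + b i) * ri y (a i * n + b i) * rg a b w n *
        Fw a b w s0 J u {i}ᶜ n ^ 2 := by
    refine sum_le_sum fun n _ => mul_le_mul_of_nonneg_right ?_ (sq_nonneg _)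
    by_cases h5 : rg a b w n = 0
    · simp [h5]
    · rw [mul_right_comm, ri_split a b i H.wy, ri, if_pos (H.hN.rough_of_rg h5 i), one_mul]
      exact mul_le_mul_of_nonneg_right (mul_le_mul_of_nonneg_left (s2.lo_le _ fun p _ =>
        ⟨ev_nonneg _ _ _, ev_le_one _ _ _⟩) (om_nonneg _ _)) (rg_nonneg a b w n)
  set X := ∑ n ∈ Ico N1 N2, om h (a i * n + b i) with hX
  have hX0 : 0 ≤ X := sum_nonneg fun _ _ => om_nonneg _ _
  have hV := VV_pos y
  have hVw := VV_pos w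
  have ha : (0 : ℝ) < a i := by exact_mod_cast H.hN.pos i
  have h5 : VV y * Z1 h - U * Real.log y / 20 ≤ VV y * (a i * X) := by
    have a1 := H.le_form i N1
    have a2 := (Z1_range h0 (A := a i * N1 + b i) (B := a i * N2 + b i) (by omega)
      (by gcongr; exact H.hN2)).trans (sum_om_form h0.le (a i) (b i) (by omega) H.hN2)
    have a3 := log_mono (show 1 ≤ a i * N1 + b i by omega) (H.form_le i (by omega))
    have a4 := Real.log_natCast_nonneg (a i * N1 + b i)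
    have a5 : VV y * (Real.log (a i * N1 + b i : ℕ) * (1 + Real.log (a i * N1 + b i : ℕ))) ≤
        U * Real.log y / 40 := by
      calc _ ≤ VV y * (U * Real.log y ^ 2 / 40) := by
            gcongr; exact le_trans (by gcongr) H.head
        _ = U * Real.log y / 40 * (VV y * Real.log y) := by ring
        _ ≤ _ := mul_le_of_le_one_right (by linarith [H.S100]) (VV_mul_log_le' y)
    have a6 : VV y * (pw (h / 2) (a i * N2 + b i) * Z1 (h / 2)) ≤ U * Real.log y / 40 := by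
      have b1 : Z1 (h / 2) ≤ 20 * (U * Real.log y) ^ 2 := by
        refine (Z1_le (half_pos h0)).trans ?_
        rw [show 2 / (h / 2) = 4 * (1 / h) by field_simp; norm_num, H.inv_h]
        nlinarith [H.S100]
      have b2 := pw_anti (half_pos h0).le (show 1 ≤ N2 by have := H.hN2; omega) (H.le_form i N2)
      have b3 := pw_pos (h / 2) N2
      have b4 := H.S100
      calc _ ≤ VV y * (pw (h / 2) N2 * (20 * (U * Real.log y) ^ 2)) := by
            gcongr; exact tsum_nonneg fun n => om_nonneg _ n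
        _ = 20 * pw (h / 2) N2 * (U * Real.log y) * (VV y * (U * Real.log y)) := by ring
        _ ≤ 20 * pw (h / 2) N2 * (U * Real.log y) * U := by gcongr; exact H.VS
        _ = U * Real.log y / 40 * (800 * U * pw (h / 2) N2) := by ring
        _ ≤ _ := mul_le_of_le_one_right (by linarith) H.tail
    linarith [mul_le_mul_of_nonneg_left a2 hV.le]
  have hJ := (H.J4 s0 J ({i}ᶜ : Finset ι)).trans' (show 0 ≤ (1 / 4 : ℝ) ^ k by positivity)
  have hVk := H.Vk0
  set κ := Vk a w * JJ w s0 J u ({i}ᶜ : Finset ι) / (a i * VV w) with hκ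
  have hκ0 : 0 ≤ κ := by positivity
  have e1 : X * Vk a w * (VV y / VV w) * JJ w s0 J u ({i}ᶜ : Finset ι) = κ * (VV y * (a i * X)) := by
    rw [hκ]; field_simp
  obtain ⟨d0, d1⟩ := H.δ0
  have h6 : (1 - δ) * (κ * (VV y * (a i * X))) ≤
      X * Vk a w * th2 (PP w y) s2.lo (fun p => 1 / p) * JJ w s0 J u ({i}ᶜ : Finset ι) := by
    rw [← e1]
    calc _ = X * Vk a w * ((1 - δ) * (VV y / VV w)) * JJ w s0 J u ({i}ᶜ : Finset ι) := by ring
      _ ≤ _ := by gcongr; exact le_trans (by gcongr) h3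
  rw [e1] at h1
  have h7 := mul_le_mul_of_nonneg_left h5 (show 0 ≤ κ * (1 - 2 * δ) by
    have : 0 ≤ 1 - 2 * δ := by linarith
    positivity)
  have h8 : 0 ≤ κ * δ * (U * Real.log y) := by have := H.S100; positivity
  linarith [(abs_le.1 h1).1]

lemma point (s : SieveW (GP a w) D1 (k + 3) ε) (s0 J : ℕ) (i : ι) {n : ℕ} (hn : n ∈ Ico N1 N2) {Fm : ℝ}
    (hF : |Fw a b w s0 J u {i}ᶜ n| ≤ Fm) :
    om h (a i * n + b i) * ri y (a i * n + b i) * rg a b w n * Fw a b w s0 J u {i}ᶜ n ^ 2 ≤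
      pw h (a i * n + b i) * (Real.log (a i * n + b i : ℕ) - Λ (a i * n + b i)) / (a i * n + b i : ℕ) *
        ri y (a i * n + b i) * (s.U (fun p => ev a b univ p n) * Fw a b w s0 J u {i}ᶜ n ^ 2) +
      (if (a i * n + b i).Prime then 1 else 0) *
        (2 * (om h n * rg a b w n * Fw a b w s0 J u univ n ^ 2)) / a i +
      Fm ^ 2 * Real.log (y * N2 : ℕ) * (sqi y (a i * n + b i) / (a i * n + b i : ℕ)) := by
  have hn' := mem_Ico.1 hn
  have hN3 := H.N3
  have hN1 := H.hN1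
  have l1 := H.le_form i n
  have l2 := H.form_le i (show 1 ≤ n by omega)
  have e1 : (a i * n + b i).Prime → Fw a b w s0 J u univ n = Fw a b w s0 J u {i}ᶜ n := fun h1 =>
    Fw_collapse a b w s0 J u (subset_univ _) fun x _ hx p hp hd => by
      rw [show x = i by simpa using hx] at hd
      have := (Nat.prime_dvd_prime_iff_eq (PP_prime hp) h1).1 hd
      have := (mem_PP.1 hp).2.1
      have := H.uy
      have := H.hN.small 2 i Nat.prime_two (by omega)
      have := Nat.le_of_dvd (H.hN.pos i) this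
      nlinarith
  have ha : (0 : ℝ) < a i := by exact_mod_cast H.hN.pos i
  have l3 : (a i : ℝ) * n ≤ (a i * n + b i : ℕ) := by push_cast; linarith [(Nat.cast_nonneg (b i) : (0 : ℝ) ≤ b i)]
  generalize a i * n + b i = L at *
  have p1 := pw_pos h L
  have p2 := ri_bd y L
  have p3 := rg_nonneg a b w n
  have p4 : rg a b w n ≤ s.U (fun p => ev a b univ p n) :=
    s.le_up _ fun p _ => ⟨ev_nonneg _ _ _, ev_le_one _ _ _⟩
  have p5 : 0 ≤ Real.log L - Λ L := sub_nonneg.2 vonMangoldt_le_log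
  have p6 := Real.log_natCast_nonneg (y * N2)
  have p7 := om_nonneg h n
  have p8 := sqi_nonneg y L
  have p9 := vonMangoldt_nonneg (n := L)
  have hn0 : (0 : ℝ) < n := by exact_mod_cast (by omega : 0 < n)
  have h1 : pw h L * (Real.log L - Λ L) / L * ri y L * (rg a b w n * Fw a b w s0 J u {i}ᶜ n ^ 2) ≤
      pw h L * (Real.log L - Λ L) / L * ri y L *
        (s.U (fun p => ev a b univ p n) * Fw a b w s0 J u {i}ᶜ n ^ 2) := by
    have := p2.1
    gcongr
  have h2 : pw h L * Λ L / L * ri y L * (rg a b w n * Fw a b w s0 J u {i}ᶜ n ^ 2) ≤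
      (if L.Prime then 1 else 0) * (2 * (om h n * rg a b w n * Fw a b w s0 J u univ n ^ 2)) / a i +
      Fm ^ 2 * Real.log (y * N2 : ℕ) * (sqi y L / L) := by
    by_cases h3 : L.Prime
    · refine le_add_of_le_of_nonneg ?_ (by positivity)
      have a1 : Λ L ≤ 2 * Real.log n := by
        refine vonMangoldt_le_log.trans ((log_mono (by omega) (show L ≤ n ^ 2 by nlinarith)).trans ?_)
        push_cast; rw [Real.log_pow]; norm_num
      rw [if_pos h3, e1 h3, om]
      calc _ ≤ pw h n * (2 * Real.log n) / (a i * n) * 1 *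
            (rg a b w n * Fw a b w s0 J u {i}ᶜ n ^ 2) := by
            have := pw_pos h n; have := p2.1; have := Real.log_natCast_nonneg n
            gcongr
            exacts [pw_anti H.h0.le (by omega) l1, p2.2]
        _ = _ := by field_simp
    · rw [if_neg h3, zero_mul, zero_div, zero_add]
      by_cases h4 : Λ L = 0
      · rw [h4]; simp only [mul_zero, zero_div, zero_mul]; positivity
      by_cases h5 : rough y L
      swap
      · rw [ri, if_neg h5]; simp only [mul_zero, zero_mul]; positivity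
      obtain ⟨p, j, a1, a2, a3⟩ := (isPrimePow_nat_iff L).1 (vonMangoldt_ne_zero_iff.1 h4)
      have a4 : 2 ≤ j := by
        by_contra a5
        rw [show j = 1 by omega, pow_one] at a3
        exact h3 (a3 ▸ a1)
      rw [sqi, if_pos ⟨p, a1, h5 p a1 (a3 ▸ dvd_pow_self p (by omega)), a3 ▸ pow_dvd_pow p a4⟩]
      have a5 : Fw a b w s0 J u {i}ᶜ n ^ 2 ≤ Fm ^ 2 := by rw [← sq_abs]; gcongr
      calc _ ≤ 1 * Real.log (y * N2 : ℕ) / L * 1 * (1 * Fm ^ 2) := by
            have := p2.1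
            gcongr
            exacts [pw_le_one H.h0.le L, vonMangoldt_le_log.trans (log_mono (by omega)
              (l2.trans (Nat.mul_le_mul_left _ hn'.2.le))), p2.2, rg_le_one a b w n]
        _ = _ := by ring
  have e2 : om h L * ri y L * rg a b w n * Fw a b w s0 J u {i}ᶜ n ^ 2 =
      pw h L * (Real.log L - Λ L) / L * ri y L * (rg a b w n * Fw a b w s0 J u {i}ᶜ n ^ 2) +
      pw h L * Λ L / L * ri y L * (rg a b w n * Fw a b w s0 J u {i}ᶜ n ^ 2) := by rw [om]; ring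
  linarith

lemma prime_lower (s : SieveW (GP a w) D1 (k + 3) ε) {ε2 : ℝ} (s2 : SieveW (PP w y) D2 1 ε2)
    (hε2 : ε2 ≤ δ) (s0 J : ℕ) (i : ι) {Fm : ℝ}
    (hF : ∀ n ∈ Ico N1 N2, |Fw a b w s0 J u {i}ᶜ n| ≤ Fm)
    (hpp : Fm ^ 2 * Real.log (y * N2 : ℕ) * ((1 + Real.log (y * N2 : ℕ)) / y) ≤ (1 / 4) ^ k / u)
    (hcore : ∀ Ω : Finset ℕ, ∑ m ∈ Ω, pw h m * (Real.log m - Λ m) / m * ri y m *
      lft (a i) (b i) (fun n => s.U (fun p => ev a b univ p n) * Fw a b w s0 J u {i}ᶜ n ^ 2) m ≤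
      (∑ m ∈ range (a i * ∏ p ∈ PP 0 y, p), lft (a i) (b i) (fun n => s.U (fun p => ev a b univ p n) *
        Fw a b w s0 J u {i}ᶜ n ^ 2) m * ri y m) / (a i * ∏ p ∈ PP 0 y, p).totient *
        (VV y * Z1 h - U * Real.log y / 4)) :
    Vk a w * JJ w s0 J u ({i}ᶜ : Finset ι) / VV w * (U * Real.log y / 7) ≤
      ∑ n ∈ Ico N1 N2, (if (a i * n + b i).Prime then 1 else 0) *
        (2 * (om h n * rg a b w n * Fw a b w s0 J u univ n ^ 2)) := by
  have hinj : Set.InjOn (fun n => a i * n + b i) (Ico N1 N2 : Finset ℕ) := fun n _ n' _ e =>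
    Nat.eq_of_mul_eq_mul_left (H.hN.pos i) (by simpa using e)
  have h1 := hcore ((Ico N1 N2).image fun n => a i * n + b i)
  rw [sum_image hinj] at h1
  simp only [lft_form (H.hN.lt i)] at h1
  have h2 := sum_le_sum fun n hn => H.point s s0 J i hn (hF n hn)
  rw [sum_add_distrib, sum_add_distrib, ← sum_div, ← mul_sum] at h2
  have h3 : ∑ n ∈ Ico N1 N2, sqi y (a i * n + b i) / (a i * n + b i : ℕ) ≤
      (1 + Real.log (y * N2 : ℕ)) / y := by
    rw [← sum_image (f := fun m : ℕ => sqi y m / m) hinj]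
    refine le_trans (sum_le_sum_of_subset_of_nonneg (fun m hm => ?_) fun m _ _ =>
      div_nonneg (sqi_nonneg _ _) (Nat.cast_nonneg m))
      (sum_sqi_div_le (by have := H.w6; have := H.wy; omega) (y * N2))
    obtain ⟨n, hn, rfl⟩ := mem_image.1 hm
    have a1 := mem_Ico.1 hn
    have := H.N3
    have := H.le_form i n
    exact mem_Icc.2 ⟨by omega, (H.form_le i (by omega)).trans (Nat.mul_le_mul_left _ a1.2.le)⟩
  have h4 := ((mul_le_mul_of_nonneg_left h3 (mul_nonneg (sq_nonneg Fm)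
    (Real.log_natCast_nonneg (y * N2)))).trans hpp).trans (H.low2 s0 J {i}ᶜ i)
  have h5 := H.M1 s s2 hε2 s0 J i
  have h6 := abs_le.1 (H.c0 s s0 J i)
  have hJ := (H.J4 s0 J ({i}ᶜ : Finset ι)).trans' (show 0 ≤ (1 / 4 : ℝ) ^ k by positivity)
  have hVk := H.Vk0
  have hVw := VV_pos w
  have hV := VV_pos y
  have ha : (0 : ℝ) < a i := by exact_mod_cast H.hN.pos i
  rw [show Vk a w * JJ w s0 J u ({i}ᶜ : Finset ι) / VV w * (U * Real.log y / 7) =
    Vk a w * JJ w s0 J u ({i}ᶜ : Finset ι) / (a i * VV w) * (U * Real.log y / 7) * a i by field_simp,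
    ← le_div_iff₀ ha]
  set κ := Vk a w * JJ w s0 J u ({i}ᶜ : Finset ι) / (a i * VV w) with hκ
  have hκ0 : 0 ≤ κ := by positivity
  obtain ⟨d0, d1⟩ := H.δ0
  have hS := H.S100
  have hZ0 : 0 ≤ VV y * Z1 h := mul_nonneg hV.le (tsum_nonneg fun n => om_nonneg _ n)
  have h7 : δ * (VV y * Z1 h) ≤ 6 / 1000 * (U * Real.log y) := by
    calc _ ≤ δ * (VV y * (6 * (U * Real.log y) ^ 2)) := by gcongr; exact H.Z6
      _ = 6 * δ * (U * Real.log y) * (VV y * (U * Real.log y)) := by ring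
      _ ≤ 6 * δ * (U * Real.log y) * U := by gcongr; exact H.VS
      _ = 6 / 1000 * (U * Real.log y) * (δ * (1000 * U)) := by ring
      _ = _ := by rw [H.hδU, mul_one]
  have h8 := mul_le_mul_of_nonneg_right h6.1 (show 0 ≤ U * Real.log y by linarith)
  have h9 := mul_le_mul_of_nonneg_right h6.2 hZ0
  have h10 := mul_le_mul_of_nonneg_left h7 hκ0
  have h11 := mul_le_mul_of_nonneg_left hS hκ0
  have h12 := mul_le_mul_of_nonneg_right d1 (show 0 ≤ κ * (U * Real.log y) by positivity)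
  linarith

lemma upper (s : SieveW (GP a w) D1 (k + 3) ε) (s0 J : ℕ) :
    ∑ n ∈ Ico N1 N2, om h n * rg a b w n * Fw a b w s0 J u univ n ^ 2 ≤
      13 * (U * Real.log y) ^ 2 * (Vk a w * JJ w s0 J u (univ : Finset ι)) := by
  have hN3 := H.N3
  have h0 := H.h0
  have h1 := H.master (D := 1) (HC_anti (ω := om h) (fun p hp => (mem_GP.1 hp).2.1) H.hN2
    (fun n _ => om_nonneg _ _) (fun n hn => om_anti h0.le (by omega) (by omega)) _)
    (om_nonneg _ _) (sum_nonneg fun _ _ => om_nonneg _ _) (fun _ _ => om_nonneg _ _) s (θ := rg a b w)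
    (fun n => ⟨le_rfl, s.le_up _ fun p _ => ⟨ev_nonneg _ _ _, ev_le_one _ _ _⟩⟩) s0 J
    (I := univ) (I2 := ∅) (by simp) (by simp) (by simp) (c := fun T => if T = ∅ then 1 else 0)
    (fun T => by split_ifs <;> simp) (fun T _ hT => by
      rw [show T = ∅ by by_contra h0; simp [h0] at hT]; simp)
  simp only [th2_empty, mul_one] at h1
  have h2 := H.err H.hD2 le_rfl (Nat.le_mul_of_pos_left _ (by have := H.w6; have := H.wy; omega))
  have h3 : ∑ n ∈ Ico N1 N2, om h n ≤ 6 * (U * Real.log y) ^ 2 :=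
    ((summable_pw_log h0).sum_le_tsum _ fun n _ => om_nonneg _ n).trans H.Z6
  have hJ := H.J4 s0 J (univ : Finset ι)
  have hJ0 := hJ.trans' (show 0 ≤ (1 / 4 : ℝ) ^ k by positivity)
  have hVk := H.Vk0
  have h4 : (1 / 4) ^ k / u ≤ Vk a w * JJ w s0 J u (univ : Finset ι) := by
    have : (1 : ℝ) ≤ w := by exact_mod_cast (by have := H.w6; omega : 1 ≤ w)
    calc _ = 1 / (u : ℝ) * (1 / 4) ^ k := by ring
      _ ≤ _ := by gcongr; exact le_trans (by gcongr) H.low
  set X := ∑ n ∈ Ico N1 N2, om h n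
  have hX0 : 0 ≤ X := sum_nonneg fun _ _ => om_nonneg _ _
  obtain ⟨d0, d1⟩ := H.δ0
  have h5 : δ * (X * Vk a w * (VV y / VV w) * JJ w s0 J u (univ : Finset ι)) ≤
      1 * (X * Vk a w * 1 * JJ w s0 J u (univ : Finset ι)) := by
    have := VV_pos y; have := VV_pos w
    gcongr
    exacts [by linarith, (div_le_one this).2 (VV_anti H.wy)]
  have h6 := mul_le_mul_of_nonneg_right h3 (mul_nonneg hVk.le hJ0)
  have h7 := mul_le_mul_of_nonneg_right (one_le_pow₀ (n := 2) (show 1 ≤ U * Real.log y by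
    linarith [H.S100])) (mul_nonneg hVk.le hJ0)
  linarith [(abs_le.1 h1).2]

end ParA

theorem LS2St.two {c : ℕ} {C : ℝ} (hL : LS2St c C) (hc : 1 ≤ c) (hC : 1 ≤ C) {η : ℝ} (hη : 0 < η) :
    ∃ U0 : ℝ, ∀ {ι : Type} [Fintype ι] [DecidableEq ι] {a b : ι → ℕ} {k w eu u y D1 D2 N1 N2 : ℕ}
    {ε Θ δ U h ε2 Fm : ℝ} {s0 J M1 : ℕ} {χ0 : ℕ → ℝ}, ParA a b k w eu u y D1 D2 N1 N2 ε Θ δ U h →
    U0 ≤ U → y = ((u ^ 4) ^ 2) ^ c → SieveW (GP a w) D1 (k + 3) ε → SieveW (PP w y) D2 1 ε2 → ε2 ≤ δ →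
    1 ≤ s0 → eu = s0 * M1 → 4 * 2 ^ J ≤ M1 → 8 * k * (J + 1) * CM ≤ M1 →
    (∀ I, ∀ n ∈ Ico N1 N2, |Fw a b w s0 J u I n| ≤ Fm) →
    Fm ^ 2 * Real.log (y * N2 : ℕ) * ((1 + Real.log (y * N2 : ℕ)) / y) ≤ (1 / 4) ^ k / u →
    400 * (U * Real.log y) * VV w * a2 w s0 J u ≤ k * a1 w s0 J u ^ 2 →
    (∀ l n, χ0 (a l * n + b l) = -1) →
    (∀ χ : RC, χ.r ≤ u ^ 4 → η ≤ χ.ell y ∨ ∀ n, rough y n → χ.χ n = χ0 n) →
    ∃ n < N2, ∃ i j, i ≠ j ∧ (a i * n + b i).Prime ∧ (a j * n + b j).Prime := by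
  obtain ⟨U0, hU0⟩ := hL.core hc hC hη
  refine ⟨U0, ?_⟩
  intro ι _ _ a b k w eu u y D1 D2 N1 N2 ε Θ δ U h ε2 Fm s0 J M1 χ0 H hU hy s s2 hε2 hs0 heu hM1 hM2
    hF hpp hgain hχ0 hexc
  by_contra hno
  push Not at hno
  have hw6 := H.w6
  have hwu := H.wu
  obtain ⟨k1, hk1⟩ : ∃ k1, k = k1 + 1 := ⟨k - 1, by have := H.hk3; omega⟩
  have hu : u = w ^ (s0 * M1) := by rw [H.hu, heu]
  set A1 := a1 w s0 J u ^ 2 with hA1
  set A2 := a2 w s0 J u with hA2
  have hA2p : 0 < A2 := a2_pos (by omega) hs0 J (hu ▸ Nat.pow_le_pow_right (by omega)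
    (Nat.le_mul_of_pos_right _ (lt_of_lt_of_le (by positivity) hM1)))
  have hVk := H.Vk0
  have hVw := VV_pos w
  have hS := H.S100
  have h1 : ∀ i, Vk a w * (A1 * A2 ^ k1 / 2) / VV w * (U * Real.log y / 7) ≤
      ∑ n ∈ Ico N1 N2, (if (a i * n + b i).Prime then 1 else 0) *
        (2 * (om h n * rg a b w n * Fw a b w s0 J u univ n ^ 2)) := by
    intro i
    have : NeZero (a i * ∏ p ∈ PP 0 y, p) :=
      ⟨(Nat.mul_pos (H.hN.pos i) (prod_pos fun p hp => (PP_prime hp).pos)).ne'⟩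
    refine le_trans ?_ (H.prime_lower s s2 hε2 s0 J i (hF _) hpp (hU0 U h (u ^ 4) y _ _ χ0 hU
      ((by omega : 2 ≤ u).trans (Nat.le_self_pow (by norm_num) u)) hy H.hh (H.cop i) (fun m => ?_)
      (lft_modEq (H.hN.pos i) (H.per s s0 J _)) (H.van s s0 J i) (fun m hm => ?_) hexc))
    · have hJ := JJ_ge (w := w) (I := ({i}ᶜ : Finset ι)) (by omega) hs0 (by simp) hM1
        (by rw [H.hk]; exact hM2)
      rw [← hu, compl_compl, card_compl, card_singleton, H.hk, hk1, pow_one] at hJ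
      gcongr; exact hJ
    · unfold lft
      split_ifs
      exacts [mul_nonneg (s.U_nonneg fun p _ => ⟨ev_nonneg _ _ _, ev_le_one _ _ _⟩) (sq_nonneg _), le_rfl]
    · have a1 : m % a i = b i := by by_contra a1; simp [lft, a1] at hm
      rw [← Nat.div_add_mod m (a i), a1]; exact hχ0 i _
  have h2 := sum_le_sum fun i (_ : i ∈ univ) => h1 i
  rw [sum_const, card_univ, H.hk, nsmul_eq_mul, sum_comm] at h2
  have h3 := h2.trans (sum_le_sum (g := fun n => 2 * (om h n * rg a b w n *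
      Fw a b w s0 J u univ n ^ 2)) fun n hn => by
    rw [← sum_mul]
    exact mul_le_of_le_one_left (by have := om_nonneg h n; have := rg_nonneg a b w n; positivity)
      (sum_prime_le_one fun i j hij h3 => hno n (mem_Ico.1 hn).2 _ _ hij h3.1 h3.2))
  rw [← mul_sum] at h3
  have h4 := H.upper s s0 J
  have h5 := JJ_le w s0 J u (univ : Finset ι)
  rw [compl_univ, card_empty, pow_zero, one_mul, card_univ, H.hk, hk1, pow_succ, ← hA2] at h5
  have h6 := mul_le_mul_of_nonneg_left h5 (show 0 ≤ 13 * (U * Real.log y) ^ 2 * Vk a w by positivity)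
  have h7 := mul_le_mul_of_nonneg_left hgain
    (show 0 ≤ Vk a w * A2 ^ k1 / VV w * (U * Real.log y) / 14 by positivity)
  have h8 : 0 < (U * Real.log y) ^ 2 * Vk a w * (A2 ^ k1 * A2) := by positivity
  have h9 : Vk a w * A2 ^ k1 / VV w * (U * Real.log y) / 14 * (400 * (U * Real.log y) * VV w * A2) =
      400 / 14 * ((U * Real.log y) ^ 2 * Vk a w * (A2 ^ k1 * A2)) := by field_simp
  have h10 : Vk a w * A2 ^ k1 / VV w * (U * Real.log y) / 14 * (k * A1) =
      k * (Vk a w * (A1 * A2 ^ k1 / 2) / VV w * (U * Real.log y / 7)) := by ring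
  linarith

end Pool.Agent.P.MP_746f10_nt
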