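import Mathlib
import Pool.Agent.P.MP_746f10_nt.SumA

/-! Choice of parameters in the absence of harmful exceptional characters. -/

set_option linter.unusedSectionVars false

namespace Pool.Agent.P.MP_746f10_nt

open Finset

theorem LS2St.thmA {c : ℕ} {C : ℝ} (hL : LS2St c C) (hc : 1 ≤ c) (hC : 1 ≤ C) {η : ℝ} (hη : 0 < η) :
    ∃ k e E v0 : ℕ, 3 ≤ k ∧ 1 ≤ e ∧ ∀ {ι : Type} [Fintype ι] [DecidableEq ι] (a b : ι → ℕ) (v : ℕ)
    (χ0 : ℕ → ℝ), Fintype.card ι = k → v0 ≤ v → Nrm a b (2 * (k + 3)) v →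
    (∀ l n, χ0 (a l * n + b l) = -1) → (∀ χ : RC, χ.r ≤ v ^ e → η ≤ χ.ell (((v ^ e) ^ 2) ^ c) ∨
      ∀ n, rough (((v ^ e) ^ 2) ^ c) n → χ.χ n = χ0 n) →
    ∃ n ≤ v ^ E, ∃ i j, i ≠ j ∧ (a i * n + b i).Prime ∧ (a j * n + b j).Prime := by
  obtain ⟨U0, hU0⟩ := hL.two hc hC hη
  obtain ⟨k01, hk01⟩ := exists_sieve 1 zero_le_one
  obtain ⟨c0, hc0⟩ : ∃ c0 : ℕ, CM ≤ c0 := ⟨_, Nat.le_ceil _⟩
  have hCM := one_le_CM
  have hc01 : 1 ≤ c0 := by exact_mod_cast hCM.trans hc0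
  obtain ⟨m', hm'⟩ := exists_pow_le (80 * (⌈U0⌉₊ + 100)) (12 * k01 + 145) 12 2
  obtain ⟨Un, hUn⟩ : ∃ Un, Un = 2 ^ m' := ⟨_, rfl⟩
  obtain ⟨s2, hs2⟩ : ∃ s2, s2 = 4 * (k01 + (m' + 10)) + 6 := ⟨_, rfl⟩
  rw [← hUn, show 12 * k01 + 145 + 12 * m' = 3 * s2 + 7 by omega] at hm'
  have hU1 : 80 * (3 * s2 + 7) ^ 2 ≤ Un := le_trans (by gcongr; omega) hm'
  have hU2 : ⌈U0⌉₊ + 100 ≤ Un :=
    le_trans (le_trans (by omega) (Nat.le_mul_of_pos_right _ (by positivity))) hm'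
  obtain ⟨u2, hu2⟩ : ∃ u2, u2 = 1600 * Un ^ 2 + (3 * s2 + 6) := ⟨_, rfl⟩
  obtain ⟨J, hJ⟩ : ∃ J, J = 204800 * Un * c * c0 ^ 2 := ⟨_, rfl⟩
  have hJ2 : 2 ≤ J := by
    have : 1 ≤ Un * c * c0 ^ 2 := Nat.mul_pos (Nat.mul_pos (by omega) hc) (by positivity)
    rw [hJ]; linarith only [this]
  obtain ⟨k, hk⟩ : ∃ k, k = 2 ^ J := ⟨_, rfl⟩
  have hk4 : 4 ≤ k := hk ▸ (Nat.pow_le_pow_right two_pos hJ2 : 2 ^ 2 ≤ 2 ^ J)
  obtain ⟨k0, hk0⟩ := exists_sieve (k + 3) (by positivity)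
  obtain ⟨M1, hM1⟩ : ∃ M1, M1 = 8 * k * (J + 1) * c0 := ⟨_, rfl⟩
  have hkM : 8 * k ≤ M1 := by
    rw [hM1, mul_assoc]; exact Nat.le_mul_of_pos_right _ (Nat.mul_pos (by omega) hc01)
  obtain ⟨m, hm⟩ := exists_pow_le (6000 * Un * 4 ^ k) (c0 * (8 * c) * M1 * (4 * k0 + 6))
    (c0 * (8 * c) * M1 * 4) (5 * k + 9)
  obtain ⟨s0, hs0⟩ : ∃ s0, s0 = 4 * (k0 + m) + 6 := ⟨_, rfl⟩
  obtain ⟨eu, heu⟩ : ∃ eu, eu = s0 * M1 := ⟨_, rfl⟩
  have hMe : M1 ≤ eu := heu ▸ Nat.le_mul_of_pos_left _ (by omega)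
  have hse : s0 ≤ eu := heu ▸ Nat.le_mul_of_pos_right _ (by omega)
  obtain ⟨Θ, hΘ⟩ : ∃ Θ : ℝ, Θ = c0 * (eu * (8 * c) : ℕ) := ⟨_, rfl⟩
  have hm2 : 6000 * Un * 4 ^ k * Θ ^ (5 * k + 9) ≤ 2 ^ m := by
    rw [show c0 * (8 * c) * M1 * (4 * k0 + 6) + c0 * (8 * c) * M1 * 4 * m = c0 * (eu * (8 * c)) by
      rw [heu, hs0]; ring] at hm
    rw [hΘ]; exact_mod_cast hm
  have hee : 1 ≤ eu * (8 * c) := Nat.mul_pos (by omega) (by omega)
  have hΘ1 : 1 ≤ Θ := by rw [hΘ]; exact_mod_cast Nat.mul_pos hc01 hee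
  have hΘ0 : 0 < Θ := by linarith
  have hUn' : (100 : ℝ) ≤ Un := by exact_mod_cast (by omega : 100 ≤ Un)
  have hUn0 : (0 : ℝ) < Un := by linarith
  obtain ⟨Fm, hFm⟩ : ∃ Fm : ℝ, Fm = Θ ^ k * 2 ^ (k * (eu * (8 * c) * (u2 + 1))) := ⟨_, rfl⟩
  obtain ⟨K2, hK2⟩ : ∃ K2 : ℝ, K2 = (u2 + 1 : ℕ) * (8 * c : ℕ) := ⟨_, rfl⟩
  have hK21 : 1 ≤ K2 := by rw [hK2]; exact_mod_cast Nat.mul_pos (by omega) (by omega)
  obtain ⟨W1, hW1⟩ : ∃ W1 : ℝ, W1 = 2000 * Un * 4 ^ k * Θ ^ (5 * k + 9) * (20 * eu + 20 * k ^ 2) :=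
    ⟨_, rfl⟩
  obtain ⟨W2, hW2⟩ : ∃ W2 : ℝ, W2 = Θ ^ (5 * k + 8) * (3 * s2 + 6 + 1 : ℕ) * 4 ^ k := ⟨_, rfl⟩
  obtain ⟨W3, hW3⟩ : ∃ W3 : ℝ, W3 = Fm ^ 2 * (2 * K2 ^ 2) * 4 ^ k := ⟨_, rfl⟩
  have w1 : 0 ≤ W1 := by rw [hW1]; positivity
  have w2 : 0 ≤ W2 := by rw [hW2]; positivity
  have w3 : 0 ≤ W3 := by rw [hW3]; positivity
  refine ⟨k, eu * 4, eu * (8 * c) * u2, 6 * eu + ⌈W1 + W2 + W3⌉₊, by omega, by omega, ?_⟩
  intro ι _ _ a b w χ0 hcard hv hN hχ0 hexc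
  have hvW : W1 + W2 + W3 ≤ w := (Nat.le_ceil _).trans (by exact_mod_cast (by omega))
  obtain ⟨u, hu⟩ : ∃ u, u = w ^ eu := ⟨_, rfl⟩
  rw [pow_mul, ← hu] at hexc
  obtain ⟨y, hy⟩ : ∃ y, y = ((u ^ 4) ^ 2) ^ c := ⟨_, rfl⟩
  rw [← hy] at hexc
  have hy1 : y = u ^ (8 * c) := by rw [hy, ← pow_mul, ← pow_mul]; congr 1; ring
  have hy2 : y = w ^ (eu * (8 * c)) := by rw [hy1, hu, ← pow_mul]
  have hwu : w ≤ u := hu ▸ Nat.le_self_pow (by omega) w
  have huy8 : u ^ 8 ≤ y := by rw [hy1]; exact Nat.pow_le_pow_right (by omega) (by omega)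
  have huy : u ≤ y := (Nat.le_self_pow (by norm_num) u).trans huy8
  have hw' : (6 : ℝ) ≤ w := by exact_mod_cast (by omega : 6 ≤ w)
  have hwu' : (w : ℝ) ≤ u := by exact_mod_cast hwu
  have huy' : (u : ℝ) ≤ y := by exact_mod_cast huy
  have hu0 : (0 : ℝ) < u := by linarith
  have hy0 : (0 : ℝ) < y := by linarith
  have l1 : 1 ≤ Real.log y := by
    rw [Real.le_log_iff_exp_le hy0]; linarith [Real.exp_one_lt_d9]
  have lp : ∀ j : ℕ, Real.log (y * y ^ j : ℕ) = (j + 1 : ℕ) * Real.log y := fun j => by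
    rw [← pow_succ', Nat.cast_pow, Real.log_pow]
  have hTh : Th w y ≤ Θ := by
    rw [hy2, hΘ]; exact (Th_le_pow (by omega) hee).trans (by gcongr)
  have e4 : (1 / 4 : ℝ) ^ k = 1 / 4 ^ k := by rw [one_div_pow]
  have H : ParA a b k w eu u y (w ^ s0) (y ^ s2) (y ^ (3 * s2 + 6)) (y ^ u2) (1 / 2 ^ m) Θ
      (1 / (1000 * Un)) Un (1 / (Un * Real.log y)) :=
    { hN := hN, hk := hcard, hk3 := by omega, hu := hu, heu := by omega, hew := by omega, huy := huy8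
      hD1 := by rw [hu]; exact Nat.pow_le_pow_right (by omega) hse
      hD2 := Nat.one_le_pow _ _ (by omega)
      hε := by positivity
      hΘ := hTh
      hδ := by
        have h1 : 6000 * Un * 4 ^ k * Θ ^ (5 * k + 9) / 2 ^ m ≤ 1 := by
          rwa [div_le_one (by positivity)]
        have h2 : W1 / w ≤ 1 := by rw [div_le_one (by linarith)]; linarith
        calc _ = 1 / (1000 * Un) * (1 / 4 ^ k / Θ) *
              ((6000 * Un * 4 ^ k * Θ ^ (5 * k + 9) / 2 ^ m + W1 / w) / 2) := by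
              rw [hW1]; field_simp; ring
          _ ≤ _ := by rw [e4]; exact mul_le_of_le_one_right (by positivity) (by linarith)
      hδU := by field_simp
      hU := hUn'
      hh := by field_simp
      hN1 := Nat.le_self_pow (by omega) y
      hN2 := Nat.pow_le_pow_right (by omega) (by omega)
      hW := by
        have h1 : Real.log y ≤ y := by linarith [Real.log_le_sub_one_of_pos hy0]
        rw [lp, e4]
        calc _ = 1 / 4 ^ k / u * (W2 * u * Real.log y / (y * y * y)) := by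
              rw [hW2]; push_cast; field_simp; ring
          _ ≤ _ := mul_le_of_le_one_right (by positivity) (by
              rw [div_le_one (by positivity)]; gcongr; linarith)
      head := by
        have h1 : 80 * ((3 * s2 + 6 + 1 : ℕ) : ℝ) ^ 2 ≤ Un := by exact_mod_cast hU1
        have h2 : (1 : ℝ) ≤ (3 * s2 + 6 + 1 : ℕ) * Real.log y :=
          one_le_mul_of_one_le_of_one_le (by exact_mod_cast (by omega)) l1
        rw [lp]
        nlinarith only [h2, mul_le_mul_of_nonneg_right h1 (sq_nonneg (Real.log y))]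
      tail := by
        have h1 := Real.add_one_le_exp ((u2 : ℝ) / (2 * Un))
        have h2 : 800 * (Un : ℝ) ≤ u2 / (2 * Un) := by
          rw [le_div_iff₀ (by positivity), hu2]; push_cast
          linarith only [show (0 : ℝ) ≤ s2 from Nat.cast_nonneg s2]
        rw [pw, Nat.cast_pow, Real.log_pow, show 1 / (Un * Real.log y) / 2 * (u2 * Real.log y) =
          u2 / (2 * Un) by field_simp, Real.exp_neg, ← div_eq_mul_inv, div_le_one (Real.exp_pos _)]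
        linarith }
  obtain ⟨s⟩ := hk0 m w (GP a w) (by omega) fun p hp => ⟨(mem_GP.1 hp).2.1, (mem_GP.1 hp).1⟩
  rw [← hs0] at s
  obtain ⟨s'⟩ := hk01 (m' + 10) y (PP w y) (by omega) fun p hp => ⟨PP_prime hp, (mem_PP.1 hp).2.1⟩
  rw [← hs2] at s'
  obtain ⟨n, hn, hres⟩ := hU0 (Fm := Fm) (s0 := s0) (J := J) (M1 := M1) H
    ((Nat.le_ceil U0).trans (by exact_mod_cast (by omega))) hy s s'
    (by rw [hUn, pow_add]; push_cast
        exact one_div_le_one_div_of_le (by positivity)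
          (by linarith only [show (0 : ℝ) < 2 ^ m' by positivity]))
    (by omega) heu (by omega) (by rw [hM1]; push_cast; gcongr)
    (fun I n hn => by
      have h1 := mem_Ico.1 hn
      have h2 := H.N3
      rw [hFm, ← hcard]
      refine abs_Fw_le a b (by omega) s0 J u I
        (fun l => (Nat.add_pos_left (Nat.mul_pos (hN.pos l) (by omega)) _).ne')
        (fun l => ?_) (le_trans ?_ hTh)
      · rw [pow_mul, ← hy2, pow_succ']
        exact (H.form_le l (by omega)).trans (Nat.mul_le_mul_left _ h1.2.le)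
      · unfold Th; rw [prod_PP_split hwu huy]
        exact le_mul_of_one_le_right (zero_le_one.trans (one_le_Th w u)) (one_le_Th u y))
    (by have h1 : Real.log (y * y ^ u2 : ℕ) ≤ K2 * u := by
          have : Real.log u ≤ u := by linarith [Real.log_le_sub_one_of_pos hu0]
          rw [lp, hy1, Nat.cast_pow, Real.log_pow, hK2, ← mul_assoc]; gcongr
        have h2 := Real.log_natCast_nonneg (y * y ^ u2)
        have h3 : 1 ≤ K2 * u := one_le_mul_of_one_le_of_one_le hK21 (by linarith)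
        have h4 : (u : ℝ) ^ 4 ≤ y := by exact_mod_cast H.upow (j := 4) (by norm_num)
        calc _ ≤ Fm ^ 2 * (K2 * u) * ((K2 * u + K2 * u) / u ^ 4) := by gcongr
          _ = 1 / 4 ^ k / u * (W3 / u) := by rw [hW3]; field_simp; ring
          _ ≤ _ := by
              rw [e4]; exact mul_le_of_le_one_right (by positivity) (by
                rw [div_le_one hu0]; linarith))
    (by have h1 := gain (w := w) (s0 := s0) (J := J) (R := u) (by omega) (by omega)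
          (by rw [hu, heu]; exact Nat.pow_le_pow_right (by omega) (Nat.mul_le_mul_left _ (by omega)))
        have h2 := a2_nonneg w s0 J u
        have h3 := VV_pos w
        have h5 := Real.log_natCast_nonneg w
        have h6 : (0 : ℝ) < c0 := by linarith
        have h4 : (204800 * Un * c * c0 ^ 2 : ℝ) ≤ J + 1 := by rw [hJ]; push_cast; linarith
        calc _ = k * ((204800 * Un * c * c0 ^ 2) * (J + 1) * (VV w * Real.log w * s0) / (8 * c0) *
              a2 w s0 J u) := by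
              rw [hy2, Nat.cast_pow, Real.log_pow, heu, hM1]; push_cast; field_simp; ring
          _ ≤ k * ((J + 1) * (J + 1) * (VV w * Real.log w * s0) / (8 * CM) * a2 w s0 J u) := by gcongr
          _ ≤ _ := by rw [← sq]; gcongr) hχ0 hexc
  exact ⟨n, by rw [pow_mul, ← hy2]; exact hn.le, hres⟩

end Pool.Agent.P.MP_746f10_nt
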