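import Mathlib
import Pool.Agent.P.MP_746f10_nt.Kloo
import Pool.Agent.P.MP_746f10_nt.Gam

/-! The divisor sum of a real character in arithmetic progressions. -/

namespace Pool.Agent.P.MP_746f10_nt

open Finset

lemma sum_le_of_subset_union {α : Type*} [DecidableEq α] {s t u : Finset α} {f : α → ℝ}
    (hf : ∀ x, 0 ≤ f x) (h : s ⊆ t ∪ u) : ∑ x ∈ s, f x ≤ ∑ x ∈ t, f x + ∑ x ∈ u, f x := by
  rw [← sum_union_inter]
  exact (sum_le_sum_of_subset_of_nonneg h fun x _ _ => hf x).trans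
    (le_add_of_nonneg_right (sum_nonneg fun x _ => hf x))

lemma sum_Ico_strips {M : Type*} [AddCommMonoid M] (f : ℕ → M) (A T n : ℕ) :
    ∑ d ∈ Ico A (A + n * T), f d = ∑ j ∈ range n, ∑ d ∈ Ico (A + j * T) (A + j * T + T), f d := by
  induction n with
  | zero => simp
  | succ n ih =>
    rw [sum_range_succ, ← ih, sum_Ico_consecutive _ (by omega) (by omega)]
    congr 2; ring

lemma ind_coprime {Q : ℕ} (hQ : Q ≠ 0) (d : ℕ) (x : ℝ) : (if d.Coprime Q then x else 0) =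
    x * ∏ p ∈ Q.primeFactors, (1 + if p ∣ d then (-1 : ℝ) else 0) := by
  split_ifs with h
  · rw [prod_eq_one, mul_one]
    intro p hp
    rw [if_neg, add_zero]
    intro hd
    have := Nat.mem_primeFactors.1 hp
    exact this.1.one_lt.ne' (Nat.eq_one_of_dvd_coprimes h hd this.2.1)
  · obtain ⟨p, hp, h1, h2⟩ := Nat.Prime.not_coprime_iff_dvd.1 h
    rw [prod_eq_zero (Nat.mem_primeFactors.2 ⟨hp, h2, hQ⟩) (by rw [if_pos h1]; ring), mul_zero]

lemma prod_le_tau {Q : ℕ} (hQ : Q ≠ 0) {x : ℕ → ℝ} (hx : ∀ p ∈ Q.primeFactors, 0 ≤ x p ∧ x p ≤ 2) :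
    ∏ p ∈ Q.primeFactors, x p ≤ Q.divisors.card := by
  calc _ ≤ ∏ _p ∈ Q.primeFactors, (2 : ℝ) := prod_le_prod (fun p hp => (hx p hp).1) fun p hp => (hx p hp).2
    _ ≤ _ := by rw [prod_const]; exact_mod_cast two_pow_card_primeFactors_le hQ

lemma RC.abs_sum_coprime_le (c : RC) {Q : ℕ} (hQ : Q ≠ 0) {A B : ℕ} (hA : 1 ≤ A) (hAB : A ≤ B) :
    |∑ d ∈ Ico A B, if d.Coprime Q then c.χ d else 0| ≤ 2 * (Q.divisors.card * c.r) := by
  have key : ∀ x, |∑ d ∈ Icc 1 x, if d.Coprime Q then c.χ d else 0| ≤ (Q.divisors.card : ℝ) * c.r := by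
    intro x
    simp_rw [ind_coprime hQ, prod_one_add, mul_sum]
    rw [sum_comm]
    refine (abs_sum_le_sum_abs _ _).trans ((sum_le_card_nsmul _ _ (c.r : ℝ) fun T hT => ?_).trans ?_)
    · have hT' : ∀ p ∈ T, p.Prime := fun p hp => Nat.prime_of_mem_primeFactors (mem_powerset.1 hT hp)
      have hq0 : 0 < ∏ p ∈ T, p := prod_pos fun p hp => (hT' p hp).pos
      have e1 : ∀ d, c.χ d * ∏ p ∈ T, (if p ∣ d then (-1 : ℝ) else 0) =
          if (∏ p ∈ T, p) ∣ d then c.χ d * ∏ p ∈ T, (-1 : ℝ) else 0 := by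
        intro d
        split_ifs with hd
        · congr 1
          exact prod_congr rfl fun p hp => if_pos ((dvd_prod_of_mem _ hp).trans hd)
        · have : ∃ p ∈ T, ¬ p ∣ d := by
            by_contra hc
            push Not at hc
            exact hd (prod_primes_dvd d (fun p hp => (hT' p hp).prime) hc)
          obtain ⟨p, hp, hpd⟩ := this
          rw [prod_eq_zero hp (if_neg hpd), mul_zero]
      simp_rw [e1]
      rw [sum_Icc_dvd hq0]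
      simp_rw [c.mul]
      rw [← sum_mul, ← mul_sum, abs_mul, abs_mul, prod_const, abs_pow, abs_neg, abs_one, one_pow,
        mul_one, ← Ico_add_one_right_eq_Icc]
      exact (mul_le_of_le_one_left (abs_nonneg _) (c.abs_le _)).trans (c.abs_sum_le _ _)
    · rw [card_powerset, nsmul_eq_mul]
      gcongr
      exact two_pow_card_primeFactors_le hQ
  have h1 := key (A - 1)
  have h2 := key (B - 1)
  rw [← Ico_add_one_right_eq_Icc] at h1 h2
  rw [show A - 1 + 1 = A by omega] at h1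
  rw [show B - 1 + 1 = B by omega, ← sum_Ico_consecutive _ hA hAB] at h2
  rw [_root_.abs_le] at h1 h2 ⊢
  constructor <;> linarith [h1.1, h1.2, h2.1, h2.2]

/-- Number of solutions of `d e ≡ b` with `e` in an interval. -/
noncomputable def NN (Q b d A B : ℕ) : ℝ := ∑ e ∈ Ico A B, if d * e ≡ b [MOD Q] then 1 else 0

lemma NN_nonneg (Q b d A B : ℕ) : 0 ≤ NN Q b d A B :=
  sum_nonneg fun _ _ => by split_ifs <;> norm_num

lemma NN_le_of_subset {Q b d A B A1 B1 A2 B2 : ℕ} (h : Ico A B ⊆ Ico A1 B1 ∪ Ico A2 B2) :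
    NN Q b d A B ≤ NN Q b d A1 B1 + NN Q b d A2 B2 :=
  sum_le_of_subset_union (fun _ => by split_ifs <;> norm_num) h

lemma NN_approx {Q b d : ℕ} (hQ : 0 < Q) (hd : d.Coprime Q) {A B : ℕ} (h : A ≤ B) :
    |NN Q b d A B - (B - A) / Q| ≤ 1 := by
  have : NeZero Q := ⟨hQ.ne'⟩
  set u := ZMod.unitOfCoprime d hd
  have hu : (u : ZMod Q) = d := ZMod.coe_unitOfCoprime d hd
  refine le_trans (le_of_eq ?_) (count_class hQ ((b : ZMod Q) * ((u⁻¹ : (ZMod Q)ˣ) : ZMod Q)).val h)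
  unfold NN
  congr 2
  refine sum_congr rfl fun e _ => if_congr ?_ rfl rfl
  rw [← ZMod.natCast_eq_natCast_iff, ← ZMod.natCast_eq_natCast_iff, ZMod.natCast_zmod_val, eq_comm,
    eq_comm (a := (e : ZMod Q)), Units.mul_inv_eq_iff_eq_mul, hu]
  push_cast; rw [mul_comm]

lemma NN_eq_zero {Q b d : ℕ} (hb : b.Coprime Q) (hd : ¬ d.Coprime Q) (A B : ℕ) :
    NN Q b d A B = 0 := by
  refine sum_eq_zero fun e _ => if_neg fun h => hd ?_
  have : (d * e).Coprime Q := by rw [Nat.Coprime, h.gcd_eq]; exact hb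
  exact Nat.Coprime.coprime_mul_right this

lemma box2 {Q : ℕ} (hQ : 0 < Q) {Φ : ℕ → ℝ} (hm : ∀ m n, Φ (m * n) = Φ m * Φ n)
    (hp : ∀ n, Φ (n % Q) = Φ n) (h1 : ∀ n, n.Coprime Q → |Φ n| = 1) {K : ℝ} (hK0 : 0 ≤ K)
    (hK : 2 * (Q : ℝ) ^ 3 * (Q.divisors.card : ℝ) ^ 3 ≤ K ^ 4) {b : ℕ} (hb : b.Coprime Q)
    (D T A B : ℕ) {len S : ℝ} (hlen : ((B - A : ℕ) : ℝ) ≤ len)
    (hS : |∑ d ∈ Ico D (D + T), (if d.Coprime Q then Φ d else 0)| ≤ S) :
    |∑ d ∈ Ico D (D + T), Φ d * NN Q b d A B| ≤ len / Q * S +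
      (T / Q + Q.divisors.card * (1 + Real.log Q)) * (Q.divisors.card * (1 + Real.log Q)) * K := by
  have : NeZero Q := ⟨hQ.ne'⟩
  have hlog := Real.log_natCast_nonneg Q
  have hS0 : 0 ≤ S := (abs_nonneg _).trans hS
  have hl0 : 0 ≤ len := (Nat.cast_nonneg _).trans hlen
  rcases le_total A B with h | h
  · have h2 := box hm hp h1 hK0 hK hb (Nat.le_add_right D T) h
    have e : ∑ d ∈ Ico D (D + T), Φ d * NN Q b d A B =
        ∑ d ∈ Ico D (D + T), ∑ e ∈ Ico A B, (if d * e ≡ b [MOD Q] then Φ d else 0) := by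
      refine sum_congr rfl fun d _ => ?_
      rw [NN, mul_sum]; exact sum_congr rfl fun e _ => by split_ifs <;> simp
    rw [Nat.cast_sub h] at hlen
    have h3 : |((B : ℝ) - A) / Q * ∑ d ∈ Ico D (D + T), (if d.Coprime Q then Φ d else 0)| ≤
        len / Q * S := by
      have : (0 : ℝ) ≤ B - A := by rw [← Nat.cast_sub h]; positivity
      rw [abs_mul, abs_of_nonneg (by positivity)]
      gcongr
    rw [e]
    push_cast at h2
    rw [add_sub_cancel_left] at h2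
    linarith [abs_sub_abs_le_abs_sub (∑ d ∈ Ico D (D + T), ∑ e ∈ Ico A B,
      (if d * e ≡ b [MOD Q] then Φ d else 0))
      (((B : ℝ) - A) / Q * ∑ d ∈ Ico D (D + T), (if d.Coprime Q then Φ d else 0))]
  · simp only [NN, Ico_eq_empty_of_le h, sum_empty, mul_zero, sum_const_zero, abs_zero]
    positivity

lemma ceil_div_sub_le {X : ℝ} (hX : 0 ≤ X) {D T : ℕ} (hD : 0 < D) :
    ((⌈X / D⌉₊ - ⌈X / (D + T : ℕ)⌉₊ : ℕ) : ℝ) ≤ X * T / D ^ 2 + 1 := by
  have hD' : (0 : ℝ) < D := by exact_mod_cast hD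
  have h1 : ⌈X / (D + T : ℕ)⌉₊ ≤ ⌈X / D⌉₊ := Nat.ceil_mono (by push_cast; gcongr; linarith)
  rw [Nat.cast_sub h1]
  have h2 := Nat.ceil_lt_add_one (show 0 ≤ X / D by positivity)
  have h3 := Nat.le_ceil (X / (D + T : ℕ))
  have h4 : X / D - X / (D + T : ℕ) ≤ X * T / D ^ 2 := by
    push_cast
    rw [show X / D - X / (D + T) = X * T / (D * (D + T)) by field_simp; ring, sq]
    gcongr; linarith
  linarith

lemma exists_log_pow_le (e : ℕ) : ∃ C : ℝ, 1 ≤ C ∧ ∀ (Q v : ℝ), 1 ≤ Q → 1 ≤ v → Q ≤ v ^ e →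
    (1 + Real.log Q) ^ 4 ≤ C * v := by
  refine ⟨(e + 1) ^ 4 * (24 * 3), one_le_mul_of_one_le_of_one_le (one_le_pow₀ (by simp)) (by norm_num),
    fun Q v hQ hv h => ?_⟩
  have h1 : Real.log Q ≤ e * Real.log v := by
    rw [← Real.log_pow]; exact Real.log_le_log (by linarith) h
  have h2 := Real.log_nonneg hv
  have h3 := Real.log_nonneg hQ
  have h4 := Real.pow_div_factorial_le_exp (1 + Real.log v) (by linarith) 4
  rw [Real.exp_add, Real.exp_log (by linarith), div_le_iff₀ (by positivity)] at h4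
  have h5 := Real.exp_one_lt_three
  calc _ ≤ ((e + 1) * (1 + Real.log v)) ^ 4 := by gcongr; nlinarith
    _ = (e + 1) ^ 4 * (1 + Real.log v) ^ 4 := mul_pow _ _ _
    _ ≤ (e + 1) ^ 4 * (24 * 3 * v) := by
        gcongr
        simp only [Nat.factorial] at h4
        push_cast at h4
        nlinarith
    _ = _ := by ring

theorem single : ∃ C : ℝ, 1 ≤ C ∧ ∀ (c : RC) (g Q b : ℕ) (X1 X2 : ℝ), c.r ≤ g → c.r ∣ Q → 0 < Q →
    Q ≤ g ^ 65 → b.Coprime Q → c.χ b = 1 → 0 ≤ X1 → X1 ≤ X2 → X2 ≤ (g : ℝ) ^ 128 →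
    |∑ m ∈ Ico ⌈X1⌉₊ ⌈X2⌉₊, (if m ≡ b [MOD Q] then c.gam m else 0) -
      (X2 - X1) / Q * (2 * c.LL * ∏ p ∈ Q.primeFactors, (1 - c.χ p / p))| ≤
      C * (g ^ 124 / Q + g ^ 62) := by
  obtain ⟨C1, hC1, h1⟩ := exists_tau_le 4 65
  obtain ⟨C2, hC2, h2⟩ := exists_log_pow_le 65
  refine ⟨100 * (C1 * C2) ^ 2, by nlinarith [one_le_mul_of_one_le_of_one_le hC1 hC2], ?_⟩
  intro c g Q b X1 X2 hrg hrQ hQ hQg hb hχb hX1 hX12 hX2
  set C := C1 * C2 with hC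
  have hC' : 1 ≤ C := one_le_mul_of_one_le_of_one_le hC1 hC2
  have hg1 : 1 ≤ g := le_trans c.r_pos hrg
  have hG : (1 : ℝ) ≤ g := by exact_mod_cast hg1
  have hG0 : (0 : ℝ) < g := by linarith
  have hQ' : (1 : ℝ) ≤ Q := by exact_mod_cast hQ
  have hQ0 : (0 : ℝ) < Q := by linarith
  have hQg' : (Q : ℝ) ≤ (g : ℝ) ^ 65 := by exact_mod_cast hQg
  have hr : (c.r : ℝ) ≤ g := by exact_mod_cast hrg
  have hX20 : 0 ≤ X2 := hX1.trans hX12
  set τ : ℝ := (Q.divisors.card : ℝ) with hτ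
  have hτ1 : 1 ≤ τ := by
    rw [hτ]; exact_mod_cast card_pos.2 ⟨1, Nat.one_mem_divisors.2 hQ.ne'⟩
  have hτ4 : τ ^ 4 ≤ C1 * g := h1 Q g hQ.ne' hG hQg'
  have hτC : τ ^ 4 ≤ C * g := hτ4.trans (by rw [hC]; gcongr; nlinarith)
  have hτg : τ ≤ C * g := (le_self_pow₀ hτ1 (by norm_num)).trans hτC
  set W : ℝ := τ * (1 + Real.log Q) with hW
  have hlog := Real.log_nonneg hQ'
  have hW1 : 1 ≤ W := one_le_mul_of_one_le_of_one_le hτ1 (by linarith)
  have hW2 : W ^ 2 ≤ C * g := by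
    refine le_of_pow_le_pow_left₀ (n := 2) (by norm_num) (by positivity) ?_
    calc (W ^ 2) ^ 2 = τ ^ 4 * (1 + Real.log Q) ^ 4 := by rw [hW]; ring
      _ ≤ (C1 * g) * (C2 * g) := mul_le_mul hτ4 (h2 Q g hQ' hG hQg') (by positivity) (by positivity)
      _ = C * g ^ 2 := by rw [hC]; ring
      _ ≤ _ := by rw [mul_pow]; gcongr; nlinarith
  have hWg : W ≤ C * g := (le_self_pow₀ hW1 (by norm_num)).trans hW2
  set K : ℝ := 2 * C * g ^ 49 with hK
  have hK4 : 2 * (Q : ℝ) ^ 3 * τ ^ 3 ≤ K ^ 4 := by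
    have h3 : τ ^ 3 ≤ C * g := (pow_le_pow_right₀ hτ1 (by norm_num)).trans hτC
    calc _ ≤ 2 * ((g : ℝ) ^ 65) ^ 3 * (C * g) := by gcongr
      _ = (2 * C) * g ^ 196 := by ring
      _ ≤ (2 * C) ^ 4 * g ^ 196 := by gcongr; exact le_self_pow₀ (by linarith) (by norm_num)
      _ = _ := by rw [hK]; ring
  have hχp : ∀ n, c.χ (n % Q) = c.χ n := fun n => c.of_modEq ((Nat.mod_modEq n Q).of_dvd hrQ)
  have hχ1 : ∀ n, n.Coprime Q → |c.χ n| = 1 := fun n hn => by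
    have := c.ne n (hn.coprime_dvd_right hrQ)
    rcases c.val n with h | h | h <;> simp_all
  obtain ⟨D1, hD1⟩ : ∃ D1, D1 = g ^ 60 := ⟨_, rfl⟩
  obtain ⟨T, hT⟩ : ∃ T, T = g ^ 52 := ⟨_, rfl⟩
  have hD1r : (D1 : ℝ) = g ^ 60 := by rw [hD1]; push_cast; rfl
  have hTr : (T : ℝ) = g ^ 52 := by rw [hT]; push_cast; rfl
  have hD11 : 1 ≤ D1 := by rw [hD1]; exact Nat.one_le_pow _ _ hg1
  -- rewriting as a double sum
  have hS : ∑ m ∈ Ico ⌈X1⌉₊ ⌈X2⌉₊, (if m ≡ b [MOD Q] then c.gam m else 0) =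
      ∑ θ ∈ range 2, ∑ d ∈ Ico 1 (D1 + 1 + g ^ 12 * T),
        c.χ d * NN Q b d (max ⌈X1 / d⌉₊ (d + θ)) ⌈X2 / d⌉₊ := by
    have e1 : ∀ m ∈ Ico ⌈X1⌉₊ ⌈X2⌉₊, (if m ≡ b [MOD Q] then c.gam m else 0) =
        ∑ θ ∈ range 2, ∑ d ∈ Ico 1 (D1 + 1 + g ^ 12 * T),
          if m ≡ b [MOD Q] ∧ d ∣ m ∧ d * (d + θ) ≤ m then c.χ d else 0 := by
      intro m hm
      by_cases h : m ≡ b [MOD Q]
      · rw [if_pos h, c.gam_hyp (D := D1 + g ^ 12 * T) ((c.of_modEq (h.of_dvd hrQ)).trans hχb)]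
        · simp only [h, true_and]
          rw [show D1 + 1 + g ^ 12 * T = D1 + g ^ 12 * T + 1 by ring, Ico_add_one_right_eq_Icc]
        · have h3 : (m : ℝ) < X2 := Nat.lt_ceil.1 (mem_Ico.1 hm).2
          have h4 : m ≤ g ^ 128 := by exact_mod_cast h3.le.trans hX2
          refine h4.trans (le_trans (le_of_eq ?_) (Nat.pow_le_pow_left (Nat.le_add_left _ D1) 2))
          rw [hT]; ring
      · simp [h]
    rw [sum_congr rfl e1, sum_comm]
    refine sum_congr rfl fun θ _ => ?_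
    rw [sum_comm]
    refine sum_congr rfl fun d hd => ?_
    have hd0 : 0 < d := (mem_Ico.1 hd).1
    have hd0' : (0 : ℝ) < d := by exact_mod_cast hd0
    rw [NN, ← sum_filter, sum_const, sum_boole, nsmul_eq_mul, mul_comm]
    congr 2
    symm
    refine card_nbij (fun e => d * e) ?_ (fun e _ e' _ h => Nat.eq_of_mul_eq_mul_left hd0 h) ?_
    · intro e he
      simp only [coe_filter, mem_Ico, max_le_iff, Nat.ceil_le, Nat.lt_ceil, Set.mem_ofPred_eq,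
        div_le_iff₀ hd0', lt_div_iff₀ hd0'] at he ⊢
      push_cast
      exact ⟨⟨by linarith [he.1.1.1], by linarith [he.1.2]⟩, he.2, dvd_mul_right _ _,
        Nat.mul_le_mul_left _ he.1.1.2⟩
    · intro m hm
      simp only [coe_filter, mem_Ico, Nat.ceil_le, Nat.lt_ceil, Set.mem_ofPred_eq] at hm
      obtain ⟨⟨h3, h4⟩, h5, ⟨e, rfl⟩, h6⟩ := hm
      refine ⟨e, ?_, rfl⟩
      simp only [coe_filter, mem_Ico, max_le_iff, Nat.ceil_le, Nat.lt_ceil, Set.mem_ofPred_eq,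
        div_le_iff₀ hd0', lt_div_iff₀ hd0']
      push_cast at h3 h4
      exact ⟨⟨⟨by linarith, le_of_mul_le_mul_left h6 hd0⟩, by linarith⟩, h5⟩
  have hgp : ∀ {i j : ℕ}, i ≤ j → (g : ℝ) ^ i ≤ g ^ j := fun h => pow_le_pow_right₀ hG h
  have key : ∀ θ ≤ 1, |∑ d ∈ Ico 1 (D1 + 1 + g ^ 12 * T),
      c.χ d * NN Q b d (max ⌈X1 / d⌉₊ (d + θ)) ⌈X2 / d⌉₊ -
      (X2 - X1) / Q * (c.LL * ∏ p ∈ Q.primeFactors, (1 - c.χ p / p))| ≤
      50 * C ^ 2 * (g ^ 124 / Q + g ^ 62) := by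
    intro θ hθ
    rw [← sum_Ico_consecutive _ (show 1 ≤ D1 + 1 by omega) (Nat.le_add_right _ _), sum_Ico_strips,
      Ico_add_one_right_eq_Icc]
    -- small `d`
    have p1 : |∑ d ∈ Icc 1 D1, c.χ d * NN Q b d (max ⌈X1 / d⌉₊ (d + θ)) ⌈X2 / d⌉₊ -
        (X2 - X1) / Q * ∑ d ∈ Icc 1 D1, (if d.Coprime Q then c.χ d / d else 0)| ≤
        D1 * (2 + 3 * D1 / Q) := by
      rw [mul_sum, ← sum_sub_distrib]
      refine (abs_sum_le_sum_abs _ _).trans ((sum_le_card_nsmul _ _ (2 + 3 * D1 / Q : ℝ) fun d hd => ?_).trans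
        (by rw [Nat.card_Icc, nsmul_eq_mul]; simp))
      have hd' := mem_Icc.1 hd
      have hd0' : (0 : ℝ) < d := by exact_mod_cast hd'.1
      have hdD : (d : ℝ) ≤ D1 := by exact_mod_cast hd'.2
      have hD1' : (1 : ℝ) ≤ D1 := by exact_mod_cast hD11
      by_cases hc : d.Coprime Q
      · rw [if_pos hc, show (X2 - X1) / Q * (c.χ d / d) = c.χ d * ((X2 / d - X1 / d) / Q) by ring,
          ← mul_sub, abs_mul]
        refine (mul_le_of_le_one_left (abs_nonneg _) (c.abs_le d)).trans ?_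
        have hAB : ⌈X1 / d⌉₊ ≤ ⌈X2 / d⌉₊ := Nat.ceil_mono (by gcongr)
        have a1 := abs_le.1 (NN_approx (b := b) hQ hc hAB)
        have a2 := abs_le.1 (NN_approx (b := b) hQ hc (Nat.zero_le (d + θ)))
        have a3 : NN Q b d (max ⌈X1 / d⌉₊ (d + θ)) ⌈X2 / d⌉₊ ≤ NN Q b d ⌈X1 / d⌉₊ ⌈X2 / d⌉₊ :=
          sum_le_sum_of_subset_of_nonneg (Ico_subset_Ico_left (le_max_left _ _))
            fun _ _ _ => by split_ifs <;> norm_num
        have a4 : NN Q b d ⌈X1 / d⌉₊ ⌈X2 / d⌉₊ ≤ NN Q b d (max ⌈X1 / d⌉₊ (d + θ)) ⌈X2 / d⌉₊ +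
            NN Q b d 0 (d + θ) := NN_le_of_subset fun e he => by
          simp only [mem_union, mem_Ico, max_le_iff] at he ⊢; omega
        have a5 := Nat.le_ceil (X1 / d)
        have a6 := Nat.le_ceil (X2 / d)
        have a7 := Nat.ceil_lt_add_one (show 0 ≤ X1 / d by positivity)
        have a8 := Nat.ceil_lt_add_one (show 0 ≤ X2 / d by positivity)
        have hθ' : (θ : ℝ) ≤ 1 := by exact_mod_cast hθ
        have b1 : ((⌈X2 / d⌉₊ : ℝ) - ⌈X1 / d⌉₊) / Q ≤ (X2 / d - X1 / d) / Q + D1 / Q := by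
          rw [← add_div]; gcongr; linarith
        have b2 : (X2 / d - X1 / d) / Q ≤ ((⌈X2 / d⌉₊ : ℝ) - ⌈X1 / d⌉₊) / Q + D1 / Q := by
          rw [← add_div]; gcongr; linarith
        have b3 : (((d + θ : ℕ) : ℝ) - (0 : ℕ)) / Q ≤ 2 * (D1 / Q) := by
          rw [← mul_div_assoc]; gcongr; push_cast; linarith
        have b4 : (0 : ℝ) ≤ D1 / Q := by positivity
        rw [abs_le, mul_div_assoc]; constructor <;> linarith [a1.1, a1.2, a2.1, a2.2]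
      · rw [if_neg hc, NN_eq_zero hb hc]; simp; positivity
    have p2 : |∑ d ∈ Icc 1 D1, (if d.Coprime Q then c.χ d / d else 0) -
        c.LL * ∏ p ∈ Q.primeFactors, (1 - c.χ p / p)| ≤ g / g ^ 30 * τ := by
      have := c.lemM (P := Q.primeFactors) (fun p hp => Nat.prime_of_mem_primeFactors hp)
        (fun _ => -1) hD11
      simp_rw [ind_coprime hQ.ne']
      refine le_trans (le_of_eq ?_) (this.trans ?_)
      · congr 3; exact prod_congr rfl fun p _ => by ring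
      · rw [hD1r, show (g : ℝ) ^ 60 = (g ^ 30) ^ 2 by ring, Real.sqrt_sq (by positivity)]
        refine mul_le_mul (by gcongr) (prod_le_tau hQ.ne' fun p hp => ⟨by positivity, ?_⟩)
          (prod_nonneg fun _ _ => by positivity) (by positivity)
        have : (1 : ℝ) ≤ √p := Real.one_le_sqrt.2
          (by exact_mod_cast (Nat.prime_of_mem_primeFactors hp).one_le)
        have : |(-1 : ℝ)| / √p ≤ 1 := by rw [abs_neg, abs_one, div_le_one (by linarith)]; exact this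
        linarith
    -- the strips
    have p3 : ∀ j ∈ range (g ^ 12), |∑ d ∈ Ico (D1 + 1 + j * T) (D1 + 1 + j * T + T),
        c.χ d * NN Q b d (max ⌈X1 / d⌉₊ (d + θ)) ⌈X2 / d⌉₊| ≤
        16 * C ^ 2 * (g ^ 112 / Q + g ^ 50) := by
      intro j _
      set D := D1 + 1 + j * T with hD
      have hD0 : 0 < D := by omega
      have hDr : (g : ℝ) ^ 60 ≤ D := by rw [← hD1r]; exact_mod_cast (by omega : D1 ≤ D)
      have hD0' : (0 : ℝ) < D := by exact_mod_cast hD0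
      have harea : ∀ X : ℝ, 0 ≤ X → X ≤ g ^ 128 → X * T / D ^ 2 + 1 ≤ 2 * g ^ 60 := by
        intro X h0 hX
        have : X * T / D ^ 2 ≤ g ^ 128 * g ^ 52 / (g ^ 60) ^ 2 := by rw [hTr]; gcongr
        have e : (g : ℝ) ^ 128 * g ^ 52 / (g ^ 60) ^ 2 = g ^ 60 := by field_simp
        have := hgp (Nat.zero_le 60)
        rw [pow_zero] at this; linarith
      have hcard : |∑ d ∈ Ico D (D + T), (if d.Coprime Q then (1 : ℝ) else 0)| ≤ T := by
        refine (abs_sum_le_sum_abs _ _).trans ((sum_le_card_nsmul _ _ 1 fun d _ => ?_).trans (by simp))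
        split_ifs <;> simp
      have B0 := box2 hQ c.mul hχp hχ1 (by positivity) hK4 hb D T (max ⌈X1 / D⌉₊ (D + T)) ⌈X2 / D⌉₊
        (len := 2 * g ^ 68) (by
          have h3 : ((⌈X2 / D⌉₊ - max ⌈X1 / D⌉₊ (D + T) : ℕ) : ℝ) ≤ ⌈X2 / D⌉₊ := by
            exact_mod_cast Nat.sub_le _ _
          have h4 := Nat.ceil_lt_add_one (show 0 ≤ X2 / D by positivity)
          have h5 : X2 / D ≤ g ^ 128 / g ^ 60 := by gcongr
          have e : (g : ℝ) ^ 128 / g ^ 60 = g ^ 68 := by field_simp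
          have := hgp (Nat.zero_le 68)
          rw [pow_zero] at this; linarith)
        (c.abs_sum_coprime_le hQ.ne' hD0 (Nat.le_add_right _ _))
      have B1 := box2 hQ (Φ := fun _ => 1) (by simp) (by simp) (by simp) (by positivity) hK4 hb D T
        (max ⌈X1 / (D + T : ℕ)⌉₊ D) (max ⌈X1 / D⌉₊ (D + T)) (len := 3 * g ^ 60) (by
          have h3 : max ⌈X1 / D⌉₊ (D + T) - max ⌈X1 / (D + T : ℕ)⌉₊ D ≤
              (⌈X1 / D⌉₊ - ⌈X1 / (D + T : ℕ)⌉₊) + T := by omega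
          have h4 : ((max ⌈X1 / D⌉₊ (D + T) - max ⌈X1 / (D + T : ℕ)⌉₊ D : ℕ) : ℝ) ≤
              ((⌈X1 / D⌉₊ - ⌈X1 / (D + T : ℕ)⌉₊ : ℕ) : ℝ) + T := by exact_mod_cast h3
          have h5 := ceil_div_sub_le hX1 (T := T) hD0
          have h6 := harea X1 hX1 (hX12.trans hX2)
          have h7 := hgp (show 52 ≤ 60 by norm_num)
          linarith) hcard
      have B2 := box2 hQ (Φ := fun _ => 1) (by simp) (by simp) (by simp) (by positivity) hK4 hb D T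
        ⌈X2 / (D + T : ℕ)⌉₊ ⌈X2 / D⌉₊ (len := 2 * g ^ 60)
        ((ceil_div_sub_le hX20 hD0).trans (harea X2 hX20 hX2)) hcard
      simp only [one_mul] at B1 B2
      have hdiff : |∑ d ∈ Ico D (D + T), c.χ d * NN Q b d (max ⌈X1 / d⌉₊ (d + θ)) ⌈X2 / d⌉₊ -
          ∑ d ∈ Ico D (D + T), c.χ d * NN Q b d (max ⌈X1 / D⌉₊ (D + T)) ⌈X2 / D⌉₊| ≤
          ∑ d ∈ Ico D (D + T), NN Q b d (max ⌈X1 / (D + T : ℕ)⌉₊ D) (max ⌈X1 / D⌉₊ (D + T)) +
          ∑ d ∈ Ico D (D + T), NN Q b d ⌈X2 / (D + T : ℕ)⌉₊ ⌈X2 / D⌉₊ := by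
        rw [← sum_sub_distrib, ← sum_add_distrib]
        refine (abs_sum_le_sum_abs _ _).trans (sum_le_sum fun d hd => ?_)
        rw [← mul_sub, abs_mul]
        refine (mul_le_of_le_one_left (abs_nonneg _) (c.abs_le d)).trans ?_
        have hd' := mem_Ico.1 hd
        have hd1 : (D : ℝ) ≤ d := by exact_mod_cast hd'.1
        have hd2 : (d : ℝ) ≤ (D + T : ℕ) := by exact_mod_cast hd'.2.le
        have hd0' : (0 : ℝ) < d := by linarith
        have m1 : ⌈X1 / (D + T : ℕ)⌉₊ ≤ ⌈X1 / d⌉₊ := Nat.ceil_mono (by gcongr)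
        have m2 : ⌈X2 / (D + T : ℕ)⌉₊ ≤ ⌈X2 / d⌉₊ := Nat.ceil_mono (by gcongr)
        have m3 : ⌈X1 / d⌉₊ ≤ ⌈X1 / D⌉₊ := Nat.ceil_mono (by gcongr)
        have m4 : ⌈X2 / d⌉₊ ≤ ⌈X2 / D⌉₊ := Nat.ceil_mono (by gcongr)
        have n1 : NN Q b d (max ⌈X1 / d⌉₊ (d + θ)) ⌈X2 / d⌉₊ ≤
            NN Q b d (max ⌈X1 / D⌉₊ (D + T)) ⌈X2 / D⌉₊ +
            NN Q b d (max ⌈X1 / (D + T : ℕ)⌉₊ D) (max ⌈X1 / D⌉₊ (D + T)) :=
          NN_le_of_subset fun e he => by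
            simp only [mem_union, mem_Ico] at he ⊢; omega
        have n2 : NN Q b d (max ⌈X1 / D⌉₊ (D + T)) ⌈X2 / D⌉₊ ≤
            NN Q b d (max ⌈X1 / d⌉₊ (d + θ)) ⌈X2 / d⌉₊ + NN Q b d ⌈X2 / (D + T : ℕ)⌉₊ ⌈X2 / D⌉₊ :=
          NN_le_of_subset fun e he => by
            simp only [mem_union, mem_Ico] at he ⊢; omega
        have n3 := NN_nonneg Q b d (max ⌈X1 / (D + T : ℕ)⌉₊ D) (max ⌈X1 / D⌉₊ (D + T))
        have n4 := NN_nonneg Q b d ⌈X2 / (D + T : ℕ)⌉₊ ⌈X2 / D⌉₊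
        rw [abs_le]; constructor <;> linarith
      rw [← hτ, ← hW, hTr] at B0 B1 B2
      have e1 : (g ^ 52 / Q + W) * W * K ≤ 2 * C ^ 2 * (g ^ 112 / Q + g ^ 50) := by
        calc _ = (g ^ 52 / Q * W + W ^ 2) * K := by ring
          _ ≤ (g ^ 52 / Q * (C * g) + C * g) * K := by gcongr
          _ = 2 * C ^ 2 * (g ^ 102 / Q + g ^ 50) := by rw [hK]; ring
          _ ≤ _ := by gcongr; norm_num
      have e2 : 2 * g ^ 68 / Q * (2 * (τ * c.r)) ≤ 4 * C ^ 2 * ((g : ℝ) ^ 112 / Q) := by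
        calc _ ≤ 2 * g ^ 68 / Q * (2 * (C * g * g)) := by gcongr
          _ = 4 * C * (g ^ 70 / Q) := by ring
          _ ≤ _ := by gcongr; exacts [le_self_pow₀ hC' (by norm_num), by norm_num]
      have e3 : (3 * g ^ 60 / Q * g ^ 52 + 2 * g ^ 60 / Q * g ^ 52 : ℝ) ≤
          5 * C ^ 2 * ((g : ℝ) ^ 112 / Q) := by
        calc _ = 5 * 1 * ((g : ℝ) ^ 112 / Q) := by ring
          _ ≤ _ := by gcongr; exact one_le_pow₀ hC'
      have e4 : 0 ≤ C ^ 2 * (g : ℝ) ^ 50 := by positivity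
      have e5 : 0 ≤ C ^ 2 * ((g : ℝ) ^ 112 / Q) := by positivity
      have := abs_sub_abs_le_abs_sub
        (∑ d ∈ Ico D (D + T), c.χ d * NN Q b d (max ⌈X1 / d⌉₊ (d + θ)) ⌈X2 / d⌉₊)
        (∑ d ∈ Ico D (D + T), c.χ d * NN Q b d (max ⌈X1 / D⌉₊ (D + T)) ⌈X2 / D⌉₊)
      linarith [le_abs_self (∑ d ∈ Ico D (D + T),
        NN Q b d (max ⌈X1 / (D + T : ℕ)⌉₊ D) (max ⌈X1 / D⌉₊ (D + T))),
        le_abs_self (∑ d ∈ Ico D (D + T), NN Q b d ⌈X2 / (D + T : ℕ)⌉₊ ⌈X2 / D⌉₊)]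
    have p4 := (abs_sum_le_sum_abs _ _).trans (sum_le_card_nsmul _ _ _ p3)
    rw [card_range, nsmul_eq_mul] at p4
    have p5 : |(X2 - X1) / Q * ∑ d ∈ Icc 1 D1, (if d.Coprime Q then c.χ d / d else 0) -
        (X2 - X1) / Q * (c.LL * ∏ p ∈ Q.primeFactors, (1 - c.χ p / p))| ≤
        C ^ 2 * ((g : ℝ) ^ 124 / Q) := by
      rw [← mul_sub, abs_mul, abs_of_nonneg (div_nonneg (by linarith) hQ0.le)]
      calc _ ≤ g ^ 128 / Q * (g / g ^ 30 * (C * g)) := by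
            gcongr
            · linarith
            · exact p2.trans (by gcongr)
        _ = C * (g ^ 100 / Q) := by field_simp
        _ ≤ _ := by gcongr; exacts [le_self_pow₀ hC' (by norm_num), by norm_num]
    have p6 : (D1 : ℝ) * (2 + 3 * D1 / Q) ≤ 3 * C ^ 2 * (g ^ 124 / Q + g ^ 62) := by
      rw [hD1r]
      calc _ = 1 * (3 * (g ^ 120 / Q) + 2 * (g : ℝ) ^ 60) := by ring
        _ ≤ C ^ 2 * (3 * (g ^ 124 / Q) + 3 * (g : ℝ) ^ 62) := by
            gcongr; exacts [one_le_pow₀ hC', by norm_num, by norm_num, by norm_num]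
        _ = _ := by ring
    have p7 : ((g ^ 12 : ℕ) : ℝ) * (16 * C ^ 2 * (g ^ 112 / Q + g ^ 50)) =
        16 * C ^ 2 * (g ^ 124 / Q + g ^ 62) := by push_cast; ring
    have e4 : 0 ≤ C ^ 2 * (g : ℝ) ^ 62 := by positivity
    have e5 : 0 ≤ C ^ 2 * ((g : ℝ) ^ 124 / Q) := by positivity
    rw [abs_le] at p1 p4 p5 ⊢
    constructor <;> linarith [p1.1, p1.2, p4.1, p4.2, p5.1, p5.2]
  rw [hS, sum_range_succ, sum_range_one]
  have k0 := abs_le.1 (key 0 (by norm_num))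
  have k1 := abs_le.1 (key 1 le_rfl)
  rw [abs_le]; constructor <;> linarith [k0.1, k0.2, k1.1, k1.2]

end Pool.Agent.P.MP_746f10_nt
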