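import Mathlib
import Pool.Agent.P.MP_746f10_nt.Single
import Pool.Agent.P.MP_746f10_nt.Loc

/-! Equidistribution of one and two divisor sums along linear forms. -/

set_option linter.unusedSectionVars false

namespace Pool.Agent.P.MP_746f10_nt

open Finset

theorem single' : ∃ C : ℝ, 1 ≤ C ∧ ∀ (c : RC) (G Q b : ℕ) (X X1 X2 : ℝ), c.r ∣ Q → 0 < Q →
    Q ≤ G → b.Coprime Q → c.χ b = 1 → 0 ≤ X1 → X1 ≤ X2 → X2 ≤ X → (G : ℝ) ^ 128 ≤ X →
    |∑ m ∈ Ico ⌈X1⌉₊ ⌈X2⌉₊, (if m ≡ b [MOD Q] then c.gam m else 0) -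
      (X2 - X1) / Q * (2 * c.LL * ∏ p ∈ Q.primeFactors, (1 - c.χ p / p))| ≤
      C * X / G ^ 4 := by
  obtain ⟨C, hC, h⟩ := single
  refine ⟨C * 2 * 2 ^ 128, by nlinarith [show (1 : ℝ) ≤ 2 ^ 128 by norm_num], ?_⟩
  intro c G Q b X X1 X2 hr hQ hQG hb hχ h1 h2 h3 h4
  have hG1 : 1 ≤ G := le_trans hQ hQG
  have hG : (1 : ℝ) ≤ G := by exact_mod_cast hG1
  have hX1 : 1 ≤ X := (one_le_pow₀ hG).trans h4
  have hex : ∃ g : ℕ, X ≤ (g : ℝ) ^ 128 := by
    refine ⟨⌈X⌉₊, (Nat.le_ceil X).trans (le_self_pow₀ (hX1.trans (Nat.le_ceil X)) (by norm_num))⟩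
  set g := Nat.find hex with hg
  have hg1 : X ≤ (g : ℝ) ^ 128 := Nat.find_spec hex
  have hGg : G ≤ g := by
    have := le_of_pow_le_pow_left₀ (by norm_num) (Nat.cast_nonneg g) (h4.trans hg1)
    exact_mod_cast this
  have hGg' : (G : ℝ) ≤ g := by exact_mod_cast hGg
  have hg2 : (g : ℝ) ^ 128 ≤ 2 ^ 128 * X := by
    rcases (show g = 1 ∨ 2 ≤ g by omega) with h5 | h5
    · rw [h5]; simp only [Nat.cast_one, one_pow]; nlinarith [show (1 : ℝ) ≤ 2 ^ 128 by norm_num]
    · have h6 := Nat.find_min hex (show g - 1 < g by omega)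
      rw [not_le, Nat.cast_sub (by omega), Nat.cast_one] at h6
      have h7 : (2 : ℝ) ≤ g := by exact_mod_cast h5
      calc _ ≤ (2 * ((g : ℝ) - 1)) ^ 128 := by gcongr; linarith
        _ = 2 ^ 128 * ((g : ℝ) - 1) ^ 128 := mul_pow _ _ _
        _ ≤ _ := by gcongr
  have hg0 : (1 : ℝ) ≤ g := hG.trans hGg'
  refine (h c g Q b X1 X2 ((Nat.le_of_dvd hQ hr).trans (hQG.trans hGg)) hr hQ
    ((hQG.trans hGg).trans (Nat.le_self_pow (by norm_num) g)) hb hχ h1 h2 (h3.trans hg1)).trans ?_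
  have hQ' : (1 : ℝ) ≤ Q := by exact_mod_cast hQ
  calc _ ≤ C * (g ^ 124 + g ^ 124) := by
        gcongr
        · exact div_le_self (by positivity) hQ'
        · norm_num
    _ = C * 2 * (g ^ 128 / g ^ 4) := by field_simp; ring
    _ ≤ C * 2 * (2 ^ 128 * X / G ^ 4) := by gcongr
    _ = _ := by ring

lemma form_to_class (c : RC) {a b p0 q c0 : ℕ} (ha : 0 < a) (hq : 0 < q) (hp0 : 0 < p0)
    (hab : a.Coprime b) (hcq : (a * c0 + b).Coprime q) (hp : p0.Coprime (a * q)) (hr : c.r ∣ a)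
    (hχb : c.χ b = 1) (hχp : c.χ p0 = 1) : ∃ m0, m0.Coprime (a * q) ∧ c.χ m0 = 1 ∧
    ∀ (N1 N2 : ℕ) (F : ℕ → ℝ), ∑ n ∈ Ico N1 N2,
      (if p0 ∣ a * n + b then F ((a * n + b) / p0) else 0) * (if n ≡ c0 [MOD q] then 1 else 0) =
      ∑ m ∈ Ico ⌈((a * N1 + b : ℕ) : ℝ) / p0⌉₊ ⌈((a * N2 + b : ℕ) : ℝ) / p0⌉₊,
        if m ≡ m0 [MOD a * q] then F m else 0 := by
  obtain ⟨m0, -, hm0⟩ := Nat.exists_mul_mod_eq_of_coprime (a * c0 + b) hp (Nat.mul_pos ha hq).ne'
  have hm : p0 * m0 ≡ a * c0 + b [MOD a * q] := hm0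
  have hco : (a * c0 + b).Coprime (a * q) :=
    Nat.Coprime.mul_right (by simpa using hab.symm) hcq
  have hp0' : (0 : ℝ) < p0 := by exact_mod_cast hp0
  refine ⟨m0, ?_, ?_, fun N1 N2 F => ?_⟩
  · have : (p0 * m0).Coprime (a * q) := by rw [Nat.Coprime, hm.gcd_eq]; exact hco
    exact Nat.Coprime.coprime_mul_left this
  · have h1 := c.of_modEq (hm.of_dvd (hr.trans (dvd_mul_right a q)))
    have h2 : c.χ (a * c0 + b) = c.χ b := c.of_modEq (by
      have := (Nat.modEq_zero_iff_dvd.2 (hr.trans (dvd_mul_right a c0))).add_right b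
      simpa using this)
    rw [c.mul, hχp, one_mul, h2, hχb] at h1
    exact h1
  have e : ∀ n, (if p0 ∣ a * n + b then F ((a * n + b) / p0) else 0) *
      (if n ≡ c0 [MOD q] then (1 : ℝ) else 0) =
      if p0 ∣ a * n + b ∧ n ≡ c0 [MOD q] then F ((a * n + b) / p0) else 0 := fun n => by
    by_cases h1 : p0 ∣ a * n + b <;> by_cases h2 : n ≡ c0 [MOD q] <;> simp [h1, h2]
  simp_rw [e]
  rw [← sum_filter, ← sum_filter]
  refine sum_nbij (fun n => (a * n + b) / p0) ?_ ?_ ?_ fun _ _ => rfl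
  · intro n hn
    simp only [mem_filter, mem_Ico] at hn
    obtain ⟨⟨h1, h2⟩, ⟨m, hm1⟩, h3⟩ := hn
    simp only [mem_filter, mem_Ico, Nat.ceil_le, Nat.lt_ceil, div_le_iff₀ hp0', lt_div_iff₀ hp0']
    rw [hm1, Nat.mul_div_cancel_left _ hp0]
    refine ⟨⟨?_, ?_⟩, ?_⟩
    · exact_mod_cast (by nlinarith : a * N1 + b ≤ m * p0)
    · exact_mod_cast (by nlinarith : m * p0 < a * N2 + b)
    · refine Nat.ModEq.cancel_left_of_coprime (c := p0) hp.symm ?_
      rw [← hm1]
      exact ((h3.mul_left' a).add_right b).trans hm.symm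
  · intro n hn n' hn' h
    simp only [coe_filter, Set.mem_ofPred_eq] at hn hn' h
    have h1 := Nat.mul_div_cancel' hn.2.1
    have h2 := Nat.mul_div_cancel' hn'.2.1
    rw [h, h2] at h1
    exact (Nat.eq_of_mul_eq_mul_left ha (by omega)).symm
  · intro m hm1
    simp only [coe_filter, mem_Ico, Nat.ceil_le, Nat.lt_ceil, div_le_iff₀ hp0', lt_div_iff₀ hp0',
      Set.mem_ofPred_eq] at hm1
    obtain ⟨⟨h1, h2⟩, h3⟩ := hm1
    have h1' : a * N1 + b ≤ m * p0 := by exact_mod_cast h1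
    have h2' : m * p0 < a * N2 + b := by exact_mod_cast h2
    have h4 : p0 * m ≡ a * c0 + b [MOD a * q] := (h3.mul_left p0).trans hm
    have h5 : a ∣ p0 * m - b := by
      refine (Nat.modEq_iff_dvd' (by nlinarith)).1 ?_
      have := (Nat.modEq_zero_iff_dvd.2 (dvd_mul_right a c0)).add_right b
      rw [zero_add] at this
      exact (((h4.of_dvd (dvd_mul_right a q))).trans this).symm
    obtain ⟨n, hn⟩ := h5
    have h6 : a * n + b = p0 * m := by
      have : b ≤ p0 * m := by nlinarith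
      omega
    refine ⟨n, ?_, by simp only; rw [h6, Nat.mul_div_cancel_left _ hp0]⟩
    simp only [coe_filter, mem_Ico, Set.mem_ofPred_eq]
    refine ⟨⟨le_of_mul_le_mul_left (by nlinarith) ha, lt_of_mul_lt_mul_left (a := a) (by nlinarith)
      (Nat.zero_le _)⟩, by rw [h6]; exact dvd_mul_right _ _, ?_⟩
    rw [← h6] at h4
    exact Nat.ModEq.mul_left_cancel' ha.ne' (Nat.ModEq.add_right_cancel' b h4)

lemma prod_primeFactors_mul {a : ℕ} (ha : a ≠ 0) {T : Finset ℕ} (hT : ∀ p ∈ T, p.Prime ∧ ¬ p ∣ a)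
    (F : ℕ → ℝ) : ∏ p ∈ (a * ∏ p ∈ T, p).primeFactors, F p =
      (∏ p ∈ a.primeFactors, F p) * ∏ p ∈ T, F p := by
  rw [Nat.primeFactors_mul ha (prod_ne_zero_iff.2 fun p hp => (hT p hp).1.ne_zero),
    Nat.primeFactors_prod fun p hp => (hT p hp).1, prod_union]
  exact disjoint_left.2 fun p h1 h2 => (hT p h2).2 (Nat.dvd_of_mem_primeFactors h1)

variable {ι : Type*} [Fintype ι] [DecidableEq ι] {a b : ι → ℕ}

theorem HC_single : ∃ C : ℝ, 1 ≤ C ∧ ∀ {ι : Type} [Fintype ι] [DecidableEq ι] (a b : ι → ℕ) (i : ι)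
    (c : RC) (P : Finset ℕ) (p0 N1 N2 G Lvl : ℕ) (X : ℝ), 0 < a i → (a i).Coprime (b i) →
    c.r ∣ a i → c.χ (b i) = 1 → 0 < p0 → p0.Coprime (a i) → c.χ p0 = 1 →
    (∀ p ∈ P, p.Prime ∧ ¬ p ∣ a i ∧ p0.Coprime p) → N1 ≤ N2 → a i * Lvl ≤ G → (G : ℝ) ^ 128 ≤ X →
    ((a i * N2 + b i : ℕ) : ℝ) / p0 ≤ X →
    HC a b (Ico N1 N2) (fun n => if p0 ∣ a i * n + b i then c.gam ((a i * n + b i) / p0) else 0)
      P {i} ((N2 - N1) / p0 * (2 * c.LL * ∏ p ∈ (a i).primeFactors, (1 - c.χ p / p)))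
      (fun p => 1 - c.χ p / p) (C * X / G ^ 4) Lvl := by
  obtain ⟨C, hC, h⟩ := single'
  refine ⟨C, hC, ?_⟩
  intro ι _ _ a b i c P p0 N1 N2 G Lvl X ha hab hr hχb hp0 hpa hχp hP hN hL hG hX T hT hTL c0 hc0
  have hq : 0 < ∏ p ∈ T, p := prod_pos fun p hp => (hP p (hT hp)).1.pos
  obtain ⟨m0, h1, h2, h3⟩ := form_to_class c (c0 := c0) ha hq hp0 hab
    (Nat.Coprime.prod_right fun p hp => ((Nat.Prime.coprime_iff_not_dvd (hP p (hT hp)).1).2
      (hc0 p hp i (mem_singleton_self i))).symm)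
    (Nat.Coprime.mul_right hpa (Nat.Coprime.prod_right fun p hp => (hP p (hT hp)).2.2)) hr hχb hχp
  rw [h3]
  have hp0' : (0 : ℝ) < p0 := by exact_mod_cast hp0
  refine le_trans (le_of_eq ?_) (h c G _ m0 X (((a i * N1 + b i : ℕ) : ℝ) / p0) _ (hr.trans (dvd_mul_right _ _)) (Nat.mul_pos ha hq)
    ((Nat.mul_le_mul_left _ hTL).trans hL) h1 h2 (by positivity) (by gcongr) hX hG)
  congr 2
  rw [prod_primeFactors_mul ha.ne' fun p hp => ⟨(hP p (hT hp)).1, (hP p (hT hp)).2.1⟩,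
    prod_div_distrib]
  have : (0 : ℝ) < a i := by exact_mod_cast ha
  have : (0 : ℝ) < ∏ p ∈ T, (p : ℝ) := by rw [← Nat.cast_prod]; exact_mod_cast hq
  push_cast
  field_simp
  ring

lemma sum_Icc_findGreatest (F : ℕ → ℝ) (D L θ : ℕ) :
    ∑ d ∈ Icc 1 D, (if d * (d + θ) ≤ L then F d else 0) =
      ∑ d ∈ Icc 1 (Nat.findGreatest (fun d => d * (d + θ) ≤ L) D), F d := by
  rw [← sum_filter]
  refine sum_congr ?_ fun _ _ => rfl
  ext d
  simp only [mem_filter, mem_Icc]
  constructor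
  · rintro ⟨⟨h1, h2⟩, h3⟩; exact ⟨h1, Nat.le_findGreatest h2 h3⟩
  · rintro ⟨h1, h2⟩
    refine ⟨⟨h1, h2.trans (Nat.findGreatest_le D)⟩, ?_⟩
    have := Nat.findGreatest_of_ne_zero (P := fun d => d * (d + θ) ≤ L) (n := D) rfl (by omega)
    exact le_trans (Nat.mul_le_mul h2 (by omega)) this

theorem HC_pair : ∃ C : ℝ, 1 ≤ C ∧ ∀ {ι : Type} [Fintype ι] [DecidableEq ι] (a b : ι → ℕ) (i j : ι)
    (c : RC) (P : Finset ℕ) (N1 N2 g Lvl : ℕ), 0 < a i → 0 < a j → (a i).Coprime (b i) →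
    (a j).Coprime (b j) → (∀ p, p.Prime → (p ∣ a i ↔ p ∣ a j)) →
    (∀ p n, p.Prime → p ∣ a i * n + b i → ¬ p ∣ a j * n + b j) →
    c.r ∣ a i → c.r ∣ a j → c.χ (b i) = 1 → c.χ (b j) = 1 → P ⊆ PP 0 (g ^ 64) →
    (∀ p ∈ P, ¬ p ∣ a i) → N1 ≤ N2 → 1 ≤ Lvl → a i * Lvl ≤ g → 2 * g ^ 64 ≤ a j * N1 + b j →
    a i * N2 + b i ≤ g ^ 128 → a j * N2 + b j ≤ g ^ 128 →
    HC a b (Ico N1 N2) (fun n => c.gam (a i * n + b i) * c.gam (a j * n + b j)) P {i, j}
      ((N2 - N1) * (4 * c.LL ^ 2 * (∏ p ∈ (a i).primeFactors, (1 - c.χ p / p)) ^ 2 *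
        ∏ p ∈ PP 0 (g ^ 64) \ (a i).primeFactors, (1 - (c.χ p / p) ^ 2)))
      (fun p => (1 - c.χ p / p) ^ 2 / (1 - (c.χ p / p) ^ 2)) (C * g ^ 126) Lvl := by
  obtain ⟨C, hC, h⟩ := single
  have hCM := one_le_CM
  refine ⟨132 * C + 256 * CM, by linarith, ?_⟩
  intro ι _ _ a b i j c P N1 N2 g Lvl hai haj hci hcj hrad hsep hri hrj hχi hχj hP hPa hN hL1 hL hlow
    hupi hupj T hT hTL c0 hc0
  have hTp : ∀ p ∈ T, p.Prime ∧ ¬ p ∣ a i := fun p hp => ⟨PP_prime (hP (hT hp)), hPa p (hT hp)⟩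
  set q := ∏ p ∈ T, p with hqdef
  have hq : 0 < q := prod_pos fun p hp => (hTp p hp).1.pos
  have hq' : (0 : ℝ) < q := by exact_mod_cast hq
  have haq : a i * q ≤ g := (Nat.mul_le_mul_left _ hTL).trans hL
  have haq0 : 0 < a i * q := Nat.mul_pos hai hq
  have hg1 : 1 ≤ g := haq0.trans_le haq
  have hG : (1 : ℝ) ≤ g := by exact_mod_cast hg1
  have hrg : c.r ≤ g := (Nat.le_of_dvd hai hri).trans (le_trans (Nat.le_mul_of_pos_right _ hq) haq)
  have hrg' : (c.r : ℝ) ≤ g := by exact_mod_cast hrg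
  have hχL : ∀ n, c.χ (a j * n + b j) = 1 := fun n => by
    rw [← hχj]
    exact c.of_modEq (by
      simpa using (Nat.modEq_zero_iff_dvd.2 (hrj.trans (dvd_mul_right _ n))).add_right (b j))
  set P' := (a i * q).primeFactors ∪ PP 0 (g ^ 64) with hP'
  have hP'p : ∀ p ∈ P', p.Prime := fun p hp => by
    rcases mem_union.1 hp with h1 | h1
    exacts [Nat.prime_of_mem_primeFactors h1, PP_prime h1]
  set hh : ℕ → ℝ := fun p => if p ∣ a i * q then -1 else -(c.χ p / p) with hhh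
  set ρ : ℕ → ℝ := fun d => c.χ d / d * ∏ p ∈ P', (1 + if p ∣ d then hh p else 0) with hρ
  set A : ℝ := 2 * c.LL * ∏ p ∈ (a i * q).primeFactors, (1 - c.χ p / p) with hA
  -- one value of `d`
  have step : ∀ θ, ∀ d ∈ Icc 1 (g ^ 64),
      |c.χ d * ∑ n ∈ Ico N1 N2, (if d ∣ a j * n + b j ∧ d * (d + θ) ≤ a j * n + b j then
        c.gam (a i * n + b i) * (if n ≡ c0 [MOD q] then 1 else 0) else 0) -
        ∑ n ∈ Ico N1 N2, (if d * (d + θ) ≤ a j * n + b j then A / q * ρ d else 0)| ≤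
        C * (g ^ 124 * (d : ℝ)⁻¹ + g ^ 62) := by
    intro θ d hd
    have hd' := mem_Icc.1 hd
    have hd0 : (0 : ℝ) < d := by exact_mod_cast hd'.1
    by_cases hco : d.Coprime (a i * q)
    · -- the class modulo `d q`
      have hdq : d.Coprime q := Nat.Coprime.coprime_mul_left_right hco
      have hda : d.Coprime (a j) := by
        rw [Nat.coprime_comm]
        refine Nat.coprime_of_dvd fun p hp h1 h2 => ?_
        exact hp.one_lt.ne' (Nat.eq_one_of_dvd_coprimes hco h2 (((hrad p hp).2 h1).mul_right _))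
      obtain ⟨u, -, hu⟩ := Nat.exists_mul_mod_eq_of_coprime ((d - 1) * b j) hda.symm (by omega : d ≠ 0)
      have hu' : d ∣ a j * u + b j := by
        have h1 : a j * u + b j ≡ (d - 1) * b j + b j [MOD d] := Nat.ModEq.add_right _ hu
        refine (Nat.modEq_zero_iff_dvd).1 (h1.trans (Nat.modEq_zero_iff_dvd.2 ⟨b j, ?_⟩))
        obtain ⟨e, rfl⟩ : ∃ e, d = e + 1 := ⟨d - 1, by omega⟩
        simp; ring
      obtain ⟨c1, hc1'⟩ := Nat.chineseRemainder hdq u c0
      have hiff : ∀ n, n ≡ c1 [MOD d * q] ↔ d ∣ a j * n + b j ∧ n ≡ c0 [MOD q] := by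
        intro n
        rw [← Nat.modEq_and_modEq_iff_modEq_mul hdq]
        refine and_congr ⟨fun h1 => ?_, fun h1 => ?_⟩
          ⟨fun h1 => h1.trans hc1'.2, fun h1 => h1.trans hc1'.2.symm⟩
        · exact ((((h1.trans hc1'.1).mul_left (a j)).add_right (b j)).dvd_iff dvd_rfl).2 hu'
        · refine Nat.ModEq.trans ?_ hc1'.1.symm
          refine Nat.ModEq.cancel_left_of_coprime (c := a j) hda (Nat.ModEq.add_right_cancel' (b j) ?_)
          exact (Nat.modEq_zero_iff_dvd.2 h1).trans (Nat.modEq_zero_iff_dvd.2 hu').symm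
      have hc1a := (hiff c1).1 rfl
      obtain ⟨m0, h1, h2, h3⟩ := form_to_class c (c0 := c1) (p0 := 1) hai (Nat.mul_pos hd'.1 hq)
        one_pos hci (by
          refine Nat.coprime_of_dvd fun p hp h1 h2 => ?_
          rcases (Nat.Prime.dvd_mul hp).1 h2 with h3 | h3
          · exact hsep p c1 hp h1 (h3.trans hc1a.1)
          · obtain ⟨p', hp', h4⟩ := (Prime.dvd_finsetProd_iff hp.prime _).1 h3
            rw [(Nat.prime_dvd_prime_iff_eq hp (hTp p' hp').1).1 h4] at h1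
            refine hc0 p' hp' i (by simp) ?_
            exact (((hc1a.2.of_dvd (dvd_prod_of_mem _ hp')).mul_left _).add_right _).dvd_iff
              dvd_rfl |>.1 h1) (by simp) hri hχi c.one
      -- the range of `n`
      obtain ⟨n1, hn1, hn2, hn3⟩ : ∃ n1, N1 ≤ n1 ∧ n1 ≤ N2 ∧ ∀ F : ℕ → ℝ,
          ∑ n ∈ Ico N1 N2, (if d * (d + θ) ≤ a j * n + b j then F n else 0) =
            ∑ n ∈ Ico n1 N2, F n := by
        have hex : ∃ n, N1 ≤ n ∧ (N2 ≤ n ∨ d * (d + θ) ≤ a j * n + b j) := ⟨N2, hN, Or.inl le_rfl⟩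
        refine ⟨Nat.find hex, (Nat.find_spec hex).1, Nat.find_min' hex ⟨hN, Or.inl le_rfl⟩, fun F => ?_⟩
        rw [← sum_filter]
        refine sum_congr ?_ fun _ _ => rfl
        ext n
        simp only [mem_filter, mem_Ico]
        constructor
        · rintro ⟨⟨h4, h5⟩, h6⟩; exact ⟨Nat.find_min' hex ⟨h4, Or.inr h6⟩, h5⟩
        · rintro ⟨h4, h5⟩
          have := Nat.find_spec hex
          refine ⟨⟨this.1.trans h4, h5⟩, ?_⟩
          rcases this.2 with h6 | h6
          · omega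
          · exact h6.trans (by gcongr)
      have e1 : ∑ n ∈ Ico N1 N2, (if d ∣ a j * n + b j ∧ d * (d + θ) ≤ a j * n + b j then
          c.gam (a i * n + b i) * (if n ≡ c0 [MOD q] then 1 else 0) else 0) =
          ∑ n ∈ Ico n1 N2, (if 1 ∣ a i * n + b i then c.gam ((a i * n + b i) / 1) else 0) *
            (if n ≡ c1 [MOD d * q] then 1 else 0) := by
        rw [← hn3]
        refine sum_congr rfl fun n _ => ?_
        by_cases k1 : d ∣ a j * n + b j <;> by_cases k2 : d * (d + θ) ≤ a j * n + b j <;>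
          by_cases k3 : n ≡ c0 [MOD q] <;> simp [hiff, k1, k2, k3]
      have e2 : ρ d = c.χ d / d * ∏ p ∈ d.primeFactors, (1 - c.χ p / p) := by
        simp only [hρ]
        congr 1
        symm
        rw [← prod_subset (s₁ := d.primeFactors) (s₂ := P')]
        · refine prod_congr rfl fun p hp => ?_
          have hp' := Nat.mem_primeFactors.1 hp
          rw [if_pos hp'.2.1, hhh]
          simp only
          rw [if_neg fun h4 => hp'.1.one_lt.ne' (Nat.eq_one_of_dvd_coprimes hco hp'.2.1 h4)]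
          ring
        · intro p hp
          have hp' := Nat.mem_primeFactors.1 hp
          exact mem_union_right _ (mem_PP.2 ⟨hp'.1.pos, (Nat.le_of_dvd hd'.1 hp'.2.1).trans hd'.2, hp'.1⟩)
        · intro p hp hp2
          rw [if_neg fun h4 => hp2 (Nat.mem_primeFactors.2 ⟨hP'p p hp, h4, by omega⟩), add_zero]
      have h4 := h c g (a i * (d * q)) m0 (((a i * n1 + b i : ℕ) : ℝ) / (1 : ℕ))
        (((a i * N2 + b i : ℕ) : ℝ) / (1 : ℕ)) hrg (hri.mul_right _) (Nat.mul_pos hai (Nat.mul_pos hd'.1 hq))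
        (by calc a i * (d * q) = d * (a i * q) := by ring
              _ ≤ g ^ 64 * g := Nat.mul_le_mul hd'.2 haq
              _ = _ := by ring) h1 h2 (by positivity) (by gcongr)
        (by rw [Nat.cast_one, div_one]; exact_mod_cast hupi)
      rw [← h3, ← e1] at h4
      rw [hn3, sum_const, Nat.card_Ico, nsmul_eq_mul, Nat.cast_sub hn2, e2]
      have e3 : ((N2 : ℝ) - n1) * (A / q * (c.χ d / d * ∏ p ∈ d.primeFactors, (1 - c.χ p / p))) =
          c.χ d * ((((a i * N2 + b i : ℕ) : ℝ) / (1 : ℕ) - ((a i * n1 + b i : ℕ) : ℝ) / (1 : ℕ)) /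
            (a i * (d * q) : ℕ) * (2 * c.LL * ∏ p ∈ (a i * (d * q)).primeFactors, (1 - c.χ p / p))) := by
        rw [show a i * (d * q) = d * (a i * q) by ring, hco.primeFactors_mul,
          prod_union hco.disjoint_primeFactors, hA]
        have : (0 : ℝ) < a i := by exact_mod_cast hai
        push_cast; field_simp; ring
      rw [e3, ← mul_sub, abs_mul]
      refine (mul_le_of_le_one_left (abs_nonneg _) (c.abs_le d)).trans (h4.trans ?_)
      gcongr
      rw [← div_eq_mul_inv]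
      gcongr
      exact_mod_cast (show d ≤ a i * (d * q) by nlinarith [Nat.mul_pos hai hq])
    · obtain ⟨p, hp, h1, h2⟩ := Nat.Prime.not_coprime_iff_dvd.1 hco
      have e2 : ρ d = 0 := by
        simp only [hρ]
        rw [prod_eq_zero (mem_union_left _ (Nat.mem_primeFactors.2 ⟨hp, h2, haq0.ne'⟩)), mul_zero]
        simp [hhh, h1, h2]
      rw [e2, sum_eq_zero, sum_eq_zero]
      · simp; positivity
      · intro n _; simp
      · intro n _
        split_ifs with k1 k2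
        · exfalso
          have h3 : p ∣ a j * n + b j := h1.trans k1.1
          rcases (Nat.Prime.dvd_mul hp).1 h2 with h4 | h4
          · have h5 := (hrad p hp).1 h4
            exact hp.one_lt.ne' (Nat.eq_one_of_dvd_coprimes hcj h5
              ((Nat.dvd_add_right (h5.mul_right n)).1 h3))
          · obtain ⟨p', hp', h5⟩ := (Prime.dvd_finsetProd_iff hp.prime _).1 h4
            rw [(Nat.prime_dvd_prime_iff_eq hp (hTp p' hp').1).1 h5] at h3
            refine hc0 p' hp' j (by simp) ?_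
            exact (((k2.of_dvd (dvd_prod_of_mem _ hp')).mul_left _).add_right _).dvd_iff
              dvd_rfl |>.1 h3
        · simp
        · rfl
  -- the sum over `d` of the main terms
  have hτ : ∀ {x : ℕ → ℝ}, (∀ p ∈ (a i * q).primeFactors, 0 ≤ x p ∧ x p ≤ 2) →
      ∏ p ∈ (a i * q).primeFactors, x p ≤ g := fun hx =>
    (prod_le_tau haq0.ne' hx).trans (by exact_mod_cast (Nat.card_divisors_le_self _).trans haq)
  have hA0 : 0 ≤ A := mul_nonneg (by linarith [c.LL_pos])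
    (prod_nonneg fun p hp => (c.fac_pos (Nat.prime_of_mem_primeFactors hp)).le)
  have hsq : ∀ p : ℕ, p.Prime → (1 : ℝ) ≤ √p := fun p hp => Real.one_le_sqrt.2 (by exact_mod_cast hp.one_le)
  have hAg : A ≤ 2 * g * g := by
    refine mul_le_mul (by linarith [c.LL_le]) (hτ fun p hp => ?_)
      (prod_nonneg fun p hp => (c.fac_pos (Nat.prime_of_mem_primeFactors hp)).le) (by positivity)
    have hp' := Nat.prime_of_mem_primeFactors hp
    refine ⟨(c.fac_pos hp').le, (c.fac_le hp').trans ?_⟩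
    have : 1 / (p : ℝ) ≤ 1 := by
      rw [div_le_one (by exact_mod_cast hp'.pos)]; exact_mod_cast hp'.one_le
    linarith
  have step2 : ∀ θ ≤ 1, ∀ n ∈ Ico N1 N2, |∑ d ∈ Icc 1 (g ^ 64),
      (if d * (d + θ) ≤ a j * n + b j then A / q * ρ d else 0) -
      A / q * (c.LL * ∏ p ∈ P', (1 + c.χ p * hh p / p))| ≤ 128 * CM / g ^ 11 := by
    intro θ hθ n hn
    rw [sum_Icc_findGreatest, ← mul_sum, ← mul_sub, abs_mul, abs_of_nonneg (by positivity)]
    set Dn := Nat.findGreatest (fun d => d * (d + θ) ≤ a j * n + b j) (g ^ 64)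
    have h32 : 1 ≤ g ^ 32 := Nat.one_le_pow _ _ hg1
    have hDn : g ^ 32 ≤ Dn := Nat.le_findGreatest (Nat.pow_le_pow_right hg1 (by norm_num)) (by
      have : a j * N1 ≤ a j * n := Nat.mul_le_mul_left _ (mem_Ico.1 hn).1
      calc g ^ 32 * (g ^ 32 + θ) ≤ g ^ 32 * (g ^ 32 + g ^ 32) := by gcongr; omega
        _ = 2 * g ^ 64 := by ring
        _ ≤ _ := by omega)
    have h1 := c.lemM hP'p hh (h32.trans hDn)
    have h2 : (g : ℝ) ^ 16 ≤ √Dn := Real.le_sqrt_of_sq_le (by rw [← pow_mul]; exact_mod_cast hDn)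
    have h3 : ∏ p ∈ P', (1 + |hh p| / √p) ≤ g * (CM * (64 * g)) := by
      rw [hP', ← union_sdiff_self_eq_union, prod_union disjoint_sdiff]
      refine mul_le_mul (hτ fun p hp => ⟨by positivity, ?_⟩) ?_
        (prod_nonneg fun _ _ => by positivity) (by positivity)
      · have hp' := Nat.mem_primeFactors.1 hp
        have := hsq p hp'.1
        have : |hh p| / √p ≤ 1 := by
          simp only [hhh, if_pos hp'.2.1, abs_neg, abs_one]
          rw [div_le_one (by linarith)]; exact this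
        linarith
      · calc _ ≤ ∏ p ∈ PP 0 (g ^ 64) \ (a i * q).primeFactors, (1 + 1 / (p : ℝ)) := by
              refine prod_le_prod (fun _ _ => by positivity) fun p hp => ?_
              have hp' := mem_sdiff.1 hp
              have hp1 := PP_prime hp'.1
              have := hsq p hp1
              simp only [hhh]
              rw [if_neg fun h4 => hp'.2 (Nat.mem_primeFactors.2 ⟨hp1, h4, haq0.ne'⟩), abs_neg,
                abs_div, Nat.abs_cast]
              have h9 : |c.χ p| / p / √p ≤ 1 / p :=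
                (div_le_self (by positivity) this).trans (by gcongr; exact c.abs_le p)
              linarith
          _ ≤ ∏ p ∈ PP 0 (g ^ 64), (1 + 1 / (p : ℝ)) :=
              prod_le_prod_of_subset_of_one_le sdiff_subset (fun _ _ => by positivity)
                fun _ _ _ => le_add_of_nonneg_right (by positivity)
          _ ≤ Th 0 (g ^ 64) ^ 1 := prod_one_add_le_Th 0 _ 1 fun p _ => ⟨by positivity, by simp⟩
          _ ≤ _ := by
              rw [pow_one]
              rcases (show g = 1 ∨ 2 ≤ g by omega) with h4 | h4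
              · have : PP 0 1 = ∅ := by decide
                simp [h4, Th, this]; linarith
              · refine (Th_le (Nat.zero_le _) (h4.trans (Nat.le_self_pow (by norm_num) g))).trans ?_
                have h5 := VV_le_one 0
                have h6 := VV_pos 0
                have h7 : Real.log (g ^ 64 : ℕ) ≤ 64 * g := by
                  push_cast; rw [Real.log_pow]
                  have := Real.log_le_sub_one_of_pos (show (0 : ℝ) < g by linarith)
                  push_cast; linarith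
                have h8 := Real.log_natCast_nonneg (g ^ 64)
                calc _ ≤ CM * 1 * (64 * g) := by gcongr
                  _ = _ := by ring
    have hq1 : (1 : ℝ) ≤ q := by exact_mod_cast hq
    calc _ ≤ (2 * g * g) * (g / g ^ 16 * (g * (CM * (64 * g)))) := by
          refine mul_le_mul ((div_le_self hA0 hq1).trans hAg) (h1.trans ?_) (abs_nonneg _)
            (by positivity)
          gcongr
      _ = _ := by field_simp; ring
  -- assembling
  have e0 : ∑ n ∈ Ico N1 N2, c.gam (a i * n + b i) * c.gam (a j * n + b j) *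
      (if n ≡ c0 [MOD q] then 1 else 0) = ∑ θ ∈ range 2, ∑ d ∈ Icc 1 (g ^ 64), c.χ d *
        ∑ n ∈ Ico N1 N2, (if d ∣ a j * n + b j ∧ d * (d + θ) ≤ a j * n + b j then
          c.gam (a i * n + b i) * (if n ≡ c0 [MOD q] then 1 else 0) else 0) := by
    simp_rw [mul_sum]
    symm
    rw [sum_congr rfl fun θ _ => sum_comm, sum_comm]
    refine sum_congr rfl fun n hn => ?_
    rw [c.gam_hyp (D := g ^ 64) (hχL n) (by
      have : a j * n ≤ a j * N2 := Nat.mul_le_mul_left _ (mem_Ico.1 hn).2.le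
      rw [← pow_mul]; norm_num; omega), mul_sum, sum_mul]
    refine sum_congr rfl fun θ _ => ?_
    rw [mul_sum, sum_mul]
    refine sum_congr rfl fun d _ => ?_
    split_ifs <;> ring
  have eM : ((N2 : ℝ) - N1) * (4 * c.LL ^ 2 * (∏ p ∈ (a i).primeFactors, (1 - c.χ p / p)) ^ 2 *
      ∏ p ∈ PP 0 (g ^ 64) \ (a i).primeFactors, (1 - (c.χ p / p) ^ 2)) *
      ∏ p ∈ T, (1 - c.χ p / p) ^ 2 / (1 - (c.χ p / p) ^ 2) / p =
      2 * ((N2 - N1) * (A / q * (c.LL * ∏ p ∈ P', (1 + c.χ p * hh p / p)))) := by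
    have hTs : T ⊆ PP 0 (g ^ 64) \ (a i).primeFactors := fun p hp =>
      mem_sdiff.2 ⟨hP (hT hp), fun h1 => (hTp p hp).2 (Nat.dvd_of_mem_primeFactors h1)⟩
    have e1 : ∏ p ∈ P', (1 + c.χ p * hh p / p) = (∏ p ∈ (a i * q).primeFactors, (1 - c.χ p / p)) *
        ∏ p ∈ (PP 0 (g ^ 64) \ (a i).primeFactors) \ T, (1 - (c.χ p / p) ^ 2) := by
      rw [hP', ← union_sdiff_self_eq_union, prod_union disjoint_sdiff]
      congr 1
      · refine prod_congr rfl fun p hp => ?_
        simp only [hhh, if_pos (Nat.dvd_of_mem_primeFactors hp)]; ring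
      · refine prod_congr ?_ fun p hp => ?_
        · rw [Nat.primeFactors_mul hai.ne' hq.ne', hqdef, Nat.primeFactors_prod fun p hp => (hTp p hp).1,
            sdiff_sdiff_left]; rfl
        · have hp' := mem_sdiff.1 hp
          have hp2 := mem_sdiff.1 hp'.1
          have hp1 := PP_prime hp2.1
          have : ¬ p ∣ a i * q := fun h4 => by
            rcases (Nat.Prime.dvd_mul hp1).1 h4 with h5 | h5
            · exact hp2.2 (Nat.mem_primeFactors.2 ⟨hp1, h5, hai.ne'⟩)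
            · obtain ⟨p', hp3, h6⟩ := (Prime.dvd_finsetProd_iff hp1.prime _).1 h5
              rw [(Nat.prime_dvd_prime_iff_eq hp1 (hTp p' hp3).1).1 h6] at hp'
              exact hp'.2 hp3
          simp only [hhh, if_neg this]; ring
    rw [e1, hA, hqdef, prod_primeFactors_mul hai.ne' hTp, ← prod_sdiff hTs, prod_div_distrib,
      prod_div_distrib, prod_pow, Nat.cast_prod]
    have : ∏ p ∈ T, (1 - (c.χ p / p) ^ 2) ≠ 0 := prod_ne_zero_iff.2 fun p hp => by
      have h1 := c.fac_pos (hTp p hp).1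
      have h2 : (1 : ℝ) < p := by exact_mod_cast (hTp p hp).1.one_lt
      have h3 : -1 < c.χ p / p := by
        rw [lt_div_iff₀ (by linarith)]; linarith [c.neg_one_le p]
      nlinarith
    generalize ∏ p ∈ T, (1 - (c.χ p / p) ^ 2) = u at this
    generalize ∏ p ∈ (PP 0 (g ^ 64) \ (a i).primeFactors) \ T, (1 - (c.χ p / p) ^ 2) = u1
    generalize ∏ p ∈ T, (1 - c.χ p / p) = u2
    generalize ∏ p ∈ (a i).primeFactors, (1 - c.χ p / p) = u3
    field_simp
    ring
  have key : ∀ θ ≤ 1, |∑ d ∈ Icc 1 (g ^ 64), c.χ d *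
      ∑ n ∈ Ico N1 N2, (if d ∣ a j * n + b j ∧ d * (d + θ) ≤ a j * n + b j then
        c.gam (a i * n + b i) * (if n ≡ c0 [MOD q] then 1 else 0) else 0) -
      (N2 - N1) * (A / q * (c.LL * ∏ p ∈ P', (1 + c.χ p * hh p / p)))| ≤
      (66 * C + 128 * CM) * g ^ 126 := by
    intro θ hθ
    have k1 := (abs_sum_le_sum_abs _ _).trans (sum_le_sum (step θ))
    have k2 := (abs_sum_le_sum_abs _ _).trans (sum_le_card_nsmul _ _ _ (step2 θ hθ))
    rw [sum_sub_distrib] at k1 k2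
    rw [sum_comm, sum_const, Nat.card_Ico, nsmul_eq_mul, nsmul_eq_mul, Nat.cast_sub hN] at k2
    have k3 : ∑ d ∈ Icc 1 (g ^ 64), C * ((g : ℝ) ^ 124 * (d : ℝ)⁻¹ + g ^ 62) ≤ 66 * C * g ^ 126 := by
      rw [← mul_sum, sum_add_distrib, ← mul_sum, sum_const, Nat.card_Icc, nsmul_eq_mul]
      have h1 := sum_inv_le_log (g ^ 64)
      rw [show Ioc 0 (g ^ 64) = Icc 1 (g ^ 64) from rfl] at h1
      have h7 : Real.log (g ^ 64 : ℕ) ≤ 64 * g := by
        push_cast; rw [Real.log_pow]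
        have := Real.log_le_sub_one_of_pos (show (0 : ℝ) < g by linarith)
        push_cast; linarith
      have h8 : ∑ d ∈ Icc 1 (g ^ 64), (d : ℝ)⁻¹ ≤ 65 * g ^ 2 := by nlinarith
      calc _ ≤ C * (g ^ 124 * (65 * g ^ 2) + g ^ 64 * g ^ 62) := by gcongr; simp
        _ = _ := by ring
    have k4 : ((N2 : ℝ) - N1) * (128 * CM / g ^ 11) ≤ 128 * CM * g ^ 126 := by
      have h1 : (N2 : ℝ) ≤ g ^ 128 := by exact_mod_cast (show N2 ≤ g ^ 128 by nlinarith)
      calc _ ≤ g ^ 128 * (128 * CM / g ^ 11) := by gcongr; linarith [(Nat.cast_nonneg N1 : (0 : ℝ) ≤ _)]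
        _ = 128 * CM * g ^ 117 := by field_simp
        _ ≤ _ := by gcongr; norm_num
    rw [abs_le] at k1 k2 ⊢
    constructor <;> linarith [k1.1, k1.2, k2.1, k2.2]
  rw [e0, eM, sum_range_succ, sum_range_one]
  have k0 := abs_le.1 (key 0 (by norm_num))
  have k1 := abs_le.1 (key 1 le_rfl)
  rw [abs_le]; constructor <;> linarith [k0.1, k0.2, k1.1, k1.2]

end Pool.Agent.P.MP_746f10_nt
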