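import Mathlib
import Pool.Agent.P.MP_746f10_nt.Sys
import Pool.Agent.P.MP_746f10_nt.Cnt
import Pool.Agent.P.MP_746f10_nt.Hyp

/-! Primes at which the real character equals one are rare when its value at one is small. -/

namespace Pool.Agent.P.MP_746f10_nt

open Finset

theorem sig_le : ∃ cw v0 : ℕ, 5 ≤ cw ∧ ∀ (c : RC) (v Z1 Z2 T : ℕ), v0 ≤ v → c.r ≤ v → v ^ cw ≤ Z1 →
    2 ≤ T → Z2 ≤ Z1 * T → c.sig Z1 Z2 ≤ 18 * Real.log T * (c.ell v * VV v) := by
  classical
  obtain ⟨C, hC, hS⟩ := HC_single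
  obtain ⟨k0, hk0⟩ := exists_sieve 2 (by norm_num)
  obtain ⟨s0, hs0⟩ : ∃ s0, s0 = 4 * (k0 + 0) + 6 := ⟨_, rfl⟩
  refine ⟨128 * (s0 + 2), ⌈2592 * C⌉₊ + 2, by omega, ?_⟩
  intro c v Z1 Z2 T hv hr hZ1 hT hZ2
  have hv2 : 2 ≤ v := by omega
  have hv' : (2 : ℝ) ≤ v := by exact_mod_cast hv2
  have hvC : 2592 * C ≤ v := (Nat.le_ceil _).trans (by exact_mod_cast (by omega))
  have hr0 := c.r_pos
  have hr' : (0 : ℝ) < c.r := by exact_mod_cast hr0
  have hrv : (c.r : ℝ) ≤ v := by exact_mod_cast hr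
  have hL : 1 / (1296 * (v : ℝ) ^ 4) ≤ c.ell v * VV v := by
    have h1 := VV_ge (show 1 ≤ v by omega)
    calc _ = 1 / (1296 * (v : ℝ) ^ 2) * (1 / v) * (1 / v) := by field_simp
      _ ≤ 1 / (1296 * (c.r : ℝ) ^ 2) * VV v * VV v := by have := VV_pos v; gcongr
      _ ≤ _ := mul_le_mul_of_nonneg_right (c.ell_ge v) (VV_pos v).le
  have hL0 : 0 < c.ell v * VV v := mul_pos (c.ell_pos v) (VV_pos v)
  have hbig : 2 * v < v ^ (128 * (s0 + 2)) := by
    calc 2 * v < v * v * v := by nlinarith
      _ = v ^ 3 := by ring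
      _ ≤ _ := Nat.pow_le_pow_right (by omega) (by omega)
  have block : ∀ N : ℕ, v ^ (128 * (s0 + 2)) ≤ 2 * (c.r * N) →
      ∑ m ∈ Ico (c.r * N) (c.r * (2 * N)), (if m.Prime ∧ c.χ m = 1 then 1 / (m : ℝ) else 0) ≤
        3 * (c.ell v * VV v) := by
    intro N hN
    have hN0 : 0 < N := Nat.pos_of_ne_zero (by rintro rfl; omega)
    have hN' : (0 : ℝ) < N := by exact_mod_cast hN0
    have cls : ∀ b ∈ range c.r, ∑ n ∈ Ico N (2 * N),
        (if (c.r * n + b).Prime ∧ c.χ (c.r * n + b) = 1 then 1 / ((c.r * n + b : ℕ) : ℝ) else 0) ≤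
        if c.r.Coprime b then (2 * c.ell v * ∏ p ∈ GP (fun _ : Unit => c.r) v, (1 - 1 / (p : ℝ)) +
          c.ell v * VV v) / c.r else 0 := by
      intro b hb
      have hχ : ∀ n, c.χ (c.r * n + b) = c.χ b := fun n => c.of_modEq (by simp [Nat.ModEq])
      by_cases hb1 : c.χ b = 1
      swap
      · rw [sum_eq_zero fun n _ => if_neg fun h => hb1 ((hχ n).symm.trans h.2)]
        split_ifs
        · have := c.ell_pos v
          have : 0 ≤ ∏ p ∈ GP (fun _ : Unit => c.r) v, (1 - 1 / (p : ℝ)) := prod_nonneg fun p hp =>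
            (one_sub_inv_pos (by exact_mod_cast (mem_GP.1 hp).2.1.two_le)).le
          positivity
        · rfl
      have hco : c.r.Coprime b := by
        by_contra h; rw [c.zero b fun h2 => h h2.symm] at hb1; norm_num at hb1
      rw [if_pos hco]
      have hN1 : Nrm (fun _ : Unit => c.r) (fun _ => b) 1 v :=
        ⟨fun _ => mem_range.1 hb, fun _ => hr, fun _ => hco, fun _ _ _ _ h => h,
          fun p _ hp h => absurd hp.two_le (by omega), fun _ _ _ _ _ _ _ => rfl⟩
      obtain ⟨s⟩ := hk0 0 v (GP (fun _ : Unit => c.r) v) hv2 fun p hp => ⟨(mem_GP.1 hp).2.1, (mem_GP.1 hp).1⟩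
      rw [← hs0] at s
      have h1 := hS (fun _ : Unit => c.r) (fun _ => b) () c (GP (fun _ : Unit => c.r) v) 1 N (2 * N)
        (v ^ (s0 + 2)) (v ^ s0) (3 * v * N) hr0 hco dvd_rfl hb1 one_pos (by simp) c.one
        (fun p hp => ⟨(mem_GP.1 hp).2.1, (mem_GP.1 hp).2.2 (), by simp⟩) (by omega)
        (by calc c.r * v ^ s0 ≤ v * v ^ s0 := Nat.mul_le_mul_right _ hr
              _ ≤ v * v * v ^ s0 := by gcongr; nlinarith
              _ = _ := by ring)
        (by rw [← Nat.cast_pow, ← pow_mul, mul_comm (s0 + 2)]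
            exact_mod_cast hN.trans (by nlinarith))
        (by rw [Nat.cast_one, div_one]
            have := mem_range.1 hb
            exact_mod_cast (by nlinarith : c.r * (2 * N) + b ≤ 3 * v * N))
      have hee : ∀ p, ee ({()} : Finset Unit) (fun p => 1 - c.χ p / p) univ p =
          1 - (1 - c.χ p / p) * (1 - 1 / p) := fun p => by
        unfold ee; rw [if_neg (by simp)]; simp
      have h2 := h1.sieve1 (fun p hp => hN1.good hp) (by positivity)
        (mul_nonneg (by push_cast; rw [div_one]; linarith) (mul_nonneg (by linarith [c.LL_pos])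
          (prod_nonneg fun p hp => (c.fac_pos (Nat.prime_of_mem_primeFactors hp)).le)))
        (fun n _ => by simpa using c.gam_nonneg _) Subset.rfl s (fun p hp => by
          rw [hee]
          have hp' := (mem_GP.1 hp).2.1
          have a1 := c.fac_ge hp'
          have a2 := c.fac_le hp'
          have a3 : (2 : ℝ) ≤ p := by exact_mod_cast hp'.two_le
          have a4 : 1 / (p : ℝ) ≤ 1 / 2 := by gcongr
          have a5 : 0 ≤ 1 / (p : ℝ) := by positivity
          rw [show (2 : ℝ) / p = 2 * (1 / p) by ring]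
          refine ⟨by nlinarith, by nlinarith, by nlinarith⟩)
        (θ := rg (fun _ : Unit => c.r) (fun _ => b) v)
        (fun n => ⟨le_rfl, s.le_up _ fun p _ => ⟨ev_nonneg _ _ _, ev_le_one _ _ _⟩⟩)
        (T := ∅) (by simp) (by simp) (by simp) (fun _ => ∅) (by simp) (by simp)
      simp only [prod_empty, mul_one, hee, sub_sub_cancel, one_dvd, if_true, Nat.div_one, pow_zero,
        div_one, one_mul, Nat.cast_one] at h2
      have e1 : (((2 * N : ℕ) : ℝ) - N) * (2 * c.LL * ∏ p ∈ c.r.primeFactors, (1 - c.χ p / p)) *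
          ∏ p ∈ GP (fun _ : Unit => c.r) v, (1 - c.χ p / p) * (1 - 1 / p) =
          N * (2 * c.ell v * ∏ p ∈ GP (fun _ : Unit => c.r) v, (1 - 1 / (p : ℝ))) := by
        rw [prod_mul_distrib, RC.ell, ← hN1.prod_split () le_rfl]; push_cast; ring
      rw [e1] at h2
      have h3 : ((v ^ s0 : ℕ) : ℝ) * (C * (3 * v * N) / ((v ^ (s0 + 2) : ℕ) : ℝ) ^ 4 *
          ((v ^ s0 : ℕ) : ℝ) ^ 2) ≤ 2 * N * (c.ell v * VV v) := by
        refine le_trans ?_ (mul_le_mul_of_nonneg_left hL (by positivity))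
        push_cast
        have hs : (1 : ℝ) ≤ v ^ s0 := one_le_pow₀ (by linarith)
        rw [pow_add]
        generalize (v : ℝ) ^ s0 = y at hs
        calc _ = N * (3 * C) / (y * v ^ 7) := by field_simp
          _ ≤ N * (3 * C) / (1 * v ^ 7) := by gcongr
          _ ≤ _ := by
              rw [mul_one_div, div_le_div_iff₀ (by positivity) (by positivity)]
              have : (v : ℝ) * 1 * v ^ 4 ≤ v ^ 7 := by
                calc _ ≤ (v : ℝ) * v ^ 2 * v ^ 4 := by gcongr; nlinarith
                  _ = _ := by ring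
              nlinarith [mul_le_mul_of_nonneg_left this hN'.le,
                mul_le_mul_of_nonneg_left hvC (show 0 ≤ N * (v : ℝ) ^ 4 by positivity),
                show 0 ≤ N * C * (v : ℝ) ^ 4 by positivity]
      have h4 := (abs_le.1 h2).2
      calc _ ≤ ∑ n ∈ Ico N (2 * N), c.gam (c.r * n + b) *
            rg (fun _ : Unit => c.r) (fun _ => b) v n / (2 * (c.r * N)) := by
            refine sum_le_sum fun n hn => ?_
            have hn' := (mem_Ico.1 hn).1
            split_ifs with h5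
            · rw [c.gam_prime h5.1, h5.2, rg, prod_eq_one]
              · rw [div_le_div_iff₀ (by exact_mod_cast h5.1.pos) (by positivity)]
                have : ((c.r * N : ℕ) : ℝ) ≤ (c.r * n + b : ℕ) := by exact_mod_cast (by nlinarith)
                push_cast at this ⊢; linarith
              · intro p hp
                rw [ev_eq_zero.2, sub_zero]
                intro _ _ h6
                have := (Nat.prime_dvd_prime_iff_eq (mem_GP.1 hp).2.1 h5.1).1 h6
                have := (mem_GP.1 hp).1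
                nlinarith
            · exact div_nonneg (mul_nonneg (c.gam_nonneg _) (rg_nonneg _ _ _ _)) (by positivity)
        _ ≤ _ := by
            rw [← sum_div, div_le_div_iff₀ (by positivity) hr']
            nlinarith [mul_le_mul_of_nonneg_right (show _ ≤ _ from (by linarith :
              ∑ n ∈ Ico N (2 * N), c.gam (c.r * n + b) * rg (fun _ : Unit => c.r) (fun _ => b) v n ≤
              2 * (N * (2 * c.ell v * ∏ p ∈ GP (fun _ : Unit => c.r) v, (1 - 1 / (p : ℝ)))) +
                2 * N * (c.ell v * VV v))) hr'.le]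
    rw [sum_Ico_classes hr0]
    refine (sum_le_sum cls).trans ?_
    rw [← sum_filter, sum_const, nsmul_eq_mul, ← Nat.totient_eq_card_coprime, add_div, mul_add]
    have hN1 : Nrm (fun _ : Unit => c.r) (fun _ => 1 % c.r) 1 v :=
      ⟨fun _ => Nat.mod_lt _ hr0, fun _ => hr, fun _ => by
        rw [Nat.Coprime, Nat.gcd_comm, ← Nat.gcd_rec]; simp, fun _ _ _ _ h => h,
        fun p _ hp h => absurd hp.two_le (by omega), fun _ _ _ _ _ _ _ => rfl⟩
    have h1 : (c.r.totient : ℝ) * ((2 * c.ell v * ∏ p ∈ GP (fun _ : Unit => c.r) v,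
        (1 - 1 / (p : ℝ))) / c.r) = 2 * (c.ell v * VV v) := by
      rw [totient_real, VV, ← hN1.prod_split () le_rfl]; field_simp
    have h2 : (c.r.totient : ℝ) * (c.ell v * VV v / c.r) ≤ c.ell v * VV v := by
      have : (c.r.totient : ℝ) ≤ c.r := by exact_mod_cast Nat.totient_le _
      calc _ ≤ c.r * (c.ell v * VV v / c.r) := by gcongr
        _ = _ := by field_simp
    linarith
  set N0 := Z1 / c.r with hN0
  have hN0' : Z1 ≤ 2 * (c.r * N0) := by
    have := Nat.div_add_mod Z1 c.r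
    have := Nat.mod_lt Z1 hr0
    rw [← hN0] at *
    omega
  have many : ∀ J : ℕ, ∑ m ∈ Ico (c.r * N0) (c.r * (2 ^ J * N0)),
      (if m.Prime ∧ c.χ m = 1 then 1 / (m : ℝ) else 0) ≤ J * (3 * (c.ell v * VV v)) := by
    intro J
    induction J with
    | zero => simp
    | succ J ih =>
      have h1 : 1 ≤ 2 ^ J := Nat.one_le_two_pow
      rw [← sum_Ico_consecutive _ (n := c.r * (2 ^ J * N0)) (by gcongr; nlinarith)
        (by gcongr; exacts [by norm_num, by omega]), pow_succ, mul_comm (2 ^ J) 2, mul_assoc 2]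
      have := block (2 ^ J * N0) (hZ1.trans (hN0'.trans (by gcongr; nlinarith)))
      push_cast; linarith
  set J := Nat.clog 2 T with hJ
  have hTJ : T ≤ 2 ^ J := Nat.le_pow_clog (by norm_num) T
  have hZ0 : 0 < Z1 := by omega
  calc c.sig Z1 Z2 ≤ ∑ m ∈ Ico (c.r * N0) (c.r * (2 ^ (J + 2) * N0)),
        (if m.Prime ∧ c.χ m = 1 then 1 / (m : ℝ) else 0) := by
        rw [← sum_filter]
        refine sum_le_sum_of_subset_of_nonneg (fun p hp => ?_) fun _ _ _ => by positivity
        have h1 := RC.mem_Pp.1 hp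
        refine mem_filter.2 ⟨mem_Ico.2 ⟨(Nat.mul_div_le Z1 c.r).trans h1.1.1.le, ?_⟩, h1.1.2.2, h1.2⟩
        calc p ≤ Z1 * 2 ^ J := h1.1.2.1.trans (hZ2.trans (by gcongr))
          _ < 2 * Z1 * 2 ^ J := by gcongr; omega
          _ ≤ 2 * (2 * (c.r * N0)) * 2 ^ J := by gcongr
          _ = _ := by ring
    _ ≤ (J + 2 : ℕ) * (3 * (c.ell v * VV v)) := many _
    _ ≤ (6 * Real.log T) * (3 * (c.ell v * VV v)) := by
        gcongr
        have h1 : 2 ^ (J - 1) < T := Nat.pow_pred_clog_lt_self (by norm_num) (by omega)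
        have h2 : ((J - 1 : ℕ) : ℝ) * Real.log 2 ≤ Real.log T := by
          rw [← Real.log_pow]
          exact Real.log_le_log (by positivity) (by exact_mod_cast h1.le)
        have h3 : Real.log 2 ≤ Real.log T := Real.log_le_log (by norm_num) (by exact_mod_cast hT)
        have h4 := Real.log_two_gt_d9
        have h5 : ((J + 2 : ℕ) : ℝ) ≤ (J - 1 : ℕ) + 3 := by exact_mod_cast (by omega)
        nlinarith [(Nat.cast_nonneg (J - 1) : (0 : ℝ) ≤ _)]
    _ = _ := by ring

end Pool.Agent.P.MP_746f10_nt
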