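import Mathlib
import Pool.Agent.P.MP_746f10_nt.Sys
import Pool.Agent.P.MP_746f10_nt.Cnt
import Pool.Agent.P.MP_746f10_nt.LSadd

/-! The contribution of pairs of composite values with a medium sized prime factor. -/

set_option linter.unusedSectionVars false

namespace Pool.Agent.P.MP_746f10_nt

open Finset

lemma sum_Ioc_dyadic (F : ℕ → ℝ) (z J : ℕ) :
    ∑ p ∈ Ioc z (z * 2 ^ J), F p = ∑ α ∈ range J, ∑ p ∈ Ioc (z * 2 ^ α) (2 * (z * 2 ^ α)), F p := by
  induction J with
  | zero => simp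
  | succ J ih =>
    rw [sum_range_succ, ← ih, sum_Ioc_consecutive _ (Nat.le_mul_of_pos_right _ (by positivity))
      (by omega)]
    congr 2; ring

lemma sum_dyadic {S : Finset ℕ} {z J Z : ℕ} (hS : S ⊆ Ioc z Z) (hZ : Z ≤ z * 2 ^ J) (F : ℕ → ℝ) :
    ∑ p ∈ S, F p = ∑ α ∈ (range J).filter (fun α => z * 2 ^ α ≤ Z),
      ∑ p ∈ Ioc (z * 2 ^ α) (2 * (z * 2 ^ α)), if p ∈ S then F p else 0 := by
  rw [sum_filter_of_ne, ← sum_Ioc_dyadic, sum_ite_mem, inter_eq_right.2
    (hS.trans (Ioc_subset_Ioc_right hZ))]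
  intro α _ h
  obtain ⟨p, hp, h1⟩ := exists_ne_zero_of_sum_ne_zero h
  have h2 : p ∈ S := by by_contra h2; simp [h2] at h1
  have := mem_Ioc.1 (hS h2)
  have := mem_Ioc.1 hp
  omega

lemma LS_bound {P A B H u z : ℕ} (hu : 1 ≤ u) (hz : u ^ 16 ≤ z) (hP : z ≤ P) (hPH : P * u ^ 8 ≤ H)
    (hA : z ≤ A) (hAH : A ≤ H) (hAB : A * B ≤ 2 * H ^ 2) :
    √(LSc P A * A * (LSc P B * B)) / P ≤ 8 * (1 + Real.log (4 * H ^ 2 : ℕ)) * H ^ 2 / u ^ 8 := by
  have hu' : (1 : ℝ) ≤ u := by exact_mod_cast hu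
  have hz1 : 1 ≤ z := (Nat.one_le_pow _ _ hu).trans hz
  have hP0 : (0 : ℝ) < P := by exact_mod_cast (by omega : 0 < P)
  have hA0 : (0 : ℝ) < A := by exact_mod_cast (by omega : 0 < A)
  have h8 : 1 ≤ u ^ 8 := Nat.one_le_pow _ _ hu
  set Λ := 1 + Real.log (4 * H ^ 2 : ℕ) with hΛ
  have hΛ1 : 1 ≤ Λ := by linarith [Real.log_natCast_nonneg (4 * H ^ 2)]
  have hL : ∀ C : ℕ, LSc P C ≤ C + 4 * P ^ 2 * Λ := fun C => by
    unfold LSc
    have : Real.log (4 * P ^ 2 : ℕ) ≤ Real.log (4 * H ^ 2 : ℕ) :=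
      Real.log_le_log (by push_cast; positivity) (by
        exact_mod_cast (by gcongr; nlinarith : 4 * P ^ 2 ≤ 4 * H ^ 2))
    push_cast at this ⊢
    gcongr
    rw [hΛ]; push_cast; linarith
  set y : ℝ := H ^ 2 / u ^ 16 with hy
  have hU : (0 : ℝ) < u ^ 16 := by positivity
  have y1 : (A : ℝ) ≤ y := by
    rw [hy, le_div_iff₀ hU]; exact_mod_cast (by nlinarith : A * u ^ 16 ≤ H ^ 2)
  have y2 : (B : ℝ) ≤ 2 * y := by
    rw [hy, ← mul_div_assoc, le_div_iff₀ hU]; exact_mod_cast (by nlinarith : B * u ^ 16 ≤ 2 * H ^ 2)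
  have y3 : (P : ℝ) ^ 2 ≤ y := by
    rw [hy, le_div_iff₀ hU]
    exact_mod_cast (by calc P ^ 2 * u ^ 16 = (P * u ^ 8) ^ 2 := by ring
      _ ≤ H ^ 2 := by gcongr : P ^ 2 * u ^ 16 ≤ H ^ 2)
  have y4 : (A : ℝ) * B ≤ 2 * H ^ 2 := by exact_mod_cast hAB
  have y5 : (A : ℝ) * B ≤ 2 * y * P ^ 2 := by
    refine y4.trans ?_
    rw [hy, mul_assoc, div_mul_eq_mul_div, mul_div_assoc]
    gcongr
    refine le_mul_of_one_le_right (by positivity) ?_
    rw [le_div_iff₀ hU, one_mul]; exact_mod_cast (by nlinarith : u ^ 16 ≤ P ^ 2)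
  have hy0 : 0 ≤ y := by positivity
  rw [div_le_iff₀ hP0]
  refine Real.sqrt_le_iff.2 ⟨by positivity, ?_⟩
  have hB0 : (0 : ℝ) ≤ B := Nat.cast_nonneg B
  calc _ ≤ (A + 4 * P ^ 2 * Λ) * A * ((B + 4 * P ^ 2 * Λ) * B) := by
        gcongr; exacts [mul_nonneg (LSc_nonneg _ _) hB0, hL A, hL B]
    _ = (A * B) * (A * B + 4 * Λ * P ^ 2 * (A + B) + 16 * Λ ^ 2 * P ^ 2 * P ^ 2) := by ring
    _ ≤ (2 * H ^ 2) * (2 * y * P ^ 2 + 4 * Λ * P ^ 2 * (y + 2 * y) + 16 * Λ ^ 2 * P ^ 2 * y) := by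
        gcongr
    _ = (2 * H ^ 2 * y * P ^ 2) * (2 + 12 * Λ + 16 * Λ ^ 2) := by ring
    _ ≤ (2 * H ^ 2 * y * P ^ 2) * (32 * Λ ^ 2) := by gcongr; nlinarith
    _ = _ := by rw [hy]; field_simp; ring

variable {ι : Type*} [Fintype ι] [DecidableEq ι] {a b : ι → ℕ} {K v : ℕ}

theorem bilB (hN : Nrm a b K v) (c : RC) {i j : ι} (hij : i ≠ j) {w D1 : ℕ} {κ ε : ℝ}
    (s : SieveW (GP a w) D1 κ ε) {β : ℕ → ℝ} {D : ℝ} (hβ : ∀ m, 0 ≤ β m ∧ β m ≤ D)
    (hβγ : ∀ m, β m ≤ c.gam m) {u z P1 H N J : ℕ} (hu : 1 ≤ u) (hz : u ^ 16 ≤ z) (hvz : v ≤ z)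
    (hPH : P1 * u ^ 8 ≤ H) (hx : a j * (2 * N) + b j ≤ H ^ 2) (hH : 2 * H + 2 ≤ N)
    (hJ : H ≤ z * 2 ^ J) :
    ∑ n ∈ Ico N (2 * N), (∑ p ∈ c.Pp z P1, if p ∣ a i * n + b i then (1 : ℝ) else 0) *
      (∑ p ∈ c.Pp z H, if p ∣ a j * n + b j then β ((a j * n + b j) / p) else 0) *
        s.U (fun p => ev a b univ p n) ≤
      c.sig z P1 * ∑ p ∈ c.Pp z H, ∑ n ∈ Ico 0 (5 * N),
        (if p ∣ a j * n + b j then c.gam ((a j * n + b j) / p) else 0) *
          s.U (fun p => ev a b univ p n) +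
      J ^ 2 * (D1 * (v * D1 * (32 * D * (1 + Real.log (4 * H ^ 2 : ℕ)) * H ^ 2 / u ^ 8))) := by
  classical
  have ha := hN.pos j
  have h8 : 1 ≤ u ^ 8 := Nat.one_le_pow _ _ hu
  have hz1 : 1 ≤ z := (Nat.one_le_pow _ _ hu).trans hz
  have hP1H : P1 ≤ H := le_trans (Nat.le_mul_of_pos_right _ h8) hPH
  have hD : 0 ≤ D := (hβ 0).1.trans (hβ 0).2
  set U : ℕ → ℝ := fun n => s.U (fun p => ev a b univ p n) with hU
  have hU0 : ∀ n, 0 ≤ U n := fun n => s.U_nonneg fun p _ => ⟨ev_nonneg _ _ _, ev_le_one _ _ _⟩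
  set G : ℕ → ℝ := fun m => if m % a j = b j then U (m / a j) else 0 with hG
  have hG0 : ∀ m, 0 ≤ G m := fun m => by simp only [hG]; split_ifs; exacts [hU0 _, le_rfl]
  have hGL : ∀ n, G (a j * n + b j) = U n := fun n => by
    simp only [hG]
    rw [if_pos (by rw [Nat.mul_add_mod, Nat.mod_eq_of_lt (hN.lt j)]), Nat.mul_add_div ha,
      Nat.div_eq_of_lt (hN.lt j), add_zero]
  -- residues
  have hres : ∀ p : ℕ, ∃ r : ℕ, p ∈ c.Pp z P1 → ¬ p ∣ r ∧
      ∀ n, p ∣ a i * n + b i → a j * n + b j ≡ r [MOD p] := by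
    intro p
    by_cases h : ∃ n0, p ∣ a i * n0 + b i
    · obtain ⟨n0, h0⟩ := h
      refine ⟨a j * n0 + b j, fun hp => ?_⟩
      have hp' := (RC.mem_Pp.1 hp).1
      refine ⟨fun h1 => hij (hN.sep p n0 i j hp'.2.2 h0 h1), fun n h1 => ?_⟩
      have hco : p.Coprime (a i) := (Nat.Prime.coprime_iff_not_dvd hp'.2.2).2 fun h2 => by
        have := Nat.le_of_dvd (hN.pos i) h2; have := hN.le i; omega
      refine (Nat.ModEq.mul_left _ (Nat.ModEq.cancel_left_of_coprime (c := a i) hco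
        (Nat.ModEq.add_right_cancel' (b i) ?_))).add_right _
      exact (Nat.modEq_zero_iff_dvd.2 h1).trans (Nat.modEq_zero_iff_dvd.2 h0).symm
    · exact ⟨1, fun hp => ⟨(RC.mem_Pp.1 hp).1.2.2.not_dvd_one, fun n h1 => absurd ⟨n, h1⟩ h⟩⟩
  choose r hr using hres
  have sub1 : c.Pp z P1 ⊆ Ioc z P1 := fun p hp => mem_Ioc.2 ⟨(RC.mem_Pp.1 hp).1.1, (RC.mem_Pp.1 hp).1.2.1⟩
  have sub2 : c.Pp z H ⊆ Ioc z H := fun p hp => mem_Ioc.2 ⟨(RC.mem_Pp.1 hp).1.1, (RC.mem_Pp.1 hp).1.2.1⟩
  set X := a j * (2 * N) + b j with hX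
  set al : ℕ → ℝ := fun p => if p ∈ c.Pp z H then 1 else 0 with hal
  set BB : ℕ → ℕ := fun A => X / A + 1 with hBB
  -- step 1: pass to the bilinear form
  have step1 : ∀ p0 ∈ c.Pp z P1, ∀ A, z ≤ A → ∀ p ∈ Ioc A (2 * A),
      ∑ n ∈ Ico N (2 * N), (if p0 ∣ a i * n + b i then (1 : ℝ) else 0) *
        (if p ∣ a j * n + b j then β ((a j * n + b j) / p) else 0) * U n ≤
      ∑ m ∈ Ico 0 (0 + BB A), β m * G (p * m) * if p * m ≡ r p0 [MOD p0] then 1 else 0 := by
    intro p0 hp0 A hA p hp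
    have hp' := mem_Ioc.1 hp
    calc _ = ∑ n ∈ (Ico N (2 * N)).filter (fun n => p0 ∣ a i * n + b i ∧ p ∣ a j * n + b j),
          β ((a j * n + b j) / p) * G (p * ((a j * n + b j) / p)) *
            if p * ((a j * n + b j) / p) ≡ r p0 [MOD p0] then 1 else 0 := by
          rw [sum_filter]
          refine sum_congr rfl fun n _ => ?_
          by_cases h1 : p0 ∣ a i * n + b i <;> by_cases h2 : p ∣ a j * n + b j <;> simp only [h1, h2,
            if_true, if_false, and_self, and_false, false_and, mul_zero, zero_mul, one_mul]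
          rw [Nat.mul_div_cancel' h2, hGL, if_pos ((hr p0 hp0).2 n h1), mul_one]
      _ = ∑ m ∈ ((Ico N (2 * N)).filter (fun n => p0 ∣ a i * n + b i ∧ p ∣ a j * n + b j)).image
          (fun n => (a j * n + b j) / p), β m * G (p * m) *
            if p * m ≡ r p0 [MOD p0] then 1 else 0 := by
          rw [sum_image]
          intro n hn n' hn' h
          have h1 := Nat.mul_div_cancel' (mem_filter.1 hn).2.2
          have h2 := Nat.mul_div_cancel' (mem_filter.1 hn').2.2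
          simp only at h
          rw [h, h2] at h1
          exact (Nat.eq_of_mul_eq_mul_left ha (by omega)).symm
      _ ≤ _ := by
          refine sum_le_sum_of_subset_of_nonneg (fun m hm => ?_) fun m _ _ =>
            mul_nonneg (mul_nonneg (hβ m).1 (hG0 _)) (by split_ifs <;> norm_num)
          obtain ⟨n, hn, rfl⟩ := mem_image.1 hm
          have h1 := (mem_Ico.1 (mem_filter.1 hn).1).2
          simp only [mem_Ico, zero_le, true_and, zero_add, hBB]
          exact Nat.lt_succ_of_le (Nat.div_le_div (by rw [hX]; gcongr) hp'.1.le (by omega))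
  -- step 2: the main term
  have step2 : ∀ A, z ≤ A → A ≤ H → ∀ p ∈ Ioc A (2 * A), ∑ m ∈ Ico 0 (0 + BB A), β m * G (p * m) ≤
      ∑ n ∈ Ico 0 (5 * N), (if p ∣ a j * n + b j then c.gam ((a j * n + b j) / p) else 0) * U n := by
    intro A hA hAH p hp
    have hp' := mem_Ioc.1 hp
    have hp0 : 0 < p := by omega
    calc _ = ∑ m ∈ (Ico 0 (0 + BB A)).filter (fun m => (p * m) % a j = b j), β m * U (p * m / a j) := by
          rw [sum_filter]
          refine sum_congr rfl fun m _ => ?_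
          simp only [hG]; split_ifs <;> simp
      _ ≤ ∑ m ∈ (Ico 0 (0 + BB A)).filter (fun m => (p * m) % a j = b j),
          (if p ∣ a j * (p * m / a j) + b j then c.gam ((a j * (p * m / a j) + b j) / p) else 0) *
            U (p * m / a j) := by
          refine sum_le_sum fun m hm => mul_le_mul_of_nonneg_right ?_ (hU0 _)
          have : a j * (p * m / a j) + b j = p * m := by
            rw [← (mem_filter.1 hm).2]; exact Nat.div_add_mod _ _
          rw [this, if_pos (dvd_mul_right _ _), Nat.mul_div_cancel_left _ hp0]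
          exact hβγ m
      _ = ∑ n ∈ ((Ico 0 (0 + BB A)).filter (fun m => (p * m) % a j = b j)).image
          (fun m => p * m / a j),
          (if p ∣ a j * n + b j then c.gam ((a j * n + b j) / p) else 0) * U n := by
          rw [sum_image]
          intro m hm m' hm' h
          have h1 := Nat.div_add_mod (p * m) (a j)
          have h2 := Nat.div_add_mod (p * m') (a j)
          simp only at h
          rw [h, (mem_filter.1 hm).2] at h1
          rw [(mem_filter.1 hm').2] at h2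
          exact Nat.eq_of_mul_eq_mul_left hp0 (by omega)
      _ ≤ _ := by
          refine sum_le_sum_of_subset_of_nonneg (fun n hn => ?_) fun n _ _ => mul_nonneg ?_ (hU0 _)
          · obtain ⟨m, hm, rfl⟩ := mem_image.1 hn
            have h1 := (mem_Ico.1 (mem_filter.1 hm).1).2
            simp only [hBB, zero_add] at h1
            simp only [mem_Ico, zero_le, true_and]
            rw [Nat.div_lt_iff_lt_mul ha]
            have h2 : A * (X / A) ≤ X := Nat.mul_div_le _ _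
            have h3 : p * m ≤ 2 * A * (X / A) := Nat.mul_le_mul hp'.2 (by omega)
            have := hN.lt j
            nlinarith
          · split_ifs; exacts [c.gam_nonneg _, le_rfl]
  -- step 3: the error term
  set Err : ℝ := D1 * (v * D1 * (32 * D * (1 + Real.log (4 * H ^ 2 : ℕ)) * H ^ 2 / u ^ 8)) with hErr
  have hΛ : 0 ≤ 1 + Real.log (4 * H ^ 2 : ℕ) := by linarith [Real.log_natCast_nonneg (4 * H ^ 2)]
  have step3 : ∀ P, z ≤ P → P ≤ P1 → ∀ A, z ≤ A → A ≤ H →
      ∑ p0 ∈ (Ioc P (2 * P)).filter (· ∈ c.Pp z P1), ∑ p ∈ Ioc A (2 * A), ∑ m ∈ Ico 0 (0 + BB A),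
        al p * β m * G (p * m) * ((if p * m ≡ r p0 [MOD p0] then 1 else 0) - 1 / p0) ≤ Err := by
    intro P hP hP1 A hA hAH
    set Φ : Finset ℕ → ℕ → ℝ := fun T m =>
      if m % a j = b j then ∏ p ∈ T, ev a b univ p (m / a j) else 0 with hΦ
    have eG : ∀ m, G m = ∑ T ∈ (GP a w).powerset, s.up T * Φ T m := fun m => by
      simp only [hG, hΦ, hU, SieveW.U]; split_ifs <;> simp
    have eI : Ioc A (2 * A) = Ico (A + 1) (A + 1 + A) := by ext x; simp; omega
    calc _ = ∑ T ∈ (GP a w).powerset, s.up T * ∑ p0 ∈ (Ioc P (2 * P)).filter (· ∈ c.Pp z P1),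
          ∑ p ∈ Ico (A + 1) (A + 1 + A), ∑ m ∈ Ico 0 (0 + BB A),
            al p * β m * Φ T (p * m) * ((if p * m ≡ r p0 [MOD p0] then 1 else 0) - 1 / p0) := by
          simp_rw [eG, eI, mul_sum, sum_mul]
          symm
          rw [sum_comm]
          refine sum_congr rfl fun p0 _ => ?_
          rw [sum_comm]
          refine sum_congr rfl fun p _ => ?_
          rw [sum_comm]
          exact sum_congr rfl fun m _ => sum_congr rfl fun T _ => by ring
      _ ≤ _ := by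
          refine (le_abs_self _).trans (rem_le (fun p hp => (mem_GP.1 hp).2.1) s.abs_up s.supp_up
            (by positivity) fun T hT hTD => ?_)
          have hq : 0 < ∏ p ∈ T, p := prod_pos fun p hp => (mem_GP.1 (hT hp)).2.1.pos
          refine (abs_sum_le_sum_abs _ _).trans ((bilinear (P := P) (q := a j * ∏ p ∈ T, p) (M := D)
            (by omega) (Nat.mul_pos ha hq) ?_ ?_ (fun m => by rw [abs_of_nonneg (hβ m).1]; exact (hβ m).2)
            ?_ ?_ (fun p hp => (hr p (mem_filter.1 hp).2).1) _ _ _ _).trans ?_)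
          · intro p hp
            have h1 := mem_filter.1 hp
            exact mem_PP.2 ⟨(mem_Ioc.1 h1.1).1, (mem_Ioc.1 h1.1).2, (RC.mem_Pp.1 h1.2).1.2.2⟩
          · intro p; simp only [hal]; split_ifs <;> simp
          · intro m
            simp only [hΦ]
            split_ifs
            · rw [abs_of_nonneg (prod_nonneg fun _ _ => ev_nonneg _ _ _)]
              exact prod_le_one (fun _ _ => ev_nonneg _ _ _) fun _ _ => ev_le_one _ _ _
            · simp
          · intro m m' h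
            have h1 : m % a j = m' % a j := h.of_mul_right _
            simp only [hΦ, h1]
            split_ifs
            · refine prod_congr rfl fun p hp => ev_of_modEq _ (Nat.ModEq.of_dvd (dvd_prod_of_mem (fun p => p) hp) ?_)
              refine Nat.ModEq.mul_left_cancel' ha.ne' (Nat.ModEq.add_right_cancel' (m % a j) ?_)
              rw [Nat.div_add_mod, h1, Nat.div_add_mod]; exact h
            · rfl
          · have h1 := LS_bound (B := BB A) hu hz hP ((Nat.mul_le_mul_right _ hP1).trans hPH) hA hAH (by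
              have h2 : A * (X / A) ≤ X := Nat.mul_div_le _ _
              simp only [hBB]; nlinarith)
            refine mul_le_mul ?_ ?_ (by positivity) (by positivity)
            · exact_mod_cast Nat.mul_le_mul (hN.le j) hTD
            · calc _ = 4 * D * (√(LSc P A * A * (LSc P (BB A) * BB A)) / P) := by ring
                _ ≤ 4 * D * (8 * (1 + Real.log (4 * H ^ 2 : ℕ)) * H ^ 2 / u ^ 8) := by gcongr
                _ = _ := by ring
  -- assembling
  set M : ℕ → ℝ := fun p => ∑ n ∈ Ico 0 (5 * N),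
    (if p ∣ a j * n + b j then c.gam ((a j * n + b j) / p) else 0) * U n with hM
  set S1 := (range J).filter (fun α => z * 2 ^ α ≤ P1)
  set S2 := (range J).filter (fun α => z * 2 ^ α ≤ H)
  have hzz : ∀ α, z ≤ z * 2 ^ α := fun α => Nat.le_mul_of_pos_right _ (by positivity)
  calc _ = ∑ p0 ∈ c.Pp z P1, ∑ p ∈ c.Pp z H, ∑ n ∈ Ico N (2 * N),
        (if p0 ∣ a i * n + b i then (1 : ℝ) else 0) *
          (if p ∣ a j * n + b j then β ((a j * n + b j) / p) else 0) * U n := by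
        simp_rw [sum_mul_sum, sum_mul]
        rw [sum_comm]
        exact sum_congr rfl fun p0 _ => sum_comm
    _ ≤ ∑ p0 ∈ c.Pp z P1, ∑ α ∈ S2, ∑ p ∈ Ioc (z * 2 ^ α) (2 * (z * 2 ^ α)),
        (1 / p0 * (if p ∈ c.Pp z H then M p else 0) + ∑ m ∈ Ico 0 (0 + BB (z * 2 ^ α)),
          al p * β m * G (p * m) * ((if p * m ≡ r p0 [MOD p0] then 1 else 0) - 1 / p0)) := by
        refine sum_le_sum fun p0 hp0 => ?_
        rw [sum_dyadic sub2 hJ]
        refine sum_le_sum fun α hα => sum_le_sum fun p hp => ?_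
        simp only [hal]
        split_ifs with h1
        · refine (step1 p0 hp0 _ (hzz α) p hp).trans ?_
          have := mul_le_mul_of_nonneg_left (step2 _ (hzz α) (mem_filter.1 hα).2 p hp)
            (show (0 : ℝ) ≤ 1 / p0 by positivity)
          simp_rw [one_mul, mul_sub, sum_sub_distrib, ← sum_mul]
          linarith
        · simp
    _ = c.sig z P1 * ∑ p ∈ c.Pp z H, M p + ∑ α0 ∈ S1, ∑ α ∈ S2,
        ∑ p0 ∈ (Ioc (z * 2 ^ α0) (2 * (z * 2 ^ α0))).filter (· ∈ c.Pp z P1),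
          ∑ p ∈ Ioc (z * 2 ^ α) (2 * (z * 2 ^ α)), ∑ m ∈ Ico 0 (0 + BB (z * 2 ^ α)),
            al p * β m * G (p * m) * ((if p * m ≡ r p0 [MOD p0] then 1 else 0) - 1 / p0) := by
        simp_rw [sum_add_distrib, ← mul_sum]
        rw [← sum_mul, ← sum_dyadic sub2 hJ, sum_dyadic sub1 (hP1H.trans hJ) (fun p0 => ∑ α ∈ S2, _)]
        congr 1
        refine sum_congr rfl fun α0 _ => ?_
        rw [← sum_filter, sum_comm]
    _ ≤ _ := by
        gcongr
        have c1 : (S1.card : ℝ) ≤ J := by exact_mod_cast (card_filter_le _ _).trans (card_range J).le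
        have c2 : (S2.card : ℝ) ≤ J := by exact_mod_cast (card_filter_le _ _).trans (card_range J).le
        have hE : 0 ≤ Err := by positivity
        calc _ ≤ ∑ α0 ∈ S1, ∑ α ∈ S2, Err := sum_le_sum fun α0 h0 => sum_le_sum fun α h1 =>
              step3 _ (hzz _) (mem_filter.1 h0).2 _ (hzz _) (mem_filter.1 h1).2
          _ = S1.card * (S2.card * Err) := by simp
          _ ≤ J * (J * Err) := by gcongr
          _ = _ := by ring

end Pool.Agent.P.MP_746f10_nt
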