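import Mathlib
import Pool.Agent.P.MP_746f10_nt.Sys
import Pool.Agent.P.MP_746f10_nt.Cnt

/-! Mean values of the weights against one and two divisor sums. -/

set_option linter.unusedSectionVars false

namespace Pool.Agent.P.MP_746f10_nt

open Finset

/-- The local factor for a pair of divisor sums. -/
noncomputable def RC.f2 (c : RC) (p : ℕ) : ℝ := (1 - c.χ p / p) ^ 2 / (1 - (c.χ p / p) ^ 2)

lemma RC.f2_cases (c : RC) {p : ℕ} (hp : 3 ≤ p) :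
    (c.χ p = 0 ∧ c.f2 p = 1) ∨ (c.χ p = 1 ∧ c.f2 p = (p - 1) / (p + 1)) ∨
      (c.χ p = -1 ∧ c.f2 p = (p + 1) / (p - 1)) := by
  have h : (3 : ℝ) ≤ p := by exact_mod_cast hp
  have h1 : (p : ℝ) - 1 ≠ 0 := by linarith
  have h2 : (p : ℝ) + 1 ≠ 0 := by linarith
  have h3 : (p : ℝ) ^ 2 - 1 ≠ 0 := by nlinarith
  unfold RC.f2
  rcases c.val p with h0 | h0 | h0 <;> rw [h0]
  · simp
  · refine Or.inr (Or.inl ⟨rfl, ?_⟩); field_simp; ring
  · refine Or.inr (Or.inr ⟨rfl, ?_⟩); field_simp; ring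

lemma RC.f2_close (c : RC) {p : ℕ} (hp : 3 ≤ p) : |c.f2 p - 1| ≤ 3 / p := by
  have h : (3 : ℝ) ≤ p := by exact_mod_cast hp
  have h1 : 0 < (p : ℝ) - 1 := by linarith
  rcases c.f2_cases hp with ⟨-, h0⟩ | ⟨-, h0⟩ | ⟨-, h0⟩ <;> rw [h0]
  · simp; positivity
  · rw [show ((p : ℝ) - 1) / (p + 1) - 1 = -(2 / (p + 1)) by field_simp; ring, abs_neg,
      abs_of_nonneg (by positivity), div_le_div_iff₀ (by positivity) (by positivity)]; linarith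
  · rw [show ((p : ℝ) + 1) / (p - 1) - 1 = 2 / (p - 1) by field_simp; ring,
      abs_of_nonneg (by positivity), div_le_div_iff₀ (by positivity) (by positivity)]; linarith

lemma RC.ee_pair (c : RC) {ι : Type*} [DecidableEq ι] {i j : ι} (hij : i ≠ j) {p : ℕ} (hp : 3 ≤ p) :
    0 ≤ ee {i, j} c.f2 {i, j} p ∧ ee {i, j} c.f2 {i, j} p ≤ 4 / p ∧
      (c.χ p = -1 → ee {i, j} c.f2 {i, j} p ≤ 4 / p ^ 2) := by
  have h : (3 : ℝ) ≤ p := by exact_mod_cast hp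
  have h1 : 0 < (p : ℝ) - 1 := by linarith
  unfold ee
  rw [if_neg (by simp), card_pair hij]
  rcases c.f2_cases hp with ⟨h2, h0⟩ | ⟨h2, h0⟩ | ⟨h2, h0⟩ <;> rw [h0]
  · rw [show (1 : ℝ) - 1 * (1 - (2 : ℕ) / p) = 2 / p by push_cast; ring]
    exact ⟨by positivity, by gcongr; norm_num, fun h3 => by rw [h2] at h3; norm_num at h3⟩
  · rw [show (1 : ℝ) - (p - 1) / (p + 1) * (1 - (2 : ℕ) / p) = (4 * p - 2) / (p * (p + 1)) by
      push_cast; field_simp; ring]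
    refine ⟨div_nonneg (by linarith) (by positivity), ?_, fun h3 => by rw [h2] at h3; norm_num at h3⟩
    rw [div_le_div_iff₀ (by positivity) (by positivity)]; nlinarith
  · rw [show (1 : ℝ) - (p + 1) / (p - 1) * (1 - (2 : ℕ) / p) = 2 / (p * (p - 1)) by
      push_cast; field_simp; ring]
    refine ⟨by positivity, ?_, fun _ => ?_⟩ <;>
      rw [div_le_div_iff₀ (by positivity) (by positivity)] <;> nlinarith

lemma one_sub_sum_le_prod {α : Type*} [DecidableEq α] (s : Finset α) {x : α → ℝ}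
    (h : ∀ i ∈ s, 0 ≤ x i ∧ x i ≤ 1) : 1 - ∑ i ∈ s, x i ≤ ∏ i ∈ s, (1 - x i) := by
  induction s using Finset.induction_on with
  | empty => simp
  | insert q s hq ih =>
    rw [sum_insert hq, prod_insert hq]
    have h1 := h q (mem_insert_self _ _)
    have h2 := ih fun i hi => h i (mem_insert_of_mem hi)
    have h3 : 0 ≤ ∑ i ∈ s, x i := sum_nonneg fun i hi => (h i (mem_insert_of_mem hi)).1
    nlinarith [mul_le_mul_of_nonneg_left h2 (show 0 ≤ 1 - x q by linarith)]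

/-- The statement of equidistribution for one divisor sum. -/
def SingleSt (C : ℝ) : Prop := ∀ {ι : Type} [Fintype ι] [DecidableEq ι] (a b : ι → ℕ) (i : ι)
    (c : RC) (P : Finset ℕ) (p0 N1 N2 G Lvl : ℕ) (X : ℝ), 0 < a i → (a i).Coprime (b i) →
    c.r ∣ a i → c.χ (b i) = 1 → 0 < p0 → p0.Coprime (a i) → c.χ p0 = 1 →
    (∀ p ∈ P, p.Prime ∧ ¬ p ∣ a i ∧ p0.Coprime p) → N1 ≤ N2 → a i * Lvl ≤ G → (G : ℝ) ^ 128 ≤ X →
    ((a i * N2 + b i : ℕ) : ℝ) / p0 ≤ X →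
    HC a b (Ico N1 N2) (fun n => if p0 ∣ a i * n + b i then c.gam ((a i * n + b i) / p0) else 0)
      P {i} ((N2 - N1) / p0 * (2 * c.LL * ∏ p ∈ (a i).primeFactors, (1 - c.χ p / p)))
      (fun p => 1 - c.χ p / p) (C * X / G ^ 4) Lvl

/-- The statement of equidistribution for two divisor sums. -/
def PairSt (C : ℝ) : Prop := ∀ {ι : Type} [Fintype ι] [DecidableEq ι] (a b : ι → ℕ) (i j : ι)
    (c : RC) (P : Finset ℕ) (N1 N2 g Lvl : ℕ), 0 < a i → 0 < a j → (a i).Coprime (b i) →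
    (a j).Coprime (b j) → (∀ p, p.Prime → (p ∣ a i ↔ p ∣ a j)) →
    (∀ p n, p.Prime → p ∣ a i * n + b i → ¬ p ∣ a j * n + b j) →
    c.r ∣ a i → c.r ∣ a j → c.χ (b i) = 1 → c.χ (b j) = 1 → P ⊆ PP 0 (g ^ 64) →
    (∀ p ∈ P, ¬ p ∣ a i) → N1 ≤ N2 → 1 ≤ Lvl → a i * Lvl ≤ g → 2 * g ^ 64 ≤ a j * N1 + b j →
    a i * N2 + b i ≤ g ^ 128 → a j * N2 + b j ≤ g ^ 128 →
    HC a b (Ico N1 N2) (fun n => c.gam (a i * n + b i) * c.gam (a j * n + b j)) P {i, j}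
      ((N2 - N1) * (4 * c.LL ^ 2 * (∏ p ∈ (a i).primeFactors, (1 - c.χ p / p)) ^ 2 *
        ∏ p ∈ PP 0 (g ^ 64) \ (a i).primeFactors, (1 - (c.χ p / p) ^ 2)))
      (fun p => (1 - c.χ p / p) ^ 2 / (1 - (c.χ p / p) ^ 2)) (C * g ^ 126) Lvl

/-- The parameters of the argument with a real character that is one on all forms. -/
structure ParB {ι : Type} [Fintype ι] [DecidableEq ι] (a b : ι → ℕ) (c : RC)
    (k v w eu u z N D1 : ℕ) (ε Θ η C : ℝ) : Prop where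
  hN : Nrm a b (2 * (k + 3)) v
  hk : Fintype.card ι = k
  hk3 : 3 ≤ k
  hr : ∀ l, c.r ∣ a l
  hχ : ∀ l, c.χ (b l) = 1
  hvw : 6 * v ≤ w
  hu : u = w ^ eu
  heu : 1 ≤ eu
  hew : 6 * eu ≤ w
  huz : u ^ 32 ≤ z
  hx : N * w = z ^ 2048
  hD1 : D1 ≤ u
  hε : 0 ≤ ε
  hε1 : ε ≤ 1
  hΘ : Th w z ≤ Θ
  hη : 0 ≤ η
  hC : 1 ≤ C
  hδ : Θ ^ (5 * k + 8) * (3 * ε + 20 * eu / w + 20 * (k : ℝ) ^ 2 / w) ≤ η * (1 / 4) ^ k
  hE : Θ ^ (5 * k + 8) * C ≤ η * (1 / 4) ^ k * u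
  hCu : C ≤ u
  low1 : (z : ℝ) ^ 2048 / u ^ 2 ≤ N * c.ell w * Vk a w
  low2 : (z : ℝ) ^ 2048 / u ^ 2 ≤ N * c.ell w ^ 2 * Vk a w
  hS : SingleSt C
  hP : PairSt C

namespace ParB

variable {ι : Type} [Fintype ι] [DecidableEq ι] {a b : ι → ℕ} {c : RC} {k v w eu u z N D1 : ℕ}
  {ε Θ η C : ℝ} (h : ParB a b c k v w eu u z N D1 ε Θ η C)
include h

lemma w6 : 6 ≤ w := by have := h.hew; have := h.heu; omega

lemma vw : v ≤ w := by have := h.hvw; omega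

lemma wu : w ≤ u := by rw [h.hu]; exact Nat.le_self_pow (by have := h.heu; omega) w

lemma u1 : 1 ≤ u := by have := h.w6; have := h.wu; omega

lemma upow {j : ℕ} (hj : j ≤ 32) : u ^ j ≤ z := (Nat.pow_le_pow_right h.u1 hj).trans h.huz

lemma uz : u ≤ z := by simpa using h.upow (j := 1) (by norm_num)

lemma z1 : 1 ≤ z := h.u1.trans h.uz

lemma form_le (l : ι) {n : ℕ} (hn : n ≤ 5 * N) : a l * n + b l ≤ z ^ 2048 := by
  have h1 := h.hN.lt l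
  have h2 := h.hN.le l
  have h3 := h.hvw
  have h4 : 0 < N := Nat.pos_of_mul_pos_right (h.hx ▸ pow_pos h.z1 2048)
  rw [← h.hx]
  nlinarith [Nat.mul_le_mul h2 hn]

lemma N_ge : z ^ 2047 ≤ N := by
  have h1 : z ^ 2047 * w ≤ N * w := by
    rw [h.hx, pow_succ z 2047]; exact Nat.mul_le_mul_left _ (h.wu.trans h.uz)
  exact le_of_mul_le_mul_right h1 (by have := h.w6; omega)

lemma chi_form (l : ι) (n : ℕ) : c.χ (a l * n + b l) = 1 := by
  rw [← h.hχ l]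
  exact c.of_modEq (by
    simpa using (Nat.modEq_zero_iff_dvd.2 ((h.hr l).trans (dvd_mul_right _ n))).add_right (b l))

lemma err_le {E Y : ℝ} {D2 : ℕ} (hD2 : D2 ≤ z) (hE0 : 0 ≤ E) (hY : 0 ≤ Y)
    (hE : E ≤ C * (Y * z ^ 2048) / z ^ 32) {B : ℝ} (hB : (z : ℝ) ^ 2048 / u ^ 2 ≤ B) :
    Θ ^ (5 * k + 8) * (D2 * (D1 * (E * ((z ^ 4 : ℕ) : ℝ) ^ 2)) * (u : ℝ) ^ 2) ≤
      η * (1 / 4) ^ k * (Y * B) := by
  have hz : (1 : ℝ) ≤ z := by exact_mod_cast h.z1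
  have hu : (1 : ℝ) ≤ u := by exact_mod_cast h.u1
  have huz : (u : ℝ) ≤ z := by exact_mod_cast h.uz
  have h1 : (D2 : ℝ) ≤ z := by exact_mod_cast hD2
  have h2 : (D1 : ℝ) ≤ z := by exact_mod_cast h.hD1.trans h.uz
  have h3 : (u : ℝ) ^ 3 ≤ z ^ 20 := by
    have : (u : ℝ) ^ 3 ≤ z := by exact_mod_cast h.upow (j := 3) (by norm_num)
    exact this.trans (le_self_pow₀ hz (by norm_num))
  have hΘ : 0 ≤ Θ := by linarith [h.hΘ, one_le_Th w z]
  have hC := h.hC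
  have hη := h.hη
  calc _ ≤ Θ ^ (5 * k + 8) * (z * (z * (C * (Y * z ^ 2048) / z ^ 32 * ((z ^ 4 : ℕ) : ℝ) ^ 2)) *
        (z : ℝ) ^ 2) := by gcongr
    _ = Θ ^ (5 * k + 8) * C * (Y * (z ^ 2048 / z ^ 20)) := by push_cast; field_simp
    _ ≤ η * (1 / 4) ^ k * u * (Y * (z ^ 2048 / u ^ 3)) :=
        mul_le_mul h.hE (by gcongr) (by positivity) (by positivity)
    _ = η * (1 / 4) ^ k * (Y * (z ^ 2048 / u ^ 2)) := by field_simp
    _ ≤ _ := by gcongr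

lemma lvl {D2 : ℕ} (hD2 : D2 ≤ z) : D1 * (u ^ 2 * D2) ≤ z ^ 4 := by
  calc _ ≤ z * (z ^ 2 * z) := by gcongr; exacts [h.hD1.trans h.uz, h.uz]
    _ = _ := by ring

theorem pair (s : SieveW (GP a w) D1 (k + 3) ε) (s0 J : ℕ) {i j : ι} (hij : i ≠ j)
    {I2 : Finset ι} (hI2 : I2 = {i, j})
    {d : Finset ℕ → ℝ} (hd : ∀ T, |d T| ≤ 1) (hds : ∀ T ⊆ PP w z, d T ≠ 0 → ∏ p ∈ T, p ≤ z) :
    ∃ XV : ℝ, 2 * (N * c.ell w ^ 2 * Vk a w) ≤ XV ∧ XV ≤ 4 * (N * c.ell w ^ 2 * Vk a w) ∧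
    |∑ n ∈ Ico N (2 * N), c.gam (a i * n + b i) * c.gam (a j * n + b j) * rg a b w n *
        th2 (PP w z) d (fun p => ev a b I2 p n) * Fw a b w s0 J u {i, j}ᶜ n ^ 2 -
      XV * th2 (PP w z) d (ee {i, j} c.f2 I2) * JJ w s0 J u {i, j}ᶜ| ≤
      5 * η * (N * c.ell w ^ 2 * Vk a w) * JJ w s0 J u ({i, j}ᶜ : Finset ι) := by
  have hN := h.hN
  have hw6 := h.w6
  have hz1 := h.z1
  have : Nonempty ι := ⟨i⟩
  have hzz : z ≤ (z ^ 16) ^ 64 := by rw [← pow_mul]; exact Nat.le_self_pow (by norm_num) z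
  have hwz := h.wu.trans h.uz
  have hNz := h.N_ge
  have h1 := h.hP a b i j c (GP a z) N (2 * N) (z ^ 16) (z ^ 4) (hN.pos i) (hN.pos j) (hN.cop i)
    (hN.cop j) (fun p hp => ⟨hN.rad p i j hp, hN.rad p j i hp⟩)
    (fun p n hp h1 h2 => hij (hN.sep p n i j hp h1 h2)) (h.hr i) (h.hr j) (h.hχ i) (h.hχ j)
    (fun p hp => mem_PP.2 ⟨(mem_GP.1 hp).2.1.pos, (mem_GP.1 hp).1.trans hzz, (mem_GP.1 hp).2.1⟩)
    (fun p hp => (mem_GP.1 hp).2.2 i) (by omega) (Nat.one_le_pow _ _ hz1)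
    (by calc a i * z ^ 4 ≤ z * z ^ 4 := by gcongr; exact (hN.le i).trans (h.vw.trans hwz)
          _ = z ^ 5 := by ring
          _ ≤ _ := Nat.pow_le_pow_right hz1 (by norm_num))
    (by calc 2 * (z ^ 16) ^ 64 ≤ z * (z ^ 16) ^ 64 := by gcongr; omega
          _ = z ^ 1025 := by ring
          _ ≤ z ^ 2047 := Nat.pow_le_pow_right hz1 (by norm_num)
          _ ≤ _ := by nlinarith [hN.pos j])
    (by rw [← pow_mul]; exact h.form_le i (by omega)) (by rw [← pow_mul]; exact h.form_le j (by omega))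
  have hgt : ∀ p ∈ GP a z, 3 ≤ p := fun p hp => by have := hN.lt_of_mem hp; omega
  have hfac : ∀ p, p.Prime → 0 < 1 - (c.χ p / p) ^ 2 := fun p hp => by
    have h1 := c.fac_pos hp
    have h2 : (1 : ℝ) < p := by exact_mod_cast hp.one_lt
    have h3 : -1 < c.χ p / p := by rw [lt_div_iff₀ (by linarith)]; linarith [c.neg_one_le p]
    nlinarith
  have hC := h.hC
  have h2 := hN.master h.hk h.hk3 le_rfl h.vw (by omega) hwz le_rfl h1 (by positivity)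
    (mul_nonneg (by push_cast; linarith [(Nat.cast_nonneg N : (0 : ℝ) ≤ N)])
      (mul_nonneg (by positivity) (prod_nonneg fun p hp => (hfac p (PP_prime (mem_sdiff.1 hp).1)).le)))
    (fun n _ => mul_nonneg (c.gam_nonneg _) (c.gam_nonneg _)) s h.hε
    (fun p hp => c.f2_close (hgt p hp)) (fun h0 => absurd h0 (by simp)) (θ := rg a b w)
    (fun n => ⟨le_rfl, s.le_up _ fun p _ => ⟨ev_nonneg _ _ _, ev_le_one _ _ _⟩⟩) s0 J h.uz
    (I := {i, j}ᶜ) (I2 := I2) disjoint_compl_right (by rw [compl_compl]; exact card_le_two)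
    (Or.inl (by rw [hI2])) (by rw [hI2]; exact disjoint_compl_left)
    (fun p hp => by
      rw [hI2]
      have := c.ee_pair hij (hgt p (hN.PP_sub h.vw le_rfl hp))
      exact ⟨this.1, this.2.1⟩) hd hds (e := 2 * eu) (by rw [h.hu, ← pow_mul, mul_comm])
    (by have := h.hew; omega) (h.lvl le_rfl) h.hΘ
  set B := N * c.ell w ^ 2 * Vk a w with hB
  set Pi := ∏ p ∈ PP w ((z ^ 16) ^ 64), (1 - (c.χ p / p) ^ 2) with hPi
  have e1 : (((2 * N : ℕ) : ℝ) - N) * (4 * c.LL ^ 2 * (∏ p ∈ (a i).primeFactors, (1 - c.χ p / p)) ^ 2 *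
      ∏ p ∈ PP 0 ((z ^ 16) ^ 64) \ (a i).primeFactors, (1 - (c.χ p / p) ^ 2)) *
      (∏ p ∈ GP a w, (1 - c.χ p / p) ^ 2 / (1 - (c.χ p / p) ^ 2)) * Vk a w = 4 * B * Pi := by
    rw [hN.GP_split i h.vw (hwz.trans hzz), hB, RC.ell, ← hN.prod_split i h.vw, prod_div_distrib,
      prod_pow, ← hPi]
    have : ∏ p ∈ GP a w, (1 - (c.χ p / p) ^ 2) ≠ 0 :=
      prod_ne_zero_iff.2 fun p hp => (hfac p (mem_GP.1 hp).2.1).ne'
    generalize ∏ p ∈ GP a w, (1 - (c.χ p / p) ^ 2) = t at this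
    push_cast; field_simp; ring
  rw [e1] at h2
  have hB0 : 0 ≤ B := le_trans (by positivity) h.low2
  have p1 : Pi ≤ 1 := prod_le_one (fun p hp => (hfac p (PP_prime hp)).le) fun p _ => by
    linarith [sq_nonneg (c.χ p / p)]
  have p2 : 1 / 2 ≤ Pi := by
    refine le_trans ?_ (one_sub_sum_le_prod _ fun p hp => ⟨sq_nonneg _, by
      linarith [hfac p (PP_prime hp)]⟩)
    have q1 : ∑ p ∈ PP w ((z ^ 16) ^ 64), (c.χ p / p) ^ 2 ≤ 1 / w := by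
      refine le_trans (sum_le_sum fun p _ => ?_) (sum_PP_inv_sq_le w _ (by omega))
      rw [div_pow, ← sq_abs]
      gcongr
      exact pow_le_one₀ (abs_nonneg _) (c.abs_le p)
    have q2 : 1 / (w : ℝ) ≤ 1 / 2 := by gcongr; exact_mod_cast (by omega : 2 ≤ w)
    linarith
  refine ⟨4 * B * Pi, by nlinarith, by nlinarith, h2.trans ?_⟩
  have hJ := JJ_ge_four (κ := ι) (show 1 ≤ w by omega) s0 J h.u1 {i, j}ᶜ
  rw [h.hk] at hJ
  have h3 := h.err_le (E := C * ((z ^ 16 : ℕ) : ℝ) ^ 126) (Y := 1) le_rfl (by positivity) zero_le_one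
    (le_of_eq (by push_cast; field_simp)) h.low2
  have h4 := mul_le_mul_of_nonneg_left h.hδ (show 0 ≤ 4 * B * Pi by positivity)
  have hη := h.hη
  calc _ = 4 * B * Pi * (Θ ^ (5 * k + 8) * (3 * ε + 20 * eu / w + 20 * (k : ℝ) ^ 2 / w)) +
        Θ ^ (5 * k + 8) * (z * (D1 * (C * ((z ^ 16 : ℕ) : ℝ) ^ 126 * ((z ^ 4 : ℕ) : ℝ) ^ 2)) *
          (u : ℝ) ^ 2) := by push_cast; ring
    _ ≤ 4 * B * 1 * (η * (1 / 4) ^ k) + η * (1 / 4) ^ k * (1 * B) :=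
        add_le_add (h4.trans (by gcongr)) h3
    _ = 5 * η * B * (1 / 4) ^ k := by ring
    _ ≤ _ := by gcongr

lemma hc1 (i : ι) {p0 N1 N2 : ℕ} (hp : p0 ∈ c.Pp z (z ^ 1024)) (h1 : N1 ≤ N2) (h2 : N2 ≤ 5 * N) :
    HC a b (Ico N1 N2) (fun n => c.mu p0 (a i * n + b i)) (GP a z) {i}
      ((N2 - N1) / p0 * (2 * c.LL * ∏ p ∈ (a i).primeFactors, (1 - c.χ p / p)))
      (fun p => 1 - c.χ p / p) (C * (1 / p0 * z ^ 2048) / z ^ 32) (z ^ 4) := by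
  have hN := h.hN
  have hp' := RC.mem_Pp.1 hp
  have hwz := h.wu.trans h.uz
  have hp0 : (0 : ℝ) < p0 := by exact_mod_cast hp'.1.2.2.pos
  have := h.hS a b i c (GP a z) p0 N1 N2 (z ^ 8) (z ^ 4) (1 / p0 * z ^ 2048) (hN.pos i) (hN.cop i)
    (h.hr i) (h.hχ i) hp'.1.2.2.pos ((Nat.Prime.coprime_iff_not_dvd hp'.1.2.2).2 fun h3 => by
      have := Nat.le_of_dvd (hN.pos i) h3; have := hN.le i; have := h.vw; omega) hp'.2
    (fun p hp1 => ⟨(mem_GP.1 hp1).2.1, (mem_GP.1 hp1).2.2 i,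
      (Nat.coprime_primes hp'.1.2.2 (mem_GP.1 hp1).2.1).2 (by have := (mem_GP.1 hp1).1; omega)⟩) h1
    (by calc a i * z ^ 4 ≤ z * z ^ 4 := by gcongr; exact (hN.le i).trans (h.vw.trans hwz)
          _ = z ^ 5 := by ring
          _ ≤ _ := Nat.pow_le_pow_right h.z1 (by norm_num))
    (by rw [one_div_mul_eq_div, le_div_iff₀ hp0]
        exact_mod_cast (by
          calc (z ^ 8) ^ 128 * p0 ≤ (z ^ 8) ^ 128 * z ^ 1024 := by gcongr; exact hp'.1.2.1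
            _ = _ := by ring : (z ^ 8) ^ 128 * p0 ≤ z ^ 2048))
    (by rw [one_div_mul_eq_div]; gcongr; exact_mod_cast h.form_le i h2)
  rw [show ((z ^ 8 : ℕ) : ℝ) ^ 4 = z ^ 32 by push_cast; ring] at this
  exact this

lemma main1 (i : ι) (t : ℝ) : t * (2 * c.LL * ∏ p ∈ (a i).primeFactors, (1 - c.χ p / p)) *
    (∏ p ∈ GP a w, (1 - c.χ p / p)) = 2 * t * c.ell w := by
  rw [RC.ell, ← h.hN.prod_split i h.vw]; ring

theorem single (s : SieveW (GP a w) D1 (k + 3) ε) (s0 J : ℕ) {i : ι} {p0 : ℕ}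
    (hp : p0 ∈ c.Pp z (z ^ 1024)) {I I2 : Finset ι} (hI : i ∉ I) (hIc : Iᶜ.card ≤ 2) (hI2 : i ∉ I2)
    (hI3 : I2.card ≤ 1) (hII : Disjoint I I2) {Y : ℕ} (huY : u ≤ Y) (hY : Y ≤ z)
    {d : Finset ℕ → ℝ} (hd : ∀ T, |d T| ≤ 1) (hds : ∀ T ⊆ PP w Y, d T ≠ 0 → ∏ p ∈ T, p ≤ z) :
    ∑ n ∈ Ico N (2 * N), c.mu p0 (a i * n + b i) * rg a b w n *
        th2 (PP w Y) d (fun p => ev a b I2 p n) * Fw a b w s0 J u I n ^ 2 ≤
      1 / p0 * (N * c.ell w * Vk a w) * JJ w s0 J u I *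
        (2 * th2 (PP w Y) d (ee {i} (fun p => 1 - c.χ p / p) I2) + 3 * η) := by
  have hN := h.hN
  have hw6 := h.w6
  have hwz := h.wu.trans h.uz
  have hC := h.hC
  have hΘ : Th w Y ≤ Θ := by
    refine le_trans ?_ h.hΘ
    unfold Th; rw [prod_PP_split (h.wu.trans huY) hY]
    exact le_mul_of_one_le_right (zero_le_one.trans (one_le_Th w Y)) (one_le_Th Y z)
  have h2 := hN.master h.hk h.hk3 le_rfl h.vw (by omega) hwz hY
    (h.hc1 i hp (Nat.le_mul_of_pos_left N two_pos) (by omega)) (by positivity)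
    (mul_nonneg (div_nonneg (by push_cast; linarith [(Nat.cast_nonneg N : (0 : ℝ) ≤ N)])
      (Nat.cast_nonneg _)) (mul_nonneg (by linarith [c.LL_pos])
        (prod_nonneg fun p hp => (c.fac_pos (Nat.prime_of_mem_primeFactors hp)).le)))
    (fun n _ => c.mu_nonneg _ _) s h.hε (fun p _ => c.fac_close p) (fun h0 => absurd h0 (by simp))
    (θ := rg a b w)
    (fun n => ⟨le_rfl, s.le_up _ fun p _ => ⟨ev_nonneg _ _ _, ev_le_one _ _ _⟩⟩) s0 J huY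
    (I := I) (I2 := I2) (by simpa using hI) hIc (Or.inr (by simpa using hI2)) hII
    (fun p hp => by
      unfold ee
      rw [if_pos (by simpa using hI2)]
      have h1 := c.fac_pos (PP_prime hp)
      have h2 := c.fac_le (PP_prime hp)
      have h3 := PP_two hp
      have h4 : 1 / (p : ℝ) ≤ 1 := by rw [div_le_one (by linarith)]; linarith
      have h5 : (I2.card : ℝ) ≤ 1 := by exact_mod_cast hI3
      refine ⟨by positivity, ?_⟩
      calc _ ≤ 1 * (4 / (p : ℝ)) := by gcongr; linarith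
        _ = _ := one_mul _) hd hds (e := 2 * eu) (by rw [h.hu, ← pow_mul, mul_comm])
    (by have := h.hew; omega) (h.lvl le_rfl) hΘ
  rw [h.main1] at h2
  set B := N * c.ell w * Vk a w with hB
  have hB0 : 0 ≤ B := le_trans (by positivity) h.low1
  have e1 : 2 * ((((2 * N : ℕ) : ℝ) - N) / p0) * c.ell w * Vk a w = 2 * (1 / p0 * B) := by
    rw [hB]; push_cast; ring
  rw [e1] at h2
  have hJ := JJ_ge_four (κ := ι) (show 1 ≤ w by omega) s0 J h.u1 I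
  rw [h.hk] at hJ
  have h3 := h.err_le (E := C * (1 / p0 * z ^ 2048) / z ^ 32) (Y := 1 / p0) le_rfl (by positivity)
    (by positivity) le_rfl h.low1
  have h4 := mul_le_mul_of_nonneg_left h.hδ (show 0 ≤ 2 * (1 / p0 * B) by positivity)
  have hη := h.hη
  have h5 : Θ ^ (5 * k + 8) * (2 * (1 / p0 * B) * (3 * ε + 10 * ((2 * eu : ℕ) : ℝ) / w +
      20 * (k : ℝ) ^ 2 / w) + z * (D1 * (C * (1 / p0 * z ^ 2048) / z ^ 32 * ((z ^ 4 : ℕ) : ℝ) ^ 2)) *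
      (u : ℝ) ^ 2) ≤ 1 / p0 * B * JJ w s0 J u I * (3 * η) := by
    calc _ = 2 * (1 / p0 * B) * (Θ ^ (5 * k + 8) * (3 * ε + 20 * eu / w + 20 * (k : ℝ) ^ 2 / w)) +
        Θ ^ (5 * k + 8) * (z * (D1 * (C * (1 / p0 * z ^ 2048) / z ^ 32 * ((z ^ 4 : ℕ) : ℝ) ^ 2)) *
          (u : ℝ) ^ 2) := by push_cast; ring
      _ ≤ 2 * (1 / p0 * B) * (η * (1 / 4) ^ k) + η * (1 / 4) ^ k * (1 / p0 * B) := add_le_add h4 h3
      _ = 1 / p0 * B * (1 / 4) ^ k * (3 * η) := by ring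
      _ ≤ _ := by gcongr
  linarith [(abs_le.1 h2).2]

theorem upper1 (s : SieveW (GP a w) D1 (k + 3) ε) {i : ι} {p0 : ℕ} (hp : p0 ∈ c.Pp z (z ^ 1024)) :
    ∑ n ∈ Ico 0 (5 * N), c.mu p0 (a i * n + b i) * s.U (fun p => ev a b univ p n) ≤
      1 / p0 * (21 * (N * c.ell w * Vk a w)) := by
  have hN := h.hN
  have hwz := h.wu.trans h.uz
  have hC := h.hC
  have hu := fun p (hp : p ∈ GP a w) => hN.ee_univ h.hk h.hk3 le_rfl (Γ := {i})
    (f := fun p => 1 - c.χ p / p) (fun h0 => absurd h0 (by simp)) hp (c.fac_close p)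
  have h2 := (h.hc1 i hp (Nat.zero_le _) le_rfl).sieve1 (fun p hp => hN.good hp) (by positivity)
    (mul_nonneg (div_nonneg (by simp) (Nat.cast_nonneg _)) (mul_nonneg (by linarith [c.LL_pos])
        (prod_nonneg fun p hp => (c.fac_pos (Nat.prime_of_mem_primeFactors hp)).le)))
    (fun n _ => c.mu_nonneg _ _) (GP_mono a hwz) s (fun p hp => (hu p hp).2)
    (θ := fun n => s.U (fun p => ev a b univ p n))
    (fun n => ⟨s.le_up _ fun p _ => ⟨ev_nonneg _ _ _, ev_le_one _ _ _⟩, le_rfl⟩) (T := ∅) (by simp)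
    (by simp) (by simpa using (h.hD1.trans h.uz).trans (Nat.le_self_pow (by norm_num) z))
    (fun _ => ∅) (by simp) (by simp)
  have eV : ∏ p ∈ GP a w, (1 - (k : ℝ) / p) = Vk a w := by rw [Vk, h.hk]
  rw [prod_congr rfl fun p hp => (hu p hp).1, prod_mul_distrib, eV] at h2
  simp only [prod_empty, mul_one] at h2
  rw [← mul_assoc, h.main1] at h2
  set B := N * c.ell w * Vk a w with hB
  have hB0 : 0 ≤ B := le_trans (by positivity) h.low1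
  have e1 : 2 * ((((5 * N : ℕ) : ℝ) - (0 : ℕ)) / p0) * c.ell w * Vk a w = 10 * (1 / p0 * B) := by
    rw [hB]; push_cast; ring
  rw [e1] at h2
  have hz : (1 : ℝ) ≤ z := by exact_mod_cast h.z1
  have hu1 : (1 : ℝ) ≤ u := by exact_mod_cast h.u1
  have h3 : D1 * (C * (1 / p0 * z ^ 2048) / z ^ 32 * ((z ^ 4 : ℕ) : ℝ) ^ 2) ≤ 1 / p0 * B := by
    have a1 : (D1 : ℝ) ≤ u := by exact_mod_cast h.hD1
    have a2 : (u : ℝ) ^ 4 ≤ z ^ 24 := by
      have : (u : ℝ) ^ 4 ≤ z := by exact_mod_cast h.upow (j := 4) (by norm_num)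
      exact this.trans (le_self_pow₀ hz (by norm_num))
    calc _ ≤ u * (u * (1 / p0 * z ^ 2048) / z ^ 32 * ((z ^ 4 : ℕ) : ℝ) ^ 2) := by
          gcongr; exact h.hCu
      _ = 1 / p0 * (u ^ 2 * (z ^ 2048 / z ^ 24)) := by push_cast; field_simp
      _ ≤ 1 / p0 * (u ^ 2 * (z ^ 2048 / u ^ 4)) := by gcongr
      _ = 1 / p0 * (z ^ 2048 / u ^ 2) := by field_simp
      _ ≤ _ := by gcongr; exact h.low1
  have h4 := mul_le_of_le_one_left (show 0 ≤ 10 * (1 / p0 * B) by positivity) h.hε1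
  linarith [(abs_le.1 h2).2]

end ParB

end Pool.Agent.P.MP_746f10_nt
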