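import Mathlib
import Pool.Agent.P.MP_746f10_nt.Sys
import Pool.Agent.P.MP_746f10_nt.Cnt

/-! The pointwise classification of pairs of values. -/

set_option linter.unusedSectionVars false

namespace Pool.Agent.P.MP_746f10_nt

open Finset

open Classical in
/-- The divisor sum restricted to bounded rough numbers. -/
noncomputable def RC.bet (c : RC) (z e m : ℕ) : ℝ := if rough z m ∧ m ≤ z ^ (e + 1) then c.gam m else 0

lemma RC.gam_le_pow (c : RC) {z e m : ℕ} (h : rough z m) (hm : m ≤ z ^ (e + 1)) : c.gam m ≤ 2 ^ e := by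
  rcases eq_or_ne m 0 with rfl | h0
  · simp [RC.gam]
  · exact (c.gam_le m).trans (by exact_mod_cast card_divisors_le_of_rough e m h0 h hm)

lemma RC.bet_bound (c : RC) (z e m : ℕ) : 0 ≤ c.bet z e m ∧ c.bet z e m ≤ 2 ^ e := by
  unfold RC.bet; split_ifs with h
  · exact ⟨c.gam_nonneg m, c.gam_le_pow h.1 h.2⟩
  · exact ⟨le_rfl, by positivity⟩

lemma RC.bet_le (c : RC) (z e m : ℕ) : c.bet z e m ≤ c.gam m := by
  unfold RC.bet; split_ifs; exacts [le_rfl, c.gam_nonneg m]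

lemma sum_sqi_le {z : ℕ} (hz : 1 ≤ z) (x : ℕ) : ∑ m ∈ Icc 1 x, sqi z m ≤ x / z := by
  calc _ ≤ ∑ m ∈ Icc 1 x, ∑ p ∈ PP z x, if p ^ 2 ∣ m then (1 : ℝ) else 0 := by
        refine sum_le_sum fun m hm => ?_
        unfold sqi
        split_ifs with h
        · obtain ⟨p, h1, h2, h3⟩ := h
          have h4 := Nat.le_of_dvd (mem_Icc.1 hm).1 h3
          have := single_le_sum (s := PP z x) (a := p) (f := fun p => if p ^ 2 ∣ m then (1 : ℝ) else 0)
            (fun _ _ => by split_ifs <;> norm_num)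
            (mem_PP.2 ⟨h2, by nlinarith [(mem_Icc.1 hm).2], h1⟩)
          rwa [if_pos h3] at this
        · exact sum_nonneg fun _ _ => by split_ifs <;> norm_num
    _ ≤ ∑ p ∈ PP z x, x * (1 / (p : ℝ) ^ 2) := by
        rw [sum_comm]
        refine sum_le_sum fun p hp => ?_
        rw [sum_Icc_dvd (pow_pos (PP_prime hp).pos 2), mul_one_div]
        have := Nat.cast_div_le (α := ℝ) (m := x) (n := p ^ 2)
        rw [Nat.cast_pow] at this
        simpa using this
    _ ≤ _ := by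
        rw [← mul_sum, div_eq_mul_one_div]
        exact mul_le_mul_of_nonneg_left (sum_PP_inv_sq_le z x hz) (Nat.cast_nonneg x)

lemma RC.factor (c : RC) {z H m : ℕ} (h1 : 2 ≤ m) (hp : ¬ m.Prime) (hH : m ≤ H ^ 2) (hr : rough z m)
    (hs : sqi z m = 0) (hχ : c.χ m = 1) (hg : c.gam m ≠ 0) :
    m.minFac ∈ c.Pp z H ∧ c.gam m = 2 * c.gam (m / m.minFac) := by
  have hpp := Nat.minFac_prime (show m ≠ 1 by omega)
  have hd := Nat.minFac_dvd m
  have hz := hr _ hpp hd
  have hsq : ¬ m.minFac ∣ m / m.minFac := fun h => by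
    unfold sqi at hs
    rw [if_pos ⟨m.minFac, hpp, hz, by rw [sq]; exact Nat.mul_dvd_of_dvd_div hd h⟩] at hs
    norm_num at hs
  have e := c.gam_prime_mul hpp hsq
  rw [Nat.mul_div_cancel' hd] at e
  have h2 : c.χ m.minFac = 1 := by
    rcases c.val m.minFac with h | h | h
    · rw [← Nat.mul_div_cancel' hd, c.mul, h] at hχ; norm_num at hχ
    · exact h
    · rw [h] at e; simp at e; exact absurd e hg
  refine ⟨RC.mem_Pp.2 ⟨⟨hz, ?_, hpp⟩, h2⟩, by rw [e, h2]; norm_num⟩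
  exact Nat.pow_le_pow_iff_left (by norm_num) |>.1 ((Nat.minFac_sq_le_self (by omega) hp).trans hH)

variable {ι : Type*} [Fintype ι] [DecidableEq ι] {a b : ι → ℕ} {K v : ℕ}

theorem pointB (hN : Nrm a b K v) (c : RC) {w s0 J R z2 z P1 H e n : ℕ} (hRz : R ≤ z) (hz2 : z2 ≤ z)
    (hχ : ∀ l, c.χ (a l * n + b l) = 1) (hlo : ∀ l, z < a l * n + b l) (hz1 : 1 ≤ z)
    (hH : ∀ l, a l * n + b l ≤ H ^ 2) (he : H ^ 2 ≤ z ^ (e + 1)) (hP1 : H ^ 2 ≤ P1 ^ 3)
    {Fm : ℝ} (hF : ∀ I, |Fw a b w s0 J R I n| ≤ Fm) {U1 : ℝ} (hU1 : rg a b w n ≤ U1)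
    {U2 : ι → ℝ} (hU2 : ∀ j, ∏ p ∈ PP w z2, (1 - ev a b {j} p n) ≤ U2 j) {i j : ι} (hij : i ≠ j)
    (hpr : ¬ ((a i * n + b i).Prime ∧ (a j * n + b j).Prime)) :
    c.gam (a i * n + b i) * c.gam (a j * n + b j) * rg a b w n * Fw a b w s0 J R {i, j}ᶜ n ^ 2 ≤
      c.gam (a i * n + b i) * c.gam (a j * n + b j) * rg a b w n *
          (∑ p ∈ PP w z, ev a b {i, j} p n) * Fw a b w s0 J R {i, j}ᶜ n ^ 2 +
        (2 ^ e * Fm) ^ 2 * (sqi z (a i * n + b i) + sqi z (a j * n + b j)) +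
        4 * ((if (a j * n + b j).Prime then 1 else 0) * ∑ p ∈ c.Pp z H,
          c.mu p (a i * n + b i) * rg a b w n * Fw a b w s0 J R {i}ᶜ n ^ 2) +
        4 * ((if (a i * n + b i).Prime then 1 else 0) * ∑ p ∈ c.Pp z H,
          c.mu p (a j * n + b j) * rg a b w n * Fw a b w s0 J R {j}ᶜ n ^ 2) +
        8 * ∑ p ∈ c.Pp P1 H, c.mu p (a i * n + b i) * rg a b w n * U2 j *
          Fw a b w s0 J R {i, j}ᶜ n ^ 2 +
        2 * (2 ^ e * Fm) ^ 2 *
          ((∑ p ∈ c.Pp z P1, if p ∣ a i * n + b i then (1 : ℝ) else 0) *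
            (∑ p ∈ c.Pp z H, if p ∣ a j * n + b j then c.bet z e ((a j * n + b j) / p) else 0) * U1 +
          (∑ p ∈ c.Pp z P1, if p ∣ a j * n + b j then (1 : ℝ) else 0) *
            (∑ p ∈ c.Pp z H, if p ∣ a i * n + b i then c.bet z e ((a i * n + b i) / p) else 0) * U1) := by
  have hrg := rg_nonneg a b w n
  have hU10 : 0 ≤ U1 := hrg.trans hU1
  have hU20 : ∀ j, 0 ≤ U2 j := fun j =>
    le_trans (prod_nonneg fun p _ => by linarith [ev_le_one (a := a) (b := b) {j} p n]) (hU2 j)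
  have gi := c.gam_nonneg (a i * n + b i)
  have gj := c.gam_nonneg (a j * n + b j)
  set t := c.gam (a i * n + b i) * c.gam (a j * n + b j) * rg a b w n *
    Fw a b w s0 J R {i, j}ᶜ n ^ 2 with ht
  set A := ∑ p ∈ PP w z, ev a b {i, j} p n with hA
  have hA0 : 0 ≤ A := sum_nonneg fun _ _ => ev_nonneg _ _ _
  have n1 : 0 ≤ c.gam (a i * n + b i) * c.gam (a j * n + b j) * rg a b w n * A *
      Fw a b w s0 J R {i, j}ᶜ n ^ 2 := by positivity
  have n2 : 0 ≤ (2 ^ e * Fm) ^ 2 * (sqi z (a i * n + b i) + sqi z (a j * n + b j)) :=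
    mul_nonneg (sq_nonneg _) (add_nonneg (sqi_nonneg _ _) (sqi_nonneg _ _))
  have n3 : ∀ l l', 0 ≤ (if (a l' * n + b l').Prime then (1 : ℝ) else 0) * ∑ p ∈ c.Pp z H,
      c.mu p (a l * n + b l) * rg a b w n * Fw a b w s0 J R {l}ᶜ n ^ 2 := fun l l' =>
    mul_nonneg (by split_ifs <;> norm_num) (sum_nonneg fun p _ => by
      have := c.mu_nonneg p (a l * n + b l); positivity)
  have n4 : 0 ≤ ∑ p ∈ c.Pp P1 H, c.mu p (a i * n + b i) * rg a b w n * U2 j *
      Fw a b w s0 J R {i, j}ᶜ n ^ 2 := sum_nonneg fun p _ => by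
    have := c.mu_nonneg p (a i * n + b i); have := hU20 j; positivity
  have n5 : ∀ l l', 0 ≤ (∑ p ∈ c.Pp z P1, if p ∣ a l * n + b l then (1 : ℝ) else 0) *
      (∑ p ∈ c.Pp z H, if p ∣ a l' * n + b l' then c.bet z e ((a l' * n + b l') / p) else 0) * U1 :=
    fun l l' => mul_nonneg (mul_nonneg (sum_nonneg fun _ _ => by split_ifs <;> norm_num)
      (sum_nonneg fun _ _ => by split_ifs; exacts [(c.bet_bound _ _ _).1, le_rfl])) hU10
  have n6 := mul_nonneg (show 0 ≤ 2 * (2 ^ e * Fm) ^ 2 by positivity) (add_nonneg (n5 i j) (n5 j i))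
  by_cases h0 : t = 0
  · linarith [n3 i j, n3 j i]
  have g1 : c.gam (a i * n + b i) ≠ 0 := fun h => h0 (by simp [ht, h])
  have g2 : c.gam (a j * n + b j) ≠ 0 := fun h => h0 (by simp [ht, h])
  have g3 : rg a b w n ≠ 0 := fun h => h0 (by simp [ht, h])
  have g4 : rg a b w n = 1 := (rg_01 a b w n).resolve_left g3
  have t0 : 0 ≤ t := by positivity
  by_cases ha : ∃ p ∈ PP w z, ev a b {i, j} p n = 1
  · obtain ⟨p, hp, h1⟩ := ha
    have h2 : 1 ≤ A := h1 ▸ single_le_sum (f := fun p => ev a b {i, j} p n)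
      (fun _ _ => ev_nonneg _ _ _) hp
    have h3 : c.gam (a i * n + b i) * c.gam (a j * n + b j) * rg a b w n * A *
        Fw a b w s0 J R {i, j}ᶜ n ^ 2 = t * A := by rw [ht]; ring
    nlinarith [n3 i j, n3 j i]
  have hr : ∀ l ∈ ({i, j} : Finset ι), rough z (a l * n + b l) := fun l hl p hp hd => by
    by_contra h1
    exact ha ⟨p, mem_PP.2 ⟨hN.rough_of_rg g3 l p hp hd, by omega, hp⟩, ev_eq_one.2 ⟨l, hl, hd⟩⟩
  have ri := hr i (by simp)
  have rj := hr j (by simp)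
  have bi := c.gam_le_pow ri ((hH i).trans he)
  have bj := c.gam_le_pow rj ((hH j).trans he)
  have hF2 : ∀ I, Fw a b w s0 J R I n ^ 2 ≤ Fm ^ 2 := fun I => by
    rw [← sq_abs]; gcongr; exact hF I
  have h2e : (1 : ℝ) ≤ 2 ^ e := one_le_pow₀ (by norm_num)
  by_cases hs : sqi z (a i * n + b i) = 0 ∧ sqi z (a j * n + b j) = 0
  swap
  · have h1 : 1 ≤ sqi z (a i * n + b i) + sqi z (a j * n + b j) := by
      unfold sqi at hs ⊢; split_ifs at hs ⊢ <;> simp at hs ⊢
    have h2 : t ≤ (2 ^ e * Fm) ^ 2 := by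
      rw [ht, g4, mul_one]
      calc _ ≤ 2 ^ e * 2 ^ e * Fm ^ 2 :=
            mul_le_mul (by gcongr) (hF2 _) (sq_nonneg _) (by positivity)
        _ = _ := by ring
    nlinarith [n3 i j, n3 j i, sq_nonneg (2 ^ e * Fm)]
  have two : ∀ l, 2 ≤ a l * n + b l := fun l => by have := hlo l; omega
  -- one prime value
  have onep : ∀ l l', l ≠ l' → ¬ (a l * n + b l).Prime → (a l' * n + b l').Prime →
      rough z (a l * n + b l) → sqi z (a l * n + b l) = 0 → c.gam (a l * n + b l) ≠ 0 →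
      c.gam (a l * n + b l) * c.gam (a l' * n + b l') * rg a b w n *
        Fw a b w s0 J R {l, l'}ᶜ n ^ 2 ≤ 4 * ((if (a l' * n + b l').Prime then 1 else 0) *
          ∑ p ∈ c.Pp z H, c.mu p (a l * n + b l) * rg a b w n * Fw a b w s0 J R {l}ᶜ n ^ 2) := by
    intro l l' hne h1 h2 h3 h4 h5
    obtain ⟨f1, f2⟩ := c.factor (two l) h1 (hH l) h3 h4 (hχ l) h5
    have e1 : Fw a b w s0 J R {l}ᶜ n = Fw a b w s0 J R {l, l'}ᶜ n :=
      Fw_collapse a b w s0 J R (compl_subset_compl.2 (by simp)) fun x hx hx' p hp hd => by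
        have : x = l' := by simpa [mem_compl.1 hx, show x ≠ l by simpa using hx] using hx'
        subst this
        have := (Nat.prime_dvd_prime_iff_eq (PP_prime hp) h2).1 hd
        have := (mem_PP.1 hp).2.1
        have := hlo x
        omega
    have := single_le_sum (f := fun p => c.mu p (a l * n + b l) * rg a b w n *
      Fw a b w s0 J R {l}ᶜ n ^ 2) (fun p _ => by have := c.mu_nonneg p (a l * n + b l); positivity) f1
    simp only [RC.mu, if_pos (Nat.minFac_dvd _)] at this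
    rw [if_pos h2, one_mul, c.gam_prime h2, hχ l', f2, ← e1]
    simp only [RC.mu]
    linarith
  by_cases pj : (a j * n + b j).Prime
  · have := onep i j hij (fun h => hpr ⟨h, pj⟩) pj ri hs.1 g1
    linarith [n3 j i]
  by_cases pi : (a i * n + b i).Prime
  · have := onep j i hij.symm pj pi rj hs.2 g2
    rw [pair_comm j i, mul_comm (c.gam (a j * n + b j))] at this
    linarith [n3 i j]
  obtain ⟨i1, i2⟩ := c.factor (two i) pi (hH i) ri hs.1 (hχ i) g1
  obtain ⟨j1, j2⟩ := c.factor (two j) pj (hH j) rj hs.2 (hχ j) g2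
  have bil : ∀ l l', (a l * n + b l).minFac ∈ c.Pp z H → (a l * n + b l).minFac ≤ P1 →
      (a l' * n + b l').minFac ∈ c.Pp z H → rough z (a l' * n + b l') →
      c.gam ((a l' * n + b l') / (a l' * n + b l').minFac) ≤
      (∑ p ∈ c.Pp z P1, if p ∣ a l * n + b l then (1 : ℝ) else 0) *
      (∑ p ∈ c.Pp z H, if p ∣ a l' * n + b l' then c.bet z e ((a l' * n + b l') / p) else 0) * U1 := by
    intro l l' h1 h2 h3 h4
    have h5 := RC.mem_Pp.1 h1
    have a1 := single_le_sum (s := c.Pp z P1) (f := fun p => if p ∣ a l * n + b l then (1 : ℝ) else 0)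
      (fun _ _ => by split_ifs <;> norm_num) (RC.mem_Pp.2 ⟨⟨h5.1.1, h2, h5.1.2.2⟩, h5.2⟩)
    have a2 := single_le_sum (s := c.Pp z H)
      (f := fun p => if p ∣ a l' * n + b l' then c.bet z e ((a l' * n + b l') / p) else 0)
      (fun _ _ => by split_ifs; exacts [(c.bet_bound _ _ _).1, le_rfl]) h3
    simp only [if_pos (Nat.minFac_dvd _)] at a1 a2
    rw [RC.bet, if_pos ⟨fun p hp hd => h4 p hp (hd.trans (Nat.div_dvd_of_dvd (Nat.minFac_dvd _))),
      (Nat.div_le_self _ _).trans ((hH l').trans he)⟩] at a2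
    have := c.gam_nonneg ((a l' * n + b l') / (a l' * n + b l').minFac)
    calc _ = 1 * c.gam ((a l' * n + b l') / (a l' * n + b l').minFac) * 1 := by ring
      _ ≤ _ := mul_le_mul (mul_le_mul a1 a2 this (by linarith)) (g4.symm.le.trans hU1) zero_le_one
          (mul_nonneg (by linarith) (by linarith))
  have hFm : 2 ^ e * Fm ^ 2 ≤ (2 ^ e * Fm) ^ 2 := by
    rw [mul_pow]; gcongr; nlinarith
  by_cases ci : (a i * n + b i).minFac ≤ P1
  · have h1 := bil i j i1 ci j1 rj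
    have h2 : t ≤ 2 * (2 ^ e * Fm) ^ 2 * c.gam ((a j * n + b j) / (a j * n + b j).minFac) := by
      have := c.gam_nonneg ((a j * n + b j) / (a j * n + b j).minFac)
      rw [ht, g4, mul_one, j2]
      calc _ ≤ 2 ^ e * (2 * c.gam ((a j * n + b j) / (a j * n + b j).minFac)) * Fm ^ 2 :=
            mul_le_mul (by gcongr) (hF2 _) (sq_nonneg _) (by positivity)
        _ = 2 * (2 ^ e * Fm ^ 2) * c.gam ((a j * n + b j) / (a j * n + b j).minFac) := by ring
        _ ≤ _ := by gcongr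
    have h3 := mul_le_mul_of_nonneg_left (h1.trans (le_add_of_nonneg_right (n5 j i)))
      (show 0 ≤ 2 * (2 ^ e * Fm) ^ 2 by positivity)
    linarith [n3 i j, n3 j i]
  by_cases cj : (a j * n + b j).minFac ≤ P1
  · have h1 := bil j i j1 cj i1 ri
    have h2 : t ≤ 2 * (2 ^ e * Fm) ^ 2 * c.gam ((a i * n + b i) / (a i * n + b i).minFac) := by
      have := c.gam_nonneg ((a i * n + b i) / (a i * n + b i).minFac)
      rw [ht, g4, mul_one, i2]
      calc _ ≤ (2 * c.gam ((a i * n + b i) / (a i * n + b i).minFac)) * 2 ^ e * Fm ^ 2 :=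
            mul_le_mul (by gcongr) (hF2 _) (sq_nonneg _) (by positivity)
        _ = 2 * (2 ^ e * Fm ^ 2) * c.gam ((a i * n + b i) / (a i * n + b i).minFac) := by ring
        _ ≤ _ := by gcongr
    have h3 := mul_le_mul_of_nonneg_left (h1.trans (le_add_of_nonneg_left (n5 i j)))
      (show 0 ≤ 2 * (2 ^ e * Fm) ^ 2 by positivity)
    linarith [n3 i j, n3 j i]
  have h1 : c.gam (a j * n + b j) ≤ 2 ^ 2 := c.gam_le_pow (z := P1) (fun p hp hd =>
    lt_of_lt_of_le (not_le.1 cj) (Nat.minFac_le_of_dvd hp.two_le hd)) ((hH j).trans hP1)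
  have h2 : 1 ≤ U2 j := by
    refine le_trans (le_of_eq (prod_eq_one fun p hp => ?_).symm) (hU2 j)
    rw [ev_eq_zero.2, sub_zero]
    intro l hl hd
    rw [mem_singleton.1 hl] at hd
    have := rj p (PP_prime hp) hd
    have := (mem_PP.1 hp).2.1
    omega
  have h5 := RC.mem_Pp.1 i1
  have h3 := single_le_sum (s := c.Pp P1 H) (f := fun p => c.mu p (a i * n + b i) * rg a b w n * U2 j *
    Fw a b w s0 J R {i, j}ᶜ n ^ 2) (fun p _ => by
      have := c.mu_nonneg p (a i * n + b i); have := hU20 j; positivity)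
    (RC.mem_Pp.2 ⟨⟨not_le.1 ci, h5.1.2⟩, h5.2⟩)
  have h4 : t ≤ 8 * (c.mu (a i * n + b i).minFac (a i * n + b i) * rg a b w n * U2 j *
      Fw a b w s0 J R {i, j}ᶜ n ^ 2) := by
    have := c.gam_nonneg ((a i * n + b i) / (a i * n + b i).minFac)
    rw [ht, RC.mu, if_pos (Nat.minFac_dvd _), i2]
    calc _ = 2 * c.gam ((a i * n + b i) / (a i * n + b i).minFac) * c.gam (a j * n + b j) *
          rg a b w n * 1 * Fw a b w s0 J R {i, j}ᶜ n ^ 2 := by ring
      _ ≤ 2 * c.gam ((a i * n + b i) / (a i * n + b i).minFac) * 2 ^ 2 *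
          rg a b w n * U2 j * Fw a b w s0 J R {i, j}ᶜ n ^ 2 := by gcongr
      _ = _ := by ring
  linarith [n3 i j, n3 j i]

end Pool.Agent.P.MP_746f10_nt
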