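import Mathlib
import Pool.Agent.P.MP_746f10_nt.EstB
import Pool.Agent.P.MP_746f10_nt.BilB
import Pool.Agent.P.MP_746f10_nt.PointB

/-! Summing the pointwise classification. -/

set_option linter.unusedSectionVars false

namespace Pool.Agent.P.MP_746f10_nt

open Finset

lemma prod_cancel_le {w Y : ℕ} (hw : 4 ≤ w) (hY : w ≤ Y) (c : RC) :
    ∏ p ∈ PP w Y, (1 - (1 - c.χ p / p) / p) ≤ 2 / (VV w * Real.log Y) := by
  have hw' : (4 : ℝ) ≤ w := by exact_mod_cast hw
  have hl : 0 < Real.log Y := Real.log_pos (by exact_mod_cast (by omega : 1 < Y))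
  have h1 : ∏ p ∈ PP w Y, (1 - (1 - c.χ p / p) / p) ≤
      (∏ p ∈ PP w Y, (1 - 1 / (p : ℝ))) * Real.exp (∑ p ∈ PP w Y, 2 * (1 / (p : ℝ) ^ 2)) := by
    rw [Real.exp_sum, ← prod_mul_distrib]
    refine prod_le_prod (fun p hp => ?_) fun p hp => ?_
    · have h2 := PP_two hp
      have h3 := c.fac_le (PP_prime hp)
      have h4 : 1 / (p : ℝ) ≤ 1 := by rw [div_le_one (by linarith)]; linarith
      rw [sub_nonneg, div_le_one (by linarith)]; linarith
    · have h2 := PP_two hp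
      have h3 := c.fac_ge (PP_prime hp)
      have h4 := Real.add_one_le_exp (2 * (1 / (p : ℝ) ^ 2))
      have h5 := one_sub_inv_pos h2
      refine le_trans ?_ (mul_le_mul_of_nonneg_left h4 h5.le)
      have h6 : (1 - 1 / (p : ℝ)) / p ≤ (1 - c.χ p / p) / p := by gcongr
      have h7 : 1 - (1 - 1 / (p : ℝ)) / p ≤ (1 - 1 / p) * (2 * (1 / (p : ℝ) ^ 2) + 1) := by
        have : (1 - 1 / (p : ℝ)) * (2 * (1 / (p : ℝ) ^ 2) + 1) - (1 - (1 - 1 / (p : ℝ)) / p) =
            (p - 2) / p ^ 3 := by field_simp; ring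
        have : 0 ≤ ((p : ℝ) - 2) / p ^ 3 := div_nonneg (by linarith) (by positivity)
        linarith
      linarith
  have h2 : Real.exp (∑ p ∈ PP w Y, 2 * (1 / (p : ℝ) ^ 2)) ≤ 2 := by
    rw [← mul_sum]
    have h3 := sum_PP_inv_sq_le w Y (by omega)
    have h4 : 1 / (w : ℝ) ≤ 1 / 4 := by gcongr
    calc _ ≤ Real.exp (Real.log 2) := Real.exp_le_exp.2 (by linarith [Real.log_two_gt_d9])
      _ = 2 := Real.exp_log two_pos
  have h3 : (∏ p ∈ PP w Y, (1 - 1 / (p : ℝ))) * VV w = VV Y := by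
    unfold VV; rw [prod_PP_split (Nat.zero_le w) hY, mul_comm]
  have h4 := VV_mul_log_le' Y
  have h5 := VV_pos w
  have h6 : 0 ≤ ∏ p ∈ PP w Y, (1 - 1 / (p : ℝ)) :=
    prod_nonneg fun p hp => (one_sub_inv_pos (PP_two hp)).le
  rw [le_div_iff₀ (by positivity)]
  calc _ ≤ (∏ p ∈ PP w Y, (1 - 1 / (p : ℝ))) * 2 * (VV w * Real.log Y) := by
        gcongr; exact h1.trans (by gcongr)
    _ = 2 * (VV Y * Real.log Y) := by rw [← h3]; ring
    _ ≤ _ := by linarith

lemma RC.sig_mono (c : RC) (z : ℕ) {Y Y' : ℕ} (h : Y ≤ Y') : c.sig z Y ≤ c.sig z Y' :=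
  sum_le_sum_of_subset_of_nonneg (fun p hp => by
    rw [RC.mem_Pp] at hp ⊢; exact ⟨⟨hp.1.1, hp.1.2.1.trans h, hp.1.2.2⟩, hp.2⟩)
    fun _ _ _ => by positivity

namespace ParB

variable {ι : Type} [Fintype ι] [DecidableEq ι] {a b : ι → ℕ} {c : RC} {k v w eu u z N D1 : ℕ}
  {ε Θ η C : ℝ} (h : ParB a b c k v w eu u z N D1 ε Θ η C)
include h

lemma mean_a {i j : ι} (hij : i ≠ j) :
    ∑ p ∈ PP w z, ee {i, j} c.f2 {i, j} p ≤ 4 * c.sig w z + 4 / w := by
  classical
  have hw := h.w6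
  calc _ ≤ ∑ p ∈ PP w z, (4 * (if c.χ p = 1 then 1 / (p : ℝ) else 0) + 4 * (1 / (p : ℝ) ^ 2)) := by
        refine sum_le_sum fun p hp => ?_
        have hp' := mem_PP.1 hp
        obtain ⟨-, h2, h3⟩ := c.ee_pair hij (show 3 ≤ p by omega)
        have h4 : (0 : ℝ) ≤ 1 / p ^ 2 := by positivity
        rcases c.val p with h0 | h0 | h0
        · refine absurd h0 (c.ne p ((Nat.Prime.coprime_iff_not_dvd hp'.2.2).2 fun h5 => ?_))
          have := Nat.le_of_dvd (h.hN.pos i) (h5.trans (h.hr i))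
          have := h.hN.le i
          have := h.vw
          omega
        · rw [if_pos h0, mul_one_div]; linarith
        · rw [if_neg (by rw [h0]; norm_num), mul_one_div]; linarith [h3 h0]
    _ ≤ _ := by
        rw [sum_add_distrib, ← mul_sum, ← mul_sum, ← sum_filter, div_eq_mul_one_div 4 (w : ℝ)]
        gcongr
        · exact le_rfl
        · exact sum_PP_inv_sq_le w z (by omega)

lemma sum_sq (l : ι) : ∑ n ∈ Ico N (2 * N), sqi z (a l * n + b l) ≤ (z : ℝ) ^ 2048 / z := by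
  have hN1 : 1 ≤ N := (Nat.one_le_pow _ _ h.z1).trans h.N_ge
  have ha := h.hN.pos l
  calc _ = ∑ m ∈ (Ico N (2 * N)).image (fun n => a l * n + b l), sqi z m := by
        rw [sum_image]
        intro n _ n' _ e
        exact Nat.eq_of_mul_eq_mul_left ha (by simpa using e)
    _ ≤ ∑ m ∈ Icc 1 (z ^ 2048), sqi z m := by
        refine sum_le_sum_of_subset_of_nonneg (fun m hm => ?_) fun _ _ _ => sqi_nonneg _ _
        obtain ⟨n, hn, rfl⟩ := mem_image.1 hm
        have := mem_Ico.1 hn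
        exact mem_Icc.2 ⟨by nlinarith, h.form_le l (by omega)⟩
    _ ≤ _ := by have := sum_sqi_le h.z1 (z ^ 2048); rwa [Nat.cast_pow] at this

theorem pair_ineq (s : SieveW (GP a w) D1 (k + 3) ε) (s0 J : ℕ) {z2 P1 H e Jb : ℕ}
    (s2 : SieveW (PP w z2) z 2 1) (huz2 : u ≤ z2) (hz2 : z2 ≤ z) (hH : H = z ^ 1024) (hzP : z ≤ P1)
    (hP1 : P1 * (u ^ 2) ^ 8 ≤ H) (hP2 : H ^ 2 ≤ P1 ^ 3) (he : H ^ 2 ≤ z ^ (e + 1)) {Fm : ℝ}
    (hF : ∀ I, ∀ n ∈ Ico N (2 * N), |Fw a b w s0 J u I n| ≤ Fm) (hJb : H ≤ z * 2 ^ Jb)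
    (hJb2 : Jb ≤ u ^ 2) (hlog : 1 + Real.log (4 * H ^ 2 : ℕ) ≤ u ^ 2)
    (hbig : 1280 * (2 ^ e * Fm) ^ 2 * 2 ^ e * 4 ^ k ≤ u)
    (hσa : 16 * c.sig w z + 16 / w + 10 * η ≤ 1 / 10)
    (hσc : 8 * c.sig P1 H * (8 / (VV w * Real.log z2) + 3 * η) ≤ c.ell w / 5)
    (hσb : 840 * (2 ^ e * Fm) ^ 2 * 4 ^ k * c.sig z H ^ 2 ≤ c.ell w) {i j : ι} (hij : i ≠ j)
    (hno : ∀ n ∈ Ico N (2 * N), ¬ ((a i * n + b i).Prime ∧ (a j * n + b j).Prime)) :
    (N * c.ell w ^ 2 * Vk a w) * JJ w s0 J u ({i, j}ᶜ : Finset ι) ≤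
      4 * ∑ n ∈ Ico N (2 * N), (if (a j * n + b j).Prime then 1 else 0) * ∑ p ∈ c.Pp z H,
          c.mu p (a i * n + b i) * rg a b w n * Fw a b w s0 J u {i}ᶜ n ^ 2 +
      4 * ∑ n ∈ Ico N (2 * N), (if (a i * n + b i).Prime then 1 else 0) * ∑ p ∈ c.Pp z H,
          c.mu p (a j * n + b j) * rg a b w n * Fw a b w s0 J u {j}ᶜ n ^ 2 := by
  have hN := h.hN
  have hw6 := h.w6
  have hz1 := h.z1
  have hNz := h.N_ge
  have hwz := h.wu.trans h.uz
  have hH2 : H ^ 2 = z ^ 2048 := by rw [hH, ← pow_mul]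
  have hzN : z ≤ N := (Nat.le_self_pow (by norm_num) z).trans hNz
  have hpt := sum_le_sum fun n (hn : n ∈ Ico N (2 * N)) => pointB hN c (w := w) (s0 := s0) (J := J)
    (e := e) (n := n) (P1 := P1) h.uz hz2 (fun l => h.chi_form l n)
    (fun l => by
      have := (mem_Ico.1 hn).1
      have h1 := hN.small 2 l Nat.prime_two (by omega)
      have := Nat.le_of_dvd (hN.pos l) h1
      nlinarith) hz1
    (fun l => hH2 ▸ h.form_le l (by have := (mem_Ico.1 hn).2; omega)) he hP2 (fun I => hF I n hn)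
    (U1 := s.U (fun p => ev a b univ p n))
    (s.le_up _ fun p _ => ⟨ev_nonneg _ _ _, ev_le_one _ _ _⟩)
    (U2 := fun j => th2 (PP w z2) s2.up (fun p => ev a b {j} p n))
    (fun j => s2.le_up _ fun p _ => ⟨ev_nonneg _ _ _, ev_le_one _ _ _⟩) hij (hno n hn)
  simp only [sum_add_distrib, ← mul_sum] at hpt
  set B := N * c.ell w ^ 2 * Vk a w with hB
  set B1 := N * c.ell w * Vk a w with hB1
  have eB : B = B1 * c.ell w := by rw [hB, hB1]; ring
  set Jij := JJ w s0 J u ({i, j}ᶜ : Finset ι) with hJij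
  have hJ : (1 / 4 : ℝ) ^ k ≤ Jij := by
    have := JJ_ge_four (κ := ι) (show 1 ≤ w by omega) s0 J h.u1 {i, j}ᶜ
    rwa [h.hk] at this
  have hJ0 : 0 < Jij := lt_of_lt_of_le (by positivity) hJ
  have hz : (1 : ℝ) ≤ z := by exact_mod_cast hz1
  have hu : (1 : ℝ) ≤ u := by exact_mod_cast h.u1
  have hB0 : 0 < B := lt_of_lt_of_le (by positivity) h.low2
  have hB10 : 0 < B1 := lt_of_lt_of_le (by positivity) h.low1
  have hη := h.hη
  have h4k : (4 : ℝ) ^ k * (1 / 4) ^ k = 1 := by rw [← mul_pow]; norm_num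
  have h4J : 1 ≤ 4 ^ k * Jij := by rw [← h4k]; gcongr
  set G : ℝ := (2 ^ e * Fm) ^ 2 with hG
  have hG0 : 0 ≤ G := sq_nonneg _
  have h2e : (1 : ℝ) ≤ 2 ^ e := one_le_pow₀ (by norm_num)
  -- the main term
  obtain ⟨X0, x1, -, x3⟩ := h.pair s s0 J hij rfl (d := fun T => if T = ∅ then 1 else 0)
    (fun T => by split_ifs <;> simp) (fun T _ hT => by
      rw [show T = ∅ by by_contra h0; simp [h0] at hT]; simpa using hz1)
  simp only [th2_empty, mul_one] at x3
  rw [← hB] at x1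
  rw [← hB, ← hJij] at x3
  have t0 := (abs_le.1 x3).1
  have t0' := mul_le_mul_of_nonneg_right x1 hJ0.le
  -- small prime factors
  obtain ⟨Xa, -, y2, y3⟩ := h.pair s s0 J hij rfl (d := fun T => if T.card = 1 then 1 else 0)
    (fun T => by split_ifs <;> simp) (fun T hT hT1 => by
      obtain ⟨p, rfl⟩ := card_eq_one.1 (show T.card = 1 by by_contra h0; simp [h0] at hT1)
      simpa using (mem_PP.1 (hT (mem_singleton_self p))).2.1)
  simp only [th2_single] at y3
  rw [← hB] at y2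
  rw [← hB, ← hJij] at y3
  have ta := (abs_le.1 y3).2
  have ta' : Xa * (∑ p ∈ PP w z, ee {i, j} c.f2 {i, j} p) * Jij ≤
      4 * B * (4 * c.sig w z + 4 / w) * Jij := by
    refine mul_le_mul_of_nonneg_right (mul_le_mul y2 (h.mean_a hij) (sum_nonneg fun p hp =>
      (c.ee_pair hij (by have := (mem_PP.1 hp).1; omega)).1) (by positivity)) hJ0.le
  have ta'' := mul_le_mul_of_nonneg_left hσa (show 0 ≤ B * Jij by positivity)
  -- squares
  have tsq : G * (∑ n ∈ Ico N (2 * N), sqi z (a i * n + b i) +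
      ∑ n ∈ Ico N (2 * N), sqi z (a j * n + b j)) ≤ B * Jij / 10 := by
    have h1 : (u : ℝ) ^ 3 ≤ z := by exact_mod_cast h.upow (j := 3) (by norm_num)
    calc _ ≤ G * (z ^ 2048 / u ^ 3 + z ^ 2048 / u ^ 3) := by
          gcongr
          · exact (h.sum_sq i).trans (by gcongr)
          · exact (h.sum_sq j).trans (by gcongr)
      _ = (20 * G * 1) / u * (z ^ 2048 / u ^ 2) / 10 := by field_simp; ring
      _ ≤ (20 * G * (4 ^ k * Jij)) / u * B / 10 := by gcongr; exact h.low2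
      _ = (20 * G * 1 * 4 ^ k) / u * (B * Jij) / 10 := by ring
      _ ≤ 1 * (B * Jij) / 10 := by
          gcongr; rw [div_le_one (by linarith)]; exact le_trans (by gcongr; norm_num) hbig
      _ = _ := by ring
  -- two large prime factors
  have tc : 8 * ∑ n ∈ Ico N (2 * N), ∑ p ∈ c.Pp P1 H, c.mu p (a i * n + b i) * rg a b w n *
      th2 (PP w z2) s2.up (fun p => ev a b {j} p n) * Fw a b w s0 J u {i, j}ᶜ n ^ 2 ≤
      B * Jij / 5 := by
    have hth : th2 (PP w z2) s2.up (ee {i} (fun p => 1 - c.χ p / p) {j}) ≤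
        4 / (VV w * Real.log z2) := by
      have e1 : ∀ p, ee {i} (fun p => 1 - c.χ p / p) ({j} : Finset ι) p = (1 - c.χ p / p) / p :=
        fun p => by unfold ee; rw [if_pos (by simpa using hij)]; simp
      have := s2.up_le (ee {i} (fun p => 1 - c.χ p / p) {j}) fun p hp => by
        have h1 := c.fac_pos (PP_prime hp)
        have h2 := c.fac_le (PP_prime hp)
        have h3 := PP_two hp
        have h4 : 1 / (p : ℝ) ≤ 1 / 2 := by gcongr
        rw [e1]
        refine ⟨by positivity, by gcongr; linarith, ?_⟩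
        rw [div_le_iff₀ (by linarith)]; linarith
      refine this.trans ?_
      simp only [e1]
      have := prod_cancel_le (show 4 ≤ w by omega) (h.wu.trans huz2) c
      calc _ ≤ (1 + 1) * (2 / (VV w * Real.log z2)) := by gcongr
        _ = _ := by ring
    rw [sum_comm]
    calc _ ≤ 8 * ∑ p ∈ c.Pp P1 H, 1 / (p : ℝ) * (B1 * Jij * (8 / (VV w * Real.log z2) + 3 * η)) := by
          refine mul_le_mul_of_nonneg_left (sum_le_sum fun p hp => ?_) (by norm_num)
          have hp' := RC.mem_Pp.1 hp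
          refine (h.single s s0 J (i := i) (p0 := p) (I := {i, j}ᶜ) (I2 := {j})
            (RC.mem_Pp.2 ⟨⟨by omega, hH ▸ hp'.1.2.1, hp'.1.2.2⟩, hp'.2⟩) (by simp)
            (by rw [compl_compl]; exact card_le_two) (by simpa using hij) (by simp) (by simp)
            huz2 hz2 s2.abs_up s2.supp_up).trans ?_
          have e8 : 8 / (VV w * Real.log z2) = 2 * (4 / (VV w * Real.log z2)) := by ring
          calc _ ≤ 1 / (p : ℝ) * B1 * Jij * (8 / (VV w * Real.log z2) + 3 * η) :=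
                mul_le_mul_of_nonneg_left (by linarith) (by positivity)
            _ = _ := by ring
      _ = B1 * Jij * (8 * c.sig P1 H * (8 / (VV w * Real.log z2) + 3 * η)) := by
          rw [← sum_mul, RC.sig]; ring
      _ ≤ B1 * Jij * (c.ell w / 5) := by gcongr
      _ = _ := by rw [eB]; ring
  -- the bilinear terms
  have tb : ∀ i j : ι, i ≠ j → 2 * G * ∑ n ∈ Ico N (2 * N),
      (∑ p ∈ c.Pp z P1, if p ∣ a i * n + b i then (1 : ℝ) else 0) *
      (∑ p ∈ c.Pp z H, if p ∣ a j * n + b j then c.bet z e ((a j * n + b j) / p) else 0) *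
        s.U (fun p => ev a b univ p n) ≤ B * Jij / 10 := by
    intro i j hij
    have h1 := bilB hN c hij s (β := c.bet z e) (c.bet_bound z e) (c.bet_le z e) (u := u ^ 2)
      (z := z) (P1 := P1) (H := H) (N := N) (J := Jb) (Nat.one_le_pow _ _ h.u1)
      (by rw [← pow_mul]; exact h.huz) (h.vw.trans hwz) hP1 (hH2 ▸ h.form_le j (by omega))
      (by calc 2 * H + 2 ≤ z * H := by nlinarith [show 1 ≤ H from hH ▸ Nat.one_le_pow _ _ hz1]
            _ = z ^ 1025 := by rw [hH, ← pow_succ']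
            _ ≤ z ^ 2047 := Nat.pow_le_pow_right hz1 (by norm_num)
            _ ≤ N := hNz) hJb
    have h2 : ∑ p ∈ c.Pp z H, ∑ n ∈ Ico 0 (5 * N),
        (if p ∣ a j * n + b j then c.gam ((a j * n + b j) / p) else 0) *
          s.U (fun p => ev a b univ p n) ≤ c.sig z H * (21 * B1) := by
      rw [RC.sig, sum_mul]
      exact sum_le_sum fun p hp => h.upper1 s (hH ▸ hp)
    have h3 : c.sig z P1 ≤ c.sig z H :=
      c.sig_mono z (le_trans (Nat.le_mul_of_pos_right _ (by have := h.u1; positivity)) hP1)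
    have h4 := c.sig_nonneg z H
    have h5 := c.sig_nonneg z P1
    have h6 : 2 * G * (c.sig z H * (c.sig z H * (21 * B1))) ≤ B * Jij / 20 := by
      calc _ = 840 * G * 1 * c.sig z H ^ 2 * B1 / 20 := by ring
        _ ≤ 840 * G * (4 ^ k * Jij) * c.sig z H ^ 2 * B1 / 20 := by gcongr
        _ = 840 * G * 4 ^ k * c.sig z H ^ 2 * (B1 * Jij) / 20 := by ring
        _ ≤ c.ell w * (B1 * Jij) / 20 := by gcongr
        _ = _ := by rw [eB]; ring
    have h7 : 2 * G * (Jb ^ 2 * (D1 * (v * D1 * (32 * 2 ^ e * (1 + Real.log (4 * H ^ 2 : ℕ)) *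
        H ^ 2 / ((u ^ 2 : ℕ) : ℝ) ^ 8)))) ≤ B * Jij / 20 := by
      have a1 : (Jb : ℝ) ≤ u ^ 2 := by exact_mod_cast hJb2
      have a2 : (D1 : ℝ) ≤ u := by exact_mod_cast h.hD1
      have a3 : (v : ℝ) ≤ u := by exact_mod_cast h.vw.trans h.wu
      have a4 : (H : ℝ) ^ 2 = z ^ 2048 := by exact_mod_cast hH2
      have a5 : 0 ≤ 1 + Real.log (4 * H ^ 2 : ℕ) := by linarith [Real.log_natCast_nonneg (4 * H ^ 2)]
      rw [a4]
      calc _ ≤ 2 * G * ((u ^ 2) ^ 2 * (u * (u * u * (32 * 2 ^ e * u ^ 2 *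
            z ^ 2048 / ((u ^ 2 : ℕ) : ℝ) ^ 8)))) := by gcongr
        _ = 1280 * G * 2 ^ e * 1 / u ^ 5 * (z ^ 2048 / u ^ 2) / 20 := by push_cast; field_simp; ring
        _ ≤ 1280 * G * 2 ^ e * (4 ^ k * Jij) / u * B / 20 := by
            gcongr; exacts [le_self_pow₀ hu (by norm_num), h.low2]
        _ = 1280 * G * 2 ^ e * 4 ^ k / u * (B * Jij) / 20 := by ring
        _ ≤ 1 * (B * Jij) / 20 := by gcongr; rwa [div_le_one (by linarith)]
        _ = _ := by ring
    have h8 := mul_le_mul_of_nonneg_left (h1.trans (add_le_add_left (mul_le_mul h3 h2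
      (sum_nonneg fun p _ => sum_nonneg fun n _ => mul_nonneg (c.mu_nonneg p _)
        (s.U_nonneg fun p _ => ⟨ev_nonneg _ _ _, ev_le_one _ _ _⟩)) h4) _))
      (show 0 ≤ 2 * G by positivity)
    linarith
  have tb1 := tb i j hij
  have tb2 := tb j i hij.symm
  have hBJ : 0 < B * Jij := by positivity
  have hs := c.sig_nonneg w z
  have : 4 * B * (4 * c.sig w z + 4 / w) * Jij + 10 * η * B * Jij =
      B * Jij * (16 * c.sig w z + 16 / w + 10 * η) := by ring
  linarith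

end ParB

end Pool.Agent.P.MP_746f10_nt
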