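import Mathlib
import Pool.Agent.P.MP_746f10_nt.SumB
import Pool.Agent.P.MP_746f10_nt.Sig

/-! Two prime values when a real character with a small value at one is trivial on all forms. -/

set_option linter.unusedSectionVars false

namespace Pool.Agent.P.MP_746f10_nt

open Finset

lemma exists_C : ∃ C : ℝ, 1 ≤ C ∧ SingleSt C ∧ PairSt C := by
  obtain ⟨C1, h1, hS⟩ := HC_single
  obtain ⟨C2, h2, hP⟩ := HC_pair
  refine ⟨C1 + C2, by linarith, ?_, ?_⟩
  · intro ι _ _ a b i c P p0 N1 N2 G Lvl X a1 a2 a3 a4 a5 a6 a7 a8 a9 a10 a11 a12 T t1 t2 d t3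
    refine (hS a b i c P p0 N1 N2 G Lvl X a1 a2 a3 a4 a5 a6 a7 a8 a9 a10 a11 a12 T t1 t2 d t3).trans ?_
    have : 0 ≤ X := le_trans (by positivity) a11
    gcongr; linarith
  · intro ι _ _ a b i j c P N1 N2 g Lvl a1 a2 a3 a4 a5 a6 a7 a8 a9 a10 a11 a12 a13 a14 a15 a16 a17
      a18 T t1 t2 d t3
    refine (hP a b i j c P N1 N2 g Lvl a1 a2 a3 a4 a5 a6 a7 a8 a9 a10 a11 a12 a13 a14 a15 a16 a17
      a18 T t1 t2 d t3).trans ?_
    gcongr; linarith

lemma sum_offDiag_le {ι : Type*} [Fintype ι] [DecidableEq ι] {π H : ι → ℝ} (hH : ∀ i, 0 ≤ H i)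
    (hπ : ∀ j, 0 ≤ π j) (h1 : ∑ j, π j ≤ 1) :
    ∑ x ∈ (univ : Finset ι).offDiag, (π x.2 * H x.1 + π x.1 * H x.2) ≤ 2 * ∑ i, H i := by
  calc _ ≤ ∑ x ∈ (univ : Finset ι) ×ˢ univ, (π x.2 * H x.1 + π x.1 * H x.2) :=
        sum_le_sum_of_subset_of_nonneg (fun _ _ => by simp) fun x _ _ =>
          add_nonneg (mul_nonneg (hπ _) (hH _)) (mul_nonneg (hπ _) (hH _))
    _ = 2 * ((∑ j, π j) * ∑ i, H i) := by
        rw [sum_add_distrib, sum_product_right, sum_product, sum_mul_sum]; ring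
    _ ≤ _ := by gcongr; exact mul_le_of_le_one_left (sum_nonneg fun i _ => hH i) h1

theorem ParB.two {ι : Type} [Fintype ι] [DecidableEq ι] {a b : ι → ℕ} {c : RC}
    {k v w eu u z N D1 : ℕ} {ε Θ η C : ℝ} (h : ParB a b c k v w eu u z N D1 ε Θ η C)
    (s : SieveW (GP a w) D1 (k + 3) ε) {s0 J M1 z2 P1 H e Jb : ℕ} (hs0 : 1 ≤ s0) (heu : eu = s0 * M1)
    (hM1 : 4 * 2 ^ J ≤ M1) (hM2 : 8 * k * (J + 1) * CM ≤ M1)
    (s2 : SieveW (PP w z2) z 2 1) (huz2 : u ≤ z2) (hz2 : z2 ≤ z) (hH : H = z ^ 1024) (hzP : z ≤ P1)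
    (hP1 : P1 * (u ^ 2) ^ 8 ≤ H) (hP2 : H ^ 2 ≤ P1 ^ 3) (he : H ^ 2 ≤ z ^ (e + 1)) {Fm : ℝ}
    (hF : ∀ I, ∀ n ∈ Ico N (2 * N), |Fw a b w s0 J u I n| ≤ Fm) (hJb : H ≤ z * 2 ^ Jb)
    (hJb2 : Jb ≤ u ^ 2) (hlog : 1 + Real.log (4 * H ^ 2 : ℕ) ≤ u ^ 2)
    (hbig : 1280 * (2 ^ e * Fm) ^ 2 * 2 ^ e * 4 ^ k ≤ u)
    (hσa : 16 * c.sig w z + 16 / w + 10 * η ≤ 1 / 10)
    (hσc : 8 * c.sig P1 H * (8 / (VV w * Real.log z2) + 3 * η) ≤ c.ell w / 5)
    (hσb : 840 * (2 ^ e * Fm) ^ 2 * 4 ^ k * c.sig z H ^ 2 ≤ c.ell w)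
    (hσP : 240 * c.sig z H * a2 w s0 J u ≤ (k - 1) * c.ell w * a1 w s0 J u ^ 2) :
    ∃ n < 2 * N, ∃ i j, i ≠ j ∧ (a i * n + b i).Prime ∧ (a j * n + b j).Prime := by
  by_contra hno
  push Not at hno
  have hw6 := h.w6
  have hk3 := h.hk3
  obtain ⟨k2, hk2⟩ : ∃ k2, k = k2 + 2 := ⟨k - 2, by omega⟩
  have hu : u = w ^ (s0 * M1) := by rw [h.hu, heu]
  set A1 := a1 w s0 J u ^ 2 with hA1
  set A2 := a2 w s0 J u with hA2
  have hA2p : 0 < A2 := a2_pos (by omega) hs0 J (hu ▸ Nat.pow_le_pow_right (by omega)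
    (Nat.le_mul_of_pos_right _ (lt_of_lt_of_le (by positivity) hM1)))
  set B := N * c.ell w ^ 2 * Vk a w with hB
  set B1 := N * c.ell w * Vk a w with hB1
  have eB : B = B1 * c.ell w := by rw [hB, hB1]; ring
  have hz : (1 : ℝ) ≤ z := by exact_mod_cast h.z1
  have hu1 : (1 : ℝ) ≤ u := by exact_mod_cast h.u1
  have hB0 : 0 < B := lt_of_lt_of_le (by positivity) h.low2
  have hB10 : 0 < B1 := lt_of_lt_of_le (by positivity) h.low1
  set Hs : ι → ℕ → ℝ := fun i n => ∑ p ∈ c.Pp z H,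
    c.mu p (a i * n + b i) * rg a b w n * Fw a b w s0 J u {i}ᶜ n ^ 2 with hHs
  have hσ := c.sig_nonneg z H
  have hη := h.hη
  have hη1 : 3 * η ≤ 1 := by
    have := c.sig_nonneg w z
    have : (0 : ℝ) ≤ 16 / w := by positivity
    linarith
  have h1 : ∀ i, ∑ n ∈ Ico N (2 * N), Hs i n ≤ c.sig z H * (3 * B1 * (A1 * A2 ^ (k2 + 1))) := by
    intro i
    rw [hHs, sum_comm, RC.sig, sum_mul]
    refine sum_le_sum fun p hp => ?_
    have := h.single s s0 J (i := i) (p0 := p) (I := {i}ᶜ) (I2 := ∅) (hH ▸ hp) (by simp) (by simp)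
      (by simp) (by simp) (by simp) h.uz le_rfl (d := fun T => if T = ∅ then 1 else 0)
      (fun T => by split_ifs <;> simp) (fun T _ hT => by
        rw [show T = ∅ by by_contra h0; simp [h0] at hT]; simpa using h.z1)
    simp only [th2_empty, mul_one] at this
    refine this.trans ?_
    have hJ := JJ_le w s0 J u ({i}ᶜ : Finset ι)
    rw [compl_compl, card_singleton, pow_one, card_compl, card_singleton, h.hk, hk2] at hJ
    calc _ ≤ 1 / (p : ℝ) * B1 * (A1 * A2 ^ (k2 + 1)) * 3 :=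
          mul_le_mul (mul_le_mul_of_nonneg_left hJ (by positivity)) (by linarith) (by linarith)
            (by positivity)
      _ = _ := by ring
  have h2 : ∀ x ∈ (univ : Finset ι).offDiag, B * (A1 ^ 2 * A2 ^ k2 / 2) ≤
      4 * ∑ n ∈ Ico N (2 * N), ((if (a x.2 * n + b x.2).Prime then 1 else 0) * Hs x.1 n +
        (if (a x.1 * n + b x.1).Prime then 1 else 0) * Hs x.2 n) := by
    intro x hx
    have hx' := (mem_offDiag.1 hx).2.2
    have := h.pair_ineq s s0 J s2 huz2 hz2 hH hzP hP1 hP2 he hF hJb hJb2 hlog hbig hσa hσc hσb hx'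
      fun n hn h3 => hno n (mem_Ico.1 hn).2 _ _ hx' h3.1 h3.2
    rw [sum_add_distrib, mul_add]
    refine le_trans (mul_le_mul_of_nonneg_left ?_ hB0.le) this
    have hJ := JJ_ge (w := w) (I := ({x.1, x.2}ᶜ : Finset ι)) (by omega) hs0
      (by rw [compl_compl]; exact card_le_two) hM1 (by rw [h.hk]; exact hM2)
    rwa [← hu, compl_compl, card_compl, card_pair hx', h.hk, hk2] at hJ
  have h3 := sum_le_sum h2
  rw [sum_const, offDiag_card, card_univ, h.hk, ← mul_sum, sum_comm, nsmul_eq_mul,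
    Nat.cast_sub (Nat.le_mul_self k)] at h3
  have h4 : ∑ n ∈ Ico N (2 * N), ∑ x ∈ (univ : Finset ι).offDiag,
      ((if (a x.2 * n + b x.2).Prime then 1 else 0) * Hs x.1 n +
        (if (a x.1 * n + b x.1).Prime then 1 else 0) * Hs x.2 n) ≤
      2 * (k * (c.sig z H * (3 * B1 * (A1 * A2 ^ (k2 + 1))))) := by
    calc _ ≤ ∑ n ∈ Ico N (2 * N), 2 * ∑ i, Hs i n := sum_le_sum fun n hn =>
          sum_offDiag_le (π := fun j => if (a j * n + b j).Prime then 1 else 0)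
            (fun i => sum_nonneg fun p _ => by
              have := c.mu_nonneg p (a i * n + b i); have := rg_nonneg a b w n; positivity)
            (fun j => by split_ifs <;> norm_num)
            (sum_prime_le_one fun i j hij h3 => hno n (mem_Ico.1 hn).2 _ _ hij h3.1 h3.2)
      _ ≤ _ := by
          rw [← mul_sum, sum_comm]
          gcongr
          refine (sum_le_sum fun i _ => h1 i).trans ?_
          rw [sum_const, card_univ, h.hk, nsmul_eq_mul]
  have hk' : (3 : ℝ) ≤ k := by exact_mod_cast hk3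
  have hA1p : 0 < A1 := by
    have := gain (w := w) (J := J) (R := u) (by omega) hs0 (hu ▸ Nat.pow_le_pow_right (by omega)
      (Nat.mul_le_mul_left _ (by omega)))
    refine lt_of_lt_of_le ?_ this
    have := VV_pos w
    have : 0 < Real.log w := Real.log_pos (by exact_mod_cast (by omega : 1 < w))
    have := one_le_CM
    positivity
  have h5 := mul_le_mul_of_nonneg_left hσP (show 0 ≤ k * B1 * A1 * A2 ^ k2 / 10 by positivity)
  have h6 : 0 < k * (k - 1) * B * (A1 ^ 2 * A2 ^ k2) := by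
    have : (0 : ℝ) < k - 1 := by linarith
    positivity
  push_cast at h3
  rw [eB] at h3 h6
  rw [pow_succ A2] at h4
  linarith

theorem thmB : ∃ k E v0 : ℕ, ∃ η : ℝ, 0 < η ∧ 3 ≤ k ∧ ∀ {ι : Type} [Fintype ι] [DecidableEq ι]
    (a b : ι → ℕ) (c : RC) (v : ℕ), Fintype.card ι = k → v0 ≤ v → Nrm a b (2 * (k + 3)) v →
    (∀ l, c.r ∣ a l) → (∀ l, c.χ (b l) = 1) → c.ell v ≤ η →
    ∃ n ≤ v ^ E, ∃ i j, i ≠ j ∧ (a i * n + b i).Prime ∧ (a j * n + b j).Prime := by
  obtain ⟨C, hC, hS, hP⟩ := exists_C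
  obtain ⟨cw, vσ, hcw, hσ⟩ := sig_le
  obtain ⟨k02, hk02⟩ := exists_sieve 2 (by norm_num)
  obtain ⟨c0, hc0⟩ : ∃ c0 : ℕ, CM ≤ c0 := ⟨_, Nat.le_ceil _⟩
  have hCM := one_le_CM
  have hc01 : 1 ≤ c0 := by exact_mod_cast hCM.trans hc0
  obtain ⟨C0, hC0⟩ : ∃ C0, C0 = (c0 * cw) ^ 2 := ⟨_, rfl⟩
  have hC01 : 1 ≤ C0 := hC0 ▸ Nat.one_le_pow _ _ (Nat.mul_pos hc01 (by omega))
  obtain ⟨M, hM⟩ : ∃ M, M = 200000 * C0 := ⟨_, rfl⟩
  obtain ⟨E1, hE1⟩ : ∃ E1, E1 = M * (4 * (k02 + 0) + 6) := ⟨_, rfl⟩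
  have hME : M ≤ E1 := hE1 ▸ Nat.le_mul_of_pos_right _ (by omega)
  obtain ⟨J, hJ⟩ : ∃ J, J = 480 * 18 * 1024 * 64 * E1 * C0 * c0 ^ 2 := ⟨_, rfl⟩
  have hJ2 : 2 ≤ J := by
    have : 1 ≤ E1 * C0 * c0 ^ 2 := Nat.mul_pos (Nat.mul_pos (by omega) hC01) (by positivity)
    rw [hJ]; linarith only [this]
  obtain ⟨k, hk⟩ : ∃ k, k = 2 ^ J := ⟨_, rfl⟩
  have hk4 : 4 ≤ k := hk ▸ (Nat.pow_le_pow_right two_pos hJ2 : 2 ^ 2 ≤ 2 ^ J)
  obtain ⟨k0, hk0⟩ := exists_sieve (k + 3) (by positivity)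
  obtain ⟨M1, hM1⟩ : ∃ M1, M1 = 8 * k * (J + 1) * c0 := ⟨_, rfl⟩
  have hkM : 8 * k ≤ M1 := by
    rw [hM1, mul_assoc]; exact Nat.le_mul_of_pos_right _ (Nat.mul_pos (by omega) hc01)
  obtain ⟨m, hm⟩ := exists_pow_le (6 * 4 ^ k) (c0 * E1 * M1 * (4 * k0 + 6)) (c0 * E1 * M1 * 4)
    (5 * k + 9)
  obtain ⟨s0, hs0⟩ : ∃ s0, s0 = 4 * (k0 + m) + 6 := ⟨_, rfl⟩
  obtain ⟨eu, heu⟩ : ∃ eu, eu = s0 * M1 := ⟨_, rfl⟩
  have hMe : M1 ≤ eu := heu ▸ Nat.le_mul_of_pos_left _ (by omega)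
  have hse : s0 ≤ eu := heu ▸ Nat.le_mul_of_pos_right _ (by omega)
  obtain ⟨Θ, hΘ⟩ : ∃ Θ : ℝ, Θ = c0 * (eu * E1 : ℕ) := ⟨_, rfl⟩
  have hm' : 6 * 4 ^ k * Θ ^ (5 * k + 9) ≤ 2 ^ m := by
    rw [show c0 * E1 * M1 * (4 * k0 + 6) + c0 * E1 * M1 * 4 * m = c0 * (eu * E1) by
      rw [heu, hs0]; ring] at hm
    rw [hΘ]; exact_mod_cast hm
  have hc0' : (1 : ℝ) ≤ c0 := by exact_mod_cast hc01
  have hC0' : (1 : ℝ) ≤ C0 := by exact_mod_cast hC01
  have heu' : (1 : ℝ) ≤ eu := by exact_mod_cast (by omega : 1 ≤ eu)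
  have hcw' : (1 : ℝ) ≤ cw := by exact_mod_cast (by omega : 1 ≤ cw)
  have hE1' : 200000 * (C0 : ℝ) ≤ E1 := by exact_mod_cast hM ▸ hME
  have hΘ1 : 200000 * C0 * eu ≤ Θ := by
    rw [hΘ]; push_cast
    calc _ = 1 * (eu * (200000 * (C0 : ℝ))) := by ring
      _ ≤ _ := by gcongr
  have hΘ2 : 200000 ≤ Θ := le_trans (by nlinarith only [hC0', heu']) hΘ1
  obtain ⟨e, he⟩ : ∃ e, e = 2047 := ⟨_, rfl⟩
  obtain ⟨Fm, hFm⟩ : ∃ Fm : ℝ, Fm = Θ ^ k * 2 ^ (k * (eu * E1 * 2048)) := ⟨_, rfl⟩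
  obtain ⟨G, hG⟩ : ∃ G : ℝ, G = (2 ^ e * Fm) ^ 2 := ⟨_, rfl⟩
  have hG1 : 1 ≤ G := by
    rw [hG, hFm]
    exact one_le_pow₀ (one_le_mul_of_one_le_of_one_le (one_le_pow₀ (by norm_num))
      (one_le_mul_of_one_le_of_one_le (one_le_pow₀ (by linarith)) (one_le_pow₀ (by norm_num))))
  obtain ⟨K1, hK1⟩ : ∃ K1 : ℝ, K1 = 18 * 1024 * (eu * E1) := ⟨_, rfl⟩
  have hK11 : 1 ≤ K1 := by rw [hK1]; nlinarith only [heu', hE1', hC0']
  have h4k : (1 : ℝ) ≤ 4 ^ k := one_le_pow₀ (by norm_num)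
  obtain ⟨W1, hW1⟩ : ∃ W1 : ℝ, W1 = 2 * (20 * eu + 20 * k ^ 2) * Θ ^ (5 * k + 9) * 4 ^ k := ⟨_, rfl⟩
  obtain ⟨W2, hW2⟩ : ∃ W2 : ℝ, W2 = Θ ^ (5 * k + 9) * 4 ^ k * C := ⟨_, rfl⟩
  obtain ⟨W3, hW3⟩ : ∃ W3 : ℝ, W3 = 1280 * G * 2 ^ e * 4 ^ k := ⟨_, rfl⟩
  have hΘ0 : 0 < Θ := by linarith
  have w1 : 0 ≤ W1 := by rw [hW1]; positivity
  have w2 : C ≤ W2 := by
    rw [hW2]; exact le_mul_of_one_le_left (by linarith)
      (one_le_mul_of_one_le_of_one_le (one_le_pow₀ (by linarith)) h4k)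
  have w3 : 0 ≤ W3 := by rw [hW3]; positivity
  refine ⟨k, cw * (eu * E1 * 2048), vσ + 480 + 6 * eu + 2051 * E1 + ⌈W1 + W2 + W3⌉₊,
    1 / (840 * G * 4 ^ k * K1 ^ 2 * C0 * cw), by positivity, by omega, ?_⟩
  intro ι _ _ a b c v hcard hv hN hr hχ hη
  have : Nonempty ι := Fintype.card_pos_iff.1 (by omega)
  have hvW : W1 + W2 + W3 ≤ v := (Nat.le_ceil _).trans (by exact_mod_cast (by omega))
  obtain ⟨w, hw⟩ : ∃ w, w = v ^ cw := ⟨_, rfl⟩
  obtain ⟨u, hu⟩ : ∃ u, u = w ^ eu := ⟨_, rfl⟩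
  obtain ⟨z, hz⟩ : ∃ z, z = u ^ E1 := ⟨_, rfl⟩
  obtain ⟨H, hH⟩ : ∃ H, H = z ^ 1024 := ⟨_, rfl⟩
  have hz' : z = w ^ (eu * E1) := by rw [hz, hu, ← pow_mul]
  have hH' : H = u ^ (E1 * 1024) := by rw [hH, hz, ← pow_mul]
  have hvw : 480 * v ≤ w := by
    calc _ ≤ v ^ 2 := by rw [sq]; exact Nat.mul_le_mul_right _ (by omega)
      _ ≤ _ := hw ▸ Nat.pow_le_pow_right (by omega) (by omega)
  have hwu : w ≤ u := hu ▸ Nat.le_self_pow (by omega) w
  have huz : u ≤ z := hz ▸ Nat.le_self_pow (by omega) u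
  have hzH : z ≤ H := hH ▸ Nat.le_self_pow (by omega) z
  have hv' : (480 : ℝ) ≤ v := by exact_mod_cast (by omega : 480 ≤ v)
  have hvw' : 480 * (v : ℝ) ≤ w := by exact_mod_cast hvw
  have hwu' : (w : ℝ) ≤ u := by exact_mod_cast hwu
  have hrv : c.r ≤ v := (Nat.le_of_dvd (hN.pos (Classical.arbitrary ι)) (hr _)).trans (hN.le _)
  have hl := c.ell_pos w
  have hlv := c.ell_pos v
  have hVw := VV_pos w
  have hVv := VV_pos v
  have lv : 0 < Real.log v := Real.log_pos (by linarith)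
  have lw : Real.log w = cw * Real.log v := by rw [hw]; push_cast; rw [Real.log_pow]
  have lu : Real.log u = eu * Real.log w := by rw [hu]; push_cast; rw [Real.log_pow]
  have lz : Real.log z = E1 * Real.log u := by rw [hz]; push_cast; rw [Real.log_pow]
  have lH : Real.log H = 1024 * Real.log z := by rw [hH]; push_cast; rw [Real.log_pow]; norm_num
  have lw0 : 0 < Real.log w := by rw [lw]; positivity
  have lu0 : 0 < Real.log u := by rw [lu]; positivity
  have v1 := VV_mul_log_le' v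
  have v2 := VV_mul_log_le' w
  have hTh : Th v w ≤ c0 * cw := by
    rw [hw]; exact (Th_le_pow (by omega) (by omega)).trans (by gcongr)
  have hσ0 : c.ell v * VV v ≤ C0 * (c.ell w * VV w) := by
    have h1 := c.ell_le' (show v ≤ w by omega)
    have h2 := VV_mul_Th (show v ≤ w by omega)
    rw [← h2, hC0]; push_cast
    calc _ ≤ (c.ell w * (c0 * cw)) * (VV w * (c0 * cw)) := by
          have := one_le_Th v w
          gcongr; exact h1.trans (by gcongr)
      _ = _ := by ring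
  have s1 : c.sig z H ≤ K1 * (Real.log w * (c.ell v * VV v)) := by
    refine (hσ c v z H H (by omega) hrv (by omega) (by omega)
      (Nat.le_mul_of_pos_left _ (by omega))).trans (le_of_eq ?_)
    rw [lH, lz, lu, hK1]; ring
  have s2 : c.sig w z ≤ K1 / 1024 * (Real.log w * (c.ell v * VV v)) := by
    refine (hσ c v w z z (by omega) hrv (by omega) (by omega)
      (Nat.le_mul_of_pos_left _ (by omega))).trans (le_of_eq ?_)
    rw [lz, lu, hK1]; ring
  have s3 : Real.log w * (c.ell v * VV v) ≤ cw * c.ell v := by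
    rw [lw]
    calc _ = cw * c.ell v * (VV v * Real.log v) := by ring
      _ ≤ _ := mul_le_of_le_one_right (by positivity) v1
  have s4 : Real.log w * (c.ell v * VV v) ≤ C0 * c.ell w * (VV w * Real.log w) := by
    calc _ ≤ Real.log w * (C0 * (c.ell w * VV w)) := by gcongr
      _ = _ := by ring
  have s5 : C0 * c.ell w * (VV w * Real.log w) ≤ C0 * c.ell w :=
    mul_le_of_le_one_right (by positivity) v2
  have s6 : 840 * G * 4 ^ k * K1 ^ 2 * C0 * cw * c.ell v ≤ 1 := by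
    rwa [le_div_iff₀' (by positivity)] at hη
  obtain ⟨N, hNd⟩ : ∃ N, N = w ^ (eu * E1 * 2048 - 1) := ⟨_, rfl⟩
  have hee : 1 ≤ eu * E1 := Nat.mul_pos (by omega) (by omega)
  have hx : N * w = z ^ 2048 := by
    rw [hNd, hz', ← pow_succ, ← pow_mul]; congr 1; omega
  have hTz : Th w z ≤ Θ := by
    rw [hz', hΘ]; exact (Th_le_pow (by omega) hee).trans (by gcongr)
  have hw1 : (1 : ℝ) ≤ w := by linarith
  have hlow : ∀ t : ℝ, 1 / (w : ℝ) ^ 6 ≤ t → (z : ℝ) ^ 2048 / u ^ 2 ≤ N * t * Vk a w := by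
    intro t ht
    have h1 := hN.Vk_ge (by omega) (show 1 ≤ w by omega)
    have h2 : (z : ℝ) ^ 2048 = N * w := by exact_mod_cast hx.symm
    rw [hcard] at h1
    calc _ ≤ (N * w : ℝ) / w ^ (2 * k + 7) := by
          rw [h2, hu]; push_cast; rw [← pow_mul]
          gcongr; omega
      _ = N * (1 / (w : ℝ) ^ 6) * (1 / w ^ (2 * k)) := by field_simp; ring
      _ ≤ _ := by
          have : 0 ≤ t := le_trans (by positivity) ht
          gcongr
  have hl3 : 1 / (w : ℝ) ^ 3 ≤ c.ell w := by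
    refine le_trans ?_ (c.ell_ge w)
    have h1 : (c.r : ℝ) ≤ v := by exact_mod_cast hrv
    have h2 := c.one_le_r
    calc _ = 1 / (w : ℝ) ^ 2 * (1 / w) := by field_simp
      _ ≤ _ := by gcongr; exacts [by nlinarith only [h1, h2, hvw', hv'], VV_ge (by omega)]
  have e4 : (1 / 4 : ℝ) ^ k = 1 / 4 ^ k := by rw [one_div_pow]
  have hPar : ParB a b c k v w eu u z N (w ^ s0) (1 / 2 ^ m) Θ (1 / Θ) C :=
    { hN := hN, hk := hcard, hk3 := by omega, hr := hr, hχ := hχ, hvw := by omega, hu := hu,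
      heu := by omega, hew := by omega,
      huz := by rw [hz]; exact Nat.pow_le_pow_right (by omega) (by omega)
      hx := hx
      hD1 := by rw [hu]; exact Nat.pow_le_pow_right (by omega) hse
      hε := by positivity,
      hε1 := by rw [div_le_one (by positivity)]; exact one_le_pow₀ (by norm_num),
      hΘ := hTz, hη := by positivity, hC := hC,
      hδ := by
        have h1 : 6 * 4 ^ k * Θ ^ (5 * k + 9) / 2 ^ m ≤ 1 := by rwa [div_le_one (by positivity)]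
        have h2 : W1 / w ≤ 1 := by rw [div_le_one (by linarith)]; linarith
        calc _ = 1 / Θ * (1 / 4 ^ k) * ((6 * 4 ^ k * Θ ^ (5 * k + 9) / 2 ^ m + W1 / w) / 2) := by
              rw [hW1]; field_simp; ring
          _ ≤ _ := by rw [e4]; exact mul_le_of_le_one_right (by positivity) (by linarith)
      hE := by
        calc _ = 1 / Θ * (1 / 4 ^ k) * W2 := by rw [hW2]; field_simp; ring
          _ ≤ _ := by rw [e4]; gcongr; linarith
      hCu := by linarith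
      low1 := hlow _ (le_trans (by gcongr; norm_num) hl3)
      low2 := hlow _ (by
        calc _ = (1 / (w : ℝ) ^ 3) ^ 2 := by field_simp
          _ ≤ _ := by gcongr)
      hS := hS, hP := hP }
  obtain ⟨s⟩ := hk0 m w (GP a w) (by omega) fun p hp => ⟨(mem_GP.1 hp).2.1, (mem_GP.1 hp).1⟩
  rw [← hs0] at s
  have huM : u ≤ u ^ M := Nat.le_self_pow (by omega) u
  obtain ⟨s2'⟩ := hk02 0 (u ^ M) (PP w (u ^ M)) (by omega)
    fun p hp => ⟨PP_prime hp, (mem_PP.1 hp).2.1⟩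
  rw [← pow_mul, ← hE1, ← hz, pow_zero, div_one] at s2'
  have hu1 : 1 ≤ u := by omega
  have hPH : u ^ (E1 * 1024 - 16) * u ^ 16 = H := by rw [hH', ← pow_add]; congr 1; omega
  have hzP : z ≤ u ^ (E1 * 1024 - 16) := by rw [hz]; exact Nat.pow_le_pow_right hu1 (by omega)
  obtain ⟨n, hn, hres⟩ := hPar.two s (s0 := s0) (J := J) (M1 := M1) (P1 := u ^ (E1 * 1024 - 16))
    (e := e) (Jb := u ^ 2) (Fm := Fm) (by omega) heu (by omega) (by rw [hM1]; push_cast; gcongr) s2' huM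
    (by rw [hz]; exact Nat.pow_le_pow_right hu1 hME) hH hzP (by rw [← pow_mul]; exact hPH.le)
    (by rw [hH', ← pow_mul, ← pow_mul]; exact Nat.pow_le_pow_right hu1 (by omega))
    (by rw [hH, he, ← pow_mul])
    (fun I n hn => by
      have h1 := mem_Ico.1 hn
      have h2 : 0 < N := by rw [hNd]; exact pow_pos (by omega) _
      rw [hFm, ← hcard]
      refine abs_Fw_le a b (by omega) s0 J u I 
        (fun l => (Nat.add_pos_left (Nat.mul_pos (hN.pos l) (by omega)) _).ne')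
        (fun l => ?_) (le_trans ?_ hTz)
      · rw [pow_mul, ← hz']; exact hPar.form_le l (by omega)
      · unfold Th; rw [prod_PP_split hwu huz]
        exact le_mul_of_one_le_right (zero_le_one.trans (one_le_Th w u)) (one_le_Th u z))
    (by calc H = u ^ (E1 * 1024) := hH'
          _ ≤ (2 ^ u) ^ (E1 * 1024) := Nat.pow_le_pow_left Nat.lt_two_pow_self.le _
          _ ≤ 2 ^ u ^ 2 := by
            rw [← pow_mul, sq]; exact Nat.pow_le_pow_right two_pos (Nat.mul_le_mul_left _ (by omega))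
          _ ≤ _ := Nat.le_mul_of_pos_left _ (by omega)) le_rfl
    (by have h1 : (0 : ℝ) < H := by exact_mod_cast (by omega : 0 < H)
        have h2 : Real.log u ≤ u := by linarith [Real.log_le_sub_one_of_pos (show (0 : ℝ) < u by linarith)]
        have h3 : Real.log 4 ≤ 2 := by
          rw [show (4 : ℝ) = 2 ^ 2 by norm_num, Real.log_pow]; push_cast
          linarith [Real.log_two_lt_d9]
        have h4 : 2051 * (E1 : ℝ) ≤ u := by exact_mod_cast (by omega : 2051 * E1 ≤ u)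
        push_cast
        rw [Real.log_mul (by norm_num) (by positivity), Real.log_pow, lH, lz]; push_cast
        have h5 : (1 : ℝ) ≤ E1 * u :=
          one_le_mul_of_one_le_of_one_le (by linarith only [hE1', hC0']) (hw1.trans hwu')
        linarith only [mul_le_mul_of_nonneg_left h2 (Nat.cast_nonneg E1), h3, h5,
          mul_le_mul_of_nonneg_right h4 (Nat.cast_nonneg u)])
    (by rw [← hG, ← hW3]; linarith)
    (by have h1 : 16 / (w : ℝ) ≤ 1 / 30 := by rw [div_le_div_iff₀ (by linarith) (by norm_num)]; linarith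
        have h2 : 1 / Θ ≤ 1 / 300 := by gcongr; linarith
        have h3 : 840 * (K1 * (cw * c.ell v)) ≤ 1 := by
          refine le_trans ?_ s6
          calc _ = 840 * 1 * 1 * (K1 * 1) * 1 * cw * c.ell v := by ring
            _ ≤ _ := by rw [sq]; gcongr
        have h4 := mul_le_mul_of_nonneg_left s3 (show 0 ≤ K1 / 1024 by positivity)
        linarith)
    (by have h1 : c.sig (u ^ (E1 * 1024 - 16)) H ≤ 288 * C0 * Real.log u * (c.ell w * VV w) := by
          refine (hσ c v _ H (u ^ 16) (by omega) hrv (by omega)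
            ((by omega : 2 ≤ u).trans (Nat.le_self_pow (by norm_num) u)) hPH.ge).trans ?_
          push_cast; rw [Real.log_pow]; push_cast
          calc _ ≤ 18 * (16 * Real.log u) * (C0 * (c.ell w * VV w)) := by gcongr
            _ = _ := by ring
        have h2 : Real.log (u ^ M : ℕ) = 200000 * C0 * Real.log u := by
          rw [hM]; push_cast; rw [Real.log_pow]; push_cast; ring
        rw [h2]
        calc _ ≤ 8 * (288 * C0 * Real.log u * (c.ell w * VV w)) *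
              (8 / (VV w * (200000 * C0 * Real.log u)) + 3 * (1 / (200000 * C0 * eu))) := by gcongr
          _ = c.ell w * (8 * 288 * 8 / 200000 + 8 * 288 * 3 / 200000 * (VV w * Real.log w)) := by
              rw [lu]; field_simp
          _ ≤ _ := by nlinarith only [hl, v2])
    (by rw [← hG, sq (c.sig z H)]
        have h1 := c.sig_nonneg z H
        calc _ ≤ 840 * G * 4 ^ k * ((K1 * (cw * c.ell v)) * (K1 * (C0 * c.ell w))) := by
              gcongr
              · exact s1.trans (by gcongr)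
              · exact s1.trans (mul_le_mul_of_nonneg_left (s4.trans s5) (by linarith only [hK11]))
          _ = 840 * G * 4 ^ k * K1 ^ 2 * C0 * cw * c.ell v * c.ell w := by ring
          _ ≤ _ := mul_le_of_le_one_left hl.le s6)
    (by have h1 := gain (w := w) (s0 := s0) (J := J) (R := u) (by omega) (by omega)
          (by rw [hu, heu]; exact Nat.pow_le_pow_right (by omega) (Nat.mul_le_mul_left _ (by omega)))
        have h2 := a2_nonneg w s0 J u
        have h3 : (4 : ℝ) ≤ k := by exact_mod_cast hk4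
        have h4 : (480 * 18 * 1024 * 64 * E1 * C0 * c0 ^ 2 : ℝ) ≤ J + 1 := by
          rw [hJ]; push_cast; linarith
        calc _ ≤ 240 * (K1 * (C0 * c.ell w * (VV w * Real.log w))) * a2 w s0 J u := by
              gcongr; exact s1.trans (by gcongr)
          _ = k / 2 * c.ell w * ((480 * 18 * 1024 * 64 * E1 * C0 * c0 ^ 2) * (J + 1) *
              (VV w * Real.log w * s0) / (8 * c0) * a2 w s0 J u) := by
              rw [hK1, heu, hM1]; push_cast; field_simp; ring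
          _ ≤ (k - 1) * c.ell w * ((J + 1) * (J + 1) * (VV w * Real.log w * s0) / (8 * CM) *
              a2 w s0 J u) :=
              mul_le_mul (mul_le_mul_of_nonneg_right (by linarith only [h3]) hl.le) (by gcongr)
                (by positivity) (mul_nonneg (by linarith only [h3]) hl.le)
          _ ≤ _ := by
              rw [← sq]; exact mul_le_mul_of_nonneg_left h1 (mul_nonneg (by linarith only [h3]) hl.le))
  refine ⟨n, ?_, hres⟩
  rw [pow_mul, ← hw, pow_mul, ← hz', ← hx]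
  exact hn.le.trans (by rw [mul_comm]; exact Nat.mul_le_mul_left _ (by omega))

end Pool.Agent.P.MP_746f10_nt
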