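import Mathlib
import Pool.Agent.P.MP_746f10_nt.ThmA
import Pool.Agent.P.MP_746f10_nt.ThmB

/-! Normalisation and the case distinction. -/

set_option linter.unusedSectionVars false

namespace Pool.Agent.P.MP_746f10_nt

open Finset

lemma exists_shift {ι : Type*} (a b : ι → ℕ) {Δ : ℕ} (hΔ : 0 < Δ)
    (h : ∀ p, p.Prime → p ∣ Δ → ∃ m, ∀ l, ¬ p ∣ a l * m + b l) :
    ∃ n0 < Δ, ∀ l, (a l * n0 + b l).Coprime Δ := by
  choose! m hm using h
  obtain ⟨t, ht⟩ := Nat.chineseRemainderOfFinset m id Δ.primeFactors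
    (fun p hp => (Nat.prime_of_mem_primeFactors hp).ne_zero) fun p hp q hq hne =>
      (Nat.coprime_primes (Nat.prime_of_mem_primeFactors hp) (Nat.prime_of_mem_primeFactors hq)).2 hne
  refine ⟨t % Δ, Nat.mod_lt _ hΔ, fun l => Nat.coprime_of_dvd fun p hp h1 h2 => hm p hp h2 l ?_⟩
  have h3 : t % Δ ≡ m p [MOD p] := ((Nat.mod_modEq t Δ).of_dvd h2).trans
    (ht p (Nat.mem_primeFactors.2 ⟨hp, h2, hΔ.ne'⟩))
  exact (Nat.modEq_zero_iff_dvd.1 (((h3.mul_left (a l)).add_right (b l)).symm.trans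
    (Nat.modEq_zero_iff_dvd.2 h1)))

variable {ι : Type*} [Fintype ι] [DecidableEq ι] {a b : ι → ℕ} {K v : ℕ}

lemma Nrm.sub (hN : Nrm a b K v) {K' v' : ℕ} (hK : K' ≤ K) (hv : v ≤ v') (s : Finset ι) :
    Nrm (fun l : s => a l) (fun l : s => b l) K' v' :=
  ⟨fun l => hN.lt l, fun l => (hN.le l).trans hv, fun l => hN.cop l, fun p l l' => hN.rad p l l',
    fun p l hp h => hN.small p l hp (h.trans hK),
    fun p n l l' hp h1 h2 => Subtype.ext (hN.sep p n l l' hp h1 h2)⟩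

lemma Nrm.shift (hN : Nrm a b K v) (hK : Fintype.card ι ≤ K) {r : ℕ} (hr : 0 < r) :
    ∃ n0 < r, (∀ l, (a l * n0 + b l).Coprime r) ∧
      Nrm (fun l => a l * r) (fun l => a l * n0 + b l) K (v * r) := by
  obtain ⟨n0, h1, h2⟩ := exists_shift a b hr fun p hp _ => by
    by_cases h : ∃ l', p ∣ a l'
    · obtain ⟨l', h⟩ := h
      exact ⟨0, fun l => hN.not_dvd hp h 0⟩
    · push Not at h
      rcases isEmpty_or_nonempty ι with h0 | h0
      · exact ⟨0, fun l => isEmptyElim l⟩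
      have hp' : p ∈ GP a p := mem_GP.2 ⟨le_rfl, hp, h⟩
      have h3 := (hN.good hp').sum_ev univ
      have h4 := hN.lt_of_mem hp'
      by_contra h5
      push Not at h5
      rw [sum_congr rfl fun m _ => ev_eq_one.2 ((h5 m).imp fun l hl => ⟨mem_univ l, hl⟩), sum_const,
        card_range, nsmul_eq_mul, mul_one, card_univ, Nat.cast_inj] at h3
      omega
  refine ⟨n0, h1, h2, fun l => ?_, fun l => Nat.mul_le_mul_right _ (hN.le l), fun l => ?_,
    fun p l l' hp h => ?_, fun p l hp h => (hN.small p l hp h).mul_right _, fun p n l l' hp h3 h4 => ?_⟩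
  · nlinarith [hN.lt l]
  · exact Nat.Coprime.mul_left (by simpa using hN.cop l) (h2 l).symm
  · exact (hp.dvd_mul.1 h).elim (fun h => (hN.rad p l l' hp h).mul_right _) fun h => h.mul_left _
  · exact hN.sep p (r * n + n0) l l' hp (by convert h3 using 1; ring) (by convert h4 using 1; ring)

theorem thmN : ∃ k E v0 : ℕ, ∀ {ι : Type} [Fintype ι] [DecidableEq ι] (a b : ι → ℕ) (v : ℕ),
    Fintype.card ι = k → v0 ≤ v → Nrm a b (2 * (k + 3)) v →
    ∃ n ≤ v ^ E, ∃ i j, i ≠ j ∧ (a i * n + b i).Prime ∧ (a j * n + b j).Prime := by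
  classical
  obtain ⟨c, C, hc, hC, hL⟩ := ls2
  obtain ⟨η2, hη2, huniq⟩ := hL.uniq hc hC
  obtain ⟨k2, e2, E2, v2, -, he2, hA2⟩ := hL.thmA hc hC hη2
  obtain ⟨kB, EB, vB, ηB, hηB, -, hB⟩ := thmB
  have hCM := one_le_CM
  have hec : 1 ≤ e2 * 2 * c := Nat.mul_pos (by omega) hc
  have hec' : (0 : ℝ) < CM * (e2 * 2 * c : ℕ) := by
    have : (0 : ℝ) < (e2 * 2 * c : ℕ) := by exact_mod_cast hec
    positivity
  obtain ⟨k1, e1, E1, v1, -, he1, hA1⟩ := hL.thmA hc hC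
    (lt_min hηB (div_pos hη2 hec') : 0 < min ηB (η2 / (CM * (e2 * 2 * c : ℕ))))
  refine ⟨k1 + kB + k2, E1 + e1 * 2 * c * (EB + E2 + 2), v1 + vB + v2 + 2, ?_⟩
  intro ι _ _ a b v hk hv hN
  by_cases h1 : ∀ χ : RC, χ.r ≤ v ^ e1 →
      min ηB (η2 / (CM * (e2 * 2 * c : ℕ))) ≤ χ.ell (((v ^ e1) ^ 2) ^ c)
  · obtain ⟨s, -, hs⟩ := exists_subset_card_eq (s := (univ : Finset ι)) (n := k1) (by simp; omega)
    obtain ⟨n, hn, i, j, hij, hp⟩ := hA1 (fun l : s => a l) (fun l : s => b l) v (fun _ => -1)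
      (by simpa using hs) (by omega) (hN.sub (by omega) le_rfl s) (fun _ _ => rfl)
      fun χ h => Or.inl (h1 χ h)
    exact ⟨n, hn.trans (Nat.pow_le_pow_right (by omega) (by omega)), i, j,
      fun h => hij (Subtype.ext h), hp⟩
  push Not at h1
  obtain ⟨χ, hr, hχ⟩ := h1
  obtain ⟨y, hy⟩ : ∃ y, y = ((v ^ e1) ^ 2) ^ c := ⟨_, rfl⟩
  rw [← hy] at hχ
  have hv1 : v ≤ v ^ e1 := Nat.le_self_pow (by omega) v
  have hvy : v * χ.r ≤ y := by
    calc _ ≤ (v ^ e1) ^ 2 := by rw [sq]; exact Nat.mul_le_mul hv1 hr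
      _ ≤ y := hy ▸ Nat.le_self_pow (by omega) _
  have hr0 := χ.r_pos
  have hvy' : v ≤ y := (Nat.le_mul_of_pos_right _ hr0).trans hvy
  have hry : χ.r ≤ y := (Nat.le_mul_of_pos_left _ (by omega)).trans hvy
  obtain ⟨n0, hn0, hco, hN'⟩ := hN.shift (by omega) hr0
  have fin : ∀ (s : Finset ι) (E : ℕ), E ≤ EB + E2 → (∃ n ≤ y ^ E, ∃ i j : s, i ≠ j ∧
      (a i * χ.r * n + (a i * n0 + b i)).Prime ∧ (a j * χ.r * n + (a j * n0 + b j)).Prime) →
      ∃ n ≤ v ^ (E1 + e1 * 2 * c * (EB + E2 + 2)), ∃ i j, i ≠ j ∧ (a i * n + b i).Prime ∧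
        (a j * n + b j).Prime := by
    rintro s E hE ⟨n, hn, i, j, hij, p1, p2⟩
    refine ⟨χ.r * n + n0, ?_, i, j, fun h => hij (Subtype.ext h), by convert p1 using 1; ring,
      by convert p2 using 1; ring⟩
    have a1 : n ≤ y ^ (EB + E2) := hn.trans (Nat.pow_le_pow_right (by omega) hE)
    have a2 : 1 ≤ y ^ (EB + E2) := Nat.one_le_pow _ _ (by omega)
    calc _ ≤ y * y ^ (EB + E2) + y * y ^ (EB + E2) :=
          add_le_add (Nat.mul_le_mul hry a1) (by nlinarith)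
      _ ≤ y * (y * y ^ (EB + E2)) := by rw [← two_mul]; gcongr; omega
      _ = v ^ (e1 * 2 * c * (EB + E2 + 2)) := by rw [pow_mul, pow_mul, pow_mul, ← hy]; ring
      _ ≤ _ := Nat.pow_le_pow_right (by omega) (by omega)
  have hcard := card_filter_add_card_filter_not (s := (univ : Finset ι))
    (fun l => χ.χ (a l * n0 + b l) = 1)
  rw [card_univ, hk] at hcard
  by_cases h2 : kB ≤ (univ.filter fun l => χ.χ (a l * n0 + b l) = 1).card
  · obtain ⟨s, hs1, hs⟩ := exists_subset_card_eq h2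
    exact fin s EB (by omega) (hB (fun l : s => a l * χ.r) (fun l : s => a l * n0 + b l) χ y
      (by simpa using hs) (by omega) (hN'.sub (by omega) hvy s) (fun l => dvd_mul_left _ _)
      (fun l => (mem_filter.1 (hs1 l.2)).2) (hχ.le.trans (min_le_left _ _)))
  · obtain ⟨s, hs1, hs⟩ := exists_subset_card_eq
      (s := univ.filter fun l => ¬ χ.χ (a l * n0 + b l) = 1) (n := k2) (by omega)
    refine fin s E2 (by omega) (hA2 (fun l : s => a l * χ.r) (fun l : s => a l * n0 + b l) y χ.χ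
      (by simpa using hs) (by omega) (hN'.sub (by omega) hvy s) (fun l n => ?_) fun ψ hψ => ?_)
    · rw [χ.of_modEq (n := a l * n0 + b l) (by
        simpa using (Nat.modEq_zero_iff_dvd.2 ((dvd_mul_left χ.r (a l)).mul_right n)).add_right
          (a l * n0 + b l))]
      exact ((χ.val _).resolve_left (χ.ne _ (hco l))).resolve_left (mem_filter.1 (hs1 l.2)).2
    · have hy1 : y ≤ y ^ e2 := Nat.le_self_pow (by omega) y
      refine or_iff_not_imp_left.2 fun h3 => huniq _ ψ χ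
        (le_trans (by omega) (hy1.trans (Nat.le_self_pow two_ne_zero _)))
        (by rw [sq]; exact Nat.mul_le_mul hψ (hry.trans hy1)) (not_le.1 h3).le ?_
      rw [← pow_mul, ← pow_mul, ← mul_assoc]
      refine (χ.ell_le (Nat.le_self_pow (by omega) y)).trans ?_
      rw [← div_mul_cancel₀ η2 hec'.ne']
      exact mul_le_mul (hχ.le.trans (min_le_right _ _)) (Th_le_pow (by omega) hec)
        (zero_le_one.trans (one_le_Th _ _)) (by positivity)

lemma exists_Nrm (K : ℕ) (h1 : ∀ i, 1 ≤ b i ∧ b i < a i)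
    (h2 : ∀ p : ℕ, p.Prime → ∃ m : ℤ, ∀ i, ¬ ((p : ℤ) ∣ (a i : ℤ) * m + (b i : ℤ)))
    (h3 : ∀ i j, i ≠ j → (a i, b i) ≠ (a j, b j)) :
    ∃ Δ n0 : ℕ, n0 < Δ ∧ Δ ≤ K.factorial * (∏ i, a i) ^ (2 * Fintype.card ι ^ 2 + 1) ∧
      Nrm (fun l => a l * Δ) (fun l => a l * n0 + b l) K ((∏ i, a i) * Δ) := by
  have ha : ∀ i, 0 < a i := fun i => by have := h1 i; omega
  have hA : ∀ i, a i ≤ ∏ i, a i := fun i =>
    Nat.le_of_dvd (prod_pos fun i _ => ha i) (dvd_prod_of_mem a (mem_univ i))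
  have hcop : ∀ i, (a i).Coprime (b i) := fun i => Nat.coprime_of_dvd fun p hp d1 d2 => by
    obtain ⟨m, hm⟩ := h2 p hp
    exact hm i (dvd_add ((Int.natCast_dvd_natCast.2 d1).mul_right m) (Int.natCast_dvd_natCast.2 d2))
  set d : ι × ι → ℕ := fun x => ((a x.2 : ℤ) * b x.1 - a x.1 * b x.2).natAbs with hd
  have hd0 : ∀ x ∈ (univ : Finset ι).offDiag, 0 < d x := fun x hx => by
    refine Int.natAbs_pos.2 fun h => h3 _ _ (mem_offDiag.1 hx).2.2 ?_
    have e : a x.2 * b x.1 = a x.1 * b x.2 := by exact_mod_cast sub_eq_zero.1 h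
    have e1 : a x.1 = a x.2 := Nat.dvd_antisymm
      ((hcop x.1).dvd_of_dvd_mul_right (e ▸ dvd_mul_right _ _))
      ((hcop x.2).dvd_of_dvd_mul_right (e ▸ dvd_mul_right _ _))
    rw [e1] at e
    rw [e1, Nat.eq_of_mul_eq_mul_left (ha _) e]
  set Δ := K.factorial * ((∏ i, a i) * ∏ x ∈ (univ : Finset ι).offDiag, d x) with hΔ
  have hΔ0 : 0 < Δ := Nat.mul_pos (Nat.factorial_pos K)
    (Nat.mul_pos (prod_pos fun i _ => ha i) (prod_pos hd0))
  have haΔ : ∀ l, a l ∣ Δ := fun l => ((dvd_prod_of_mem a (mem_univ l)).mul_right _).mul_left _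
  obtain ⟨n0, hn0, hco⟩ := exists_shift a b hΔ0 fun p hp _ => by
    obtain ⟨m, hm⟩ := h2 p hp
    have hp0 : (p : ℤ) ≠ 0 := by exact_mod_cast hp.ne_zero
    refine ⟨(m % p).toNat, fun l h => hm l ?_⟩
    have h4 := Int.natCast_dvd_natCast.2 h
    push_cast at h4
    rw [Int.toNat_of_nonneg (Int.emod_nonneg m hp0)] at h4
    have e : (a l : ℤ) * m + b l = a l * (m % p) + b l + p * (a l * (m / p)) := by
      linear_combination (-(a l : ℤ)) * Int.emod_add_mul_ediv m p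
    rw [e]; exact dvd_add h4 (dvd_mul_right _ _)
  refine ⟨Δ, n0, hn0, Nat.mul_le_mul_left _ ?_, fun l => ?_, fun l => Nat.mul_le_mul_right _ (hA l),
    fun l => ?_, fun p l l' hp h => ?_, fun p l hp h => ?_, fun p n l l' hp h4 h5 => ?_⟩
  · rw [pow_succ', pow_mul]
    refine Nat.mul_le_mul_left _ ((prod_le_pow_card _ _ ((∏ i, a i) ^ 2) fun x _ => ?_).trans
      (Nat.pow_le_pow_right (pow_pos (prod_pos fun i _ => ha i) 2) ?_))
    · have e1 : a x.2 * b x.1 ≤ (∏ i, a i) ^ 2 := by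
        rw [sq]; exact Nat.mul_le_mul (hA _) ((h1 _).2.le.trans (hA _))
      have e2 : a x.1 * b x.2 ≤ (∏ i, a i) ^ 2 := by
        rw [sq]; exact Nat.mul_le_mul (hA _) ((h1 _).2.le.trans (hA _))
      simp only [hd, ← Nat.cast_mul]
      omega
    · rw [offDiag_card, card_univ, sq]; omega
  · nlinarith [(h1 l).2]
  · exact Nat.Coprime.mul_left ((hco l).symm.coprime_dvd_left (haΔ l)) (hco l).symm
  · exact ((hp.dvd_mul.1 h).elim (fun h => h.trans (haΔ l)) id).mul_left _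
  · exact ((hp.dvd_factorial.2 h).mul_right _).mul_left _
  · by_contra hne
    have h6 : p ∣ d (l, l') := by
      refine Int.natCast_dvd.1 ?_
      have b1 := (Int.natCast_dvd_natCast.2 h4).mul_left (a l' : ℤ)
      have b2 := (Int.natCast_dvd_natCast.2 h5).mul_left (a l : ℤ)
      have e : (a l' : ℤ) * b l - a l * b l' = a l' * (a l * Δ * n + (a l * n0 + b l) : ℕ) -
          a l * (a l' * Δ * n + (a l' * n0 + b l') : ℕ) := by push_cast; ring
      rw [e]; exact dvd_sub b1 b2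
    have h7 : p ∣ Δ := ((h6.trans (dvd_prod_of_mem d
      (mem_offDiag.2 ⟨mem_univ _, mem_univ _, hne⟩))).mul_left _).mul_left _
    exact hp.one_lt.ne' (Nat.eq_one_of_dvd_coprimes (hco l)
      ((Nat.dvd_add_right ((h7.mul_left _).mul_right n)).1 h4) h7)

theorem main : ∃ k E γ : ℕ, 0 < E ∧ 0 < γ ∧ ∀ {ι : Type} [Fintype ι] [DecidableEq ι] (a b : ι → ℕ),
    Fintype.card ι = k → (∀ i, 1 ≤ b i ∧ b i < a i) →
    (∀ p : ℕ, p.Prime → ∃ m : ℤ, ∀ i, ¬ ((p : ℤ) ∣ (a i : ℤ) * m + (b i : ℤ))) →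
    (∀ i j, i ≠ j → (a i, b i) ≠ (a j, b j)) →
    ∃ n ≤ γ * (∏ i, a i) ^ E, ∃ i j, (a i * n + b i).Prime ∧ (a j * n + b j).Prime ∧
      a i * n + b i ≠ a j * n + b j := by
  obtain ⟨k, E, v0, h⟩ := thmN
  refine ⟨k, (2 * k ^ 2 + 2) * (E + 1), 2 * ((2 * (k + 3)).factorial + v0) ^ (E + 1), by positivity,
    by positivity, ?_⟩
  intro ι _ _ a b hk h1 h2 h3
  obtain ⟨Δ, n0, a1, a2, hN⟩ := exists_Nrm (2 * (k + 3)) h1 h2 h3
  rw [hk] at a2
  have hA : 1 ≤ ∏ i, a i := prod_pos fun i _ => lt_of_le_of_lt (Nat.zero_le _) (h1 i).2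
  generalize ∏ i, a i = A at *
  obtain ⟨v, hv⟩ : ∃ v, v = ((2 * (k + 3)).factorial + v0) * A ^ (2 * k ^ 2 + 2) := ⟨_, rfl⟩
  have b1 : A * Δ ≤ v := by
    calc _ ≤ A * ((2 * (k + 3)).factorial * A ^ (2 * k ^ 2 + 1)) := Nat.mul_le_mul_left _ a2
      _ = (2 * (k + 3)).factorial * A ^ (2 * k ^ 2 + 2) := by ring
      _ ≤ v := by rw [hv]; gcongr; omega
  have b2 : Δ ≤ v := (Nat.le_mul_of_pos_left _ hA).trans b1
  obtain ⟨n, hn, i, j, hij, p1, p2⟩ := h (fun l => a l * Δ) (fun l => a l * n0 + b l) v hk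
    (hv ▸ le_trans (by omega) (Nat.le_mul_of_pos_right _ (by positivity)))
    ⟨hN.lt, fun l => (hN.le l).trans b1, hN.cop, hN.rad, hN.small, hN.sep⟩
  have e : ∀ l, a l * (Δ * n + n0) + b l = a l * Δ * n + (a l * n0 + b l) := fun l => by ring
  refine ⟨Δ * n + n0, ?_, i, j, e i ▸ p1, e j ▸ p2, fun h4 => hij (hN.sep _ n i j p1 dvd_rfl ?_)⟩
  · have b3 : 1 ≤ v ^ E := Nat.one_le_pow _ _ (by omega)
    calc _ ≤ v * v ^ E + v * v ^ E := add_le_add (Nat.mul_le_mul b2 hn) (by nlinarith)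
      _ = 2 * v ^ (E + 1) := by ring
      _ = _ := by rw [hv, mul_pow, ← pow_mul, mul_assoc]
  · rw [← e, ← e, h4]

end Pool.Agent.P.MP_746f10_nt
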